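import Mathlib

/-!
Differential modules over the polynomial ring `A k` in the variables `x₀, x₁, ...`, with a scaling
operator `φ`, their homology and scaled trace, adding a row, quotients, products.
-/

noncomputable section

namespace Pool.Agent.Lib.MP_31c440_gt.HV

open MvPolynomial

/-- The polynomial ring in countably many variables. -/
abbrev A (k : Type) [Field k] := MvPolynomial ℕ k

/-- The scaling `xᵢ ↦ q² xᵢ`. -/
def scl (k : Type) [Field k] (q : kˣ) : A k →ₐ[k] A k :=
  aeval fun i => C ((q : k) ^ 2) * X i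

/-- A differential module with a scaling operator: `d` is `A k`-linear and `φ d = c d φ`. -/
structure Cx (k : Type) [Field k] (q c : kˣ) where
  N : Type
  [ac : AddCommGroup N]
  [mK : Module k N]
  [mA : Module (A k) N]
  [st : IsScalarTower k (A k) N]
  φ : N →ₗ[k] N
  φ_smul : ∀ (r : A k) (x : N), φ (r • x) = scl k q r • φ x
  d : N →ₗ[A k] N
  hd : ∀ x, φ (d x) = (c : k) • d (φ x)

attribute [instance] Cx.ac Cx.mK Cx.mA Cx.st

variable {k : Type} [Field k] {q c : kˣ}

theorem smul_comm_kA {N : Type} [AddCommGroup N] [Module k N] [Module (A k) N]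
    [IsScalarTower k (A k) N] (r : k) (p : A k) (x : N) : p • r • x = r • p • x := by
  rw [← algebraMap_smul (A k) r x, ← algebraMap_smul (A k) r (p • x), smul_smul, smul_smul,
    mul_comm]

theorem lin_smul {N N' : Type} [AddCommGroup N] [Module k N] [Module (A k) N]
    [IsScalarTower k (A k) N] [AddCommGroup N'] [Module k N'] [Module (A k) N']
    [IsScalarTower k (A k) N'] (f : N →ₗ[A k] N') (r : k) (x : N) : f (r • x) = r • f x := by
  rw [← algebraMap_smul (A k) r x, map_smul, algebraMap_smul]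

namespace Cx

/-- Cycles. -/
def Z (X : Cx k q c) : Submodule (A k) X.N := LinearMap.ker X.d

/-- Boundaries which are cycles, as a submodule of the cycles. -/
def B (X : Cx k q c) : Submodule (A k) X.Z := (LinearMap.range X.d).comap X.Z.subtype

/-- Homology (only used when `d ∘ d = 0`). -/
abbrev H (X : Cx k q c) : Type := X.Z ⧸ X.B

theorem mem_Z (X : Cx k q c) {x : X.N} : x ∈ X.Z ↔ X.d x = 0 := LinearMap.mem_ker

theorem mem_B (X : Cx k q c) {x : X.Z} : x ∈ X.B ↔ ∃ y, X.d y = x := by
  simp [B, LinearMap.mem_range]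

theorem φ_mem_Z (X : Cx k q c) {x : X.N} (h : x ∈ X.Z) : X.φ x ∈ X.Z := by
  rw [mem_Z] at *
  have := X.hd x
  rw [h, map_zero] at this
  have h2 := congrArg (fun y => ((c⁻¹ : kˣ) : k) • y) this
  simpa [smul_smul] using h2.symm

/-- The scaling operator on cycles. -/
def φZ (X : Cx k q c) : X.Z →ₗ[k] X.Z where
  toFun x := ⟨X.φ x, X.φ_mem_Z x.2⟩
  map_add' x y := by ext; simp
  map_smul' r x := by ext; simp

theorem φ_mem_B (X : Cx k q c) {x : X.Z} (h : x ∈ X.B) : X.φZ x ∈ X.B := by
  rw [mem_B] at *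
  obtain ⟨y, hy⟩ := h
  refine ⟨(c : k) • X.φ y, ?_⟩
  rw [lin_smul, ← X.hd, hy]
  rfl

/-- The scaling operator on homology. -/
def φH (X : Cx k q c) : X.H →ₗ[k] X.H :=
  (X.B.restrictScalars k).mapQ (X.B.restrictScalars k) X.φZ (fun _ hx => X.φ_mem_B hx)

/-- The scaled trace on homology. -/
def τ (X : Cx k q c) : k := LinearMap.trace k X.H X.φH

/-- The homology is finite-dimensional. -/
def FD (X : Cx k q c) : Prop := Module.Finite k X.H

end Cx

/-- A row `(a, b)` with its weight: `b` has weight `c s` and `a` has weight `c / s`. -/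
structure Row (k : Type) [Field k] (q c : kˣ) where
  a : A k
  b : A k
  s : kˣ
  ha : (s : k) • scl k q a = (c : k) • a
  hb : scl k q b = ((c : k) * s) • b

/-- Adding a row: the module `M × M` with `d (x, y) = (d x + a y, b x - d y)`. -/
def Cx.addRow (r : Row k q c) (X : Cx k q c) : Cx k q c where
  N := X.N × X.N
  φ := (LinearMap.fst k X.N X.N |> X.φ.comp |> ((r.s : k) • ·)).prod
    (X.φ.comp (LinearMap.snd k X.N X.N))
  φ_smul p x := by
    ext
    · simp [X.φ_smul, smul_comm_kA]
    · simp [X.φ_smul]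
  d := (X.d.comp (LinearMap.fst _ _ _) + r.a • LinearMap.snd _ _ _).prod
    (r.b • LinearMap.fst _ _ _ - X.d.comp (LinearMap.snd _ _ _))
  hd x := by
    ext
    · have h1 : (r.s : k) • X.φ (r.a • x.2) = (c : k) • r.a • X.φ x.2 := by
        rw [X.φ_smul, ← smul_assoc, r.ha, smul_assoc]
      simp [X.hd, h1, smul_comm (r.s : k) (c : k)]
    · have h1 : X.φ (r.b • x.1) = (c : k) • r.b • (r.s : k) • X.φ x.1 := by
        rw [X.φ_smul, r.hb, smul_assoc, smul_comm_kA, smul_smul]
      simp [X.hd, h1, smul_sub]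

/-- Adding a list of rows, the head of the list last. -/
def Cx.rows (L : List (Row k q c)) (X : Cx k q c) : Cx k q c := L.foldr Cx.addRow X

/-- The quotient by a homogeneous element. -/
def Cx.quot (X : Cx k q c) (x : A k) (hx : ∃ r : k, scl k q x = r • x) : Cx k q c where
  N := X.N ⧸ LinearMap.range (LinearMap.lsmul (A k) X.N x)
  st := ⟨fun r p y => by
    obtain ⟨y, rfl⟩ := Submodule.Quotient.mk_surjective _ y
    exact congrArg (Submodule.Quotient.mk) (smul_assoc r p y)⟩
  φ := ((LinearMap.range (LinearMap.lsmul (A k) X.N x)).restrictScalars k).mapQ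
    ((LinearMap.range (LinearMap.lsmul (A k) X.N x)).restrictScalars k) X.φ (by
      rintro _ ⟨y, rfl⟩
      obtain ⟨r, hr⟩ := hx
      refine ⟨r • X.φ y, ?_⟩
      simp only [LinearMap.lsmul_apply]
      rw [X.φ_smul, hr, smul_assoc, smul_comm_kA])
  φ_smul p y := by
    obtain ⟨y, rfl⟩ := Submodule.Quotient.mk_surjective _ y
    exact congrArg (Submodule.Quotient.mk) (X.φ_smul p y)
  d := (LinearMap.range (LinearMap.lsmul (A k) X.N x)).mapQ _ X.d (by
      rintro _ ⟨y, rfl⟩
      exact ⟨X.d y, by simp⟩)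
  hd y := by
    obtain ⟨y, rfl⟩ := Submodule.Quotient.mk_surjective _ y
    exact congrArg (Submodule.Quotient.mk) (X.hd y)

/-- The product of two differential modules. -/
def Cx.prod (X Y : Cx k q c) : Cx k q c where
  N := X.N × Y.N
  φ := X.φ.prodMap Y.φ
  φ_smul p x := by ext <;> simp [X.φ_smul, Y.φ_smul]
  d := X.d.prodMap Y.d
  hd x := by ext <;> simp [X.hd, Y.hd]

/-- A power of a differential module with scaled components. -/
def Cx.pow {ι : Type} (w : ι → k) (X : Cx k q c) : Cx k q c where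
  N := ι → X.N
  φ := LinearMap.pi fun i => w i • X.φ.comp (LinearMap.proj i)
  φ_smul p x := by ext i; simp [X.φ_smul, smul_comm_kA]
  d := LinearMap.pi fun i => X.d.comp (LinearMap.proj i)
  hd x := by ext i; simp [X.hd, smul_comm (w i) (c : k)]

/-- An isomorphism up to the scalar `u`. -/
structure CIso (u : k) (X Y : Cx k q c) where
  e : X.N ≃ₗ[k] Y.N
  hd : ∀ x, e (X.d x) = Y.d (e x)
  hφ : ∀ x, e (X.φ x) = u • Y.φ (e x)

/-- The map `e` carries the action of `p` to the action of `p'`. -/
def CIso.Int {u : k} {X Y : Cx k q c} (f : CIso u X Y) (p p' : A k) : Prop :=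
  ∀ x, f.e (p • x) = p' • f.e x

/-- The homologies are isomorphic up to the scalar `u`. -/
def HIso (u : k) (X Y : Cx k q c) : Prop :=
  ∃ e : X.H ≃ₗ[k] Y.H, ∀ x, e (X.φH x) = u • Y.φH (e x)

end Pool.Agent.Lib.MP_31c440_gt.HV
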