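import Mathlib

/-!
Oriented virtual link diagrams as lists of signed crossings with labelled edges (Gauss diagrams),
the generalised Reidemeister moves, virtualisation, closed braids, and functions of HOMFLY type.
-/

namespace Pool.Agent.Lib.MP_31c440_gt.HV

/-- A node of an oriented diagram whose edges carry natural numbers as labels.
`arc i o` is a marked point: the strand comes in along the edge `i` and goes out along `o`.
`xing s a b c d` is a classical crossing: the over strand comes in along `a` and goes out along
`b`, the under strand comes in along `c` and goes out along `d`; the sign is `+1` if `s` is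
`true` and `-1` otherwise. Virtual crossings are not recorded. -/
inductive Node where
  | arc (i o : ℕ) : Node
  | xing (s : Bool) (a b c d : ℕ) : Node
  deriving DecidableEq

namespace Node

/-- The labels of the edges that come in. -/
def ins : Node → List ℕ
  | arc i _ => [i]
  | xing _ a _ c _ => [a, c]

/-- The labels of the edges that go out. -/
def outs : Node → List ℕ
  | arc _ o => [o]
  | xing _ _ b _ d => [b, d]

/-- Change the labels. -/
def map (f : ℕ → ℕ) : Node → Node
  | arc i o => arc (f i) (f o)
  | xing s a b c d => xing s (f a) (f b) (f c) (f d)

end Node

/-- The labels that come in at some node, with repetitions. -/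
def insOf (L : List Node) : List ℕ := L.flatMap Node.ins

/-- The labels that go out at some node, with repetitions. -/
def outsOf (L : List Node) : List ℕ := L.flatMap Node.outs

/-- `L` is an oriented virtual link diagram: every label comes in at most once, and the labels
that go out are the same, each once. -/
def IsDiagram (L : List Node) : Prop := (insOf L).Nodup ∧ (insOf L).Perm (outsOf L)

/-- The two edges of a strand `x.1`, `x.2.1`, `x.2.2` at its first crossing (`e = true`) or at its
second crossing (`e = false`). -/
def seg (e : Bool) (x : ℕ × ℕ × ℕ) : ℕ × ℕ := if e then (x.1, x.2.1) else (x.2.1, x.2.2)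

/-- The product of three signs. -/
def sg (o x y : Bool) : Bool := o == (x == y)

/-- A crossing of the strand pieces `x` (over) and `y` (under). -/
def xg (s : Bool) (x y : ℕ × ℕ) : Node := Node.xing s x.1 x.2 y.1 y.2

/-- One side of the third Reidemeister move. Top strand `t`, middle strand `m`, bottom strand `b`;
`p`: the top strand meets the middle strand first; `q`: the middle strand meets the top strand
first; `r`: the bottom strand meets the top strand first. The other side of the move reverses the
three orders and keeps the signs `s₁` (top, middle), `s₂` (top, bottom), `s₃` (middle, bottom). -/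
def triSide (p q r : Bool) (s₁ s₂ s₃ : Bool) (t m b : ℕ × ℕ × ℕ) : List Node :=
  [xg s₁ (seg p t) (seg q m), xg s₂ (seg (!p) t) (seg r b), xg s₃ (seg (!q) m) (seg (!r) b)]

/-- The local moves. -/
inductive Local : List Node → List Node → Prop
  /-- a marked point may be removed before or after another node -/
  | arcArc (i e o) : Local [Node.arc i e, Node.arc e o] [Node.arc i o]
  | arcOver (i s a b c d) : Local [Node.arc i a, Node.xing s a b c d] [Node.xing s i b c d]
  | arcUnder (i s a b c d) : Local [Node.arc i c, Node.xing s a b c d] [Node.xing s a b i d]
  | overArc (o s a b c d) : Local [Node.xing s a b c d, Node.arc b o] [Node.xing s a o c d]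
  | underArc (o s a b c d) : Local [Node.xing s a b c d, Node.arc d o] [Node.xing s a b c o]
  /-- first Reidemeister moves -/
  | r1Over (s i e o) : Local [Node.xing s i e e o] [Node.arc i o]
  | r1Under (s i e o) : Local [Node.xing s e o i e] [Node.arc i o]
  /-- second Reidemeister moves, strands in the same direction or in opposite directions -/
  | r2Same (s a b e c d f) :
      Local [Node.xing s a b c d, Node.xing (!s) b e d f] [Node.arc a e, Node.arc c f]
  | r2Opp (s a b e c d f) :
      Local [Node.xing s a b d f, Node.xing (!s) b e c d] [Node.arc a e, Node.arc c f]
  /-- third Reidemeister moves, all orientations; `o` is the orientation of the triangle -/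
  | r3 (o p q r : Bool) (t m b : ℕ × ℕ × ℕ) :
      Local (triSide p q r (sg o p q) (sg o p r) (sg o q r) t m b)
        (triSide (!p) (!q) (!r) (sg o p q) (sg o p r) (sg o q r) t m b)
  /-- virtualisation: the over and the under strand are exchanged, the sign is kept -/
  | virt (s a b c d) : Local [Node.xing s a b c d] [Node.xing s c d a b]

/-- One step: change the order of the list, the labels, or apply a local move. -/
inductive Step : List Node → List Node → Prop
  | perm {L L'} : L.Perm L' → Step L L'
  | relabel (L : List Node) (f : ℕ → ℕ) : Function.Injective f → Step L (L.map (Node.map f))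
  | move {T T'} (S : List Node) : Local T T' → Step (T ++ S) (T' ++ S)

/-- Two diagrams are related if a finite sequence of steps and inverse steps through diagrams
leads from one to the other. -/
def Related (L L' : List Node) : Prop :=
  Relation.EqvGen (fun K K' => IsDiagram K ∧ IsDiagram K' ∧ Step K K') L L'

/-- A word in the braid generators: `(i, true)` is `σᵢ` and `(i, false)` its inverse, with `i`
counted from `0`. -/
abbrev BraidWord := List (ℕ × Bool)

/-- All letters are generators of the braid group on `n` strands. -/
def ValidWord (n : ℕ) (w : BraidWord) : Prop := ∀ x ∈ w, x.1 + 1 < n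

/-- The nodes of the letter `x` of a braid word on `n` strands, between the levels `l` and `l + 1`.
The strand in position `j` at level `l` has the label `l * n + j`. In a positive crossing the
strand from the left goes over; the strands that do not take part get a marked point. -/
def layer (n l : ℕ) (x : ℕ × Bool) : List Node :=
  (if x.2 then
    Node.xing true (l * n + x.1) ((l + 1) * n + (x.1 + 1)) (l * n + (x.1 + 1)) ((l + 1) * n + x.1)
  else
    Node.xing false (l * n + (x.1 + 1)) ((l + 1) * n + x.1) (l * n + x.1)
      ((l + 1) * n + (x.1 + 1))) ::
  ((List.range n).filter fun j => j ≠ x.1 ∧ j ≠ x.1 + 1).map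
    fun j => Node.arc (l * n + j) ((l + 1) * n + j)

/-- The nodes of a braid word which starts at level `l`. -/
def layers (n : ℕ) : ℕ → BraidWord → List Node
  | _, [] => []
  | l, x :: w => layer n l x ++ layers n (l + 1) w

/-- The closure of a braid word on `n` strands. -/
def closure (n : ℕ) (w : BraidWord) : List Node :=
  layers n 0 w ++ (List.range n).map fun j => Node.arc (w.length * n + j) j

/-- `P` is a function of HOMFLY type with parameters `a` and `z` (values of the HOMFLY polynomial
of closed braids): invariant under the relations of the braid groups, conjugation and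
stabilisation, with `a⁻¹ P(+) - a P(-) = z P(0)` and value `1` at the trivial knot. -/
structure IsHomfly {R : Type*} [CommRing R] (a z : Rˣ) (P : ℕ → BraidWord → R) : Prop where
  one : P 1 [] = 1
  conj : ∀ n u v, ValidWord n (u ++ v) → P n (u ++ v) = P n (v ++ u)
  inv : ∀ n u v i s, ValidWord n (u ++ (i, s) :: (i, !s) :: v) →
    P n (u ++ (i, s) :: (i, !s) :: v) = P n (u ++ v)
  far : ∀ n u v i j s t, i + 2 ≤ j → ValidWord n (u ++ (i, s) :: (j, t) :: v) →
    P n (u ++ (i, s) :: (j, t) :: v) = P n (u ++ (j, t) :: (i, s) :: v)
  braid : ∀ n u v i, ValidWord n (u ++ (i, true) :: (i + 1, true) :: (i, true) :: v) →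
    P n (u ++ (i, true) :: (i + 1, true) :: (i, true) :: v) =
      P n (u ++ (i + 1, true) :: (i, true) :: (i + 1, true) :: v)
  markov : ∀ n w s, ValidWord (n + 1) w → P (n + 2) (w ++ [(n, s)]) = P (n + 1) w
  skein : ∀ n u v i, ValidWord n (u ++ (i, true) :: v) →
    (a⁻¹ : Rˣ) * P n (u ++ (i, true) :: v) - a * P n (u ++ (i, false) :: v) = z * P n (u ++ v)

end Pool.Agent.Lib.MP_31c440_gt.HV
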