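import Pool.Agent.Lib.MP_31c440_gt.HV.Ring

/-!
Power sums of two variables in terms of the symmetric functions, the rows of the nodes of an
abstract graph, and the invariant `F`.
-/

noncomputable section

namespace Pool.Agent.Lib.MP_31c440_gt.HV

open MvPolynomial

/-- `x ^ n + y ^ n` in terms of `e = x + y` and `p = x y`. -/
def ps {R : Type*} [CommRing R] (e p : R) : ℕ → R
  | 0 => 2
  | 1 => e
  | n + 2 => e * ps e p (n + 1) - p * ps e p n

/-- The divided difference of `ps` in the first argument. -/
def dE {R : Type*} [CommRing R] (e e' p : R) : ℕ → R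
  | 0 => 0
  | 1 => 1
  | n + 2 => ps e p (n + 1) + e' * dE e e' p (n + 1) - p * dE e e' p n

/-- The divided difference of `ps` in the second argument. -/
def dP {R : Type*} [CommRing R] (e' p p' : R) : ℕ → R
  | 0 => 0
  | 1 => 0
  | n + 2 => e' * dP e' p p' (n + 1) - p * dP e' p p' n - ps e' p' n

/-- `(o ^ n - i ^ n) / (o - i)`. -/
def aA {R : Type*} [CommRing R] (i o : R) (n : ℕ) : R :=
  ∑ j ∈ Finset.range n, o ^ j * i ^ (n - 1 - j)

theorem ps_sub {R : Type*} [CommRing R] (e e' p p' : R) (n : ℕ) :
    ps e p n - ps e' p' n = (e - e') * dE e e' p n + (p - p') * dP e' p p' n := by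
  have h1 : ∀ n, ps e p n - ps e' p n = (e - e') * dE e e' p n ∧
      ps e p (n + 1) - ps e' p (n + 1) = (e - e') * dE e e' p (n + 1) := by
    intro n
    induction n with
    | zero => simp [ps, dE]
    | succ n ih =>
      refine ⟨ih.2, ?_⟩
      simp only [ps, dE]
      linear_combination e' * ih.2 - p * ih.1
  have h2 : ∀ n, ps e' p n - ps e' p' n = (p - p') * dP e' p p' n ∧
      ps e' p (n + 1) - ps e' p' (n + 1) = (p - p') * dP e' p p' (n + 1) := by
    intro n
    induction n with
    | zero => simp [ps, dP]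
    | succ n ih =>
      refine ⟨ih.2, ?_⟩
      simp only [ps, dP]
      linear_combination e' * ih.2 - p * ih.1
  linear_combination (h1 n).1 + (h2 n).1

theorem ps_eq {R : Type*} [CommRing R] (x y : R) (n : ℕ) :
    ps (x + y) (x * y) n = x ^ n + y ^ n := by
  have h : ∀ n, ps (x + y) (x * y) n = x ^ n + y ^ n ∧
      ps (x + y) (x * y) (n + 1) = x ^ (n + 1) + y ^ (n + 1) := by
    intro n
    induction n with
    | zero => simp [ps]; norm_num
    | succ n ih =>
      refine ⟨ih.2, ?_⟩
      simp only [ps]
      rw [ih.1, ih.2]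
      ring
  exact (h n).1

theorem aA_mul {R : Type*} [CommRing R] (i o : R) (n : ℕ) :
    (o - i) * aA i o n = o ^ n - i ^ n := by
  rw [aA, mul_comm]
  exact (Commute.all o i).geom_sum₂_mul n

theorem map_ps {R S : Type*} [CommRing R] [CommRing S] (g : R →+* S) (e p : R) (n : ℕ) :
    g (ps e p n) = ps (g e) (g p) n := by
  have h : ∀ n, g (ps e p n) = ps (g e) (g p) n ∧
      g (ps e p (n + 1)) = ps (g e) (g p) (n + 1) := by
    intro n
    induction n with
    | zero => simp [ps, map_ofNat]
    | succ n ih =>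
      refine ⟨ih.2, ?_⟩
      simp only [ps, map_sub, map_mul, ih.1, ih.2]
  exact (h n).1

theorem map_dE {R S : Type*} [CommRing R] [CommRing S] (g : R →+* S) (e e' p : R) (n : ℕ) :
    g (dE e e' p n) = dE (g e) (g e') (g p) n := by
  have h : ∀ n, g (dE e e' p n) = dE (g e) (g e') (g p) n ∧
      g (dE e e' p (n + 1)) = dE (g e) (g e') (g p) (n + 1) := by
    intro n
    induction n with
    | zero => simp [dE]
    | succ n ih =>
      refine ⟨ih.2, ?_⟩
      simp only [dE, map_sub, map_add, map_mul, ih.1, ih.2, map_ps]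
  exact (h n).1

theorem map_dP {R S : Type*} [CommRing R] [CommRing S] (g : R →+* S) (e' p p' : R) (n : ℕ) :
    g (dP e' p p' n) = dP (g e') (g p) (g p') n := by
  have h : ∀ n, g (dP e' p p' n) = dP (g e') (g p) (g p') n ∧
      g (dP e' p p' (n + 1)) = dP (g e') (g p) (g p') (n + 1) := by
    intro n
    induction n with
    | zero => simp [dP]
    | succ n ih =>
      refine ⟨ih.2, ?_⟩
      simp only [dP, map_sub, map_mul, ih.1, ih.2, map_ps]
  exact (h n).1

theorem map_aA {R S : Type*} [CommRing R] [CommRing S] (g : R →+* S) (i o : R) (n : ℕ) :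
    g (aA i o n) = aA (g i) (g o) n := by
  simp [aA]

section Homogeneous

variable {k : Type} [Field k] {q : kˣ}

/-- `p` is homogeneous of degree `m` for the scaling. -/
def Hom (q : kˣ) (m : ℕ) (p : A k) : Prop := scl k q p = ((q : k) ^ (2 * m)) • p

theorem Hom.mul {m m' : ℕ} {p p' : A k} (h : Hom q m p) (h' : Hom q m' p') :
    Hom q (m + m') (p * p') := by
  rw [Hom, map_mul, h, h', smul_mul_smul_comm, ← pow_add, Nat.mul_add]

theorem Hom.add {m : ℕ} {p p' : A k} (h : Hom q m p) (h' : Hom q m p') : Hom q m (p + p') := by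
  rw [Hom, map_add, h, h', smul_add]

theorem Hom.sub {m : ℕ} {p p' : A k} (h : Hom q m p) (h' : Hom q m p') : Hom q m (p - p') := by
  rw [Hom, map_sub, h, h', smul_sub]

theorem Hom.var (v : ℕ) : Hom q 1 (X v : A k) := by
  rw [Hom, GR.scl_X, MvPolynomial.smul_eq_C_mul]

theorem Hom.pow {m : ℕ} {p : A k} (h : Hom q m p) (j : ℕ) : Hom q (m * j) (p ^ j) := by
  rw [Hom, map_pow, h, smul_pow, ← pow_mul, Nat.mul_assoc]

theorem Hom.zero (m : ℕ) : Hom q m (0 : A k) := by
  rw [Hom, map_zero, smul_zero]

theorem Hom.sum {ι : Type*} {m : ℕ} (s : Finset ι) (g : ι → A k) (h : ∀ i ∈ s, Hom q m (g i)) :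
    Hom q m (∑ i ∈ s, g i) := by
  rw [Hom, map_sum, Finset.smul_sum]
  exact Finset.sum_congr rfl h

theorem Hom.ps {e p : A k} (he : Hom q 1 e) (hp : Hom q 2 p) (n : ℕ) : Hom q n (ps e p n) := by
  have h : ∀ n, Hom q n (HV.ps e p n) ∧ Hom q (n + 1) (HV.ps e p (n + 1)) := by
    intro n
    induction n with
    | zero =>
      refine ⟨?_, he⟩
      simp [Hom, HV.ps, map_ofNat]
    | succ n ih =>
      refine ⟨ih.2, ?_⟩
      have h1 : Hom q (n + 1 + 1) (e * HV.ps e p (n + 1)) := by
        have := he.mul ih.2
        rwa [Nat.add_comm 1 (n + 1)] at this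
      have h2 : Hom q (n + 1 + 1) (p * HV.ps e p n) := by
        have := hp.mul ih.1
        rwa [Nat.add_comm 2 n] at this
      exact h1.sub h2
  exact (h n).1

theorem Hom.dE {e e' p : A k} (he : Hom q 1 e) (he' : Hom q 1 e') (hp : Hom q 2 p) (n : ℕ) :
    Hom q (n - 1) (dE e e' p n) := by
  have h : ∀ n, Hom q n (HV.dE e e' p (n + 1)) ∧ Hom q (n + 1) (HV.dE e e' p (n + 2)) := by
    intro n
    induction n with
    | zero =>
      refine ⟨by simp [Hom, HV.dE], ?_⟩
      simp only [HV.dE, HV.ps, mul_one, mul_zero, sub_zero]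
      exact he.add he'
    | succ n ih =>
      refine ⟨ih.2, ?_⟩
      have h0 := he.ps hp (n + 1 + 1)
      have h1 : Hom q (n + 1 + 1) (e' * HV.dE e e' p (n + 2)) := by
        have := he'.mul ih.2
        rwa [Nat.add_comm 1 (n + 1)] at this
      have h2 : Hom q (n + 1 + 1) (p * HV.dE e e' p (n + 1)) := by
        have := hp.mul ih.1
        rwa [Nat.add_comm 2 n] at this
      exact (h0.add h1).sub h2
  rcases n with _ | n
  · exact Hom.zero 0
  · exact (h n).1

theorem Hom.dP {e' p p' : A k} (he' : Hom q 1 e') (hp : Hom q 2 p) (hp' : Hom q 2 p') (n : ℕ) :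
    Hom q (n - 2) (dP e' p p' n) := by
  have h : ∀ n, Hom q n (HV.dP e' p p' (n + 2)) ∧ Hom q (n + 1) (HV.dP e' p p' (n + 3)) := by
    intro n
    induction n with
    | zero =>
      refine ⟨by simp [Hom, HV.dP, HV.ps, map_ofNat], ?_⟩
      simp only [HV.dP, HV.ps, mul_zero, sub_zero, zero_sub]
      have h1 : Hom q 0 (-2 : A k) := by simp [Hom, map_ofNat]
      exact (he'.mul h1).sub he'
    | succ n ih =>
      refine ⟨ih.2, ?_⟩
      have h0 := he'.ps hp' (n + 1 + 1)
      have h1 : Hom q (n + 1 + 1) (e' * HV.dP e' p p' (n + 3)) := by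
        have := he'.mul ih.2
        rwa [Nat.add_comm 1 (n + 1)] at this
      have h2 : Hom q (n + 1 + 1) (p * HV.dP e' p p' (n + 2)) := by
        have := hp.mul ih.1
        rwa [Nat.add_comm 2 n] at this
      exact (h1.sub h2).sub h0
  rcases n with _ | _ | n
  · exact Hom.zero 0
  · exact Hom.zero 0
  · exact (h n).1

theorem Hom.aA {i o : A k} (hi : Hom q 1 i) (ho : Hom q 1 o) (n : ℕ) :
    Hom q (n - 1) (aA i o n) := by
  refine Hom.sum _ _ fun j hj => ?_
  have h := (ho.pow j).mul (hi.pow (n - 1 - j))
  have h2 : 1 * j + 1 * (n - 1 - j) = n - 1 := by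
    have := Finset.mem_range.1 hj
    omega
  rwa [h2] at h

end Homogeneous

variable (k : Type) [Field k] (q : kˣ)

/-- The row of a marked point with incoming edge `i` and outgoing edge `o`. -/
def arcRow (n i o : ℕ) : Row k q (q ^ n) where
  a := aA (X i) (X o) n
  b := X o - X i
  s := q ^ 2 / q ^ n
  ha := by
    rcases n with _ | n
    · simp [aA]
    · have h := Hom.aA (q := q) (Hom.var i : Hom q 1 (X i : A k)) (Hom.var o) (n + 1)
      rw [h, smul_smul]
      congr 1
      push_cast
      have hq := q.ne_zero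
      field_simp
      ring
  hb := by
    have h := (Hom.var o : Hom q 1 (X o : A k)).sub (Hom.var i)
    rw [h]
    congr 1
    push_cast
    have hq := q.ne_zero
    field_simp

/-- The first row of a vertex with incoming edges `a`, `b` and outgoing edges `c`, `d`. -/
def vRow1 (n a b c d : ℕ) : Row k q (q ^ n) where
  a := dE (X c + X d) (X a + X b) (X c * X d) n
  b := (X c + X d) - (X a + X b)
  s := q ^ 2 / q ^ n
  ha := by
    rcases n with _ | n
    · simp [dE]
    · have h := Hom.dE ((Hom.var c : Hom q 1 (X c : A k)).add (Hom.var d))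
        ((Hom.var a : Hom q 1 (X a : A k)).add (Hom.var b))
        ((Hom.var c : Hom q 1 (X c : A k)).mul (Hom.var d)) (n + 1)
      rw [h, smul_smul]
      congr 1
      push_cast
      have hq := q.ne_zero
      field_simp
      ring
  hb := by
    have h := ((Hom.var c : Hom q 1 (X c : A k)).add (Hom.var d)).sub
        ((Hom.var a : Hom q 1 (X a : A k)).add (Hom.var b))
    rw [h]
    congr 1
    push_cast
    have hq := q.ne_zero
    field_simp

/-- The second row of a vertex with incoming edges `a`, `b` and outgoing edges `c`, `d`. -/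
def vRow2 (n a b c d : ℕ) : Row k q (q ^ n) where
  a := dP (X a + X b) (X c * X d) (X a * X b) n
  b := X c * X d - X a * X b
  s := q ^ 4 / q ^ n
  ha := by
    rcases n with _ | _ | n
    · simp [dP]
    · simp [dP]
    · have h := Hom.dP ((Hom.var a : Hom q 1 (X a : A k)).add (Hom.var b))
        ((Hom.var c : Hom q 1 (X c : A k)).mul (Hom.var d))
        ((Hom.var a : Hom q 1 (X a : A k)).mul (Hom.var b)) (n + 2)
      rw [h, smul_smul]
      congr 1
      push_cast
      have hq := q.ne_zero
      field_simp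
      ring
  hb := by
    have h := ((Hom.var c : Hom q 1 (X c : A k)).mul (Hom.var d)).sub
        ((Hom.var a : Hom q 1 (X a : A k)).mul (Hom.var b))
    rw [h]
    congr 1
    push_cast
    have hq := q.ne_zero
    field_simp

/-- A node of an abstract graph: a marked point, or a vertex with incoming edges `a`, `b` and
outgoing edges `c`, `d`. -/
inductive GNode where
  | arc (i o : ℕ) : GNode
  | vert (a b c d : ℕ) : GNode
  deriving DecidableEq

namespace GNode

/-- The labels of the incoming edges. -/
def ins : GNode → List ℕ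
  | arc i _ => [i]
  | vert a b _ _ => [a, b]

/-- The labels of the outgoing edges. -/
def outs : GNode → List ℕ
  | arc _ o => [o]
  | vert _ _ c d => [c, d]

/-- Change the labels. -/
def map (g : ℕ → ℕ) : GNode → GNode
  | arc i o => arc (g i) (g o)
  | vert a b c d => vert (g a) (g b) (g c) (g d)

/-- The rows of a node. -/
def rows (n : ℕ) : GNode → List (Row k q (q ^ n))
  | arc i o => [arcRow k q n i o]
  | vert a b c d => [vRow1 k q n a b c d, vRow2 k q n a b c d]

/-- The number of vertices of a node. -/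
def nv : GNode → ℕ
  | arc _ _ => 0
  | vert _ _ _ _ => 1

end GNode

/-- The labels of the incoming edges of a graph. -/
def insG (G : List GNode) : List ℕ := G.flatMap GNode.ins

/-- The labels of the outgoing edges of a graph. -/
def outsG (G : List GNode) : List ℕ := G.flatMap GNode.outs

/-- Closed graphs. -/
def Closed (G : List GNode) : Prop := (insG G).Nodup ∧ (insG G).Perm (outsG G)

/-- The rows of a graph. -/
def rowsG (n : ℕ) (G : List GNode) : List (Row k q (q ^ n)) := G.flatMap (GNode.rows k q n)

/-- The differential module of a graph. -/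
def gcx (n : ℕ) (G : List GNode) : Cx k q (q ^ n) :=
  ((GR.base k q (insG G)).cx (q ^ n)).rows (rowsG k q n G)

/-- The number of vertices of a graph. -/
def nvG (G : List GNode) : ℕ := (G.map GNode.nv).sum

/-- The invariant of closed graphs; here `n = N + 1`. -/
def FG (n : ℕ) (G : List GNode) : k := ((q : k)⁻¹) ^ nvG G * (gcx k q n G).τ

end Pool.Agent.Lib.MP_31c440_gt.HV
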