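import Pool.Agent.Lib.MP_31c440_gt.HV.K2_Rows

/-!
Elimination of a row inside a list of rows.
-/

noncomputable section

namespace Pool.Agent.Lib.MP_31c440_gt.HV

open MvPolynomial

variable {k : Type} [Field k] {q c : kˣ} {u v : k}

/-- The curvature of a list of rows. -/
def curv (S : List (Row k q c)) : A k := (S.map fun r => r.a * r.b).sum

theorem curv_cons (r : Row k q c) (S : List (Row k q c)) :
    curv (r :: S) = r.a * r.b + curv S := by
  simp [curv]

theorem rows_dd (S : List (Row k q c)) (X : Cx k q c) (w : A k)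
    (h : ∀ x, X.d (X.d x) = w • x) (x : (X.rows S).N) :
    (X.rows S).d ((X.rows S).d x) = (curv S + w) • x := by
  induction S with
  | nil =>
    have h1 := h x
    simp only [curv, List.map_nil, List.sum_nil, zero_add]
    exact h1
  | cons r S ih =>
    obtain ⟨x, y⟩ := x
    change (X.rows S).N at x y
    change (((X.rows S).d ((X.rows S).d x + r.a • y) + r.a • (r.b • x - (X.rows S).d y),
      r.b • ((X.rows S).d x + r.a • y) - (X.rows S).d (r.b • x - (X.rows S).d y)) :
        (X.rows S).N × (X.rows S).N) = ((curv (r :: S) + w) • x, (curv (r :: S) + w) • y)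
    have hx := ih x
    have hy := ih y
    apply Prod.ext
    · change (X.rows S).d ((X.rows S).d x + r.a • y) + r.a • (r.b • x - (X.rows S).d y)
        = (curv (r :: S) + w) • x
      rw [map_add, map_smul, hx, curv_cons, smul_sub, add_assoc (r.a * r.b), add_smul (r.a * r.b),
        mul_smul]
      abel
    · change r.b • ((X.rows S).d x + r.a • y) - (X.rows S).d (r.b • x - (X.rows S).d y)
        = (curv (r :: S) + w) • y
      rw [map_sub, map_smul, hy, curv_cons, smul_add, add_assoc (r.a * r.b), add_smul (r.a * r.b),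
        mul_comm r.a, mul_smul]
      abel

theorem rows_inj (S : List (Row k q c)) (X : Cx k q c) (p : A k)
    (h : ∀ x : X.N, p • x = 0 → x = 0) (x : (X.rows S).N) (hx : p • x = 0) : x = 0 := by
  induction S with
  | nil => exact h x hx
  | cons r S ih =>
    obtain ⟨x, y⟩ := x
    exact Prod.ext (ih x (congrArg Prod.fst hx)) (ih y (congrArg Prod.snd hx))

theorem rows_ann (S : List (Row k q c)) (X : Cx k q c) (p : A k)
    (h : ∀ x : X.N, p • x = 0) (x : (X.rows S).N) : p • x = 0 := by
  induction S with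
  | nil => exact h x
  | cons r S ih =>
    obtain ⟨x, y⟩ := x
    exact Prod.ext (ih x) (ih y)

/-- The map from the quotient of a product to the product of the quotients. -/
def quotProdMap (X : Cx k q c) (x : A k) :
    ((X.N × X.N) ⧸ LinearMap.range (LinearMap.lsmul (A k) (X.N × X.N) x)) →ₗ[A k]
      ((X.N ⧸ LinearMap.range (LinearMap.lsmul (A k) X.N x)) ×
        (X.N ⧸ LinearMap.range (LinearMap.lsmul (A k) X.N x))) :=
  Submodule.liftQ _ ((Submodule.mkQ _).prodMap (Submodule.mkQ _)) (by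
    rintro _ ⟨⟨y, z⟩, rfl⟩
    rw [LinearMap.mem_ker]
    refine Prod.ext ?_ ?_
    · exact (Submodule.Quotient.mk_eq_zero _).2 ⟨y, rfl⟩
    · exact (Submodule.Quotient.mk_eq_zero _).2 ⟨z, rfl⟩)

theorem quotProdMap_mk (X : Cx k q c) (x : A k) (y z : X.N) :
    quotProdMap X x (Submodule.Quotient.mk (y, z)) =
      (Submodule.Quotient.mk y, Submodule.Quotient.mk z) := rfl

theorem quotProdMap_bij (X : Cx k q c) (x : A k) : Function.Bijective (quotProdMap X x) := by
  constructor
  · rw [injective_iff_map_eq_zero]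
    intro w hw
    obtain ⟨⟨y, z⟩, rfl⟩ := Submodule.Quotient.mk_surjective _ w
    rw [quotProdMap_mk] at hw
    obtain ⟨y', hy⟩ := (Submodule.Quotient.mk_eq_zero _).1 (congrArg Prod.fst hw)
    obtain ⟨z', hz⟩ := (Submodule.Quotient.mk_eq_zero _).1 (congrArg Prod.snd hw)
    exact (Submodule.Quotient.mk_eq_zero _).2 ⟨(y', z'), Prod.ext hy hz⟩
  · rintro ⟨y, z⟩
    obtain ⟨y, rfl⟩ := Submodule.Quotient.mk_surjective _ y
    obtain ⟨z, rfl⟩ := Submodule.Quotient.mk_surjective _ z
    exact ⟨Submodule.Quotient.mk (y, z), rfl⟩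

/-- The quotient of a module with a row. -/
def quotAddRow (r : Row k q c) (X : Cx k q c) (x : A k) (hx : ∃ m : k, scl k q x = m • x) :
    CIso 1 ((X.addRow r).quot x hx) ((X.quot x hx).addRow r) where
  e := (LinearEquiv.ofBijective (quotProdMap X x) (quotProdMap_bij X x)).restrictScalars k
  hd w := by
    obtain ⟨⟨y, z⟩, rfl⟩ := Submodule.Quotient.mk_surjective _ w
    rfl
  hφ w := by
    obtain ⟨⟨y, z⟩, rfl⟩ := Submodule.Quotient.mk_surjective _ w
    rw [one_smul]
    rfl

theorem quotAddRow_int (r : Row k q c) (X : Cx k q c) (x : A k)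
    (hx : ∃ m : k, scl k q x = m • x) (p : A k) : (quotAddRow r X x hx).Int p p := fun w =>
  (quotProdMap X x).map_smul p w

theorem rows_quot (S : List (Row k q c)) (X : Cx k q c) (x : A k)
    (hx : ∃ m : k, scl k q x = m • x) :
    ∃ g : CIso 1 ((X.rows S).quot x hx) ((X.quot x hx).rows S),
      ∀ p p' : A k, (∀ y : X.N, ∃ z : X.N, p • y = p' • y + x • z) → g.Int p p' := by
  induction S with
  | nil =>
    refine ⟨⟨LinearEquiv.refl k _, fun _ => rfl, fun _ => (one_smul _ _).symm⟩, ?_⟩
    intro p p' h w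
    obtain ⟨y, rfl⟩ := Submodule.Quotient.mk_surjective _ w
    obtain ⟨z, hz⟩ := h y
    exact (Submodule.Quotient.eq _).2 ⟨z, eq_sub_of_add_eq' hz.symm⟩
  | cons r S ih =>
    obtain ⟨g, hg⟩ := ih
    have h0 : ∀ p : A k, g.Int p p := fun p => hg p p fun y => ⟨0, by rw [smul_zero, add_zero]⟩
    obtain ⟨g2, hg2⟩ := rows_congr g [r] [r]
      (List.Forall₂.cons ⟨rfl, h0 _, h0 _⟩ List.Forall₂.nil)
    refine ⟨⟨(quotAddRow r (X.rows S) x hx).e.trans g2.e, fun w => ?_, fun w => ?_⟩, ?_⟩
    · have h1 := (quotAddRow r (X.rows S) x hx).hd w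
      have h2 := g2.hd ((quotAddRow r (X.rows S) x hx).e w)
      exact (congrArg g2.e h1).trans h2
    · have h1 := (quotAddRow r (X.rows S) x hx).hφ w
      have h2 := g2.hφ ((quotAddRow r (X.rows S) x hx).e w)
      rw [one_smul] at h1
      exact (congrArg g2.e h1).trans h2
    · intro p p' h w
      have h1 := quotAddRow_int r (X.rows S) x hx p w
      have h2 := hg2 p p' (hg p p' h) ((quotAddRow r (X.rows S) x hx).e w)
      exact (congrArg g2.e h1).trans h2

theorem rows_sq (r : Row k q c) (S : List (Row k q c)) (X : Cx k q c) (hd : X.d = 0)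
    (hc : ∀ x : X.N, curv (r :: S) • x = 0) (x : (X.rows S).N) :
    (X.rows S).d ((X.rows S).d x) = -((r.a * r.b) • x) := by
  have h1 := rows_dd S X 0 (fun x => by rw [hd]; simp) x
  have h2 := rows_ann S X (curv (r :: S)) hc x
  rw [curv_cons, add_smul] at h2
  rw [h1, add_zero]
  exact eq_neg_of_add_eq_zero_right h2

theorem elimB (r : Row k q c) (S : List (Row k q c)) (X : Cx k q c)
    (hx : ∃ m : k, scl k q r.b = m • r.b) (hd : X.d = 0)
    (hc : ∀ x : X.N, curv (r :: S) • x = 0) (hb : ∀ x : X.N, r.b • x = 0 → x = 0) :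
    HIso 1 (X.rows (r :: S)) ((X.quot r.b hx).rows S) := by
  have h1 := lemmaB r (X.rows S) hx (rows_sq r S X hd hc) (rows_inj S X r.b hb)
  obtain ⟨g, -⟩ := rows_quot S X r.b hx
  have h2 := h1.trans g.hIso
  rw [one_mul] at h2
  exact h2

theorem elimA (r : Row k q c) (S : List (Row k q c)) (X : Cx k q c)
    (hx : ∃ m : k, scl k q r.a = m • r.a) (hd : X.d = 0)
    (hc : ∀ x : X.N, curv (r :: S) • x = 0) (ha : ∀ x : X.N, r.a • x = 0 → x = 0) :
    HIso (r.s : k) (X.rows (r :: S)) ((X.quot r.a hx).rows S) := by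
  have h1 := lemmaA r (X.rows S) hx (rows_sq r S X hd hc) (rows_inj S X r.a ha)
  obtain ⟨g, -⟩ := rows_quot S X r.a hx
  have h2 := h1.trans g.hIso
  rw [mul_one] at h2
  exact h2

end Pool.Agent.Lib.MP_31c440_gt.HV
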