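import Pool.Agent.Lib.MP_31c440_gt.HV.Ring

/-!
Module K5: rings as differential modules, the base ring of a list of variables.
-/

noncomputable section

namespace Pool.Agent.Lib.MP_31c440_gt.HV

open MvPolynomial

variable {k : Type} [Field k] {q c : kˣ} {u v : k}

theorem cx_smul (R : GR k q) (p : A k) (x : R.R) :
    (show (R.cx c).N from p • (show (R.cx c).N from x)) =
      (show (R.cx c).N from R.f p * x) := rfl

/-- Isomorphic rings. -/
theorem cx_iso (R R' : GR k q) (e : R.R ≃ₐ[k] R'.R) (hσ : ∀ x, e (R.σ x) = R'.σ (e x)) :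
    ∃ g : CIso 1 (R.cx c) (R'.cx c), ∀ p p', e (R.f p) = R'.f p' → g.Int p p' := by
  refine ⟨⟨e.toLinearEquiv, fun x => ?_, fun x => ?_⟩, fun p p' h x => ?_⟩
  · change e (0 : R.R) = (0 : R'.R)
    exact map_zero e
  · rw [one_smul]
    exact hσ x
  · have h' : ∀ y : R.R, e (R.f p * y) = R'.f p' * e y := fun y => by rw [map_mul, h]
    exact h' x

theorem base_domain (l : List ℕ) : IsDomain (GR.base k q l).R := by
  induction l with
  | nil => exact (inferInstance : IsDomain k)
  | cons x l ih =>
    change IsDomain (Polynomial (GR.base k q l).R)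
    infer_instance

/-- variables that do not occur act as zero -/
theorem base_f_of_notMem (l : List ℕ) (v : ℕ) (hv : v ∉ l) :
    (GR.base k q l).f (MvPolynomial.X v) = 0 := by
  induction l with
  | nil => exact aeval_X _ v
  | cons x l ih =>
    rw [List.mem_cons, not_or] at hv
    have h : (GR.base k q (x :: l)).f (MvPolynomial.X v) =
        if v = x then Polynomial.X else Polynomial.C ((GR.base k q l).f (MvPolynomial.X v)) :=
      aeval_X _ v
    rw [h, if_neg hv.1, ih hv.2, Polynomial.C_0]
    rfl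

theorem K5.poly_f_X (R : GR k q) (x v : ℕ) : (R.poly x).f (X v) =
    if v = x then Polynomial.X else Polynomial.C (R.f (X v)) := aeval_X _ v

/-- The extension of an isomorphism to polynomials in one more variable respects the scaling. -/
theorem K5.poly_equiv_σ (R R' : GR k q) (e : R.R ≃ₐ[k] R'.R)
    (hσ : ∀ x, e (R.σ x) = R'.σ (e x)) (x : Polynomial R.R) :
    Polynomial.mapAlgEquiv e (R.polyσ x) = R'.polyσ (Polynomial.mapAlgEquiv e x) := by
  have h : (Polynomial.mapAlgEquiv e).toAlgHom.comp R.polyσ =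
      R'.polyσ.comp (Polynomial.mapAlgEquiv e).toAlgHom := by
    refine Polynomial.algHom_ext' ?_ ?_
    · ext r
      simp [hσ]
    · change (Polynomial.mapAlgEquiv e) (R.polyσ Polynomial.X) =
        R'.polyσ (Polynomial.mapAlgEquiv e Polynomial.X)
      rw [GR.polyσ_X, map_smul, Polynomial.coe_mapAlgEquiv, Polynomial.map_X, GR.polyσ_X]
  exact DFunLike.congr_fun h x

/-- The extension of an isomorphism to polynomials in one more variable respects the structure
maps. -/
theorem K5.poly_equiv_f (R R' : GR k q) (e : R.R ≃ₐ[k] R'.R) (g : ℕ → ℕ) (x : ℕ)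
    (hg : ∀ v, g v = g x ↔ v = x) (hf : ∀ v, e (R.f (X v)) = R'.f (X (g v))) (p : A k) :
    Polynomial.mapAlgEquiv e ((R.poly x).f p) = (R'.poly (g x)).f (rename g p) := by
  have h : (Polynomial.mapAlgEquiv e).toAlgHom.comp (R.poly x).f =
      (R'.poly (g x)).f.comp (rename g) := by
    ext v
    by_cases hv : v = x
    · subst hv
      simp
    · simp [hv, (hg v).not.2 hv, hf]
  exact DFunLike.congr_fun h p

/-- The exchange of two variables. -/
theorem K5.swap_equiv (R : GR k q) (x y : ℕ) (hxy : x ≠ y) :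
    ∃ e : Polynomial (Polynomial R.R) ≃ₐ[k] Polynomial (Polynomial R.R),
      (∀ z, e (((R.poly y).poly x).σ z) = ((R.poly x).poly y).σ (e z)) ∧
      ∀ p, e (((R.poly y).poly x).f p) = ((R.poly x).poly y).f p := by
  let e : Polynomial (Polynomial R.R) ≃ₐ[k] Polynomial (Polynomial R.R) :=
    (Polynomial.Bivariate.swap (R := R.R)).restrictScalars k
  have e1 : e (Polynomial.C Polynomial.X) = Polynomial.X := Polynomial.Bivariate.swap_X
  have e2 : e Polynomial.X = Polynomial.C Polynomial.X := Polynomial.Bivariate.swap_Y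
  have e3 : ∀ r, e (Polynomial.C (Polynomial.C r)) = Polynomial.C (Polynomial.C r) :=
    Polynomial.Bivariate.swap_C_C
  have s1 : ∀ (v : ℕ) (r : R.R), (R.poly v).polyσ (Polynomial.C (Polynomial.C r)) =
      Polynomial.C (Polynomial.C (R.σ r)) := fun v r => by
    rw [GR.polyσ_C]
    exact congrArg Polynomial.C (R.polyσ_C r)
  have s2 : ∀ (v : ℕ), (R.poly v).polyσ (Polynomial.C Polynomial.X) =
      ((q : k) ^ 2) • Polynomial.C Polynomial.X := fun v => by
    rw [GR.polyσ_C]
    exact (congrArg Polynomial.C R.polyσ_X).trans (by rw [Polynomial.smul_C])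
  have s3 : ∀ (v : ℕ), (R.poly v).polyσ Polynomial.X =
      ((q : k) ^ 2) • Polynomial.X := fun v => (R.poly v).polyσ_X
  refine ⟨e, fun z => ?_, fun p => ?_⟩
  · have h : e.toAlgHom.comp (R.poly y).polyσ = ((R.poly x).polyσ).comp e.toAlgHom := by
      refine Polynomial.algHom_ext' (Polynomial.algHom_ext' ?_ ?_) ?_
      · refine AlgHom.ext fun r => ?_
        change e ((R.poly y).polyσ (Polynomial.C (Polynomial.C r))) =
          (R.poly x).polyσ (e (Polynomial.C (Polynomial.C r)))
        rw [s1, e3, e3, s1]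
      · change e ((R.poly y).polyσ (Polynomial.C Polynomial.X)) =
          (R.poly x).polyσ (e (Polynomial.C Polynomial.X))
        rw [s2, map_smul, e1, s3]
      · change e ((R.poly y).polyσ Polynomial.X) = (R.poly x).polyσ (e Polynomial.X)
        rw [s3, map_smul, e2, s2]
    exact DFunLike.congr_fun h z
  · have h : e.toAlgHom.comp ((R.poly y).poly x).f = ((R.poly x).poly y).f := by
      refine MvPolynomial.algHom_ext fun v => ?_
      change e (((R.poly y).poly x).f (X v)) = ((R.poly x).poly y).f (X v)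
      rw [K5.poly_f_X, K5.poly_f_X, K5.poly_f_X, K5.poly_f_X]
      by_cases hx : v = x
      · subst hx
        rw [if_pos rfl, if_neg hxy, if_pos rfl, e2]
      · by_cases hy : v = y
        · subst hy
          rw [if_neg hx, if_pos rfl, if_pos rfl, e1]
        · rw [if_neg hx, if_neg hy, if_neg hy, if_neg hx, e3]
    exact DFunLike.congr_fun h p

/-- The order of the variables does not matter. -/
theorem base_perm {l l' : List ℕ} (h : l.Perm l') (hl : l.Nodup) :
    ∃ e : (GR.base k q l).R ≃ₐ[k] (GR.base k q l').R,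
      (∀ x, e ((GR.base k q l).σ x) = (GR.base k q l').σ (e x)) ∧
      ∀ p, e ((GR.base k q l).f p) = (GR.base k q l').f p := by
  induction h with
  | nil => exact ⟨AlgEquiv.refl, fun _ => rfl, fun _ => rfl⟩
  | cons x _ ih =>
    obtain ⟨e, h1, h2⟩ := ih (List.nodup_cons.1 hl).2
    refine ⟨Polynomial.mapAlgEquiv e, fun z => K5.poly_equiv_σ _ _ e h1 z, fun p => ?_⟩
    have h3 := K5.poly_equiv_f _ _ e id x (fun v => Iff.rfl) (fun v => h2 (X v)) p
    rw [rename_id, AlgHom.id_apply] at h3
    exact h3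
  | swap x y l =>
    have hxy : y ≠ x := by
      rintro rfl
      simp at hl
    exact K5.swap_equiv (GR.base k q l) y x hxy
  | trans h _ ih ih' =>
    obtain ⟨e, h1, h2⟩ := ih hl
    obtain ⟨e', h1', h2'⟩ := ih' (h.nodup_iff.1 hl)
    exact ⟨e.trans e', fun z => by rw [AlgEquiv.trans_apply, h1, h1', AlgEquiv.trans_apply],
      fun p => by rw [AlgEquiv.trans_apply, h2, h2']⟩

/-- Renaming the variables. -/
theorem base_rename (l : List ℕ) (g : ℕ → ℕ) (hg : Function.Injective g) :
    ∃ e : (GR.base k q l).R ≃ₐ[k] (GR.base k q (l.map g)).R,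
      (∀ x, e ((GR.base k q l).σ x) = (GR.base k q (l.map g)).σ (e x)) ∧
      ∀ p, e ((GR.base k q l).f p) = (GR.base k q (l.map g)).f (rename g p) := by
  induction l with
  | nil =>
    refine ⟨AlgEquiv.refl, fun _ => rfl, fun p => ?_⟩
    have h : (aeval fun _ : ℕ => (0 : k)) =
        (aeval fun _ : ℕ => (0 : k)).comp (rename g : A k →ₐ[k] A k) := by
      ext v
      simp
    exact DFunLike.congr_fun h p
  | cons x l ih =>
    obtain ⟨e, h1, h2⟩ := ih
    refine ⟨Polynomial.mapAlgEquiv e, fun z => K5.poly_equiv_σ _ _ e h1 z, fun p => ?_⟩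
    refine K5.poly_equiv_f _ _ e g x (fun v => hg.eq_iff) (fun v => ?_) p
    rw [h2, rename_X]

end Pool.Agent.Lib.MP_31c440_gt.HV
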