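import Pool.Agent.Lib.MP_31c440_gt.HV.Graph
import Pool.Agent.Lib.MP_31c440_gt.HV.K3_Elim
import Pool.Agent.Lib.MP_31c440_gt.HV.K5_Ring

/-!
Rows of graphs: renaming of variables, curvature, and the invariance of `FG` under permutations of
the nodes, renaming, and exchange of the incoming or of the outgoing edges of a vertex.
-/

noncomputable section

namespace Pool.Agent.Lib.MP_31c440_gt.HV

open MvPolynomial

variable {k : Type} [Field k] {q c : kˣ} {u : k}

section

variable {X Y : Cx k q c}

theorem int_aA {f : CIso u X Y} {i i' o o' : A k} (hi : f.Int i i') (ho : f.Int o o') (n : ℕ) :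
    f.Int (aA i o n) (aA i' o' n) := by
  have h := CIso.Int.aeval (f := f) (ι := Fin 2) ![i, o] ![i', o'] (by
    intro j
    fin_cases j
    · exact hi
    · exact ho) (aA (MvPolynomial.X 0) (MvPolynomial.X 1) n)
  have e1 := map_aA (MvPolynomial.aeval ![i, o] : MvPolynomial (Fin 2) k →ₐ[k] A k).toRingHom
    (MvPolynomial.X 0) (MvPolynomial.X 1) n
  have e2 := map_aA (MvPolynomial.aeval ![i', o'] : MvPolynomial (Fin 2) k →ₐ[k] A k).toRingHom
    (MvPolynomial.X 0) (MvPolynomial.X 1) n
  simp only [AlgHom.toRingHom_eq_coe, RingHom.coe_coe, aeval_X, Matrix.cons_val_zero,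
    Matrix.cons_val_one] at e1 e2
  rwa [e1, e2] at h

theorem int_dE {f : CIso u X Y} {x x' y y' z z' : A k} (hx : f.Int x x') (hy : f.Int y y')
    (hz : f.Int z z') (n : ℕ) : f.Int (dE x y z n) (dE x' y' z' n) := by
  have h := CIso.Int.aeval (f := f) (ι := Fin 3) ![x, y, z] ![x', y', z'] (by
    intro j
    fin_cases j
    · exact hx
    · exact hy
    · exact hz) (dE (MvPolynomial.X 0) (MvPolynomial.X 1) (MvPolynomial.X 2) n)
  have e1 := map_dE (MvPolynomial.aeval ![x, y, z] : MvPolynomial (Fin 3) k →ₐ[k] A k).toRingHom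
    (MvPolynomial.X 0) (MvPolynomial.X 1) (MvPolynomial.X 2) n
  have e2 := map_dE
    (MvPolynomial.aeval ![x', y', z'] : MvPolynomial (Fin 3) k →ₐ[k] A k).toRingHom
    (MvPolynomial.X 0) (MvPolynomial.X 1) (MvPolynomial.X 2) n
  simp only [AlgHom.toRingHom_eq_coe, RingHom.coe_coe, aeval_X, Matrix.cons_val_zero,
    Matrix.cons_val_one, Matrix.cons_val] at e1 e2
  rwa [e1, e2] at h

theorem int_dP {f : CIso u X Y} {x x' y y' z z' : A k} (hx : f.Int x x') (hy : f.Int y y')
    (hz : f.Int z z') (n : ℕ) : f.Int (dP x y z n) (dP x' y' z' n) := by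
  have h := CIso.Int.aeval (f := f) (ι := Fin 3) ![x, y, z] ![x', y', z'] (by
    intro j
    fin_cases j
    · exact hx
    · exact hy
    · exact hz) (dP (MvPolynomial.X 0) (MvPolynomial.X 1) (MvPolynomial.X 2) n)
  have e1 := map_dP (MvPolynomial.aeval ![x, y, z] : MvPolynomial (Fin 3) k →ₐ[k] A k).toRingHom
    (MvPolynomial.X 0) (MvPolynomial.X 1) (MvPolynomial.X 2) n
  have e2 := map_dP
    (MvPolynomial.aeval ![x', y', z'] : MvPolynomial (Fin 3) k →ₐ[k] A k).toRingHom
    (MvPolynomial.X 0) (MvPolynomial.X 1) (MvPolynomial.X 2) n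
  simp only [AlgHom.toRingHom_eq_coe, RingHom.coe_coe, aeval_X, Matrix.cons_val_zero,
    Matrix.cons_val_one, Matrix.cons_val] at e1 e2
  rwa [e1, e2] at h

end

theorem forall₂_flatMap {α β γ : Type*} {R : β → γ → Prop} (l : List α) (g : α → List β)
    (g' : α → List γ) (h : ∀ a ∈ l, List.Forall₂ R (g a) (g' a)) :
    List.Forall₂ R (l.flatMap g) (l.flatMap g') := by
  induction l with
  | nil => exact List.Forall₂.nil
  | cons a l ih =>
    simp only [List.flatMap_cons]
    exact List.rel_append (h a (by simp)) (ih fun b hb => h b (by simp [hb]))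

theorem mem_insG {G : List GNode} {v : ℕ} : v ∈ insG G ↔ ∃ g ∈ G, v ∈ g.ins := by
  simp [insG, List.mem_flatMap]

theorem mem_outsG {G : List GNode} {v : ℕ} : v ∈ outsG G ↔ ∃ g ∈ G, v ∈ g.outs := by
  simp [outsG, List.mem_flatMap]

theorem rowsG_map (n : ℕ) (G : List GNode) (g : ℕ → ℕ) :
    rowsG k q n (G.map (GNode.map g)) = G.flatMap fun v => (v.map g).rows k q n := by
  rw [rowsG, List.flatMap_map]

/-- The rows of a graph under an isomorphism which renames variables by an arbitrary map. -/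
theorem rowsG_forall₂ {n : ℕ} {K L : Cx k q (q ^ n)} (f : CIso u K L) (G : List GNode)
    (g : ℕ → ℕ) (h : ∀ v, v ∈ insG G ∨ v ∈ outsG G → f.Int (X v) (X (g v))) :
    List.Forall₂ (fun r r' => r.s = r'.s ∧ f.Int r.a r'.a ∧ f.Int r.b r'.b)
      (rowsG k q n G) (rowsG k q n (G.map (GNode.map g))) := by
  rw [rowsG_map, rowsG]
  refine forall₂_flatMap _ _ _ fun v hv => ?_
  have h' : ∀ w, w ∈ v.ins ∨ w ∈ v.outs → f.Int (X w) (X (g w)) := by
    intro w hw
    refine h w ?_
    rcases hw with hw | hw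
    · exact Or.inl (mem_insG.2 ⟨v, hv, hw⟩)
    · exact Or.inr (mem_outsG.2 ⟨v, hv, hw⟩)
  rcases v with ⟨i, o⟩ | ⟨a, b, c, d⟩
  · have hi := h' i (by simp [GNode.ins])
    have ho := h' o (by simp [GNode.outs])
    exact List.Forall₂.cons ⟨rfl, int_aA hi ho n, ho.sub hi⟩ List.Forall₂.nil
  · have ha := h' a (by simp [GNode.ins])
    have hb := h' b (by simp [GNode.ins])
    have hc := h' c (by simp [GNode.outs])
    have hd := h' d (by simp [GNode.outs])
    exact List.Forall₂.cons ⟨rfl, int_dE (hc.add hd) (ha.add hb) (hc.mul hd) n,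
      (hc.add hd).sub (ha.add hb)⟩ (List.Forall₂.cons ⟨rfl, int_dP (ha.add hb) (hc.mul hd)
      (ha.mul hb) n, (hc.mul hd).sub (ha.mul hb)⟩ List.Forall₂.nil)

/-- the curvature of a closed graph -/
theorem curv_rowsG (n : ℕ) (G : List GNode) :
    curv (rowsG k q n G) =
      ((outsG G).map fun v => (X v : A k) ^ n).sum -
        ((insG G).map fun v => (X v : A k) ^ n).sum := by
  induction G with
  | nil => simp [rowsG, outsG, insG, curv]
  | cons v G ih =>
    have e : curv (rowsG k q n (v :: G)) = curv (v.rows k q n) + curv (rowsG k q n G) := by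
      simp [curv, rowsG]
    have e1 : outsG (v :: G) = v.outs ++ outsG G := by simp [outsG]
    have e2 : insG (v :: G) = v.ins ++ insG G := by simp [insG]
    rw [e, ih, e1, e2, List.map_append, List.sum_append, List.map_append, List.sum_append]
    have key : curv (v.rows k q n) = (v.outs.map fun v => (X v : A k) ^ n).sum -
        (v.ins.map fun v => (X v : A k) ^ n).sum := by
      rcases v with ⟨i, o⟩ | ⟨a, b, c, d⟩
      · have h := aA_mul (X i : A k) (X o) n
        simp only [GNode.rows, curv, arcRow, GNode.ins, GNode.outs, List.map_cons, List.map_nil,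
          List.sum_cons, List.sum_nil]
        linear_combination h
      · have h := ps_sub (X c + X d : A k) (X a + X b) (X c * X d) (X a * X b) n
        rw [ps_eq, ps_eq] at h
        simp only [GNode.rows, curv, vRow1, vRow2, GNode.ins, GNode.outs, List.map_cons,
          List.map_nil, List.sum_cons, List.sum_nil]
        linear_combination -h
    rw [key]
    ring

theorem curv_closed (n : ℕ) (G : List GNode) (hG : Closed G) :
    curv (rowsG k q n G) = 0 := by
  rw [curv_rowsG, (hG.2.map fun v => (X v : A k) ^ n).sum_eq, sub_self]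

/-- The rows of a graph under two homomorphisms. -/
theorem rowsG_alg {R : Type} [CommRing R] [Algebra k R] (n : ℕ) (f₁ f₂ : A k →ₐ[k] R)
    (G : List GNode) (g : ℕ → ℕ)
    (h : ∀ v, v ∈ insG G ∨ v ∈ outsG G → f₁ (X v) = f₂ (X (g v))) :
    List.Forall₂ (fun r r' => r.s = r'.s ∧ f₁ r.a = f₂ r'.a ∧ f₁ r.b = f₂ r'.b)
      (rowsG k q n G) (rowsG k q n (G.map (GNode.map g))) := by
  have hA : ∀ (f : A k →ₐ[k] R) (x y : A k), f (aA x y n) = aA (f x) (f y) n :=
    fun f x y => map_aA f.toRingHom x y n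
  have hE : ∀ (f : A k →ₐ[k] R) (x y z : A k), f (dE x y z n) = dE (f x) (f y) (f z) n :=
    fun f x y z => map_dE f.toRingHom x y z n
  have hP : ∀ (f : A k →ₐ[k] R) (x y z : A k), f (dP x y z n) = dP (f x) (f y) (f z) n :=
    fun f x y z => map_dP f.toRingHom x y z n
  rw [rowsG_map, rowsG]
  refine forall₂_flatMap _ _ _ fun v hv => ?_
  have h' : ∀ w, w ∈ v.ins ∨ w ∈ v.outs → f₁ (X w) = f₂ (X (g w)) := by
    intro w hw
    refine h w ?_
    rcases hw with hw | hw
    · exact Or.inl (mem_insG.2 ⟨v, hv, hw⟩)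
    · exact Or.inr (mem_outsG.2 ⟨v, hv, hw⟩)
  rcases v with ⟨i, o⟩ | ⟨a, b, c, d⟩
  · have hi := h' i (by simp [GNode.ins])
    have ho := h' o (by simp [GNode.outs])
    refine List.Forall₂.cons ⟨rfl, ?_, ?_⟩ List.Forall₂.nil
    · simp only [arcRow, hA, hi, ho]
    · simp only [arcRow, map_sub, hi, ho]
  · have ha := h' a (by simp [GNode.ins])
    have hb := h' b (by simp [GNode.ins])
    have hc := h' c (by simp [GNode.outs])
    have hd := h' d (by simp [GNode.outs])
    refine List.Forall₂.cons ⟨rfl, ?_, ?_⟩ (List.Forall₂.cons ⟨rfl, ?_, ?_⟩ List.Forall₂.nil)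
    · simp only [vRow1, hE, map_add, map_mul, ha, hb, hc, hd]
    · simp only [vRow1, map_add, map_sub, ha, hb, hc, hd]
    · simp only [vRow2, hP, map_add, map_mul, ha, hb, hc, hd]
    · simp only [vRow2, map_mul, map_sub, ha, hb, hc, hd]

theorem tau_ground (c : kˣ) : ((GR.ground k q).cx c).τ = 1 := by
  have hφ : ((GR.ground k q).cx c).φH = LinearMap.id := by
    refine LinearMap.ext fun x => ?_
    obtain ⟨x, rfl⟩ := Submodule.Quotient.mk_surjective _ x
    rfl
  have hz : ∀ x : ((GR.ground k q).cx c).N, x ∈ ((GR.ground k q).cx c).Z := fun x => by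
    rw [Cx.mem_Z]
    rfl
  have h1 : Module.finrank k ((GR.ground k q).cx c).H = 1 := by
    rw [finrank_eq_one_iff']
    refine ⟨Submodule.Quotient.mk ⟨(1 : k), hz _⟩, ?_, fun w => ?_⟩
    · intro h
      rw [Submodule.Quotient.mk_eq_zero, Cx.mem_B] at h
      obtain ⟨y, hy⟩ := h
      have h2 : (0 : k) = 1 := hy
      exact zero_ne_one h2
    · obtain ⟨w, rfl⟩ := Submodule.Quotient.mk_surjective _ w
      obtain ⟨w, hw⟩ := w
      refine ⟨(show k from w), ?_⟩
      rw [← Submodule.Quotient.mk_smul]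
      congr 1
      ext
      exact mul_one (show k from w)
  have : Module.Finite k ((GR.ground k q).cx c).H := Module.finite_of_finrank_eq_succ h1
  rw [Cx.τ, hφ, LinearMap.trace_id, h1, Nat.cast_one]

theorem FG_empty (n : ℕ) : FG k q n [] = 1 := by
  have h : (gcx k q n []).τ = 1 := tau_ground (q := q) (q ^ n)
  rw [FG, h, mul_one]
  simp [nvG]

theorem int_of_base {l l' : List ℕ} (e : (GR.base k q l).R ≃ₐ[k] (GR.base k q l').R)
    (hσ : ∀ x, e ((GR.base k q l).σ x) = (GR.base k q l').σ (e x)) (g : ℕ → ℕ)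
    (hf : ∀ p, e ((GR.base k q l).f p) = (GR.base k q l').f (rename g p)) (n : ℕ)
    (G : List GNode) :
    HIso 1 (((GR.base k q l).cx (q ^ n)).rows (rowsG k q n G))
      (((GR.base k q l').cx (q ^ n)).rows (rowsG k q n (G.map (GNode.map g)))) := by
  obtain ⟨f, hf'⟩ := cx_iso (c := q ^ n) (GR.base k q l) (GR.base k q l') e hσ
  have h := rowsG_forall₂ f G g fun v _ => hf' _ _ (by rw [hf, rename_X])
  obtain ⟨f', -⟩ := rows_congr f _ _ h
  exact f'.hIso

theorem map_id_graph (G : List GNode) : G.map (GNode.map id) = G := by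
  have h : GNode.map id = id := by
    funext v
    cases v <;> rfl
  rw [h, List.map_id]

theorem insG_map (G : List GNode) (g : ℕ → ℕ) : insG (G.map (GNode.map g)) = (insG G).map g := by
  rw [insG, insG, List.flatMap_map, List.map_flatMap]
  congr 1
  funext v
  cases v <;> rfl

theorem nvG_map (G : List GNode) (g : ℕ → ℕ) : nvG (G.map (GNode.map g)) = nvG G := by
  rw [nvG, nvG, List.map_map]
  congr 2
  funext v
  cases v <;> rfl

/-- Only the order of the variables changes. -/
theorem tau_base_perm {l l' : List ℕ} (h : l.Perm l') (hl : l.Nodup) (n : ℕ) (G : List GNode) :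
    (((GR.base k q l).cx (q ^ n)).rows (rowsG k q n G)).τ =
      (((GR.base k q l').cx (q ^ n)).rows (rowsG k q n G)).τ := by
  obtain ⟨e, hσ, hf⟩ := base_perm (k := k) (q := q) h hl
  have := (int_of_base e hσ id (by simpa using hf) n G).tau
  rwa [one_mul, map_id_graph] at this

theorem FG_perm (n : ℕ) {G G' : List GNode} (hG : Closed G) (h : G.Perm G') :
    FG k q n G = FG k q n G' := by
  have h1 : (insG G).Perm (insG G') := h.flatMap_right _
  have h2 : (rowsG k q n G).Perm (rowsG k q n G') := h.flatMap_right _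
  have h3 : nvG G = nvG G' := (h.map _).sum_eq
  obtain ⟨f, -⟩ := rows_perm (X := (GR.base k q (insG G')).cx (q ^ n)) h2
  have h4 := f.hIso.tau
  rw [one_mul] at h4
  rw [FG, FG, h3, gcx, gcx, tau_base_perm h1 hG.1, h4]

theorem FG_relabel (n : ℕ) (G : List GNode) (g : ℕ → ℕ) (hg : Function.Injective g)
    (hG : Closed G) : FG k q n (G.map (GNode.map g)) = FG k q n G := by
  obtain ⟨e, hσ, hf⟩ := base_rename (k := k) (q := q) (insG G) g hg
  have h := (int_of_base e hσ g hf n G).tau
  rw [one_mul] at h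
  rw [FG, FG, nvG_map, gcx, gcx, insG_map, ← h]

theorem Row.eq_of9 {r r' : Row k q c} (ha : r.a = r'.a) (hb : r.b = r'.b) (hs : r.s = r'.s) :
    r = r' := by
  cases r
  cases r'
  simp only at ha hb hs
  subst ha hb hs
  rfl

theorem rows_swapIn (n a b c d : ℕ) :
    GNode.rows k q n (.vert a b c d) = GNode.rows k q n (.vert b a c d) := by
  have h1 : vRow1 k q n a b c d = vRow1 k q n b a c d := by
    refine Row.eq_of9 ?_ ?_ rfl
    · simp only [vRow1, add_comm (X a : A k) (X b)]
    · simp only [vRow1, add_comm (X a : A k) (X b)]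
  have h2 : vRow2 k q n a b c d = vRow2 k q n b a c d := by
    refine Row.eq_of9 ?_ ?_ rfl
    · simp only [vRow2, add_comm (X a : A k) (X b), mul_comm (X a : A k) (X b)]
    · simp only [vRow2, mul_comm (X a : A k) (X b)]
  rw [GNode.rows, GNode.rows, h1, h2]

theorem rows_swapOut (n a b c d : ℕ) :
    GNode.rows k q n (.vert a b c d) = GNode.rows k q n (.vert a b d c) := by
  have h1 : vRow1 k q n a b c d = vRow1 k q n a b d c := by
    refine Row.eq_of9 ?_ ?_ rfl
    · simp only [vRow1, add_comm (X c : A k) (X d), mul_comm (X c : A k) (X d)]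
    · simp only [vRow1, add_comm (X c : A k) (X d)]
  have h2 : vRow2 k q n a b c d = vRow2 k q n a b d c := by
    refine Row.eq_of9 ?_ ?_ rfl
    · simp only [vRow2, mul_comm (X c : A k) (X d)]
    · simp only [vRow2, mul_comm (X c : A k) (X d)]
  rw [GNode.rows, GNode.rows, h1, h2]

theorem FG_swapIn (n a b c d : ℕ) (S : List GNode) (hG : Closed (.vert a b c d :: S)) :
    FG k q n (.vert a b c d :: S) = FG k q n (.vert b a c d :: S) := by
  have h1 : (insG (.vert a b c d :: S)).Perm (insG (.vert b a c d :: S)) := by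
    simp only [insG, List.flatMap_cons, GNode.ins, List.cons_append, List.nil_append]
    exact List.Perm.swap _ _ _
  have h2 : rowsG k q n (.vert a b c d :: S) = rowsG k q n (.vert b a c d :: S) := by
    rw [rowsG, rowsG, List.flatMap_cons, List.flatMap_cons, rows_swapIn]
  rw [FG, FG, gcx, gcx, tau_base_perm h1 hG.1, h2]
  rfl

theorem FG_swapOut (n a b c d : ℕ) (S : List GNode) (hG : Closed (.vert a b c d :: S)) :
    FG k q n (.vert a b c d :: S) = FG k q n (.vert a b d c :: S) := by
  have h2 : rowsG k q n (.vert a b c d :: S) = rowsG k q n (.vert a b d c :: S) := by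
    rw [rowsG, rowsG, List.flatMap_cons, List.flatMap_cons, rows_swapOut]
  rw [FG, FG, gcx, gcx, h2]
  rfl

end Pool.Agent.Lib.MP_31c440_gt.HV
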