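import Pool.Agent.Lib.MP_31c440_gt.HV.K7b_Subst
import Pool.Agent.Lib.MP_31c440_gt.HV.K9_Node

/-!
A marked point may be removed next to another node of an abstract graph.
-/

noncomputable section

namespace Pool.Agent.Lib.MP_31c440_gt.HV

open MvPolynomial

variable {k : Type} [Field k] {q c : kˣ}

/-- The map of labels which sends `x` to `y` and keeps the other labels. -/
def relab (x y : ℕ) (v : ℕ) : ℕ := if v = x then y else v

theorem relab_self (x y : ℕ) : relab x y x = y := if_pos rfl

theorem relab_of_ne {x y v : ℕ} (h : v ≠ x) : relab x y v = v := if_neg h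

theorem map_relab (x y : ℕ) (G : List GNode) (h : x ∉ insG G) (h' : x ∉ outsG G) :
    G.map (GNode.map (relab x y)) = G := by
  induction G with
  | nil => rfl
  | cons t G ih =>
    simp only [insG, outsG, List.flatMap_cons, List.mem_append, not_or] at h h'
    rw [List.map_cons, ih h.2 h'.2]
    congr 1
    rcases t with ⟨i, o⟩ | ⟨a, b, c, d⟩
    · simp only [GNode.ins, GNode.outs, List.mem_cons, List.not_mem_nil, or_false] at h h'
      simp only [GNode.map, relab_of_ne (Ne.symm h.1), relab_of_ne (Ne.symm h'.1)]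
    · simp only [GNode.ins, GNode.outs, List.mem_cons, List.not_mem_nil, or_false, not_or] at h h'
      simp only [GNode.map, relab_of_ne (Ne.symm h.1.1), relab_of_ne (Ne.symm h.1.2),
        relab_of_ne (Ne.symm h'.1.1), relab_of_ne (Ne.symm h'.1.2)]

/-- Elimination of the variable `x` by the row of a marked point with edges `x` and `y`. -/
theorem arc_elim (n x y : ℕ) (l : List ℕ) (T : List GNode) (r : Row k q (q ^ n)) (hxy : x ≠ y)
    (m : k) (hm : m ≠ 0)
    (hb : r.b = m • (X x - X y : A k)) (hc : curv (r :: rowsG k q n T) = 0) :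
    (((GR.base k q (x :: l)).cx (q ^ n)).rows (r :: rowsG k q n T)).τ =
      (((GR.base k q l).cx (q ^ n)).rows (rowsG k q n (T.map (GNode.map (relab x y))))).τ := by
  have hy : ((GR.base k q l).poly x).f (X y) = Polynomial.C ((GR.base k q l).f (X y)) := by
    simp [Ne.symm hxy]
  have hx : ((GR.base k q l).poly x).f (X x) = Polynomial.X := by simp
  have h1 : HIso 1 (((GR.base k q (x :: l)).cx (q ^ n)).rows (r :: rowsG k q n T))
      (((GR.base k q l).cx (q ^ n)).rows
        ((rowsG k q n T).map (Row.sub1 x (X y) (Hom.var y)))) := by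
    refine elim_subst (GR.base k q l) x (X y) (Hom.var y) hy r (rowsG k q n T) m hm ?_ ?_
    · rw [hb, map_smul, map_sub, hx, hy]
    · rw [hc, map_zero]
  have h2 : HIso 1 (((GR.base k q l).cx (q ^ n)).rows
        ((rowsG k q n T).map (Row.sub1 x (X y) (Hom.var y))))
      (((GR.base k q l).cx (q ^ n)).rows (rowsG k q n (T.map (GNode.map (relab x y))))) := by
    refine rows_ring_congr (GR.base k q l) _ _ ?_
    rw [List.forall₂_map_left_iff]
    refine rowsG_alg n ((GR.base k q l).f.comp (sub1 x (X y))) (GR.base k q l).f T (relab x y) ?_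
    intro v _
    rw [AlgHom.comp_apply]
    by_cases hv : v = x
    · subst hv
      simp [sub1, relab_self]
    · simp [sub1, relab_of_ne hv, hv]
  rw [h1.tau, h2.tau, one_mul, one_mul]

theorem nvG_arc (i o : ℕ) (T : List GNode) : nvG (.arc i o :: T) = nvG T := by
  simp [nvG, GNode.nv]

/-- Elimination of the outgoing edge of a marked point. -/
theorem FG_arc_out (n i e : ℕ) (l : List ℕ) (T : List GNode) (h : Closed (.arc i e :: T))
    (hT : insG T = e :: l) :
    FG k q n (.arc i e :: T) = ((q : k)⁻¹) ^ nvG T *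
      (((GR.base k q (i :: l)).cx (q ^ n)).rows
        (rowsG k q n (T.map (GNode.map (relab e i))))).τ := by
  have hG : insG (.arc i e :: T) = i :: e :: l := by
    rw [← hT]
    rfl
  have hnd : (i :: e :: l).Nodup := hG ▸ h.1
  have hie : e ≠ i := by
    intro hh
    rw [hh] at hnd
    exact (List.nodup_cons.1 hnd).1 List.mem_cons_self
  obtain ⟨f, hfσ, hff⟩ := base_perm (k := k) (q := q) (List.Perm.swap e i l) hnd
  obtain ⟨g, hg⟩ := cx_iso (c := q ^ n) _ _ f hfσ
  obtain ⟨g', -⟩ := rows_congr g (rowsG k q n (.arc i e :: T)) (rowsG k q n (.arc i e :: T))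
    (List.forall₂_same.2 fun r _ => ⟨rfl, hg _ _ (hff _), hg _ _ (hff _)⟩)
  have h1 : (gcx k q n (.arc i e :: T)).τ =
      (((GR.base k q (e :: i :: l)).cx (q ^ n)).rows (rowsG k q n (.arc i e :: T))).τ := by
    rw [gcx, hG, g'.hIso.tau, one_mul]
  have h2 := arc_elim n e i (i :: l) T (arcRow k q n i e) hie 1 one_ne_zero
    (by rw [one_smul]; rfl) (curv_closed n (.arc i e :: T) h)
  rw [FG, h1, nvG_arc]
  exact congrArg _ h2

/-- Elimination of the incoming edge of a marked point. -/
theorem FG_arc_in (n i o : ℕ) (T : List GNode) (h : Closed (.arc i o :: T)) (hio : i ≠ o) :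
    FG k q n (.arc i o :: T) = ((q : k)⁻¹) ^ nvG T *
      (((GR.base k q (insG T)).cx (q ^ n)).rows
        (rowsG k q n (T.map (GNode.map (relab i o))))).τ := by
  have h2 := arc_elim n i o (insG T) T (arcRow k q n i o) hio (-1) (neg_ne_zero.2 one_ne_zero)
    (by rw [neg_smul, one_smul, neg_sub]; rfl) (curv_closed n (.arc i o :: T) h)
  rw [FG, nvG_arc]
  exact congrArg _ h2

theorem FG_arcArc (n i e o : ℕ) (S : List GNode) (h : Closed (.arc i e :: .arc e o :: S)) :
    FG k q n (.arc i e :: .arc e o :: S) = FG k q n (.arc i o :: S) := by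
  have h1 : (i :: e :: insG S).Nodup := h.1
  have h2 : (e :: o :: outsG S).Nodup := h.2.nodup_iff.1 h.1
  rw [FG_arc_out n i e (insG S) (.arc e o :: S) h rfl]
  have h3 : (GNode.arc e o :: S).map (GNode.map (relab e i)) = .arc i o :: S := by
    rw [List.map_cons, map_relab e i S]
    · simp only [GNode.map, relab_self]
      rw [relab_of_ne]
      intro hh
      rw [hh] at h2
      exact (List.nodup_cons.1 h2).1 List.mem_cons_self
    · exact (List.nodup_cons.1 (List.nodup_cons.1 h1).2).1
    · exact fun hh => (List.nodup_cons.1 h2).1 (List.mem_cons_of_mem _ hh)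
  rw [h3]
  rfl

theorem FG_arcVert (n i a b c d : ℕ) (S : List GNode)
    (h : Closed (.arc i a :: .vert a b c d :: S)) :
    FG k q n (.arc i a :: .vert a b c d :: S) = FG k q n (.vert i b c d :: S) := by
  have h1 : (i :: a :: b :: insG S).Nodup := h.1
  have h2 : (a :: c :: d :: outsG S).Nodup := h.2.nodup_iff.1 h.1
  rw [FG_arc_out n i a (b :: insG S) (.vert a b c d :: S) h rfl]
  have ha : a ∉ b :: insG S := (List.nodup_cons.1 (List.nodup_cons.1 h1).2).1
  have ha' : a ∉ c :: d :: outsG S := (List.nodup_cons.1 h2).1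
  simp only [List.mem_cons, not_or] at ha ha'
  have h3 : (GNode.vert a b c d :: S).map (GNode.map (relab a i)) = .vert i b c d :: S := by
    rw [List.map_cons, map_relab a i S ha.2 ha'.2.2]
    simp only [GNode.map, relab_self, relab_of_ne (Ne.symm ha.1), relab_of_ne (Ne.symm ha'.1),
      relab_of_ne (Ne.symm ha'.2.1)]
  rw [h3]
  rfl

theorem FG_vertArc (n a b c d o : ℕ) (S : List GNode)
    (h : Closed (.vert a b c d :: .arc c o :: S)) :
    FG k q n (.vert a b c d :: .arc c o :: S) = FG k q n (.vert a b o d :: S) := by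
  have h1 : (a :: b :: c :: insG S).Nodup := h.1
  have h2 : (c :: d :: o :: outsG S).Nodup := h.2.nodup_iff.1 h.1
  have hp : (GNode.vert a b c d :: .arc c o :: S).Perm (.arc c o :: .vert a b c d :: S) :=
    List.Perm.swap _ _ _
  have h' : Closed (.arc c o :: .vert a b c d :: S) := by
    refine ⟨?_, ?_⟩
    · exact ((hp.flatMap_right GNode.ins).nodup_iff).1 h.1
    · exact ((hp.flatMap_right GNode.ins).symm.trans h.2).trans (hp.flatMap_right GNode.outs)
  have hc : c ∉ d :: o :: outsG S := (List.nodup_cons.1 h2).1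
  have hc' : (c :: a :: b :: insG S).Nodup := h'.1
  have hc'' : c ∉ a :: b :: insG S := (List.nodup_cons.1 hc').1
  simp only [List.mem_cons, not_or] at hc hc''
  rw [FG_perm n h hp, FG_arc_in n c o (.vert a b c d :: S) h' hc.2.1]
  have h3 : (GNode.vert a b c d :: S).map (GNode.map (relab c o)) = .vert a b o d :: S := by
    rw [List.map_cons, map_relab c o S hc''.2.2 hc.2.2]
    simp only [GNode.map, relab_self, relab_of_ne (Ne.symm hc''.1),
      relab_of_ne (Ne.symm hc''.2.1), relab_of_ne (Ne.symm hc.1)]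
  rw [h3]
  rfl

end Pool.Agent.Lib.MP_31c440_gt.HV
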