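import Pool.Agent.Lib.MP_31c440_gt.HV.Graph

/-!
Degree and leading coefficient of `ps` and `dP` in a variable `X` in which the first argument is
`X + e₀` and the second arguments are of degree at most one.
-/

noncomputable section

namespace Pool.Agent.Lib.MP_31c440_gt.HV

section

open Polynomial

variable {R : Type} [CommRing R]

theorem natDegree_lin_le (r₀ r₁ : R) : (C r₁ * X + C r₀ : R[X]).natDegree ≤ 1 :=
  natDegree_linear_le

theorem natDegree_X_add_C_le (e₀ : R) : (X + C e₀ : R[X]).natDegree ≤ 1 := by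
  have h := natDegree_linear_le (a := (1 : R)) (b := e₀)
  rwa [C_1, one_mul] at h

theorem coeff_X_add_C_one (e₀ : R) : (X + C e₀ : R[X]).coeff 1 = 1 := by
  rw [coeff_add, coeff_X_one, coeff_C_succ, add_zero]

/-- the degree of `ps` and its coefficient -/
theorem ps_deg (e₀ s₀ s₁ : R) (n : ℕ) :
    (ps (X + C e₀) (C s₁ * X + C s₀) (n + 1)).natDegree ≤ n + 1 ∧
    (ps (X + C e₀) (C s₁ * X + C s₀) (n + 1)).coeff (n + 1) = 1 := by
  have h : ∀ n : ℕ, ((ps (X + C e₀) (C s₁ * X + C s₀) (n + 1)).natDegree ≤ n + 1 ∧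
      (ps (X + C e₀) (C s₁ * X + C s₀) (n + 1)).coeff (n + 1) = 1) ∧
      ((ps (X + C e₀) (C s₁ * X + C s₀) (n + 2)).natDegree ≤ n + 2 ∧
      (ps (X + C e₀) (C s₁ * X + C s₀) (n + 2)).coeff (n + 2) = 1) := by
    intro n
    induction n with
    | zero =>
      have h1 : (ps (X + C e₀) (C s₁ * X + C s₀) 1) = X + C e₀ := rfl
      have h2 : (ps (X + C e₀) (C s₁ * X + C s₀) 2) =
          (X + C e₀) * (X + C e₀) - (C s₁ * X + C s₀) * 2 := rfl
      have h3 : ((C s₁ * X + C s₀) * 2 : R[X]).natDegree ≤ 1 := by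
        refine (natDegree_mul_le).trans ?_
        have h4 := natDegree_lin_le s₀ s₁
        have h5 : (2 : R[X]).natDegree = 0 := natDegree_ofNat 2
        omega
      refine ⟨⟨?_, ?_⟩, ?_, ?_⟩
      · rw [h1]
        exact natDegree_X_add_C_le e₀
      · rw [h1]
        exact coeff_X_add_C_one e₀
      · rw [h2]
        refine (natDegree_sub_le _ _).trans (max_le ?_ (by omega))
        refine (natDegree_mul_le).trans ?_
        have h4 := natDegree_X_add_C_le e₀
        omega
      · rw [h2, coeff_sub, coeff_eq_zero_of_natDegree_lt (p := (C s₁ * X + C s₀) * 2) (by omega),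
          sub_zero]
        have h4 := coeff_mul_add_eq_of_natDegree_le (natDegree_X_add_C_le e₀) (natDegree_X_add_C_le e₀)
        rw [show (0 + 2 : ℕ) = 1 + 1 from rfl, h4, coeff_X_add_C_one, mul_one]
    | succ n ih =>
      obtain ⟨⟨ha, hb⟩, hc, hd⟩ := ih
      have h2 : (ps (X + C e₀) (C s₁ * X + C s₀) (n + 1 + 2)) =
          (X + C e₀) * ps (X + C e₀) (C s₁ * X + C s₀) (n + 2) -
            (C s₁ * X + C s₀) * ps (X + C e₀) (C s₁ * X + C s₀) (n + 1) := rfl
      have h3 : ((C s₁ * X + C s₀) *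
          ps (X + C e₀) (C s₁ * X + C s₀) (n + 1)).natDegree ≤ n + 2 := by
        refine (natDegree_mul_le).trans ?_
        have h4 := natDegree_lin_le s₀ s₁
        omega
      refine ⟨⟨hc, hd⟩, ?_, ?_⟩
      · rw [h2]
        refine (natDegree_sub_le _ _).trans (max_le ?_ (by omega))
        refine (natDegree_mul_le).trans ?_
        have h4 := natDegree_X_add_C_le e₀
        omega
      · rw [h2, coeff_sub, coeff_eq_zero_of_natDegree_lt (p := (C s₁ * X + C s₀) *
          ps (X + C e₀) (C s₁ * X + C s₀) (n + 1)) (by omega), sub_zero]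
        have h4 := coeff_mul_add_eq_of_natDegree_le (natDegree_X_add_C_le e₀) hc
        rw [show (n + 1 + 2 : ℕ) = 1 + (n + 2) by omega, h4, coeff_X_add_C_one, hd, mul_one]
  exact (h n).1

/-- the degree of `dP` and its coefficient -/
theorem dP_deg (e₀ r₀ r₁ s₀ s₁ : R) (n : ℕ) :
    (dP (X + C e₀) (C r₁ * X + C r₀) (C s₁ * X + C s₀) (n + 2)).natDegree ≤ n ∧
    (dP (X + C e₀) (C r₁ * X + C r₀) (C s₁ * X + C s₀) (n + 2)).coeff n = -((n : R) + 2) := by
  have h : ∀ n : ℕ, ((dP (X + C e₀) (C r₁ * X + C r₀) (C s₁ * X + C s₀) (n + 2)).natDegree ≤ n ∧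
      (dP (X + C e₀) (C r₁ * X + C r₀) (C s₁ * X + C s₀) (n + 2)).coeff n = -((n : R) + 2)) ∧
      ((dP (X + C e₀) (C r₁ * X + C r₀) (C s₁ * X + C s₀) (n + 3)).natDegree ≤ n + 1 ∧
      (dP (X + C e₀) (C r₁ * X + C r₀) (C s₁ * X + C s₀) (n + 3)).coeff (n + 1) =
        -((n : R) + 3)) := by
    intro n
    induction n with
    | zero =>
      have h1 : (dP (X + C e₀) (C r₁ * X + C r₀) (C s₁ * X + C s₀) (0 + 2)) = C (-2) := by
        simp [dP, ps, map_ofNat]
      have h2 : (dP (X + C e₀) (C r₁ * X + C r₀) (C s₁ * X + C s₀) (0 + 3)) =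
          C (-3) * (X + C e₀) := by
        simp only [dP, ps, mul_zero, sub_zero, zero_sub]
        rw [show (C (-3) : R[X]) = -3 by simp [map_ofNat]]
        ring
      rw [h1, h2]
      refine ⟨⟨(natDegree_C _).le, ?_⟩, ?_, ?_⟩
      · rw [coeff_C_zero, Nat.cast_zero, zero_add]
      · refine (natDegree_C_mul_le _ _).trans ?_
        exact natDegree_X_add_C_le e₀
      · rw [coeff_C_mul, zero_add, coeff_X_add_C_one, mul_one, Nat.cast_zero, zero_add]
    | succ n ih =>
      obtain ⟨⟨ha, hb⟩, hc, hd⟩ := ih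
      have h2 : (dP (X + C e₀) (C r₁ * X + C r₀) (C s₁ * X + C s₀) (n + 1 + 3)) =
          (X + C e₀) * dP (X + C e₀) (C r₁ * X + C r₀) (C s₁ * X + C s₀) (n + 3) -
            (C r₁ * X + C r₀) * dP (X + C e₀) (C r₁ * X + C r₀) (C s₁ * X + C s₀) (n + 2) -
            ps (X + C e₀) (C s₁ * X + C s₀) (n + 1 + 1) := rfl
      obtain ⟨hp, hq⟩ := ps_deg e₀ s₀ s₁ (n + 1)
      have h3 : ((C r₁ * X + C r₀) *
          dP (X + C e₀) (C r₁ * X + C r₀) (C s₁ * X + C s₀) (n + 2)).natDegree ≤ n + 1 := by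
        refine (natDegree_mul_le).trans ?_
        have h4 := natDegree_lin_le r₀ r₁
        omega
      refine ⟨⟨hc, ?_⟩, ?_, ?_⟩
      · rw [show n + 1 + 2 = n + 3 by rfl, hd]
        push_cast
        ring
      · rw [h2]
        refine (natDegree_sub_le _ _).trans (max_le ?_ hp)
        refine (natDegree_sub_le _ _).trans (max_le ?_ (by omega))
        refine (natDegree_mul_le).trans ?_
        have h4 := natDegree_X_add_C_le e₀
        omega
      · rw [h2, coeff_sub, coeff_sub, coeff_eq_zero_of_natDegree_lt (p := (C r₁ * X + C r₀) *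
          dP (X + C e₀) (C r₁ * X + C r₀) (C s₁ * X + C s₀) (n + 2)) (by omega), sub_zero, hq]
        have h4 := coeff_mul_add_eq_of_natDegree_le (natDegree_X_add_C_le e₀) hc
        rw [show (n + 1 + 1 : ℕ) = 1 + (n + 1) by omega, h4, coeff_X_add_C_one, hd]
        push_cast
        ring
  exact (h n).1

/-- the a-entry of the second row with a loop: incoming edges `a`, `x`, outgoing edges `b`, `x` -/
theorem dP_natDegree {R : Type} [CommRing R] [Nontrivial R] [Algebra ℚ R] (n : ℕ)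
    (e₀ r₀ r₁ s₀ s₁ : R) :
    (dP (Polynomial.X + Polynomial.C e₀) (Polynomial.C r₁ * Polynomial.X + Polynomial.C r₀)
      (Polynomial.C s₁ * Polynomial.X + Polynomial.C s₀) (n + 2)).natDegree = n ∧
    (dP (Polynomial.X + Polynomial.C e₀) (Polynomial.C r₁ * Polynomial.X + Polynomial.C r₀)
      (Polynomial.C s₁ * Polynomial.X + Polynomial.C s₀) (n + 2)).coeff n = -((n : R) + 2) := by
  obtain ⟨h1, h2⟩ := dP_deg e₀ r₀ r₁ s₀ s₁ n
  refine ⟨natDegree_eq_of_le_of_coeff_ne_zero h1 ?_, h2⟩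
  rw [h2]
  have hc : CharZero R := algebraRat.charZero R
  have h3 : ((n : R) + 2) ≠ 0 := by
    have h4 : ((n + 2 : ℕ) : R) ≠ 0 := Nat.cast_ne_zero.2 (by omega)
    push_cast at h4
    exact h4
  exact neg_ne_zero.2 h3

end

end Pool.Agent.Lib.MP_31c440_gt.HV
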