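import Pool.Agent.Lib.MP_31c440_gt.HV.K6_Quot

/-!
Polynomial rings modulo a monic polynomial.
-/

noncomputable section

namespace Pool.Agent.Lib.MP_31c440_gt.HV

open MvPolynomial

variable {k : Type} [Field k] {q c : kˣ} {u v : k}

theorem polyσ_coeff (R : GR k q) (p : Polynomial R.R) (j : ℕ) :
    (R.polyσ p).coeff j = ((q : k) ^ (2 * j)) • R.σ (p.coeff j) := by
  induction p using Polynomial.induction_on' with
  | add p r hp hr => rw [map_add, Polynomial.coeff_add, hp, hr, Polynomial.coeff_add, map_add,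
      smul_add]
  | monomial i a =>
    rw [← Polynomial.C_mul_X_pow_eq_monomial, map_mul, map_pow, GR.polyσ_C, GR.polyσ_X,
      smul_pow, ← pow_mul, mul_smul_comm, Polynomial.coeff_smul, Polynomial.coeff_C_mul,
      Polynomial.coeff_C_mul, Polynomial.coeff_X_pow]
    split_ifs with h
    · subst h
      simp
    · simp

theorem polyσ_degree (R : GR k q) (p : Polynomial R.R) (n : ℕ)
    (h : p.degree < n) : (R.polyσ p).degree < n := by
  rw [Polynomial.degree_lt_iff_coeff_zero] at *
  intro m hm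
  rw [polyσ_coeff, h m hm, map_zero, smul_zero]

theorem map_C_le {R : Type} [CommRing R] (I : Ideal R) (p : Polynomial R) :
    p ∈ I.map Polynomial.C ↔ ∀ j, p.coeff j ∈ I := Ideal.mem_map_C_iff

/-- The coefficients of the remainder modulo `g`, modulo `I`. -/
def remΦ {R : Type} [CommRing R] (I : Ideal R) (g : Polynomial R) (_hg : g.Monic) :
    Polynomial R →ₗ[R] (_root_.Fin g.natDegree → R ⧸ I) :=
  LinearMap.pi fun j => (Ideal.Quotient.mkₐ R I).toLinearMap.comp
    ((Polynomial.lcoeff R (j : ℕ)).comp (Polynomial.modByMonicHom g))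

theorem remΦ_apply {R : Type} [CommRing R] (I : Ideal R) (g : Polynomial R) (hg : g.Monic)
    (p : Polynomial R) (j : _root_.Fin g.natDegree) :
    remΦ I g hg p j = Ideal.Quotient.mk I ((p %ₘ g).coeff j) := rfl

theorem remΦ_surj {R : Type} [CommRing R] (I : Ideal R) (g : Polynomial R) (hg : g.Monic) :
    Function.Surjective (remΦ I g hg) := by
  rcases subsingleton_or_nontrivial R with hR | hR
  · intro y
    refine ⟨0, ?_⟩
    funext j
    obtain ⟨y, hy⟩ := Ideal.Quotient.mk_surjective (y j)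
    rw [← hy, Subsingleton.elim y 0, map_zero, map_zero]
    rfl
  intro y
  choose r hr using fun j => Ideal.Quotient.mk_surjective (y j)
  have hd : (∑ j : _root_.Fin g.natDegree, Polynomial.C (r j) * Polynomial.X ^ (j : ℕ)).degree <
      g.degree := by
    rw [Polynomial.degree_eq_natDegree hg.ne_zero, Polynomial.degree_lt_iff_coeff_zero]
    intro m hm
    rw [Polynomial.finsetSum_coeff]
    refine Finset.sum_eq_zero fun j _ => ?_
    rw [Polynomial.coeff_C_mul, Polynomial.coeff_X_pow, if_neg (by have := j.2; omega), mul_zero]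
  refine ⟨∑ j : _root_.Fin g.natDegree, Polynomial.C (r j) * Polynomial.X ^ (j : ℕ), ?_⟩
  funext i
  rw [remΦ_apply, (Polynomial.modByMonic_eq_self_iff hg).2 hd, Polynomial.finsetSum_coeff,
    Finset.sum_eq_single i]
  · rw [Polynomial.coeff_C_mul, Polynomial.coeff_X_pow, if_pos rfl, mul_one, hr]
  · intro j _ hj
    rw [Polynomial.coeff_C_mul, Polynomial.coeff_X_pow,
      if_neg (fun h => hj (Fin.ext h.symm)), mul_zero]
  · intro h
    exact absurd (Finset.mem_univ _) h

theorem remΦ_ker {R : Type} [CommRing R] (I : Ideal R) (g : Polynomial R) (hg : g.Monic)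
    (p : Polynomial R) :
    remΦ I g hg p = 0 ↔ p ∈ I.map Polynomial.C ⊔ Ideal.span {g} := by
  rcases subsingleton_or_nontrivial R with hR | hR
  · rw [Subsingleton.elim p 0, map_zero]
    exact ⟨fun _ => Submodule.zero_mem _, fun _ => rfl⟩
  constructor
  · intro h
    have h1 : p %ₘ g ∈ I.map Polynomial.C := by
      rw [map_C_le]
      intro j
      by_cases hj : j < g.natDegree
      · exact Ideal.Quotient.eq_zero_iff_mem.1 (congrFun h ⟨j, hj⟩)
      · have h2 := Polynomial.degree_modByMonic_lt p hg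
        rw [Polynomial.degree_eq_natDegree hg.ne_zero,
          Polynomial.degree_lt_iff_coeff_zero] at h2
        rw [h2 j (by omega)]
        exact Submodule.zero_mem _
    rw [← Polynomial.modByMonic_add_div p g]
    exact Submodule.add_mem_sup h1 (Ideal.mul_mem_right _ _ (Ideal.mem_span_singleton_self g))
  · intro h
    obtain ⟨a, ha, b, hb, rfl⟩ := Submodule.mem_sup.1 h
    obtain ⟨b, rfl⟩ := Ideal.mem_span_singleton.1 hb
    funext j
    rw [remΦ_apply]
    have h1 : (a + g * b).map (Ideal.Quotient.mk I) %ₘ g.map (Ideal.Quotient.mk I) = 0 := by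
      have ha' : a.map (Ideal.Quotient.mk I) = 0 := by
        ext j
        rw [Polynomial.coeff_map, Polynomial.coeff_zero, Ideal.Quotient.eq_zero_iff_mem]
        exact (map_C_le I a).1 ha j
      rw [Polynomial.map_add, ha', zero_add, Polynomial.map_mul,
        (Polynomial.modByMonic_eq_zero_iff_dvd (hg.map _))]
      exact dvd_mul_right _ _
    rw [← Polynomial.coeff_map, Polynomial.map_modByMonic _ hg, h1]
    rfl

theorem remΦ_C_mul {R : Type} [CommRing R] (I : Ideal R) (g : Polynomial R) (hg : g.Monic)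
    (a : R) (p : Polynomial R) (j : _root_.Fin g.natDegree) :
    remΦ I g hg (Polynomial.C a * p) j = Ideal.Quotient.mk I a * remΦ I g hg p j := by
  rw [← Polynomial.smul_eq_C_mul, map_smul]
  rfl

theorem remΦ_congr {R : Type} [CommRing R] (I : Ideal R) (g : Polynomial R) (hg : g.Monic)
    {p p' : Polynomial R} (h : p - p' ∈ I.map Polynomial.C ⊔ Ideal.span {g}) :
    remΦ I g hg p = remΦ I g hg p' := by
  rw [← sub_eq_zero, ← map_sub, remΦ_ker]
  exact h

theorem remΦ_σ (R : GR k q) (x : ℕ) (I : Ideal R.R) (hI : Stab R I)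
    (g : Polynomial R.R) (hg : g.Monic) (hh : (R.poly x).σ g = ((q : k) ^ (2 * g.natDegree)) • g)
    (p : Polynomial R.R) (j : _root_.Fin g.natDegree) :
    remΦ I g hg ((R.poly x).σ p) j =
      ((q : k) ^ (2 * (j : ℕ))) • Ideal.quotientMapₐ I R.σ hI (remΦ I g hg p j) := by
  have h1 : remΦ I g hg ((R.poly x).σ p) = remΦ I g hg ((R.poly x).σ (p %ₘ g)) := by
    apply remΦ_congr
    have h2 : (R.poly x).σ p = (R.poly x).σ (p %ₘ g + g * (p /ₘ g)) := by
      rw [Polynomial.modByMonic_add_div p g]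
    rw [h2, map_add, add_sub_cancel_left, map_mul, hh, smul_mul_assoc, ← mul_smul_comm]
    exact Ideal.mem_sup_right (Ideal.mul_mem_right _ _ (Ideal.mem_span_singleton_self g))
  rw [h1, remΦ_apply, remΦ_apply]
  rcases subsingleton_or_nontrivial R.R with hR | hR
  · rw [Subsingleton.elim (((R.poly x).σ (p %ₘ g) %ₘ g).coeff j) 0,
      Subsingleton.elim ((p %ₘ g).coeff j) 0]
    simp
  have h3 : ((R.poly x).σ (p %ₘ g)) %ₘ g = (R.poly x).σ (p %ₘ g) := by
    rw [Polynomial.modByMonic_eq_self_iff hg]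
    have h4 := Polynomial.degree_modByMonic_lt p hg
    rw [Polynomial.degree_eq_natDegree hg.ne_zero] at *
    exact polyσ_degree R _ _ h4
  rw [h3]
  change Ideal.Quotient.mk I ((R.polyσ (p %ₘ g)).coeff j) = _
  rw [polyσ_coeff]
  rfl

/-- `R₀[x] / (I, g)` is a free module over `R₀ / I` for a monic homogeneous polynomial `g`. -/
theorem monic_pow (R : GR k q) (x : ℕ) (I : Ideal R.R) (hI : Stab R I)
    (g : Polynomial R.R) (hg : g.Monic) (hh : (R.poly x).σ g = ((q : k) ^ (2 * g.natDegree)) • g)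
    (hJ : Stab (R.poly x) (I.map Polynomial.C ⊔ Ideal.span {g})) :
    ∃ e : CIso 1 (((R.poly x).quot (I.map Polynomial.C ⊔ Ideal.span {g}) hJ).cx c)
        (((R.quot I hI).cx c).pow fun j : _root_.Fin g.natDegree => (q : k) ^ (2 * (j : ℕ))),
      ∀ p p', (R.poly x).f p - Polynomial.C (R.f p') ∈ I.map Polynomial.C ⊔ Ideal.span {g} →
        e.Int p p' := by
  let J : Ideal (Polynomial R.R) := I.map Polynomial.C ⊔ Ideal.span {g}
  let Φ₀ : Polynomial R.R →ₗ[k] (_root_.Fin g.natDegree → R.R ⧸ I) :=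
    (remΦ I g hg).restrictScalars k
  let Φ : (Polynomial R.R ⧸ J) →ₗ[k] (_root_.Fin g.natDegree → R.R ⧸ I) :=
    (J.restrictScalars k).liftQ Φ₀ (fun p hp => (remΦ_ker I g hg p).2 hp)
  have hΦ : ∀ p : Polynomial R.R, Φ (Ideal.Quotient.mk J p) = remΦ I g hg p := fun p => rfl
  have hb : Function.Bijective Φ := by
    constructor
    · rw [injective_iff_map_eq_zero]
      intro y hy
      obtain ⟨y, rfl⟩ := Ideal.Quotient.mk_surjective y
      rw [hΦ, remΦ_ker] at hy
      exact Ideal.Quotient.eq_zero_iff_mem.2 hy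
    · intro y
      obtain ⟨p, hp⟩ := remΦ_surj I g hg y
      exact ⟨Ideal.Quotient.mk J p, hp⟩
  refine ⟨⟨LinearEquiv.ofBijective Φ hb, ?_, ?_⟩, ?_⟩
  · intro y
    change Φ 0 = _
    rw [map_zero]
    rfl
  · intro y
    obtain ⟨y, rfl⟩ := Ideal.Quotient.mk_surjective (I := J) y
    change Φ (Ideal.Quotient.mk J ((R.poly x).σ y)) = _
    rw [hΦ, one_smul]
    funext j
    exact remΦ_σ R x I hI g hg hh y j
  · intro p p' h y
    obtain ⟨y, rfl⟩ := Ideal.Quotient.mk_surjective (I := J) y
    change Φ (Ideal.Quotient.mk J ((R.poly x).f p) * Ideal.Quotient.mk J y) = _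
    have h1 : Ideal.Quotient.mk J ((R.poly x).f p) = Ideal.Quotient.mk J (Polynomial.C (R.f p')) :=
      Ideal.Quotient.eq.2 h
    rw [h1, ← map_mul, hΦ]
    funext j
    rw [remΦ_C_mul]
    rfl

/-- The case of a linear polynomial: substitution of `r` for the variable `x`. -/
theorem linear_subst (R : GR k q) (x : ℕ) (I : Ideal R.R) (hI : Stab R I) (r : R.R)
    (hr : R.σ r = ((q : k) ^ 2) • r)
    (hJ : Stab (R.poly x)
      (I.map Polynomial.C ⊔ Ideal.span {Polynomial.X - Polynomial.C r})) :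
    ∃ e : CIso 1 (((R.poly x).quot
          (I.map Polynomial.C ⊔ Ideal.span {Polynomial.X - Polynomial.C r}) hJ).cx c)
        ((R.quot I hI).cx c),
      ∀ p p', ((R.poly x).f p).eval r - R.f p' ∈ I → e.Int p p' := by
  let J : Ideal (Polynomial R.R) := I.map Polynomial.C ⊔ Ideal.span {Polynomial.X - Polynomial.C r}
  have hker : ∀ p : Polynomial R.R, p.eval r ∈ I ↔ p ∈ J := by
    intro p
    have h1 : p - Polynomial.C (p.eval r) ∈ Ideal.span {Polynomial.X - Polynomial.C r} :=
      Ideal.mem_span_singleton.2 (Polynomial.X_sub_C_dvd_sub_C_eval)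
    constructor
    · intro h
      rw [← sub_add_cancel p (Polynomial.C (p.eval r)), add_comm]
      exact Submodule.add_mem_sup (Ideal.mem_map_of_mem _ h) h1
    · intro h
      obtain ⟨a, ha, b, hb, rfl⟩ := Submodule.mem_sup.1 h
      obtain ⟨b, rfl⟩ := Ideal.mem_span_singleton.1 hb
      rw [Polynomial.eval_add, Polynomial.eval_mul]
      simp only [Polynomial.eval_sub, Polynomial.eval_X, Polynomial.eval_C, sub_self, zero_mul,
        add_zero]
      rw [Polynomial.eval_eq_sum_range]
      exact Ideal.sum_mem _ fun i _ => Ideal.mul_mem_right _ _ ((map_C_le I a).1 ha i)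
  let Φ₀ : Polynomial R.R →ₗ[k] R.R ⧸ I :=
    ((Ideal.Quotient.mkₐ k I).comp ((Polynomial.aeval r).restrictScalars k)).toLinearMap
  let Φ : (Polynomial R.R ⧸ J) →ₗ[k] R.R ⧸ I :=
    (J.restrictScalars k).liftQ Φ₀ (fun p hp => by
      change Ideal.Quotient.mk I (Polynomial.aeval r p) = 0
      rw [Ideal.Quotient.eq_zero_iff_mem, Polynomial.coe_aeval_eq_eval]
      exact (hker p).2 hp)
  have hΦ : ∀ p : Polynomial R.R, Φ (Ideal.Quotient.mk J p) = Ideal.Quotient.mk I (p.eval r) := by
    intro p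
    change Ideal.Quotient.mk I (Polynomial.aeval r p) = _
    rw [Polynomial.coe_aeval_eq_eval]
  have hb : Function.Bijective Φ := by
    constructor
    · rw [injective_iff_map_eq_zero]
      intro y hy
      obtain ⟨y, rfl⟩ := Ideal.Quotient.mk_surjective y
      rw [hΦ, Ideal.Quotient.eq_zero_iff_mem, hker] at hy
      exact Ideal.Quotient.eq_zero_iff_mem.2 hy
    · intro y
      obtain ⟨y, rfl⟩ := Ideal.Quotient.mk_surjective y
      exact ⟨Ideal.Quotient.mk J (Polynomial.C y), by rw [hΦ, Polynomial.eval_C]⟩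
  have hσ : ∀ p : Polynomial R.R, ((R.poly x).σ p).eval r = R.σ (p.eval r) := by
    intro p
    change (R.polyσ p).eval r = _
    induction p using Polynomial.induction_on' with
    | add p s hp hs => rw [map_add, Polynomial.eval_add, hp, hs, Polynomial.eval_add, map_add]
    | monomial i a =>
      rw [← Polynomial.C_mul_X_pow_eq_monomial, map_mul, map_pow, GR.polyσ_C, GR.polyσ_X,
        Polynomial.eval_mul, Polynomial.eval_pow, Polynomial.eval_smul, Polynomial.eval_C,
        Polynomial.eval_X, Polynomial.eval_mul, Polynomial.eval_pow, Polynomial.eval_C,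
        Polynomial.eval_X, map_mul, map_pow, hr]
  refine ⟨⟨LinearEquiv.ofBijective Φ hb, ?_, ?_⟩, ?_⟩
  · intro y
    change Φ 0 = _
    rw [map_zero]
    rfl
  · intro y
    obtain ⟨y, rfl⟩ := Ideal.Quotient.mk_surjective (I := J) y
    change Φ (Ideal.Quotient.mk J ((R.poly x).σ y)) = _
    rw [hΦ, one_smul, hσ]
    change _ = Ideal.quotientMapₐ I R.σ hI (Φ (Ideal.Quotient.mk J y))
    rw [hΦ]
    rfl
  · intro p p' h y
    obtain ⟨y, rfl⟩ := Ideal.Quotient.mk_surjective (I := J) y
    change Φ (Ideal.Quotient.mk J ((R.poly x).f p) * Ideal.Quotient.mk J y) =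
      Ideal.Quotient.mk I (R.f p') * Φ (Ideal.Quotient.mk J y)
    rw [← map_mul, hΦ, hΦ, Polynomial.eval_mul, map_mul, Ideal.Quotient.eq.2 h]

/-- A polynomial with a unit as leading coefficient is a nonzerodivisor modulo an ideal of the
coefficient ring. -/
theorem monic_reg {R : Type} [CommRing R] (I : Ideal R) (g : Polynomial R)
    (hg : IsUnit g.leadingCoeff) (x : Polynomial R) (h : g * x ∈ I.map Polynomial.C) :
    x ∈ I.map Polynomial.C := by
  obtain ⟨w, hw⟩ := hg
  have hm : (Polynomial.C ((w⁻¹ : Rˣ) : R) * g).Monic :=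
    Polynomial.monic_C_mul_of_mul_leadingCoeff_eq_one (by rw [← hw, Units.inv_mul])
  have h1 : (Polynomial.C ((w⁻¹ : Rˣ) : R) * g) * x ∈ I.map Polynomial.C := by
    rw [mul_assoc]
    exact Ideal.mul_mem_left _ _ h
  have h2 : ∀ p : Polynomial R, p ∈ I.map Polynomial.C ↔ p.map (Ideal.Quotient.mk I) = 0 := by
    intro p
    rw [map_C_le]
    constructor
    · intro h
      ext j
      rw [Polynomial.coeff_map, Polynomial.coeff_zero, Ideal.Quotient.eq_zero_iff_mem]
      exact h j
    · intro h j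
      have h3 := congrArg (fun p => p.coeff j) h
      simpa only [Polynomial.coeff_map, Polynomial.coeff_zero,
        Ideal.Quotient.eq_zero_iff_mem] using h3
  rw [h2, Polynomial.map_mul] at h1
  rw [h2]
  exact (hm.map _).mul_right_eq_zero_iff.1 h1

/-- A nonzerodivisor modulo an ideal of the coefficient ring stays one. -/
theorem coeff_reg {R : Type} [CommRing R] (I : Ideal R) (a : R) (ha : ∀ x, a * x ∈ I → x ∈ I)
    (x : Polynomial R) (h : Polynomial.C a * x ∈ I.map Polynomial.C) :
    x ∈ I.map Polynomial.C := by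
  rw [map_C_le] at *
  intro j
  have h1 := h j
  rw [Polynomial.coeff_C_mul] at h1
  exact ha _ h1

/-- `(R.poly x).f` on polynomials in other variables. -/
theorem poly_f_of_notMem (R : GR k q) (x : ℕ) (p : A k) (hx : x ∉ p.vars) :
    (R.poly x).f p = Polynomial.C (R.f p) := by
  have h1 : (R.poly x).f p = (aeval fun v => Polynomial.C (R.f (X v)) : A k →ₐ[k] _) p := by
    change (aeval fun v => if v = x then Polynomial.X else Polynomial.C (R.f (X v)) :
      A k →ₐ[k] Polynomial R.R) p = _
    rw [aeval_def, aeval_def]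
    refine eval₂Hom_congr' rfl ?_ rfl
    intro v hv _
    rw [if_neg]
    rintro rfl
    exact hx hv
  rw [h1]
  have h2 : (aeval fun v => Polynomial.C (R.f (X v)) : A k →ₐ[k] Polynomial R.R) =
      (Polynomial.CAlgHom : R.R →ₐ[k] Polynomial R.R).comp R.f := by
    ext v
    simp
  rw [h2]
  rfl

end Pool.Agent.Lib.MP_31c440_gt.HV
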