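import Pool.Agent.Lib.MP_31c440_gt.HV.Graph

/-!
The homology of a closed graph is finite-dimensional.
-/

noncomputable section

namespace Pool.Agent.Lib.MP_31c440_gt.HV

open MvPolynomial

variable {k : Type} [Field k] {q c : kˣ}

namespace K8

/-- The action of `p` is null-homotopic. -/
def NullH (X : Cx k q c) (p : A k) : Prop :=
  ∃ h : X.N →ₗ[A k] X.N, ∀ x, X.d (h x) + h (X.d x) = p • x

theorem NullH.ann {X : Cx k q c} {p : A k} (h : NullH X p) (x : X.H) : p • x = 0 := by
  obtain ⟨h, hh⟩ := h
  obtain ⟨z, rfl⟩ := Submodule.Quotient.mk_surjective _ x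
  refine (Submodule.Quotient.mk_eq_zero _).2 ?_
  rw [Cx.mem_B]
  refine ⟨h z, ?_⟩
  have h1 := hh z
  rw [X.mem_Z.1 z.2, map_zero, add_zero] at h1
  exact h1

theorem NullH.row {X : Cx k q c} {p : A k} (h : NullH X p) (r : Row k q c) (a' b' : A k) :
    NullH (X.addRow r) (p + (r.a * b' + a' * r.b)) := by
  obtain ⟨h, hh⟩ := h
  let H : (X.N × X.N) →ₗ[A k] (X.N × X.N) :=
    (h.comp (LinearMap.fst _ _ _) + a' • LinearMap.snd _ _ _).prod
      (b' • LinearMap.fst _ _ _ - h.comp (LinearMap.snd _ _ _))
  refine ⟨H, fun w => ?_⟩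
  obtain ⟨x, y⟩ := w
  change X.N at x y
  have hx := hh x
  have hy := hh y
  refine Prod.ext ?_ ?_
  · change X.d (h x + a' • y) + r.a • (b' • x - h y) + (h (X.d x + r.a • y) + a' • (r.b • x - X.d y))
      = (p + (r.a * b' + a' * r.b)) • x
    rw [add_smul, ← hx]
    simp only [map_add, map_smul, smul_sub, add_smul, mul_smul]
    abel
  · change r.b • (h x + a' • y) - X.d (b' • x - h y) + (b' • (X.d x + r.a • y) - h (r.b • x - X.d y))
      = (p + (r.a * b' + a' * r.b)) • y
    rw [add_smul, ← hy]
    simp only [map_sub, map_smul, smul_add, add_smul, mul_smul, smul_comm r.b a' y,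
      smul_comm r.a b' y]
    abel

theorem NullH.rows {X : Cx k q c} {p : A k} (h : NullH X p) (S : List (Row k q c)) :
    NullH (X.rows S) p := by
  induction S with
  | nil => exact h
  | cons r S ih =>
    have h1 := ih.row r 0 0
    rw [mul_zero, zero_mul, add_zero, add_zero] at h1
    exact h1

theorem NullH.append (X : Cx k q c) (S T : List (Row k q c)) :
    X.rows (S ++ T) = (X.rows T).rows S := by
  simp [Cx.rows, List.foldr_append]

/-! ### slot derivatives -/

/-- The generic vertex polynomials, in the variables `0, 1` (incoming) and `2, 3` (outgoing). -/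
def gen1 (k : Type) [Field k] (n : ℕ) : MvPolynomial (Fin 4) k :=
  dE (X 2 + X 3) (X 0 + X 1) (X 2 * X 3) n

/-- The second generic polynomial. -/
def gen2 (k : Type) [Field k] (n : ℕ) : MvPolynomial (Fin 4) k :=
  dP (X 0 + X 1) (X 2 * X 3) (X 0 * X 1) n

theorem gen_curv (n : ℕ) :
    gen1 k n * ((X 2 + X 3) - (X 0 + X 1)) + gen2 k n * (X 2 * X 3 - X 0 * X 1) =
      (X 2 ^ n + X 3 ^ n) - (X 0 ^ n + X 1 ^ n) := by
  have h := ps_sub (X 2 + X 3 : MvPolynomial (Fin 4) k) (X 0 + X 1) (X 2 * X 3) (X 0 * X 1) n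
  rw [ps_eq, ps_eq] at h
  rw [h, gen1, gen2]
  ring

theorem gen_slot0 (n : ℕ) :
    gen1 k n * (-1) + pderiv 0 (gen1 k n) * ((X 2 + X 3) - (X 0 + X 1)) +
      (gen2 k n * (-X 1) + pderiv 0 (gen2 k n) * (X 2 * X 3 - X 0 * X 1)) =
      -((n : MvPolynomial (Fin 4) k) * X 0 ^ (n - 1)) := by
  have h := congrArg (pderiv (R := k) (0 : Fin 4)) (gen_curv (k := k) n)
  simp only [map_add, map_sub, Derivation.leibniz, Derivation.leibniz_pow, pderiv_X_self,
    pderiv_X_of_ne (show (2 : Fin 4) ≠ 0 by decide), pderiv_X_of_ne (show (3 : Fin 4) ≠ 0 by decide),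
    pderiv_X_of_ne (show (1 : Fin 4) ≠ 0 by decide), smul_eq_mul, nsmul_eq_mul] at h
  linear_combination h

theorem gen_slot1 (n : ℕ) :
    gen1 k n * (-1) + pderiv 1 (gen1 k n) * ((X 2 + X 3) - (X 0 + X 1)) +
      (gen2 k n * (-X 0) + pderiv 1 (gen2 k n) * (X 2 * X 3 - X 0 * X 1)) =
      -((n : MvPolynomial (Fin 4) k) * X 1 ^ (n - 1)) := by
  have h := congrArg (pderiv (R := k) (1 : Fin 4)) (gen_curv (k := k) n)
  simp only [map_add, map_sub, Derivation.leibniz, Derivation.leibniz_pow, pderiv_X_self,
    pderiv_X_of_ne (show (2 : Fin 4) ≠ 1 by decide), pderiv_X_of_ne (show (3 : Fin 4) ≠ 1 by decide),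
    pderiv_X_of_ne (show (0 : Fin 4) ≠ 1 by decide), smul_eq_mul, nsmul_eq_mul] at h
  linear_combination h

theorem gen_arc (n : ℕ) :
    aA (X 0) (X 1) n * (-1) + pderiv 0 (aA (X 0) (X 1) n) * (X 1 - X 0) =
      -((n : MvPolynomial (Fin 2) k) * X 0 ^ (n - 1)) := by
  have h := congrArg (pderiv (R := k) (0 : Fin 2)) (aA_mul (X 0 : MvPolynomial (Fin 2) k) (X 1) n)
  simp only [map_sub, Derivation.leibniz, Derivation.leibniz_pow, pderiv_X_self,
    pderiv_X_of_ne (show (1 : Fin 2) ≠ 0 by decide), smul_eq_mul, nsmul_eq_mul] at h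
  linear_combination h

/-- The homotopy of a node. -/
theorem NullH.node {n : ℕ} {K : Cx k q (q ^ n)} (hK : NullH K 0) (g : GNode) (v : ℕ)
    (hv : v ∈ g.ins) :
    NullH (K.rows (g.rows k q n)) (-((n : A k) * X v ^ (n - 1))) := by
  cases g with
  | arc i o =>
    simp only [GNode.ins, List.mem_singleton] at hv
    subst hv
    have h := congrArg (aeval (R := k) ![(X v : A k), X o]) (gen_arc (k := k) n)
    have h1 := hK.row (arcRow k q n v o)
      (aeval (R := k) ![(X v : A k), X o] (pderiv 0 (aA (X 0) (X 1) n))) (-1)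
    have h2 : aeval (R := k) ![(X v : A k), X o] (aA (X 0) (X 1) n) = aA (X v) (X o) n := by
      have := map_aA (aeval (R := k) ![(X v : A k), X o]).toRingHom
        (X 0 : MvPolynomial (Fin 2) k) (X 1) n
      simpa using this
    simp only [map_add, map_mul, map_neg, map_sub, map_one, map_pow, map_natCast, h2, aeval_X] at h
    have h3 : (0 : A k) + ((arcRow k q n v o).a * -1 +
        aeval (R := k) ![(X v : A k), X o] (pderiv 0 (aA (X 0) (X 1) n)) * (arcRow k q n v o).b) =
        -((n : A k) * X v ^ (n - 1)) := by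
      rw [zero_add]
      exact h
    rw [h3] at h1
    exact h1
  | vert a b e d =>
    have e1 : aeval (R := k) ![(X a : A k), X b, X e, X d] (gen1 k n) =
        dE (X e + X d) (X a + X b) (X e * X d) n := by
      have := map_dE (aeval (R := k) ![(X a : A k), X b, X e, X d]).toRingHom
        (X 2 + X 3 : MvPolynomial (Fin 4) k) (X 0 + X 1) (X 2 * X 3) n
      simpa [gen1] using this
    have e2 : aeval (R := k) ![(X a : A k), X b, X e, X d] (gen2 k n) =
        dP (X a + X b) (X e * X d) (X a * X b) n := by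
      have := map_dP (aeval (R := k) ![(X a : A k), X b, X e, X d]).toRingHom
        (X 0 + X 1 : MvPolynomial (Fin 4) k) (X 2 * X 3) (X 0 * X 1) n
      simpa [gen2] using this
    simp only [GNode.ins, List.mem_cons, List.not_mem_nil, or_false] at hv
    rcases hv with rfl | rfl
    · have h := congrArg (aeval (R := k) ![(X v : A k), X b, X e, X d]) (gen_slot0 (k := k) n)
      simp only [map_add, map_mul, map_neg, map_sub, map_one, map_pow, map_natCast, e1, e2,
        aeval_X] at h
      have h1 := (hK.row (vRow2 k q n v b e d)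
        (aeval (R := k) ![(X v : A k), X b, X e, X d] (pderiv 0 (gen2 k n))) (-X b)).row
        (vRow1 k q n v b e d)
        (aeval (R := k) ![(X v : A k), X b, X e, X d] (pderiv 0 (gen1 k n))) (-1)
      have h3 : (0 : A k) + ((vRow2 k q n v b e d).a * -X b +
          aeval (R := k) ![(X v : A k), X b, X e, X d] (pderiv 0 (gen2 k n)) *
            (vRow2 k q n v b e d).b) + ((vRow1 k q n v b e d).a * -1 +
          aeval (R := k) ![(X v : A k), X b, X e, X d] (pderiv 0 (gen1 k n)) *
            (vRow1 k q n v b e d).b) = -((n : A k) * X v ^ (n - 1)) := by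
        rw [zero_add, add_comm]
        exact h
      rw [h3] at h1
      exact h1
    · have h := congrArg (aeval (R := k) ![(X a : A k), X v, X e, X d]) (gen_slot1 (k := k) n)
      simp only [map_add, map_mul, map_neg, map_sub, map_one, map_pow, map_natCast, e1, e2,
        aeval_X] at h
      have h1 := (hK.row (vRow2 k q n a v e d)
        (aeval (R := k) ![(X a : A k), X v, X e, X d] (pderiv 1 (gen2 k n))) (-X a)).row
        (vRow1 k q n a v e d)
        (aeval (R := k) ![(X a : A k), X v, X e, X d] (pderiv 1 (gen1 k n))) (-1)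
      have h3 : (0 : A k) + ((vRow2 k q n a v e d).a * -X a +
          aeval (R := k) ![(X a : A k), X v, X e, X d] (pderiv 1 (gen2 k n)) *
            (vRow2 k q n a v e d).b) + ((vRow1 k q n a v e d).a * -1 +
          aeval (R := k) ![(X a : A k), X v, X e, X d] (pderiv 1 (gen1 k n)) *
            (vRow1 k q n a v e d).b) = -((n : A k) * X v ^ (n - 1)) := by
        rw [zero_add, add_comm]
        exact h
      rw [h3] at h1
      exact h1

theorem NullH.graph (n : ℕ) (K : Cx k q (q ^ n)) (hK : NullH K 0) (G : List GNode) (v : ℕ)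
    (hv : v ∈ insG G) : NullH (K.rows (rowsG k q n G)) (-((n : A k) * X v ^ (n - 1))) := by
  induction G with
  | nil => simp [insG] at hv
  | cons g G ih =>
    have e1 : rowsG k q n (g :: G) = g.rows k q n ++ rowsG k q n G := by simp [rowsG]
    rw [e1, NullH.append]
    have e2 : v ∈ g.ins ∨ v ∈ insG G := by
      have : insG (g :: G) = g.ins ++ insG G := by simp [insG]
      rw [this, List.mem_append] at hv
      exact hv
    rcases e2 with h | h
    · exact NullH.node (hK.rows _) g v h
    · exact (ih h).rows _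

/-! ### Noetherian -/

theorem base_f_cons (l : List ℕ) (x v : ℕ) :
    (GR.base k q (x :: l)).f (MvPolynomial.X v) =
      if v = x then (Polynomial.X : Polynomial (GR.base k q l).R)
        else Polynomial.C ((GR.base k q l).f (X v)) :=
  aeval_X (R := k) (fun v => if v = x then (Polynomial.X : Polynomial (GR.base k q l).R)
        else Polynomial.C ((GR.base k q l).f (X v))) v

theorem base_f_zero (l : List ℕ) (v : ℕ) (hv : v ∉ l) :
    (GR.base k q l).f (MvPolynomial.X v) = 0 := by
  induction l with
  | nil => exact aeval_X (R := k) (fun _ => (0 : k)) v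
  | cons x l ih =>
    simp only [List.mem_cons, not_or] at hv
    rw [base_f_cons, if_neg hv.1, ih hv.2]
    exact map_zero _

theorem base_noeth (l : List ℕ) : IsNoetherianRing (GR.base k q l).R := by
  induction l with
  | nil => exact inferInstanceAs (IsNoetherianRing k)
  | cons x l ih =>
    have := ih
    exact inferInstanceAs (IsNoetherianRing (Polynomial (GR.base k q l).R))

theorem base_surj (l : List ℕ) (hl : l.Nodup) : Function.Surjective (GR.base k q l).f := by
  induction l with
  | nil =>
    intro r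
    exact ⟨C r, (algHom_C (R := k) (A := k) (aeval fun _ : ℕ => (0 : k)) r)⟩
  | cons x l ih =>
    rw [List.nodup_cons] at hl
    have ih := ih hl.2
    have hX : ∀ r : (GR.base k q l).R, ∃ p,
        (GR.base k q (x :: l)).f p = (Polynomial.C r : Polynomial (GR.base k q l).R) := by
      intro r
      obtain ⟨p, rfl⟩ := ih r
      induction p using MvPolynomial.induction_on with
      | C a =>
        refine ⟨C a, ?_⟩
        rw [algHom_C, algHom_C]
        rfl
      | add p p' h h' =>
        obtain ⟨s, hs⟩ := h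
        obtain ⟨s', hs'⟩ := h'
        refine ⟨s + s', ?_⟩
        rw [map_add, hs, hs', map_add]
        exact (Polynomial.C_add).symm
      | mul_X p v h =>
        obtain ⟨s, hs⟩ := h
        by_cases hv : v = x
        · refine ⟨0, ?_⟩
          rw [map_zero, map_mul, hv, base_f_zero l x hl.1, mul_zero]
          exact (Polynomial.C_0).symm
        · refine ⟨s * X v, ?_⟩
          rw [map_mul, hs, base_f_cons, if_neg hv, map_mul]
          exact (Polynomial.C_mul).symm
    intro r
    change Polynomial (GR.base k q l).R at r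
    induction r using Polynomial.induction_on with
    | C a => exact hX a
    | add p p' h h' =>
      obtain ⟨s, hs⟩ := h
      obtain ⟨s', hs'⟩ := h'
      exact ⟨s + s', by rw [map_add, hs, hs']; rfl⟩
    | monomial m a h =>
      obtain ⟨s, hs⟩ := h
      refine ⟨s * X x, ?_⟩
      rw [map_mul, hs, base_f_cons, if_pos rfl, pow_succ, ← mul_assoc]
      rfl

/-- The base ring is Noetherian as a module over the big polynomial ring. -/
theorem base_noeth_mod (l : List ℕ) (hl : l.Nodup) :
    IsNoetherian (A k) ((GR.base k q l).cx c).N := by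
  have h1 := base_noeth (k := k) (q := q) l
  have hs : RingHomSurjective (GR.base k q l).f.toRingHom := ⟨base_surj l hl⟩
  let e : ((GR.base k q l).cx c).N →ₛₗ[(GR.base k q l).f.toRingHom] (GR.base k q l).R :=
    { toFun := fun x => x
      map_add' := fun _ _ => rfl
      map_smul' := fun _ _ => rfl }
  exact (LinearMap.isNoetherian_iff_of_bijective e ⟨fun _ _ h => h, fun x => ⟨x, rfl⟩⟩).2 h1

theorem rows_noeth (S : List (Row k q c)) (X : Cx k q c) (h : IsNoetherian (A k) X.N) :
    IsNoetherian (A k) (X.rows S).N := by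
  induction S with
  | nil => exact h
  | cons r S ih =>
    have := ih
    exact inferInstanceAs (IsNoetherian (A k) ((X.rows S).N × (X.rows S).N))

theorem rows_zero (S : List (Row k q c)) (X : Cx k q c) (p : A k)
    (h : ∀ x : X.N, p • x = 0) (x : (X.rows S).N) : p • x = 0 := by
  induction S with
  | nil => exact h x
  | cons r S ih =>
    obtain ⟨x, y⟩ := x
    exact Prod.ext (ih x) (ih y)

theorem H_zero (X : Cx k q c) (p : A k) (h : ∀ x : X.N, p • x = 0) (x : X.H) : p • x = 0 := by
  obtain ⟨z, rfl⟩ := Submodule.Quotient.mk_surjective _ x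
  rw [← Submodule.Quotient.mk_smul]
  have : p • z = 0 := Subtype.ext (h z)
  rw [this]
  rfl

theorem quot_fin (J : Ideal (A k)) (l : List ℕ) (m : ℕ) (h1 : ∀ v ∈ l, (X v : A k) ^ m ∈ J)
    (h2 : ∀ v ∉ l, (X v : A k) ∈ J) : Module.Finite k (A k ⧸ J) := by
  let s : Set (A k ⧸ J) := (fun v => Ideal.Quotient.mk J (X v)) '' {v | v ∈ l}
  have hs : s.Finite := (List.finite_toSet l).image _
  have hi : ∀ x ∈ s, IsIntegral k x := by
    rintro _ ⟨v, hv, rfl⟩
    refine ⟨Polynomial.X ^ m, Polynomial.monic_X_pow m, ?_⟩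
    rw [Polynomial.eval₂_X_pow, ← map_pow]
    exact Ideal.Quotient.eq_zero_iff_mem.2 (h1 v hv)
  have hf := fg_adjoin_of_finite hs hi
  have ht : Algebra.adjoin k s = ⊤ := by
    rw [eq_top_iff]
    rintro x -
    obtain ⟨p, rfl⟩ := Ideal.Quotient.mk_surjective x
    induction p using MvPolynomial.induction_on with
    | C a => exact (Algebra.adjoin k s).algebraMap_mem a
    | add p p' h h' =>
      rw [map_add]
      exact add_mem h h'
    | mul_X p v h =>
      rw [map_mul]
      refine mul_mem h ?_
      by_cases hv : v ∈ l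
      · exact Algebra.subset_adjoin ⟨v, hv, rfl⟩
      · rw [Ideal.Quotient.eq_zero_iff_mem.2 (h2 v hv)]
        exact zero_mem _
  rw [ht] at hf
  exact ⟨by simpa using hf⟩

theorem fd_of (X : Cx k q c) (hN : IsNoetherian (A k) X.N) (l : List ℕ) (m : ℕ)
    (h1 : ∀ v ∈ l, ∀ x : X.H, (MvPolynomial.X v : A k) ^ m • x = 0)
    (h2 : ∀ v ∉ l, ∀ x : X.H, (MvPolynomial.X v : A k) • x = 0) : X.FD := by
  have hf := quot_fin (Module.annihilator (A k) X.H) l m
    (fun v hv => Module.mem_annihilator.2 (h1 v hv)) (fun v hv => Module.mem_annihilator.2 (h2 v hv))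
  let _ : Module (A k ⧸ Module.annihilator (A k) X.H) X.H :=
    Module.quotientAnnihilator
  have t1 : IsScalarTower (A k) (A k ⧸ Module.annihilator (A k) X.H) X.H :=
    ⟨fun p p' x => by
      obtain ⟨p', rfl⟩ := Ideal.Quotient.mk_surjective p'
      exact mul_smul p p' x⟩
  have t2 : IsScalarTower k (A k ⧸ Module.annihilator (A k) X.H) X.H :=
    ⟨fun p p' x => by
      obtain ⟨p', rfl⟩ := Ideal.Quotient.mk_surjective p'
      exact smul_assoc p p' x⟩
  have f1 : Module.Finite (A k) X.H := inferInstance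
  have f2 : Module.Finite (A k ⧸ Module.annihilator (A k) X.H) X.H :=
    Module.Finite.of_restrictScalars_finite (A k) _ _
  exact Module.Finite.trans (R := k) (A k ⧸ Module.annihilator (A k) X.H) X.H

theorem base_act_zero (l : List ℕ) (v : ℕ) (hv : v ∉ l) (x : ((GR.base k q l).cx c).N) :
    (MvPolynomial.X v : A k) • x = 0 := by
  change (GR.base k q l).f (MvPolynomial.X v) * (show (GR.base k q l).R from x) = 0
  rw [base_f_zero l v hv, zero_mul]

end K8

open K8 in
theorem gcx_fin [CharZero k] (n : ℕ) (hn : 1 ≤ n) (G : List GNode) (hG : Closed G) :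
    (gcx k q n G).FD := by
  refine fd_of _ (rows_noeth _ _ (base_noeth_mod _ hG.1)) (insG G) (n - 1) (fun v hv x => ?_)
    (fun v hv x => H_zero _ _ (rows_zero _ _ _ (base_act_zero _ v hv)) x)
  have h0 : NullH ((GR.base k q (insG G)).cx (q ^ n)) 0 := ⟨0, fun x => by
    change (0 : (GR.base k q (insG G)).R) + 0 = _
    rw [zero_smul, add_zero]
    rfl⟩
  have h := (NullH.graph n _ h0 G v hv).ann x
  have hn' : (n : k) ≠ 0 := Nat.cast_ne_zero.2 (by omega)
  have h3 : (MvPolynomial.X v : A k) ^ (n - 1) =
      C (-(n : k)⁻¹) * (-((n : A k) * X v ^ (n - 1))) := by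
    have : (n : A k) = C (n : k) := (map_natCast C n).symm
    rw [this, mul_neg, ← mul_assoc, ← C_mul, neg_mul, inv_mul_cancel₀ hn', map_neg, map_one]
    ring
  rw [h3, mul_smul]
  have h4 : (-((n : A k) * X v ^ (n - 1))) • x = 0 := h
  rw [h4, smul_zero]

end Pool.Agent.Lib.MP_31c440_gt.HV
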