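import Pool.Agent.Lib.MP_31c440_gt.HV.K4_Prod
import Pool.Agent.Lib.MP_31c440_gt.HV.K7_Monic
import Pool.Agent.Lib.MP_31c440_gt.HV.K8_Fin
import Pool.Agent.Lib.MP_31c440_gt.HV.K9_Node
import Pool.Agent.Lib.MP_31c440_gt.HV.K13a_Deg

/-!
Module K11: a circle and a vertex with a loop.
-/

noncomputable section

namespace Pool.Agent.Lib.MP_31c440_gt.HV

open MvPolynomial

variable {k : Type} [Field k] {q c : kˣ} {u v : k}

namespace K11

theorem map_id (G : List GNode) : G.map (GNode.map id) = G := by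
  have h : ∀ g : GNode, GNode.map id g = g := by
    intro g
    cases g <;> rfl
  induction G with
  | nil => rfl
  | cons g G ih => rw [List.map_cons, ih, h]

/-- The same rows on isomorphic modules. -/
theorem rows_same {X Y : Cx k q c} (f : CIso u X Y) (h : ∀ p, f.Int p p)
    (S : List (Row k q c)) :
    ∃ g : CIso u (X.rows S) (Y.rows S), ∀ p p', f.Int p p' → g.Int p p' :=
  rows_congr f S S (List.forall₂_same.2 fun r _ => ⟨rfl, h r.a, h r.b⟩)

/-- The rows of a graph on isomorphic modules. -/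
theorem rowsG_same {n : ℕ} {X Y : Cx k q (q ^ n)} (f : CIso u X Y) (G : List GNode)
    (h : ∀ v, v ∈ insG G ∨ v ∈ outsG G → f.Int (MvPolynomial.X v) (MvPolynomial.X v)) :
    ∃ g : CIso u (X.rows (rowsG k q n G)) (Y.rows (rowsG k q n G)),
      ∀ p p', f.Int p p' → g.Int p p' := by
  have h1 := rowsG_forall₂ f G id h
  rw [map_id] at h1
  exact rows_congr f _ _ h1

theorem core [CharZero k] (n x D : ℕ) (G : List GNode) (hG : Closed G) (hx : x ∉ insG G)
    (r : Row k q (q ^ n)) (hrb : r.b = 0) (hs : (r.s : k) * (q : k) ^ (2 * D) = (q : k) ^ n)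
    (hD : (((GR.base k q (insG G)).poly x).f r.a).natDegree = D) (m : k) (hm : m ≠ 0)
    (hl : (((GR.base k q (insG G)).poly x).f r.a).coeff D = algebraMap k _ m)
    (hF : ((((GR.base k q (insG G)).poly x).cx (q ^ n)).rows (r :: rowsG k q n G)).FD) :
    ((((GR.base k q (insG G)).poly x).cx (q ^ n)).rows (r :: rowsG k q n G)).τ =
      (r.s : k) * (∑ j : _root_.Fin D, (q : k) ^ (2 * (j : ℕ))) * (gcx k q n G).τ := by
  subst hD
  have : IsDomain (GR.base k q (insG G)).R := base_domain _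
  set R₀ := GR.base k q (insG G) with hR₀
  set P : Polynomial R₀.R := (R₀.poly x).f r.a with hP
  have hlP : P.leadingCoeff = algebraMap k R₀.R m := hl
  -- homogeneity
  have hsa : scl k q r.a = ((q : k) ^ (2 * P.natDegree)) • r.a := by
    have h := r.ha
    push_cast at h
    rw [← hs, mul_smul] at h
    have h2 := congrArg (fun y => ((r.s : k))⁻¹ • y) h
    simpa [smul_smul, inv_mul_cancel₀ r.s.ne_zero] using h2
  have hσP : (R₀.poly x).σ P = ((q : k) ^ (2 * P.natDegree)) • P := by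
    rw [hP, (R₀.poly x).hσ, hsa, map_smul]
  -- the monic polynomial
  set g : Polynomial R₀.R := m⁻¹ • P with hg
  have hmonic : g.Monic := by
    rw [Polynomial.Monic, hg, Polynomial.leadingCoeff_smul_of_smul_regular, hlP,
      ← algebraMap_smul R₀.R m⁻¹, smul_eq_mul, ← map_mul, inv_mul_cancel₀ hm, map_one]
    exact IsSMulRegular.of_ne_zero (inv_ne_zero hm)
  have hdeg : g.natDegree = P.natDegree := by
    rw [hg]
    exact Polynomial.natDegree_smul_of_smul_regular P
      (IsSMulRegular.of_ne_zero (inv_ne_zero hm))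
  have hσg : (R₀.poly x).σ g = ((q : k) ^ (2 * g.natDegree)) • g := by
    rw [hdeg, hg, map_smul, hσP, smul_comm]
  have hP0 : P ≠ 0 := by
    intro h0
    rw [h0, Polynomial.leadingCoeff_zero] at hlP
    exact hm ((algebraMap k R₀.R).injective (by rw [map_zero]; exact hlP.symm))
  -- the quotient by the zero ideal
  obtain ⟨g₁, h₁⟩ := quot_bot (c := q ^ n) (R₀.poly x)
  obtain ⟨G₁, -⟩ := rows_same g₁ (fun p => h₁ p p rfl) (r :: rowsG k q n G)
  have e₁ := G₁.hIso
  -- elimination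
  have hJ : Stab (R₀.poly x) (⊥ ⊔ Ideal.span {(R₀.poly x).f r.a}) :=
    (Stab.bot _).sup (Stab.span_f _ ⟨_, hsa⟩)
  have e₂ := elimA_quot (c := q ^ n) (R₀.poly x) ⊥ (Stab.bot _) r (rowsG k q n G) hJ
    (by
      have hc : curv (r :: rowsG k q n G) = 0 := by
        have h := curv_closed (k := k) (q := q) n G hG
        rw [curv] at h ⊢
        rw [List.map_cons, List.sum_cons, h, hrb, mul_zero, add_zero]
      rw [hc, map_zero]
      exact Ideal.zero_mem _)
    (by
      intro y hy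
      rw [Ideal.mem_bot] at hy ⊢
      exact (mul_eq_zero.1 hy).resolve_left hP0)
  -- the same ideal
  have hI : (⊥ ⊔ Ideal.span {(R₀.poly x).f r.a} : Ideal (R₀.poly x).R) =
      (⊥ : Ideal R₀.R).map Polynomial.C ⊔ Ideal.span {g} := by
    rw [Ideal.map_bot]
    congr 1
    have hu : IsUnit (Polynomial.C (algebraMap k R₀.R m⁻¹)) :=
      (((inv_ne_zero hm).isUnit).map (algebraMap k R₀.R)).map Polynomial.C
    have hg2 : g = P * Polynomial.C (algebraMap k R₀.R m⁻¹) := by
      rw [hg, mul_comm, ← Polynomial.smul_eq_C_mul, algebraMap_smul]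
    rw [hg2]
    exact (Ideal.span_singleton_mul_right_unit hu P).symm
  have hJ2 : Stab (R₀.poly x) ((⊥ : Ideal R₀.R).map Polynomial.C ⊔ Ideal.span {g}) := by
    rw [← hI]
    exact hJ
  obtain ⟨g₃, h₃⟩ := quot_congr (c := q ^ n) (R₀.poly x) _ _ hJ hJ2 hI
  obtain ⟨G₃, -⟩ := rows_same g₃ (fun p => h₃ p p (by rw [sub_self]; exact Ideal.zero_mem _))
    (rowsG k q n G)
  have e₃ := G₃.hIso
  -- the free module
  obtain ⟨g₄, h₄⟩ := monic_pow (c := q ^ n) R₀ x ⊥ (Stab.bot _) g hmonic hσg hJ2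
  obtain ⟨G₄, -⟩ := rowsG_same g₄ G (fun v hv => h₄ _ _ (by
    have hvx : v ≠ x := by
      rintro rfl
      rcases hv with hv | hv
      · exact hx hv
      · exact hx (hG.2.mem_iff.2 hv)
    have : (R₀.poly x).f (MvPolynomial.X v) = Polynomial.C (R₀.f (MvPolynomial.X v)) := by
      change aeval _ _ = _
      rw [aeval_X, if_neg hvx]
    rw [this, sub_self]
    exact Ideal.zero_mem _))
  have e₄ := G₄.hIso
  obtain ⟨g₅, h₅⟩ := quot_bot (c := q ^ n) R₀
  obtain ⟨G₅, -⟩ := rows_same g₅ (fun p => h₅ p p rfl) (rowsG k q n G)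
  have e₅ := G₅.hIso
  have hF2 := e₄.fin.1 (e₃.fin.1 (e₂.fin.1 (e₁.fin.2 hF)))
  have t₁ := e₁.tau
  have t₂ := e₂.tau
  have t₃ := e₃.tau
  have t₄ := e₄.tau
  have t₅ := e₅.tau
  rw [tau_rows_pow _ _ _ hF2, t₅] at t₄
  rw [one_mul] at t₁ t₃ t₄ t₅
  rw [← t₁, t₂, t₃, t₄, one_mul, hdeg]
  simp only [mul_assoc]
  rfl

theorem hsU (q : kˣ) (j m l : ℕ) (h : j + l = m + m) :
    (((q ^ j / q ^ m : kˣ)) : k) * (q : k) ^ l = (q : k) ^ m := by
  have h1 : (q ^ j / q ^ m) * q ^ l = q ^ m := by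
    rw [div_mul_eq_mul_div, div_eq_iff_eq_mul, ← pow_add, ← pow_add, h]
  have h2 := congrArg (fun y : kˣ => (y : k)) h1
  simpa using h2

theorem geo (N : ℕ) :
    (∑ j : _root_.Fin N, (q : k) ^ (2 * (j : ℕ))) * ((q : k) * ((q : k) - (q : k)⁻¹)) =
      (q : k) ^ N * ((q : k) ^ N - ((q : k) ^ N)⁻¹) := by
  have h := geom_sum_mul ((q : k) ^ 2) N
  have h0 : (q : k) ≠ 0 := q.ne_zero
  have h1 : (∑ j : _root_.Fin N, (q : k) ^ (2 * (j : ℕ))) =
      ∑ j ∈ Finset.range N, ((q : k) ^ 2) ^ j := by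
    rw [← Fin.sum_univ_eq_sum_range (fun j => ((q : k) ^ 2) ^ j) N]
    exact Finset.sum_congr rfl fun j _ => by rw [pow_mul]
  have h2 : (q : k) * ((q : k) - (q : k)⁻¹) = (q : k) ^ 2 - 1 := by
    rw [mul_sub, mul_inv_cancel₀ h0]
    ring
  have h3 : (q : k) ^ N * ((q : k) ^ N - ((q : k) ^ N)⁻¹) = ((q : k) ^ 2) ^ N - 1 := by
    rw [mul_sub, mul_inv_cancel₀ (pow_ne_zero N h0)]
    ring
  rw [h1, h2, h3, h]

theorem closed_loop {a b x : ℕ} {S : List GNode} (h : Closed (.vert a x b x :: S)) :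
    Closed (.arc a b :: S) ∧ x ∉ insG (.arc a b :: S) := by
  obtain ⟨h1, h2⟩ := h
  change (a :: x :: insG S).Nodup at h1
  change (a :: x :: insG S).Perm (b :: x :: outsG S) at h2
  have h3 : (x :: a :: insG S).Nodup := (List.Perm.swap x a _).nodup_iff.1 h1
  refine ⟨⟨(List.nodup_cons.1 h3).2, ?_⟩, (List.nodup_cons.1 h3).1⟩
  change (a :: insG S).Perm (b :: outsG S)
  exact List.perm_cons x |>.1 (((List.Perm.swap a x _).trans h2).trans (List.Perm.swap x b _))

theorem aA_loop (n a b x : ℕ) (hab : a ≠ b) :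
    dE (MvPolynomial.X b + MvPolynomial.X x) (MvPolynomial.X a + MvPolynomial.X x)
        (MvPolynomial.X b * MvPolynomial.X x : A k) n +
      MvPolynomial.X x * dP (MvPolynomial.X a + MvPolynomial.X x)
        (MvPolynomial.X b * MvPolynomial.X x) (MvPolynomial.X a * MvPolynomial.X x) n =
      aA (MvPolynomial.X a) (MvPolynomial.X b) n := by
  have h0 : (MvPolynomial.X b - MvPolynomial.X a : A k) ≠ 0 := by
    intro h
    exact hab (MvPolynomial.X_injective (sub_eq_zero.1 h)).symm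
  apply mul_left_cancel₀ h0
  rw [aA_mul]
  have h := ps_sub (MvPolynomial.X b + MvPolynomial.X x : A k)
    (MvPolynomial.X a + MvPolynomial.X x) (MvPolynomial.X b * MvPolynomial.X x)
    (MvPolynomial.X a * MvPolynomial.X x) n
  rw [ps_eq, ps_eq] at h
  linear_combination -h

end K11

theorem FG_circle [CharZero k] (N i : ℕ) (S : List GNode) (hN : 1 ≤ N)
    (hq : (q : k) - (q : k)⁻¹ ≠ 0) (h : Closed (.arc i i :: S)) :
    FG k q (N + 1) (.arc i i :: S) =
      ((q : k) ^ N - ((q : k) ^ N)⁻¹) / (q - (q : k)⁻¹) * FG k q (N + 1) S := by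
  have hS : Closed S ∧ i ∉ insG S := by
    obtain ⟨h1, h2⟩ := h
    change (i :: insG S).Nodup at h1
    change (i :: insG S).Perm (i :: outsG S) at h2
    exact ⟨⟨(List.nodup_cons.1 h1).2, (List.perm_cons i).1 h2⟩, (List.nodup_cons.1 h1).1⟩
  have h0 : (q : k) ≠ 0 := q.ne_zero
  have hf : ((GR.base k q (insG S)).poly i).f (arcRow k q (N + 1) i i).a =
      Polynomial.C (algebraMap k _ ((N : k) + 1)) * Polynomial.X ^ N := by
    have hX : ((GR.base k q (insG S)).poly i).f (MvPolynomial.X i) = Polynomial.X := by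
      change aeval _ _ = _
      rw [aeval_X, if_pos rfl]
    have h1 := map_aA (((GR.base k q (insG S)).poly i).f.toRingHom) (MvPolynomial.X i)
      (MvPolynomial.X i) (N + 1)
    change _ = aA (((GR.base k q (insG S)).poly i).f (MvPolynomial.X i))
      (((GR.base k q (insG S)).poly i).f (MvPolynomial.X i)) (N + 1) at h1
    rw [hX] at h1
    refine h1.trans ?_
    rw [aA, Finset.sum_congr rfl (g := fun _ => (Polynomial.X : Polynomial _) ^ N)]
    · rw [Finset.sum_const, Finset.card_range, nsmul_eq_mul]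
      simp
    · intro j hj
      rw [← pow_add]
      congr 1
      have := Finset.mem_range.1 hj
      omega
  have hm : ((N : k) + 1) ≠ 0 := by exact_mod_cast Nat.succ_ne_zero N
  have : IsDomain (GR.base k q (insG S)).R := base_domain _
  have hne : (algebraMap k (GR.base k q (insG S)).R ((N : k) + 1)) ≠ 0 := by
    rw [Ne, map_eq_zero_iff _ (algebraMap k (GR.base k q (insG S)).R).injective]
    exact hm
  have key := K11.core (k := k) (q := q) (N + 1) i N S hS.1 hS.2 (arcRow k q (N + 1) i i)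
    (sub_self _)
    (K11.hsU q 2 (N + 1) (2 * N) (by omega))
    (by rw [hf, Polynomial.natDegree_C_mul_X_pow _ _ hne]) ((N : k) + 1) hm
    (by rw [hf, Polynomial.coeff_C_mul_X_pow, if_pos rfl])
    (gcx_fin (N + 1) (by omega) _ h)
  have hg : (gcx k q (N + 1) (.arc i i :: S)).τ =
      (((q ^ 2 / q ^ (N + 1) : kˣ)) : k) * (∑ j : _root_.Fin N, (q : k) ^ (2 * (j : ℕ))) *
        (gcx k q (N + 1) S).τ := key
  have hnv : nvG (.arc i i :: S) = nvG S := by simp [nvG, GNode.nv]
  rw [FG, FG, hg, hnv]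
  have hge := K11.geo (q := q) N
  have h2 : (((q ^ 2 / q ^ (N + 1) : kˣ)) : k) * (∑ j : _root_.Fin N, (q : k) ^ (2 * (j : ℕ))) =
      ((q : k) ^ N - ((q : k) ^ N)⁻¹) / (q - (q : k)⁻¹) := by
    rw [eq_div_iff hq]
    push_cast
    have h3 : (q : k) ^ N ≠ 0 := pow_ne_zero N h0
    rw [pow_succ (q : k) N, div_mul_eq_mul_div, div_mul_eq_mul_div,
      div_eq_iff (mul_ne_zero h3 h0)]
    linear_combination (q : k) * hge
  rw [h2]
  ring

theorem FG_loop [CharZero k] (N a b x : ℕ) (S : List GNode) (hN : 1 ≤ N)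
    (hq : (q : k) - (q : k)⁻¹ ≠ 0) (hab : [a, b, x].Nodup) (h : Closed (.vert a x b x :: S)) :
    FG k q (N + 1) (.vert a x b x :: S) =
      ((q : k) ^ N * (q : k)⁻¹ - ((q : k) ^ N)⁻¹ * q) / (q - (q : k)⁻¹) *
        FG k q (N + 1) (.arc a b :: S) := by
  obtain ⟨M, rfl⟩ : ∃ M, N = M + 1 := ⟨N - 1, by omega⟩
  have hne : a ≠ b ∧ a ≠ x ∧ b ≠ x := by
    simp at hab
    tauto
  obtain ⟨hab, hax, hbx⟩ := hne
  have hS := K11.closed_loop h
  have h0 : (q : k) ≠ 0 := q.ne_zero
  -- change of the order of the variables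
  have hnd : (a :: x :: insG S).Nodup := h.1
  obtain ⟨e, he, hef⟩ := base_perm (k := k) (q := q) (List.Perm.swap x a (insG S)) hnd
  obtain ⟨g₁, hg₁⟩ := cx_iso (c := q ^ (M + 1 + 1)) _ _ e he
  obtain ⟨G₁, -⟩ := K11.rows_same g₁ (fun p => hg₁ p p (hef p))
    (rowsG k q (M + 1 + 1) (.vert a x b x :: S))
  have e₁ := G₁.hIso
  -- change of the order of the rows
  obtain ⟨G₂, -⟩ := rows_perm (X := (GR.base k q (x :: a :: insG S)).cx (q ^ (M + 1 + 1)))
    (List.Perm.swap (vRow2 k q (M + 1 + 1) a x b x) (vRow1 k q (M + 1 + 1) a x b x)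
      (rowsG k q (M + 1 + 1) S))
  have e₂ := G₂.hIso
  -- row operation
  let r : Row k q (q ^ (M + 1 + 1)) :=
    { a := (vRow2 k q (M + 1 + 1) a x b x).a
      b := 0
      s := (vRow2 k q (M + 1 + 1) a x b x).s
      ha := (vRow2 k q (M + 1 + 1) a x b x).ha
      hb := by simp }
  obtain ⟨G₃, -⟩ := rowop1 (X := (GR.base k q (x :: a :: insG S)).cx (q ^ (M + 1 + 1)))
    (rowsG k q (M + 1 + 1) S) (vRow2 k q (M + 1 + 1) a x b x) (vRow1 k q (M + 1 + 1) a x b x)
    r (arcRow k q (M + 1 + 1) a b) (-MvPolynomial.X x) rfl rfl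
    (by
      change (((q ^ 2 / q ^ (M + 1 + 1) : kˣ)) : k) • _ =
        (((q ^ 4 / q ^ (M + 1 + 1) : kˣ)) : k) • _
      rw [map_neg, GR.scl_X, ← MvPolynomial.smul_eq_C_mul, smul_neg, smul_neg, smul_smul]
      congr 2
      push_cast
      field_simp)
    (fun _ => rfl)
    (fun y => by
      change (0 : A k) • y = _
      congr 1
      change _ = (MvPolynomial.X b * MvPolynomial.X x - MvPolynomial.X a * MvPolynomial.X x) +
        -MvPolynomial.X x * ((MvPolynomial.X b + MvPolynomial.X x) -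
          (MvPolynomial.X a + MvPolynomial.X x))
      ring)
    (fun y => by
      congr 1
      change aA (MvPolynomial.X a) (MvPolynomial.X b) (M + 1 + 1) = _
      rw [← K11.aA_loop (M + 1 + 1) a b x hab]
      change _ = dE (MvPolynomial.X b + MvPolynomial.X x) (MvPolynomial.X a + MvPolynomial.X x)
        (MvPolynomial.X b * MvPolynomial.X x : A k) (M + 1 + 1) -
        -MvPolynomial.X x * dP (MvPolynomial.X a + MvPolynomial.X x)
        (MvPolynomial.X b * MvPolynomial.X x) (MvPolynomial.X a * MvPolynomial.X x) (M + 1 + 1)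
      ring)
    (fun y => by
      congr 1
      change (MvPolynomial.X b - MvPolynomial.X a : A k) =
        (MvPolynomial.X b + MvPolynomial.X x) - (MvPolynomial.X a + MvPolynomial.X x)
      ring)
  have e₃ := G₃.hIso
  have hF : ((((GR.base k q (insG (.arc a b :: S))).poly x).cx (q ^ (M + 1 + 1))).rows
      (r :: rowsG k q (M + 1 + 1) (.arc a b :: S))).FD :=
    e₃.fin.1 (e₂.fin.1 (e₁.fin.1 (gcx_fin (M + 1 + 1) (by omega) _ h)))
  -- the polynomial
  have hf : ((GR.base k q (insG (.arc a b :: S))).poly x).f r.a =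
      dP (Polynomial.X + Polynomial.C ((GR.base k q (insG (.arc a b :: S))).f
          (MvPolynomial.X a)))
        (Polynomial.C ((GR.base k q (insG (.arc a b :: S))).f (MvPolynomial.X b)) *
          Polynomial.X + Polynomial.C 0)
        (Polynomial.C ((GR.base k q (insG (.arc a b :: S))).f (MvPolynomial.X a)) *
          Polynomial.X + Polynomial.C 0) (M + 2) := by
    have hX : ((GR.base k q (insG (.arc a b :: S))).poly x).f (MvPolynomial.X x) =
        Polynomial.X := by
      change aeval _ _ = _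
      rw [aeval_X, if_pos rfl]
    have hA : ((GR.base k q (insG (.arc a b :: S))).poly x).f (MvPolynomial.X a) =
        Polynomial.C ((GR.base k q (insG (.arc a b :: S))).f (MvPolynomial.X a)) := by
      change aeval _ _ = _
      rw [aeval_X, if_neg hax]
    have hB : ((GR.base k q (insG (.arc a b :: S))).poly x).f (MvPolynomial.X b) =
        Polynomial.C ((GR.base k q (insG (.arc a b :: S))).f (MvPolynomial.X b)) := by
      change aeval _ _ = _
      rw [aeval_X, if_neg hbx]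
    have h1 := map_dP (((GR.base k q (insG (.arc a b :: S))).poly x).f.toRingHom)
      (MvPolynomial.X a + MvPolynomial.X x) (MvPolynomial.X b * MvPolynomial.X x)
      (MvPolynomial.X a * MvPolynomial.X x) (M + 1 + 1)
    change _ = dP (((GR.base k q (insG (.arc a b :: S))).poly x).f
        (MvPolynomial.X a + MvPolynomial.X x))
      (((GR.base k q (insG (.arc a b :: S))).poly x).f
        (MvPolynomial.X b * MvPolynomial.X x))
      (((GR.base k q (insG (.arc a b :: S))).poly x).f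
        (MvPolynomial.X a * MvPolynomial.X x)) (M + 1 + 1) at h1
    refine h1.trans ?_
    rw [map_add, map_mul, map_mul, hX, hA, hB, Polynomial.C_0, add_zero, add_zero,
      add_comm (Polynomial.C _)]
  have : IsDomain (GR.base k q (insG (.arc a b :: S))).R := base_domain _
  let _ : Algebra ℚ (GR.base k q (insG (.arc a b :: S))).R :=
    ((algebraMap k (GR.base k q (insG (.arc a b :: S))).R).comp (algebraMap ℚ k)).toAlgebra
  have hdeg := dP_natDegree M
    ((GR.base k q (insG (.arc a b :: S))).f (MvPolynomial.X a))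
    0 ((GR.base k q (insG (.arc a b :: S))).f (MvPolynomial.X b))
    0 ((GR.base k q (insG (.arc a b :: S))).f (MvPolynomial.X a))
  have hm : (-((M : k) + 2)) ≠ 0 := by
    rw [neg_ne_zero]
    exact_mod_cast Nat.succ_ne_zero (M + 1)
  have key := K11.core (k := k) (q := q) (M + 1 + 1) x M (.arc a b :: S) hS.1 hS.2 r rfl
    (K11.hsU q 4 (M + 1 + 1) (2 * M) (by omega))
    (by rw [hf]; exact hdeg.1) (-((M : k) + 2)) hm
    (by
      rw [hf]
      refine hdeg.2.trans ?_
      rw [map_neg, map_add, map_natCast, map_ofNat])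
    hF
  have t₁ := e₁.tau
  have t₂ := e₂.tau
  have t₃ := e₃.tau
  rw [one_mul] at t₁ t₂ t₃
  have hg : (gcx k q (M + 1 + 1) (.vert a x b x :: S)).τ =
      (((q ^ 4 / q ^ (M + 1 + 1) : kˣ)) : k) * (∑ j : _root_.Fin M, (q : k) ^ (2 * (j : ℕ))) *
        (gcx k q (M + 1 + 1) (.arc a b :: S)).τ :=
    (t₁.trans (t₂.trans t₃)).trans key
  have hnv : nvG (.vert a x b x :: S) = nvG (.arc a b :: S) + 1 := by
    simp [nvG, GNode.nv, add_comm]
  rw [FG, FG, hg, hnv]
  have hge := K11.geo (q := q) M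
  have h2 : (q : k)⁻¹ * ((((q ^ 4 / q ^ (M + 1 + 1) : kˣ)) : k) *
      (∑ j : _root_.Fin M, (q : k) ^ (2 * (j : ℕ)))) =
      ((q : k) ^ (M + 1) * (q : k)⁻¹ - ((q : k) ^ (M + 1))⁻¹ * q) / (q - (q : k)⁻¹) := by
    rw [eq_div_iff hq]
    push_cast
    have h3 : (q : k) ^ M ≠ 0 := pow_ne_zero M h0
    have h4 : (q : k) ^ (M + 1) * (q : k)⁻¹ - ((q : k) ^ (M + 1))⁻¹ * q =
        (q : k) ^ M - ((q : k) ^ M)⁻¹ := by
      rw [pow_succ]
      field_simp
    rw [h4]
    have h5 : (q : k)⁻¹ * ((q : k) ^ 4 / (q : k) ^ (M + 1 + 1)) = (q : k) / (q : k) ^ M := by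
      rw [pow_succ (q : k) (M + 1), pow_succ (q : k) M]
      field_simp
    rw [← mul_assoc, h5, div_mul_eq_mul_div, div_mul_eq_mul_div, div_eq_iff h3]
    linear_combination hge
  rw [pow_succ]
  linear_combination ((q : k)⁻¹) ^ nvG (.arc a b :: S) *
    (gcx k q (M + 1 + 1) (.arc a b :: S)).τ * h2

end Pool.Agent.Lib.MP_31c440_gt.HV
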