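import Pool.Agent.Lib.MP_31c440_gt.HV.K7_Monic
import Pool.Agent.Lib.MP_31c440_gt.HV.Graph

/-!
Elimination of a variable with a linear row.
-/

noncomputable section

namespace Pool.Agent.Lib.MP_31c440_gt.HV

open MvPolynomial

variable {k : Type} [Field k] {q c : kˣ} {u v : k}

/-- Substitution of `w` for the variable `x`. -/
def sub1 (x : ℕ) (w : A k) : A k →ₐ[k] A k := aeval fun v => if v = x then w else MvPolynomial.X v

theorem sub1_X_self (x : ℕ) (w : A k) : sub1 x w (MvPolynomial.X x) = w := by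
  simp [sub1]

theorem sub1_X_ne (x : ℕ) (w : A k) {v : ℕ} (hv : v ≠ x) :
    sub1 x w (MvPolynomial.X v) = MvPolynomial.X v := by
  simp [sub1, hv]

theorem sub1_scl (x : ℕ) (w : A k) (hw : Hom q 1 w) (p : A k) :
    scl k q (sub1 x w p) = sub1 x w (scl k q p) := by
  have h : (scl k q).comp (sub1 x w) = (sub1 x w).comp (scl k q) := by
    ext v
    simp only [AlgHom.comp_apply, GR.scl_X, map_mul, algHom_C]
    by_cases hv : v = x
    · subst hv
      rw [sub1_X_self, hw, MvPolynomial.smul_eq_C_mul]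
      rfl
    · rw [sub1_X_ne x w hv, GR.scl_X]
      rfl
  exact DFunLike.congr_fun h p

/-- Substitution in a row. -/
def Row.sub1 (x : ℕ) (w : A k) (hw : Hom q 1 w) (r : Row k q c) : Row k q c where
  a := HV.sub1 x w r.a
  b := HV.sub1 x w r.b
  s := r.s
  ha := by rw [sub1_scl x w hw, ← map_smul, r.ha, map_smul]
  hb := by rw [sub1_scl x w hw, r.hb, map_smul]

theorem Row.eq_of {r r' : Row k q c} (ha : r.a = r'.a) (hb : r.b = r'.b) (hs : r.s = r'.s) :
    r = r' := by
  cases r
  cases r'
  cases ha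
  cases hb
  cases hs
  rfl

theorem eval_poly_f (R : GR k q) (x : ℕ) (w p : A k) :
    ((R.poly x).f p).eval (R.f w) = R.f (sub1 x w p) := by
  have h : ((Polynomial.aeval (R.f w)).restrictScalars k).comp (R.poly x).f =
      R.f.comp (sub1 x w) := by
    ext v
    by_cases hv : v = x
    · subst hv
      simp [sub1]
    · simp [sub1, hv]
  have h2 := DFunLike.congr_fun h p
  simpa [Polynomial.coe_aeval_eq_eval] using h2

/-- Rows only matter through their images in the ring. -/
theorem rows_ring_congr (R : GR k q) (S S' : List (Row k q c))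
    (h : List.Forall₂ (fun r r' => r.s = r'.s ∧ R.f r.a = R.f r'.a ∧ R.f r.b = R.f r'.b) S S') :
    HIso 1 ((R.cx c).rows S) ((R.cx c).rows S') := by
  have hi : ∀ p p' : A k, R.f p = R.f p' → (CIso.refl (R.cx c)).Int p p' := by
    intro p p' hp x
    have h1 := cx_smul (c := c) R p x
    have h2 := cx_smul (c := c) R p' x
    change p • x = p' • x
    rw [hp] at h1
    exact h1.trans h2.symm
  obtain ⟨g, -⟩ := rows_congr (CIso.refl (R.cx c)) S S' (h.imp fun r r' hr =>
    ⟨hr.1, hi _ _ hr.2.1, hi _ _ hr.2.2⟩)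
  exact g.hIso

/-- A row whose b-entry is `u (x - w)` is used to eliminate the variable `x`. -/
theorem elim_subst (R : GR k q) (x : ℕ) (w : A k) (hw : Hom q 1 w)
    (hx : (R.poly x).f w = Polynomial.C (R.f w)) (r : Row k q c) (S : List (Row k q c))
    (m : k) (hm : m ≠ 0)
    (hb : (R.poly x).f r.b = m • (Polynomial.X - Polynomial.C (R.f w)))
    (hc : (R.poly x).f (curv (r :: S)) = 0) :
    HIso 1 (((R.poly x).cx c).rows (r :: S)) ((R.cx c).rows (S.map (Row.sub1 x w hw))) := by
  have hspan : Ideal.span {(R.poly x).f r.b} =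
      Ideal.span {(Polynomial.X - Polynomial.C (R.f w) : Polynomial R.R)} := by
    rw [hb]
    have h1 : (m • (Polynomial.X - Polynomial.C (R.f w)) : Polynomial R.R) =
        algebraMap k (Polynomial R.R) m * (Polynomial.X - Polynomial.C (R.f w)) :=
      Algebra.smul_def _ _
    rw [h1]
    exact Ideal.span_singleton_mul_left_unit
      ((IsUnit.mk0 m hm).map (algebraMap k (Polynomial R.R))) _
  have hrow : ∃ m : k, scl k q r.b = m • r.b := ⟨_, r.hb⟩
  have hI : (⊥ : Ideal (Polynomial R.R)) ⊔ Ideal.span {(R.poly x).f r.b} =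
      (⊥ : Ideal R.R).map Polynomial.C ⊔
        Ideal.span {(Polynomial.X - Polynomial.C (R.f w) : Polynomial R.R)} := by
    rw [hspan, Ideal.map_bot]
  have hJ : Stab (R.poly x) (⊥ ⊔ Ideal.span {(R.poly x).f r.b}) :=
    (Stab.bot (R.poly x)).sup (Stab.span_f r.b hrow)
  have hJ' : Stab (R.poly x) ((⊥ : Ideal R.R).map Polynomial.C ⊔
        Ideal.span {(Polynomial.X - Polynomial.C (R.f w) : Polynomial R.R)}) := hI ▸ hJ
  -- pass to the quotient by the zero ideal
  obtain ⟨g₀, hg₀⟩ := quot_bot (c := c) (R.poly x)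
  obtain ⟨g₁, -⟩ := rows_congr g₀ (r :: S) (r :: S)
    (List.forall₂_same.2 fun r _ => ⟨rfl, hg₀ _ _ rfl, hg₀ _ _ rfl⟩)
  have h1 : HIso 1 (((R.poly x).cx c).rows (r :: S))
      ((((R.poly x).quot ⊥ (Stab.bot (R.poly x))).cx c).rows (r :: S)) := by
    simpa using g₁.hIso.symm one_ne_zero
  -- eliminate the row
  have h2 := elimB_quot (R.poly x) ⊥ (Stab.bot (R.poly x)) r S hJ
    (by rw [hc]; exact Ideal.zero_mem _) (by
      intro y hy
      rw [Ideal.mem_bot] at *
      rw [hb, smul_mul_assoc] at hy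
      have h3 := congrArg (fun z => m⁻¹ • z) hy
      simp only [smul_smul, inv_mul_cancel₀ hm, one_smul, smul_zero] at h3
      have h4 := (Polynomial.monic_X_sub_C (R.f w)).isRegular.left
      exact h4 (h3.trans (mul_zero _).symm))
  -- substitution
  obtain ⟨g₂, hg₂⟩ := quot_congr (c := c) (R.poly x) _ _ hJ hJ' hI
  have hr : R.σ (R.f w) = ((q : k) ^ 2) • R.f w := by
    rw [R.hσ, hw, map_smul]
  obtain ⟨g₃, hg₃⟩ := linear_subst (c := c) R x ⊥ (Stab.bot R) (R.f w) hr hJ'
  obtain ⟨g₄, hg₄⟩ := quot_bot (c := c) R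
  have hint : ∀ p : A k, ((g₂.trans g₃).trans g₄).Int p (sub1 x w p) := by
    intro p
    refine CIso.trans_int (CIso.trans_int (hg₂ p p ?_) (hg₃ p (sub1 x w p) ?_)) (hg₄ _ _ rfl)
    · rw [sub_self]
      exact Ideal.zero_mem _
    · rw [eval_poly_f, sub_self]
      exact Ideal.zero_mem _
  obtain ⟨g₅, -⟩ := rows_congr ((g₂.trans g₃).trans g₄) S (S.map (Row.sub1 x w hw)) (by
    rw [List.forall₂_map_right_iff]
    exact List.forall₂_same.2 fun r _ => ⟨rfl, hint _, hint _⟩)
  have h5 := (h1.trans h2).trans g₅.hIso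
  simpa using h5

theorem sub1_map_var (x : ℕ) (w : A k) {v : ℕ} (hv : v ≠ x) :
    (sub1 x w : A k →+* A k) (MvPolynomial.X v) = MvPolynomial.X v :=
  sub1_X_ne x w hv

theorem rows_sub1 (n x : ℕ) (w : A k) (hw : Hom q 1 w) (g : GNode)
    (hx : x ∉ g.ins) (hx' : x ∉ g.outs) :
    (g.rows k q n).map (Row.sub1 x w hw) = g.rows k q n := by
  cases g with
  | arc i o =>
    simp only [GNode.ins, GNode.outs, List.mem_cons, List.not_mem_nil, or_false] at hx hx'
    have hi : i ≠ x := fun h => hx h.symm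
    have ho : o ≠ x := fun h => hx' h.symm
    simp only [GNode.rows, List.map_cons, List.map_nil, List.cons.injEq, and_true]
    refine Row.eq_of ?_ ?_ rfl
    · change (sub1 x w : A k →+* A k) (aA _ _ _) = _
      rw [map_aA, sub1_map_var x w hi, sub1_map_var x w ho]
      rfl
    · change (sub1 x w : A k →+* A k) (_ - _) = _
      rw [map_sub, sub1_map_var x w hi, sub1_map_var x w ho]
      rfl
  | vert a b c d =>
    simp only [GNode.ins, GNode.outs, List.mem_cons, List.not_mem_nil, or_false, not_or] at hx hx'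
    have ha : a ≠ x := fun h => hx.1 h.symm
    have hb : b ≠ x := fun h => hx.2 h.symm
    have hc : c ≠ x := fun h => hx'.1 h.symm
    have hd : d ≠ x := fun h => hx'.2 h.symm
    simp only [GNode.rows, List.map_cons, List.map_nil, List.cons.injEq, and_true]
    refine ⟨Row.eq_of ?_ ?_ rfl, Row.eq_of ?_ ?_ rfl⟩
    · change (sub1 x w : A k →+* A k) (dE _ _ _ _) = _
      rw [map_dE, map_add, map_add, map_mul, sub1_map_var x w ha, sub1_map_var x w hb,
        sub1_map_var x w hc, sub1_map_var x w hd]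
      rfl
    · change (sub1 x w : A k →+* A k) ((_ + _) - (_ + _)) = _
      rw [map_sub, map_add, map_add, sub1_map_var x w ha, sub1_map_var x w hb,
        sub1_map_var x w hc, sub1_map_var x w hd]
      rfl
    · change (sub1 x w : A k →+* A k) (dP _ _ _ _) = _
      rw [map_dP, map_add, map_mul, map_mul, sub1_map_var x w ha, sub1_map_var x w hb,
        sub1_map_var x w hc, sub1_map_var x w hd]
      rfl
    · change (sub1 x w : A k →+* A k) (_ * _ - _ * _) = _
      rw [map_sub, map_mul, map_mul, sub1_map_var x w ha, sub1_map_var x w hb,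
        sub1_map_var x w hc, sub1_map_var x w hd]
      rfl

theorem rowsG_sub1 (n x : ℕ) (w : A k) (hw : Hom q 1 w) (G : List GNode)
    (hx : x ∉ insG G) (hx' : x ∉ outsG G) :
    (rowsG k q n G).map (Row.sub1 x w hw) = rowsG k q n G := by
  induction G with
  | nil => rfl
  | cons g G ih =>
    simp only [insG, outsG, List.flatMap_cons, List.mem_append, not_or] at hx hx'
    simp only [rowsG, List.flatMap_cons, List.map_append]
    rw [rows_sub1 n x w hw g hx.1 hx'.1]
    congr 1
    exact ih hx.2 hx'.2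

end Pool.Agent.Lib.MP_31c440_gt.HV
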