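import Pool.Agent.Lib.MP_31c440_gt.HV.K4_Prod
import Pool.Agent.Lib.MP_31c440_gt.HV.K7b_Subst
import Pool.Agent.Lib.MP_31c440_gt.HV.K8_Fin
import Pool.Agent.Lib.MP_31c440_gt.HV.K9_Node

/-!
Module K12: a digon (two vertices one after the other) in an abstract graph.
-/

noncomputable section

namespace Pool.Agent.Lib.MP_31c440_gt.HV

open MvPolynomial

variable {k : Type} [Field k] {q c : kˣ} {u v : k}

namespace K12

/-- The monic quadratic polynomial with the roots `α` and `β`. -/
def quad {R : Type} [CommRing R] (α β : R) : Polynomial R :=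
  (Polynomial.X - Polynomial.C α) * (Polynomial.X - Polynomial.C β)

theorem quad_monic {R : Type} [CommRing R] (α β : R) : (quad α β).Monic :=
  (Polynomial.monic_X_sub_C α).mul (Polynomial.monic_X_sub_C β)

theorem quad_natDegree {R : Type} [CommRing R] [Nontrivial R] (α β : R) :
    (quad α β).natDegree = 2 := by
  rw [quad, (Polynomial.monic_X_sub_C α).natDegree_mul (Polynomial.monic_X_sub_C β),
    Polynomial.natDegree_X_sub_C, Polynomial.natDegree_X_sub_C]

theorem lin_σ (R : GR k q) (y : ℕ) (α : R.R) (hα : R.σ α = ((q : k) ^ 2) • α) :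
    (R.poly y).σ (Polynomial.X - Polynomial.C α) =
      ((q : k) ^ 2) • (Polynomial.X - Polynomial.C α) := by
  change R.polyσ _ = _
  rw [map_sub, GR.polyσ_X, GR.polyσ_C, hα, smul_sub, Polynomial.smul_C]

theorem quad_σ (R : GR k q) (y : ℕ) (α β : R.R) (hα : R.σ α = ((q : k) ^ 2) • α)
    (hβ : R.σ β = ((q : k) ^ 2) • β) :
    (R.poly y).σ (quad α β) = ((q : k) ^ (2 * 2)) • quad α β := by
  rw [quad, map_mul, lin_σ R y α hα, lin_σ R y β hβ, smul_mul_smul_comm, ← pow_add]

/-- Elimination of a variable by a row whose b-entry is minus a quadratic polynomial. -/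
theorem quad_elim (R : GR k q) [IsDomain R.R] (y : ℕ) (α β : R.R)
    (hα : R.σ α = ((q : k) ^ 2) • α) (hβ : R.σ β = ((q : k) ^ 2) • β)
    (r : Row k q c) (T T' : List (Row k q c))
    (hb : (R.poly y).f r.b = -quad α β) (hc : (R.poly y).f (curv (r :: T)) = 0)
    (hT : List.Forall₂ (fun t t' => t.s = t'.s ∧
      (R.poly y).f t.a - Polynomial.C (R.f t'.a) ∈ Ideal.span {quad α β} ∧
      (R.poly y).f t.b - Polynomial.C (R.f t'.b) ∈ Ideal.span {quad α β}) T T')
    (hF : (((R.poly y).cx c).rows (r :: T)).FD) :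
    (((R.poly y).cx c).rows (r :: T)).τ = (1 + (q : k) ^ 2) * ((R.cx c).rows T').τ := by
  have hrow : ∃ m : k, scl k q r.b = m • r.b := ⟨_, r.hb⟩
  -- the quotient by the zero ideal
  obtain ⟨g₁, h₁⟩ := quot_bot (c := c) (R.poly y)
  obtain ⟨G₁, -⟩ := rows_congr g₁ (r :: T) (r :: T)
    (List.forall₂_same.2 fun r _ => ⟨rfl, h₁ _ _ rfl, h₁ _ _ rfl⟩)
  have e₁ := G₁.hIso
  -- elimination
  have hJ : Stab (R.poly y) (⊥ ⊔ Ideal.span {(R.poly y).f r.b}) :=
    (Stab.bot (R.poly y)).sup (Stab.span_f r.b hrow)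
  have e₂ := elimB_quot (R.poly y) ⊥ (Stab.bot (R.poly y)) r T hJ
    (by rw [hc]; exact Ideal.zero_mem _) (by
      intro z hz
      rw [Ideal.mem_bot] at hz ⊢
      rw [hb, neg_mul, neg_eq_zero] at hz
      exact (mul_eq_zero.1 hz).resolve_left (quad_monic α β).ne_zero)
  -- the same ideal
  have hI : (⊥ : Ideal (Polynomial R.R)) ⊔ Ideal.span {(R.poly y).f r.b} =
      (⊥ : Ideal R.R).map Polynomial.C ⊔ Ideal.span {quad α β} := by
    rw [hb, Ideal.map_bot, Ideal.span_singleton_neg]
  have hJ' : Stab (R.poly y) ((⊥ : Ideal R.R).map Polynomial.C ⊔ Ideal.span {quad α β}) :=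
    hI ▸ hJ
  obtain ⟨g₃, h₃⟩ := quot_congr (c := c) (R.poly y) _ _ hJ hJ' hI
  -- the free module
  have hd : (quad α β).natDegree = 2 := quad_natDegree α β
  obtain ⟨g₄, h₄⟩ := monic_pow (c := c) R y ⊥ (Stab.bot R) (quad α β) (quad_monic α β)
    (by rw [hd]; exact quad_σ R y α β hα hβ) hJ'
  have hint : ∀ p p' : A k, (R.poly y).f p - Polynomial.C (R.f p') ∈ Ideal.span {quad α β} →
      (g₃.trans g₄).Int p p' := by
    intro p p' hp
    refine CIso.trans_int (h₃ p p ?_) (h₄ p p' (Ideal.mem_sup_right hp))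
    rw [sub_self]
    exact Ideal.zero_mem _
  obtain ⟨G₄, -⟩ := rows_congr (g₃.trans g₄) T T'
    (hT.imp fun t t' ht => ⟨ht.1, hint _ _ ht.2.1, hint _ _ ht.2.2⟩)
  have e₄ := G₄.hIso
  -- the quotient by the zero ideal in the coefficients
  obtain ⟨g₅, h₅⟩ := quot_bot (c := c) R
  obtain ⟨G₅, -⟩ := rows_congr g₅ T' T'
    (List.forall₂_same.2 fun r _ => ⟨rfl, h₅ _ _ rfl, h₅ _ _ rfl⟩)
  have e₅ := G₅.hIso
  have hF2 := e₄.fin.1 (e₂.fin.1 (e₁.fin.2 hF))
  have t₁ := e₁.tau
  have t₂ := e₂.tau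
  have t₄ := e₄.tau
  have t₅ := e₅.tau
  have hsum : (∑ j : _root_.Fin (quad α β).natDegree, (q : k) ^ (2 * (j : ℕ))) =
      1 + (q : k) ^ 2 := by
    rw [hd]
    simp [Fin.sum_univ_two]
  rw [tau_rows_pow _ _ _ hF2, t₅, hsum] at t₄
  rw [one_mul] at t₁ t₂
  rw [← t₁, t₂, t₄]
  ring

end K12

theorem FG_digon [CharZero k] (n a b x y c d : ℕ) (S : List GNode) (hn : 2 ≤ n)
    (hl : [a, b, x, y, c, d].Nodup) (h : Closed (.vert a b x y :: .vert x y c d :: S)) :
    FG k q n (.vert a b x y :: .vert x y c d :: S) =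
      ((q : k) + (q : k)⁻¹) * FG k q n (.vert a b c d :: S) := by
  have h0 : (q : k) ≠ 0 := q.ne_zero
  -- the labels
  have hin : (a :: b :: x :: y :: insG S).Nodup := h.1
  have hout : (x :: y :: c :: d :: outsG S).Nodup := h.2.nodup_iff.1 h.1
  have hlab : a ≠ x ∧ a ≠ y ∧ b ≠ x ∧ b ≠ y ∧ x ≠ y ∧ x ≠ c ∧ x ≠ d ∧ y ≠ c ∧ y ≠ d := by
    simp only [List.nodup_cons, List.mem_cons, List.not_mem_nil, or_false, not_or] at hl
    tauto
  obtain ⟨hax, hay, hbx, hby, hxy, hxc, hxd, hyc, hyd⟩ := hlab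
  have hS : x ∉ insG S ∧ y ∉ insG S ∧ x ∉ outsG S ∧ y ∉ outsG S := by
    simp only [List.nodup_cons, List.mem_cons, not_or] at hin hout
    tauto
  obtain ⟨hxi, hyi, hxo, hyo⟩ := hS
  -- change of the order of the variables
  have hp : (a :: b :: x :: y :: insG S).Perm (x :: y :: a :: b :: insG S) := by
    have h1 : ([a, b] ++ [x, y] ++ insG S).Perm ([x, y] ++ [a, b] ++ insG S) :=
      List.Perm.append_right _ List.perm_append_comm
    exact h1
  obtain ⟨e, he, hef⟩ := base_perm (k := k) (q := q) hp hin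
  obtain ⟨g₁, hg₁⟩ := cx_iso (c := q ^ n) _ _ e he
  obtain ⟨G₁, -⟩ := rows_congr g₁ (rowsG k q n (.vert a b x y :: .vert x y c d :: S))
    (rowsG k q n (.vert a b x y :: .vert x y c d :: S))
    (List.forall₂_same.2 fun r _ => ⟨rfl, hg₁ _ _ (hef _), hg₁ _ _ (hef _)⟩)
  have e₁ := G₁.hIso
  -- elimination of `x`
  set R₀ := GR.base k q (a :: b :: insG S) with hR₀
  have hdom : IsDomain R₀.R := base_domain _
  let w : A k := X a + X b - X y
  have hw : Hom q 1 w := ((Hom.var a).add (Hom.var b)).sub (Hom.var y)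
  have hYy : (R₀.poly y).f (X y) = Polynomial.X := by
    change aeval _ _ = _
    rw [aeval_X, if_pos rfl]
  have hY : ∀ v, v ≠ y → (R₀.poly y).f (X v) = Polynomial.C (R₀.f (X v)) := by
    intro v hv
    change aeval _ _ = _
    rw [aeval_X, if_neg hv]
  have hXv : ∀ v, v ≠ x → ((R₀.poly y).poly x).f (X v) = Polynomial.C ((R₀.poly y).f (X v)) := by
    intro v hv
    change aeval _ _ = _
    rw [aeval_X, if_neg hv]
  have hXx : ((R₀.poly y).poly x).f (X x) = Polynomial.X := by
    change aeval _ _ = _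
    rw [aeval_X, if_pos rfl]
  have hcurv : curv (vRow1 k q n a b x y :: (vRow2 k q n a b x y ::
      rowsG k q n (.vert x y c d :: S))) = 0 :=
    curv_closed n (.vert a b x y :: .vert x y c d :: S) h
  have e₂ : HIso 1 ((((R₀.poly y).poly x).cx (q ^ n)).rows
      (vRow1 k q n a b x y :: (vRow2 k q n a b x y :: rowsG k q n (.vert x y c d :: S))))
      (((R₀.poly y).cx (q ^ n)).rows ((vRow2 k q n a b x y ::
        rowsG k q n (.vert x y c d :: S)).map (Row.sub1 x w hw))) := by
    refine elim_subst (R₀.poly y) x w hw ?_ _ _ 1 one_ne_zero ?_ ?_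
    · simp only [w, map_sub, map_add, hXv a hax, hXv b hbx, hXv y (Ne.symm hxy)]
    · change ((R₀.poly y).poly x).f ((X x + X y) - (X a + X b)) = _
      simp only [w, map_sub, map_add, hXx, hXv a hax, hXv b hbx, hXv y (Ne.symm hxy), one_smul]
      ring
    · rw [hcurv, map_zero]
  -- the rows after the substitution
  have sX : ∀ v, v ≠ x → sub1 x w (X v) = (X v : A k) := fun v hv => sub1_X_ne x w hv
  have sx : sub1 x w (X x) = w := sub1_X_self x w
  have hr1 : Row.sub1 x w hw (vRow1 k q n x y c d) = vRow1 k q n a b c d := by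
    refine Row.eq_of ?_ ?_ rfl
    · change (sub1 x w : A k →+* A k) (dE _ _ _ _) = dE _ _ _ _
      rw [map_dE]
      congr 1
      · change sub1 x w (X c + X d) = _
        rw [map_add, sX c (Ne.symm hxc), sX d (Ne.symm hxd)]
      · change sub1 x w (X x + X y) = _
        rw [map_add, sx, sX y (Ne.symm hxy)]
        simp only [w]
        ring
      · change sub1 x w (X c * X d) = _
        rw [map_mul, sX c (Ne.symm hxc), sX d (Ne.symm hxd)]
    · change sub1 x w ((X c + X d) - (X x + X y)) = (X c + X d) - (X a + X b)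
      rw [map_sub, map_add, map_add, sx, sX c (Ne.symm hxc), sX d (Ne.symm hxd),
        sX y (Ne.symm hxy)]
      simp only [w]
      ring
  -- congruences modulo the quadratic polynomial
  let I : Ideal (Polynomial R₀.R) := Ideal.span {K12.quad (R₀.f (X a)) (R₀.f (X b))}
  let φ₁ : A k →+* Polynomial R₀.R ⧸ I :=
    (Ideal.Quotient.mk I).comp ((R₀.poly y).f : A k →+* Polynomial R₀.R)
  let φ₂ : A k →+* Polynomial R₀.R ⧸ I :=
    (Ideal.Quotient.mk I).comp ((Polynomial.C : R₀.R →+* Polynomial R₀.R).comp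
      (R₀.f : A k →+* R₀.R))
  have hφ : ∀ p p' : A k, φ₁ p = φ₂ p' →
      (R₀.poly y).f p - Polynomial.C (R₀.f p') ∈ I := by
    intro p p' hh
    exact Ideal.Quotient.eq.1 hh
  have hφv : ∀ v, v ≠ y → φ₁ (X v) = φ₂ (X v) := by
    intro v hv
    change Ideal.Quotient.mk I ((R₀.poly y).f (X v)) = _
    rw [hY v hv]
    rfl
  have hφw : φ₁ (w * X y) = φ₂ (X a * X b) := by
    change Ideal.Quotient.mk I ((R₀.poly y).f (w * X y)) =
      Ideal.Quotient.mk I (Polynomial.C (R₀.f (X a * X b)))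
    rw [Ideal.Quotient.eq]
    have h1 : (R₀.poly y).f (w * X y) - Polynomial.C (R₀.f (X a * X b)) =
        -K12.quad (R₀.f (X a)) (R₀.f (X b)) := by
      simp only [w, map_mul, map_sub, map_add, hY a hay, hY b hby, hYy, K12.quad]
      ring
    rw [h1]
    exact I.neg_mem (Ideal.mem_span_singleton_self _)
  have hφe : φ₁ (w + X y) = φ₂ (X a + X b) := by
    have h1 : w + X y = X a + X b := by
      simp only [w]
      ring
    rw [h1, map_add, map_add, hφv a hay, hφv b hby]
  have hT : List.Forall₂ (fun t t' : Row k q (q ^ n) => t.s = t'.s ∧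
      (R₀.poly y).f t.a - Polynomial.C (R₀.f t'.a) ∈ I ∧
      (R₀.poly y).f t.b - Polynomial.C (R₀.f t'.b) ∈ I)
      ((rowsG k q n (.vert x y c d :: S)).map (Row.sub1 x w hw))
      (rowsG k q n (.vert a b c d :: S)) := by
    change List.Forall₂ _ (Row.sub1 x w hw (vRow1 k q n x y c d) ::
      Row.sub1 x w hw (vRow2 k q n x y c d) :: (rowsG k q n S).map (Row.sub1 x w hw))
      (vRow1 k q n a b c d :: vRow2 k q n a b c d :: rowsG k q n S)
    rw [hr1, rowsG_sub1 n x w hw S hxi hxo]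
    refine List.Forall₂.cons ⟨rfl, hφ _ _ ?_, hφ _ _ ?_⟩
      (List.Forall₂.cons ⟨rfl, hφ _ _ ?_, hφ _ _ ?_⟩ ?_)
    · change φ₁ (dE (X c + X d) (X a + X b) (X c * X d) n) =
        φ₂ (dE (X c + X d) (X a + X b) (X c * X d) n)
      simp only [map_dE, map_add, map_mul, hφv a hay, hφv b hby, hφv c (Ne.symm hyc),
        hφv d (Ne.symm hyd)]
    · change φ₁ ((X c + X d) - (X a + X b)) = φ₂ ((X c + X d) - (X a + X b))
      simp only [map_sub, map_add, hφv a hay, hφv b hby, hφv c (Ne.symm hyc),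
        hφv d (Ne.symm hyd)]
    · change φ₁ ((sub1 x w : A k →+* A k) (dP (X x + X y) (X c * X d) (X x * X y) n)) =
        φ₂ (dP (X a + X b) (X c * X d) (X a * X b) n)
      have h1 : (sub1 x w : A k →+* A k) (X x + X y) = w + X y := by
        change sub1 x w (X x + X y) = _
        rw [map_add, sx, sX y (Ne.symm hxy)]
      have h2 : (sub1 x w : A k →+* A k) (X c * X d) = X c * X d := by
        change sub1 x w (X c * X d) = _
        rw [map_mul, sX c (Ne.symm hxc), sX d (Ne.symm hxd)]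
      have h3 : (sub1 x w : A k →+* A k) (X x * X y) = w * X y := by
        change sub1 x w (X x * X y) = _
        rw [map_mul, sx, sX y (Ne.symm hxy)]
      have h4 : φ₁ (X c * X d) = φ₂ (X c * X d) := by
        rw [map_mul, map_mul, hφv c (Ne.symm hyc), hφv d (Ne.symm hyd)]
      rw [map_dP, map_dP, map_dP, h1, h2, h3, hφe, hφw, h4]
    · change φ₁ (sub1 x w (X c * X d - X x * X y)) = φ₂ (X c * X d - X a * X b)
      have h1 : sub1 x w (X c * X d - X x * X y) = X c * X d - w * X y := by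
        rw [map_sub, map_mul, map_mul, sx, sX c (Ne.symm hxc), sX d (Ne.symm hxd),
          sX y (Ne.symm hxy)]
      have h4 : φ₁ (X c * X d) = φ₂ (X c * X d) := by
        rw [map_mul, map_mul, hφv c (Ne.symm hyc), hφv d (Ne.symm hyd)]
      rw [h1, map_sub, map_sub, hφw, h4]
    · have hm : S.map (GNode.map id) = S := by
        have h1 : ∀ g : GNode, GNode.map id g = g := by
          intro g
          cases g <;> rfl
        rw [List.map_congr_left (g := id) (fun g _ => h1 g), List.map_id]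
      have h1 := rowsG_alg (q := q) n ((Ideal.Quotient.mkₐ k I).comp (R₀.poly y).f)
        ((Ideal.Quotient.mkₐ k I).comp ((Polynomial.CAlgHom (R := k) (A := R₀.R)).comp R₀.f))
        S id (fun v hv => by
          have hvy : v ≠ y := by
            rintro rfl
            rcases hv with hv | hv
            · exact hyi hv
            · exact hyo hv
          exact hφv v hvy)
      rw [hm] at h1
      exact h1.imp fun t t' ht => ⟨ht.1, hφ _ _ ht.2.1, hφ _ _ ht.2.2⟩
  -- elimination of `y`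
  have hF : ((((R₀.poly y).cx (q ^ n)).rows ((vRow2 k q n a b x y ::
        rowsG k q n (.vert x y c d :: S)).map (Row.sub1 x w hw)))).FD :=
    e₂.fin.1 (e₁.fin.1 (gcx_fin n (by omega) _ h))
  have hcurv2 : (R₀.poly y).f (curv ((vRow2 k q n a b x y ::
        rowsG k q n (.vert x y c d :: S)).map (Row.sub1 x w hw))) = 0 := by
    have h1 : curv ((vRow1 k q n a b x y :: (vRow2 k q n a b x y ::
        rowsG k q n (.vert x y c d :: S))).map (Row.sub1 x w hw)) =
        sub1 x w (curv (vRow1 k q n a b x y :: (vRow2 k q n a b x y ::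
        rowsG k q n (.vert x y c d :: S)))) := by
      rw [curv, curv, map_list_sum, List.map_map, List.map_map]
      congr 1
      apply List.map_congr_left
      intro t _
      exact (map_mul (sub1 x w) t.a t.b).symm
    rw [hcurv, map_zero, List.map_cons, curv, List.map_cons, List.sum_cons] at h1
    have h2 : (Row.sub1 x w hw (vRow1 k q n a b x y)).b = 0 := by
      change sub1 x w ((X x + X y) - (X a + X b)) = 0
      rw [map_sub, map_add, map_add, sx, sX a hax, sX b hbx, sX y (Ne.symm hxy)]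
      simp only [w]
      ring
    rw [h2, mul_zero, zero_add] at h1
    rw [curv, h1, map_zero]
  have hσ : ∀ v, R₀.σ (R₀.f (X v)) = ((q : k) ^ 2) • R₀.f (X v) := by
    intro v
    rw [R₀.hσ, GR.scl_X, ← MvPolynomial.smul_eq_C_mul, map_smul]
  have key := K12.quad_elim (c := q ^ n) R₀ y (R₀.f (X a)) (R₀.f (X b)) (hσ a) (hσ b)
    (Row.sub1 x w hw (vRow2 k q n a b x y))
    ((rowsG k q n (.vert x y c d :: S)).map (Row.sub1 x w hw))
    (rowsG k q n (.vert a b c d :: S))
    (by
      change (R₀.poly y).f (sub1 x w (X x * X y - X a * X b)) = _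
      rw [map_sub, map_mul, map_mul, sx, sX a hax, sX b hbx, sX y (Ne.symm hxy)]
      simp only [w, map_mul, map_sub, map_add, hY a hay, hY b hby, hYy, K12.quad]
      ring) hcurv2 hT hF
  have t₁ := e₁.tau
  have t₂ := e₂.tau
  rw [one_mul] at t₁ t₂
  have hg : (gcx k q n (.vert a b x y :: .vert x y c d :: S)).τ =
      (1 + (q : k) ^ 2) * (gcx k q n (.vert a b c d :: S)).τ :=
    (t₁.trans t₂).trans key
  have hnv : nvG (.vert a b x y :: .vert x y c d :: S) = nvG (.vert a b c d :: S) + 1 := by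
    simp [nvG, GNode.nv, add_comm]
  rw [FG, FG, hg, hnv, pow_succ]
  field_simp
  ring

end Pool.Agent.Lib.MP_31c440_gt.HV
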