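import Pool.Agent.Lib.MP_31c440_gt.HV.K6_Quot

/-!
Elimination for the fourth relation: the ring `R[x] / (I, α (x - b), B)`.
-/

noncomputable section

namespace Pool.Agent.Lib.MP_31c440_gt.HV

open MvPolynomial

variable {k : Type} [Field k] {q c : kˣ} {u v : k}

namespace K13b

open Polynomial in
/-- the expansion around `b` of the remainder modulo `g` -/
def T {R : Type} [CommRing R] (g : Polynomial R) (b : R) : Polynomial R →ₗ[R] Polynomial R :=
  (taylor b).comp (modByMonicHom g)

theorem T_apply {R : Type} [CommRing R] (g : Polynomial R) (b : R) (p : Polynomial R) :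
    T g b p = Polynomial.taylor b (p %ₘ g) := rfl

theorem T_map {R : Type} [CommRing R] (g : Polynomial R) (b : R) (I : Ideal R)
    (p : Polynomial R) (hp : p ∈ I.map Polynomial.C) (n : ℕ) : (T g b p).coeff n ∈ I := by
  rw [Ideal.mem_map_C_iff] at hp
  rw [p.as_sum_range_C_mul_X_pow, map_sum, Polynomial.finsetSum_coeff]
  refine Ideal.sum_mem _ fun i _ => ?_
  rw [← Polynomial.smul_eq_C_mul, map_smul, Polynomial.coeff_smul, smul_eq_mul]
  exact Ideal.mul_mem_right _ _ (hp i)

theorem T_coeff_of_le {R : Type} [CommRing R] [Nontrivial R] (g : Polynomial R) (hg : g.Monic)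
    (b : R) (p : Polynomial R) (n : ℕ) (hn : g.natDegree ≤ n) (h1 : 1 ≤ g.natDegree) :
    (T g b p).coeff n = 0 := by
  rw [T_apply]
  refine Polynomial.coeff_eq_zero_of_natDegree_lt ?_
  rw [Polynomial.natDegree_taylor]
  refine (Polynomial.natDegree_modByMonic_lt p hg ?_).trans_le hn
  rintro rfl
  simp at h1

/-- the coefficients of the expansion of a polynomial of small degree are arbitrary -/
theorem T_surj {R : Type} [CommRing R] [Nontrivial R] (g : Polynomial R) (hg : g.Monic) (b : R)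
    (t : ℕ → R) : ∃ p : Polynomial R, ∀ i < g.natDegree, (T g b p).coeff i = t i := by
  set Q : Polynomial R := ∑ i ∈ Finset.range g.natDegree, Polynomial.C (t i) * Polynomial.X ^ i
    with hQ
  have hdeg : Q.degree < g.degree := by
    rw [Polynomial.degree_eq_natDegree hg.ne_zero, Polynomial.degree_lt_iff_coeff_zero]
    intro m hm
    rw [hQ, Polynomial.finsetSum_coeff]
    refine Finset.sum_eq_zero fun i hi => ?_
    rw [Polynomial.coeff_C_mul_X_pow, if_neg]
    have := Finset.mem_range.1 hi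
    omega
  refine ⟨Polynomial.taylor (-b) Q, fun i hi => ?_⟩
  rw [T_apply, (Polynomial.modByMonic_eq_self_iff hg).2 (by rwa [Polynomial.degree_taylor]),
    Polynomial.taylor_taylor, add_neg_cancel, Polynomial.taylor_zero, hQ,
    Polynomial.finsetSum_coeff, Finset.sum_eq_single i]
  · rw [Polynomial.coeff_C_mul_X_pow, if_pos rfl]
  · intro j _ hj
    rw [Polynomial.coeff_C_mul_X_pow, if_neg (Ne.symm hj)]
  · intro h
    exact absurd (Finset.mem_range.2 hi) h

/-- the remainder modulo `g` -/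
theorem T_sum {R : Type} [CommRing R] (g : Polynomial R) (b : R) (p : Polynomial R) :
    p %ₘ g = ∑ i ∈ Finset.range ((T g b p).natDegree + 1),
      Polynomial.C ((T g b p).coeff i) * (Polynomial.X - Polynomial.C b) ^ i := by
  have h := Polynomial.sum_taylor_eq (p %ₘ g) b
  rw [← T_apply, Polynomial.sum_over_range _ (by simp)] at h
  exact h.symm

section

variable (R : GR k q)

theorem polyσ_coeff (p : Polynomial R.R) (n : ℕ) :
    (R.polyσ p).coeff n = ((q : k) ^ (2 * n)) • R.σ (p.coeff n) := by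
  induction p using Polynomial.induction_on' with
  | add p r hp hr => rw [map_add, Polynomial.coeff_add, hp, hr, Polynomial.coeff_add, map_add,
      smul_add]
  | monomial m a =>
    rw [← Polynomial.C_mul_X_pow_eq_monomial, map_mul, map_pow, GR.polyσ_C, GR.polyσ_X, smul_pow,
      mul_smul_comm, Polynomial.coeff_smul, Polynomial.coeff_C_mul_X_pow,
      Polynomial.coeff_C_mul_X_pow, ← pow_mul]
    by_cases h : n = m
    · subst h
      simp
    · simp [h]

theorem polyσ_taylor (b : R.R) (hb : R.σ b = ((q : k) ^ 2) • b) (p : Polynomial R.R) :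
    R.polyσ (Polynomial.taylor b p) = Polynomial.taylor b (R.polyσ p) := by
  induction p using Polynomial.induction_on' with
  | add p r hp hr => rw [map_add, map_add, hp, hr, map_add, map_add]
  | monomial m a =>
    rw [← Polynomial.C_mul_X_pow_eq_monomial, Polynomial.taylor_mul, Polynomial.taylor_pow,
      map_mul, map_mul, map_pow, map_pow, Polynomial.taylor_C, GR.polyσ_C, Polynomial.taylor_mul,
      Polynomial.taylor_pow, Polynomial.taylor_C, Polynomial.taylor_X, map_add, GR.polyσ_X,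
      GR.polyσ_C, hb]
    congr 2
    have h1 : ((q : k) ^ 2) • (Polynomial.X : Polynomial R.R) =
        Polynomial.C (algebraMap k R.R ((q : k) ^ 2)) * Polynomial.X := by
      rw [← Polynomial.smul_eq_C_mul, algebraMap_smul]
    rw [h1, Polynomial.taylor_mul, Polynomial.taylor_C, Polynomial.taylor_X, mul_add,
      Algebra.smul_def ((q : k) ^ 2) b, map_mul]

theorem natDegree_polyσ_le (p : Polynomial R.R) : (R.polyσ p).natDegree ≤ p.natDegree := by
  rw [Polynomial.natDegree_le_iff_coeff_eq_zero]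
  intro n hn
  rw [polyσ_coeff, Polynomial.coeff_eq_zero_of_natDegree_lt hn, map_zero, smul_zero]

theorem degree_polyσ_le (p : Polynomial R.R) : (R.polyσ p).degree ≤ p.degree := by
  rw [Polynomial.degree_le_iff_coeff_zero]
  intro n hn
  rw [polyσ_coeff, Polynomial.coeff_eq_zero_of_degree_lt hn, map_zero, smul_zero]

theorem polyσ_mod [Nontrivial R.R] (g : Polynomial R.R) (hg : g.Monic)
    (m : k) (hh : R.polyσ g = m • g) (p : Polynomial R.R) :
    R.polyσ (p %ₘ g) = (R.polyσ p) %ₘ g := by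
  have h := Polynomial.div_modByMonic_unique (f := R.polyσ p) (m • R.polyσ (p /ₘ g))
    (R.polyσ (p %ₘ g)) hg ⟨?_, ?_⟩
  · exact h.2.symm
  · have h1 := congrArg R.polyσ (Polynomial.modByMonic_add_div p g)
    rw [map_add, map_mul, hh] at h1
    rw [← h1, mul_smul_comm, smul_mul_assoc]
  · exact (degree_polyσ_le R _).trans_lt (Polynomial.degree_modByMonic_lt p hg)

theorem T_polyσ [Nontrivial R.R] (g : Polynomial R.R) (hg : g.Monic)
    (m : k) (hh : R.polyσ g = m • g) (b : R.R) (hb : R.σ b = ((q : k) ^ 2) • b)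
    (p : Polynomial R.R) (n : ℕ) :
    (T g b (R.polyσ p)).coeff n = ((q : k) ^ (2 * n)) • R.σ ((T g b p).coeff n) := by
  rw [T_apply, ← polyσ_mod R g hg m hh, ← polyσ_taylor R b hb, polyσ_coeff]
  rfl

end


section

variable (R : GR k q)

/-- the map to the pieces -/
def Phi (g : Polynomial R.R) (b : R.R) (I0 I1 : Ideal R.R) (D : ℕ) :
    Polynomial R.R →ₗ[k] (R.R ⧸ I0) × (Fin (D - 1) → R.R ⧸ I1) :=
  (((Submodule.mkQ I0).comp ((Polynomial.lcoeff R.R 0).comp (T g b))).prod
    (LinearMap.pi fun j : Fin (D - 1) =>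
      (Submodule.mkQ I1).comp ((Polynomial.lcoeff R.R ((j : ℕ) + 1)).comp (T g b)))).restrictScalars k

theorem Phi_fst (g : Polynomial R.R) (b : R.R) (I0 I1 : Ideal R.R) (D : ℕ) (p : Polynomial R.R) :
    (Phi R g b I0 I1 D p).1 = Ideal.Quotient.mk I0 ((T g b p).coeff 0) := rfl

theorem Phi_snd (g : Polynomial R.R) (b : R.R) (I0 I1 : Ideal R.R) (D : ℕ) (p : Polynomial R.R)
    (j : Fin (D - 1)) :
    (Phi R g b I0 I1 D p).2 j = Ideal.Quotient.mk I1 ((T g b p).coeff ((j : ℕ) + 1)) := rfl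

theorem Phi_eq_zero (g : Polynomial R.R) (b : R.R) (I0 I1 : Ideal R.R) (D : ℕ)
    (p : Polynomial R.R) : Phi R g b I0 I1 D p = 0 ↔
      (T g b p).coeff 0 ∈ I0 ∧ ∀ j < D - 1, (T g b p).coeff (j + 1) ∈ I1 := by
  rw [Prod.ext_iff, Phi_fst, funext_iff]
  refine and_congr Ideal.Quotient.eq_zero_iff_mem ⟨fun h j hj => ?_, fun h j => ?_⟩
  · have := h ⟨j, hj⟩
    rw [Phi_snd] at this
    exact Ideal.Quotient.eq_zero_iff_mem.1 this
  · rw [Phi_snd]
    exact Ideal.Quotient.eq_zero_iff_mem.2 (h j j.2)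

theorem Phi_C_mul (g : Polynomial R.R) (b : R.R) (I0 I1 : Ideal R.R) (D : ℕ) (a : R.R)
    (p : Polynomial R.R) : Phi R g b I0 I1 D (Polynomial.C a * p) =
      (Ideal.Quotient.mk I0 a * (Phi R g b I0 I1 D p).1,
        fun j => Ideal.Quotient.mk I1 a * (Phi R g b I0 I1 D p).2 j) := by
  rw [← Polynomial.smul_eq_C_mul]
  refine Prod.ext ?_ (funext fun j => ?_)
  · rw [Phi_fst, map_smul, Polynomial.coeff_smul, smul_eq_mul, map_mul]
    rfl
  · rw [Phi_snd, map_smul, Polynomial.coeff_smul, smul_eq_mul, map_mul]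
    rfl

end

section

variable {R : Type} [CommRing R] (I : Ideal R) (b α w : R) (B g : Polynomial R)

/-- the ideal in question -/
def JJ : Ideal (Polynomial R) := I.map Polynomial.C ⊔
  Ideal.span {Polynomial.C α * (Polynomial.X - Polynomial.C b)} ⊔ Ideal.span {B}

variable {I b α w B g}

theorem mapC_le : I.map Polynomial.C ≤ JJ I b α B := le_sup_left.trans le_sup_left

theorem lin_mem : Polynomial.C α * (Polynomial.X - Polynomial.C b) ∈ JJ I b α B :=
  (le_sup_right.trans le_sup_left : Ideal.span {Polynomial.C α *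
    (Polynomial.X - Polynomial.C b)} ≤ JJ I b α B) (Ideal.mem_span_singleton_self _)

theorem B_mem : B ∈ JJ I b α B :=
  (le_sup_right : Ideal.span {B} ≤ JJ I b α B) (Ideal.mem_span_singleton_self _)

theorem aw_mem (hw : B.eval b = -w) : Polynomial.C (α * w) ∈ JJ I b α B := by
  obtain ⟨h, hh⟩ := Polynomial.dvd_iff_isRoot.2 (show (B + Polynomial.C w).IsRoot b by
    rw [Polynomial.IsRoot.def, Polynomial.eval_add, hw, Polynomial.eval_C, neg_add_cancel])
  have h1 : Polynomial.C (α * w) = h * (Polynomial.C α * (Polynomial.X - Polynomial.C b)) -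
      Polynomial.C α * B := by
    rw [Polynomial.C_mul]
    linear_combination Polynomial.C α * hh
  rw [h1]
  exact Ideal.sub_mem _ (Ideal.mul_mem_left _ _ lin_mem) (Ideal.mul_mem_left _ _ B_mem)

/-- membership in terms of the expansion -/
theorem mem_JJ_of [Nontrivial R] (hg : g.Monic) (hgB : g ∣ B ∧ B ∣ g) (h1 : 1 ≤ g.natDegree)
    (hw : B.eval b = -w) (p : Polynomial R)
    (h0 : (T g b p).coeff 0 ∈ I ⊔ Ideal.span {α * w})
    (hj : ∀ j < g.natDegree - 1, (T g b p).coeff (j + 1) ∈ I ⊔ Ideal.span {α}) :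
    p ∈ JJ I b α B := by
  have hgJ : g ∈ JJ I b α B := by
    obtain ⟨s, hs⟩ := hgB.2
    rw [hs]
    exact Ideal.mul_mem_right _ _ B_mem
  have hr : p %ₘ g ∈ JJ I b α B := by
    rw [T_sum g b p]
    refine Ideal.sum_mem _ fun i _ => ?_
    rcases i with _ | i
    · rw [pow_zero, mul_one]
      obtain ⟨y, hy, z, hz, hyz⟩ := Submodule.mem_sup.1 h0
      obtain ⟨s, rfl⟩ := Ideal.mem_span_singleton'.1 hz
      rw [← hyz, Polynomial.C_add, Polynomial.C_mul]
      exact Ideal.add_mem _ (mapC_le (Ideal.mem_map_of_mem _ hy))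
        (Ideal.mul_mem_left _ _ (aw_mem hw))
    · by_cases hi : i < g.natDegree - 1
      · obtain ⟨y, hy, z, hz, hyz⟩ := Submodule.mem_sup.1 (hj i hi)
        obtain ⟨s, rfl⟩ := Ideal.mem_span_singleton'.1 hz
        rw [← hyz, Polynomial.C_add, Polynomial.C_mul, add_mul]
        refine Ideal.add_mem _ (Ideal.mul_mem_right _ _ (mapC_le (Ideal.mem_map_of_mem _ hy))) ?_
        have h2 : Polynomial.C s * Polynomial.C α * (Polynomial.X - Polynomial.C b) ^ (i + 1) =
            (Polynomial.C s * (Polynomial.X - Polynomial.C b) ^ i) *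
              (Polynomial.C α * (Polynomial.X - Polynomial.C b)) := by ring
        rw [h2]
        exact Ideal.mul_mem_left _ _ lin_mem
      · rw [T_coeff_of_le g hg b p (i + 1) (by omega) h1, Polynomial.C_0, zero_mul]
        exact Ideal.zero_mem _
  rw [← Polynomial.modByMonic_add_div p g]
  exact Ideal.add_mem _ hr (Ideal.mul_mem_right _ _ hgJ)

theorem of_mem_JJ (hg : g.Monic) (hgB : g ∣ B ∧ B ∣ g) (hw : B.eval b = -w)
    (p : Polynomial R) (hp : p ∈ JJ I b α B) :
    (T g b p).coeff 0 ∈ I ⊔ Ideal.span {α * w} ∧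
      ∀ j, (T g b p).coeff (j + 1) ∈ I ⊔ Ideal.span {α} := by
  obtain ⟨p₀, hp₀, p₂, hp₂, rfl⟩ := Submodule.mem_sup.1 hp
  obtain ⟨p₁, hp₁, p₃, hp₃, rfl⟩ := Submodule.mem_sup.1 hp₀
  obtain ⟨f, rfl⟩ := Ideal.mem_span_singleton'.1 hp₂
  obtain ⟨f', rfl⟩ := Ideal.mem_span_singleton'.1 hp₃
  have e1 : T g b (f * B) = 0 := by
    rw [T_apply, (Polynomial.modByMonic_eq_zero_iff_dvd hg).2 (hgB.1.mul_left f), map_zero]
  have e2 : T g b (f' * (Polynomial.C α * (Polynomial.X - Polynomial.C b))) =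
      α • T g b (f' * (Polynomial.X - Polynomial.C b)) := by
    rw [← map_smul, Polynomial.smul_eq_C_mul]
    congr 1
    ring
  rw [map_add, map_add, e1, e2, add_zero]
  refine ⟨?_, fun j => ?_⟩
  · rw [Polynomial.coeff_add, Polynomial.coeff_smul, smul_eq_mul]
    refine Ideal.add_mem _ (Ideal.mem_sup_left (T_map g b I p₁ hp₁ 0)) (Ideal.mem_sup_right ?_)
    have h1 := congrArg (Polynomial.eval b)
      (Polynomial.modByMonic_add_div (f' * (Polynomial.X - Polynomial.C b)) g)
    rw [T_apply, Polynomial.taylor_coeff_zero]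
    obtain ⟨s, hs⟩ := hgB.2
    rw [Polynomial.eval_add, Polynomial.eval_mul, Polynomial.eval_mul, Polynomial.eval_sub,
      Polynomial.eval_X, Polynomial.eval_C, sub_self, mul_zero, hs, Polynomial.eval_mul, hw,
      ← hs] at h1
    rw [Ideal.mem_span_singleton]
    refine ⟨Polynomial.eval b s * Polynomial.eval b
      (f' * (Polynomial.X - Polynomial.C b) /ₘ g), ?_⟩
    linear_combination α * h1
  · rw [Polynomial.coeff_add, Polynomial.coeff_smul, smul_eq_mul]
    exact Ideal.add_mem _ (Ideal.mem_sup_left (T_map g b I p₁ hp₁ _))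
      (Ideal.mem_sup_right (Ideal.mul_mem_right _ _ (Ideal.mem_span_singleton_self _)))

end

end K13b

/-- `R[x] / (I, α (x - b), B)` for a polynomial `B` of degree `D ≥ 1` with a unit as leading
coefficient and `B(b) = -w`: it is `R/(I, α w) ⊕ ⊕_{1 ≤ j < D} R/(I, α) (x - b)^j`. -/
theorem anti_iso (R : GR k q) (x : ℕ) (I : Ideal R.R) (b α w : R.R) (B : Polynomial R.R) (D : ℕ)
    (hD : B.natDegree = D) (hD1 : 1 ≤ D) (hB : IsUnit B.leadingCoeff) (hw : B.eval b = -w)
    (hb : R.σ b = ((q : k) ^ 2) • b) (hσB : (R.poly x).σ B = ((q : k) ^ (2 * D)) • B)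
    (hJ : Stab (R.poly x) (I.map Polynomial.C ⊔
      Ideal.span {Polynomial.C α * (Polynomial.X - Polynomial.C b)} ⊔ Ideal.span {B}))
    (h1 : Stab R (I ⊔ Ideal.span {α * w})) (h2 : Stab R (I ⊔ Ideal.span {α})) :
    ∃ e : CIso 1 (((R.poly x).quot (I.map Polynomial.C ⊔
          Ideal.span {Polynomial.C α * (Polynomial.X - Polynomial.C b)} ⊔ Ideal.span {B}) hJ).cx c)
        (((R.quot (I ⊔ Ideal.span {α * w}) h1).cx c).prod
          (((R.quot (I ⊔ Ideal.span {α}) h2).cx c).pow
            fun j : Fin (D - 1) => (q : k) ^ (2 * ((j : ℕ) + 1)))),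
      ∀ p p', (R.poly x).f p = Polynomial.C (R.f p') → e.Int p p' := by
  have hnt : Nontrivial R.R := by
    by_contra hn
    rw [not_nontrivial_iff_subsingleton] at hn
    rw [Subsingleton.elim B 0, Polynomial.natDegree_zero] at hD
    omega
  have hB0 : B ≠ 0 := by
    rintro rfl
    rw [Polynomial.natDegree_zero] at hD
    omega
  obtain ⟨u, hu⟩ := hB
  set g : Polynomial R.R := Polynomial.C ((u⁻¹ : R.Rˣ) : R.R) * B with hgdef
  have hg : g.Monic := by
    rw [Polynomial.Monic, hgdef, Polynomial.leadingCoeff_mul']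
    · rw [Polynomial.leadingCoeff_C, ← hu, Units.inv_mul]
    · rw [Polynomial.leadingCoeff_C, ← hu, Units.inv_mul]
      exact one_ne_zero
  have hgB : g ∣ B ∧ B ∣ g := by
    refine ⟨⟨Polynomial.C ((u : R.Rˣ) : R.R), ?_⟩, ⟨Polynomial.C ((u⁻¹ : R.Rˣ) : R.R), ?_⟩⟩
    · rw [hgdef, mul_right_comm, ← Polynomial.C_mul, Units.inv_mul, Polynomial.C_1, one_mul]
    · rw [hgdef, mul_comm]
  have hgD : g.natDegree = D := by
    rw [hgdef, Polynomial.natDegree_C_mul_of_isUnit (Units.isUnit _), hD]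
  -- the leading coefficient is fixed
  have hσu : R.σ (u : R.R) = u := by
    have e := congrArg (fun f => Polynomial.coeff f D) hσB
    change (R.polyσ B).coeff D = _ at e
    simp only [K13b.polyσ_coeff, Polynomial.coeff_smul] at e
    have e2 : B.coeff D = u := by rw [hu, ← hD]; rfl
    rw [e2] at e
    exact (smul_right_injective R.R (pow_ne_zero _ q.ne_zero)) e
  have hσu' : R.σ ((u⁻¹ : R.Rˣ) : R.R) = ((u⁻¹ : R.Rˣ) : R.R) := by
    have e : (u : R.R) * R.σ ((u⁻¹ : R.Rˣ) : R.R) = (u : R.R) * ((u⁻¹ : R.Rˣ) : R.R) := by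
      conv_lhs => rw [← hσu, ← map_mul, Units.mul_inv, map_one]
      rw [Units.mul_inv]
    exact u.isUnit.mul_left_cancel e
  have hσg : R.polyσ g = ((q : k) ^ (2 * D)) • g := by
    change R.polyσ B = _ at hσB
    rw [hgdef, map_mul, GR.polyσ_C, hσu', hσB, mul_smul_comm]
  set F := K13b.Phi R g b (I ⊔ Ideal.span {α * w}) (I ⊔ Ideal.span {α}) D with hF
  have hker : ∀ p, F p = 0 ↔ p ∈ K13b.JJ I b α B := by
    intro p
    rw [hF, K13b.Phi_eq_zero]
    constructor
    · rintro ⟨ha, hb'⟩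
      exact K13b.mem_JJ_of hg hgB (by omega) hw p ha (by rwa [hgD])
    · intro hp
      have := K13b.of_mem_JJ hg hgB hw p hp
      exact ⟨this.1, fun j _ => this.2 j⟩
  let G : (Polynomial R.R ⧸ K13b.JJ I b α B) →ₗ[k]
      (R.R ⧸ (I ⊔ Ideal.span {α * w})) × (Fin (D - 1) → R.R ⧸ (I ⊔ Ideal.span {α})) :=
    ((K13b.JJ I b α B).restrictScalars k).liftQ F fun p hp => (hker p).2 hp
  have hG : ∀ p, G (Ideal.Quotient.mk _ p) = F p := fun p => rfl
  have hbij : Function.Bijective G := by
    constructor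
    · rw [injective_iff_map_eq_zero]
      intro p hp
      obtain ⟨p, rfl⟩ := Ideal.Quotient.mk_surjective p
      rw [hG, hker] at hp
      exact Ideal.Quotient.eq_zero_iff_mem.2 hp
    · rintro ⟨y, z⟩
      obtain ⟨y, rfl⟩ := Ideal.Quotient.mk_surjective y
      choose z' hz' using fun j : Fin (D - 1) => Ideal.Quotient.mk_surjective (z j)
      obtain ⟨p, hp⟩ := K13b.T_surj g hg b
        (fun i => if i = 0 then y else if h : i - 1 < D - 1 then z' ⟨i - 1, h⟩ else 0)
      refine ⟨Ideal.Quotient.mk _ p, ?_⟩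
      rw [hG]
      refine Prod.ext ?_ (funext fun j => ?_)
      · rw [hF, K13b.Phi_fst, hp 0 (by omega), if_pos rfl]
      · have hj := j.2
        rw [hF, K13b.Phi_snd, hp ((j : ℕ) + 1) (by omega), if_neg (Nat.succ_ne_zero _),
          dif_pos (by simp)]
        exact hz' j
  refine ⟨⟨LinearEquiv.ofBijective G hbij, fun p => ?_, fun p => ?_⟩, fun p p' hpp' y => ?_⟩
  · change G 0 = 0
    rw [map_zero]
  · obtain ⟨p, rfl⟩ := Ideal.Quotient.mk_surjective p
    rw [one_smul]
    refine Prod.ext ?_ (funext fun j => ?_)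
    · change (F (R.polyσ p)).1 = (Ideal.quotientMapₐ _ R.σ h1) (F p).1
      rw [hF, K13b.Phi_fst, K13b.T_polyσ R g hg _ hσg b hb, mul_zero, pow_zero, one_smul]
      rfl
    · change (F (R.polyσ p)).2 j = ((q : k) ^ (2 * ((j : ℕ) + 1))) •
        (Ideal.quotientMapₐ _ R.σ h2) ((F p).2 j)
      rw [hF, K13b.Phi_snd, K13b.T_polyσ R g hg _ hσg b hb]
      rfl
  · obtain ⟨y, rfl⟩ := Ideal.Quotient.mk_surjective y
    have e1 : F ((R.poly x).f p * y) = _ :=
      (congrArg (fun z => F (z * y)) hpp').trans (K13b.Phi_C_mul R g b _ _ D (R.f p') y)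
    exact e1

theorem anti_reg {R : Type} [CommRing R] [IsDomain R] (b α : R) (B : Polynomial R)
    (hα : α ≠ 0) (hB : IsUnit B.leadingCoeff) (hw : B.eval b ≠ 0) (f : Polynomial R)
    (h : B * f ∈ Ideal.span {Polynomial.C α * (Polynomial.X - Polynomial.C b)}) :
    f ∈ Ideal.span {Polynomial.C α * (Polynomial.X - Polynomial.C b)} := by
  rw [Ideal.mem_span_singleton] at h ⊢
  obtain ⟨s, hs⟩ := h
  have h0 := congrArg (Polynomial.eval b) hs
  rw [Polynomial.eval_mul, Polynomial.eval_mul, Polynomial.eval_mul, Polynomial.eval_sub,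
    Polynomial.eval_X, Polynomial.eval_C, Polynomial.eval_C, sub_self, mul_zero, zero_mul] at h0
  obtain ⟨f, rfl⟩ := Polynomial.dvd_iff_isRoot.2 ((mul_eq_zero.1 h0).resolve_left hw)
  have h1 : B * f = Polynomial.C α * s := by
    refine mul_left_cancel₀ (Polynomial.X_sub_C_ne_zero b) ?_
    linear_combination hs
  have h2 : (f.map (Ideal.Quotient.mk (Ideal.span {α}))) = 0 := by
    have h3 := congrArg (Polynomial.map (Ideal.Quotient.mk (Ideal.span {α}))) h1
    rw [Polynomial.map_mul, Polynomial.map_mul, Polynomial.map_C,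
      Ideal.Quotient.eq_zero_iff_mem.2 (Ideal.mem_span_singleton_self α), Polynomial.C_0,
      zero_mul] at h3
    by_cases hn : Nontrivial (R ⧸ Ideal.span {α})
    · have h4 : IsUnit (B.map (Ideal.Quotient.mk (Ideal.span {α}))).leadingCoeff := by
        rw [Polynomial.leadingCoeff_map_of_leadingCoeff_ne_zero _ (hB.map _).ne_zero]
        exact hB.map _
      exact (Polynomial.isUnit_leadingCoeff_mul_right_eq_zero_iff h4).1 h3
    · rw [not_nontrivial_iff_subsingleton] at hn
      exact Subsingleton.elim _ _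
  obtain ⟨f', hf'⟩ : Polynomial.C α ∣ f := by
    rw [Polynomial.C_dvd_iff_dvd_coeff]
    intro i
    have := congrArg (fun p => Polynomial.coeff p i) h2
    simp only [Polynomial.coeff_map, Polynomial.coeff_zero] at this
    rwa [Ideal.Quotient.eq_zero_iff_mem, Ideal.mem_span_singleton] at this
  exact ⟨f', by rw [hf']; ring⟩

end Pool.Agent.Lib.MP_31c440_gt.HV
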