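import Pool.Agent.Lib.MP_31c440_gt.HV.K14_Tri
import Pool.Agent.Lib.MP_31c440_gt.HV.K13a_Deg
import Pool.Agent.Lib.MP_31c440_gt.HV.K13b_AntiIso

/-!
Relation (4) of Murakami, Ohtsuki and Yamada: two vertices joined by two edges in opposite
directions.
-/

noncomputable section

namespace Pool.Agent.Lib.MP_31c440_gt.HV

open MvPolynomial

variable {k : Type} [Field k] {q c : kˣ}

namespace Anti

open Tri

theorem quot_bot_rows (R : GR k q) (S : List (Row k q c)) :
    HIso 1 ((R.cx c).rows S) (((R.quot ⊥ (Stab.bot R)).cx c).rows S) := by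
  obtain ⟨g, hg⟩ := quot_bot (c := c) R
  obtain ⟨g', -⟩ := rows_congr g S S (List.forall₂_same.2 fun r _ => ⟨rfl, hg _ _ rfl, hg _ _ rfl⟩)
  simpa using (g'.symm one_ne_zero).hIso

theorem stab_rowa (R : GR k q) (r : Row k q c) : Stab R (Ideal.span {R.f r.a}) := by
  refine Stab.span_f _ ⟨((r.s⁻¹ : kˣ) : k) * (c : k), ?_⟩
  have h := congrArg (fun z => ((r.s⁻¹ : kˣ) : k) • z) r.ha
  simp only [smul_smul] at h
  rw [← h, ← Units.val_mul, inv_mul_cancel, Units.val_one, one_smul]

/-- A homomorphism to the ground field with given values. -/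
theorem ev (l : List ℕ) (val : ℕ → k) :
    ∃ φ : (GR.base k q l).R →ₐ[k] k, ∀ v ∈ l, φ ((GR.base k q l).f (X v)) = val v := by
  induction l with
  | nil => exact ⟨AlgHom.id k k, by simp⟩
  | cons x l ih =>
    obtain ⟨φ, hφ⟩ := ih
    refine ⟨((Polynomial.aeval (val x)).restrictScalars k).comp (Polynomial.mapAlgHom φ), ?_⟩
    intro v hv
    change ((Polynomial.aeval (val x)).restrictScalars k).comp (Polynomial.mapAlgHom φ)
      (((GR.base k q l).poly x).f (X v)) = val v
    by_cases h : v = x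
    · subst h
      rw [poly_self]
      simp
    · rw [poly_ne _ h]
      have := hφ v ((List.mem_cons.1 hv).resolve_left h)
      simp [this]

/-- The values at the point where everything is one except the variable `b`. -/
theorem aA_ne [CharZero k] (n : ℕ) (hn : 2 ≤ n) : aA (1 : k) 0 n - aA (1 : k) 2 n ≠ 0 := by
  have h1 := aA_mul (1 : k) 2 n
  have h2 := aA_mul (1 : k) 0 n
  rw [zero_pow (by omega), one_pow] at h2
  rw [one_pow] at h1
  have h3 : aA (1 : k) 2 n = 2 ^ n - 1 := by linear_combination h1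
  have h4 : aA (1 : k) 0 n = 1 := by linear_combination -h2
  rw [h3, h4]
  intro h
  have h5 : (2 : k) ^ n = 2 := by linear_combination -h
  have h6 : (2 : ℕ) ^ n = 2 := by exact_mod_cast h5
  have h7 : 2 ^ 2 ≤ 2 ^ n := Nat.pow_le_pow_right (by norm_num) hn
  omega

/-- Elimination of the variable `d` with the sum of two linear rows. -/
theorem two_lin (rest : List ℕ) (a b e d : ℕ) (ha : a ≠ d) (hb : b ≠ d) (he : e ≠ d)
    (hw : Hom q 1 (X a + X e - X b : A k)) (r r' : Row k q c) (h : r.s = r'.s)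
    (S : List (Row k q c)) (hr : r.b + r'.b = X d - (X a + X e - X b))
    (hc : curv (r :: r' :: S) = 0) :
    HIso 1 (((GR.base k q (d :: rest)).cx c).rows (r :: r' :: S))
      (((GR.base k q rest).cx c).rows
        ((subA r r' h).sub1 d _ hw :: S.map (Row.sub1 d (X a + X e - X b) hw))) ∧
    curv ((subA r r' h).sub1 d _ hw :: S.map (Row.sub1 d (X a + X e - X b) hw)) = 0 := by
  have h1 := rowop ((GR.base k q (d :: rest)).cx c) r r' h S
  have h2 := curv_rowop r r' h S
  rw [hc] at h2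
  have h3 := base_step rest d a e b ha he hb hw (addB r r' h) (subA r r' h :: S) hr h2
  rw [List.map_cons] at h3
  exact ⟨trans1 h1 h3.1, h3.2⟩

/-- The graph with the arcs `a → b`, `c → d`, after the elimination of `d`. -/
theorem arcs_B (R : GR k q) [IsDomain R.R] (r : Row k q c) (S : List (Row k q c)) (α : R.R)
    (hα : α ≠ 0) (hb : R.f r.b = -α) (hc : curv (r :: S) = 0)
    (hJ : Stab R (⊥ ⊔ Ideal.span {α})) :
    HIso 1 ((R.cx c).rows (r :: S)) (((R.quot (⊥ ⊔ Ideal.span {α}) hJ).cx c).rows S) := by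
  refine elimL' R [r] S hc ?_ _ hJ ?_
  · simp only [Reg, and_true, hb]
    intro x hx
    rw [Ideal.mem_bot, mul_eq_zero] at hx
    exact hx.resolve_left (neg_ne_zero.2 hα)
  · simp only [idl, hb, Ideal.span_singleton_neg]

/-- The graph with the arcs `a → d`, `c → b`, after the elimination of `d`. -/
theorem arcs_A (R : GR k q) [IsDomain R.R] (r : Row k q c) (S : List (Row k q c)) (β : R.R)
    (hβ : β ≠ 0) (ha : R.f r.a = -β) (hc : curv (r :: S) = 0)
    (hJ : Stab R (⊥ ⊔ Ideal.span {β})) :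
    HIso (r.s : k) ((R.cx c).rows (r :: S)) (((R.quot (⊥ ⊔ Ideal.span {β}) hJ).cx c).rows S) := by
  have hJ' : Stab R (⊥ ⊔ Ideal.span {R.f r.a}) := (Stab.bot R).sup (stab_rowa R r)
  have h1 := elimA_quot R ⊥ (Stab.bot R) r S hJ' (by rw [hc, map_zero]; exact Ideal.zero_mem _)
    (by
      intro x hx
      rw [ha, Ideal.mem_bot, mul_eq_zero] at hx
      exact hx.resolve_left (neg_ne_zero.2 hβ))
  have h2 := (quot_bot_rows R (r :: S)).trans h1
  rw [one_mul] at h2
  have h3 : (⊥ ⊔ Ideal.span {R.f r.a} : Ideal R.R) = ⊥ ⊔ Ideal.span {β} := by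
    rw [ha, Ideal.span_singleton_neg]
  obtain ⟨g, hg⟩ := quot_congr (c := c) R _ _ hJ' hJ h3
  obtain ⟨g', -⟩ := rows_congr g S S
    (List.forall₂_same.2 fun r _ => ⟨rfl, hg _ _ (by rw [sub_self]; exact Ideal.zero_mem _),
      hg _ _ (by rw [sub_self]; exact Ideal.zero_mem _)⟩)
  have h4 := h2.trans g'.hIso
  rwa [mul_one] at h4

/-- The two rows of the vertices after the elimination of two variables. -/
theorem verts (R : GR k q) [IsDomain R.R] (y : ℕ) (rW rU : Row k q c) (S : List (Row k q c))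
    (h : rW.s = rU.s) (α b w : R.R) (D : ℕ) (hD1 : 1 ≤ D) (hα : α ≠ 0) (hw0 : w ≠ 0)
    (hbσ : R.σ b = ((q : k) ^ 2) • b)
    (hU : (R.poly y).f rU.b = -(Polynomial.C α * (Polynomial.X - Polynomial.C b)))
    (hD : ((R.poly y).f rW.a).natDegree = D) (hL : IsUnit ((R.poly y).f rW.a).leadingCoeff)
    (hw : ((R.poly y).f rW.a).eval b = -w)
    (hσ : (R.poly y).σ ((R.poly y).f rW.a) = ((q : k) ^ (2 * D)) • (R.poly y).f rW.a)
    (hc : curv (rW :: rU :: S) = 0)
    (hS : ∀ r ∈ S, (R.poly y).f r.a = Polynomial.C (R.f r.a) ∧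
      (R.poly y).f r.b = Polynomial.C (R.f r.b))
    (h1 : Stab R (⊥ ⊔ Ideal.span {α * w})) (h2 : Stab R (⊥ ⊔ Ideal.span {α}))
    (hF : (((R.poly y).cx c).rows (rW :: rU :: S)).FD) :
    (((R.poly y).cx c).rows (rW :: rU :: S)).τ =
      (rW.s : k) * ((((R.quot _ h1).cx c).rows S).τ +
        (∑ j : Fin (D - 1), (q : k) ^ (2 * ((j : ℕ) + 1))) * (((R.quot _ h2).cx c).rows S).τ) := by
  have t1 := rowop ((R.poly y).cx c) rW rU h S
  have hc1 := curv_rowop rW rU h S
  rw [hc] at hc1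
  obtain ⟨rA, hA⟩ : ∃ r, r = addB rW rU h := ⟨_, rfl⟩
  obtain ⟨rB, hB⟩ : ∃ r, r = subA rW rU h := ⟨_, rfl⟩
  rw [← hA, ← hB] at t1 hc1
  have hAa : rA.a = rW.a := by rw [hA]; rfl
  have hAs : rA.s = rW.s := by rw [hA]; rfl
  have hBb : rB.b = rU.b := by rw [hB]; rfl
  have hP : (rA :: rB :: S).Perm (rB :: rA :: S) := List.Perm.swap _ _ _
  have t2 := perm_hIso ((R.poly y).cx c) hP
  rw [curv_perm hP] at hc1
  have hJ1 : Stab (R.poly y) (⊥ ⊔ Ideal.span {(R.poly y).f rB.b}) :=
    (Stab.bot _).sup (stab_row _ rB)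
  have t3 := elimB_quot (R.poly y) ⊥ (Stab.bot _) rB (rA :: S) hJ1
    (by rw [hc1, map_zero]; exact Ideal.zero_mem _) (by
      intro x hx
      rw [hBb, hU, Ideal.mem_bot, mul_eq_zero, neg_eq_zero, mul_eq_zero] at hx
      rcases hx with (hx | hx) | hx
      · exact absurd (Polynomial.C_eq_zero.1 hx) hα
      · exact absurd hx (Polynomial.X_sub_C_ne_zero _)
      · exact hx)
  have hJ2 : Stab (R.poly y) (⊥ ⊔ Ideal.span {(R.poly y).f rB.b} ⊔
      Ideal.span {(R.poly y).f rA.a}) := hJ1.sup (stab_rowa _ rA)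
  have hc2 : (R.poly y).f (curv (rA :: S)) ∈ (⊥ ⊔ Ideal.span {(R.poly y).f rB.b} : Ideal _) := by
    have : curv (rA :: S) = -(rB.a * rB.b) := by
      rw [curv_cons] at hc1
      linear_combination hc1
    rw [this, map_neg, map_mul, neg_mem_iff]
    exact Ideal.mem_sup_right (Ideal.mul_mem_left _ _ (Ideal.mem_span_singleton_self _))
  have t4 := elimA_quot (R.poly y) _ hJ1 rA S hJ2 hc2 (by
    intro x hx
    rw [hBb, hU, Ideal.span_singleton_neg, bot_sup_eq, hAa] at *
    exact anti_reg b α _ hα hL (by rw [hw]; exact neg_ne_zero.2 hw0) x hx)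
  have eJ : (⊥ ⊔ Ideal.span {(R.poly y).f rB.b} ⊔ Ideal.span {(R.poly y).f rA.a} :
      Ideal (R.poly y).R) = (⊥ : Ideal R.R).map Polynomial.C ⊔
      Ideal.span {Polynomial.C α * (Polynomial.X - Polynomial.C b)} ⊔
      Ideal.span {(R.poly y).f rW.a} := by
    rw [Ideal.map_bot, hBb, hU, hAa, Ideal.span_singleton_neg]
  have hJ3 : Stab (R.poly y) ((⊥ : Ideal R.R).map Polynomial.C ⊔
      Ideal.span {Polynomial.C α * (Polynomial.X - Polynomial.C b)} ⊔
      Ideal.span {(R.poly y).f rW.a}) := by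
    rw [← eJ]
    exact hJ2
  obtain ⟨g, hg⟩ := quot_congr (c := c) (R.poly y) _ _ hJ2 hJ3 eJ
  obtain ⟨g', -⟩ := rows_congr g S S
    (List.forall₂_same.2 fun r _ => ⟨rfl, hg _ _ (by rw [sub_self]; exact Ideal.zero_mem _),
      hg _ _ (by rw [sub_self]; exact Ideal.zero_mem _)⟩)
  obtain ⟨e', he'⟩ := anti_iso (c := c) R y ⊥ b α w ((R.poly y).f rW.a) D hD hD1 hL hw hbσ hσ
    hJ3 h1 h2
  obtain ⟨e'', -⟩ := rows_congr e' S S
    (List.forall₂_same.2 fun r hr => ⟨rfl, he' _ _ (hS r hr).1, he' _ _ (hS r hr).2⟩)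
  have t5 := (((trans1 t1 t2).trans ((quot_bot_rows _ _).trans t3)).trans
    (t4.trans (g'.hIso.trans e''.hIso)))
  have h4 := t5.fin.1 hF
  have h5 := (fin_rows_prod _ _ _).1 h4
  have h6 := t5.tau
  rw [h6, tau_rows_prod _ _ _ h4, tau_rows_pow _ _ _ h5.2, hAs]
  simp only [one_mul, mul_one]

/-- The graph with two vertices after the elimination of `x` and `d`. -/
theorem verts_down (n a b e d x y : ℕ) (S : List GNode) (rest : List ℕ)
    (hl : [a, b, e, d, x, y].Nodup) (h : Closed (.vert a y b x :: .vert e x d y :: S))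
    (hr : (a :: e :: insG S).Perm (d :: rest)) (hw : Hom q 1 (X a + X e - X b : A k)) :
    ∃ rW rU : Row k q (q ^ n), rW.s = q ^ 4 / q ^ n ∧ rU.s = q ^ 4 / q ^ n ∧
      rW.b = (X a - X b) * (X y - X e) ∧ rU.b = -((X a - X b) * (X y - X b)) ∧
      rW.a = dP (X e + (X a + X y - X b)) ((X a + X e - X b) * X y)
        (X e * (X a + X y - X b)) n ∧
      curv (rW :: rU :: (rowsG k q n S).map (Row.sub1 d (X a + X e - X b) hw)) = 0 ∧
      HIso 1 (gcx k q n (.vert a y b x :: .vert e x d y :: S))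
        (((GR.base k q (y :: rest)).cx (q ^ n)).rows
          (rW :: rU :: (rowsG k q n S).map (Row.sub1 d (X a + X e - X b) hw))) := by
  simp only [List.nodup_cons, List.mem_cons, List.not_mem_nil, or_false, not_or, List.nodup_nil,
    not_false_eq_true, and_true] at hl
  obtain ⟨⟨nab, nae, nad, nax, nay⟩, ⟨nbe, nbd, nbx, nby⟩, ⟨ned, nex, ney⟩, ⟨ndx, ndy⟩, nxy⟩ := hl
  have hnd : (insG (.vert a y b x :: .vert e x d y :: S)).Nodup := h.1
  have hnd' : (outsG (.vert a y b x :: .vert e x d y :: S)).Nodup := h.2.nodup_iff.1 h.1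
  have eI : insG (.vert a y b x :: .vert e x d y :: S) = a :: y :: e :: x :: insG S := by
    simp [insG, GNode.ins]
  have eO : outsG (.vert a y b x :: .vert e x d y :: S) = b :: x :: d :: y :: outsG S := by
    simp [outsG, GNode.outs]
  have eR : rowsG k q n (.vert a y b x :: .vert e x d y :: S) =
      vRow1 k q n a y b x :: vRow2 k q n a y b x :: vRow1 k q n e x d y ::
        vRow2 k q n e x d y :: rowsG k q n S := by
    simp [rowsG, GNode.rows]
  have hcv := curv_closed (k := k) (q := q) n _ h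
  rw [eR] at hcv
  rw [eI] at hnd
  rw [eO] at hnd'
  rw [gcx, eI, eR]
  have hP : (a :: y :: e :: x :: insG S).Perm (x :: d :: y :: rest) := by
    refine List.Perm.trans ?_ (((hr.cons y).trans (List.Perm.swap _ _ _)).cons x)
    rw [List.perm_iff_count]
    intro a
    simp only [List.count_cons]
    ring
  have m1 : x ∉ insG S := by
    simp only [List.nodup_cons, List.mem_cons, not_or] at hnd
    tauto
  have m2 : x ∉ outsG S := by
    simp only [List.nodup_cons, List.mem_cons, not_or] at hnd'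
    tauto
  have hQ : (vRow1 k q n a y b x :: vRow2 k q n a y b x :: vRow1 k q n e x d y ::
      vRow2 k q n e x d y :: rowsG k q n S).Perm (vRow1 k q n a y b x :: vRow1 k q n e x d y ::
      vRow2 k q n e x d y :: vRow2 k q n a y b x :: rowsG k q n S) := by
    refine List.Perm.cons _ ((List.Perm.swap _ _ _).trans (List.Perm.cons _ ?_))
    exact List.Perm.swap _ _ _
  rw [curv_perm hQ] at hcv
  have hw₁ : Hom q 1 (X a + X y - X b : A k) := ((Hom.var a).add (Hom.var y)).sub (Hom.var b)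
  have E1 := base_step (d :: y :: rest) x a y b nax (Ne.symm nxy) nbx hw₁
    (vRow1 k q n a y b x) (vRow1 k q n e x d y :: vRow2 k q n e x d y :: vRow2 k q n a y b x ::
      rowsG k q n S) (by simp only [vRow1]; ring) hcv
  rw [List.map_cons, List.map_cons, List.map_cons, rowsG_sub1 _ _ _ _ _ m1 m2] at E1
  have E2 := base_step (y :: rest) d a e b nad ned nbd hw
    ((vRow1 k q n e x d y).sub1 x _ hw₁) ((vRow2 k q n e x d y).sub1 x _ hw₁ ::
      (vRow2 k q n a y b x).sub1 x _ hw₁ :: rowsG k q n S) (by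
      simp only [vRow1, Row.sub1, map_add, map_sub, sub1_self, sub1_ne nex, sub1_ne ndx,
        sub1_ne (Ne.symm nxy)]
      ring) E1.2
  rw [List.map_cons, List.map_cons] at E2
  refine ⟨((vRow2 k q n e x d y).sub1 x _ hw₁).sub1 d _ hw,
    ((vRow2 k q n a y b x).sub1 x _ hw₁).sub1 d _ hw, rfl, rfl, ?_, ?_, ?_, E2.2,
    trans1 (rows_base hP hnd _) (trans1 (perm_hIso _ hQ) (trans1 E1.1 E2.1))⟩
  · simp only [vRow2, Row.sub1, map_add, map_sub, map_mul, sub1_self, sub1_ne nex, sub1_ne ndx,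
      sub1_ne (Ne.symm nxy), sub1_ne nad, sub1_ne (Ne.symm ndy), sub1_ne nbd, sub1_ne ned]
    ring
  · simp only [vRow2, Row.sub1, map_add, map_sub, map_mul, sub1_self, sub1_ne nbx, sub1_ne nax,
      sub1_ne (Ne.symm nxy), sub1_ne nad, sub1_ne (Ne.symm ndy), sub1_ne nbd]
    ring
  · have hm : ∀ (f : A k →ₐ[k] A k) (e' p p' : A k), f (dP e' p p' n) = dP (f e') (f p) (f p') n :=
      fun f e' p p' => map_dP (f : A k →+* A k) e' p p' n
    simp only [vRow2, Row.sub1, hm, map_add, map_sub, map_mul, sub1_self, sub1_ne nex, sub1_ne ndx,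
      sub1_ne (Ne.symm nxy), sub1_ne nad, sub1_ne (Ne.symm ndy), sub1_ne nbd, sub1_ne ned]

theorem alg_aA {R : Type} [CommRing R] [Algebra k R] (f : A k →ₐ[k] R) (i o : A k) (n : ℕ) :
    f (aA i o n) = aA (f i) (f o) n :=
  map_aA (f : A k →+* R) i o n

theorem coef (hq : (q : k) - (q : k)⁻¹ ≠ 0) (m : ℕ) :
    ((q ^ 4 / q ^ (m + 2 + 1) : kˣ) : k) * (∑ j : Fin m, (q : k) ^ (2 * ((j : ℕ) + 1))) *
      ((q : k)⁻¹) ^ 2 =
    ((q : k) ^ (m + 2) * (q : k)⁻¹ ^ 2 - ((q : k) ^ (m + 2))⁻¹ * (q : k) ^ 2) /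
      (q - (q : k)⁻¹) := by
  have h0 : (q : k) ≠ 0 := q.ne_zero
  have h1 : ∀ m : ℕ, ((q : k) ^ 2 - 1) * ∑ j ∈ Finset.range m, (q : k) ^ (2 * (j + 1)) =
      (q : k) ^ 2 * ((q : k) ^ (2 * m) - 1) := by
    intro m
    induction m with
    | zero => simp
    | succ m ih =>
      rw [Finset.sum_range_succ, mul_add, ih]
      ring
  rw [Fin.sum_univ_eq_sum_range (fun j => (q : k) ^ (2 * (j + 1))) m, eq_div_iff hq]
  have h2 := h1 m
  obtain ⟨T, hS⟩ : ∃ z, z = ∑ j ∈ Finset.range m, (q : k) ^ (2 * (j + 1)) := ⟨_, rfl⟩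
  rw [← hS] at h2 ⊢
  have h3 : (q : k) - (q : k)⁻¹ = ((q : k) ^ 2 - 1) * (q : k)⁻¹ := by
    field_simp
  rw [h3]
  push_cast
  have h4 : (q : k) ^ 4 / (q : k) ^ (m + 2 + 1) * T * (q : k)⁻¹ ^ 2 *
      (((q : k) ^ 2 - 1) * (q : k)⁻¹) = (q : k) ^ 4 / (q : k) ^ (m + 2 + 1) * (q : k)⁻¹ ^ 3 *
      (((q : k) ^ 2 - 1) * T) := by ring
  rw [h4, h2]
  field_simp
  ring

theorem rows_no' (R : GR k q) (n a b e d y : ℕ) (hay : a ≠ y) (hby : b ≠ y) (hey : e ≠ y)
    (hw : Hom q 1 (X a + X e - X b : A k)) (S : List GNode) (h1 : y ∉ insG S) (h2 : y ∉ outsG S) :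
    ∀ r ∈ (rowsG k q n S).map (Row.sub1 d (X a + X e - X b) hw),
      (R.poly y).f r.a = Polynomial.C (R.f r.a) ∧ (R.poly y).f r.b = Polynomial.C (R.f r.b) := by
  have h := rowsG_alg (k := k) (q := q) n ((R.poly y).f.comp (sub1 d (X a + X e - X b)))
    ((Polynomial.CAlgHom (R := k)).comp (R.f.comp (sub1 d (X a + X e - X b))))
    S id (fun v hv => by
      have hne : v ≠ y := by
        rintro rfl
        exact hv.elim h1 h2
      change (R.poly y).f (sub1 d (X a + X e - X b) (X v)) =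
        Polynomial.C (R.f (sub1 d (X a + X e - X b) (X v)))
      by_cases hvd : v = d
      · subst hvd
        rw [sub1_self]
        exact f_w R hay hey hby
      · rw [sub1_ne hvd]
        exact poly_ne R hne)
  have h3 : S.map (GNode.map id) = S := by
    have : GNode.map id = id := by
      funext g
      cases g <;> rfl
    rw [this, List.map_id]
  rw [h3, List.forall₂_same] at h
  intro r hr
  obtain ⟨r', hr', rfl⟩ := List.mem_map.1 hr
  exact (h r' hr').2

theorem curv_f (R : GR k q) (y : ℕ) (S : List (Row k q c))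
    (hS : ∀ r ∈ S, (R.poly y).f r.a = Polynomial.C (R.f r.a) ∧
      (R.poly y).f r.b = Polynomial.C (R.f r.b)) :
    (R.poly y).f (curv S) = Polynomial.C (R.f (curv S)) := by
  induction S with
  | nil => simp only [curv, List.map_nil, List.sum_nil, map_zero]
  | cons r S ih =>
    have h1 := hS r (by simp)
    rw [curv_cons, map_add, map_mul, h1.1, h1.2, ih (fun r hr => hS r (by simp [hr])), map_add,
      map_mul, Polynomial.C_add, Polynomial.C_mul]

theorem dP_poly (R : GR k q) [Nontrivial R.R] [CharZero k] (y D : ℕ) (a b e : ℕ) (hay : a ≠ y)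
    (hby : b ≠ y) (hey : e ≠ y) (r : A k)
    (hr : r = dP (X e + (X a + X y - X b)) ((X a + X e - X b) * X y)
        (X e * (X a + X y - X b)) (D + 2)) :
    ((R.poly y).f r).natDegree = D ∧ IsUnit ((R.poly y).f r).leadingCoeff := by
  have f1 := poly_ne R hay
  have f2 := poly_ne R hby
  have f3 := poly_ne R hey
  have f4 := poly_self R y
  obtain ⟨F, hF⟩ : ∃ F : A k →ₐ[k] (R.poly y).R, F = (R.poly y).f := ⟨_, rfl⟩
  rw [← hF] at f1 f2 f3 f4 ⊢
  let _ : Algebra ℚ R.R := ((algebraMap k R.R).comp (algebraMap ℚ k)).toAlgebra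
  have h := dP_natDegree (R := R.R) D (R.f (X e) + R.f (X a) - R.f (X b)) 0
    (R.f (X a) + R.f (X e) - R.f (X b)) (R.f (X e) * (R.f (X a) - R.f (X b))) (R.f (X e))
  have e1 : F r = dP (Polynomial.X + Polynomial.C (R.f (X e) + R.f (X a) - R.f (X b)))
      (Polynomial.C (R.f (X a) + R.f (X e) - R.f (X b)) * Polynomial.X + Polynomial.C 0)
      (Polynomial.C (R.f (X e)) * Polynomial.X +
        Polynomial.C (R.f (X e) * (R.f (X a) - R.f (X b)))) (D + 2) := by
    rw [hr]
    have hm := map_dP (F : A k →+* (R.poly y).R) (X e + (X a + X y - X b))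
      ((X a + X e - X b) * X y) (X e * (X a + X y - X b)) (D + 2)
    refine hm.trans ?_
    simp only [RingHom.coe_coe, map_add, map_sub, map_mul, f1, f2, f3, f4]
    congr 1
    · ring
    · rw [map_zero]
      ring
    · ring
  rw [e1]
  refine ⟨h.1, ?_⟩
  rw [Polynomial.leadingCoeff, h.1, h.2]
  have h5 : (-((D : R.R) + 2)) = algebraMap k R.R (-((D : k) + 2)) := by
    rw [map_neg, map_add, map_natCast, map_ofNat]
  rw [h5]
  refine IsUnit.map _ ?_
  rw [isUnit_iff_ne_zero, neg_ne_zero]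
  have : ((D + 2 : ℕ) : k) ≠ 0 := by exact_mod_cast (by omega : D + 2 ≠ 0)
  push_cast at this
  exact this

end Anti

open Tri Anti in
theorem FG_anti [CharZero k] (N a b c d x y : ℕ) (S : List GNode) (hN : 2 ≤ N)
    (hq : (q : k) - (q : k)⁻¹ ≠ 0) (hl : [a, b, c, d, x, y].Nodup)
    (h : Closed (.vert a y b x :: .vert c x d y :: S)) :
    FG k q (N + 1) (.vert a y b x :: .vert c x d y :: S) =
      ((q : k) ^ N * (q : k)⁻¹ ^ 2 - ((q : k) ^ N)⁻¹ * (q : k) ^ 2) / (q - (q : k)⁻¹) *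
        FG k q (N + 1) (.arc a b :: .arc c d :: S) +
      FG k q (N + 1) (.arc a d :: .arc c b :: S) := by
  obtain ⟨m, rfl⟩ : ∃ m, N = m + 2 := ⟨N - 2, by omega⟩
  have hl' := hl
  simp only [List.nodup_cons, List.mem_cons, List.not_mem_nil, or_false, not_or, List.nodup_nil,
    not_false_eq_true, and_true] at hl
  obtain ⟨⟨nab, nac, nad, nax, nay⟩, ⟨nbc, nbd, nbx, nby⟩, ⟨ncd, ncx, ncy⟩, ⟨ndx, ndy⟩, nxy⟩ := hl
  have hnd : (insG (.vert a y b x :: .vert c x d y :: S)).Nodup := h.1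
  have hnd' : (outsG (.vert a y b x :: .vert c x d y :: S)).Nodup := h.2.nodup_iff.1 h.1
  have eI : insG (.vert a y b x :: .vert c x d y :: S) = a :: y :: c :: x :: insG S := by
    simp [insG, GNode.ins]
  have eO : outsG (.vert a y b x :: .vert c x d y :: S) = b :: x :: d :: y :: outsG S := by
    simp [outsG, GNode.outs]
  have hperm := h.2
  rw [eI] at hnd hperm
  rw [eO] at hnd' hperm
  have mb : b ∈ insG S := by
    have : b ∈ a :: y :: c :: x :: insG S := hperm.mem_iff.2 (by simp)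
    simp only [List.mem_cons] at this
    tauto
  have md : d ∈ insG S := by
    have : d ∈ a :: y :: c :: x :: insG S := hperm.mem_iff.2 (by simp)
    simp only [List.mem_cons] at this
    tauto
  have my : y ∉ insG S := by
    simp only [List.nodup_cons, List.mem_cons, not_or] at hnd
    tauto
  have my' : y ∉ outsG S := by
    simp only [List.nodup_cons, List.mem_cons, not_or] at hnd'
    tauto
  have hndS : (a :: c :: insG S).Nodup := by
    simp only [List.nodup_cons, List.mem_cons, not_or] at hnd ⊢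
    tauto
  obtain ⟨rest, hr⟩ : ∃ rest, (a :: c :: insG S).Perm (d :: rest) :=
    ⟨(a :: c :: insG S).erase d, List.perm_cons_erase (by simp [md])⟩
  have ma : a ∈ rest := by
    have : a ∈ d :: rest := hr.mem_iff.1 (by simp)
    simp only [List.mem_cons] at this
    tauto
  have mc : c ∈ rest := by
    have : c ∈ d :: rest := hr.mem_iff.1 (by simp)
    simp only [List.mem_cons] at this
    tauto
  have mb' : b ∈ rest := by
    have : b ∈ d :: rest := hr.mem_iff.1 (by simp [mb])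
    simp only [List.mem_cons] at this
    tauto
  have hw : Hom q 1 (X a + X c - X b : A k) := ((Hom.var a).add (Hom.var c)).sub (Hom.var b)
  have hdom : IsDomain (GR.base k q rest).R := base_domain rest
  -- the three graphs
  obtain ⟨rW, rU, sW, sU, bW, bU, aW, hcG, hG⟩ := verts_down (k := k) (q := q) (m + 2 + 1)
    a b c d x y S rest hl' h hr hw
  have hcv := curv_closed (k := k) (q := q) (m + 2 + 1) _ h
  rw [curv_rowsG] at hcv
  have hc1 : curv (arcRow k q (m + 2 + 1) c d :: arcRow k q (m + 2 + 1) a b ::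
      rowsG k q (m + 2 + 1) S) = 0 := by
    have h1 : curv (rowsG k q (m + 2 + 1) (.arc c d :: .arc a b :: S)) = 0 := by
      rw [curv_rowsG, ← hcv]
      simp only [insG, outsG, GNode.ins, GNode.outs, List.cons_append, List.nil_append,
        List.flatMap_cons, List.map_cons, List.sum_cons]
      ring
    exact h1
  have hc2 : curv (arcRow k q (m + 2 + 1) a d :: arcRow k q (m + 2 + 1) c b ::
      rowsG k q (m + 2 + 1) S) = 0 := by
    have h1 : curv (rowsG k q (m + 2 + 1) (.arc a d :: .arc c b :: S)) = 0 := by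
      rw [curv_rowsG, ← hcv]
      simp only [insG, outsG, GNode.ins, GNode.outs, List.cons_append, List.nil_append,
        List.flatMap_cons, List.map_cons, List.sum_cons]
      ring
    exact h1
  have A1 := two_lin rest a b c d nad nbd ncd hw (arcRow k q (m + 2 + 1) c d)
    (arcRow k q (m + 2 + 1) a b) rfl (rowsG k q (m + 2 + 1) S) (by
      simp only [arcRow]; ring) hc1
  have A2 := two_lin rest a b c d nad nbd ncd hw (arcRow k q (m + 2 + 1) a d)
    (arcRow k q (m + 2 + 1) c b) rfl (rowsG k q (m + 2 + 1) S) (by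
      simp only [arcRow]; ring) hc2
  obtain ⟨S', hS'⟩ : ∃ S', S' = (rowsG k q (m + 2 + 1) S).map
    (Row.sub1 d (X a + X c - X b) hw) := ⟨_, rfl⟩
  have hno := rows_no' (GR.base k q rest) (m + 2 + 1) a b c d y nay nby ncy hw S my my'
  rw [← hS'] at hcG hG A1 A2 hno
  obtain ⟨r1, hr1⟩ : ∃ r, r = (subA (arcRow k q (m + 2 + 1) c d)
    (arcRow k q (m + 2 + 1) a b) rfl).sub1 d _ hw := ⟨_, rfl⟩
  obtain ⟨r2, hr2⟩ : ∃ r, r = (subA (arcRow k q (m + 2 + 1) a d)
    (arcRow k q (m + 2 + 1) c b) rfl).sub1 d _ hw := ⟨_, rfl⟩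
  rw [← hr1] at A1
  rw [← hr2] at A2
  have b1 : r1.b = X b - X a := by
    rw [hr1]
    simp only [Row.sub1, subA, arcRow, map_sub, sub1_ne nad, sub1_ne nbd]
  have b2 : r2.b = X b - X c := by
    rw [hr2]
    simp only [Row.sub1, subA, arcRow, map_sub, sub1_ne ncd, sub1_ne nbd]
  have a2 : r2.a = aA (X c) (X b) (m + 2 + 1) - aA (X a) (X a + X c - X b) (m + 2 + 1) := by
    rw [hr2]
    simp only [Row.sub1, subA, arcRow, map_sub, alg_aA, sub1_ne ncd, sub1_ne nbd, sub1_ne nad,
      sub1_self]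
  have s2 : r2.s = q ^ 2 / q ^ (m + 2 + 1) := by rw [hr2]; rfl
  -- the elements of the ring
  obtain ⟨R, hR⟩ : ∃ R, R = GR.base k q rest := ⟨_, rfl⟩
  have hα : R.f (X a) - R.f (X b) ≠ 0 := by
    rw [hR]
    exact sub_ne_zero.2 (base_ne _ _ _ ma nab)
  have hγ : R.f (X b) - R.f (X c) ≠ 0 := by
    rw [hR]
    exact sub_ne_zero.2 (base_ne _ _ _ mb' nbc)
  have hA0 : R.f r2.a ≠ 0 := by
    rw [hR]
    obtain ⟨φ, hφ⟩ := ev (k := k) (q := q) rest (fun v => if v = b then 0 else 1)
    intro h0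
    have h1 := congrArg φ h0
    have h2 := alg_aA (φ.comp (GR.base k q rest).f)
    simp only [AlgHom.comp_apply] at h2
    rw [a2, map_sub, map_sub, h2, h2, map_sub, map_add, map_sub, map_add, hφ a ma, hφ b mb',
      hφ c mc, if_neg nab, if_pos rfl, if_neg (Ne.symm nbc), map_zero, sub_zero,
      one_add_one_eq_two] at h1
    exact aA_ne (m + 2 + 1) (by omega) h1
  have hdomR : IsDomain R.R := by rw [hR]; exact hdom
  rw [← hR] at hno
  have A1' := A1.1
  have A2' := A2.1
  rw [← hR] at A1' A2'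
  have hG' : HIso 1 (gcx k q (m + 2 + 1) (.vert a y b x :: .vert c x d y :: S))
      (((R.poly y).cx (q ^ (m + 2 + 1))).rows (rW :: rU :: S')) := by
    rw [hR]
    exact hG
  have f1 := poly_ne R nay
  have f2 := poly_ne R nby
  have f3 := poly_ne R ncy
  have f4 := poly_self R y
  have fW : (R.poly y).f rW.b = Polynomial.C (R.f (X a) - R.f (X b)) *
      (Polynomial.X - Polynomial.C (R.f (X c))) := by
    rw [bW, map_mul, map_sub, map_sub, f1, f2, f3, f4, Polynomial.C_sub]
  have fU : (R.poly y).f rU.b = -(Polynomial.C (R.f (X a) - R.f (X b)) *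
      (Polynomial.X - Polynomial.C (R.f (X b)))) := by
    rw [bU, map_neg, map_mul, map_sub, map_sub, f1, f2, f4, Polynomial.C_sub]
  have hB := dP_poly R y (m + 1) a b c nay nby ncy rW.a aW
  obtain ⟨w, hw1⟩ : ∃ w, ((R.poly y).f rW.a).eval (R.f (X b)) = -w :=
    ⟨-((R.poly y).f rW.a).eval (R.f (X b)), by rw [neg_neg]⟩
  have c1 : -w * ((R.f (X a) - R.f (X b)) * (R.f (X b) - R.f (X c))) + R.f (curv S') = 0 := by
    have h1 := congrArg (fun z => Polynomial.eval (R.f (X b)) ((R.poly y).f z)) hcG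
    simp only [curv_cons] at h1
    rw [map_add, map_add, map_mul, map_mul, fW, fU, curv_f R y S' hno, map_zero,
      Polynomial.eval_add, Polynomial.eval_add, Polynomial.eval_mul, Polynomial.eval_mul, hw1,
      Polynomial.eval_mul, Polynomial.eval_neg, Polynomial.eval_mul, Polynomial.eval_C,
      Polynomial.eval_sub, Polynomial.eval_sub, Polynomial.eval_X, Polynomial.eval_C,
      Polynomial.eval_C, Polynomial.eval_C, Polynomial.eval_zero, sub_self, mul_zero, neg_zero,
      mul_zero, zero_add] at h1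
    exact h1
  have c2 : R.f r2.a * (R.f (X b) - R.f (X c)) + R.f (curv S') = 0 := by
    have h1 := congrArg R.f A2.2
    rw [curv_cons, map_add, map_mul, b2, map_sub, map_zero] at h1
    exact h1
  have c3 : R.f r2.a = -((R.f (X a) - R.f (X b)) * w) := by
    have h1 : (R.f r2.a + (R.f (X a) - R.f (X b)) * w) * (R.f (X b) - R.f (X c)) = 0 := by
      linear_combination c2 - c1
    have h2 := (mul_eq_zero.1 h1).resolve_right hγ
    linear_combination h2
  have hw0 : w ≠ 0 := by
    rintro rfl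
    rw [mul_zero, neg_zero] at c3
    exact hA0 c3
  have c4 : R.f r1.b = -(R.f (X a) - R.f (X b)) := by
    rw [b1, map_sub]
    ring
  have h1 : Stab R (⊥ ⊔ Ideal.span {(R.f (X a) - R.f (X b)) * w}) := by
    have := (Stab.bot R).sup (stab_rowa R r2)
    rwa [c3, Ideal.span_singleton_neg] at this
  have h2 : Stab R (⊥ ⊔ Ideal.span {R.f (X a) - R.f (X b)}) := by
    have := (Stab.bot R).sup (stab_row R r1)
    rwa [c4, Ideal.span_singleton_neg] at this
  have hσ : (R.poly y).σ ((R.poly y).f rW.a) =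
      ((q : k) ^ (2 * (m + 1))) • (R.poly y).f rW.a := by
    have h3 := rW.ha
    rw [sW] at h3
    have h4 : scl k q rW.a = ((q : k) ^ (2 * (m + 1))) • rW.a := by
      have h5 := congrArg (fun z => (((q ^ 4 / q ^ (m + 2 + 1) : kˣ) : k)⁻¹) • z) h3
      simp only [smul_smul] at h5
      rw [inv_mul_cancel₀ (Units.ne_zero _), one_smul] at h5
      rw [h5]
      congr 1
      push_cast
      have h0 : (q : k) ≠ 0 := q.ne_zero
      field_simp
      ring
    rw [(R.poly y).hσ, h4, map_smul]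
  have hfd := hG'.fin.1 (gcx_fin (m + 2 + 1) (by omega) _ h)
  have T1 := verts R y rW rU S' (sW.trans sU.symm) (R.f (X a) - R.f (X b)) (R.f (X b)) w (m + 1)
    (by omega) hα hw0 (σ_var R b) fU hB.1 hB.2 hw1 hσ hcG hno h1 h2 hfd
  have T2 := arcs_B R r1 S' (R.f (X a) - R.f (X b)) hα c4 A1.2 h2
  have T3 := arcs_A R r2 S' ((R.f (X a) - R.f (X b)) * w) (mul_ne_zero hα hw0) c3 A2.2 h1
  have g1 : HIso 1 (gcx k q (m + 2 + 1) (.arc a b :: .arc c d :: S))
      ((R.cx (q ^ (m + 2 + 1))).rows (r1 :: S')) := by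
    have eR : rowsG k q (m + 2 + 1) (.arc a b :: .arc c d :: S) =
        arcRow k q (m + 2 + 1) a b :: arcRow k q (m + 2 + 1) c d ::
          rowsG k q (m + 2 + 1) S := by
      simp [rowsG, GNode.rows]
    have eI : insG (.arc a b :: .arc c d :: S) = a :: c :: insG S := by
      simp [insG, GNode.ins]
    rw [gcx, eI, eR]
    exact trans1 (rows_base hr hndS _) (trans1 (perm_hIso _ (List.Perm.swap _ _ _)) A1')
  have g2 : HIso 1 (gcx k q (m + 2 + 1) (.arc a d :: .arc c b :: S))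
      ((R.cx (q ^ (m + 2 + 1))).rows (r2 :: S')) := by
    have eR : rowsG k q (m + 2 + 1) (.arc a d :: .arc c b :: S) =
        arcRow k q (m + 2 + 1) a d :: arcRow k q (m + 2 + 1) c b ::
          rowsG k q (m + 2 + 1) S := by
      simp [rowsG, GNode.rows]
    have eI : insG (.arc a d :: .arc c b :: S) = a :: c :: insG S := by
      simp [insG, GNode.ins]
    rw [gcx, eI, eR]
    exact trans1 (rows_base hr hndS _) A2'
  have u1 := (trans1 g1 T2).tau
  have u2 := (g2.trans T3).tau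
  have u3 := hG'.tau
  rw [one_mul] at u1 u2 u3
  have v1 : nvG (.vert a y b x :: .vert c x d y :: S) = 2 + nvG S := by
    simp only [nvG, List.map_cons, List.sum_cons, GNode.nv]
    ring
  have v2 : nvG (.arc a b :: .arc c d :: S) = nvG S := by
    simp only [nvG, List.map_cons, List.sum_cons, GNode.nv]
    ring
  have v3 : nvG (.arc a d :: .arc c b :: S) = nvG S := by
    simp only [nvG, List.map_cons, List.sum_cons, GNode.nv]
    ring
  rw [FG, FG, FG, v1, v2, v3, u1, u2, u3, T1, sW, s2, ← coef hq m, Nat.add_sub_cancel]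
  have h0 : (q : k) ≠ 0 := q.ne_zero
  have e1 : ((q ^ 2 / q ^ (m + 2 + 1) : kˣ) : k) =
      ((q ^ 4 / q ^ (m + 2 + 1) : kˣ) : k) * ((q : k)⁻¹) ^ 2 := by
    push_cast
    field_simp
  rw [e1, pow_add]
  ring

end Pool.Agent.Lib.MP_31c440_gt.HV
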