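import Pool.Agent.Lib.MP_31c440_gt.HV.K6_Quot

/-!
The quotient `R[x] / (I, (x - i₁)(x - i₂), δ (x - o))`, for relation (5).
-/

noncomputable section

namespace Pool.Agent.Lib.MP_31c440_gt.HV

open Polynomial

section Tri

variable {R : Type} [CommRing R]

/-- the quadratic polynomial `(x - i₁)(x - i₂)` -/
def triG (i₁ i₂ : R) : R[X] := (X - C i₁) * (X - C i₂)

theorem triG_monic (i₁ i₂ : R) : (triG i₁ i₂).Monic :=
  (monic_X_sub_C i₁).mul (monic_X_sub_C i₂)

theorem triG_degree [Nontrivial R] (i₁ i₂ : R) : (triG i₁ i₂).degree = 2 := by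
  rw [triG, (monic_X_sub_C i₂).degree_mul, degree_X_sub_C, degree_X_sub_C]
  rfl

theorem triG_map {S : Type} [CommRing S] (f : R →+* S) (i₁ i₂ : R) :
    (triG i₁ i₂).map f = triG (f i₁) (f i₂) := by
  simp [triG]

/-- every polynomial is a multiple of the quadratic polynomial plus `u + v (x - o)` -/
theorem tri_repr (i₁ i₂ o : R) (f : R[X]) :
    ∃ (h : R[X]) (u v : R), f = triG i₁ i₂ * h + (C u + C v * (X - C o)) := by
  rcases subsingleton_or_nontrivial R with hR | hR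
  · exact ⟨0, 0, 0, Subsingleton.elim _ _⟩
  have h1 := modByMonic_add_div f (triG i₁ i₂)
  have h2 : (f %ₘ triG i₁ i₂).degree ≤ 1 := by
    have := degree_modByMonic_lt f (triG_monic i₁ i₂)
    rw [triG_degree] at this
    exact Order.le_of_lt_succ this
  have h3 := eq_X_add_C_of_degree_le_one h2
  refine ⟨f /ₘ triG i₁ i₂, (f %ₘ triG i₁ i₂).coeff 0 + (f %ₘ triG i₁ i₂).coeff 1 * o,
    (f %ₘ triG i₁ i₂).coeff 1, ?_⟩
  conv_lhs => rw [← h1, h3]
  rw [C_add, C_mul]
  ring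

/-- the main membership criterion -/
theorem tri_mem (I : Ideal R) (i₁ i₂ o : R) (h : R[X]) (u v : R)
    (hf : triG i₁ i₂ * h + (C u + C v * (X - C o)) ∈ I.map C ⊔ Ideal.span {triG i₁ i₂}) :
    u ∈ I ∧ v ∈ I := by
  rcases subsingleton_or_nontrivial (R ⧸ I) with hR | hR
  · rw [Ideal.Quotient.subsingleton_iff] at hR
    rw [hR]
    exact ⟨trivial, trivial⟩
  set φ := Ideal.Quotient.mk I with hφ
  have h1 : triG (φ i₁) (φ i₂) ∣ C (φ u) + C (φ v) * (X - C (φ o)) := by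
    obtain ⟨F, hF, G, hG, hFG⟩ := Submodule.mem_sup.1 hf
    obtain ⟨w, rfl⟩ := Ideal.mem_span_singleton.1 hG
    have h2 := congrArg (Polynomial.map φ) hFG
    have h3 : F.map φ = 0 := by
      ext n
      rw [coeff_map, coeff_zero]
      exact Ideal.Quotient.eq_zero_iff_mem.2 (Ideal.mem_map_C_iff.1 hF n)
    rw [Polynomial.map_add, h3, zero_add, Polynomial.map_mul, Polynomial.map_add,
      Polynomial.map_mul, triG_map] at h2
    simp only [Polynomial.map_add, Polynomial.map_mul, Polynomial.map_sub, map_C, map_X] at h2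
    refine ⟨w.map φ - h.map φ, ?_⟩
    linear_combination -h2
  have h4 : C (φ u) + C (φ v) * (X - C (φ o)) = 0 := by
    by_contra h0
    refine (triG_monic (φ i₁) (φ i₂)).not_dvd_of_degree_lt h0 ?_ h1
    rw [triG_degree]
    have h5 : C (φ u) + C (φ v) * (X - C (φ o)) = C (φ v) * X + C (φ u - φ v * φ o) := by
      rw [C_sub, C_mul]
      ring
    rw [h5]
    exact lt_of_le_of_lt degree_linear_le (by decide)
  have hv : φ v = 0 := by
    have := congrArg (fun p => p.coeff 1) h4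
    simpa [coeff_X, coeff_C] using this
  have hu : φ u = 0 := by
    rw [hv] at h4
    simpa using h4
  exact ⟨Ideal.Quotient.eq_zero_iff_mem.1 hu, Ideal.Quotient.eq_zero_iff_mem.1 hv⟩

/-- the square of `x - o` -/
theorem tri_sq (i₁ i₂ o : R) :
    (X - C o) * (X - C o) = triG i₁ i₂ + C (i₁ + i₂ - 2 * o) * (X - C o) -
      C ((o - i₁) * (o - i₂)) := by
  simp only [triG, C_add, C_sub, C_mul, map_ofNat]
  ring

/-- membership in the full ideal -/
theorem tri_mem' (I : Ideal R) (i₁ i₂ o δ : R) (h : R[X]) (u v : R) :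
    triG i₁ i₂ * h + (C u + C v * (X - C o)) ∈
      I.map C ⊔ Ideal.span {triG i₁ i₂} ⊔ Ideal.span {C δ * (X - C o)} ↔
    u ∈ I ⊔ Ideal.span {δ * ((o - i₁) * (o - i₂))} ∧ v ∈ I ⊔ Ideal.span {δ} := by
  set ε := (o - i₁) * (o - i₂) with hε
  set s := i₁ + i₂ - 2 * o with hs
  constructor
  · intro hf
    obtain ⟨F, hF, G, hG, hFG⟩ := Submodule.mem_sup.1 hf
    obtain ⟨w, rfl⟩ := Ideal.mem_span_singleton.1 hG
    obtain ⟨h', u', v', hw⟩ := tri_repr i₁ i₂ o w
    have h1 : F = triG i₁ i₂ * (h - C δ * (X - C o) * h' - C δ * C v') +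
        (C (u + δ * ε * v') + C (v - δ * (u' + v' * s)) * (X - C o)) := by
      have h2 : F = triG i₁ i₂ * h + (C u + C v * (X - C o)) - C δ * (X - C o) * w := by
        rw [← hFG]
        ring
      rw [h2, hw]
      have h3 := tri_sq i₁ i₂ o
      rw [← hε, ← hs] at h3
      simp only [C_add, C_sub, C_mul]
      linear_combination (-(C δ * C v')) * h3
    rw [h1] at hF
    obtain ⟨h4, h5⟩ := tri_mem I i₁ i₂ o _ _ _ hF
    constructor
    · have : u = (u + δ * ε * v') + (-(v')) * (δ * ε) := by ring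
      rw [this]
      exact Submodule.add_mem_sup h4 (Ideal.mul_mem_left _ _ (Ideal.mem_span_singleton_self _))
    · have : v = (v - δ * (u' + v' * s)) + (u' + v' * s) * δ := by ring
      rw [this]
      exact Submodule.add_mem_sup h5 (Ideal.mul_mem_left _ _ (Ideal.mem_span_singleton_self _))
  · rintro ⟨hu, hv⟩
    obtain ⟨u0, hu0, u1, hu1, rfl⟩ := Submodule.mem_sup.1 hu
    obtain ⟨v0, hv0, v1, hv1, rfl⟩ := Submodule.mem_sup.1 hv
    obtain ⟨a, rfl⟩ := Ideal.mem_span_singleton.1 hu1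
    obtain ⟨b, rfl⟩ := Ideal.mem_span_singleton.1 hv1
    have h3 := tri_sq i₁ i₂ o
    rw [← hε, ← hs] at h3
    have h1 : triG i₁ i₂ * h + (C (u0 + δ * ε * a) + C (v0 + δ * b) * (X - C o)) =
        ((C u0 + (X - C o) * C v0) + triG i₁ i₂ * (h + C (δ * a))) +
          (C δ * (X - C o)) * (C b + C a * C s - C a * (X - C o)) := by
      simp only [C_add, C_mul]
      linear_combination (C δ * C a) * h3
    rw [h1]
    refine Submodule.add_mem_sup (Submodule.add_mem_sup ?_ ?_) ?_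
    · exact Ideal.add_mem _ (Ideal.mem_map_of_mem _ hu0)
        (Ideal.mul_mem_left _ _ (Ideal.mem_map_of_mem _ hv0))
    · exact Ideal.mul_mem_right _ _ (Ideal.mem_span_singleton_self _)
    · exact Ideal.mul_mem_right _ _ (Ideal.mem_span_singleton_self _)

/-- nonzerodivisors modulo the quadratic polynomial -/
theorem tri_reg (I : Ideal R) (i₁ i₂ o δ : R)
    (hδ : ∀ x, δ * x ∈ I → x ∈ I) (h₁ : ∀ x, (o - i₁) * x ∈ I → x ∈ I)
    (h₂ : ∀ x, (o - i₂) * x ∈ I → x ∈ I) (f : Polynomial R)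
    (h : Polynomial.C δ * (Polynomial.X - Polynomial.C o) * f ∈ I.map Polynomial.C ⊔
      Ideal.span {(Polynomial.X - Polynomial.C i₁) * (Polynomial.X - Polynomial.C i₂)}) :
    f ∈ I.map Polynomial.C ⊔
      Ideal.span {(Polynomial.X - Polynomial.C i₁) * (Polynomial.X - Polynomial.C i₂)} := by
  change f ∈ I.map C ⊔ Ideal.span {triG i₁ i₂}
  change C δ * (X - C o) * f ∈ I.map C ⊔ Ideal.span {triG i₁ i₂} at h
  obtain ⟨w, u, v, rfl⟩ := tri_repr i₁ i₂ o f
  have h3 := tri_sq i₁ i₂ o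
  have h1 : C δ * (X - C o) * (triG i₁ i₂ * w + (C u + C v * (X - C o))) =
      triG i₁ i₂ * (C δ * (X - C o) * w + C δ * C v) +
        (C (-(δ * ((o - i₁) * ((o - i₂) * v)))) +
          C (δ * (u + v * (i₁ + i₂ - 2 * o))) * (X - C o)) := by
    simp only [C_add, C_sub, C_mul, C_neg, map_ofNat] at h3 ⊢
    linear_combination (C δ * C v) * h3
  rw [h1] at h
  obtain ⟨h4, h5⟩ := tri_mem I i₁ i₂ o _ _ _ h
  have hv : v ∈ I := h₂ _ (h₁ _ (hδ _ ((Ideal.neg_mem_iff _).1 h4)))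
  have hu : u ∈ I := by
    have h6 := hδ _ h5
    have h7 : u = (u + v * (i₁ + i₂ - 2 * o)) - (i₁ + i₂ - 2 * o) * v := by ring
    rw [h7]
    exact Ideal.sub_mem _ h6 (Ideal.mul_mem_left _ _ hv)
  refine Ideal.add_mem _ ?_ ?_
  · exact Ideal.mul_mem_right _ _ (Submodule.mem_sup_right (Ideal.mem_span_singleton_self _))
  · exact Submodule.mem_sup_left (Ideal.add_mem _ (Ideal.mem_map_of_mem _ hu)
      (Ideal.mul_mem_right _ _ (Ideal.mem_map_of_mem _ hv)))

/-- the linear isomorphism -/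
theorem tri_lin {k : Type} [Field k] [Algebra k R] (I : Ideal R) (i₁ i₂ o δ : R) :
    ∃ e : (R[X] ⧸ (I.map C ⊔ Ideal.span {triG i₁ i₂} ⊔ Ideal.span {C δ * (X - C o)})) ≃ₗ[k]
        (R ⧸ (I ⊔ Ideal.span {δ * ((o - i₁) * (o - i₂))})) × (Unit → R ⧸ (I ⊔ Ideal.span {δ})),
      ∀ (h : R[X]) (u v : R),
        e (Ideal.Quotient.mk _ (triG i₁ i₂ * h + (C u + C v * (X - C o)))) =
          (Ideal.Quotient.mk _ u, fun _ => Ideal.Quotient.mk _ v) := by
  set J := I.map C ⊔ Ideal.span {triG i₁ i₂} ⊔ Ideal.span {C δ * (X - C o)} with hJ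
  set I1 := I ⊔ Ideal.span {δ * ((o - i₁) * (o - i₂))} with hI1
  set I2 := I ⊔ Ideal.span {δ} with hI2
  have hrep : ∀ y : R[X] ⧸ J, ∃ u v : R, y = Ideal.Quotient.mk J (C u + C v * (X - C o)) := by
    intro y
    obtain ⟨f, rfl⟩ := Ideal.Quotient.mk_surjective y
    obtain ⟨h, u, v, rfl⟩ := tri_repr i₁ i₂ o f
    refine ⟨u, v, ?_⟩
    rw [Ideal.Quotient.eq]
    have h1 : triG i₁ i₂ * h + (C u + C v * (X - C o)) - (C u + C v * (X - C o)) =
        triG i₁ i₂ * h := by ring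
    rw [h1]
    exact Submodule.mem_sup_left (Submodule.mem_sup_right
      (Ideal.mul_mem_right _ _ (Ideal.mem_span_singleton_self _)))
  have hinj : ∀ u v u' v' : R, Ideal.Quotient.mk J (C u + C v * (X - C o)) =
      Ideal.Quotient.mk J (C u' + C v' * (X - C o)) ↔
        Ideal.Quotient.mk I1 u = Ideal.Quotient.mk I1 u' ∧
        Ideal.Quotient.mk I2 v = Ideal.Quotient.mk I2 v' := by
    intro u v u' v'
    rw [Ideal.Quotient.eq, Ideal.Quotient.eq, Ideal.Quotient.eq]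
    have h1 := tri_mem' I i₁ i₂ o δ 0 (u - u') (v - v')
    have h2 : triG i₁ i₂ * 0 + (C (u - u') + C (v - v') * (X - C o)) =
        C u + C v * (X - C o) - (C u' + C v' * (X - C o)) := by
      rw [C_sub, C_sub]
      ring
    rw [h2] at h1
    exact h1
  -- the inverse map
  let Ψ : ((R ⧸ I1) × (Unit → R ⧸ I2)) → R[X] ⧸ J := fun z =>
    Ideal.Quotient.mk J (C (Quotient.out z.1) + C (Quotient.out (z.2 ())) * (X - C o))
  have hout1 : ∀ a : R ⧸ I1, Ideal.Quotient.mk I1 (Quotient.out a) = a := fun a =>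
    Quotient.out_eq a
  have hout2 : ∀ a : R ⧸ I2, Ideal.Quotient.mk I2 (Quotient.out a) = a := fun a =>
    Quotient.out_eq a
  have hΨ : ∀ u v : R, Ψ (Ideal.Quotient.mk I1 u, fun _ => Ideal.Quotient.mk I2 v) =
      Ideal.Quotient.mk J (C u + C v * (X - C o)) := by
    intro u v
    exact (hinj _ _ _ _).2 ⟨hout1 _, hout2 _⟩
  have hsplit : ∀ z : (R ⧸ I1) × (Unit → R ⧸ I2), ∃ u v : R,
      z = (Ideal.Quotient.mk I1 u, fun _ => Ideal.Quotient.mk I2 v) := by
    rintro ⟨a, b⟩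
    obtain ⟨u, rfl⟩ := Ideal.Quotient.mk_surjective a
    obtain ⟨v, hv⟩ := Ideal.Quotient.mk_surjective (b ())
    refine ⟨u, v, ?_⟩
    rw [hv]
  let L : ((R ⧸ I1) × (Unit → R ⧸ I2)) →ₗ[k] R[X] ⧸ J :=
    { toFun := Ψ
      map_add' := by
        intro z z'
        obtain ⟨u, v, rfl⟩ := hsplit z
        obtain ⟨u', v', rfl⟩ := hsplit z'
        have h1 : ((Ideal.Quotient.mk I1 u, fun _ => Ideal.Quotient.mk I2 v) :
            (R ⧸ I1) × (Unit → R ⧸ I2)) +
            (Ideal.Quotient.mk I1 u', fun _ => Ideal.Quotient.mk I2 v') =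
            (Ideal.Quotient.mk I1 (u + u'), fun _ => Ideal.Quotient.mk I2 (v + v')) := rfl
        rw [h1, hΨ, hΨ, hΨ, ← map_add]
        congr 1
        rw [C_add, C_add]
        ring
      map_smul' := by
        intro r z
        obtain ⟨u, v, rfl⟩ := hsplit z
        have h1 : r • ((Ideal.Quotient.mk I1 u, fun _ => Ideal.Quotient.mk I2 v) :
            (R ⧸ I1) × (Unit → R ⧸ I2)) =
            (Ideal.Quotient.mk I1 (r • u), fun _ => Ideal.Quotient.mk I2 (r • v)) := rfl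
        rw [h1, hΨ, hΨ, RingHom.id_apply]
        have h2 : C (r • u) + C (r • v) * (X - C o) = r • (C u + C v * (X - C o)) := by
          rw [smul_add, smul_C, ← smul_mul_assoc, smul_C]
        rw [h2]
        rfl }
  have hLbij : Function.Bijective L := by
    constructor
    · intro z z' hz
      obtain ⟨u, v, rfl⟩ := hsplit z
      obtain ⟨u', v', rfl⟩ := hsplit z'
      have h1 : Ψ (Ideal.Quotient.mk I1 u, fun _ => Ideal.Quotient.mk I2 v) =
        Ψ (Ideal.Quotient.mk I1 u', fun _ => Ideal.Quotient.mk I2 v') := hz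
      rw [hΨ, hΨ] at h1
      obtain ⟨h2, h3⟩ := (hinj _ _ _ _).1 h1
      rw [h2, h3]
    · intro y
      obtain ⟨u, v, rfl⟩ := hrep y
      exact ⟨_, hΨ u v⟩
  refine ⟨(LinearEquiv.ofBijective L hLbij).symm, ?_⟩
  intro h u v
  rw [LinearEquiv.symm_apply_eq]
  change _ = Ψ (Ideal.Quotient.mk I1 u, fun _ => Ideal.Quotient.mk I2 v)
  rw [hΨ, Ideal.Quotient.eq]
  have h1 : triG i₁ i₂ * h + (C u + C v * (X - C o)) - (C u + C v * (X - C o)) =
      triG i₁ i₂ * h := by ring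
  rw [h1]
  exact Submodule.mem_sup_left (Submodule.mem_sup_right
    (Ideal.mul_mem_right _ _ (Ideal.mem_span_singleton_self _)))

end Tri

variable {k : Type} [Field k] {q c : kˣ}

/-- the scaling is homogeneous of degree 2 on `x - o` -/
theorem tri_polyσ_X_sub (R : GR k q) (o : R.R) (ho : R.σ o = ((q : k) ^ 2) • o) :
    R.polyσ (X - C o) = ((q : k) ^ 2) • (X - C o : R.R[X]) := by
  rw [map_sub, GR.polyσ_X, GR.polyσ_C, ho, smul_sub, smul_C]

/-- `R[x] / (I, (x - i₁)(x - i₂), δ (x - o))` is `R/(I, δ (o - i₁)(o - i₂)) ⊕ R/(I, δ) (x - o)`. -/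
theorem tri_iso (R : GR k q) (x : ℕ) (I : Ideal R.R) (i₁ i₂ o δ : R.R)
    (h₁ : R.σ i₁ = ((q : k) ^ 2) • i₁) (h₂ : R.σ i₂ = ((q : k) ^ 2) • i₂)
    (ho : R.σ o = ((q : k) ^ 2) • o)
    (hJ : Stab (R.poly x) (I.map Polynomial.C ⊔
      Ideal.span {(Polynomial.X - Polynomial.C i₁) * (Polynomial.X - Polynomial.C i₂)} ⊔
      Ideal.span {Polynomial.C δ * (Polynomial.X - Polynomial.C o)}))
    (h1 : Stab R (I ⊔ Ideal.span {δ * ((o - i₁) * (o - i₂))}))
    (h2 : Stab R (I ⊔ Ideal.span {δ})) :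
    ∃ e : CIso 1 (((R.poly x).quot (I.map Polynomial.C ⊔
          Ideal.span {(Polynomial.X - Polynomial.C i₁) * (Polynomial.X - Polynomial.C i₂)} ⊔
          Ideal.span {Polynomial.C δ * (Polynomial.X - Polynomial.C o)}) hJ).cx c)
        (((R.quot (I ⊔ Ideal.span {δ * ((o - i₁) * (o - i₂))}) h1).cx c).prod
          (((R.quot (I ⊔ Ideal.span {δ}) h2).cx c).pow fun _ : Unit => (q : k) ^ 2)),
      ∀ p p', (R.poly x).f p = Polynomial.C (R.f p') → e.Int p p' := by
  have key := tri_lin (k := k) I i₁ i₂ o δ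
  simp only [triG] at key
  obtain ⟨e, he⟩ := key
  have hrep : ∀ y : R.R[X] ⧸ (I.map C ⊔ Ideal.span {(X - C i₁) * (X - C i₂)} ⊔
      Ideal.span {C δ * (X - C o)}), ∃ u v : R.R, y = Ideal.Quotient.mk _
        ((X - C i₁) * (X - C i₂) * 0 + (C u + C v * (X - C o))) := by
    intro y
    obtain ⟨f, rfl⟩ := Ideal.Quotient.mk_surjective y
    obtain ⟨h, u, v, rfl⟩ := tri_repr i₁ i₂ o f
    refine ⟨u, v, ?_⟩
    rw [Ideal.Quotient.eq]
    have h1 : triG i₁ i₂ * h + (C u + C v * (X - C o)) -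
        ((X - C i₁) * (X - C i₂) * 0 + (C u + C v * (X - C o))) = triG i₁ i₂ * h := by ring
    rw [h1]
    exact Submodule.mem_sup_left (Submodule.mem_sup_right
      (Ideal.mul_mem_right _ _ (Ideal.mem_span_singleton_self _)))
  refine ⟨⟨e, ?_, ?_⟩, ?_⟩
  · intro y
    exact LinearEquiv.map_zero e
  · intro y
    obtain ⟨u, v, rfl⟩ := hrep y
    have hφ : R.polyσ ((X - C i₁) * (X - C i₂) * 0 + (C u + C v * (X - C o))) =
        (X - C i₁) * (X - C i₂) * 0 + (C (R.σ u) + C (((q : k) ^ 2) • R.σ v) * (X - C o)) := by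
      rw [mul_zero, zero_add, zero_add, map_add, map_mul, GR.polyσ_C, GR.polyσ_C,
        tri_polyσ_X_sub R o ho, mul_smul_comm, ← smul_mul_assoc, smul_C]
    have h3 := he 0 u v
    have h4 := he 0 (R.σ u) (((q : k) ^ 2) • R.σ v)
    rw [← hφ] at h4
    refine Eq.trans (b := ((Ideal.Quotient.mk _ (R.σ u), fun _ =>
      Ideal.Quotient.mk _ (((q : k) ^ 2) • R.σ v)) :
        (R.R ⧸ (I ⊔ Ideal.span {δ * ((o - i₁) * (o - i₂))})) ×
          (Unit → R.R ⧸ (I ⊔ Ideal.span {δ})))) h4 ?_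
    rw [one_smul]
    refine Eq.symm (Eq.trans (congrArg (((R.quot (I ⊔ Ideal.span
      {δ * ((o - i₁) * (o - i₂))}) h1).cx c).prod
          (((R.quot (I ⊔ Ideal.span {δ}) h2).cx c).pow fun _ : Unit => (q : k) ^ 2)).φ h3) ?_)
    rfl
  · intro p p' hp y
    obtain ⟨u, v, rfl⟩ := hrep y
    have hs : (R.poly x).f p * ((X - C i₁) * (X - C i₂) * 0 + (C u + C v * (X - C o))) =
        (X - C i₁) * (X - C i₂) * 0 + (C (R.f p' * u) + C (R.f p' * v) * (X - C o)) := by
      rw [hp]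
      simp only [C_mul]
      ring
    have h3 := he 0 u v
    have h4 := he 0 (R.f p' * u) (R.f p' * v)
    rw [← hs] at h4
    refine Eq.trans h4 ?_
    refine Eq.symm (Eq.trans (congrArg (fun z : (((R.quot (I ⊔ Ideal.span
      {δ * ((o - i₁) * (o - i₂))}) h1).cx c).prod
          (((R.quot (I ⊔ Ideal.span {δ}) h2).cx c).pow fun _ : Unit => (q : k) ^ 2)).N =>
            p' • z) h3) ?_)
    rfl

end Pool.Agent.Lib.MP_31c440_gt.HV
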