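import Pool.Agent.Lib.MP_31c440_gt.HV.Core

/-!
K4: rows on a product or on a power of differential modules, and their scaled traces.
-/

noncomputable section

namespace Pool.Agent.Lib.MP_31c440_gt.HV

open MvPolynomial

variable {k : Type} [Field k] {q c : kˣ}

namespace K4

section lin

variable {ι : Type} [Fintype ι] {H : Type} [AddCommGroup H] [Module k H] {G : ι → Type}
  [∀ i, AddCommGroup (G i)] [∀ i, Module k (G i)]

theorem fin_sys (p : ∀ i, H →ₗ[k] G i) (j : ∀ i, G i →ₗ[k] H) (hpj : ∀ i x, p i (j i x) = x)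
    (hs : ∀ x, ∑ i, j i (p i x) = x) : Module.Finite k H ↔ ∀ i, Module.Finite k (G i) := by
  constructor
  · intro h i
    exact Module.Finite.of_surjective (p i) fun x => ⟨j i x, hpj i x⟩
  · intro h
    refine Module.Finite.of_injective (LinearMap.pi p) ?_
    intro x y hxy
    have h : ∀ i, p i x = p i y := fun i => congrFun hxy i
    rw [← hs x, ← hs y]
    exact Finset.sum_congr rfl fun i _ => by rw [h]

theorem trace_sys [Module.Finite k H] [∀ i, Module.Finite k (G i)] (p : ∀ i, H →ₗ[k] G i)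
    (j : ∀ i, G i →ₗ[k] H) (hpj : ∀ i x, p i (j i x) = x) (hs : ∀ x, ∑ i, j i (p i x) = x)
    (w : ι → k) (φ : H →ₗ[k] H) (ψ : ∀ i, G i →ₗ[k] G i)
    (hφ : ∀ i x, φ (j i x) = w i • j i (ψ i x)) :
    LinearMap.trace k H φ = ∑ i, w i * LinearMap.trace k (G i) (ψ i) := by
  have e : φ = ∑ i, w i • (j i ∘ₗ (ψ i ∘ₗ p i)) := by
    refine LinearMap.ext fun x => ?_
    conv_lhs => rw [← hs x]
    simp only [map_sum, LinearMap.sum_apply, LinearMap.smul_apply, LinearMap.comp_apply, hφ]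
  rw [e, map_sum]
  refine Finset.sum_congr rfl fun i _ => ?_
  rw [map_smul, smul_eq_mul]
  congr 1
  rw [LinearMap.trace_comp_comm', LinearMap.comp_assoc]
  have : p i ∘ₗ j i = LinearMap.id := LinearMap.ext fun x => hpj i x
  rw [this, LinearMap.comp_id]

end lin

variable {X Y : Cx k q c}

/-- The map on cycles of a linear map which commutes with `d`. -/
def zmap (f : X.N →ₗ[A k] Y.N) (hf : ∀ x, f (X.d x) = Y.d (f x)) : X.Z →ₗ[A k] Y.Z where
  toFun z := ⟨f z, by
    rw [Y.mem_Z, ← hf, X.mem_Z.1 z.2, map_zero]⟩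
  map_add' x y := by ext; simp
  map_smul' r x := by ext; simp

theorem zmap_mem (f : X.N →ₗ[A k] Y.N) (hf : ∀ x, f (X.d x) = Y.d (f x)) (z : X.Z)
    (h : z ∈ X.B) : zmap f hf z ∈ Y.B := by
  rw [X.mem_B] at h
  obtain ⟨y, hy⟩ := h
  rw [Y.mem_B]
  exact ⟨f y, by rw [← hf, hy]; rfl⟩

/-- The map on homology. -/
def hmap (f : X.N →ₗ[A k] Y.N) (hf : ∀ x, f (X.d x) = Y.d (f x)) : X.H →ₗ[k] Y.H :=
  (X.B.mapQ Y.B (zmap f hf) (fun z hz => zmap_mem f hf z hz)).restrictScalars k

theorem hmap_mk (f : X.N →ₗ[A k] Y.N) (hf : ∀ x, f (X.d x) = Y.d (f x)) (z : X.Z) :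
    hmap f hf (X.B.mkQ z) = Y.B.mkQ (zmap f hf z) := rfl

theorem φH_mk (z : X.Z) : X.φH (X.B.mkQ z) = X.B.mkQ (X.φZ z) := rfl

/-- A decomposition of `Z` into the sum of the `X i`, with scaled components. -/
structure Sys {ι : Type} [Fintype ι] (w : ι → k) (Z : Cx k q c) (X : ι → Cx k q c) where
  P : ∀ i, Z.N →ₗ[A k] (X i).N
  J : ∀ i, (X i).N →ₗ[A k] Z.N
  hP : ∀ i x, P i (Z.d x) = (X i).d (P i x)
  hJ : ∀ i x, J i ((X i).d x) = Z.d (J i x)
  hJφ : ∀ i x, Z.φ (J i x) = w i • J i ((X i).φ x)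
  hPJ : ∀ i x, P i (J i x) = x
  hsum : ∀ x, ∑ i, J i (P i x) = x

variable {ι : Type} [Fintype ι] {w : ι → k} {Z : Cx k q c} {V : ι → Cx k q c}

/-- Adding a row. -/
def Sys.addRow (T : Sys w Z V) (r : Row k q c) : Sys w (Z.addRow r) (fun i => (V i).addRow r) where
  P i := (T.P i).prodMap (T.P i)
  J i := (T.J i).prodMap (T.J i)
  hP i x := by
    refine Prod.ext ?_ ?_
    · change T.P i (Z.d x.1 + r.a • x.2) = (V i).d (T.P i x.1) + r.a • T.P i x.2
      rw [map_add, map_smul, T.hP]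
    · change T.P i (r.b • x.1 - Z.d x.2) = r.b • T.P i x.1 - (V i).d (T.P i x.2)
      rw [map_sub, map_smul, T.hP]
  hJ i x := by
    refine Prod.ext ?_ ?_
    · change T.J i ((V i).d x.1 + r.a • x.2) = Z.d (T.J i x.1) + r.a • T.J i x.2
      rw [map_add, map_smul, T.hJ]
    · change T.J i (r.b • x.1 - (V i).d x.2) = r.b • T.J i x.1 - Z.d (T.J i x.2)
      rw [map_sub, map_smul, T.hJ]
  hJφ i x := by
    refine Prod.ext ?_ ?_
    · change (r.s : k) • Z.φ (T.J i x.1) = w i • T.J i ((r.s : k) • (V i).φ x.1)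
      rw [T.hJφ, lin_smul, smul_comm]
    · change Z.φ (T.J i x.2) = w i • T.J i ((V i).φ x.2)
      rw [T.hJφ]
  hPJ i x := by
    refine Prod.ext ?_ ?_
    · exact T.hPJ i x.1
    · exact T.hPJ i x.2
  hsum x := by
    refine Prod.ext ?_ ?_
    · refine (Prod.fst_sum).trans ?_
      exact T.hsum x.1
    · refine (Prod.snd_sum).trans ?_
      exact T.hsum x.2

/-- Adding rows. -/
def Sys.rows (T : Sys w Z V) : ∀ S : List (Row k q c), Sys w (Z.rows S) (fun i => (V i).rows S)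
  | [] => T
  | r :: S => (T.rows S).addRow r

/-- The maps on homology. -/
def Sys.p (T : Sys w Z V) (i : ι) : Z.H →ₗ[k] (V i).H := hmap (T.P i) (T.hP i)

@[inherit_doc Sys.p]
def Sys.j (T : Sys w Z V) (i : ι) : (V i).H →ₗ[k] Z.H := hmap (T.J i) (T.hJ i)

theorem Sys.p_j (T : Sys w Z V) (i : ι) (x : (V i).H) : T.p i (T.j i x) = x := by
  obtain ⟨x, rfl⟩ := (V i).B.mkQ_surjective x
  rw [Sys.j, hmap_mk, Sys.p, hmap_mk]
  congr 1
  exact Subtype.ext (T.hPJ i x)

theorem Sys.sum_j_p (T : Sys w Z V) (x : Z.H) : ∑ i, T.j i (T.p i x) = x := by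
  obtain ⟨x, rfl⟩ := Z.B.mkQ_surjective x
  have h : ∀ i, T.j i (T.p i (Z.B.mkQ x)) = Z.B.mkQ (zmap (T.J i) (T.hJ i)
      (zmap (T.P i) (T.hP i) x)) := fun i => rfl
  simp only [h]
  rw [← map_sum]
  congr 1
  apply Subtype.ext
  rw [AddSubmonoidClass.coe_finsetSum]
  exact T.hsum x

theorem Sys.φ_j (T : Sys w Z V) (i : ι) (x : (V i).H) :
    Z.φH (T.j i x) = w i • T.j i ((V i).φH x) := by
  obtain ⟨x, rfl⟩ := (V i).B.mkQ_surjective x
  rw [φH_mk, Sys.j, hmap_mk, hmap_mk, φH_mk]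
  have : Z.φZ (zmap (T.J i) (T.hJ i) x) = w i • zmap (T.J i) (T.hJ i) ((V i).φZ x) :=
    Subtype.ext (T.hJφ i x)
  rw [this]
  rfl

theorem Sys.fd (T : Sys w Z V) : Z.FD ↔ ∀ i, (V i).FD :=
  fin_sys (H := Z.H) (G := fun i => (V i).H) T.p T.j T.p_j T.sum_j_p

theorem Sys.tau (T : Sys w Z V) (h : Z.FD) : Z.τ = ∑ i, w i * (V i).τ := by
  have hV : ∀ i, Module.Finite k (V i).H := T.fd.1 h
  have hZ : Module.Finite k Z.H := h
  exact trace_sys (H := Z.H) (G := fun i => (V i).H) T.p T.j T.p_j T.sum_j_p w Z.φH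
    (fun i => (V i).φH) T.φ_j

/-- The product as a system. -/
def prodSys (X Y : Cx k q c) : Sys (fun _ : Bool => (1 : k)) (X.prod Y)
    (fun b => if b then X else Y) where
  P i := match i with
    | true => LinearMap.fst (A k) X.N Y.N
    | false => LinearMap.snd (A k) X.N Y.N
  J i := match i with
    | true => LinearMap.inl (A k) X.N Y.N
    | false => LinearMap.inr (A k) X.N Y.N
  hP i x := by
    cases i
    · rfl
    · rfl
  hJ i x := by
    cases i
    · refine Prod.ext ?_ rfl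
      change (0 : X.N) = X.d 0
      rw [map_zero]
    · refine Prod.ext rfl ?_
      change (0 : Y.N) = Y.d 0
      rw [map_zero]
  hJφ i x := by
    cases i
    · refine Prod.ext ?_ ?_
      · change X.φ 0 = (1 : k) • (0 : X.N)
        rw [map_zero, smul_zero]
      · change Y.φ x = (1 : k) • Y.φ x
        rw [one_smul]
    · refine Prod.ext ?_ ?_
      · change X.φ x = (1 : k) • X.φ x
        rw [one_smul]
      · change Y.φ 0 = (1 : k) • (0 : Y.N)
        rw [map_zero, smul_zero]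
  hPJ i x := by
    cases i
    · rfl
    · rfl
  hsum x := by
    rw [Fintype.sum_bool]
    refine Prod.ext ?_ ?_
    · change x.1 + 0 = x.1
      rw [add_zero]
    · change 0 + x.2 = x.2
      rw [zero_add]

open Classical in
/-- The power as a system. -/
def powSys {ι : Type} [Fintype ι] (w : ι → k) (X : Cx k q c) :
    Sys w (X.pow w) (fun _ : ι => X) where
  P i := LinearMap.proj i
  J i := LinearMap.single (A k) (fun _ : ι => X.N) i
  hP i x := rfl
  hJ i x := by
    funext j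
    change (Pi.single i (X.d x) : ι → X.N) j = X.d ((Pi.single i x : ι → X.N) j)
    by_cases h : j = i
    · subst h
      rw [Pi.single_eq_same, Pi.single_eq_same]
    · rw [Pi.single_eq_of_ne h, Pi.single_eq_of_ne h, map_zero]
  hJφ i x := by
    funext j
    change w j • X.φ ((Pi.single i x : ι → X.N) j) = w i • (Pi.single i (X.φ x) : ι → X.N) j
    by_cases h : j = i
    · subst h
      rw [Pi.single_eq_same, Pi.single_eq_same]
    · rw [Pi.single_eq_of_ne h, Pi.single_eq_of_ne h, map_zero, smul_zero, smul_zero]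
  hPJ i x := by
    change (Pi.single i x : ι → X.N) i = x
    rw [Pi.single_eq_same]
  hsum x := by
    funext j
    exact congrFun (Finset.univ_sum_single (x : ι → X.N)) j

end K4

theorem tau_rows_prod (S : List (Row k q c)) (X Y : Cx k q c) (h : ((X.prod Y).rows S).FD) :
    ((X.prod Y).rows S).τ = (X.rows S).τ + (Y.rows S).τ := by
  rw [((K4.prodSys X Y).rows S).tau h, Fintype.sum_bool, one_mul, one_mul]
  rfl

theorem fin_rows_prod (S : List (Row k q c)) (X Y : Cx k q c) :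
    ((X.prod Y).rows S).FD ↔ (X.rows S).FD ∧ (Y.rows S).FD := by
  rw [((K4.prodSys X Y).rows S).fd, Bool.forall_bool, and_comm]
  rfl

theorem tau_rows_pow {ι : Type} [Fintype ι] (w : ι → k) (S : List (Row k q c)) (X : Cx k q c)
    (h : ((X.pow w).rows S).FD) :
    ((X.pow w).rows S).τ = (∑ i, w i) * (X.rows S).τ := by
  rw [((K4.powSys w X).rows S).tau h, Finset.sum_mul]

theorem fin_rows_pow {ι : Type} [Fintype ι] [Nonempty ι] (w : ι → k) (S : List (Row k q c))
    (X : Cx k q c) : ((X.pow w).rows S).FD ↔ (X.rows S).FD := by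
  rw [((K4.powSys w X).rows S).fd]
  exact forall_const ι

end Pool.Agent.Lib.MP_31c440_gt.HV
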