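import Pool.Agent.Lib.MP_31c440_gt.HV.Moy
import Pool.Agent.Lib.MP_31c440_gt.HV.K4_Prod
import Pool.Agent.Lib.MP_31c440_gt.HV.K7b_Subst
import Pool.Agent.Lib.MP_31c440_gt.HV.K8_Fin
import Pool.Agent.Lib.MP_31c440_gt.HV.K9_Node
import Pool.Agent.Lib.MP_31c440_gt.HV.K14b_TriIso

/-!
Relation (5) of Murakami, Ohtsuki and Yamada: all six rows of the three vertices are eliminated by
their b-entries, and the quotient ring splits into the part symmetric in the three strands and the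
part of the graph with one vertex and one arc.
-/

noncomputable section

namespace Pool.Agent.Lib.MP_31c440_gt.HV

open MvPolynomial

variable {k : Type} [Field k] {q c : kˣ}

namespace Tri

theorem curv_cons (r : Row k q c) (S : List (Row k q c)) : curv (r :: S) = r.a * r.b + curv S := by
  simp [curv]

theorem curv_perm {S S' : List (Row k q c)} (h : S.Perm S') : curv S = curv S' :=
  (h.map _).sum_eq

theorem curv_sub1 (x : ℕ) (w : A k) (hw : Hom q 1 w) (S : List (Row k q c)) :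
    curv (S.map (Row.sub1 x w hw)) = sub1 x w (curv S) := by
  induction S with
  | nil => simp [curv]
  | cons r S ih => rw [List.map_cons, curv_cons, curv_cons, map_add, map_mul, ih]; rfl

theorem trans1 {X Y Z : Cx k q c} (h : HIso 1 X Y) (h' : HIso 1 Y Z) : HIso 1 X Z := by
  have := h.trans h'
  rwa [mul_one] at this

theorem perm_hIso (X : Cx k q c) {S S' : List (Row k q c)} (h : S.Perm S') :
    HIso 1 (X.rows S) (X.rows S') := by
  obtain ⟨g, -⟩ := rows_perm (X := X) h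
  exact g.hIso

/-- The first row of a row operation. -/
def addB (r r' : Row k q c) (h : r.s = r'.s) : Row k q c where
  a := r.a
  b := r.b + r'.b
  s := r.s
  ha := r.ha
  hb := by rw [map_add, r.hb, r'.hb, h, smul_add]

/-- The second row of a row operation. -/
def subA (r r' : Row k q c) (h : r.s = r'.s) : Row k q c where
  a := r'.a - r.a
  b := r'.b
  s := r'.s
  ha := by rw [map_sub, smul_sub, r'.ha, ← h, r.ha, smul_sub]
  hb := r'.hb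

theorem rowop (X : Cx k q c) (r r' : Row k q c) (h : r.s = r'.s) (S : List (Row k q c)) :
    HIso 1 (X.rows (r :: r' :: S)) (X.rows (addB r r' h :: subA r r' h :: S)) := by
  obtain ⟨g, -⟩ := rowop1 (X := X) S r r' (addB r r' h) (subA r r' h) 1 rfl rfl
    (by simp [h]) (fun _ => rfl) (fun _ => by simp [addB]) (fun _ => by simp [subA])
    (fun _ => rfl)
  exact g.hIso

theorem curv_rowop (r r' : Row k q c) (h : r.s = r'.s) (S : List (Row k q c)) :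
    curv (addB r r' h :: subA r r' h :: S) = curv (r :: r' :: S) := by
  simp only [curv_cons, addB, subA]
  ring

/-- The ideal generated by `I` and the b-entries. -/
def idl (R : GR k q) (I : Ideal R.R) : List (Row k q c) → Ideal R.R
  | [] => I
  | r :: L => idl R (I ⊔ Ideal.span {R.f r.b}) L

/-- The b-entries form a regular sequence modulo `I`. -/
def Reg (R : GR k q) (I : Ideal R.R) : List (Row k q c) → Prop
  | [] => True
  | r :: L => (∀ x, R.f r.b * x ∈ I → x ∈ I) ∧ Reg R (I ⊔ Ideal.span {R.f r.b}) L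

theorem stab_row (R : GR k q) (r : Row k q c) : Stab R (Ideal.span {R.f r.b}) :=
  Stab.span_f _ ⟨_, r.hb⟩

theorem elimL (R : GR k q) (L S : List (Row k q c)) : ∀ (I : Ideal R.R) (hI : Stab R I),
    R.f (curv (L ++ S)) ∈ I → Reg R I L → ∀ hJ : Stab R (idl R I L),
    HIso 1 (((R.quot I hI).cx c).rows (L ++ S)) (((R.quot (idl R I L) hJ).cx c).rows S) := by
  induction L with
  | nil => intro I hI _ _ hJ; exact HIso.refl _
  | cons r L ih =>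
    intro I hI hc hr hJ
    have hs : Stab R (I ⊔ Ideal.span {R.f r.b}) := hI.sup (stab_row R r)
    have h1 := elimB_quot R I hI r (L ++ S) hs hc hr.1
    refine trans1 h1 (ih _ hs ?_ hr.2 hJ)
    have h2 : R.f (curv (L ++ S)) = R.f (curv (r :: (L ++ S))) - R.f r.a * R.f r.b := by
      rw [curv_cons, map_add, map_mul]; ring
    rw [h2]
    refine Ideal.sub_mem _ (Ideal.mem_sup_left hc) (Ideal.mem_sup_right ?_)
    exact Ideal.mul_mem_left _ _ (Ideal.mem_span_singleton_self _)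

/-- Elimination of the rows `L` by their b-entries. -/
theorem elimL' (R : GR k q) (L S : List (Row k q c)) (hc : curv (L ++ S) = 0)
    (hr : Reg R ⊥ L) (J : Ideal R.R) (hJ : Stab R J) (hJ' : idl R ⊥ L = J) :
    HIso 1 ((R.cx c).rows (L ++ S)) (((R.quot J hJ).cx c).rows S) := by
  subst hJ'
  obtain ⟨g, hg⟩ := quot_bot (c := c) R
  have h1 : HIso 1 ((R.cx c).rows (L ++ S)) (((R.quot ⊥ (Stab.bot R)).cx c).rows (L ++ S)) := by
    obtain ⟨g', -⟩ := rows_congr g (L ++ S) (L ++ S)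
      (List.forall₂_same.2 fun r _ => ⟨rfl, hg _ _ rfl, hg _ _ rfl⟩)
    simpa using (g'.symm one_ne_zero).hIso
  exact trans1 h1 (elimL R L S ⊥ _ (by rw [hc, map_zero]; exact Ideal.zero_mem _) hr hJ)

/-! ### the rings -/

theorem mem_lin {R : Type} [CommRing R] (a : R) (J : Ideal (Polynomial R)) (y : Polynomial R) :
    y ∈ J ⊔ Ideal.span {Polynomial.X - Polynomial.C a} ↔
      Polynomial.evalRingHom a y ∈ J.map (Polynomial.evalRingHom a) := by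
  rw [← Polynomial.ker_evalRingHom, ← Ideal.comap_map_of_surjective' _
    (fun r => ⟨Polynomial.C r, by simp⟩), Ideal.mem_comap]

theorem mem_lin_bot {R : Type} [CommRing R] (a : R) (y : Polynomial R) :
    y ∈ Ideal.span {Polynomial.X - Polynomial.C a} ↔ y.eval a = 0 := by
  rw [← Polynomial.ker_evalRingHom, RingHom.mem_ker]; rfl

theorem reg_const {R : Type} [CommRing R] [IsDomain R] (g : Polynomial R) (hg : g.Monic) (b : R)
    (hb : b ≠ 0) (x : Polynomial R) (h : Polynomial.C b * x ∈ Ideal.span {g}) :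
    x ∈ Ideal.span {g} := by
  rw [Ideal.mem_span_singleton, ← Polynomial.modByMonic_eq_zero_iff_dvd hg] at *
  rw [← Polynomial.smul_eq_C_mul, Polynomial.smul_modByMonic, smul_eq_zero] at h
  exact h.resolve_left hb


section Two

/-- `o₁ + o₂ - b` with `o₁`, `o₂` as variables -/
def p1 {R : Type} [CommRing R] (b : R) : Polynomial (Polynomial R) :=
  Polynomial.X - Polynomial.C (Polynomial.C b - Polynomial.X)

/-- `o₁ o₂ - e` with `o₁`, `o₂` as variables -/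
def p2 {R : Type} [CommRing R] (e : R) : Polynomial (Polynomial R) :=
  Polynomial.X * Polynomial.C Polynomial.X - Polynomial.C (Polynomial.C e)

theorem p2_eval {R : Type} [CommRing R] (b e : R) :
    (p2 e).eval (Polynomial.C b - Polynomial.X) =
      -(Polynomial.X ^ 2 - Polynomial.C b * Polynomial.X + Polynomial.C e) := by
  simp [p2]
  ring

theorem p2_monic {R : Type} [CommRing R] (b e : R) :
    (Polynomial.X ^ 2 - Polynomial.C b * Polynomial.X + Polynomial.C e : Polynomial R).Monic := by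
  monicity!

variable {R : Type} [CommRing R] [IsDomain R]

theorem reg1 (b : R) (x : Polynomial (Polynomial R)) (h : p1 b * x ∈ (⊥ : Ideal _)) :
    x ∈ (⊥ : Ideal (Polynomial (Polynomial R))) := by
  rw [Ideal.mem_bot, mul_eq_zero] at h
  exact h.resolve_left (Polynomial.X_sub_C_ne_zero _)

theorem reg2 (b e : R) (x : Polynomial (Polynomial R))
    (h : p2 e * x ∈ Ideal.span {p1 b}) : x ∈ Ideal.span {p1 b} := by
  rw [p1, mem_lin_bot, Polynomial.eval_mul, p2_eval, mul_eq_zero, neg_eq_zero] at h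
  rw [p1, mem_lin_bot]
  exact h.resolve_left (p2_monic _ e).ne_zero

theorem reg3 (b e : R) (t : R) (ht : t ≠ 0) (x : Polynomial (Polynomial R))
    (h : Polynomial.C (Polynomial.C t) * x ∈ Ideal.span {p1 b} ⊔ Ideal.span {p2 e}) :
    x ∈ Ideal.span {p1 b} ⊔ Ideal.span {p2 e} := by
  rw [sup_comm, p1, mem_lin, Ideal.map_span, Set.image_singleton, Polynomial.coe_evalRingHom,
    p2_eval, Ideal.span_singleton_neg] at *
  rw [Polynomial.eval_mul, Polynomial.eval_C] at h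
  exact reg_const _ (p2_monic _ e) t ht _ h

end Two

section Three

variable {R : Type} [CommRing R]

theorem map_span_C (u : R) :
    (Ideal.span {Polynomial.C u} : Ideal (Polynomial R)) = (Ideal.span {u}).map Polynomial.C := by
  rw [Ideal.map_span, Set.image_singleton]

theorem reg4 (u v i₁ i₂ o δ : R) (hu : ∀ x, u * x ∈ (⊥ : Ideal R) → x ∈ (⊥ : Ideal R))
    (hv : ∀ x, v * x ∈ Ideal.span {u} → x ∈ Ideal.span {u})
    (hδ : ∀ x, δ * x ∈ Ideal.span {u} ⊔ Ideal.span {v} → x ∈ Ideal.span {u} ⊔ Ideal.span {v})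
    (h₁ : ∀ x, (o - i₁) * x ∈ Ideal.span {u} ⊔ Ideal.span {v} →
      x ∈ Ideal.span {u} ⊔ Ideal.span {v})
    (h₂ : ∀ x, (o - i₂) * x ∈ Ideal.span {u} ⊔ Ideal.span {v} →
      x ∈ Ideal.span {u} ⊔ Ideal.span {v}) :
    (∀ x, Polynomial.C u * x ∈ (⊥ : Ideal (Polynomial R)) → x ∈ (⊥ : Ideal (Polynomial R))) ∧
    (∀ x, Polynomial.C v * x ∈ ⊥ ⊔ Ideal.span {Polynomial.C u} →
      x ∈ ⊥ ⊔ Ideal.span {Polynomial.C u}) ∧
    (∀ x, -((Polynomial.X - Polynomial.C i₁) * (Polynomial.X - Polynomial.C i₂)) * x ∈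
      ⊥ ⊔ Ideal.span {Polynomial.C u} ⊔ Ideal.span {Polynomial.C v} →
      x ∈ ⊥ ⊔ Ideal.span {Polynomial.C u} ⊔ Ideal.span {Polynomial.C v}) ∧
    (∀ x, -(Polynomial.C δ * (Polynomial.X - Polynomial.C o)) * x ∈
      ⊥ ⊔ Ideal.span {Polynomial.C u} ⊔ Ideal.span {Polynomial.C v} ⊔
      Ideal.span {-((Polynomial.X - Polynomial.C i₁) * (Polynomial.X - Polynomial.C i₂))} →
      x ∈ ⊥ ⊔ Ideal.span {Polynomial.C u} ⊔ Ideal.span {Polynomial.C v} ⊔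
      Ideal.span {-((Polynomial.X - Polynomial.C i₁) * (Polynomial.X - Polynomial.C i₂))}) := by
  simp only [bot_sup_eq, map_span_C, ← Ideal.map_sup, Ideal.span_singleton_neg]
  refine ⟨?_, ?_, ?_, ?_⟩
  · intro x hx
    have := coeff_reg ⊥ u hu x (by rwa [Ideal.map_bot])
    rwa [Ideal.map_bot] at this
  · intro x hx
    exact coeff_reg _ v hv x hx
  · intro x hx
    refine monic_reg _ (-((Polynomial.X - Polynomial.C i₁) * (Polynomial.X - Polynomial.C i₂)))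
      ?_ x hx
    rw [Polynomial.leadingCoeff_neg,
      ((Polynomial.monic_X_sub_C i₁).mul (Polynomial.monic_X_sub_C i₂)).leadingCoeff]
    exact isUnit_one.neg
  · intro x hx
    refine tri_reg _ i₁ i₂ o δ hδ h₁ h₂ x ?_
    rw [neg_mul] at hx
    exact (Ideal.neg_mem_iff _).1 hx

end Three

section Elim

theorem poly_self (R : GR k q) (x : ℕ) : (R.poly x).f (X x) = Polynomial.X := by simp

theorem poly_ne (R : GR k q) {x v : ℕ} (h : v ≠ x) :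
    (R.poly x).f (X v) = Polynomial.C (R.f (X v)) := by simp [h]

/-- The ring with two more variables. -/
abbrev two (R : GR k q) (o₁ o₂ : ℕ) : GR k q := (R.poly o₂).poly o₁

theorem two_fst (R : GR k q) (o₁ o₂ : ℕ) : (two R o₁ o₂).f (X o₁) = Polynomial.X :=
  poly_self _ _

theorem two_snd (R : GR k q) {o₁ o₂ : ℕ} (h : o₂ ≠ o₁) :
    (two R o₁ o₂).f (X o₂) = Polynomial.C Polynomial.X := by
  change ((R.poly o₂).poly o₁).f (X o₂) = _
  rw [poly_ne _ h, poly_self]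

theorem two_ne (R : GR k q) {o₁ o₂ v : ℕ} (h : v ≠ o₁) (h' : v ≠ o₂) :
    (two R o₁ o₂).f (X v) = Polynomial.C (Polynomial.C (R.f (X v))) := by
  change ((R.poly o₂).poly o₁).f (X v) = _
  rw [poly_ne _ h, poly_ne _ h']

variable (R : GR k q) (i₁ i₂ i₃ o₁ o₂ o₃ p : ℕ)

/-- The ideal of the first two relations. -/
def idI : Ideal (two R o₁ o₂).R :=
  Ideal.span {p1 (R.f (X i₁) + R.f (X i₂) + R.f (X i₃) - R.f (X o₃))} ⊔
    Ideal.span {p2 (R.f (X i₁) * R.f (X i₂) -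
      (R.f (X i₃) - R.f (X o₃)) * (R.f (X o₃) - R.f (X i₁) - R.f (X i₂)))}

/-- The ideal after four eliminations. -/
def idJ : Ideal ((two R o₁ o₂).poly p).R :=
  (idI R i₁ i₂ i₃ o₁ o₂ o₃).map Polynomial.C ⊔
      Ideal.span {(Polynomial.X - Polynomial.C ((two R o₁ o₂).f (X i₁))) *
        (Polynomial.X - Polynomial.C ((two R o₁ o₂).f (X i₂)))} ⊔
      Ideal.span {Polynomial.C ((two R o₁ o₂).f (X i₃) - (two R o₁ o₂).f (X o₃)) *
        (Polynomial.X - Polynomial.C ((two R o₁ o₂).f (X o₃)))}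

theorem tri_elim [IsDomain R.R] (hl : [i₁, i₂, i₃, o₁, o₂, o₃, p].Nodup)
    (hδ : R.f (X i₃) ≠ R.f (X o₃)) (h₁ : R.f (X o₃) ≠ R.f (X i₁)) (h₂ : R.f (X o₃) ≠ R.f (X i₂))
    (rA rB rC rD : Row k q c) (S : List (Row k q c)) (hBC : rB.s = rC.s) (hBD : rB.s = rD.s)
    (hA : rA.b = X o₁ + X o₂ + X o₃ - (X i₁ + X i₂ + X i₃))
    (hB : rB.b = X o₁ * X o₂ - (X i₁ + X i₂ - X p) * (X p + X i₃ - X o₃))
    (hC : rC.b = (X i₁ + X i₂ - X p) * X p - X i₁ * X i₂)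
    (hD : rD.b = (X p + X i₃ - X o₃) * X o₃ - X p * X i₃)
    (hc : curv (rA :: rB :: rC :: rD :: S) = 0)
    (hJ : Stab ((two R o₁ o₂).poly p) (idJ R i₁ i₂ i₃ o₁ o₂ o₃ p)) :
    HIso 1 ((((two R o₁ o₂).poly p).cx c).rows (rA :: rB :: rC :: rD :: S))
      (((((two R o₁ o₂).poly p).quot (idJ R i₁ i₂ i₃ o₁ o₂ o₃ p) hJ).cx c).rows S) := by
  simp only [List.nodup_cons, List.mem_cons, List.not_mem_nil, or_false, not_or, List.nodup_nil,
    not_false_eq_true, and_true] at hl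
  obtain ⟨⟨n12, n13, n14, n15, n16, n17⟩, ⟨n23, n24, n25, n26, n27⟩, ⟨n34, n35, n36, n37⟩,
    ⟨n45, n46, n47⟩, ⟨n56, n57⟩, n67⟩ := hl
  -- the row operations
  have t1 := perm_hIso (((two R o₁ o₂).poly p).cx c)
    (S := rA :: rB :: rC :: rD :: S) (S' := rB :: rC :: rA :: rD :: S)
    ((List.Perm.swap rB rA _).trans (List.Perm.cons _ (List.Perm.swap rC rA _)))
  have t2 := rowop (((two R o₁ o₂).poly p).cx c) rB rC hBC (rA :: rD :: S)
  obtain ⟨rB', eB'⟩ : ∃ r, r = addB rB rC hBC := ⟨_, rfl⟩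
  obtain ⟨rC', eC'⟩ : ∃ r, r = subA rB rC hBC := ⟨_, rfl⟩
  rw [← eB', ← eC'] at t2
  have hBD' : rB'.s = rD.s := by rw [eB']; exact hBD
  have t3 := perm_hIso (((two R o₁ o₂).poly p).cx c)
    (S := rB' :: rC' :: rA :: rD :: S) (S' := rB' :: rD :: rA :: rC' :: S)
    (List.Perm.cons _ ((List.Perm.swap rA rC' _).trans
      ((List.Perm.cons _ (List.Perm.swap rD rC' _)).trans (List.Perm.swap rD rA _))))
  have t4 := rowop (((two R o₁ o₂).poly p).cx c) rB' rD hBD' (rA :: rC' :: S)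
  obtain ⟨rB'', eB''⟩ : ∃ r, r = addB rB' rD hBD' := ⟨_, rfl⟩
  obtain ⟨rD', eD'⟩ : ∃ r, r = subA rB' rD hBD' := ⟨_, rfl⟩
  rw [← eB'', ← eD'] at t4
  have hP : (rB'' :: rD' :: rA :: rC' :: S).Perm (rA :: rB'' :: rC' :: rD' :: S) :=
    (List.Perm.cons _ (List.Perm.swap rA rD' _)).trans ((List.Perm.swap rA rB'' _).trans
      (List.Perm.cons _ (List.Perm.cons _ (List.Perm.swap rC' rD' _))))
  have t5 := perm_hIso (((two R o₁ o₂).poly p).cx c) hP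
  refine trans1 t1 (trans1 t2 (trans1 t3 (trans1 t4 (trans1 t5 ?_))))
  have hcv : curv (rA :: rB'' :: rC' :: rD' :: S) = 0 := by
    rw [← curv_perm hP, eB'', eD', curv_rowop, ← hc, eB', eC']
    simp only [curv_cons, addB, subA]
    ring
  have bB : rB''.b = X o₁ * X o₂ -
      (X i₁ * X i₂ - (X i₃ - X o₃) * (X o₃ - X i₁ - X i₂)) := by
    have b1 : rB'.b = rB.b + rC.b := by rw [eB']; rfl
    have b2 : rB''.b = rB'.b + rD.b := by rw [eB'']; rfl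
    rw [b2, b1, hB, hC, hD]
    ring
  have bC : rC'.b = (X i₁ + X i₂ - X p) * X p - X i₁ * X i₂ := by
    rw [eC']; exact hC
  have bD : rD'.b = (X p + X i₃ - X o₃) * X o₃ - X p * X i₃ := by
    rw [eD']; exact hD
  have g1 := two_ne R n14 n15
  have g2 := two_ne R n24 n25
  have g3 := two_ne R n34 n35
  have g6 := two_ne R (Ne.symm n46) (Ne.symm n56)
  have f1 := poly_ne (two R o₁ o₂) n17
  have f2 := poly_ne (two R o₁ o₂) n27
  have f3 := poly_ne (two R o₁ o₂) n37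
  have f4 := poly_ne (two R o₁ o₂) n47
  have f5 := poly_ne (two R o₁ o₂) n57
  have f6 := poly_ne (two R o₁ o₂) n67
  have f7 := poly_self (two R o₁ o₂) p
  rw [two_fst] at f4
  rw [two_snd R (Ne.symm n45)] at f5
  obtain ⟨F, hF⟩ : ∃ F : A k →ₐ[k] ((two R o₁ o₂).poly p).R, F = ((two R o₁ o₂).poly p).f :=
    ⟨_, rfl⟩
  obtain ⟨G, hG⟩ : ∃ G : A k →ₐ[k] (two R o₁ o₂).R, G = (two R o₁ o₂).f := ⟨_, rfl⟩
  rw [← hF] at f1 f2 f3 f4 f5 f6 f7
  rw [← hG] at f1 f2 f3 f6 g1 g2 g3 g6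
  have fA : F rA.b =
      Polynomial.C (p1 (R.f (X i₁) + R.f (X i₂) + R.f (X i₃) - R.f (X o₃))) := by
    rw [hA]
    simp only [map_sub, map_add, f1, f2, f3, f4, f5, f6, g1, g2, g3, g6, p1]
    ring
  have fB : F rB''.b =
      Polynomial.C (p2 (R.f (X i₁) * R.f (X i₂) -
        (R.f (X i₃) - R.f (X o₃)) * (R.f (X o₃) - R.f (X i₁) - R.f (X i₂)))) := by
    rw [bB]
    simp only [map_sub, map_mul, f1, f2, f3, f4, f5, f6, g1, g2, g3, g6, p2]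
  have fC : F rC'.b =
      -((Polynomial.X - Polynomial.C (G (X i₁))) * (Polynomial.X - Polynomial.C (G (X i₂)))) := by
    rw [bC]
    simp only [map_sub, map_add, map_mul, f1, f2, f7]
    ring
  have fD : F rD'.b =
      -(Polynomial.C (G (X i₃) - G (X o₃)) * (Polynomial.X - Polynomial.C (G (X o₃)))) := by
    rw [bD]
    simp only [map_sub, map_add, map_mul, f3, f6, f7]
    ring
  rw [hF] at fA fB fC fD
  refine elimL' _ [rA, rB'', rC', rD'] S hcv ?_ _ hJ ?_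
  · simp only [Reg, fA, fB, fC, fD, and_true]
    refine reg4 _ _ _ _ _ _ (reg1 _) (reg2 _ _) ?_ ?_ ?_
    · intro x hx
      rw [g3, g6, ← Polynomial.C_sub, ← Polynomial.C_sub] at hx
      exact reg3 _ _ _ (sub_ne_zero.2 hδ) x hx
    · intro x hx
      rw [g1, g6, ← Polynomial.C_sub, ← Polynomial.C_sub] at hx
      exact reg3 _ _ _ (sub_ne_zero.2 h₁) x hx
    · intro x hx
      rw [g2, g6, ← Polynomial.C_sub, ← Polynomial.C_sub] at hx
      exact reg3 _ _ _ (sub_ne_zero.2 h₂) x hx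
  · simp only [idl, fA, fB, fC, fD, idJ, idI, hG, bot_sup_eq, Ideal.span_singleton_neg,
      map_span_C, Ideal.map_sup]

theorem mem3 {T : Type} [CommRing T] {u v t x : T} (a b e : T) (h : x = a * u + b * v + e * t) :
    x ∈ Ideal.span {u} ⊔ Ideal.span {v} ⊔ Ideal.span {t} := by
  rw [h]
  refine Ideal.add_mem _ (Ideal.add_mem _ ?_ ?_) ?_
  · exact Ideal.mem_sup_left (Ideal.mem_sup_left
      (Ideal.mul_mem_left _ _ (Ideal.mem_span_singleton_self _)))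
  · exact Ideal.mem_sup_left (Ideal.mem_sup_right
      (Ideal.mul_mem_left _ _ (Ideal.mem_span_singleton_self _)))
  · exact Ideal.mem_sup_right (Ideal.mul_mem_left _ _ (Ideal.mem_span_singleton_self _))

theorem eq3 {T : Type} [CommRing T] {u v t u' v' t' : T}
    (h1 : u ∈ Ideal.span {u'} ⊔ Ideal.span {v'} ⊔ Ideal.span {t'})
    (h2 : v ∈ Ideal.span {u'} ⊔ Ideal.span {v'} ⊔ Ideal.span {t'})
    (h3 : t ∈ Ideal.span {u'} ⊔ Ideal.span {v'} ⊔ Ideal.span {t'})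
    (h1' : u' ∈ Ideal.span {u} ⊔ Ideal.span {v} ⊔ Ideal.span {t})
    (h2' : v' ∈ Ideal.span {u} ⊔ Ideal.span {v} ⊔ Ideal.span {t})
    (h3' : t' ∈ Ideal.span {u} ⊔ Ideal.span {v} ⊔ Ideal.span {t}) :
    Ideal.span {u} ⊔ Ideal.span {v} ⊔ Ideal.span {t} =
      Ideal.span {u'} ⊔ Ideal.span {v'} ⊔ Ideal.span {t'} := by
  refine le_antisymm (sup_le (sup_le ?_ ?_) ?_) (sup_le (sup_le ?_ ?_) ?_) <;>
    rw [Ideal.span_singleton_le_iff_mem] <;> assumption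

/-- The ideal for the graph with a vertex and an arc. -/
def idD : Ideal (two R o₁ o₂).R :=
  idI R i₁ i₂ i₃ o₁ o₂ o₃ ⊔ Ideal.span {(two R o₁ o₂).f (X i₃) - (two R o₁ o₂).f (X o₃)}

theorem va_elim [IsDomain R.R] (hl : [i₁, i₂, i₃, o₁, o₂, o₃].Nodup)
    (hδ : R.f (X i₃) ≠ R.f (X o₃)) (rA rB rC : Row k q c) (S : List (Row k q c))
    (hA : rA.b = X o₁ + X o₂ - (X i₁ + X i₂)) (hB : rB.b = X o₁ * X o₂ - X i₁ * X i₂)
    (hC : rC.b = X o₃ - X i₃) (hc : curv (rA :: rB :: rC :: S) = 0)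
    (hJ : Stab (two R o₁ o₂) (idD R i₁ i₂ i₃ o₁ o₂ o₃)) :
    HIso 1 (((two R o₁ o₂).cx c).rows (rA :: rB :: rC :: S))
      ((((two R o₁ o₂).quot (idD R i₁ i₂ i₃ o₁ o₂ o₃) hJ).cx c).rows S) := by
  simp only [List.nodup_cons, List.mem_cons, List.not_mem_nil, or_false, not_or, List.nodup_nil,
    not_false_eq_true, and_true] at hl
  obtain ⟨⟨n12, n13, n14, n15, n16⟩, ⟨n23, n24, n25, n26⟩, ⟨n34, n35, n36⟩,
    ⟨n45, n46⟩, n56⟩ := hl
  have g1 := two_ne R n14 n15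
  have g2 := two_ne R n24 n25
  have g3 := two_ne R n34 n35
  have g6 := two_ne R (Ne.symm n46) (Ne.symm n56)
  have g4 := two_fst R o₁ o₂
  have g5 := two_snd R (Ne.symm n45)
  obtain ⟨G, hG⟩ : ∃ G : A k →ₐ[k] (two R o₁ o₂).R, G = (two R o₁ o₂).f := ⟨_, rfl⟩
  rw [← hG] at g1 g2 g3 g4 g5 g6
  have fA : G rA.b = p1 (R.f (X i₁) + R.f (X i₂)) := by
    rw [hA]
    simp only [map_sub, map_add, g1, g2, g4, g5, p1]
    ring
  have fB : G rB.b = p2 (R.f (X i₁) * R.f (X i₂)) := by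
    rw [hB]
    simp only [map_sub, map_mul, g1, g2, g4, g5, p2]
  have fC : G rC.b = Polynomial.C (Polynomial.C (R.f (X o₃) - R.f (X i₃))) := by
    rw [hC]
    simp only [map_sub, g3, g6]
  rw [hG] at fA fB fC
  refine elimL' _ [rA, rB, rC] S hc ?_ _ hJ ?_
  · simp only [Reg, fA, fB, fC, and_true, bot_sup_eq]
    exact ⟨reg1 _, reg2 _ _, reg3 _ _ _ (sub_ne_zero.2 hδ.symm)⟩
  · simp only [idl, fA, fB, fC, bot_sup_eq, idD, idI]
    rw [hG] at g3 g6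
    rw [g3, g6]
    have e1 : p1 (R.f (X i₁) + R.f (X i₂)) =
        1 * p1 (R.f (X i₁) + R.f (X i₂) + R.f (X i₃) - R.f (X o₃)) +
        0 * p2 (R.f (X i₁) * R.f (X i₂) -
          (R.f (X i₃) - R.f (X o₃)) * (R.f (X o₃) - R.f (X i₁) - R.f (X i₂))) +
        1 * (Polynomial.C (Polynomial.C (R.f (X i₃))) - Polynomial.C (Polynomial.C (R.f (X o₃)))) := by
      simp only [p1, map_sub, map_add]
      ring
    have e2 : p2 (R.f (X i₁) * R.f (X i₂)) =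
        0 * p1 (R.f (X i₁) + R.f (X i₂) + R.f (X i₃) - R.f (X o₃)) +
        1 * p2 (R.f (X i₁) * R.f (X i₂) -
          (R.f (X i₃) - R.f (X o₃)) * (R.f (X o₃) - R.f (X i₁) - R.f (X i₂))) +
        (-Polynomial.C (Polynomial.C (R.f (X o₃) - R.f (X i₁) - R.f (X i₂)))) *
        (Polynomial.C (Polynomial.C (R.f (X i₃))) - Polynomial.C (Polynomial.C (R.f (X o₃)))) := by
      simp only [p2, map_sub, map_mul]
      ring
    have e3 : Polynomial.C (Polynomial.C (R.f (X o₃) - R.f (X i₃))) =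
        0 * p1 (R.f (X i₁) + R.f (X i₂) + R.f (X i₃) - R.f (X o₃)) +
        0 * p2 (R.f (X i₁) * R.f (X i₂) -
          (R.f (X i₃) - R.f (X o₃)) * (R.f (X o₃) - R.f (X i₁) - R.f (X i₂))) +
        (-1) *
        (Polynomial.C (Polynomial.C (R.f (X i₃))) - Polynomial.C (Polynomial.C (R.f (X o₃)))) := by
      simp only [map_sub]
      ring
    refine eq3 (mem3 _ _ _ e1) (mem3 _ _ _ e2) (mem3 _ _ _ e3)
      (mem3 1 0 1 ?_) (mem3 0 1 (-Polynomial.C (Polynomial.C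
        (R.f (X o₃) - R.f (X i₁) - R.f (X i₂)))) ?_) (mem3 0 0 (-1) ?_)
    · simp only [p1, map_sub, map_add]
      ring
    · simp only [p2, map_sub, map_mul]
      ring
    · simp only [map_sub]
      ring

theorem σ_var (R : GR k q) (v : ℕ) : R.σ (R.f (X v)) = ((q : k) ^ 2) • R.f (X v) := by
  rw [R.hσ, GR.scl_X, map_mul, ← MvPolynomial.algebraMap_eq, AlgHom.commutes, Algebra.smul_def]

theorem tri_tau
    (S : List (Row k q c))
    (hS : ∀ r ∈ S, ((two R o₁ o₂).poly p).f r.a = Polynomial.C ((two R o₁ o₂).f r.a) ∧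
      ((two R o₁ o₂).poly p).f r.b = Polynomial.C ((two R o₁ o₂).f r.b))
    (hJ : Stab ((two R o₁ o₂).poly p) (idJ R i₁ i₂ i₃ o₁ o₂ o₃ p))
    (h1 : Stab (two R o₁ o₂) (idI R i₁ i₂ i₃ o₁ o₂ o₃ ⊔
      Ideal.span {((two R o₁ o₂).f (X i₃) - (two R o₁ o₂).f (X o₃)) *
        (((two R o₁ o₂).f (X o₃) - (two R o₁ o₂).f (X i₁)) *
          ((two R o₁ o₂).f (X o₃) - (two R o₁ o₂).f (X i₂)))}))
    (h2 : Stab (two R o₁ o₂) (idD R i₁ i₂ i₃ o₁ o₂ o₃))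
    (hF : (((((two R o₁ o₂).poly p).quot (idJ R i₁ i₂ i₃ o₁ o₂ o₃ p) hJ).cx c).rows S).FD) :
    (((((two R o₁ o₂).poly p).quot (idJ R i₁ i₂ i₃ o₁ o₂ o₃ p) hJ).cx c).rows S).τ =
      ((((two R o₁ o₂).quot _ h1).cx c).rows S).τ +
      ((q : k) ^ 2) * ((((two R o₁ o₂).quot _ h2).cx c).rows S).τ := by
  obtain ⟨e, he⟩ := tri_iso (c := c) (two R o₁ o₂) p (idI R i₁ i₂ i₃ o₁ o₂ o₃)
    ((two R o₁ o₂).f (X i₁)) ((two R o₁ o₂).f (X i₂)) ((two R o₁ o₂).f (X o₃))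
    ((two R o₁ o₂).f (X i₃) - (two R o₁ o₂).f (X o₃)) (σ_var _ _) (σ_var _ _) (σ_var _ _)
    hJ h1 h2
  obtain ⟨g, -⟩ := rows_congr e S S
    (List.forall₂_same.2 fun r hr => ⟨rfl, he _ _ (hS r hr).1, he _ _ (hS r hr).2⟩)
  have h3 := g.hIso
  have h4 := h3.fin.1 hF
  have h5 := (fin_rows_prod _ _ _).1 h4
  have h6 := h3.tau
  rw [one_mul] at h6
  refine h6.trans ?_
  rw [tau_rows_prod _ _ _ h4, tau_rows_pow _ _ _ h5.2, Fintype.sum_unique]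
  rfl

end Elim

section Base

theorem base_ne (l : List ℕ) (i j : ℕ) (hi : i ∈ l) (hij : i ≠ j) :
    (GR.base k q l).f (X i) ≠ (GR.base k q l).f (X j) := by
  induction l with
  | nil => simp at hi
  | cons x l ih =>
    have hn : Nontrivial (GR.base k q l).R := (base_domain l).toNontrivial
    change ((GR.base k q l).poly x).f (X i) ≠ ((GR.base k q l).poly x).f (X j)
    have hX : ∀ r : (GR.base k q l).R, (Polynomial.X : Polynomial (GR.base k q l).R) ≠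
        Polynomial.C r := by
      intro r h
      have := congrArg (fun p => Polynomial.coeff p 1) h
      simp at this
    by_cases hx : i = x
    · subst hx
      rw [poly_self, poly_ne _ hij.symm]
      exact hX _
    · rw [poly_ne _ hx]
      by_cases hj : j = x
      · subst hj
        rw [poly_self]
        exact (hX _).symm
      · rw [poly_ne _ hj]
        intro h
        exact ih ((List.mem_cons.1 hi).resolve_left hx) (Polynomial.C_injective h)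

theorem rows_base {l l' : List ℕ} (h : l.Perm l') (hl : l.Nodup) (S : List (Row k q c)) :
    HIso 1 (((GR.base k q l).cx c).rows S) (((GR.base k q l').cx c).rows S) := by
  obtain ⟨e, he, he'⟩ := base_perm (k := k) (q := q) h hl
  obtain ⟨g, hg⟩ := cx_iso (c := c) _ _ e he
  obtain ⟨g', -⟩ := rows_congr g S S
    (List.forall₂_same.2 fun r _ => ⟨rfl, hg _ _ (he' _), hg _ _ (he' _)⟩)
  exact g'.hIso

/-- The first relation. -/
def s1 (i₁ i₂ i₃ o₁ o₂ o₃ : ℕ) : A k := X o₁ + X o₂ + X o₃ - (X i₁ + X i₂ + X i₃)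

/-- The second relation. -/
def s2 (i₁ i₂ i₃ o₁ o₂ o₃ : ℕ) : A k :=
  X o₁ * X o₂ + X o₁ * X o₃ + X o₂ * X o₃ - (X i₁ * X i₂ + X i₁ * X i₃ + X i₂ * X i₃)

/-- The third relation. -/
def s3 (i₁ i₂ i₃ o₁ o₂ o₃ : ℕ) : A k := X o₁ * X o₂ * X o₃ - X i₁ * X i₂ * X i₃

/-- The symmetric ideal. -/
def symI (R : GR k q) (i₁ i₂ i₃ o₁ o₂ o₃ : ℕ) : Ideal R.R :=
  Ideal.span {R.f (s1 i₁ i₂ i₃ o₁ o₂ o₃)} ⊔ Ideal.span {R.f (s2 i₁ i₂ i₃ o₁ o₂ o₃)} ⊔
    Ideal.span {R.f (s3 i₁ i₂ i₃ o₁ o₂ o₃)}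

theorem symI_stab (R : GR k q) (i₁ i₂ i₃ o₁ o₂ o₃ : ℕ) :
    Stab R (symI R i₁ i₂ i₃ o₁ o₂ o₃) := by
  have hv : ∀ v, Hom q 1 (X v : A k) := Hom.var
  refine ((Stab.span_f _ ⟨(q : k) ^ (2 * 1), ?_⟩).sup (Stab.span_f _ ⟨(q : k) ^ (2 * 2), ?_⟩)).sup
    (Stab.span_f _ ⟨(q : k) ^ (2 * 3), ?_⟩)
  · exact (((hv o₁).add (hv o₂)).add (hv o₃)).sub (((hv i₁).add (hv i₂)).add (hv i₃))
  · exact ((((hv o₁).mul (hv o₂)).add ((hv o₁).mul (hv o₃))).add ((hv o₂).mul (hv o₃))).sub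
      ((((hv i₁).mul (hv i₂)).add ((hv i₁).mul (hv i₃))).add ((hv i₂).mul (hv i₃)))
  · exact (((hv o₁).mul (hv o₂)).mul (hv o₃)).sub (((hv i₁).mul (hv i₂)).mul (hv i₃))

theorem quot_transport (R R' : GR k q) (e : R.R ≃ₐ[k] R'.R) (hσ : ∀ x, e (R.σ x) = R'.σ (e x))
    (hf : ∀ p, e (R.f p) = R'.f p) (I : Ideal R.R) (I' : Ideal R'.R) (hI : Stab R I)
    (hI' : Stab R' I') (hII : I' = I.map (e : R.R →+* R'.R)) (S : List (Row k q c)) :
    HIso 1 (((R.quot I hI).cx c).rows S) (((R'.quot I' hI').cx c).rows S) := by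
  obtain ⟨g, hg⟩ := cx_iso (c := c) (R.quot I hI) (R'.quot I' hI')
    (Ideal.quotientEquivAlg I I' e hII) (by
      intro x
      obtain ⟨x, rfl⟩ := Ideal.Quotient.mk_surjective x
      change Ideal.Quotient.mk I' (e (R.σ x)) = Ideal.Quotient.mk I' (R'.σ (e x))
      rw [hσ])
  obtain ⟨g', -⟩ := rows_congr g S S
    (List.forall₂_same.2 fun r _ => ⟨rfl, hg _ _ (congrArg (Ideal.Quotient.mk I') (hf _)),
      hg _ _ (congrArg (Ideal.Quotient.mk I') (hf _))⟩)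
  exact g'.hIso

theorem sym_transport {l l' : List ℕ} (h : l.Perm l') (hl : l.Nodup) (i₁ i₂ i₃ o₁ o₂ o₃ : ℕ)
    (S : List (Row k q c)) :
    HIso 1 ((((GR.base k q l).quot _ (symI_stab _ i₁ i₂ i₃ o₁ o₂ o₃)).cx c).rows S)
      ((((GR.base k q l').quot _ (symI_stab _ i₁ i₂ i₃ o₁ o₂ o₃)).cx c).rows S) := by
  obtain ⟨e, he, he'⟩ := base_perm (k := k) (q := q) h hl
  refine quot_transport _ _ e he he' _ _ _ _ ?_ S
  have he'' : ∀ p, (e : (GR.base k q l).R →+* (GR.base k q l').R) ((GR.base k q l).f p) =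
    (GR.base k q l').f p := he'
  simp only [symI, Ideal.map_sup, Ideal.map_span, Set.image_singleton, he'']

theorem sym_eq (R : GR k q) (i₁ i₂ i₃ o₁ o₂ o₃ : ℕ) (hl : [i₁, i₂, i₃, o₁, o₂, o₃].Nodup) :
    idI R i₁ i₂ i₃ o₁ o₂ o₃ ⊔
      Ideal.span {((two R o₁ o₂).f (X i₃) - (two R o₁ o₂).f (X o₃)) *
        (((two R o₁ o₂).f (X o₃) - (two R o₁ o₂).f (X i₁)) *
          ((two R o₁ o₂).f (X o₃) - (two R o₁ o₂).f (X i₂)))} =
    symI (two R o₁ o₂) i₁ i₂ i₃ o₁ o₂ o₃ := by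
  simp only [List.nodup_cons, List.mem_cons, List.not_mem_nil, or_false, not_or, List.nodup_nil,
    not_false_eq_true, and_true] at hl
  obtain ⟨⟨n12, n13, n14, n15, n16⟩, ⟨n23, n24, n25, n26⟩, ⟨n34, n35, n36⟩,
    ⟨n45, n46⟩, n56⟩ := hl
  have g1 := two_ne R n14 n15
  have g2 := two_ne R n24 n25
  have g3 := two_ne R n34 n35
  have g6 := two_ne R (Ne.symm n46) (Ne.symm n56)
  have g4 := two_fst R o₁ o₂
  have g5 := two_snd R (Ne.symm n45)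
  rw [idI, symI]
  obtain ⟨G, hG⟩ : ∃ G : A k →ₐ[k] (two R o₁ o₂).R, G = (two R o₁ o₂).f := ⟨_, rfl⟩
  rw [← hG] at g1 g2 g3 g4 g5 g6 ⊢
  have e1 : G (s1 i₁ i₂ i₃ o₁ o₂ o₃) =
      p1 (R.f (X i₁) + R.f (X i₂) + R.f (X i₃) - R.f (X o₃)) := by
    simp only [s1, p1, map_add, map_sub, g1, g2, g3, g4, g5, g6]
    ring
  have e2 : G (s2 i₁ i₂ i₃ o₁ o₂ o₃) =
      G (X o₃) * p1 (R.f (X i₁) + R.f (X i₂) + R.f (X i₃) - R.f (X o₃)) +
      p2 (R.f (X i₁) * R.f (X i₂) -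
        (R.f (X i₃) - R.f (X o₃)) * (R.f (X o₃) - R.f (X i₁) - R.f (X i₂))) := by
    simp only [s2, p1, p2, map_add, map_sub, map_mul, g1, g2, g3, g4, g5, g6]
    ring
  have e3 : G (s3 i₁ i₂ i₃ o₁ o₂ o₃) =
      -((G (X i₃) - G (X o₃)) * ((G (X o₃) - G (X i₁)) * (G (X o₃) - G (X i₂)))) +
      G (X o₃) * G (s2 i₁ i₂ i₃ o₁ o₂ o₃) - G (X o₃) ^ 2 * G (s1 i₁ i₂ i₃ o₁ o₂ o₃) := by
    simp only [s1, s2, s3, map_add, map_sub, map_mul]
    ring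
  refine eq3 (mem3 1 0 0 ?_) (mem3 (-G (X o₃)) 1 0 ?_) (mem3 (-G (X o₃) ^ 2) (G (X o₃)) (-1) ?_)
    (mem3 1 0 0 ?_) (mem3 (G (X o₃)) 1 0 ?_) (mem3 0 (G (X o₃)) (-1) ?_)
  · rw [e1]; ring
  · rw [e2, e1]; ring
  · rw [e3]; ring
  · rw [e1]; ring
  · rw [e2]; ring
  · rw [e3, e2, e1]; ring

end Base

section Graph

theorem f_w (R : GR k q) {x a b e : ℕ} (ha : a ≠ x) (hb : b ≠ x) (he : e ≠ x) :
    (R.poly x).f (X a + X b - X e) = Polynomial.C (R.f (X a + X b - X e)) := by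
  rw [map_sub, map_add, poly_ne _ ha, poly_ne _ hb, poly_ne _ he, map_sub, map_add, map_sub,
    map_add]

theorem lin_b (R : GR k q) (x : ℕ) (w b : A k) (hx : (R.poly x).f w = Polynomial.C (R.f w))
    (hb : b = X x - w) :
    (R.poly x).f b = (1 : k) • (Polynomial.X - Polynomial.C (R.f w)) := by
  rw [hb, map_sub, poly_self, hx, one_smul]

theorem curv_after (x : ℕ) (w : A k) (hw : Hom q 1 w) (r : Row k q c) (S : List (Row k q c))
    (hr : sub1 x w r.b = 0) (hc : curv (r :: S) = 0) :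
    curv (S.map (Row.sub1 x w hw)) = 0 := by
  rw [curv_sub1]
  have h : curv S = -(r.a * r.b) := by
    rw [curv_cons] at hc
    linear_combination hc
  rw [h, map_neg, map_mul, hr, mul_zero, neg_zero]

theorem sub1_self (x : ℕ) (w : A k) : sub1 x w (X x) = w := by simp [sub1]

theorem sub1_ne {x v : ℕ} (h : v ≠ x) (w : A k) : sub1 x w (X v) = X v := by simp [sub1, h]

theorem mem_out {i₁ i₂ i₃ o₁ o₂ o₃ x₁ x₂ x₃ : ℕ} {S : List GNode}
    (h : Closed (triL i₁ i₂ i₃ o₁ o₂ o₃ x₁ x₂ x₃ ++ S)) (v : ℕ) (hv : v = o₁ ∨ v = o₂ ∨ v = o₃)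
    (h1 : v ≠ i₁) (h2 : v ≠ i₂) (h3 : v ≠ i₃) (h4 : v ≠ x₁) (h5 : v ≠ x₂) (h6 : v ≠ x₃) :
    v ∈ insG S := by
  have h7 : v ∈ outsG (triL i₁ i₂ i₃ o₁ o₂ o₃ x₁ x₂ x₃ ++ S) := by
    simp only [triL, outsG, List.cons_append, List.nil_append, List.flatMap_cons, GNode.outs,
      List.mem_cons]
    tauto
  have h8 := h.2.mem_iff.2 h7
  simp only [triL, insG, List.cons_append, List.nil_append, List.flatMap_cons, GNode.ins,
    List.mem_cons] at h8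
  tauto

theorem perm6 {α : Type} (r1 r2 r3 r4 r5 r6 : α) (l : List α) :
    (r1 :: r2 :: r3 :: r4 :: r5 :: r6 :: l).Perm (r1 :: r3 :: r5 :: r6 :: r2 :: r4 :: l) := by
  classical
  rw [List.perm_iff_count]
  intro a
  simp only [List.count_cons]
  ring

theorem base_step (l : List ℕ) (x a b e : ℕ) (ha : a ≠ x) (hb : b ≠ x) (he : e ≠ x)
    (hw : Hom q 1 (X a + X b - X e : A k)) (r : Row k q c) (S : List (Row k q c))
    (hr : r.b = X x - (X a + X b - X e)) (hc : curv (r :: S) = 0) :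
    HIso 1 (((GR.base k q (x :: l)).cx c).rows (r :: S))
      (((GR.base k q l).cx c).rows (S.map (Row.sub1 x (X a + X b - X e) hw))) ∧
    curv (S.map (Row.sub1 x (X a + X b - X e) hw)) = 0 := by
  refine ⟨?_, ?_⟩
  · change HIso 1 ((((GR.base k q l).poly x).cx c).rows (r :: S)) _
    exact elim_subst (GR.base k q l) x _ hw (f_w _ ha hb he) r S 1 one_ne_zero
      (lin_b _ _ _ _ (f_w _ ha hb he) hr) (by rw [hc, map_zero])
  · refine curv_after _ _ _ r _ ?_ hc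
    rw [hr]
    simp only [map_add, map_sub, sub1_self, sub1_ne ha, sub1_ne hb, sub1_ne he]
    ring

theorem base_three (l : List ℕ) (o₁ o₂ p : ℕ) :
    GR.base k q (p :: o₁ :: o₂ :: l) = (two (GR.base k q l) o₁ o₂).poly p := rfl

theorem tri_down (n i₁ i₂ i₃ o₁ o₂ o₃ x₁ x₂ x₃ : ℕ) (S : List GNode) (rest : List ℕ)
    (hl : [i₁, i₂, i₃, o₁, o₂, o₃, x₁, x₂, x₃].Nodup)
    (h : Closed (triL i₁ i₂ i₃ o₁ o₂ o₃ x₁ x₂ x₃ ++ S))
    (hr : (i₁ :: i₂ :: i₃ :: insG S).Perm (o₁ :: o₂ :: rest)) (hδ : i₃ ∈ rest) (ho : o₃ ∈ rest)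
    (hJ : Stab ((two (GR.base k q rest) o₁ o₂).poly x₂)
      (idJ (GR.base k q rest) i₁ i₂ i₃ o₁ o₂ o₃ x₂)) :
    HIso 1 (gcx k q n (triL i₁ i₂ i₃ o₁ o₂ o₃ x₁ x₂ x₃ ++ S))
      (((((two (GR.base k q rest) o₁ o₂).poly x₂).quot _ hJ).cx (q ^ n)).rows
        (rowsG k q n S)) := by
  have hl' := hl
  simp only [List.nodup_cons, List.mem_cons, List.not_mem_nil, or_false, not_or, List.nodup_nil,
    not_false_eq_true, and_true] at hl
  obtain ⟨⟨n12, n13, n14, n15, n16, n17, n18, n19⟩, ⟨n23, n24, n25, n26, n27, n28, n29⟩,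
    ⟨n34, n35, n36, n37, n38, n39⟩, ⟨n45, n46, n47, n48, n49⟩, ⟨n56, n57, n58, n59⟩,
    ⟨n67, n68, n69⟩, ⟨n78, n79⟩, n89⟩ := hl
  have hnd : (insG (triL i₁ i₂ i₃ o₁ o₂ o₃ x₁ x₂ x₃ ++ S)).Nodup := h.1
  have hnd' : (outsG (triL i₁ i₂ i₃ o₁ o₂ o₃ x₁ x₂ x₃ ++ S)).Nodup := h.2.nodup_iff.1 h.1
  have eI : insG (triL i₁ i₂ i₃ o₁ o₂ o₃ x₁ x₂ x₃ ++ S) =
      i₁ :: i₂ :: x₂ :: i₃ :: x₁ :: x₃ :: insG S := by
    simp [triL, insG, GNode.ins]
  have eO : outsG (triL i₁ i₂ i₃ o₁ o₂ o₃ x₁ x₂ x₃ ++ S) =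
      x₁ :: x₂ :: x₃ :: o₃ :: o₁ :: o₂ :: outsG S := by
    simp [triL, outsG, GNode.outs]
  have eR : rowsG k q n (triL i₁ i₂ i₃ o₁ o₂ o₃ x₁ x₂ x₃ ++ S) =
      vRow1 k q n i₁ i₂ x₁ x₂ :: vRow2 k q n i₁ i₂ x₁ x₂ :: vRow1 k q n x₂ i₃ x₃ o₃ ::
        vRow2 k q n x₂ i₃ x₃ o₃ :: vRow1 k q n x₁ x₃ o₁ o₂ :: vRow2 k q n x₁ x₃ o₁ o₂ ::
          rowsG k q n S := by
    simp [triL, rowsG, GNode.rows]
  have hcv := curv_closed (k := k) (q := q) n _ h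
  rw [eR] at hcv
  rw [eI] at hnd
  rw [eO] at hnd'
  rw [gcx, eI, eR]
  have hP : (i₁ :: i₂ :: x₂ :: i₃ :: x₁ :: x₃ :: insG S).Perm
      (x₁ :: x₃ :: x₂ :: o₁ :: o₂ :: rest) := by
    refine List.Perm.trans ?_ (((hr.cons x₂).cons x₃).cons x₁)
    rw [List.perm_iff_count]
    intro a
    simp only [List.count_cons]
    ring
  have m1 : x₁ ∉ insG S ∧ x₃ ∉ insG S := by
    simp only [List.nodup_cons, List.mem_cons, not_or] at hnd
    tauto
  have m2 : x₁ ∉ outsG S ∧ x₃ ∉ outsG S := by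
    simp only [List.nodup_cons, List.mem_cons, not_or] at hnd'
    tauto
  have hQ := perm6 (vRow1 k q n i₁ i₂ x₁ x₂) (vRow2 k q n i₁ i₂ x₁ x₂) (vRow1 k q n x₂ i₃ x₃ o₃)
    (vRow2 k q n x₂ i₃ x₃ o₃) (vRow1 k q n x₁ x₃ o₁ o₂) (vRow2 k q n x₁ x₃ o₁ o₂)
    (rowsG k q n S)
  rw [curv_perm hQ] at hcv
  refine trans1 (rows_base hP hnd _) (trans1 (perm_hIso _ hQ) ?_)
  have hw₁ : Hom q 1 (X i₁ + X i₂ - X x₂ : A k) := ((Hom.var i₁).add (Hom.var i₂)).sub (Hom.var x₂)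
  have hw₃ : Hom q 1 (X x₂ + X i₃ - X o₃ : A k) := ((Hom.var x₂).add (Hom.var i₃)).sub (Hom.var o₃)
  have E1 := base_step (x₃ :: x₂ :: o₁ :: o₂ :: rest) x₁ i₁ i₂ x₂ n17 n27 (Ne.symm n78) hw₁
    (vRow1 k q n i₁ i₂ x₁ x₂) (vRow1 k q n x₂ i₃ x₃ o₃ :: vRow1 k q n x₁ x₃ o₁ o₂ ::
      vRow2 k q n x₁ x₃ o₁ o₂ :: vRow2 k q n i₁ i₂ x₁ x₂ :: vRow2 k q n x₂ i₃ x₃ o₃ ::
        rowsG k q n S) (by simp only [vRow1]; ring) hcv
  rw [List.map_cons, List.map_cons, List.map_cons, List.map_cons, List.map_cons,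
    rowsG_sub1 _ _ _ _ _ m1.1 m2.1] at E1
  refine trans1 E1.1 ?_
  have E2 := base_step (x₂ :: o₁ :: o₂ :: rest) x₃ x₂ i₃ o₃ n89 n39 n69 hw₃
    ((vRow1 k q n x₂ i₃ x₃ o₃).sub1 x₁ _ hw₁) ((vRow1 k q n x₁ x₃ o₁ o₂).sub1 x₁ _ hw₁ ::
      (vRow2 k q n x₁ x₃ o₁ o₂).sub1 x₁ _ hw₁ :: (vRow2 k q n i₁ i₂ x₁ x₂).sub1 x₁ _ hw₁ ::
      (vRow2 k q n x₂ i₃ x₃ o₃).sub1 x₁ _ hw₁ :: rowsG k q n S) (by
      simp only [vRow1, Row.sub1, map_add, map_sub, sub1_ne (Ne.symm n79), sub1_ne (Ne.symm n78),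
        sub1_ne n37, sub1_ne n67]
      ring) E1.2
  rw [List.map_cons, List.map_cons, List.map_cons, List.map_cons,
    rowsG_sub1 _ _ _ _ _ m1.2 m2.2] at E2
  refine trans1 E2.1 ?_
  rw [base_three]
  have hdom : IsDomain (GR.base k q rest).R := base_domain rest
  have hl6 : [i₁, i₂, i₃, o₁, o₂, o₃, x₂].Nodup := by
    simp only [List.nodup_cons, List.mem_cons, List.not_mem_nil, or_false, not_or, List.nodup_nil,
      not_false_eq_true, and_true]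
    tauto
  have hc := E2.2
  obtain ⟨rA, hA⟩ : ∃ r, r = ((vRow1 k q n x₁ x₃ o₁ o₂).sub1 x₁ _ hw₁).sub1 x₃ _ hw₃ := ⟨_, rfl⟩
  obtain ⟨rB, hB⟩ : ∃ r, r = ((vRow2 k q n x₁ x₃ o₁ o₂).sub1 x₁ _ hw₁).sub1 x₃ _ hw₃ := ⟨_, rfl⟩
  obtain ⟨rC, hC⟩ : ∃ r, r = ((vRow2 k q n i₁ i₂ x₁ x₂).sub1 x₁ _ hw₁).sub1 x₃ _ hw₃ := ⟨_, rfl⟩
  obtain ⟨rD, hD⟩ : ∃ r, r = ((vRow2 k q n x₂ i₃ x₃ o₃).sub1 x₁ _ hw₁).sub1 x₃ _ hw₃ := ⟨_, rfl⟩
  rw [← hA, ← hB, ← hC, ← hD] at hc ⊢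
  have sB : rB.s = q ^ 4 / q ^ n := by rw [hB]; rfl
  have sC : rC.s = q ^ 4 / q ^ n := by rw [hC]; rfl
  have sD : rD.s = q ^ 4 / q ^ n := by rw [hD]; rfl
  have bA : rA.b = X o₁ + X o₂ + X o₃ - (X i₁ + X i₂ + X i₃) := by
    rw [hA]
    simp only [vRow1, Row.sub1, map_add, map_sub, sub1_self, sub1_ne n47, sub1_ne n57,
      sub1_ne (Ne.symm n79), sub1_ne n49, sub1_ne n59, sub1_ne n19, sub1_ne n29, sub1_ne n89]
    ring
  have bB : rB.b = X o₁ * X o₂ - (X i₁ + X i₂ - X x₂) * (X x₂ + X i₃ - X o₃) := by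
    rw [hB]
    simp only [vRow2, Row.sub1, map_add, map_sub, map_mul, sub1_self, sub1_ne n47, sub1_ne n57,
      sub1_ne (Ne.symm n79), sub1_ne n49, sub1_ne n59, sub1_ne n19, sub1_ne n29, sub1_ne n89]
  have bC : rC.b = (X i₁ + X i₂ - X x₂) * X x₂ - X i₁ * X i₂ := by
    rw [hC]
    simp only [vRow2, Row.sub1, map_add, map_sub, map_mul, sub1_self, sub1_ne n17, sub1_ne n27,
      sub1_ne (Ne.symm n78), sub1_ne n19, sub1_ne n29, sub1_ne n89]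
  have bD : rD.b = (X x₂ + X i₃ - X o₃) * X o₃ - X x₂ * X i₃ := by
    rw [hD]
    simp only [vRow2, Row.sub1, map_sub, map_mul, sub1_self, sub1_ne (Ne.symm n79),
      sub1_ne (Ne.symm n78), sub1_ne n37, sub1_ne n67, sub1_ne n89, sub1_ne n39, sub1_ne n69]
  exact tri_elim (GR.base k q rest) i₁ i₂ i₃ o₁ o₂ o₃ x₂ hl6 (base_ne _ _ _ hδ n36)
    (base_ne _ _ _ ho (Ne.symm n16)) (base_ne _ _ _ ho (Ne.symm n26)) rA rB rC rD
    (rowsG k q n S) (sB.trans sC.symm) (sB.trans sD.symm) bA bB bC bD hc hJ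

theorem va_down (n i₁ i₂ i₃ o₁ o₂ o₃ : ℕ) (S : List GNode) (rest : List ℕ)
    (hl : [i₁, i₂, i₃, o₁, o₂, o₃].Nodup)
    (hnd : (i₁ :: i₂ :: i₃ :: insG S).Nodup)
    (hc : curv (rowsG k q n (.vert i₁ i₂ o₁ o₂ :: .arc i₃ o₃ :: S)) = 0)
    (hr : (i₁ :: i₂ :: i₃ :: insG S).Perm (o₁ :: o₂ :: rest)) (hδ : i₃ ∈ rest)
    (hJ : Stab (two (GR.base k q rest) o₁ o₂) (idD (GR.base k q rest) i₁ i₂ i₃ o₁ o₂ o₃)) :
    HIso 1 (gcx k q n (.vert i₁ i₂ o₁ o₂ :: .arc i₃ o₃ :: S))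
      ((((two (GR.base k q rest) o₁ o₂).quot _ hJ).cx (q ^ n)).rows (rowsG k q n S)) := by
  have n36 : i₃ ≠ o₃ := by
    simp only [List.nodup_cons, List.mem_cons, not_or] at hl
    tauto
  have eI : insG (.vert i₁ i₂ o₁ o₂ :: .arc i₃ o₃ :: S) = i₁ :: i₂ :: i₃ :: insG S := by
    simp [insG, GNode.ins]
  have eR : rowsG k q n (.vert i₁ i₂ o₁ o₂ :: .arc i₃ o₃ :: S) =
      vRow1 k q n i₁ i₂ o₁ o₂ :: vRow2 k q n i₁ i₂ o₁ o₂ :: arcRow k q n i₃ o₃ ::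
          rowsG k q n S := by
    simp [rowsG, GNode.rows]
  rw [eR] at hc
  rw [gcx, eI, eR]
  refine trans1 (rows_base hr hnd _) ?_
  have hdom : IsDomain (GR.base k q rest).R := base_domain rest
  exact va_elim (GR.base k q rest) i₁ i₂ i₃ o₁ o₂ o₃ hl (base_ne _ _ _ hδ n36)
    (vRow1 k q n i₁ i₂ o₁ o₂) (vRow2 k q n i₁ i₂ o₁ o₂) (arcRow k q n i₃ o₃) (rowsG k q n S)
    rfl rfl rfl hc hJ

theorem stab_idI (R : GR k q) (i₁ i₂ i₃ o₁ o₂ o₃ : ℕ) (hl : [i₁, i₂, i₃, o₁, o₂, o₃].Nodup) :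
    Stab (two R o₁ o₂) (idI R i₁ i₂ i₃ o₁ o₂ o₃) := by
  simp only [List.nodup_cons, List.mem_cons, List.not_mem_nil, or_false, not_or, List.nodup_nil,
    not_false_eq_true, and_true] at hl
  obtain ⟨⟨n12, n13, n14, n15, n16⟩, ⟨n23, n24, n25, n26⟩, ⟨n34, n35, n36⟩,
    ⟨n45, n46⟩, n56⟩ := hl
  have hv : ∀ v, Hom q 1 (X v : A k) := Hom.var
  have g1 := two_ne R n14 n15
  have g2 := two_ne R n24 n25
  have g3 := two_ne R n34 n35
  have g6 := two_ne R (Ne.symm n46) (Ne.symm n56)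
  have g4 := two_fst R o₁ o₂
  have g5 := two_snd R (Ne.symm n45)
  have h1 := Stab.span_f (R := two R o₁ o₂) (s1 i₁ i₂ i₃ o₁ o₂ o₃) ⟨(q : k) ^ (2 * 1),
    (((hv o₁).add (hv o₂)).add (hv o₃)).sub (((hv i₁).add (hv i₂)).add (hv i₃))⟩
  have h2 := Stab.span_f (R := two R o₁ o₂)
    (X o₁ * X o₂ - (X i₁ * X i₂ - (X i₃ - X o₃) * (X o₃ - X i₁ - X i₂)))
    ⟨(q : k) ^ (2 * 2), ((hv o₁).mul (hv o₂)).sub (((hv i₁).mul (hv i₂)).sub
      (((hv i₃).sub (hv o₃)).mul (((hv o₃).sub (hv i₁)).sub (hv i₂))))⟩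
  rw [idI]
  obtain ⟨G, hG⟩ : ∃ G : A k →ₐ[k] (two R o₁ o₂).R, G = (two R o₁ o₂).f := ⟨_, rfl⟩
  rw [← hG] at g1 g2 g3 g4 g5 g6 h1 h2
  have e1 : G (s1 i₁ i₂ i₃ o₁ o₂ o₃) =
      p1 (R.f (X i₁) + R.f (X i₂) + R.f (X i₃) - R.f (X o₃)) := by
    simp only [s1, p1, map_add, map_sub, g1, g2, g3, g4, g5, g6]
    ring
  have e2 : G (X o₁ * X o₂ - (X i₁ * X i₂ - (X i₃ - X o₃) * (X o₃ - X i₁ - X i₂))) =
      p2 (R.f (X i₁) * R.f (X i₂) -
        (R.f (X i₃) - R.f (X o₃)) * (R.f (X o₃) - R.f (X i₁) - R.f (X i₂))) := by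
    simp only [p2, map_sub, map_mul, g1, g2, g3, g4, g5, g6]
  rw [e1] at h1
  rw [e2] at h2
  exact h1.sup h2

theorem stab_map (R : GR k q) (x : ℕ) (I : Ideal R.R) (h : Stab R I) :
    Stab (R.poly x) (I.map Polynomial.C) := by
  intro y hy
  have h1 : I.map Polynomial.C ≤ (I.map Polynomial.C).comap ((R.poly x).σ : _ →+* _) := by
    rw [Ideal.map_le_iff_le_comap]
    intro r hr
    rw [Ideal.mem_comap, Ideal.mem_comap]
    change R.polyσ (Polynomial.C r) ∈ _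
    rw [GR.polyσ_C]
    exact Ideal.mem_map_of_mem _ (h r hr)
  exact h1 hy

theorem σ_sub (R : GR k q) (u v : ℕ) :
    R.σ (R.f (X u) - R.f (X v)) = ((q : k) ^ 2) • (R.f (X u) - R.f (X v)) := by
  rw [map_sub, σ_var, σ_var, smul_sub]

theorem stab_idJ (R : GR k q) (i₁ i₂ i₃ o₁ o₂ o₃ p : ℕ)
    (hl : [i₁, i₂, i₃, o₁, o₂, o₃].Nodup) :
    Stab ((two R o₁ o₂).poly p) (idJ R i₁ i₂ i₃ o₁ o₂ o₃ p) := by
  have hs : ∀ v, (two R o₁ o₂).polyσ (Polynomial.X - Polynomial.C ((two R o₁ o₂).f (X v))) =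
      ((q : k) ^ 2) • (Polynomial.X - Polynomial.C ((two R o₁ o₂).f (X v))) := by
    intro v
    rw [map_sub, GR.polyσ_X, GR.polyσ_C, σ_var, smul_sub, Polynomial.smul_C]
  refine ((stab_map _ _ _ (stab_idI R i₁ i₂ i₃ o₁ o₂ o₃ hl)).sup
    (Stab.span_singleton _ ⟨(q : k) ^ 2 * (q : k) ^ 2, ?_⟩)).sup
    (Stab.span_singleton _ ⟨(q : k) ^ 2 * (q : k) ^ 2, ?_⟩)
  · change (two R o₁ o₂).polyσ _ = _
    rw [map_mul, hs, hs, smul_mul_smul_comm]
  · change (two R o₁ o₂).polyσ _ = _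
    rw [map_mul, hs, GR.polyσ_C, σ_sub, ← Polynomial.smul_C, smul_mul_smul_comm]

theorem stab_idD (R : GR k q) (i₁ i₂ i₃ o₁ o₂ o₃ : ℕ) (hl : [i₁, i₂, i₃, o₁, o₂, o₃].Nodup) :
    Stab (two R o₁ o₂) (idD R i₁ i₂ i₃ o₁ o₂ o₃) :=
  (stab_idI R i₁ i₂ i₃ o₁ o₂ o₃ hl).sup (Stab.span_singleton _ ⟨_, σ_sub _ _ _⟩)

/-- The rows of `S` do not see the variable `p`. -/
theorem rows_no (R : GR k q) (n p : ℕ) (S : List GNode) (h1 : p ∉ insG S) (h2 : p ∉ outsG S) :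
    ∀ r ∈ rowsG k q n S, (R.poly p).f r.a = Polynomial.C (R.f r.a) ∧
      (R.poly p).f r.b = Polynomial.C (R.f r.b) := by
  have h := rowsG_alg (k := k) (q := q) n (R.poly p).f ((Polynomial.CAlgHom (R := k)).comp R.f)
    S id (fun v hv => by
      have hne : v ≠ p := by
        rintro rfl
        exact hv.elim h1 h2
      exact poly_ne R hne)
  have h3 : S.map (GNode.map id) = S := by
    have : GNode.map id = id := by
      funext g
      cases g <;> rfl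
    rw [this, List.map_id]
  rw [h3, List.forall₂_same] at h
  intro r hr
  exact (h r hr).2

theorem tri_half [CharZero k] (n i₁ i₂ i₃ o₁ o₂ o₃ x₁ x₂ x₃ : ℕ) (S : List GNode) (hn : 2 ≤ n)
    (hl : [i₁, i₂, i₃, o₁, o₂, o₃, x₁, x₂, x₃].Nodup)
    (h : Closed (triL i₁ i₂ i₃ o₁ o₂ o₃ x₁ x₂ x₃ ++ S)) (L : List ℕ)
    (hL : L.Perm (i₁ :: i₂ :: i₃ :: insG S)) :
    FG k q n (triL i₁ i₂ i₃ o₁ o₂ o₃ x₁ x₂ x₃ ++ S) =
      ((q : k)⁻¹) ^ (3 + nvG S) * ((((GR.base k q L).quot _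
        (symI_stab _ i₁ i₂ i₃ o₁ o₂ o₃)).cx (q ^ n)).rows (rowsG k q n S)).τ +
      FG k q n (.vert i₁ i₂ o₁ o₂ :: .arc i₃ o₃ :: S) := by
  have hl6 : [i₁, i₂, i₃, o₁, o₂, o₃].Nodup := by
    refine hl.sublist ?_
    exact ((((((List.nil_sublist _).cons_cons o₃).cons_cons o₂).cons_cons o₁).cons_cons
      i₃).cons_cons i₂).cons_cons i₁
  have hl' := hl
  simp only [List.nodup_cons, List.mem_cons, List.not_mem_nil, or_false, not_or, List.nodup_nil,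
    not_false_eq_true, and_true] at hl
  obtain ⟨⟨n12, n13, n14, n15, n16, n17, n18, n19⟩, ⟨n23, n24, n25, n26, n27, n28, n29⟩,
    ⟨n34, n35, n36, n37, n38, n39⟩, ⟨n45, n46, n47, n48, n49⟩, ⟨n56, n57, n58, n59⟩,
    ⟨n67, n68, n69⟩, ⟨n78, n79⟩, n89⟩ := hl
  have mo₁ : o₁ ∈ insG S := mem_out h o₁ (Or.inl rfl) (Ne.symm n14) (Ne.symm n24) (Ne.symm n34)
    n47 n48 n49
  have mo₂ : o₂ ∈ insG S := mem_out h o₂ (Or.inr (Or.inl rfl)) (Ne.symm n15) (Ne.symm n25)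
    (Ne.symm n35) n57 n58 n59
  have mo₃ : o₃ ∈ insG S := mem_out h o₃ (Or.inr (Or.inr rfl)) (Ne.symm n16) (Ne.symm n26)
    (Ne.symm n36) n67 n68 n69
  obtain ⟨rest, hr⟩ : ∃ rest, (i₁ :: i₂ :: i₃ :: insG S).Perm (o₁ :: o₂ :: rest) := by
    refine ⟨((i₁ :: i₂ :: i₃ :: insG S).erase o₁).erase o₂, ?_⟩
    refine (List.perm_cons_erase (a := o₁) (by simp [mo₁])).trans (List.Perm.cons _ ?_)
    refine List.perm_cons_erase ((List.mem_erase_of_ne (Ne.symm n45)).2 (by simp [mo₂]))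
  have m3 : i₃ ∈ rest := by
    have : i₃ ∈ o₁ :: o₂ :: rest := hr.mem_iff.1 (by simp)
    simp only [List.mem_cons] at this
    tauto
  have mo : o₃ ∈ rest := by
    have : o₃ ∈ o₁ :: o₂ :: rest := hr.mem_iff.1 (by simp [mo₃])
    simp only [List.mem_cons] at this
    tauto
  have hnd : (i₁ :: i₂ :: x₂ :: i₃ :: x₁ :: x₃ :: insG S).Nodup := by
    have := h.1
    simpa [triL, insG, GNode.ins] using this
  have hnd' : (x₁ :: x₂ :: x₃ :: o₃ :: o₁ :: o₂ :: outsG S).Nodup := by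
    have := h.2.nodup_iff.1 h.1
    simpa [triL, outsG, GNode.outs] using this
  have mx : x₂ ∉ insG S := by
    simp only [List.nodup_cons, List.mem_cons, not_or] at hnd
    tauto
  have mx' : x₂ ∉ outsG S := by
    simp only [List.nodup_cons, List.mem_cons, not_or] at hnd'
    tauto
  have hndS : (i₁ :: i₂ :: i₃ :: insG S).Nodup := by
    simp only [List.nodup_cons, List.mem_cons, not_or] at hnd ⊢
    tauto
  have hndL : L.Nodup := hL.nodup_iff.2 hndS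
  have hcv : curv (rowsG k q n (.vert i₁ i₂ o₁ o₂ :: .arc i₃ o₃ :: S)) = 0 := by
    have h1 := curv_closed (k := k) (q := q) n _ h
    rw [curv_rowsG] at h1 ⊢
    rw [← h1]
    simp only [triL, insG, outsG, GNode.ins, GNode.outs, List.cons_append, List.nil_append,
      List.flatMap_cons, List.map_cons, List.sum_cons]
    ring
  have sJ := stab_idJ (GR.base k q rest) i₁ i₂ i₃ o₁ o₂ o₃ x₂ hl6
  have sD := stab_idD (GR.base k q rest) i₁ i₂ i₃ o₁ o₂ o₃ hl6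
  have T1 := tri_down n i₁ i₂ i₃ o₁ o₂ o₃ x₁ x₂ x₃ S rest hl' h hr m3 mo sJ
  have T2 := va_down n i₁ i₂ i₃ o₁ o₂ o₃ S rest hl6 hndS hcv hr m3 sD
  have hfd := T1.fin.1 (gcx_fin n (by omega) _ h)
  have sE := sym_eq (GR.base k q rest) i₁ i₂ i₃ o₁ o₂ o₃ hl6
  have sW : Stab (two (GR.base k q rest) o₁ o₂) (idI (GR.base k q rest) i₁ i₂ i₃ o₁ o₂ o₃ ⊔
      Ideal.span {((two (GR.base k q rest) o₁ o₂).f (X i₃) -
        (two (GR.base k q rest) o₁ o₂).f (X o₃)) *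
        (((two (GR.base k q rest) o₁ o₂).f (X o₃) - (two (GR.base k q rest) o₁ o₂).f (X i₁)) *
          ((two (GR.base k q rest) o₁ o₂).f (X o₃) -
            (two (GR.base k q rest) o₁ o₂).f (X i₂)))}) := by
    rw [sE]
    exact symI_stab _ _ _ _ _ _ _
  have T3 := tri_tau (GR.base k q rest) i₁ i₂ i₃ o₁ o₂ o₃ x₂ (rowsG k q n S)
    (rows_no _ n x₂ S mx mx') sJ sW sD hfd
  have T4 : HIso 1 ((((two (GR.base k q rest) o₁ o₂).quot _ sW).cx (q ^ n)).rows (rowsG k q n S))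
      ((((GR.base k q L).quot _
        (symI_stab _ i₁ i₂ i₃ o₁ o₂ o₃)).cx (q ^ n)).rows (rowsG k q n S)) := by
    refine trans1 ?_ (sym_transport (hr.symm.trans hL.symm) (hr.nodup_iff.1 hndS) i₁ i₂ i₃
      o₁ o₂ o₃ (rowsG k q n S))
    obtain ⟨g, hg⟩ := quot_congr (c := q ^ n) (two (GR.base k q rest) o₁ o₂) _ _ sW
      (symI_stab _ i₁ i₂ i₃ o₁ o₂ o₃) sE
    obtain ⟨g', -⟩ := rows_congr g (rowsG k q n S) (rowsG k q n S)
      (List.forall₂_same.2 fun r _ => ⟨rfl, hg _ _ (by rw [sub_self]; exact Ideal.zero_mem _),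
        hg _ _ (by rw [sub_self]; exact Ideal.zero_mem _)⟩)
    exact g'.hIso
  have e1 := T1.tau
  have e2 := T2.tau
  have e4 := T4.tau
  rw [one_mul] at e1 e2 e4
  have v1 : nvG (triL i₁ i₂ i₃ o₁ o₂ o₃ x₁ x₂ x₃ ++ S) = 3 + nvG S := by
    simp only [triL, nvG, List.cons_append, List.nil_append, List.map_cons, List.sum_cons,
      GNode.nv]
    ring
  have v2 : nvG (.vert i₁ i₂ o₁ o₂ :: .arc i₃ o₃ :: S) = 1 + nvG S := by
    simp only [nvG, List.map_cons, List.sum_cons, GNode.nv]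
    ring
  rw [FG, FG, v1, v2, e1, T3, e2, e4]
  have hq : (q : k) ≠ 0 := q.ne_zero
  have e5 : ((q : k)⁻¹) ^ (3 + nvG S) * (q : k) ^ 2 = ((q : k)⁻¹) ^ (1 + nvG S) := by
    rw [show 3 + nvG S = (1 + nvG S) + 2 by ring, pow_add _ (1 + nvG S) 2, mul_assoc, ← mul_pow,
      inv_mul_cancel₀ hq, one_pow, mul_one]
  rw [mul_add, ← mul_assoc _ ((q : k) ^ 2), e5]

theorem closed_of {G G' : List GNode} (h : Closed G) (h1 : (insG G).Perm (insG G'))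
    (h2 : (outsG G).Perm (outsG G')) : Closed G' :=
  ⟨h1.nodup_iff.1 h.1, h1.symm.trans (h.2.trans h2)⟩

theorem closed_perm {G G' : List GNode} (h : Closed G) (h1 : G.Perm G') : Closed G' :=
  closed_of h (h1.flatMap_right _) (h1.flatMap_right _)

theorem closed_va {i₁ i₂ i₃ o₁ o₂ o₃ x₁ x₂ x₃ : ℕ} {S : List GNode}
    (h : Closed (triL i₁ i₂ i₃ o₁ o₂ o₃ x₁ x₂ x₃ ++ S)) :
    Closed (.vert i₁ i₂ o₁ o₂ :: .arc i₃ o₃ :: S) := by
  have h1 : (insG (triL i₁ i₂ i₃ o₁ o₂ o₃ x₁ x₂ x₃ ++ S)).Perm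
      (x₁ :: x₂ :: x₃ :: insG (.vert i₁ i₂ o₁ o₂ :: .arc i₃ o₃ :: S)) := by
    rw [List.perm_iff_count]
    intro a
    simp only [triL, insG, List.cons_append, List.nil_append, List.flatMap_cons, GNode.ins,
      List.count_cons]
    ring
  have h2 : (outsG (triL i₁ i₂ i₃ o₁ o₂ o₃ x₁ x₂ x₃ ++ S)).Perm
      (x₁ :: x₂ :: x₃ :: outsG (.vert i₁ i₂ o₁ o₂ :: .arc i₃ o₃ :: S)) := by
    rw [List.perm_iff_count]
    intro a
    simp only [triL, outsG, List.cons_append, List.nil_append, List.flatMap_cons, GNode.outs,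
      List.count_cons]
    ring
  refine ⟨?_, ?_⟩
  · exact (List.nodup_cons.1 (List.nodup_cons.1 (List.nodup_cons.1
      (h1.nodup_iff.1 h.1)).2).2).2
  · have h3 := h1.symm.trans (h.2.trans h2)
    exact h3.cons_inv.cons_inv.cons_inv

theorem swapBoth (n a b e d : ℕ) (S : List GNode) (h : Closed (.vert a b e d :: S)) :
    FG k q n (.vert a b e d :: S) = FG k q n (.vert b a d e :: S) ∧
      Closed (.vert b a d e :: S) := by
  have h1 : Closed (.vert b a e d :: S) := by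
    refine closed_of h ?_ (List.Perm.refl _)
    simp only [insG, List.flatMap_cons, GNode.ins, List.cons_append, List.nil_append]
    exact List.Perm.swap _ _ _
  have h2 : Closed (.vert b a d e :: S) := by
    refine closed_of h1 (List.Perm.refl _) ?_
    simp only [outsG, List.flatMap_cons, GNode.outs, List.cons_append, List.nil_append]
    exact List.Perm.swap _ _ _
  exact ⟨(FG_swapIn n a b e d S h).trans (FG_swapOut n b a e d S h1), h2⟩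

theorem triR_eq (n i₁ i₂ i₃ o₁ o₂ o₃ x₁ x₂ x₃ : ℕ) (S : List GNode)
    (h : Closed (triL i₁ i₂ i₃ o₁ o₂ o₃ x₁ x₂ x₃ ++ S)) :
    FG k q n (triR i₁ i₂ i₃ o₁ o₂ o₃ x₁ x₂ x₃ ++ S) =
      FG k q n (triL i₃ i₂ i₁ o₃ o₂ o₁ x₃ x₂ x₁ ++ S) ∧
    Closed (triL i₃ i₂ i₁ o₃ o₂ o₁ x₃ x₂ x₁ ++ S) := by
  have h0 : Closed (.vert i₂ i₃ x₂ x₃ :: .vert i₁ x₂ o₁ x₁ :: .vert x₁ x₃ o₂ o₃ :: S) := by
    refine closed_of h ?_ ?_
    · rw [List.perm_iff_count]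
      intro a
      simp only [triL, insG, List.cons_append, List.nil_append, List.flatMap_cons, GNode.ins,
        List.count_cons]
      ring
    · rw [List.perm_iff_count]
      intro a
      simp only [triL, outsG, List.cons_append, List.nil_append, List.flatMap_cons, GNode.outs,
        List.count_cons]
      ring
  obtain ⟨e1, c1⟩ := swapBoth (k := k) (q := q) n _ _ _ _ _ h0
  have p1 : (GNode.vert i₃ i₂ x₃ x₂ :: .vert i₁ x₂ o₁ x₁ :: .vert x₁ x₃ o₂ o₃ :: S).Perm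
      (.vert i₁ x₂ o₁ x₁ :: .vert i₃ i₂ x₃ x₂ :: .vert x₁ x₃ o₂ o₃ :: S) := List.Perm.swap _ _ _
  have c2 := closed_perm c1 p1
  obtain ⟨e3, c3⟩ := swapBoth (k := k) (q := q) n _ _ _ _ _ c2
  have p3 : (GNode.vert x₂ i₁ x₁ o₁ :: .vert i₃ i₂ x₃ x₂ :: .vert x₁ x₃ o₂ o₃ :: S).Perm
      (.vert x₁ x₃ o₂ o₃ :: .vert x₂ i₁ x₁ o₁ :: .vert i₃ i₂ x₃ x₂ :: S) :=
    (List.Perm.cons _ (List.Perm.swap _ _ _)).trans (List.Perm.swap _ _ _)
  have c4 := closed_perm c3 p3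
  obtain ⟨e5, c5⟩ := swapBoth (k := k) (q := q) n _ _ _ _ _ c4
  have p5 : (GNode.vert x₃ x₁ o₃ o₂ :: .vert x₂ i₁ x₁ o₁ :: .vert i₃ i₂ x₃ x₂ :: S).Perm
      (.vert i₃ i₂ x₃ x₂ :: .vert x₂ i₁ x₁ o₁ :: .vert x₃ x₁ o₃ o₂ :: S) :=
    (List.Perm.cons _ (List.Perm.swap _ _ _)).trans ((List.Perm.swap _ _ _).trans
      (List.Perm.cons _ (List.Perm.swap _ _ _)))
  have c6 := closed_perm c5 p5
  exact ⟨e1.trans ((FG_perm n c1 p1).trans (e3.trans ((FG_perm n c3 p3).trans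
    (e5.trans (FG_perm n c5 p5))))), c6⟩

end Graph

end Tri

open Tri in
theorem FG_tri [CharZero k] (n i₁ i₂ i₃ o₁ o₂ o₃ x₁ x₂ x₃ : ℕ) (S : List GNode) (hn : 2 ≤ n)
    (hl : [i₁, i₂, i₃, o₁, o₂, o₃, x₁, x₂, x₃].Nodup)
    (h : Closed (triL i₁ i₂ i₃ o₁ o₂ o₃ x₁ x₂ x₃ ++ S)) :
    FG k q n (triL i₁ i₂ i₃ o₁ o₂ o₃ x₁ x₂ x₃ ++ S) -
        FG k q n (.vert i₁ i₂ o₁ o₂ :: .arc i₃ o₃ :: S) =
      FG k q n (triR i₁ i₂ i₃ o₁ o₂ o₃ x₁ x₂ x₃ ++ S) -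
        FG k q n (.vert i₂ i₃ o₂ o₃ :: .arc i₁ o₁ :: S) := by
  obtain ⟨e1, c1⟩ := triR_eq (k := k) (q := q) n i₁ i₂ i₃ o₁ o₂ o₃ x₁ x₂ x₃ S h
  have hl' : [i₃, i₂, i₁, o₃, o₂, o₁, x₃, x₂, x₁].Nodup := by
    refine (List.Perm.nodup_iff ?_).1 hl
    rw [List.perm_iff_count]
    intro a
    simp only [List.count_cons]
    ring
  have hL : (i₁ :: i₂ :: i₃ :: insG S).Perm (i₃ :: i₂ :: i₁ :: insG S) := by
    rw [List.perm_iff_count]
    intro a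
    simp only [List.count_cons]
    ring
  have t1 := tri_half (k := k) (q := q) n i₁ i₂ i₃ o₁ o₂ o₃ x₁ x₂ x₃ S hn hl h
    (i₁ :: i₂ :: i₃ :: insG S) (List.Perm.refl _)
  have t2 := tri_half (k := k) (q := q) n i₃ i₂ i₁ o₃ o₂ o₁ x₃ x₂ x₁ S hn hl' c1
    (i₁ :: i₂ :: i₃ :: insG S) hL
  have e2 := (swapBoth (k := k) (q := q) n _ _ _ _ _ (closed_va c1)).1
  have hs : symI (GR.base k q (i₁ :: i₂ :: i₃ :: insG S)) i₃ i₂ i₁ o₃ o₂ o₁ =
      symI (GR.base k q (i₁ :: i₂ :: i₃ :: insG S)) i₁ i₂ i₃ o₁ o₂ o₃ := by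
    have a1 : (s1 i₃ i₂ i₁ o₃ o₂ o₁ : A k) = s1 i₁ i₂ i₃ o₁ o₂ o₃ := by
      simp only [s1]; ring
    have a2 : (s2 i₃ i₂ i₁ o₃ o₂ o₁ : A k) = s2 i₁ i₂ i₃ o₁ o₂ o₃ := by
      simp only [s2]; ring
    have a3 : (s3 i₃ i₂ i₁ o₃ o₂ o₁ : A k) = s3 i₁ i₂ i₃ o₁ o₂ o₃ := by
      simp only [s3]; ring
    rw [symI, symI, a1, a2, a3]
  simp only [hs] at t2
  rw [e1, t1, t2, e2]
  ring

end Pool.Agent.Lib.MP_31c440_gt.HV
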