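import Pool.Agent.Lib.MP_31c440_gt.HV.K10_Arc
import Pool.Agent.Lib.MP_31c440_gt.HV.K11_Loop
import Pool.Agent.Lib.MP_31c440_gt.HV.K12_Digon
import Pool.Agent.Lib.MP_31c440_gt.HV.K13_Anti
import Pool.Agent.Lib.MP_31c440_gt.HV.K14_Tri

/-!
The invariant `FG` of closed abstract graphs satisfies the relations of Murakami, Ohtsuki and
Yamada.
-/

noncomputable section

namespace Pool.Agent.Lib.MP_31c440_gt.HV

variable {k : Type} [Field k] {q : kˣ}

theorem isMOY_FG [CharZero k] (N : ℕ) (hN : 2 ≤ N) (hq : (q : k) - (q : k)⁻¹ ≠ 0) :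
    IsMOY (q : k) ((q : k) ^ N) (FG k q (N + 1)) where
  empty := FG_empty _
  perm _ _ hG h := FG_perm _ hG h
  relabel G g hg hG := FG_relabel _ G g hg hG
  swapIn a b c d S h := FG_swapIn _ a b c d S h
  swapOut a b c d S h := FG_swapOut _ a b c d S h
  arcArc i e o S h := FG_arcArc _ i e o S h
  arcVert i a b c d S h := FG_arcVert _ i a b c d S h
  vertArc a b c d o S h := FG_vertArc _ a b c d o S h
  circle i S h := FG_circle N i S (by omega) hq h
  loop a b x S hl h := FG_loop N a b x S (by omega) hq hl h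
  digon a b x y c d S hl h := FG_digon _ a b x y c d S (by omega) hl h
  anti a b c d x y S hl h := FG_anti N a b c d x y S hN hq hl h
  tri i₁ i₂ i₃ o₁ o₂ o₃ x₁ x₂ x₃ S hl h :=
    FG_tri _ i₁ i₂ i₃ o₁ o₂ o₃ x₁ x₂ x₃ S (by omega) hl h

end Pool.Agent.Lib.MP_31c440_gt.HV
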