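import Pool.Agent.Lib.MP_31c440_gt.HV.Core

/-!
Isomorphisms of homologies up to a scalar; the key lemma: adding a row with an injective entry is
the same as passing to the quotient by this entry.
-/

noncomputable section

namespace Pool.Agent.Lib.MP_31c440_gt.HV

open MvPolynomial

variable {k : Type} [Field k] {q c : kˣ} {u v : k}

section

variable {X Y W : Cx k q c}

theorem Cx.φH_mk (X : Cx k q c) (x : X.Z) :
    X.φH (Submodule.Quotient.mk x) = Submodule.Quotient.mk (X.φZ x) := rfl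

theorem HIso.tau (h : HIso u X Y) : X.τ = u * Y.τ := by
  obtain ⟨e, he⟩ := h
  have h1 : e.conj X.φH = u • Y.φH := by
    apply LinearMap.ext
    intro y
    obtain ⟨x, rfl⟩ := e.surjective y
    rw [LinearEquiv.conj_apply_apply, LinearEquiv.symm_apply_apply, LinearMap.smul_apply, he]
  rw [Cx.τ, Cx.τ, ← LinearMap.trace_conj' X.φH e, h1, map_smul, smul_eq_mul]

theorem HIso.refl (X : Cx k q c) : HIso 1 X X := ⟨LinearEquiv.refl k X.H, fun x => by simp⟩

theorem HIso.trans (h : HIso u X Y) (h' : HIso v Y W) : HIso (u * v) X W := by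
  obtain ⟨e, he⟩ := h
  obtain ⟨e', he'⟩ := h'
  refine ⟨e.trans e', fun x => ?_⟩
  rw [LinearEquiv.trans_apply, LinearEquiv.trans_apply, he, map_smul, he', smul_smul]

theorem HIso.symm (hu : u ≠ 0) (h : HIso u X Y) : HIso u⁻¹ Y X := by
  obtain ⟨e, he⟩ := h
  refine ⟨e.symm, fun y => ?_⟩
  obtain ⟨x, rfl⟩ := e.surjective y
  rw [LinearEquiv.symm_apply_apply, LinearEquiv.symm_apply_eq, map_smul, he, smul_smul,
    inv_mul_cancel₀ hu, one_smul]

theorem HIso.fin (h : HIso u X Y) : X.FD ↔ Y.FD := by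
  obtain ⟨e, _⟩ := h
  exact ⟨fun hX => by have : Module.Finite k X.H := hX; exact Module.Finite.equiv e,
    fun hY => by have : Module.Finite k Y.H := hY; exact Module.Finite.equiv e.symm⟩

/-- Quasi-isomorphisms. -/
theorem HIso.of_qiso (f : X.N →ₗ[k] Y.N) {ε : k} (hε : ε ≠ 0)
    (hd : ∀ m, f (X.d m) = ε • Y.d (f m)) (hs : ∀ m, f (X.φ m) = u • Y.φ (f m))
    (inj : ∀ m, X.d m = 0 → ∀ n', Y.d n' = f m → ∃ n, X.d n = m)
    (surj : ∀ m', Y.d m' = 0 → ∃ m n', X.d m = 0 ∧ f m = m' + Y.d n') : HIso u X Y := by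
  have hk : ∀ m ∈ X.Z, f m ∈ Y.Z := by
    intro m hm
    rw [Cx.mem_Z] at hm ⊢
    have := hd m
    rw [hm, map_zero] at this
    exact (smul_eq_zero.1 this.symm).resolve_left hε
  let fZ : X.Z →ₗ[k] Y.Z :=
    { toFun := fun x => ⟨f x, hk x x.2⟩
      map_add' := fun x y => by ext; simp
      map_smul' := fun r x => by ext; simp }
  have hB : ∀ x ∈ X.B, fZ x ∈ Y.B := by
    intro x hx
    rw [Cx.mem_B] at *
    obtain ⟨y, hy⟩ := hx
    refine ⟨ε • f y, ?_⟩
    rw [lin_smul, ← hd, hy]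
    rfl
  let g : X.H →ₗ[k] Y.H :=
    (X.B.restrictScalars k).mapQ (Y.B.restrictScalars k) fZ (fun x hx => hB x hx)
  have hg : ∀ x : X.Z, g (Submodule.Quotient.mk x) = Submodule.Quotient.mk (fZ x) := fun _ => rfl
  have hgi : Function.Injective g := by
    rw [injective_iff_map_eq_zero]
    intro x hx
    obtain ⟨m, rfl⟩ := Submodule.Quotient.mk_surjective _ x
    rw [hg] at hx
    have hx' := (Submodule.Quotient.mk_eq_zero _).1 hx
    rw [Cx.mem_B] at hx'
    obtain ⟨n', hn'⟩ := hx'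
    obtain ⟨n, hn⟩ := inj m (X.mem_Z.1 m.2) n' hn'
    exact (Submodule.Quotient.mk_eq_zero _).2 (X.mem_B.2 ⟨n, hn⟩)
  have hgs : Function.Surjective g := by
    intro y
    obtain ⟨m', rfl⟩ := Submodule.Quotient.mk_surjective _ y
    obtain ⟨m, n', hm, hn'⟩ := surj m' (Y.mem_Z.1 m'.2)
    refine ⟨Submodule.Quotient.mk ⟨m, X.mem_Z.2 hm⟩, ?_⟩
    rw [hg]
    refine (Submodule.Quotient.eq _).2 (Y.mem_B.2 ⟨n', ?_⟩)
    show Y.d n' = f m - m'
    rw [hn']
    abel
  refine ⟨LinearEquiv.ofBijective g ⟨hgi, hgs⟩, fun x => ?_⟩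
  obtain ⟨m, rfl⟩ := Submodule.Quotient.mk_surjective _ x
  show g (X.φH _) = u • Y.φH (g _)
  rw [hg, X.φH_mk, hg, Y.φH_mk, ← Submodule.Quotient.mk_smul]
  congr 1
  exact Subtype.ext (hs m)

theorem CIso.hIso (f : CIso u X Y) : HIso u X Y := by
  refine HIso.of_qiso (f.e : X.N →ₗ[k] Y.N) one_ne_zero (fun m => by simpa using f.hd m) f.hφ
    (fun m hm n' hn' => ⟨f.e.symm n', ?_⟩) (fun m' hm' => ⟨f.e.symm m', 0, ?_, by simp⟩)
  · apply f.e.injective
    rw [f.hd, LinearEquiv.apply_symm_apply]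
    exact hn'
  · apply f.e.injective
    rw [f.hd, LinearEquiv.apply_symm_apply, map_zero]
    exact hm'

theorem addRow_d_apply (r : Row k q c) (X : Cx k q c) (x y : X.N) :
    (X.addRow r).d (x, y) = (X.d x + r.a • y, r.b • x - X.d y) := rfl

theorem addRow_φ_apply (r : Row k q c) (X : Cx k q c) (x y : X.N) :
    (X.addRow r).φ (x, y) = ((r.s : k) • X.φ x, X.φ y) := rfl

theorem quot_mk_eq_zero {X : Cx k q c} {p : A k} (y : X.N)
    (h : (Submodule.Quotient.mk y : X.N ⧸ LinearMap.range (LinearMap.lsmul (A k) X.N p)) = 0) :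
    ∃ z, p • z = y := by
  obtain ⟨z, hz⟩ := (Submodule.Quotient.mk_eq_zero _).1 h
  exact ⟨z, hz⟩

theorem quot_mk_smul {X : Cx k q c} {p : A k} (z : X.N) :
    (Submodule.Quotient.mk (p • z) : X.N ⧸ LinearMap.range (LinearMap.lsmul (A k) X.N p)) = 0 :=
  (Submodule.Quotient.mk_eq_zero _).2 ⟨z, rfl⟩

/-- `(x, y) ↦ y` -/
theorem lemmaB (r : Row k q c) (X : Cx k q c) (hx : ∃ m : k, scl k q r.b = m • r.b)
    (hd : ∀ x, X.d (X.d x) = -((r.a * r.b) • x)) (hb : ∀ x : X.N, r.b • x = 0 → x = 0) :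
    HIso 1 (X.addRow r) (X.quot r.b hx) := by
  let f : (X.addRow r).N →ₗ[k] (X.quot r.b hx).N :=
    ((LinearMap.range (LinearMap.lsmul (A k) X.N r.b)).restrictScalars k).mkQ.comp
      (LinearMap.snd k X.N X.N)
  have hf : ∀ x y : X.N, f (x, y) = Submodule.Quotient.mk y := fun _ _ => rfl
  have hqd : ∀ y : X.N, (X.quot r.b hx).d (Submodule.Quotient.mk y) =
      Submodule.Quotient.mk (X.d y) := fun _ => rfl
  refine HIso.of_qiso f (ε := -1) (by simp) ?_ ?_ ?_ ?_
  · rintro ⟨x, y⟩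
    rw [addRow_d_apply, hf, hf, hqd, neg_smul, one_smul]
    show (Submodule.Quotient.mk (r.b • x - X.d y) :
      X.N ⧸ LinearMap.range (LinearMap.lsmul (A k) X.N r.b)) = - Submodule.Quotient.mk (X.d y)
    rw [Submodule.Quotient.mk_sub, quot_mk_smul, zero_sub]
  · rintro ⟨x, y⟩
    rw [addRow_φ_apply, hf, hf, one_smul]
    rfl
  · rintro ⟨x, y⟩ hm n' hn'
    obtain ⟨z, rfl⟩ := Submodule.Quotient.mk_surjective _ n'
    rw [hqd, hf] at hn'
    have h1 : (Submodule.Quotient.mk (X.d z - y) :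
        X.N ⧸ LinearMap.range (LinearMap.lsmul (A k) X.N r.b)) = 0 := by
      rw [Submodule.Quotient.mk_sub, sub_eq_zero]
      exact hn'
    obtain ⟨w, hw⟩ := quot_mk_eq_zero _ h1
    rw [addRow_d_apply] at hm
    have h2 : X.d x + r.a • y = 0 := congrArg Prod.fst hm
    have h3 : r.b • x - X.d y = 0 := congrArg Prod.snd hm
    -- `y = d z - b w`
    have hy : y = X.d z - r.b • w := by rw [hw]; abel
    refine ⟨(-w, -z), ?_⟩
    rw [addRow_d_apply]
    have h4 : r.b • (X.d w + r.a • z + x) = 0 := by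
      have h5 : X.d y = -((r.a * r.b) • z) - r.b • X.d w := by
        rw [hy, map_sub, map_smul, hd]
      rw [smul_add, smul_add, smul_smul, mul_comm r.b r.a, sub_eq_zero.1 h3, h5]
      abel
    have h6 := hb _ h4
    apply Prod.ext
    · show X.d (-w) + r.a • -z = x
      rw [map_neg, smul_neg, ← sub_eq_zero]
      rw [← neg_eq_zero, ← h6]
      abel
    · show r.b • (-w) - X.d (-z) = y
      rw [map_neg, smul_neg, hw]
      abel
  · intro m' hm'
    obtain ⟨y, rfl⟩ := Submodule.Quotient.mk_surjective _ m'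
    rw [hqd] at hm'
    obtain ⟨x, hx1⟩ := quot_mk_eq_zero _ hm'
    refine ⟨(x, y), 0, ?_, ?_⟩
    · rw [addRow_d_apply]
      have h4 : r.b • (X.d x + r.a • y) = 0 := by
        rw [smul_add, ← map_smul, hx1, hd, smul_smul, mul_comm r.b r.a]
        abel
      apply Prod.ext
      · exact hb _ h4
      · show r.b • x - X.d y = 0
        rw [hx1, sub_self]
    · rw [hf, map_zero, add_zero]

/-- `(x, y) ↦ x` -/
theorem lemmaA (r : Row k q c) (X : Cx k q c) (hx : ∃ m : k, scl k q r.a = m • r.a)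
    (hd : ∀ x, X.d (X.d x) = -((r.a * r.b) • x)) (ha : ∀ x : X.N, r.a • x = 0 → x = 0) :
    HIso (r.s : k) (X.addRow r) (X.quot r.a hx) := by
  let f : (X.addRow r).N →ₗ[k] (X.quot r.a hx).N :=
    ((LinearMap.range (LinearMap.lsmul (A k) X.N r.a)).restrictScalars k).mkQ.comp
      (LinearMap.fst k X.N X.N)
  have hf : ∀ x y : X.N, f (x, y) = Submodule.Quotient.mk x := fun _ _ => rfl
  have hqd : ∀ y : X.N, (X.quot r.a hx).d (Submodule.Quotient.mk y) =
      Submodule.Quotient.mk (X.d y) := fun _ => rfl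
  refine HIso.of_qiso f (ε := 1) one_ne_zero ?_ ?_ ?_ ?_
  · rintro ⟨x, y⟩
    rw [addRow_d_apply, hf, hf, hqd, one_smul]
    show (Submodule.Quotient.mk (X.d x + r.a • y) :
      X.N ⧸ LinearMap.range (LinearMap.lsmul (A k) X.N r.a)) = Submodule.Quotient.mk (X.d x)
    rw [Submodule.Quotient.mk_add, quot_mk_smul, add_zero]
  · rintro ⟨x, y⟩
    rw [addRow_φ_apply, hf, hf]
    rfl
  · rintro ⟨x, y⟩ hm n' hn'
    obtain ⟨z, rfl⟩ := Submodule.Quotient.mk_surjective _ n'
    rw [hqd, hf] at hn'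
    have h1 : (Submodule.Quotient.mk (X.d z - x) :
        X.N ⧸ LinearMap.range (LinearMap.lsmul (A k) X.N r.a)) = 0 := by
      rw [Submodule.Quotient.mk_sub, sub_eq_zero]
      exact hn'
    obtain ⟨w, hw⟩ := quot_mk_eq_zero _ h1
    rw [addRow_d_apply] at hm
    have h2 : X.d x + r.a • y = 0 := congrArg Prod.fst hm
    -- `x = d z - a w`
    have hy : x = X.d z - r.a • w := by rw [hw]; abel
    refine ⟨(z, -w), ?_⟩
    rw [addRow_d_apply]
    have h4 : r.a • (r.b • z + X.d w - y) = 0 := by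
      have h5 : X.d x = -((r.a * r.b) • z) - r.a • X.d w := by
        rw [hy, map_sub, map_smul, hd]
      rw [h5] at h2
      rw [smul_sub, smul_add, smul_smul, ← neg_eq_zero, ← h2]
      abel
    have h6 := ha _ h4
    apply Prod.ext
    · show X.d z + r.a • -w = x
      rw [smul_neg, hw]
      abel
    · show r.b • z - X.d (-w) = y
      rw [map_neg, sub_neg_eq_add]
      exact sub_eq_zero.1 h6
  · intro m' hm'
    obtain ⟨x, rfl⟩ := Submodule.Quotient.mk_surjective _ m'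
    rw [hqd] at hm'
    obtain ⟨y, hy1⟩ := quot_mk_eq_zero _ hm'
    refine ⟨(x, -y), 0, ?_, ?_⟩
    · rw [addRow_d_apply]
      have h4 : r.a • (r.b • x + X.d y) = 0 := by
        rw [smul_add, ← map_smul, hy1, hd, smul_smul]
        abel
      apply Prod.ext
      · show X.d x + r.a • -y = 0
        rw [smul_neg, hy1]
        abel
      · show r.b • x - X.d (-y) = 0
        rw [map_neg, sub_neg_eq_add]
        exact ha _ h4
    · rw [hf, map_zero, add_zero]

/-- isomorphism of `M` with the identity as map -/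
def CIso.refl (X : Cx k q c) : CIso 1 X X :=
  ⟨LinearEquiv.refl k X.N, fun _ => rfl, fun _ => by simp⟩

def CIso.trans (f : CIso u X Y) (g : CIso v Y W) : CIso (u * v) X W where
  e := f.e.trans g.e
  hd x := by rw [LinearEquiv.trans_apply, f.hd, g.hd, LinearEquiv.trans_apply]
  hφ x := by
    rw [LinearEquiv.trans_apply, f.hφ, map_smul, g.hφ, smul_smul, LinearEquiv.trans_apply]

def CIso.symm (hu : u ≠ 0) (f : CIso u X Y) : CIso u⁻¹ Y X where
  e := f.e.symm
  hd y := by
    obtain ⟨x, rfl⟩ := f.e.surjective y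
    rw [← f.hd, LinearEquiv.symm_apply_apply, LinearEquiv.symm_apply_apply]
  hφ y := by
    obtain ⟨x, rfl⟩ := f.e.surjective y
    rw [LinearEquiv.symm_apply_apply, LinearEquiv.symm_apply_eq, map_smul, f.hφ, smul_smul,
      inv_mul_cancel₀ hu, one_smul]

theorem CIso.trans_int {f : CIso u X Y} {g : CIso v Y W} {p p' p'' : A k} (h : f.Int p p')
    (h' : g.Int p' p'') : (f.trans g).Int p p'' := fun x => by
  show g.e (f.e (p • x)) = p'' • g.e (f.e x)
  rw [h, h']

theorem CIso.symm_int {f : CIso u X Y} (hu : u ≠ 0) {p p' : A k} (h : f.Int p p') :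
    (f.symm hu).Int p' p := fun y => by
  obtain ⟨x, rfl⟩ := f.e.surjective y
  show f.e.symm (p' • f.e x) = p • f.e.symm (f.e x)
  rw [← h, LinearEquiv.symm_apply_apply, LinearEquiv.symm_apply_apply]

end

end Pool.Agent.Lib.MP_31c440_gt.HV
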