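import Pool.Agent.Lib.MP_31c440_gt.HV.K1_Hlg

/-!
Rows on isomorphic modules, permutation of rows, the row operation `z ↦ z + w y`.
-/

noncomputable section

namespace Pool.Agent.Lib.MP_31c440_gt.HV

open MvPolynomial

variable {k : Type} [Field k] {q c : kˣ} {u v : k}
variable {X Y W : Cx k q c}

theorem CIso.Int.add {f : CIso u X Y} {p p' r r' : A k} (h : f.Int p p') (h' : f.Int r r') :
    f.Int (p + r) (p' + r') := fun x => by
  rw [add_smul, map_add, h x, h' x, add_smul]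

theorem CIso.Int.sub {f : CIso u X Y} {p p' r r' : A k} (h : f.Int p p') (h' : f.Int r r') :
    f.Int (p - r) (p' - r') := fun x => by
  rw [sub_smul, map_sub, h x, h' x, sub_smul]

theorem CIso.Int.mul {f : CIso u X Y} {p p' r r' : A k} (h : f.Int p p') (h' : f.Int r r') :
    f.Int (p * r) (p' * r') := fun x => by
  rw [mul_smul, h, h', mul_smul]

theorem C_smul_eq {N : Type} [AddCommGroup N] [Module k N] [Module (A k) N]
    [IsScalarTower k (A k) N] (a : k) (x : N) : (MvPolynomial.C a : A k) • x = a • x := by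
  rw [← MvPolynomial.algebraMap_eq, algebraMap_smul]

theorem CIso.Int.C (f : CIso u X Y) (a : k) : f.Int (MvPolynomial.C a) (MvPolynomial.C a) :=
  fun x => by
    rw [C_smul_eq, C_smul_eq, map_smul]

/-- polynomial expressions -/
theorem CIso.Int.aeval {f : CIso u X Y} {ι : Type} (g g' : ι → A k) (h : ∀ i, f.Int (g i) (g' i))
    (P : MvPolynomial ι k) : f.Int (MvPolynomial.aeval g P) (MvPolynomial.aeval g' P) := by
  induction P using MvPolynomial.induction_on with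
  | C a =>
    rw [MvPolynomial.aeval_C, MvPolynomial.aeval_C, MvPolynomial.algebraMap_eq]
    exact CIso.Int.C f a
  | add p r hp hr =>
    rw [map_add, map_add]
    exact hp.add hr
  | mul_X p i hp =>
    rw [map_mul, map_mul, MvPolynomial.aeval_X, MvPolynomial.aeval_X]
    exact hp.mul (h i)

theorem addRow_d (r : Row k q c) (X : Cx k q c) (x y : X.N) :
    (X.addRow r).d ((x, y) : X.N × X.N) = ((X.d x + r.a • y, r.b • x - X.d y) : X.N × X.N) := rfl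

theorem addRow_φ (r : Row k q c) (X : Cx k q c) (x y : X.N) :
    (X.addRow r).φ ((x, y) : X.N × X.N) = (((r.s : k) • X.φ x, X.φ y) : X.N × X.N) := rfl

theorem addRow_smul (r : Row k q c) (X : Cx k q c) (p : A k) (x y : X.N) :
    (p • (show (X.addRow r).N from ((x, y) : X.N × X.N))) = ((p • x, p • y) : X.N × X.N) := rfl

/-- The isomorphism of the modules with one more row. -/
def CIso.addRow (f : CIso u X Y) (r r' : Row k q c) (hs : r.s = r'.s) (ha : f.Int r.a r'.a)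
    (hb : f.Int r.b r'.b) : CIso u (X.addRow r) (Y.addRow r') where
  e := (f.e.prodCongr f.e : (X.N × X.N) ≃ₗ[k] (Y.N × Y.N))
  hd := by
    rintro ⟨x, y⟩
    show ((f.e (X.d x + r.a • y), f.e (r.b • x - X.d y)) : Y.N × Y.N)
      = (Y.d (f.e x) + r'.a • f.e y, r'.b • f.e x - Y.d (f.e y))
    rw [map_add, map_sub, f.hd, f.hd, ha y, hb x]
  hφ := by
    rintro ⟨x, y⟩
    show ((f.e ((r.s : k) • X.φ x), f.e (X.φ y)) : Y.N × Y.N)
      = (u • (r'.s : k) • Y.φ (f.e x), u • Y.φ (f.e y))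
    rw [map_smul, f.hφ, f.hφ, hs, smul_comm]

theorem CIso.addRow_int {f : CIso u X Y} {r r' : Row k q c} (hs : r.s = r'.s)
    (ha : f.Int r.a r'.a) (hb : f.Int r.b r'.b) {p p' : A k} (h : f.Int p p') :
    (f.addRow r r' hs ha hb).Int p p' := by
  rintro ⟨x, y⟩
  show ((f.e (p • x), f.e (p • y)) : Y.N × Y.N) = (p' • f.e x, p' • f.e y)
  rw [h x, h y]

theorem rows_nil (X : Cx k q c) : X.rows [] = X := rfl

theorem rows_cons (r : Row k q c) (S : List (Row k q c)) (X : Cx k q c) :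
    X.rows (r :: S) = (X.rows S).addRow r := rfl

/-- Rows on isomorphic modules. -/
theorem rows_congr (f : CIso u X Y) (S S' : List (Row k q c))
    (h : List.Forall₂ (fun r r' => r.s = r'.s ∧ f.Int r.a r'.a ∧ f.Int r.b r'.b) S S') :
    ∃ g : CIso u (X.rows S) (Y.rows S'), ∀ p p', f.Int p p' → g.Int p p' := by
  induction h with
  | nil => exact ⟨f, fun _ _ h => h⟩
  | cons h _ ih =>
    obtain ⟨g, hg⟩ := ih
    obtain ⟨hs, ha, hb⟩ := h
    exact ⟨g.addRow _ _ hs (hg _ _ ha) (hg _ _ hb),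
      fun p p' hp => CIso.addRow_int hs (hg _ _ ha) (hg _ _ hb) (hg p p' hp)⟩

theorem rows_append (S T : List (Row k q c)) : X.rows (S ++ T) = (X.rows T).rows S := by
  rw [Cx.rows, List.foldr_append]
  rfl

/-- Elements that act alike on a module act alike after adding rows. -/
theorem rows_act (S : List (Row k q c)) {p p' : A k} (h : ∀ x : X.N, p • x = p' • x)
    (x : (X.rows S).N) : p • x = p' • x := by
  induction S with
  | nil => exact h x
  | cons r S ih =>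
    obtain ⟨y, z⟩ : (X.rows S).N × (X.rows S).N := x
    show ((p • y, p • z) : (X.rows S).N × (X.rows S).N) = (p' • y, p' • z)
    rw [ih y, ih z]

/-- Composition of isomorphisms without scalars. -/
def CIso.comp (f : CIso (1 : k) X Y) (g : CIso (1 : k) Y W) : CIso (1 : k) X W where
  e := f.e.trans g.e
  hd x := by
    show g.e (f.e (X.d x)) = W.d (g.e (f.e x))
    rw [f.hd, g.hd]
  hφ x := by
    show g.e (f.e (X.φ x)) = (1 : k) • W.φ (g.e (f.e x))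
    rw [f.hφ, map_smul, g.hφ, one_smul]

theorem CIso.comp_int {f : CIso (1 : k) X Y} {g : CIso (1 : k) Y W} {p p' p'' : A k}
    (h : f.Int p p') (h' : g.Int p' p'') : (f.comp g).Int p p'' := fun x => by
  show g.e (f.e (p • x)) = p'' • g.e (f.e x)
  rw [h x, h' (f.e x)]

/-- The linear map of the exchange of two rows: `(x, y, z, w) ↦ (x, z, y, -w)`. -/
def swapL (N : Type) [AddCommGroup N] [Module k N] :
    ((N × N) × (N × N)) ≃ₗ[k] ((N × N) × (N × N)) where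
  toFun t := ((t.1.1, t.2.1), (t.1.2, -t.2.2))
  invFun t := ((t.1.1, t.2.1), (t.1.2, -t.2.2))
  map_add' t t' := by
    simp [add_comm]
  map_smul' r t := by simp
  left_inv t := by simp
  right_inv t := by simp

/-- The exchange of two rows. -/
def swapRows (r₁ r₂ : Row k q c) (X : Cx k q c) :
    CIso (1 : k) ((X.addRow r₂).addRow r₁) ((X.addRow r₁).addRow r₂) where
  e := swapL X.N
  hd := by
    rintro ⟨⟨x, y⟩, ⟨z, w⟩⟩
    show (((X.d x + r₂.a • y + r₁.a • z, r₁.b • x - (X.d z + r₂.a • w)),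
        (r₂.b • x - X.d y + r₁.a • w, -(r₁.b • y - (r₂.b • z - X.d w)))) :
          (X.N × X.N) × (X.N × X.N))
      = ((X.d x + r₁.a • z + r₂.a • y, r₁.b • x - X.d z + r₂.a • (-w)),
        (r₂.b • x - (X.d y + r₁.a • (-w)), r₂.b • z - (r₁.b • y - X.d (-w))))
    rw [smul_neg, smul_neg, map_neg]
    refine Prod.ext (Prod.ext ?_ ?_) (Prod.ext ?_ ?_) <;> simp only <;> abel
  hφ := by
    rintro ⟨⟨x, y⟩, ⟨z, w⟩⟩
    show ((((r₁.s : k) • (r₂.s : k) • X.φ x, (r₂.s : k) • X.φ z),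
        ((r₁.s : k) • X.φ y, -(X.φ w))) : (X.N × X.N) × (X.N × X.N))
      = (1 : k) • (((r₂.s : k) • (r₁.s : k) • X.φ x, (r₂.s : k) • X.φ z),
        ((r₁.s : k) • X.φ y, X.φ (-w)))
    rw [one_smul, map_neg, smul_comm (r₁.s : k) (r₂.s : k)]

theorem swapRows_int (r₁ r₂ : Row k q c) (X : Cx k q c) {p p' : A k}
    (h : ∀ x : X.N, p • x = p' • x) : (swapRows r₁ r₂ X).Int p p' := by
  rintro ⟨⟨x, y⟩, ⟨z, w⟩⟩
  show (((p • x, p • z), (p • y, -(p • w))) : (X.N × X.N) × (X.N × X.N))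
    = ((p' • x, p' • z), (p' • y, p' • (-w)))
  rw [h x, h y, h z, h w, smul_neg]

theorem rows_perm {S S' : List (Row k q c)} (h : S.Perm S') :
    ∃ g : CIso 1 (X.rows S) (X.rows S'),
      ∀ p p' : A k, (∀ x : X.N, p • x = p' • x) → g.Int p p' := by
  induction h with
  | nil => exact ⟨CIso.refl X, fun p p' h x => h x⟩
  | cons r _ ih =>
    obtain ⟨g, hg⟩ := ih
    exact ⟨g.addRow r r rfl (hg _ _ fun _ => rfl) (hg _ _ fun _ => rfl),
      fun p p' hp => CIso.addRow_int rfl (hg _ _ fun _ => rfl) (hg _ _ fun _ => rfl)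
        (hg p p' hp)⟩
  | swap r₁ r₂ S =>
    exact ⟨swapRows r₂ r₁ (X.rows S), fun p p' hp => swapRows_int r₂ r₁ _ (rows_act S hp)⟩
  | trans _ _ ih₁ ih₂ =>
    obtain ⟨g₁, hg₁⟩ := ih₁
    obtain ⟨g₂, hg₂⟩ := ih₂
    exact ⟨g₁.comp g₂, fun p p' hp => CIso.comp_int (hg₁ p p' hp) (hg₂ p' p' fun _ => rfl)⟩

/-- The linear map `(x, y, z, w) ↦ (x, y, z + w₀ y, w)`. -/
def opL (N : Type) [AddCommGroup N] [Module k N] [Module (A k) N] [IsScalarTower k (A k) N]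
    (w₀ : A k) : ((N × N) × (N × N)) ≃ₗ[k] ((N × N) × (N × N)) where
  toFun t := (t.1, (t.2.1 + w₀ • t.1.2, t.2.2))
  invFun t := (t.1, (t.2.1 - w₀ • t.1.2, t.2.2))
  map_add' t t' := by
    refine Prod.ext rfl (Prod.ext ?_ rfl)
    show t.2.1 + t'.2.1 + w₀ • (t.1.2 + t'.1.2) = t.2.1 + w₀ • t.1.2 + (t'.2.1 + w₀ • t'.1.2)
    rw [smul_add]
    abel
  map_smul' r t := by
    refine Prod.ext rfl (Prod.ext ?_ rfl)
    show r • t.2.1 + w₀ • r • t.1.2 = r • (t.2.1 + w₀ • t.1.2)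
    rw [smul_add, smul_comm_kA]
  left_inv t := by simp
  right_inv t := by simp

/-- The row operation. -/
def opRows (X : Cx k q c) (r₁ r₂ r₁' r₂' : Row k q c) (w₀ : A k)
    (hs₁ : r₁'.s = r₁.s) (hs₂ : r₂'.s = r₂.s)
    (hw : (r₂.s : k) • scl k q w₀ = (r₁.s : k) • w₀)
    (ha₁ : ∀ x : X.N, r₁'.a • x = r₁.a • x) (hb₁ : ∀ x : X.N, r₁'.b • x = (r₁.b + w₀ * r₂.b) • x)
    (ha₂ : ∀ x : X.N, r₂'.a • x = (r₂.a - w₀ * r₁.a) • x) (hb₂ : ∀ x : X.N, r₂'.b • x = r₂.b • x) :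
    CIso (1 : k) ((X.addRow r₂).addRow r₁) ((X.addRow r₂').addRow r₁') where
  e := opL X.N w₀
  hd := by
    rintro ⟨⟨x, y⟩, ⟨z, w⟩⟩
    show (((X.d x + r₂.a • y + r₁.a • z, r₂.b • x - X.d y + r₁.a • w),
        (r₁.b • x - (X.d z + r₂.a • w) + w₀ • (r₂.b • x - X.d y + r₁.a • w),
          r₁.b • y - (r₂.b • z - X.d w))) : (X.N × X.N) × (X.N × X.N))
      = ((X.d x + r₂'.a • y + r₁'.a • (z + w₀ • y), r₂'.b • x - X.d y + r₁'.a • w),
        (r₁'.b • x - (X.d (z + w₀ • y) + r₂'.a • w),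
          r₁'.b • y - (r₂'.b • (z + w₀ • y) - X.d w)))
    rw [ha₁, ha₁, hb₁, hb₁, ha₂, ha₂, hb₂, hb₂, map_add, map_smul]
    refine Prod.ext (Prod.ext ?_ ?_) (Prod.ext ?_ ?_) <;> simp only
    · module
    · module
    · module
  hφ := by
    rintro ⟨⟨x, y⟩, ⟨z, w⟩⟩
    have h1 : (r₂.s : k) • X.φ (w₀ • y) = w₀ • (r₁.s : k) • X.φ y := by
      rw [X.φ_smul, ← smul_assoc, hw, smul_assoc, smul_comm_kA]
    show ((((r₁.s : k) • (r₂.s : k) • X.φ x, (r₁.s : k) • X.φ y),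
        ((r₂.s : k) • X.φ z + w₀ • (r₁.s : k) • X.φ y, X.φ w)) : (X.N × X.N) × (X.N × X.N))
      = (1 : k) • (((r₁'.s : k) • (r₂'.s : k) • X.φ x, (r₁'.s : k) • X.φ y),
        ((r₂'.s : k) • X.φ (z + w₀ • y), X.φ w))
    rw [one_smul, hs₁, hs₂, map_add, smul_add, h1]

theorem opRows_int {X : Cx k q c} {r₁ r₂ r₁' r₂' : Row k q c} {w₀ : A k}
    {hs₁ : r₁'.s = r₁.s} {hs₂ : r₂'.s = r₂.s}
    {hw : (r₂.s : k) • scl k q w₀ = (r₁.s : k) • w₀}
    {ha₁ : ∀ x : X.N, r₁'.a • x = r₁.a • x} {hb₁ : ∀ x : X.N, r₁'.b • x = (r₁.b + w₀ * r₂.b) • x}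
    {ha₂ : ∀ x : X.N, r₂'.a • x = (r₂.a - w₀ * r₁.a) • x} {hb₂ : ∀ x : X.N, r₂'.b • x = r₂.b • x}
    {p p' : A k} (h : ∀ x : X.N, p • x = p' • x) :
    (opRows X r₁ r₂ r₁' r₂' w₀ hs₁ hs₂ hw ha₁ hb₁ ha₂ hb₂).Int p p' := by
  rintro ⟨⟨x, y⟩, ⟨z, w⟩⟩
  show (((p • x, p • y), (p • z + w₀ • p • y, p • w)) : (X.N × X.N) × (X.N × X.N))
    = ((p' • x, p' • y), (p' • (z + w₀ • y), p' • w))
  rw [h x, h y, h z, h w, smul_add, smul_comm p' w₀]

/-- Row operation `z ↦ z + w y`. -/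
theorem rowop1 (S : List (Row k q c)) (r₁ r₂ r₁' r₂' : Row k q c) (w : A k)
    (hs₁ : r₁'.s = r₁.s) (hs₂ : r₂'.s = r₂.s)
    (hw : (r₂.s : k) • scl k q w = (r₁.s : k) • w)
    (ha₁ : ∀ x : X.N, r₁'.a • x = r₁.a • x) (hb₁ : ∀ x : X.N, r₁'.b • x = (r₁.b + w * r₂.b) • x)
    (ha₂ : ∀ x : X.N, r₂'.a • x = (r₂.a - w * r₁.a) • x) (hb₂ : ∀ x : X.N, r₂'.b • x = r₂.b • x) :
    ∃ g : CIso 1 (X.rows (r₁ :: r₂ :: S)) (X.rows (r₁' :: r₂' :: S)),
      ∀ p p' : A k, (∀ x : X.N, p • x = p' • x) → g.Int p p' :=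
  ⟨opRows (X.rows S) r₁ r₂ r₁' r₂' w hs₁ hs₂ hw (rows_act S ha₁) (rows_act S hb₁)
    (rows_act S ha₂) (rows_act S hb₂), fun p p' hp => opRows_int (rows_act S hp)⟩

end Pool.Agent.Lib.MP_31c440_gt.HV
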