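import Pool.Agent.Lib.MP_31c440_gt.HV.K5_Ring
import Pool.Agent.Lib.MP_31c440_gt.HV.K3_Elim

/-!
Elimination of a row for quotients of rings.
-/

noncomputable section

namespace Pool.Agent.Lib.MP_31c440_gt.HV

open MvPolynomial

variable {k : Type} [Field k] {q c : kˣ} {u v : k}

/-- stable ideals -/
def Stab (R : GR k q) (I : Ideal R.R) : Prop := ∀ x ∈ I, R.σ x ∈ I

theorem Stab.sup {R : GR k q} {I J : Ideal R.R} (h : Stab R I) (h' : Stab R J) :
    Stab R (I ⊔ J) := by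
  intro x hx
  obtain ⟨y, hy, z, hz, rfl⟩ := Submodule.mem_sup.1 hx
  rw [map_add]
  exact Submodule.add_mem_sup (h y hy) (h' z hz)

theorem Stab.bot (R : GR k q) : Stab R ⊥ := by
  intro x hx
  rw [Ideal.mem_bot] at *
  rw [hx, map_zero]

theorem Stab.span_singleton {R : GR k q} (x : R.R) (hx : ∃ m : k, R.σ x = m • x) :
    Stab R (Ideal.span {x}) := by
  obtain ⟨m, hm⟩ := hx
  intro y hy
  obtain ⟨z, rfl⟩ := Ideal.mem_span_singleton'.1 hy
  rw [map_mul, hm, Algebra.smul_def, ← mul_assoc]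
  exact Ideal.mul_mem_left _ _ (Ideal.mem_span_singleton_self x)

theorem Stab.span_f {R : GR k q} (x : A k) (hx : ∃ m : k, scl k q x = m • x) :
    Stab R (Ideal.span {R.f x}) := by
  obtain ⟨m, hm⟩ := hx
  exact Stab.span_singleton _ ⟨m, by rw [R.hσ, hm, map_smul]⟩

theorem quot_bot (R : GR k q) :
    ∃ g : CIso 1 ((R.quot ⊥ (Stab.bot R)).cx c) (R.cx c), ∀ p p', R.f p = R.f p' → g.Int p p' := by
  obtain ⟨g, hg⟩ := cx_iso (c := c) (R.quot ⊥ (Stab.bot R)) R (AlgEquiv.quotientBot k R.R) (by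
    intro x
    obtain ⟨x, rfl⟩ := Ideal.Quotient.mk_surjective x
    rfl)
  exact ⟨g, fun p p' h => hg p p' h⟩

/-- Equal ideals (for rewriting). -/
theorem quot_congr (R : GR k q) (I J : Ideal R.R) (hI : Stab R I) (hJ : Stab R J) (h : I = J) :
    ∃ g : CIso 1 ((R.quot I hI).cx c) ((R.quot J hJ).cx c),
      ∀ p p', R.f p - R.f p' ∈ I → g.Int p p' := by
  subst h
  refine ⟨CIso.refl _, fun p p' h x => ?_⟩
  obtain ⟨x, rfl⟩ := Ideal.Quotient.mk_surjective (I := I) x
  change Ideal.Quotient.mk I (R.f p) * Ideal.Quotient.mk I x =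
    Ideal.Quotient.mk I (R.f p') * Ideal.Quotient.mk I x
  rw [Ideal.Quotient.eq.2 h]

/-- A surjection whose kernel consists of the multiples of `x`. -/
theorem quot_iso {X Y : Cx k q c} (x : A k) (hx : ∃ m : k, scl k q x = m • x)
    (g : X.N →ₗ[k] Y.N) (hs : Function.Surjective g) (hk : ∀ y, g y = 0 ↔ ∃ z : X.N, x • z = y)
    (hd : ∀ y, g (X.d y) = Y.d (g y)) (hφ : ∀ y, g (X.φ y) = Y.φ (g y)) :
    ∃ e : CIso 1 (X.quot x hx) Y,
      ∀ p p' : A k, (∀ y : X.N, g (p • y) = p' • g y) → e.Int p p' := by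
  have hl : (LinearMap.range (LinearMap.lsmul (A k) X.N x)).restrictScalars k ≤
      LinearMap.ker g := by
    rintro _ ⟨z, rfl⟩
    exact (hk _).2 ⟨z, rfl⟩
  let G : (X.quot x hx).N →ₗ[k] Y.N :=
    ((LinearMap.range (LinearMap.lsmul (A k) X.N x)).restrictScalars k).liftQ g hl
  have hG : ∀ y : X.N, G (Submodule.Quotient.mk y) = g y := fun y => rfl
  have hb : Function.Bijective G := by
    constructor
    · rw [injective_iff_map_eq_zero]
      intro y hy
      obtain ⟨y, rfl⟩ := Submodule.Quotient.mk_surjective _ y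
      rw [hG, hk] at hy
      obtain ⟨z, hz⟩ := hy
      exact (Submodule.Quotient.mk_eq_zero _).2 ⟨z, hz⟩
    · intro y
      obtain ⟨z, rfl⟩ := hs y
      exact ⟨Submodule.Quotient.mk z, rfl⟩
  refine ⟨⟨LinearEquiv.ofBijective G hb, fun y => ?_, fun y => ?_⟩, fun p p' h y => ?_⟩
  · obtain ⟨y, rfl⟩ := Submodule.Quotient.mk_surjective _ y
    exact hd y
  · obtain ⟨y, rfl⟩ := Submodule.Quotient.mk_surjective _ y
    rw [one_smul]
    exact hφ y
  · obtain ⟨y, rfl⟩ := Submodule.Quotient.mk_surjective _ y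
    exact h y

/-- The quotient of a quotient. -/
theorem quot_quot (R : GR k q) (I : Ideal R.R) (hI : Stab R I) (x : A k)
    (hx : ∃ m : k, scl k q x = m • x) (hJ : Stab R (I ⊔ Ideal.span {R.f x})) :
    ∃ e : CIso 1 (((R.quot I hI).cx c).quot x hx)
        ((R.quot (I ⊔ Ideal.span {R.f x}) hJ).cx c), ∀ p : A k, e.Int p p := by
  obtain ⟨e, he⟩ := quot_iso (X := (R.quot I hI).cx c)
    (Y := (R.quot (I ⊔ Ideal.span {R.f x}) hJ).cx c) x hx
    (Ideal.Quotient.factorₐ k (le_sup_left : I ≤ I ⊔ Ideal.span {R.f x})).toLinearMap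
    (by
      intro y
      obtain ⟨y, rfl⟩ := Ideal.Quotient.mk_surjective y
      exact ⟨Ideal.Quotient.mk I y, rfl⟩)
    (by
      intro y
      obtain ⟨y, rfl⟩ := Ideal.Quotient.mk_surjective y
      change Ideal.Quotient.mk (I ⊔ Ideal.span {R.f x}) y = 0 ↔
        ∃ z : R.R ⧸ I, Ideal.Quotient.mk I (R.f x) * z = Ideal.Quotient.mk I y
      rw [Ideal.Quotient.eq_zero_iff_mem, Submodule.mem_sup]
      constructor
      · rintro ⟨a, ha, b, hb, rfl⟩
        obtain ⟨z, rfl⟩ := Ideal.mem_span_singleton'.1 hb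
        refine ⟨Ideal.Quotient.mk I z, ?_⟩
        rw [map_add, Ideal.Quotient.eq_zero_iff_mem.2 ha, zero_add, map_mul, mul_comm]
      · rintro ⟨z, hz⟩
        obtain ⟨z, rfl⟩ := Ideal.Quotient.mk_surjective z
        rw [← map_mul, Ideal.Quotient.eq] at hz
        refine ⟨y - R.f x * z, ?_, z * R.f x, Ideal.mul_mem_left _ _
          (Ideal.mem_span_singleton_self _), by ring⟩
        have := I.neg_mem hz
        rwa [neg_sub] at this)
    (fun y => map_zero _)
    (by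
      intro y
      obtain ⟨y, rfl⟩ := Ideal.Quotient.mk_surjective y
      rfl)
  refine ⟨e, fun p => he p p fun y => ?_⟩
  obtain ⟨y, rfl⟩ := Ideal.Quotient.mk_surjective y
  rfl

theorem quot_rows (R : GR k q) (I : Ideal R.R) (hI : Stab R I) (x : A k)
    (hx : ∃ m : k, scl k q x = m • x) (hJ : Stab R (I ⊔ Ideal.span {R.f x}))
    (S : List (Row k q c)) :
    HIso 1 ((((R.quot I hI).cx c).quot x hx).rows S)
      (((R.quot (I ⊔ Ideal.span {R.f x}) hJ).cx c).rows S) := by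
  obtain ⟨e, he⟩ := quot_quot (c := c) R I hI x hx hJ
  obtain ⟨g, -⟩ := rows_congr e S S (List.forall₂_same.2 fun r _ => ⟨rfl, he _, he _⟩)
  exact g.hIso

theorem elimB_quot (R : GR k q) (I : Ideal R.R) (hI : Stab R I) (r : Row k q c)
    (S : List (Row k q c)) (hJ : Stab R (I ⊔ Ideal.span {R.f r.b}))
    (hc : R.f (curv (r :: S)) ∈ I) (hb : ∀ x, R.f r.b * x ∈ I → x ∈ I) :
    HIso 1 (((R.quot I hI).cx c).rows (r :: S))
      (((R.quot (I ⊔ Ideal.span {R.f r.b}) hJ).cx c).rows S) := by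
  have hx : ∃ m : k, scl k q r.b = m • r.b := ⟨_, r.hb⟩
  have h1 := elimB r S ((R.quot I hI).cx c) hx rfl
    (by
      intro x
      obtain ⟨x, rfl⟩ := Ideal.Quotient.mk_surjective (I := I) x
      change Ideal.Quotient.mk I (R.f (curv (r :: S))) * Ideal.Quotient.mk I x = 0
      rw [Ideal.Quotient.eq_zero_iff_mem.2 hc, zero_mul])
    (by
      intro x h
      obtain ⟨x, rfl⟩ := Ideal.Quotient.mk_surjective x
      change Ideal.Quotient.mk I (R.f r.b) * Ideal.Quotient.mk I x = 0 at h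
      rw [← map_mul, Ideal.Quotient.eq_zero_iff_mem] at h
      exact Ideal.Quotient.eq_zero_iff_mem.2 (hb x h))
  have h2 := h1.trans (quot_rows R I hI r.b hx hJ S)
  rwa [one_mul] at h2

theorem elimA_quot (R : GR k q) (I : Ideal R.R) (hI : Stab R I) (r : Row k q c)
    (S : List (Row k q c)) (hJ : Stab R (I ⊔ Ideal.span {R.f r.a}))
    (hc : R.f (curv (r :: S)) ∈ I) (ha : ∀ x, R.f r.a * x ∈ I → x ∈ I) :
    HIso (r.s : k) (((R.quot I hI).cx c).rows (r :: S))
      (((R.quot (I ⊔ Ideal.span {R.f r.a}) hJ).cx c).rows S) := by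
  have hx : ∃ m : k, scl k q r.a = m • r.a := by
    refine ⟨((r.s : k))⁻¹ * c, ?_⟩
    rw [mul_smul, ← r.ha, inv_smul_smul₀ (Units.ne_zero r.s)]
  have h1 := elimA r S ((R.quot I hI).cx c) hx rfl
    (by
      intro x
      obtain ⟨x, rfl⟩ := Ideal.Quotient.mk_surjective (I := I) x
      change Ideal.Quotient.mk I (R.f (curv (r :: S))) * Ideal.Quotient.mk I x = 0
      rw [Ideal.Quotient.eq_zero_iff_mem.2 hc, zero_mul])
    (by
      intro x h
      obtain ⟨x, rfl⟩ := Ideal.Quotient.mk_surjective x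
      change Ideal.Quotient.mk I (R.f r.a) * Ideal.Quotient.mk I x = 0 at h
      rw [← map_mul, Ideal.Quotient.eq_zero_iff_mem] at h
      exact Ideal.Quotient.eq_zero_iff_mem.2 (ha x h))
  have h2 := h1.trans (quot_rows R I hI r.a hx hJ S)
  rwa [mul_one] at h2

end Pool.Agent.Lib.MP_31c440_gt.HV
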