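import Pool.Agent.Lib.MP_31c440_gt.HV.Graph
import Pool.Agent.Lib.MP_31c440_gt.HV.Defs

/-!
Functions on closed abstract graphs which satisfy the relations of Murakami, Ohtsuki and Yamada,
and the state sum over the crossings of a virtual link diagram.
-/

noncomputable section

namespace Pool.Agent.Lib.MP_31c440_gt.HV

/-- `X₁X₂X₁` with inputs `i₁ i₂ i₃`, outputs `o₁ o₂ o₃` and inner edges `x₁ x₂ x₃`. -/
def triL (i₁ i₂ i₃ o₁ o₂ o₃ x₁ x₂ x₃ : ℕ) : List GNode :=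
  [.vert i₁ i₂ x₁ x₂, .vert x₂ i₃ x₃ o₃, .vert x₁ x₃ o₁ o₂]

/-- `X₂X₁X₂` with inputs `i₁ i₂ i₃`, outputs `o₁ o₂ o₃` and inner edges `x₁ x₂ x₃`. -/
def triR (i₁ i₂ i₃ o₁ o₂ o₃ x₁ x₂ x₃ : ℕ) : List GNode :=
  [.vert i₂ i₃ x₂ x₃, .vert i₁ x₂ o₁ x₁, .vert x₁ x₃ o₂ o₃]

/-- The relations of Murakami, Ohtsuki and Yamada for a function on closed abstract graphs, with
`t = q ^ N`. -/
structure IsMOY {K : Type*} [Field K] (q t : K) (F : List GNode → K) : Prop where
  empty : F [] = 1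
  perm : ∀ G G', Closed G → G.Perm G' → F G = F G'
  relabel : ∀ G (g : ℕ → ℕ), Function.Injective g → Closed G → F (G.map (GNode.map g)) = F G
  swapIn : ∀ a b c d S, Closed (.vert a b c d :: S) →
    F (.vert a b c d :: S) = F (.vert b a c d :: S)
  swapOut : ∀ a b c d S, Closed (.vert a b c d :: S) →
    F (.vert a b c d :: S) = F (.vert a b d c :: S)
  arcArc : ∀ i e o S, Closed (.arc i e :: .arc e o :: S) →
    F (.arc i e :: .arc e o :: S) = F (.arc i o :: S)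
  arcVert : ∀ i a b c d S, Closed (.arc i a :: .vert a b c d :: S) →
    F (.arc i a :: .vert a b c d :: S) = F (.vert i b c d :: S)
  vertArc : ∀ a b c d o S, Closed (.vert a b c d :: .arc c o :: S) →
    F (.vert a b c d :: .arc c o :: S) = F (.vert a b o d :: S)
  circle : ∀ i S, Closed (.arc i i :: S) →
    F (.arc i i :: S) = (t - t⁻¹) / (q - q⁻¹) * F S
  loop : ∀ a b x S, [a, b, x].Nodup → Closed (.vert a x b x :: S) →
    F (.vert a x b x :: S) = (t * q⁻¹ - t⁻¹ * q) / (q - q⁻¹) * F (.arc a b :: S)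
  digon : ∀ a b x y c d S, [a, b, x, y, c, d].Nodup →
    Closed (.vert a b x y :: .vert x y c d :: S) →
    F (.vert a b x y :: .vert x y c d :: S) = (q + q⁻¹) * F (.vert a b c d :: S)
  anti : ∀ a b c d x y S, [a, b, c, d, x, y].Nodup →
    Closed (.vert a y b x :: .vert c x d y :: S) →
    F (.vert a y b x :: .vert c x d y :: S) =
      (t * q⁻¹ ^ 2 - t⁻¹ * q ^ 2) / (q - q⁻¹) * F (.arc a b :: .arc c d :: S) +
        F (.arc a d :: .arc c b :: S)
  tri : ∀ i₁ i₂ i₃ o₁ o₂ o₃ x₁ x₂ x₃ S, [i₁, i₂, i₃, o₁, o₂, o₃, x₁, x₂, x₃].Nodup →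
    Closed (triL i₁ i₂ i₃ o₁ o₂ o₃ x₁ x₂ x₃ ++ S) →
    F (triL i₁ i₂ i₃ o₁ o₂ o₃ x₁ x₂ x₃ ++ S) - F (.vert i₁ i₂ o₁ o₂ :: .arc i₃ o₃ :: S) =
      F (triR i₁ i₂ i₃ o₁ o₂ o₃ x₁ x₂ x₃ ++ S) - F (.vert i₂ i₃ o₂ o₃ :: .arc i₁ o₁ :: S)

/-- The state sum: every crossing is replaced by `q^{±1}` times the oriented smoothing minus the
vertex, with an overall factor `t^{∓1}`. The second list collects the nodes of the graph. -/
def Phi {K : Type*} [Field K] (q t : K) (F : List GNode → K) : List Node → List GNode → K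
  | [], G => F G
  | .arc i o :: L, G => Phi q t F L (.arc i o :: G)
  | .xing s a b c d :: L, G =>
      (if s then t⁻¹ else t) * ((if s then q else q⁻¹) * Phi q t F L (.arc a d :: .arc c b :: G) -
        Phi q t F L (.vert a c b d :: G))

end Pool.Agent.Lib.MP_31c440_gt.HV
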