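import Pool.Agent.Lib.MP_31c440_gt.HV.Core

/-!
Rings as differential modules with `d = 0`: polynomial extensions, quotients, the base ring of a
list of variables.
-/

noncomputable section

namespace Pool.Agent.Lib.MP_31c440_gt.HV

open MvPolynomial

/-- A commutative ring over the ring `A k` of polynomials, with a scaling. -/
structure GR (k : Type) [Field k] (q : kˣ) where
  R : Type
  [cr : CommRing R]
  [al : Algebra k R]
  f : A k →ₐ[k] R
  σ : R →ₐ[k] R
  hσ : ∀ p : A k, σ (f p) = f (scl k q p)

attribute [instance] GR.cr GR.al

variable {k : Type} [Field k] {q : kˣ}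

namespace GR

/-- The ring as a differential module with `d = 0`. -/
def cx (c : kˣ) (R : GR k q) : Cx k q c where
  N := R.R
  mA := Module.compHom R.R R.f.toRingHom
  st := by
    let _ : Module (A k) R.R := Module.compHom R.R R.f.toRingHom
    exact ⟨fun r p x => by
      change R.f (r • p) * x = r • (R.f p * x)
      rw [map_smul, smul_mul_assoc]⟩
  φ := R.σ.toLinearMap
  φ_smul p x := by
    change R.σ (R.f p * x) = R.f (scl k q p) * R.σ x
    rw [map_mul, R.hσ]
  d := 0
  hd x := by simp

/-- The scaling on polynomials in one more variable. -/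
def polyσ (R : GR k q) : Polynomial R.R →ₐ[k] Polynomial R.R :=
  ((Polynomial.aeval (((q : k) ^ 2) • (Polynomial.X : Polynomial R.R))).restrictScalars k).comp
    (Polynomial.mapAlgHom R.σ)

@[simp] theorem polyσ_C (R : GR k q) (r : R.R) :
    R.polyσ (Polynomial.C r) = Polynomial.C (R.σ r) := by
  simp [polyσ]

@[simp] theorem polyσ_X (R : GR k q) :
    R.polyσ Polynomial.X = ((q : k) ^ 2) • (Polynomial.X : Polynomial R.R) := by
  simp [polyσ]

theorem scl_X (v : ℕ) : scl k q (X v) = C ((q : k) ^ 2) * X v := by
  simp [scl]

/-- The polynomial ring in one more variable, which is the image of the variable `x`. -/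
abbrev poly (R : GR k q) (x : ℕ) : GR k q where
  R := Polynomial R.R
  f := aeval fun v => if v = x then Polynomial.X else Polynomial.C (R.f (X v))
  σ := R.polyσ
  hσ p := by
    have h : R.polyσ.comp (aeval fun v => if v = x then Polynomial.X else
        Polynomial.C (R.f (X v))) = (aeval fun v => if v = x then Polynomial.X else
        Polynomial.C (R.f (X v))).comp (scl k q) := by
      ext v
      simp only [AlgHom.comp_apply, aeval_X, scl_X, map_mul, algHom_C]
      split_ifs with hv
      · simp [Algebra.smul_def]
      · simp [R.hσ, scl_X]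
    exact DFunLike.congr_fun h p

/-- The quotient by an ideal. -/
abbrev quot (R : GR k q) (I : Ideal R.R) (hI : ∀ x ∈ I, R.σ x ∈ I) : GR k q where
  R := R.R ⧸ I
  f := (Ideal.Quotient.mkₐ k I).comp R.f
  σ := Ideal.quotientMapₐ I R.σ hI
  hσ p := by
    change Ideal.Quotient.mk I (R.σ (R.f p)) = _
    rw [R.hσ]
    rfl

/-- The ground field. -/
abbrev ground (k : Type) [Field k] (q : kˣ) : GR k q where
  R := k
  f := aeval fun _ => 0
  σ := AlgHom.id k k
  hσ p := by
    have h : (AlgHom.id k k).comp (aeval fun _ : ℕ => (0 : k)) =
        (aeval fun _ : ℕ => (0 : k)).comp (scl k q) := by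
      ext v
      simp [scl_X]
    exact DFunLike.congr_fun h p

/-- The polynomial ring in the variables from a list. -/
def base (k : Type) [Field k] (q : kˣ) : List ℕ → GR k q
  | [] => ground k q
  | x :: l => (base k q l).poly x

end GR

end Pool.Agent.Lib.MP_31c440_gt.HV
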