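import Pool.Agent.Lib.MP_31c440_gt.HV.Moy

/-!
The state sum: closed pairs of a diagram and a graph, linear relations between graphs pass to the
state sum, independence of the order and of the names of the labels, virtualisation.
-/

noncomputable section

namespace Pool.Agent.Lib.MP_31c440_gt.HV

variable {K : Type*} [Field K] {q t : K} {F : List GNode → K}

/-- The pair of a diagram and a graph is closed. -/
def ClosedP (L : List Node) (G : List GNode) : Prop :=
  (insOf L ++ insG G).Nodup ∧ (insOf L ++ insG G).Perm (outsOf L ++ outsG G)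

theorem closedP_nil {G : List GNode} : ClosedP [] G ↔ Closed G := Iff.rfl

theorem closedP_of_isDiagram {L : List Node} : ClosedP L [] ↔ IsDiagram L := by
  simp [ClosedP, IsDiagram, insG, outsG]

theorem ClosedP.of_perm {L L' : List Node} {G G' : List GNode} (h : ClosedP L G)
    (hi : (insOf L ++ insG G).Perm (insOf L' ++ insG G'))
    (ho : (outsOf L ++ outsG G).Perm (outsOf L' ++ outsG G')) : ClosedP L' G' :=
  ⟨hi.nodup_iff.1 h.1, hi.symm.trans (h.2.trans ho)⟩

theorem ClosedP.arc {i o : ℕ} {L : List Node} {G : List GNode} (h : ClosedP (.arc i o :: L) G) :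
    ClosedP L (.arc i o :: G) :=
  h.of_perm (List.perm_append_comm_assoc [i] (insOf L) (insG G))
    (List.perm_append_comm_assoc [o] (outsOf L) (outsG G))

theorem ClosedP.smooth {s : Bool} {a b c d : ℕ} {L : List Node} {G : List GNode}
    (h : ClosedP (.xing s a b c d :: L) G) : ClosedP L (.arc a d :: .arc c b :: G) :=
  h.of_perm (List.perm_append_comm_assoc [a, c] (insOf L) (insG G))
    ((List.perm_append_comm_assoc [b, d] (outsOf L) (outsG G)).trans
      ((List.Perm.swap d b (outsG G)).append_left (outsOf L)))

theorem ClosedP.vert {s : Bool} {a b c d : ℕ} {L : List Node} {G : List GNode}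
    (h : ClosedP (.xing s a b c d :: L) G) : ClosedP L (.vert a c b d :: G) :=
  h.of_perm (List.perm_append_comm_assoc [a, c] (insOf L) (insG G))
    (List.perm_append_comm_assoc [b, d] (outsOf L) (outsG G))

theorem ClosedP.perm {L L' : List Node} {G G' : List GNode} (h : ClosedP L G) (hL : L.Perm L')
    (hG : G.Perm G') : ClosedP L' G' :=
  h.of_perm ((hL.flatMap_right _).append (hG.flatMap_right _))
    ((hL.flatMap_right _).append (hG.flatMap_right _))

theorem Phi_permG (hF : IsMOY q t F) {L : List Node} {G G' : List GNode} (h : ClosedP L G)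
    (hG : G.Perm G') : Phi q t F L G = Phi q t F L G' := by
  induction L generalizing G G' with
  | nil => exact hF.perm G G' h hG
  | cons x L ih =>
    cases x with
    | arc i o => exact ih h.arc (hG.cons _)
    | xing s a b c d =>
      rw [Phi, Phi, ih h.smooth ((hG.cons _).cons _), ih h.vert (hG.cons _)]

theorem Phi_local (hF : IsMOY q t F) (Γ : List (K × List GNode))
    (hΓ : ∀ H, (∀ x ∈ Γ, Closed (x.2 ++ H)) → (Γ.map fun x => x.1 * F (x.2 ++ H)).sum = 0)
    (S : List Node) (G : List GNode) (h : ∀ x ∈ Γ, ClosedP S (x.2 ++ G)) :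
    (Γ.map fun x => x.1 * Phi q t F S (x.2 ++ G)).sum = 0 := by
  induction S generalizing G with
  | nil => exact hΓ G h
  | cons y S ih =>
    have hp : ∀ (P : List GNode) (z : GNode), (z :: (P ++ G)).Perm (P ++ z :: G) := fun P z =>
      (List.perm_append_comm_assoc [z] P G)
    cases y with
    | arc i o =>
      have h1 : (Γ.map fun x => x.1 * Phi q t F (.arc i o :: S) (x.2 ++ G)) =
          Γ.map fun x => x.1 * Phi q t F S (x.2 ++ .arc i o :: G) :=
        List.map_congr_left fun x hx => by
          rw [Phi, Phi_permG hF (h x hx).arc (hp _ _)]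
      rw [h1]
      exact ih _ fun x hx => (h x hx).arc.perm (List.Perm.refl _) (hp _ _)
    | xing s a b c d =>
      have hp2 : ∀ (P : List GNode) (z w : GNode),
          (z :: w :: (P ++ G)).Perm (P ++ z :: w :: G) := fun P z w =>
        (List.perm_append_comm_assoc [z, w] P G)
      have h1 : (Γ.map fun x => x.1 * Phi q t F (.xing s a b c d :: S) (x.2 ++ G)) =
          Γ.map fun x => x.1 * ((if s then t⁻¹ else t) * ((if s then q else q⁻¹) *
            Phi q t F S (x.2 ++ .arc a d :: .arc c b :: G) -
              Phi q t F S (x.2 ++ .vert a c b d :: G))) :=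
        List.map_congr_left fun x hx => by
          rw [Phi, Phi_permG hF (h x hx).smooth (hp2 _ _ _), Phi_permG hF (h x hx).vert (hp _ _)]
      have h2 : ∀ (u v : K) (f g : List GNode → K) (Γ : List (K × List GNode)),
          (Γ.map fun x => x.1 * (u * (v * f x.2 - g x.2))).sum =
            u * (v * (Γ.map fun x => x.1 * f x.2).sum - (Γ.map fun x => x.1 * g x.2).sum) := by
        intro u v f g Γ
        induction Γ with
        | nil => simp
        | cons x Γ ih => simp only [List.map_cons, List.sum_cons, ih]; ring
      rw [h1, h2 _ _ (fun P => Phi q t F S (P ++ .arc a d :: .arc c b :: G))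
        (fun P => Phi q t F S (P ++ .vert a c b d :: G)),
        ih _ fun x hx => (h x hx).smooth.perm (List.Perm.refl _) (hp2 _ _ _),
        ih _ fun x hx => (h x hx).vert.perm (List.Perm.refl _) (hp _ _)]
      ring

theorem Phi_swap (hF : IsMOY q t F) {x y : Node} {L : List Node} {G : List GNode}
    (h : ClosedP (y :: x :: L) G) :
    Phi q t F (y :: x :: L) G = Phi q t F (x :: y :: L) G := by
  cases x with
  | arc i o =>
    cases y with
    | arc i' o' => exact Phi_permG hF h.arc.arc (List.Perm.swap _ _ _)
    | xing s a b c d =>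
      have h1 : Phi q t F L (.arc i o :: .arc a d :: .arc c b :: G) =
          Phi q t F L (.arc a d :: .arc c b :: .arc i o :: G) :=
        Phi_permG hF h.smooth.arc (List.perm_append_comm_assoc [GNode.arc i o] [GNode.arc a d, GNode.arc c b] G)
      have h2 : Phi q t F L (.arc i o :: .vert a c b d :: G) =
          Phi q t F L (.vert a c b d :: .arc i o :: G) :=
        Phi_permG hF h.vert.arc (List.Perm.swap _ _ _)
      simp only [Phi, h1, h2]
  | xing s a b c d =>
    cases y with
    | arc i o =>
      have h1 : Phi q t F L (.arc a d :: .arc c b :: .arc i o :: G) =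
          Phi q t F L (.arc i o :: .arc a d :: .arc c b :: G) :=
        Phi_permG hF h.arc.smooth (List.perm_append_comm_assoc [GNode.arc a d, GNode.arc c b] [GNode.arc i o] G)
      have h2 : Phi q t F L (.vert a c b d :: .arc i o :: G) =
          Phi q t F L (.arc i o :: .vert a c b d :: G) :=
        Phi_permG hF h.arc.vert (List.Perm.swap _ _ _)
      simp only [Phi, h1, h2]
    | xing s' a' b' c' d' =>
      have h1 : Phi q t F L (.arc a d :: .arc c b :: .arc a' d' :: .arc c' b' :: G) =
          Phi q t F L (.arc a' d' :: .arc c' b' :: .arc a d :: .arc c b :: G) :=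
        Phi_permG hF h.smooth.smooth
          (List.perm_append_comm_assoc [GNode.arc a d, GNode.arc c b] [GNode.arc a' d', GNode.arc c' b'] G)
      have h2 : Phi q t F L (.vert a c b d :: .arc a' d' :: .arc c' b' :: G) =
          Phi q t F L (.arc a' d' :: .arc c' b' :: .vert a c b d :: G) :=
        Phi_permG hF h.smooth.vert
          (List.perm_append_comm_assoc [GNode.vert a c b d] [GNode.arc a' d', GNode.arc c' b'] G)
      have h3 : Phi q t F L (.arc a d :: .arc c b :: .vert a' c' b' d' :: G) =
          Phi q t F L (.vert a' c' b' d' :: .arc a d :: .arc c b :: G) :=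
        Phi_permG hF h.vert.smooth
          (List.perm_append_comm_assoc [GNode.arc a d, GNode.arc c b] [GNode.vert a' c' b' d'] G)
      have h4 : Phi q t F L (.vert a c b d :: .vert a' c' b' d' :: G) =
          Phi q t F L (.vert a' c' b' d' :: .vert a c b d :: G) :=
        Phi_permG hF h.vert.vert (List.Perm.swap _ _ _)
      simp only [Phi, h1, h2, h3, h4]
      ring

theorem Phi_permL (hF : IsMOY q t F) {L L' : List Node} (hL : L.Perm L') :
    ∀ {G : List GNode}, ClosedP L G → Phi q t F L G = Phi q t F L' G := by
  induction hL with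
  | nil => intro G _; rfl
  | cons x _ ih =>
    intro G h
    cases x with
    | arc i o => exact ih h.arc
    | xing s a b c d => rw [Phi, Phi, ih h.smooth, ih h.vert]
  | swap x y l => intro G h; exact Phi_swap hF h
  | trans h1 _ ih1 ih2 =>
    intro G h
    exact (ih1 h).trans (ih2 (h.perm h1 (List.Perm.refl _)))

theorem Phi_perm (hF : IsMOY q t F) {L L' : List Node} {G G' : List GNode} (h : ClosedP L G)
    (hL : L.Perm L') (hG : G.Perm G') : Phi q t F L G = Phi q t F L' G' :=
  (Phi_permL hF hL h).trans (Phi_permG hF (h.perm hL (List.Perm.refl _)) hG)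

theorem Phi_relabel (hF : IsMOY q t F) {L : List Node} {G : List GNode} (h : ClosedP L G)
    (g : ℕ → ℕ) (hg : Function.Injective g) :
    Phi q t F (L.map (Node.map g)) (G.map (GNode.map g)) = Phi q t F L G := by
  induction L generalizing G with
  | nil => exact hF.relabel G g hg h
  | cons x L ih =>
    cases x with
    | arc i o => exact ih h.arc
    | xing s a b c d =>
      have h1 := ih h.smooth
      have h2 := ih h.vert
      simp only [List.map_cons, GNode.map] at h1 h2
      simp only [List.map_cons, Node.map, Phi, h1, h2]

theorem Phi_virt (hF : IsMOY q t F) {s : Bool} {a b c d : ℕ} {L : List Node} {G : List GNode}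
    (h : ClosedP (.xing s a b c d :: L) G) :
    Phi q t F (.xing s a b c d :: L) G = Phi q t F (.xing s c d a b :: L) G := by
  have h1 : Phi q t F L (.arc a d :: .arc c b :: G) = Phi q t F L (.arc c b :: .arc a d :: G) :=
    Phi_permG hF h.smooth (List.Perm.swap _ _ _)
  have h' : ClosedP (.xing s c d a b :: L) G :=
    h.of_perm (List.Perm.swap _ _ _) (List.Perm.swap _ _ _)
  have h2 : Phi q t F L (.vert a c b d :: G) = Phi q t F L (.vert c a d b :: G) := by
    have key := Phi_local hF [(1, [.vert a c b d]), (-1, [.vert c a d b])] ?_ L G ?_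
    · simp only [List.map_cons, List.map_nil, List.sum_cons, List.sum_nil, List.singleton_append]
        at key
      linear_combination key
    · intro H hH
      have hc : Closed (.vert a c b d :: H) := hH (1, [.vert a c b d]) (by simp)
      have hc2 : Closed (.vert c a b d :: H) :=
        ⟨(List.Perm.swap c a (insG H)).nodup_iff.1 hc.1,
          (List.Perm.swap c a (insG H)).symm.trans hc.2⟩
      have h3 := hF.swapIn a c b d H hc
      have h4 := hF.swapOut c a b d H hc2
      simp only [List.map_cons, List.map_nil, List.sum_cons, List.sum_nil, List.singleton_append]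
      rw [h3, h4]
      ring
    · intro x hx
      simp only [List.mem_cons, List.not_mem_nil, or_false] at hx
      rcases hx with rfl | rfl
      · exact h.vert
      · exact h'.vert
  rw [Phi, Phi, h1, h2]

end Pool.Agent.Lib.MP_31c440_gt.HV
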