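import Pool.Agent.Lib.MP_31c440_gt.HV.Moy

/-!
The relations of Murakami, Ohtsuki and Yamada without the assumption that the labels are pairwise
different: the outgoing labels of the piece are replaced by fresh labels, joined to the old ones by
marked points.
-/

noncomputable section

namespace Pool.Agent.Lib.MP_31c440_gt.HV

variable {K : Type*} [Field K] {q t : K} {F : List GNode → K}

namespace Pull

/-- `1` if `a = v`, else `0`. -/
def dl (a v : ℕ) : ℕ := if a = v then 1 else 0

theorem dl_self (a : ℕ) : dl a a = 1 := if_pos rfl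

theorem dl_ne {a v : ℕ} (h : a ≠ v) : dl a v = 0 := if_neg h

/-- Number of nodes with the incoming label `v`. -/
def ci (v : ℕ) (G : List GNode) : ℕ := (insG G).count v

/-- Number of nodes with the outgoing label `v`. -/
def co (v : ℕ) (G : List GNode) : ℕ := (outsG G).count v

theorem ci_arc (v i o : ℕ) (S : List GNode) : ci v (.arc i o :: S) = dl i v + ci v S := by
  simp [ci, insG, GNode.ins, dl, List.count_cons, Nat.add_comm]

theorem co_arc (v i o : ℕ) (S : List GNode) : co v (.arc i o :: S) = dl o v + co v S := by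
  simp [co, outsG, GNode.outs, dl, List.count_cons, Nat.add_comm]

theorem ci_vert (v a b c d : ℕ) (S : List GNode) :
    ci v (.vert a b c d :: S) = dl a v + dl b v + ci v S := by
  simp [ci, insG, GNode.ins, dl, List.count_cons]
  omega

theorem co_vert (v a b c d : ℕ) (S : List GNode) :
    co v (.vert a b c d :: S) = dl c v + dl d v + co v S := by
  simp [co, outsG, GNode.outs, dl, List.count_cons]
  omega

theorem closed_iff (G : List GNode) :
    Closed G ↔ ∀ v, ci v G ≤ 1 ∧ ci v G = co v G := by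
  unfold Closed ci co
  rw [List.nodup_iff_count_le_one, List.perm_iff_count]
  exact forall_and.symm

theorem exists_fresh (l : List ℕ) : ∃ e, ∀ v ∈ l, v ≠ e := by
  refine ⟨l.sum + 1, fun v hv => ?_⟩
  have := List.single_le_sum (fun _ _ => Nat.zero_le _) v hv
  omega

theorem closed_of {G G' : List GNode} (h : Closed G)
    (h' : ∀ v, ci v G' ≤ ci v G ∧ co v G' + ci v G = ci v G' + co v G) : Closed G' := by
  rw [closed_iff] at h ⊢
  intro v
  have h1 := h v
  have h2 := h' v
  omega

theorem perm_of {L L' : List GNode} (h : ∀ v, L.count v = L'.count v) : L.Perm L' :=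
  List.perm_iff_count.2 h

theorem fresh (l : List ℕ) (S : List GNode) :
    ∃ e, (∀ v ∈ l, v ≠ e) ∧ ci e S = 0 ∧ co e S = 0 := by
  obtain ⟨e, he⟩ := exists_fresh (l ++ (insG S ++ outsG S))
  refine ⟨e, fun v hv => he v (List.mem_append_left _ hv), ?_, ?_⟩
  · refine List.count_eq_zero_of_not_mem fun h => he e ?_ rfl
    exact List.mem_append_right _ (List.mem_append_left _ h)
  · refine List.count_eq_zero_of_not_mem fun h => he e ?_ rfl
    exact List.mem_append_right _ (List.mem_append_right _ h)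

end Pull

open Pull

theorem F_vertArc' (hF : IsMOY q t F) (a b c d o : ℕ) (S : List GNode)
    (h : Closed (.vert a b c d :: .arc d o :: S)) :
    F (.vert a b c d :: .arc d o :: S) = F (.vert a b c o :: S) := by
  have h1 : Closed (.vert a b d c :: .arc d o :: S) := closed_of h fun v => by
    simp only [ci_vert, co_vert, ci_arc, co_arc]
    omega
  have h2 : Closed (.vert a b o c :: S) := closed_of h fun v => by
    simp only [ci_vert, co_vert, ci_arc, co_arc]
    omega
  rw [hF.swapOut _ _ _ _ _ h, hF.vertArc _ _ _ _ _ _ h1, hF.swapOut _ _ _ _ _ h2]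

/-- Contraction of a marked point after the first outgoing edge of a vertex. -/
theorem F_c1 (hF : IsMOY q t F) {G G' : List GNode} (a b c d o : ℕ) (S : List GNode)
    (h : Closed G) (hp : G.Perm (.vert a b c d :: .arc c o :: S))
    (hp' : (.vert a b o d :: S : List GNode).Perm G') : F G = F G' := by
  have h1 : Closed (.vert a b c d :: .arc c o :: S) := by
    obtain ⟨h2, h3⟩ := h
    have hi : (insG G).Perm (insG (.vert a b c d :: .arc c o :: S)) := hp.flatMap_right _
    have ho : (outsG G).Perm (outsG (.vert a b c d :: .arc c o :: S)) := hp.flatMap_right _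
    exact ⟨hi.nodup_iff.1 h2, (hi.symm.trans h3).trans ho⟩
  have h2 : Closed (.vert a b o d :: S) := closed_of h1 fun v => by
    simp only [ci_vert, co_vert, ci_arc, co_arc]
    omega
  rw [hF.perm _ _ h hp, hF.vertArc _ _ _ _ _ _ h1, hF.perm _ _ h2 hp']

/-- Contraction of a marked point after the second outgoing edge of a vertex. -/
theorem F_c2 (hF : IsMOY q t F) {G G' : List GNode} (a b c d o : ℕ) (S : List GNode)
    (h : Closed G) (hp : G.Perm (.vert a b c d :: .arc d o :: S))
    (hp' : (.vert a b c o :: S : List GNode).Perm G') : F G = F G' := by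
  have h1 : Closed (.vert a b c d :: .arc d o :: S) := by
    obtain ⟨h2, h3⟩ := h
    have hi : (insG G).Perm (insG (.vert a b c d :: .arc d o :: S)) := hp.flatMap_right _
    have ho : (outsG G).Perm (outsG (.vert a b c d :: .arc d o :: S)) := hp.flatMap_right _
    exact ⟨hi.nodup_iff.1 h2, (hi.symm.trans h3).trans ho⟩
  have h2 : Closed (.vert a b c o :: S) := closed_of h1 fun v => by
    simp only [ci_vert, co_vert, ci_arc, co_arc]
    omega
  rw [hF.perm _ _ h hp, F_vertArc' hF _ _ _ _ _ _ h1, hF.perm _ _ h2 hp']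

/-- Contraction of a marked point after a marked point. -/
theorem F_c3 (hF : IsMOY q t F) {G G' : List GNode} (i e o : ℕ) (S : List GNode)
    (h : Closed G) (hp : G.Perm (.arc i e :: .arc e o :: S))
    (hp' : (.arc i o :: S : List GNode).Perm G') : F G = F G' := by
  have h1 : Closed (.arc i e :: .arc e o :: S) := by
    obtain ⟨h2, h3⟩ := h
    have hi : (insG G).Perm (insG (.arc i e :: .arc e o :: S)) := hp.flatMap_right _
    have ho : (outsG G).Perm (outsG (.arc i e :: .arc e o :: S)) := hp.flatMap_right _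
    exact ⟨hi.nodup_iff.1 h2, (hi.symm.trans h3).trans ho⟩
  have h2 : Closed (.arc i o :: S) := closed_of h1 fun v => by
    simp only [ci_vert, co_vert, ci_arc, co_arc]
    omega
  rw [hF.perm _ _ h hp, hF.arcArc _ _ _ _ h1, hF.perm _ _ h2 hp']

theorem F_loop (hF : IsMOY q t F) (a b x : ℕ) (S : List GNode)
    (h : Closed (.vert a x b x :: S)) :
    F (.vert a x b x :: S) = (t * q⁻¹ - t⁻¹ * q) / (q - q⁻¹) * F (.arc a b :: S) := by
  have h0 := (closed_iff _).1 h
  simp only [ci_vert, co_vert] at h0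
  obtain ⟨e, he, hi, ho⟩ := fresh [a, b, x] S
  have hae : a ≠ e := he a (by simp)
  have hbe : b ≠ e := he b (by simp)
  have hxe : x ≠ e := he x (by simp)
  have hax : a ≠ x := by
    rintro rfl
    have := (h0 a).1
    rw [dl_self] at this
    omega
  have h1 : Closed (.vert a x e x :: .arc e b :: S) := by
    rw [closed_iff]
    intro v
    simp only [ci_vert, co_vert, ci_arc, co_arc]
    by_cases hv : v = e
    · subst hv
      rw [dl_self, dl_ne hae, dl_ne hbe, dl_ne hxe]
      omega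
    · have := h0 v
      rw [dl_ne (Ne.symm hv)]
      omega
  have h2 : Closed (.arc a e :: .arc e b :: S) := by
    rw [closed_iff]
    intro v
    simp only [ci_arc, co_arc]
    by_cases hv : v = e
    · subst hv
      rw [dl_self, dl_ne hae, dl_ne hbe]
      omega
    · have := h0 v
      rw [dl_ne (Ne.symm hv)]
      omega
  rw [← hF.vertArc a x e x b S h1, hF.loop a e x (.arc e b :: S) ?_ h1, hF.arcArc _ _ _ _ h2]
  simp [hae, hxe.symm, hax]

theorem F_digon (hF : IsMOY q t F) (a b x y c d : ℕ) (S : List GNode)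
    (h : Closed (.vert a b x y :: .vert x y c d :: S)) :
    F (.vert a b x y :: .vert x y c d :: S) = (q + q⁻¹) * F (.vert a b c d :: S) := by
  have h0 := (closed_iff _).1 h
  simp only [ci_vert, co_vert] at h0
  obtain ⟨e, he, hei, heo⟩ := fresh [a, b, x, y, c, d] S
  obtain ⟨f, hf, hfi, hfo⟩ := fresh [a, b, x, y, c, d, e] S
  have hae : a ≠ e := he a (by simp)
  have hbe : b ≠ e := he b (by simp)
  have hxe : x ≠ e := he x (by simp)
  have hye : y ≠ e := he y (by simp)
  have hce : c ≠ e := he c (by simp)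
  have hde : d ≠ e := he d (by simp)
  have haf : a ≠ f := hf a (by simp)
  have hbf : b ≠ f := hf b (by simp)
  have hxf : x ≠ f := hf x (by simp)
  have hyf : y ≠ f := hf y (by simp)
  have hcf : c ≠ f := hf c (by simp)
  have hdf : d ≠ f := hf d (by simp)
  have hef : e ≠ f := hf e (by simp)
  have hab : a ≠ b := by
    rintro rfl
    have := (h0 a).1
    rw [dl_self] at this
    omega
  have hax : a ≠ x := by
    rintro rfl
    have := (h0 a).1
    rw [dl_self] at this
    omega
  have hay : a ≠ y := by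
    rintro rfl
    have := (h0 a).1
    rw [dl_self] at this
    omega
  have hbx : b ≠ x := by
    rintro rfl
    have := (h0 b).1
    rw [dl_self] at this
    omega
  have hby : b ≠ y := by
    rintro rfl
    have := (h0 b).1
    rw [dl_self] at this
    omega
  have hxy : x ≠ y := by
    rintro rfl
    have := (h0 x).1
    rw [dl_self] at this
    omega
  have h1 : Closed (.vert a b x y :: .vert x y e f :: .arc e c :: .arc f d :: S) := by
    rw [closed_iff]
    intro v
    simp only [ci_vert, co_vert, ci_arc, co_arc]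
    by_cases hv : v = e
    · subst hv
      rw [dl_self, dl_ne hae, dl_ne hbe, dl_ne hxe, dl_ne hye, dl_ne hce, dl_ne hde,
        dl_ne hef.symm]
      omega
    by_cases hv' : v = f
    · subst hv'
      rw [dl_self, dl_ne haf, dl_ne hbf, dl_ne hxf, dl_ne hyf, dl_ne hcf, dl_ne hdf,
        dl_ne hef]
      omega
    · have := h0 v
      rw [dl_ne (Ne.symm hv), dl_ne (Ne.symm hv')]
      omega
  have h2 : Closed (.vert a b x y :: .vert x y c f :: .arc f d :: S) := closed_of h1 fun v => by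
    simp only [ci_vert, co_vert, ci_arc, co_arc]
    omega
  have h3 : Closed (.vert a b e f :: .arc e c :: .arc f d :: S) := closed_of h1 fun v => by
    simp only [ci_vert, co_vert, ci_arc, co_arc]
    omega
  have h4 : Closed (.vert a b c f :: .arc f d :: S) := closed_of h1 fun v => by
    simp only [ci_vert, co_vert, ci_arc, co_arc]
    omega
  have e1 : F (.vert a b x y :: .vert x y e f :: .arc e c :: .arc f d :: S) =
      F (.vert a b x y :: .vert x y c f :: .arc f d :: S) :=
    F_c1 hF x y e f c (.vert a b x y :: .arc f d :: S) h1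
      (perm_of fun v => by simp only [List.count_cons] <;> omega)
      (perm_of fun v => by simp only [List.count_cons] <;> omega)
  have e2 : F (.vert a b x y :: .vert x y c f :: .arc f d :: S) =
      F (.vert a b x y :: .vert x y c d :: S) :=
    F_c2 hF x y c f d (.vert a b x y :: S) h2
      (perm_of fun v => by simp only [List.count_cons] <;> omega)
      (perm_of fun v => by simp only [List.count_cons] <;> omega)
  have e3 : F (.vert a b e f :: .arc e c :: .arc f d :: S) = F (.vert a b c f :: .arc f d :: S) :=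
    hF.vertArc _ _ _ _ _ _ h3
  have e4 : F (.vert a b c f :: .arc f d :: S) = F (.vert a b c d :: S) :=
    F_vertArc' hF _ _ _ _ _ _ h4
  rw [← e2, ← e1, ← e4, ← e3]
  refine hF.digon a b x y e f _ ?_ h1
  simp [hab, hax, hay, hae, haf, hbx, hby, hbe, hbf, hxy, hxe, hxf, hye, hyf, hef]

theorem F_anti (hF : IsMOY q t F) (a b c d x y : ℕ) (S : List GNode)
    (h : Closed (.vert a y b x :: .vert c x d y :: S)) :
    F (.vert a y b x :: .vert c x d y :: S) =
      (t * q⁻¹ ^ 2 - t⁻¹ * q ^ 2) / (q - q⁻¹) * F (.arc a b :: .arc c d :: S) +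
        F (.arc a d :: .arc c b :: S) := by
  have h0 := (closed_iff _).1 h
  simp only [ci_vert, co_vert] at h0
  obtain ⟨e, he, hei, heo⟩ := fresh [a, b, x, y, c, d] S
  obtain ⟨f, hf, hfi, hfo⟩ := fresh [a, b, x, y, c, d, e] S
  have hae : a ≠ e := he a (by simp)
  have hbe : b ≠ e := he b (by simp)
  have hxe : x ≠ e := he x (by simp)
  have hye : y ≠ e := he y (by simp)
  have hce : c ≠ e := he c (by simp)
  have hde : d ≠ e := he d (by simp)
  have haf : a ≠ f := hf a (by simp)
  have hbf : b ≠ f := hf b (by simp)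
  have hxf : x ≠ f := hf x (by simp)
  have hyf : y ≠ f := hf y (by simp)
  have hcf : c ≠ f := hf c (by simp)
  have hdf : d ≠ f := hf d (by simp)
  have hef : e ≠ f := hf e (by simp)
  have hac : a ≠ c := by
    rintro rfl
    have := (h0 a).1
    rw [dl_self] at this
    omega
  have hax : a ≠ x := by
    rintro rfl
    have := (h0 a).1
    rw [dl_self] at this
    omega
  have hay : a ≠ y := by
    rintro rfl
    have := (h0 a).1
    rw [dl_self] at this
    omega
  have hcx : c ≠ x := by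
    rintro rfl
    have := (h0 c).1
    rw [dl_self] at this
    omega
  have hcy : c ≠ y := by
    rintro rfl
    have := (h0 c).1
    rw [dl_self] at this
    omega
  have hxy : x ≠ y := by
    rintro rfl
    have := (h0 x).1
    rw [dl_self] at this
    omega
  have h1 : Closed (.vert a y e x :: .vert c x f y :: .arc e b :: .arc f d :: S) := by
    rw [closed_iff]
    intro v
    simp only [ci_vert, co_vert, ci_arc, co_arc]
    by_cases hv : v = e
    · subst hv
      rw [dl_self, dl_ne hae, dl_ne hbe, dl_ne hxe, dl_ne hye, dl_ne hce, dl_ne hde,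
        dl_ne hef.symm]
      omega
    by_cases hv' : v = f
    · subst hv'
      rw [dl_self, dl_ne haf, dl_ne hbf, dl_ne hxf, dl_ne hyf, dl_ne hcf, dl_ne hdf,
        dl_ne hef]
      omega
    · have := h0 v
      rw [dl_ne (Ne.symm hv), dl_ne (Ne.symm hv')]
      omega
  have h2 : Closed (.vert a y b x :: .vert c x f y :: .arc f d :: S) := closed_of h1 fun v => by
    simp only [ci_vert, co_vert, ci_arc, co_arc]
    omega
  have h3 : Closed (.arc a e :: .arc c f :: .arc e b :: .arc f d :: S) := closed_of h1 fun v => by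
    simp only [ci_vert, co_vert, ci_arc, co_arc]
    omega
  have h4 : Closed (.arc a b :: .arc c f :: .arc f d :: S) := closed_of h1 fun v => by
    simp only [ci_vert, co_vert, ci_arc, co_arc]
    omega
  have h5 : Closed (.arc a f :: .arc c e :: .arc e b :: .arc f d :: S) := closed_of h1 fun v => by
    simp only [ci_vert, co_vert, ci_arc, co_arc]
    omega
  have h6 : Closed (.arc a f :: .arc c b :: .arc f d :: S) := closed_of h1 fun v => by
    simp only [ci_vert, co_vert, ci_arc, co_arc]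
    omega
  have e1 : F (.vert a y e x :: .vert c x f y :: .arc e b :: .arc f d :: S) =
      F (.vert a y b x :: .vert c x f y :: .arc f d :: S) :=
    F_c1 hF a y e x b (.vert c x f y :: .arc f d :: S) h1
      (perm_of fun v => by simp only [List.count_cons] <;> omega)
      (perm_of fun v => by simp only [List.count_cons] <;> omega)
  have e2 : F (.vert a y b x :: .vert c x f y :: .arc f d :: S) =
      F (.vert a y b x :: .vert c x d y :: S) :=
    F_c1 hF c x f y d (.vert a y b x :: S) h2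
      (perm_of fun v => by simp only [List.count_cons] <;> omega)
      (perm_of fun v => by simp only [List.count_cons] <;> omega)
  have e3 : F (.arc a e :: .arc c f :: .arc e b :: .arc f d :: S) =
      F (.arc a b :: .arc c f :: .arc f d :: S) :=
    F_c3 hF a e b (.arc c f :: .arc f d :: S) h3
      (perm_of fun v => by simp only [List.count_cons] <;> omega)
      (perm_of fun v => by simp only [List.count_cons] <;> omega)
  have e4 : F (.arc a b :: .arc c f :: .arc f d :: S) = F (.arc a b :: .arc c d :: S) :=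
    F_c3 hF c f d (.arc a b :: S) h4
      (perm_of fun v => by simp only [List.count_cons] <;> omega)
      (perm_of fun v => by simp only [List.count_cons] <;> omega)
  have e5 : F (.arc a f :: .arc c e :: .arc e b :: .arc f d :: S) =
      F (.arc a f :: .arc c b :: .arc f d :: S) :=
    F_c3 hF c e b (.arc a f :: .arc f d :: S) h5
      (perm_of fun v => by simp only [List.count_cons] <;> omega)
      (perm_of fun v => by simp only [List.count_cons] <;> omega)
  have e6 : F (.arc a f :: .arc c b :: .arc f d :: S) = F (.arc a d :: .arc c b :: S) :=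
    F_c3 hF a f d (.arc c b :: S) h6
      (perm_of fun v => by simp only [List.count_cons] <;> omega)
      (perm_of fun v => by simp only [List.count_cons] <;> omega)
  rw [← e2, ← e1, ← e4, ← e3, ← e6, ← e5]
  refine hF.anti a e c f x y _ ?_ h1
  simp [hac, hax, hay, hae, haf, hcx, hcy, hce, hcf, hxy, hxe.symm, hye.symm, hxf.symm,
    hyf.symm, hef, hce.symm]

theorem F_tri (hF : IsMOY q t F) (i₁ i₂ i₃ o₁ o₂ o₃ x₁ x₂ x₃ : ℕ) (S : List GNode)
    (h : Closed (triL i₁ i₂ i₃ o₁ o₂ o₃ x₁ x₂ x₃ ++ S)) :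
    F (triL i₁ i₂ i₃ o₁ o₂ o₃ x₁ x₂ x₃ ++ S) - F (.vert i₁ i₂ o₁ o₂ :: .arc i₃ o₃ :: S) =
      F (triR i₁ i₂ i₃ o₁ o₂ o₃ x₁ x₂ x₃ ++ S) - F (.vert i₂ i₃ o₂ o₃ :: .arc i₁ o₁ :: S) := by
  simp only [triL, triR, List.cons_append, List.nil_append] at h ⊢
  have h0 := (closed_iff _).1 h
  simp only [ci_vert, co_vert] at h0
  obtain ⟨e, he, hei, heo⟩ := fresh [i₁, i₂, i₃, o₁, o₂, o₃, x₁, x₂, x₃] S
  obtain ⟨f, hf, hfi, hfo⟩ := fresh [i₁, i₂, i₃, o₁, o₂, o₃, x₁, x₂, x₃, e] S
  obtain ⟨g, hg, hgi, hgo⟩ := fresh [i₁, i₂, i₃, o₁, o₂, o₃, x₁, x₂, x₃, e, f] S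
  have he1 : i₁ ≠ e := he _ (by simp)
  have he2 : i₂ ≠ e := he _ (by simp)
  have he3 : i₃ ≠ e := he _ (by simp)
  have he4 : o₁ ≠ e := he _ (by simp)
  have he5 : o₂ ≠ e := he _ (by simp)
  have he6 : o₃ ≠ e := he _ (by simp)
  have he7 : x₁ ≠ e := he _ (by simp)
  have he8 : x₂ ≠ e := he _ (by simp)
  have he9 : x₃ ≠ e := he _ (by simp)
  have hf1 : i₁ ≠ f := hf _ (by simp)
  have hf2 : i₂ ≠ f := hf _ (by simp)
  have hf3 : i₃ ≠ f := hf _ (by simp)
  have hf4 : o₁ ≠ f := hf _ (by simp)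
  have hf5 : o₂ ≠ f := hf _ (by simp)
  have hf6 : o₃ ≠ f := hf _ (by simp)
  have hf7 : x₁ ≠ f := hf _ (by simp)
  have hf8 : x₂ ≠ f := hf _ (by simp)
  have hf9 : x₃ ≠ f := hf _ (by simp)
  have hef : e ≠ f := hf _ (by simp)
  have hg1 : i₁ ≠ g := hg _ (by simp)
  have hg2 : i₂ ≠ g := hg _ (by simp)
  have hg3 : i₃ ≠ g := hg _ (by simp)
  have hg4 : o₁ ≠ g := hg _ (by simp)
  have hg5 : o₂ ≠ g := hg _ (by simp)
  have hg6 : o₃ ≠ g := hg _ (by simp)
  have hg7 : x₁ ≠ g := hg _ (by simp)
  have hg8 : x₂ ≠ g := hg _ (by simp)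
  have hg9 : x₃ ≠ g := hg _ (by simp)
  have heg : e ≠ g := hg _ (by simp)
  have hfg : f ≠ g := hg _ (by simp)
  have key : ∀ {a b : ℕ}, (∀ v, dl a v + dl b v ≤ 1) → a ≠ b := by
    rintro a b h1 rfl
    have := h1 a
    rw [dl_self] at this
    omega
  have a12 : i₁ ≠ i₂ := key fun v => by have := h0 v; omega
  have a13 : i₁ ≠ i₃ := key fun v => by have := h0 v; omega
  have a1x : i₁ ≠ x₁ := key fun v => by have := h0 v; omega
  have a1y : i₁ ≠ x₂ := key fun v => by have := h0 v; omega
  have a1z : i₁ ≠ x₃ := key fun v => by have := h0 v; omega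
  have a23 : i₂ ≠ i₃ := key fun v => by have := h0 v; omega
  have a2x : i₂ ≠ x₁ := key fun v => by have := h0 v; omega
  have a2y : i₂ ≠ x₂ := key fun v => by have := h0 v; omega
  have a2z : i₂ ≠ x₃ := key fun v => by have := h0 v; omega
  have a3x : i₃ ≠ x₁ := key fun v => by have := h0 v; omega
  have a3y : i₃ ≠ x₂ := key fun v => by have := h0 v; omega
  have a3z : i₃ ≠ x₃ := key fun v => by have := h0 v; omega
  have axy : x₁ ≠ x₂ := key fun v => by have := h0 v; omega
  have axz : x₁ ≠ x₃ := key fun v => by have := h0 v; omega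
  have ayz : x₂ ≠ x₃ := key fun v => by have := h0 v; omega
  -- the separated piece
  have h1 : Closed (.vert i₁ i₂ x₁ x₂ :: .vert x₂ i₃ x₃ g :: .vert x₁ x₃ e f ::
      .arc e o₁ :: .arc f o₂ :: .arc g o₃ :: S) := by
    rw [closed_iff]
    intro v
    simp only [ci_vert, co_vert, ci_arc, co_arc]
    by_cases hv : v = e
    · subst hv
      rw [dl_self, dl_ne he1, dl_ne he2, dl_ne he3, dl_ne he4, dl_ne he5, dl_ne he6, dl_ne he7,
        dl_ne he8, dl_ne he9, dl_ne hef.symm, dl_ne heg.symm]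
      omega
    by_cases hv' : v = f
    · subst hv'
      rw [dl_self, dl_ne hf1, dl_ne hf2, dl_ne hf3, dl_ne hf4, dl_ne hf5, dl_ne hf6, dl_ne hf7,
        dl_ne hf8, dl_ne hf9, dl_ne hef, dl_ne hfg.symm]
      omega
    by_cases hv'' : v = g
    · subst hv''
      rw [dl_self, dl_ne hg1, dl_ne hg2, dl_ne hg3, dl_ne hg4, dl_ne hg5, dl_ne hg6, dl_ne hg7,
        dl_ne hg8, dl_ne hg9, dl_ne heg, dl_ne hfg]
      omega
    · have := h0 v
      rw [dl_ne (Ne.symm hv), dl_ne (Ne.symm hv'), dl_ne (Ne.symm hv'')]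
      omega
  have hc : ∀ G : List GNode, (∀ v, ci v G ≤ ci v (.vert i₁ i₂ x₁ x₂ :: .vert x₂ i₃ x₃ g ::
      .vert x₁ x₃ e f :: .arc e o₁ :: .arc f o₂ :: .arc g o₃ :: S) ∧
      co v G + ci v (.vert i₁ i₂ x₁ x₂ :: .vert x₂ i₃ x₃ g ::
      .vert x₁ x₃ e f :: .arc e o₁ :: .arc f o₂ :: .arc g o₃ :: S) = ci v G +
      co v (.vert i₁ i₂ x₁ x₂ :: .vert x₂ i₃ x₃ g ::
      .vert x₁ x₃ e f :: .arc e o₁ :: .arc f o₂ :: .arc g o₃ :: S)) → Closed G :=
    fun G hG => closed_of h1 hG
  -- left side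
  have e1 : F (.vert i₁ i₂ x₁ x₂ :: .vert x₂ i₃ x₃ g :: .vert x₁ x₃ e f ::
      .arc e o₁ :: .arc f o₂ :: .arc g o₃ :: S) =
      F (.vert i₁ i₂ x₁ x₂ :: .vert x₂ i₃ x₃ o₃ :: .vert x₁ x₃ e f ::
        .arc e o₁ :: .arc f o₂ :: S) :=
    F_c2 hF x₂ i₃ x₃ g o₃ (.vert i₁ i₂ x₁ x₂ :: .vert x₁ x₃ e f ::
      .arc e o₁ :: .arc f o₂ :: S) h1
      (perm_of fun v => by simp only [List.count_cons] <;> omega)
      (perm_of fun v => by simp only [List.count_cons] <;> omega)
  have e2 : F (.vert i₁ i₂ x₁ x₂ :: .vert x₂ i₃ x₃ o₃ :: .vert x₁ x₃ e f ::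
        .arc e o₁ :: .arc f o₂ :: S) =
      F (.vert i₁ i₂ x₁ x₂ :: .vert x₂ i₃ x₃ o₃ :: .vert x₁ x₃ o₁ f :: .arc f o₂ :: S) :=
    F_c1 hF x₁ x₃ e f o₁ (.vert i₁ i₂ x₁ x₂ :: .vert x₂ i₃ x₃ o₃ :: .arc f o₂ :: S)
      (hc _ fun v => by simp only [ci_vert, co_vert, ci_arc, co_arc]; omega)
      (perm_of fun v => by simp only [List.count_cons] <;> omega)
      (perm_of fun v => by simp only [List.count_cons] <;> omega)
  have e3 : F (.vert i₁ i₂ x₁ x₂ :: .vert x₂ i₃ x₃ o₃ :: .vert x₁ x₃ o₁ f :: .arc f o₂ :: S) =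
      F (.vert i₁ i₂ x₁ x₂ :: .vert x₂ i₃ x₃ o₃ :: .vert x₁ x₃ o₁ o₂ :: S) :=
    F_c2 hF x₁ x₃ o₁ f o₂ (.vert i₁ i₂ x₁ x₂ :: .vert x₂ i₃ x₃ o₃ :: S)
      (hc _ fun v => by simp only [ci_vert, co_vert, ci_arc, co_arc]; omega)
      (perm_of fun v => by simp only [List.count_cons] <;> omega)
      (perm_of fun v => by simp only [List.count_cons] <;> omega)
  have e4 : F (.vert i₁ i₂ e f :: .arc i₃ g :: .arc e o₁ :: .arc f o₂ :: .arc g o₃ :: S) =
      F (.vert i₁ i₂ o₁ f :: .arc i₃ g :: .arc f o₂ :: .arc g o₃ :: S) :=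
    F_c1 hF i₁ i₂ e f o₁ (.arc i₃ g :: .arc f o₂ :: .arc g o₃ :: S)
      (hc _ fun v => by simp only [ci_vert, co_vert, ci_arc, co_arc]; omega)
      (perm_of fun v => by simp only [List.count_cons] <;> omega)
      (perm_of fun v => by simp only [List.count_cons] <;> omega)
  have e5 : F (.vert i₁ i₂ o₁ f :: .arc i₃ g :: .arc f o₂ :: .arc g o₃ :: S) =
      F (.vert i₁ i₂ o₁ o₂ :: .arc i₃ g :: .arc g o₃ :: S) :=
    F_c2 hF i₁ i₂ o₁ f o₂ (.arc i₃ g :: .arc g o₃ :: S)
      (hc _ fun v => by simp only [ci_vert, co_vert, ci_arc, co_arc]; omega)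
      (perm_of fun v => by simp only [List.count_cons] <;> omega)
      (perm_of fun v => by simp only [List.count_cons] <;> omega)
  have e6 : F (.vert i₁ i₂ o₁ o₂ :: .arc i₃ g :: .arc g o₃ :: S) =
      F (.vert i₁ i₂ o₁ o₂ :: .arc i₃ o₃ :: S) :=
    F_c3 hF i₃ g o₃ (.vert i₁ i₂ o₁ o₂ :: S)
      (hc _ fun v => by simp only [ci_vert, co_vert, ci_arc, co_arc]; omega)
      (perm_of fun v => by simp only [List.count_cons] <;> omega)
      (perm_of fun v => by simp only [List.count_cons] <;> omega)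
  -- right side
  have e7 : F (.vert i₂ i₃ x₂ x₃ :: .vert i₁ x₂ e x₁ :: .vert x₁ x₃ f g ::
      .arc e o₁ :: .arc f o₂ :: .arc g o₃ :: S) =
      F (.vert i₂ i₃ x₂ x₃ :: .vert i₁ x₂ o₁ x₁ :: .vert x₁ x₃ f g ::
        .arc f o₂ :: .arc g o₃ :: S) :=
    F_c1 hF i₁ x₂ e x₁ o₁ (.vert i₂ i₃ x₂ x₃ :: .vert x₁ x₃ f g ::
      .arc f o₂ :: .arc g o₃ :: S)
      (hc _ fun v => by simp only [ci_vert, co_vert, ci_arc, co_arc]; omega)
      (perm_of fun v => by simp only [List.count_cons] <;> omega)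
      (perm_of fun v => by simp only [List.count_cons] <;> omega)
  have e8 : F (.vert i₂ i₃ x₂ x₃ :: .vert i₁ x₂ o₁ x₁ :: .vert x₁ x₃ f g ::
        .arc f o₂ :: .arc g o₃ :: S) =
      F (.vert i₂ i₃ x₂ x₃ :: .vert i₁ x₂ o₁ x₁ :: .vert x₁ x₃ o₂ g :: .arc g o₃ :: S) :=
    F_c1 hF x₁ x₃ f g o₂ (.vert i₂ i₃ x₂ x₃ :: .vert i₁ x₂ o₁ x₁ :: .arc g o₃ :: S)
      (hc _ fun v => by simp only [ci_vert, co_vert, ci_arc, co_arc]; omega)
      (perm_of fun v => by simp only [List.count_cons] <;> omega)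
      (perm_of fun v => by simp only [List.count_cons] <;> omega)
  have e9 : F (.vert i₂ i₃ x₂ x₃ :: .vert i₁ x₂ o₁ x₁ :: .vert x₁ x₃ o₂ g :: .arc g o₃ :: S) =
      F (.vert i₂ i₃ x₂ x₃ :: .vert i₁ x₂ o₁ x₁ :: .vert x₁ x₃ o₂ o₃ :: S) :=
    F_c2 hF x₁ x₃ o₂ g o₃ (.vert i₂ i₃ x₂ x₃ :: .vert i₁ x₂ o₁ x₁ :: S)
      (hc _ fun v => by simp only [ci_vert, co_vert, ci_arc, co_arc]; omega)
      (perm_of fun v => by simp only [List.count_cons] <;> omega)
      (perm_of fun v => by simp only [List.count_cons] <;> omega)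
  have e10 : F (.vert i₂ i₃ f g :: .arc i₁ e :: .arc e o₁ :: .arc f o₂ :: .arc g o₃ :: S) =
      F (.vert i₂ i₃ o₂ g :: .arc i₁ e :: .arc e o₁ :: .arc g o₃ :: S) :=
    F_c1 hF i₂ i₃ f g o₂ (.arc i₁ e :: .arc e o₁ :: .arc g o₃ :: S)
      (hc _ fun v => by simp only [ci_vert, co_vert, ci_arc, co_arc]; omega)
      (perm_of fun v => by simp only [List.count_cons] <;> omega)
      (perm_of fun v => by simp only [List.count_cons] <;> omega)
  have e11 : F (.vert i₂ i₃ o₂ g :: .arc i₁ e :: .arc e o₁ :: .arc g o₃ :: S) =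
      F (.vert i₂ i₃ o₂ o₃ :: .arc i₁ e :: .arc e o₁ :: S) :=
    F_c2 hF i₂ i₃ o₂ g o₃ (.arc i₁ e :: .arc e o₁ :: S)
      (hc _ fun v => by simp only [ci_vert, co_vert, ci_arc, co_arc]; omega)
      (perm_of fun v => by simp only [List.count_cons] <;> omega)
      (perm_of fun v => by simp only [List.count_cons] <;> omega)
  have e12 : F (.vert i₂ i₃ o₂ o₃ :: .arc i₁ e :: .arc e o₁ :: S) =
      F (.vert i₂ i₃ o₂ o₃ :: .arc i₁ o₁ :: S) :=
    F_c3 hF i₁ e o₁ (.vert i₂ i₃ o₂ o₃ :: S)
      (hc _ fun v => by simp only [ci_vert, co_vert, ci_arc, co_arc]; omega)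
      (perm_of fun v => by simp only [List.count_cons] <;> omega)
      (perm_of fun v => by simp only [List.count_cons] <;> omega)
  rw [← e3, ← e2, ← e1, ← e6, ← e5, ← e4, ← e9, ← e8, ← e7, ← e12, ← e11, ← e10]
  refine hF.tri i₁ i₂ i₃ e f g x₁ x₂ x₃ _ ?_ h1
  simp [a12, a13, a1x, a1y, a1z, a23, a2x, a2y, a2z, a3x, a3y, a3z, axy, axz, ayz, he1, he2, he3,
    hf1, hf2, hf3, hg1, hg2, hg3, he7.symm, he8.symm, he9.symm, hf7.symm, hf8.symm, hf9.symm,
    hg7.symm, hg8.symm, hg9.symm, hef, heg, hfg]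

end Pool.Agent.Lib.MP_31c440_gt.HV
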