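import Pool.Agent.Lib.MP_31c440_gt.HV.S1_Phi
import Pool.Agent.Lib.MP_31c440_gt.HV.S3_Pull

/-!
The arc moves, the first and the second Reidemeister moves for the state sum.
-/

noncomputable section

namespace Pool.Agent.Lib.MP_31c440_gt.HV

variable {K : Type*} [Field K] {q t : K} {F : List GNode → K}

/-! ### S4_R12: the arc moves and the first and second moves -/

/-- The two pieces can be exchanged. -/
def PhiEq (q t : K) (F : List GNode → K) (T T' : List Node) : Prop :=
  ∀ S G, ClosedP (T ++ S) G → ClosedP (T' ++ S) G ∧ Phi q t F (T ++ S) G = Phi q t F (T' ++ S) G

/-- The multiplicity of a number in a list with one entry. -/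
def s4cnt (a x : ℕ) : ℕ := if a = x then 1 else 0

theorem s4count_cons' (a x : ℕ) (l : List ℕ) : (a :: l).count x = l.count x + s4cnt a x := by
  simp [List.count_cons, s4cnt]

theorem s4closed_drop (M : List ℕ) {G G' : List GNode} (h : Closed G)
    (hc : ∀ x, (insG G).count x = M.count x + (insG G').count x ∧
      (outsG G).count x = M.count x + (outsG G').count x) : Closed G' := by
  have hi : (insG G).Perm (M ++ insG G') := List.perm_iff_count.2 fun x => by
    rw [List.count_append]; exact (hc x).1
  have ho : (outsG G).Perm (M ++ outsG G') := List.perm_iff_count.2 fun x => by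
    rw [List.count_append]; exact (hc x).2
  exact ⟨(List.nodup_append.1 (hi.nodup_iff.1 h.1)).2.1,
    (List.perm_append_left_iff M).1 (hi.symm.trans (h.2.trans ho))⟩

theorem s4closedP_drop (M : List ℕ) {L L' : List Node} {G G' : List GNode} (h : ClosedP L G)
    (hc : ∀ x, (insOf L ++ insG G).count x = M.count x + (insOf L' ++ insG G').count x ∧
      (outsOf L ++ outsG G).count x = M.count x + (outsOf L' ++ outsG G').count x) :
    ClosedP L' G' := by
  have hi : (insOf L ++ insG G).Perm (M ++ (insOf L' ++ insG G')) :=
    List.perm_iff_count.2 fun x => by rw [List.count_append (l₁ := M)]; exact (hc x).1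
  have ho : (outsOf L ++ outsG G).Perm (M ++ (outsOf L' ++ outsG G')) :=
    List.perm_iff_count.2 fun x => by rw [List.count_append (l₁ := M)]; exact (hc x).2
  exact ⟨(List.nodup_append.1 (hi.nodup_iff.1 h.1)).2.1,
    (List.perm_append_left_iff M).1 (hi.symm.trans (h.2.trans ho))⟩

/-- Reordering a graph. -/
theorem s4F_perm (hF : IsMOY q t F) {G G' : List GNode} (h : Closed G)
    (hp : ∀ x, G.count x = G'.count x) :
    F G = F G' := hF.perm G G' h (List.perm_iff_count.2 hp)

theorem s4F_arcs (hF : IsMOY q t F) (i e o : ℕ) (H : List GNode)
    (h : Closed (.arc i e :: .arc e o :: H)) :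
    F (.arc i e :: .arc e o :: H) = F (.arc i o :: H) := hF.arcArc i e o H h

theorem s4F_in1 (hF : IsMOY q t F) (i a b c d : ℕ) (H : List GNode)
    (h : Closed (.arc i a :: .vert a b c d :: H)) :
    F (.arc i a :: .vert a b c d :: H) = F (.vert i b c d :: H) := hF.arcVert i a b c d H h

theorem s4F_in2 (hF : IsMOY q t F) (i a b c d : ℕ) (H : List GNode)
    (h : Closed (.arc i b :: .vert a b c d :: H)) :
    F (.arc i b :: .vert a b c d :: H) = F (.vert a i c d :: H) := by
  have h1 : Closed (.vert a b c d :: .arc i b :: H) := s4closed_drop [] h (fun x => by
      constructor <;> simp only [insG, outsG, GNode.ins, GNode.outs, s4count_cons',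
        List.flatMap_cons, List.cons_append, List.nil_append, List.count_nil] <;> omega)
  have h2 : Closed (.vert b a c d :: .arc i b :: H) := s4closed_drop [] h (fun x => by
      constructor <;> simp only [insG, outsG, GNode.ins, GNode.outs, s4count_cons',
        List.flatMap_cons, List.cons_append, List.nil_append, List.count_nil] <;> omega)
  have h3 : Closed (.arc i b :: .vert b a c d :: H) := s4closed_drop [] h (fun x => by
      constructor <;> simp only [insG, outsG, GNode.ins, GNode.outs, s4count_cons',
        List.flatMap_cons, List.cons_append, List.nil_append, List.count_nil] <;> omega)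
  have h4 : Closed (.vert i a c d :: H) := s4closed_drop [b] h (fun x => by
      constructor <;> simp only [insG, outsG, GNode.ins, GNode.outs, s4count_cons',
        List.flatMap_cons, List.cons_append, List.nil_append, List.count_nil] <;> omega)
  rw [s4F_perm hF h (G' := .vert a b c d :: .arc i b :: H) (fun x => by simp only [List.count_cons]; omega), hF.swapIn _ _ _ _ _ h1,
    s4F_perm hF h2 (G' := .arc i b :: .vert b a c d :: H) (fun x => by simp only [List.count_cons]; omega), hF.arcVert _ _ _ _ _ _ h3,
    hF.swapIn _ _ _ _ _ h4]

theorem s4F_out1 (hF : IsMOY q t F) (a b c d o : ℕ) (H : List GNode)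
    (h : Closed (.vert a b c d :: .arc c o :: H)) :
    F (.vert a b c d :: .arc c o :: H) = F (.vert a b o d :: H) := hF.vertArc a b c d o H h

theorem s4F_out2 (hF : IsMOY q t F) (a b c d o : ℕ) (H : List GNode)
    (h : Closed (.vert a b c d :: .arc d o :: H)) :
    F (.vert a b c d :: .arc d o :: H) = F (.vert a b c o :: H) := by
  have h2 : Closed (.vert a b d c :: .arc d o :: H) := s4closed_drop [] h (fun x => by
      constructor <;> simp only [insG, outsG, GNode.ins, GNode.outs, s4count_cons',
        List.flatMap_cons, List.cons_append, List.nil_append, List.count_nil] <;> omega)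
  have h4 : Closed (.vert a b o c :: H) := s4closed_drop [d] h (fun x => by
      constructor <;> simp only [insG, outsG, GNode.ins, GNode.outs, s4count_cons',
        List.flatMap_cons, List.cons_append, List.nil_append, List.count_nil] <;> omega)
  rw [hF.swapOut _ _ _ _ _ h, hF.vertArc _ _ _ _ _ _ h2, hF.swapOut _ _ _ _ _ h4]

theorem phiEq_arcArc (hF : IsMOY q t F) (i e o : ℕ) :
    PhiEq q t F [.arc i e, .arc e o] [.arc i o] := by
  intro S G h
  refine ⟨s4closedP_drop [e] h (fun x => by
      constructor <;> simp only [insOf, outsOf, insG, outsG, Node.ins, Node.outs, GNode.ins,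
        GNode.outs, s4count_cons', List.flatMap_cons, List.cons_append, List.nil_append,
        List.count_nil, List.count_append] <;> omega), ?_⟩
  have key := Phi_local hF [(1, [.arc e o, .arc i e]), (-1, [.arc i o])] (fun H hH => by
    have h1 : Closed (.arc e o :: .arc i e :: H) := hH (1, [.arc e o, .arc i e]) (by simp)
    have h2 : Closed (.arc i e :: .arc e o :: H) := s4closed_drop [] h1 (fun x => by
      constructor <;> simp only [insG, outsG, GNode.ins, GNode.outs, s4count_cons',
        List.flatMap_cons, List.cons_append, List.nil_append, List.count_nil] <;> omega)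
    have e1 : F (.arc e o :: .arc i e :: H) = F (.arc i o :: H) := by
      rw [s4F_perm hF h1 (G' := .arc i e :: .arc e o :: H) (fun x => by simp only [List.count_cons]; omega), s4F_arcs hF _ _ _ _ h2]
    simp [e1]) S G (by
      intro x hx
      simp only [List.mem_cons, List.not_mem_nil, or_false] at hx
      rcases hx with rfl | rfl
      · exact s4closedP_drop [] h (fun x => by
      constructor <;> simp only [insOf, outsOf, insG, outsG, Node.ins, Node.outs, GNode.ins,
        GNode.outs, s4count_cons', List.flatMap_cons, List.cons_append, List.nil_append,
        List.count_nil, List.count_append] <;> omega)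
      · exact s4closedP_drop [e] h (fun x => by
      constructor <;> simp only [insOf, outsOf, insG, outsG, Node.ins, Node.outs, GNode.ins,
        GNode.outs, s4count_cons', List.flatMap_cons, List.cons_append, List.nil_append,
        List.count_nil, List.count_append] <;> omega))
  simp only [List.map_cons, List.map_nil, List.sum_cons, List.sum_nil, List.cons_append,
    List.nil_append] at key
  simp only [Phi, List.cons_append, List.nil_append]
  linear_combination key

theorem s4Phi_scal (hF : IsMOY q t F) (c : K) (A B : List GNode)
    (h : ∀ H, Closed (A ++ H) → Closed (B ++ H) → F (A ++ H) = c * F (B ++ H))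
    (S : List Node) (G : List GNode) (hA : ClosedP S (A ++ G)) (hB : ClosedP S (B ++ G)) :
    Phi q t F S (A ++ G) = c * Phi q t F S (B ++ G) := by
  have key := Phi_local hF [(1, A), (-c, B)] (fun H hH => by
    have h1 : Closed (A ++ H) := hH (1, A) (by simp)
    have h2 : Closed (B ++ H) := hH (-c, B) (by simp)
    simp [h H h1 h2]) S G (by
      intro x hx
      simp only [List.mem_cons, List.not_mem_nil, or_false] at hx
      rcases hx with rfl | rfl
      · exact hA
      · exact hB)
  simp only [List.map_cons, List.map_nil, List.sum_cons, List.sum_nil] at key
  linear_combination key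

theorem s4Phi_scal2 (hF : IsMOY q t F) (c e : K) (A B C : List GNode)
    (h : ∀ H, Closed (A ++ H) → Closed (B ++ H) → Closed (C ++ H) →
      F (A ++ H) = c * F (B ++ H) + e * F (C ++ H))
    (S : List Node) (G : List GNode) (hA : ClosedP S (A ++ G)) (hB : ClosedP S (B ++ G))
    (hC : ClosedP S (C ++ G)) :
    Phi q t F S (A ++ G) = c * Phi q t F S (B ++ G) + e * Phi q t F S (C ++ G) := by
  have key := Phi_local hF [(1, A), (-c, B), (-e, C)] (fun H hH => by
    have h1 : Closed (A ++ H) := hH (1, A) (by simp)
    have h2 : Closed (B ++ H) := hH (-c, B) (by simp)
    have h3 : Closed (C ++ H) := hH (-e, C) (by simp)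
    simp only [List.map_cons, List.map_nil, List.sum_cons, List.sum_nil, h H h1 h2 h3]
    ring) S G (by
      intro x hx
      simp only [List.mem_cons, List.not_mem_nil, or_false] at hx
      rcases hx with rfl | rfl | rfl
      · exact hA
      · exact hB
      · exact hC)
  simp only [List.map_cons, List.map_nil, List.sum_cons, List.sum_nil] at key
  linear_combination key

theorem phiEq_arcOver (hF : IsMOY q t F) (i : ℕ) (s : Bool) (a b c d : ℕ) :
    PhiEq q t F [.arc i a, .xing s a b c d] [.xing s i b c d] := by
  intro S G h
  have h' : ClosedP ([.xing s i b c d] ++ S) G := s4closedP_drop [a] h (fun x => by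
      constructor <;> simp only [insOf, outsOf, insG, outsG, Node.ins, Node.outs, GNode.ins,
        GNode.outs, s4count_cons', List.flatMap_cons, List.cons_append, List.nil_append,
        List.count_nil, List.count_append] <;> omega)
  refine ⟨h', ?_⟩
  have k1 := s4Phi_scal hF 1 [.arc a d, .arc c b, .arc i a] [.arc i d, .arc c b] (fun H h1 h2 => by
    simp only [List.cons_append, List.nil_append] at h1 h2 ⊢
    have h3 : Closed (.arc i a :: .arc a d :: .arc c b :: H) := s4closed_drop [] h1 (fun x => by
      constructor <;> simp only [insG, outsG, GNode.ins, GNode.outs, s4count_cons',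
        List.flatMap_cons, List.cons_append, List.nil_append, List.count_nil] <;> omega)
    rw [s4F_perm hF h1 (G' := .arc i a :: .arc a d :: .arc c b :: H) (fun x => by simp only [List.count_cons]; omega), s4F_arcs hF _ _ _ _ h3, one_mul])
    S G (s4closedP_drop [] h (fun x => by
      constructor <;> simp only [insOf, outsOf, insG, outsG, Node.ins, Node.outs, GNode.ins,
        GNode.outs, s4count_cons', List.flatMap_cons, List.cons_append, List.nil_append,
        List.count_nil, List.count_append] <;> omega)) (s4closedP_drop [] h' (fun x => by
      constructor <;> simp only [insOf, outsOf, insG, outsG, Node.ins, Node.outs, GNode.ins,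
        GNode.outs, s4count_cons', List.flatMap_cons, List.cons_append, List.nil_append,
        List.count_nil, List.count_append] <;> omega))
  have k2 := s4Phi_scal hF 1 [.vert a c b d, .arc i a] [.vert i c b d] (fun H h1 h2 => by
    simp only [List.cons_append, List.nil_append] at h1 h2 ⊢
    have h3 : Closed (.arc i a :: .vert a c b d :: H) := s4closed_drop [] h1 (fun x => by
      constructor <;> simp only [insG, outsG, GNode.ins, GNode.outs, s4count_cons',
        List.flatMap_cons, List.cons_append, List.nil_append, List.count_nil] <;> omega)
    rw [s4F_perm hF h1 (G' := .arc i a :: .vert a c b d :: H) (fun x => by simp only [List.count_cons]; omega), s4F_in1 hF _ _ _ _ _ _ h3, one_mul])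
    S G (s4closedP_drop [] h (fun x => by
      constructor <;> simp only [insOf, outsOf, insG, outsG, Node.ins, Node.outs, GNode.ins,
        GNode.outs, s4count_cons', List.flatMap_cons, List.cons_append, List.nil_append,
        List.count_nil, List.count_append] <;> omega)) (s4closedP_drop [] h' (fun x => by
      constructor <;> simp only [insOf, outsOf, insG, outsG, Node.ins, Node.outs, GNode.ins,
        GNode.outs, s4count_cons', List.flatMap_cons, List.cons_append, List.nil_append,
        List.count_nil, List.count_append] <;> omega))
  simp only [List.cons_append, List.nil_append] at k1 k2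
  simp only [Phi, List.cons_append, List.nil_append]
  rw [k1, k2]
  ring

theorem phiEq_arcUnder (hF : IsMOY q t F) (i : ℕ) (s : Bool) (a b c d : ℕ) :
    PhiEq q t F [.arc i c, .xing s a b c d] [.xing s a b i d] := by
  intro S G h
  have h' : ClosedP ([.xing s a b i d] ++ S) G := s4closedP_drop [c] h (fun x => by
      constructor <;> simp only [insOf, outsOf, insG, outsG, Node.ins, Node.outs, GNode.ins,
        GNode.outs, s4count_cons', List.flatMap_cons, List.cons_append, List.nil_append,
        List.count_nil, List.count_append] <;> omega)
  refine ⟨h', ?_⟩
  have k1 := s4Phi_scal hF 1 [.arc a d, .arc c b, .arc i c] [.arc a d, .arc i b] (fun H h1 h2 => by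
    simp only [List.cons_append, List.nil_append] at h1 h2 ⊢
    have h3 : Closed (.arc i c :: .arc c b :: .arc a d :: H) := s4closed_drop [] h1 (fun x => by
      constructor <;> simp only [insG, outsG, GNode.ins, GNode.outs, s4count_cons',
        List.flatMap_cons, List.cons_append, List.nil_append, List.count_nil] <;> omega)
    have h4 : Closed (.arc i b :: .arc a d :: H) := s4closed_drop [] h2 (fun x => by
      constructor <;> simp only [insG, outsG, GNode.ins, GNode.outs, s4count_cons',
        List.flatMap_cons, List.cons_append, List.nil_append, List.count_nil] <;> omega)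
    rw [s4F_perm hF h1 (G' := .arc i c :: .arc c b :: .arc a d :: H) (fun x => by simp only [List.count_cons]; omega), s4F_arcs hF _ _ _ _ h3,
      s4F_perm hF h4 (G' := .arc a d :: .arc i b :: H) (fun x => by simp only [List.count_cons]; omega), one_mul])
    S G (s4closedP_drop [] h (fun x => by
      constructor <;> simp only [insOf, outsOf, insG, outsG, Node.ins, Node.outs, GNode.ins,
        GNode.outs, s4count_cons', List.flatMap_cons, List.cons_append, List.nil_append,
        List.count_nil, List.count_append] <;> omega)) (s4closedP_drop [] h' (fun x => by
      constructor <;> simp only [insOf, outsOf, insG, outsG, Node.ins, Node.outs, GNode.ins,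
        GNode.outs, s4count_cons', List.flatMap_cons, List.cons_append, List.nil_append,
        List.count_nil, List.count_append] <;> omega))
  have k2 := s4Phi_scal hF 1 [.vert a c b d, .arc i c] [.vert a i b d] (fun H h1 h2 => by
    simp only [List.cons_append, List.nil_append] at h1 h2 ⊢
    have h3 : Closed (.arc i c :: .vert a c b d :: H) := s4closed_drop [] h1 (fun x => by
      constructor <;> simp only [insG, outsG, GNode.ins, GNode.outs, s4count_cons',
        List.flatMap_cons, List.cons_append, List.nil_append, List.count_nil] <;> omega)
    rw [s4F_perm hF h1 (G' := .arc i c :: .vert a c b d :: H) (fun x => by simp only [List.count_cons]; omega), s4F_in2 hF _ _ _ _ _ _ h3, one_mul])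
    S G (s4closedP_drop [] h (fun x => by
      constructor <;> simp only [insOf, outsOf, insG, outsG, Node.ins, Node.outs, GNode.ins,
        GNode.outs, s4count_cons', List.flatMap_cons, List.cons_append, List.nil_append,
        List.count_nil, List.count_append] <;> omega)) (s4closedP_drop [] h' (fun x => by
      constructor <;> simp only [insOf, outsOf, insG, outsG, Node.ins, Node.outs, GNode.ins,
        GNode.outs, s4count_cons', List.flatMap_cons, List.cons_append, List.nil_append,
        List.count_nil, List.count_append] <;> omega))
  simp only [List.cons_append, List.nil_append] at k1 k2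
  simp only [Phi, List.cons_append, List.nil_append]
  rw [k1, k2]
  ring

theorem phiEq_overArc (hF : IsMOY q t F) (o : ℕ) (s : Bool) (a b c d : ℕ) :
    PhiEq q t F [.xing s a b c d, .arc b o] [.xing s a o c d] := by
  intro S G h
  have h' : ClosedP ([.xing s a o c d] ++ S) G := s4closedP_drop [b] h (fun x => by
      constructor <;> simp only [insOf, outsOf, insG, outsG, Node.ins, Node.outs, GNode.ins,
        GNode.outs, s4count_cons', List.flatMap_cons, List.cons_append, List.nil_append,
        List.count_nil, List.count_append] <;> omega)
  refine ⟨h', ?_⟩
  have k1 := s4Phi_scal hF 1 [.arc b o, .arc a d, .arc c b] [.arc a d, .arc c o] (fun H h1 h2 => by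
    simp only [List.cons_append, List.nil_append] at h1 h2 ⊢
    have h3 : Closed (.arc c b :: .arc b o :: .arc a d :: H) := s4closed_drop [] h1 (fun x => by
      constructor <;> simp only [insG, outsG, GNode.ins, GNode.outs, s4count_cons',
        List.flatMap_cons, List.cons_append, List.nil_append, List.count_nil] <;> omega)
    have h4 : Closed (.arc c o :: .arc a d :: H) := s4closed_drop [] h2 (fun x => by
      constructor <;> simp only [insG, outsG, GNode.ins, GNode.outs, s4count_cons',
        List.flatMap_cons, List.cons_append, List.nil_append, List.count_nil] <;> omega)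
    rw [s4F_perm hF h1 (G' := .arc c b :: .arc b o :: .arc a d :: H) (fun x => by simp only [List.count_cons]; omega), s4F_arcs hF _ _ _ _ h3,
      s4F_perm hF h4 (G' := .arc a d :: .arc c o :: H) (fun x => by simp only [List.count_cons]; omega), one_mul])
    S G (s4closedP_drop [] h (fun x => by
      constructor <;> simp only [insOf, outsOf, insG, outsG, Node.ins, Node.outs, GNode.ins,
        GNode.outs, s4count_cons', List.flatMap_cons, List.cons_append, List.nil_append,
        List.count_nil, List.count_append] <;> omega)) (s4closedP_drop [] h' (fun x => by
      constructor <;> simp only [insOf, outsOf, insG, outsG, Node.ins, Node.outs, GNode.ins,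
        GNode.outs, s4count_cons', List.flatMap_cons, List.cons_append, List.nil_append,
        List.count_nil, List.count_append] <;> omega))
  have k2 := s4Phi_scal hF 1 [.arc b o, .vert a c b d] [.vert a c o d] (fun H h1 h2 => by
    simp only [List.cons_append, List.nil_append] at h1 h2 ⊢
    have h3 : Closed (.vert a c b d :: .arc b o :: H) := s4closed_drop [] h1 (fun x => by
      constructor <;> simp only [insG, outsG, GNode.ins, GNode.outs, s4count_cons',
        List.flatMap_cons, List.cons_append, List.nil_append, List.count_nil] <;> omega)
    rw [s4F_perm hF h1 (G' := .vert a c b d :: .arc b o :: H) (fun x => by simp only [List.count_cons]; omega), s4F_out1 hF _ _ _ _ _ _ h3, one_mul])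
    S G (s4closedP_drop [] h (fun x => by
      constructor <;> simp only [insOf, outsOf, insG, outsG, Node.ins, Node.outs, GNode.ins,
        GNode.outs, s4count_cons', List.flatMap_cons, List.cons_append, List.nil_append,
        List.count_nil, List.count_append] <;> omega)) (s4closedP_drop [] h' (fun x => by
      constructor <;> simp only [insOf, outsOf, insG, outsG, Node.ins, Node.outs, GNode.ins,
        GNode.outs, s4count_cons', List.flatMap_cons, List.cons_append, List.nil_append,
        List.count_nil, List.count_append] <;> omega))
  simp only [List.cons_append, List.nil_append] at k1 k2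
  simp only [Phi, List.cons_append, List.nil_append]
  rw [k1, k2]
  ring

theorem phiEq_underArc (hF : IsMOY q t F) (o : ℕ) (s : Bool) (a b c d : ℕ) :
    PhiEq q t F [.xing s a b c d, .arc d o] [.xing s a b c o] := by
  intro S G h
  have h' : ClosedP ([.xing s a b c o] ++ S) G := s4closedP_drop [d] h (fun x => by
      constructor <;> simp only [insOf, outsOf, insG, outsG, Node.ins, Node.outs, GNode.ins,
        GNode.outs, s4count_cons', List.flatMap_cons, List.cons_append, List.nil_append,
        List.count_nil, List.count_append] <;> omega)
  refine ⟨h', ?_⟩
  have k1 := s4Phi_scal hF 1 [.arc d o, .arc a d, .arc c b] [.arc a o, .arc c b] (fun H h1 h2 => by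
    simp only [List.cons_append, List.nil_append] at h1 h2 ⊢
    have h3 : Closed (.arc a d :: .arc d o :: .arc c b :: H) := s4closed_drop [] h1 (fun x => by
      constructor <;> simp only [insG, outsG, GNode.ins, GNode.outs, s4count_cons',
        List.flatMap_cons, List.cons_append, List.nil_append, List.count_nil] <;> omega)
    rw [s4F_perm hF h1 (G' := .arc a d :: .arc d o :: .arc c b :: H) (fun x => by simp only [List.count_cons]; omega), s4F_arcs hF _ _ _ _ h3, one_mul])
    S G (s4closedP_drop [] h (fun x => by
      constructor <;> simp only [insOf, outsOf, insG, outsG, Node.ins, Node.outs, GNode.ins,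
        GNode.outs, s4count_cons', List.flatMap_cons, List.cons_append, List.nil_append,
        List.count_nil, List.count_append] <;> omega)) (s4closedP_drop [] h' (fun x => by
      constructor <;> simp only [insOf, outsOf, insG, outsG, Node.ins, Node.outs, GNode.ins,
        GNode.outs, s4count_cons', List.flatMap_cons, List.cons_append, List.nil_append,
        List.count_nil, List.count_append] <;> omega))
  have k2 := s4Phi_scal hF 1 [.arc d o, .vert a c b d] [.vert a c b o] (fun H h1 h2 => by
    simp only [List.cons_append, List.nil_append] at h1 h2 ⊢
    have h3 : Closed (.vert a c b d :: .arc d o :: H) := s4closed_drop [] h1 (fun x => by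
      constructor <;> simp only [insG, outsG, GNode.ins, GNode.outs, s4count_cons',
        List.flatMap_cons, List.cons_append, List.nil_append, List.count_nil] <;> omega)
    rw [s4F_perm hF h1 (G' := .vert a c b d :: .arc d o :: H) (fun x => by simp only [List.count_cons]; omega), s4F_out2 hF _ _ _ _ _ _ h3, one_mul])
    S G (s4closedP_drop [] h (fun x => by
      constructor <;> simp only [insOf, outsOf, insG, outsG, Node.ins, Node.outs, GNode.ins,
        GNode.outs, s4count_cons', List.flatMap_cons, List.cons_append, List.nil_append,
        List.count_nil, List.count_append] <;> omega)) (s4closedP_drop [] h' (fun x => by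
      constructor <;> simp only [insOf, outsOf, insG, outsG, Node.ins, Node.outs, GNode.ins,
        GNode.outs, s4count_cons', List.flatMap_cons, List.cons_append, List.nil_append,
        List.count_nil, List.count_append] <;> omega))
  simp only [List.cons_append, List.nil_append] at k1 k2
  simp only [Phi, List.cons_append, List.nil_append]
  rw [k1, k2]
  ring

theorem phiEq_r1Over (hF : IsMOY q t F) (hq : q ≠ 0) (ht : t ≠ 0) (hz : q - q⁻¹ ≠ 0) (s : Bool)
    (i e o : ℕ) : PhiEq q t F [.xing s i e e o] [.arc i o] := by
  intro S G h
  have h' : ClosedP ([.arc i o] ++ S) G := s4closedP_drop [e] h (fun x => by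
      constructor <;> simp only [insOf, outsOf, insG, outsG, Node.ins, Node.outs, GNode.ins,
        GNode.outs, s4count_cons', List.flatMap_cons, List.cons_append, List.nil_append,
        List.count_nil, List.count_append] <;> omega)
  refine ⟨h', ?_⟩
  have k1 := s4Phi_scal hF ((t - t⁻¹) / (q - q⁻¹)) [.arc i o, .arc e e] [.arc i o] (fun H h1 h2 => by
    simp only [List.cons_append, List.nil_append] at h1 h2 ⊢
    have h3 : Closed (.arc e e :: .arc i o :: H) := s4closed_drop [] h1 (fun x => by
      constructor <;> simp only [insG, outsG, GNode.ins, GNode.outs, s4count_cons',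
        List.flatMap_cons, List.cons_append, List.nil_append, List.count_nil] <;> omega)
    rw [s4F_perm hF h1 (G' := .arc e e :: .arc i o :: H) (fun x => by simp only [List.count_cons]; omega), hF.circle _ _ h3])
    S G (s4closedP_drop [] h (fun x => by
      constructor <;> simp only [insOf, outsOf, insG, outsG, Node.ins, Node.outs, GNode.ins,
        GNode.outs, s4count_cons', List.flatMap_cons, List.cons_append, List.nil_append,
        List.count_nil, List.count_append] <;> omega)) (s4closedP_drop [] h' (fun x => by
      constructor <;> simp only [insOf, outsOf, insG, outsG, Node.ins, Node.outs, GNode.ins,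
        GNode.outs, s4count_cons', List.flatMap_cons, List.cons_append, List.nil_append,
        List.count_nil, List.count_append] <;> omega))
  have k2 := s4Phi_scal hF ((t * q⁻¹ - t⁻¹ * q) / (q - q⁻¹)) [.vert i e e o] [.arc i o]
    (fun H h1 h2 => by
    simp only [List.cons_append, List.nil_append] at h1 h2 ⊢
    have h3 : Closed (.vert i e o e :: H) := s4closed_drop [] h1 (fun x => by
      constructor <;> simp only [insG, outsG, GNode.ins, GNode.outs, s4count_cons',
        List.flatMap_cons, List.cons_append, List.nil_append, List.count_nil] <;> omega)
    rw [hF.swapOut _ _ _ _ _ h1, F_loop hF _ _ _ _ h3])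
    S G (s4closedP_drop [] h (fun x => by
      constructor <;> simp only [insOf, outsOf, insG, outsG, Node.ins, Node.outs, GNode.ins,
        GNode.outs, s4count_cons', List.flatMap_cons, List.cons_append, List.nil_append,
        List.count_nil, List.count_append] <;> omega)) (s4closedP_drop [] h' (fun x => by
      constructor <;> simp only [insOf, outsOf, insG, outsG, Node.ins, Node.outs, GNode.ins,
        GNode.outs, s4count_cons', List.flatMap_cons, List.cons_append, List.nil_append,
        List.count_nil, List.count_append] <;> omega))
  simp only [List.cons_append, List.nil_append] at k1 k2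
  have hq2 : q ^ 2 - 1 ≠ 0 := fun h0 => hz (by field_simp; linear_combination h0)
  cases s <;> simp only [Phi, List.cons_append, List.nil_append, if_true, if_false,
    Bool.false_eq_true] <;> rw [k1, k2] <;> field_simp <;> ring

theorem phiEq_r1Under (hF : IsMOY q t F) (hq : q ≠ 0) (ht : t ≠ 0) (hz : q - q⁻¹ ≠ 0) (s : Bool)
    (i e o : ℕ) : PhiEq q t F [.xing s e o i e] [.arc i o] := by
  intro S G h
  have h' : ClosedP ([.arc i o] ++ S) G := s4closedP_drop [e] h (fun x => by
      constructor <;> simp only [insOf, outsOf, insG, outsG, Node.ins, Node.outs, GNode.ins,
        GNode.outs, s4count_cons', List.flatMap_cons, List.cons_append, List.nil_append,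
        List.count_nil, List.count_append] <;> omega)
  refine ⟨h', ?_⟩
  have k1 := s4Phi_scal hF ((t - t⁻¹) / (q - q⁻¹)) [.arc e e, .arc i o] [.arc i o] (fun H h1 h2 => by
    simp only [List.cons_append, List.nil_append] at h1 h2 ⊢
    rw [hF.circle _ _ h1])
    S G (s4closedP_drop [] h (fun x => by
      constructor <;> simp only [insOf, outsOf, insG, outsG, Node.ins, Node.outs, GNode.ins,
        GNode.outs, s4count_cons', List.flatMap_cons, List.cons_append, List.nil_append,
        List.count_nil, List.count_append] <;> omega)) (s4closedP_drop [] h' (fun x => by
      constructor <;> simp only [insOf, outsOf, insG, outsG, Node.ins, Node.outs, GNode.ins,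
        GNode.outs, s4count_cons', List.flatMap_cons, List.cons_append, List.nil_append,
        List.count_nil, List.count_append] <;> omega))
  have k2 := s4Phi_scal hF ((t * q⁻¹ - t⁻¹ * q) / (q - q⁻¹)) [.vert e i o e] [.arc i o]
    (fun H h1 h2 => by
    simp only [List.cons_append, List.nil_append] at h1 h2 ⊢
    have h3 : Closed (.vert i e o e :: H) := s4closed_drop [] h1 (fun x => by
      constructor <;> simp only [insG, outsG, GNode.ins, GNode.outs, s4count_cons',
        List.flatMap_cons, List.cons_append, List.nil_append, List.count_nil] <;> omega)
    rw [hF.swapIn _ _ _ _ _ h1, F_loop hF _ _ _ _ h3])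
    S G (s4closedP_drop [] h (fun x => by
      constructor <;> simp only [insOf, outsOf, insG, outsG, Node.ins, Node.outs, GNode.ins,
        GNode.outs, s4count_cons', List.flatMap_cons, List.cons_append, List.nil_append,
        List.count_nil, List.count_append] <;> omega)) (s4closedP_drop [] h' (fun x => by
      constructor <;> simp only [insOf, outsOf, insG, outsG, Node.ins, Node.outs, GNode.ins,
        GNode.outs, s4count_cons', List.flatMap_cons, List.cons_append, List.nil_append,
        List.count_nil, List.count_append] <;> omega))
  simp only [List.cons_append, List.nil_append] at k1 k2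
  have hq2 : q ^ 2 - 1 ≠ 0 := fun h0 => hz (by field_simp; linear_combination h0)
  cases s <;> simp only [Phi, List.cons_append, List.nil_append, if_true, if_false,
    Bool.false_eq_true] <;> rw [k1, k2] <;> field_simp <;> ring

theorem phiEq_r2Same (hF : IsMOY q t F) (hq : q ≠ 0) (ht : t ≠ 0) (hz : q - q⁻¹ ≠ 0) (s : Bool)
    (a b e c d f : ℕ) :
    PhiEq q t F [.xing s a b c d, .xing (!s) b e d f] [.arc a e, .arc c f] := by
  intro S G h
  have h' : ClosedP ([.arc a e, .arc c f] ++ S) G := s4closedP_drop [b, d] h (fun x => by
      constructor <;> simp only [insOf, outsOf, insG, outsG, Node.ins, Node.outs, GNode.ins,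
        GNode.outs, s4count_cons', List.flatMap_cons, List.cons_append, List.nil_append,
        List.count_nil, List.count_append] <;> omega)
  have hV : ClosedP S ([.vert a c e f] ++ G) := s4closedP_drop [b, d] h (fun x => by
      constructor <;> simp only [insOf, outsOf, insG, outsG, Node.ins, Node.outs, GNode.ins,
        GNode.outs, s4count_cons', List.flatMap_cons, List.cons_append, List.nil_append,
        List.count_nil, List.count_append] <;> omega)
  refine ⟨h', ?_⟩
  have k11 := s4Phi_scal hF 1 [.arc b f, .arc d e, .arc a d, .arc c b] [.arc c f, .arc a e]
    (fun H h1 h2 => by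
    simp only [List.cons_append, List.nil_append] at h1 h2 ⊢
    have h3 : Closed (.arc c b :: .arc b f :: .arc d e :: .arc a d :: H) := s4closed_drop [] h1 (fun x => by
      constructor <;> simp only [insG, outsG, GNode.ins, GNode.outs, s4count_cons',
        List.flatMap_cons, List.cons_append, List.nil_append, List.count_nil] <;> omega)
    have h4 : Closed (.arc c f :: .arc d e :: .arc a d :: H) := s4closed_drop [b] h1 (fun x => by
      constructor <;> simp only [insG, outsG, GNode.ins, GNode.outs, s4count_cons',
        List.flatMap_cons, List.cons_append, List.nil_append, List.count_nil] <;> omega)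
    have h5 : Closed (.arc a d :: .arc d e :: .arc c f :: H) := s4closed_drop [b] h1 (fun x => by
      constructor <;> simp only [insG, outsG, GNode.ins, GNode.outs, s4count_cons',
        List.flatMap_cons, List.cons_append, List.nil_append, List.count_nil] <;> omega)
    have h6 : Closed (.arc a e :: .arc c f :: H) := s4closed_drop [] h2 (fun x => by
      constructor <;> simp only [insG, outsG, GNode.ins, GNode.outs, s4count_cons',
        List.flatMap_cons, List.cons_append, List.nil_append, List.count_nil] <;> omega)
    rw [s4F_perm hF h1 (G' := .arc c b :: .arc b f :: .arc d e :: .arc a d :: H) (fun x => by simp only [List.count_cons]; omega),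
      s4F_arcs hF _ _ _ _ h3, s4F_perm hF h4 (G' := .arc a d :: .arc d e :: .arc c f :: H) (fun x => by simp only [List.count_cons]; omega),
      s4F_arcs hF _ _ _ _ h5, s4F_perm hF h6 (G' := .arc c f :: .arc a e :: H) (fun x => by simp only [List.count_cons]; omega), one_mul])
    S G (s4closedP_drop [] h (fun x => by
      constructor <;> simp only [insOf, outsOf, insG, outsG, Node.ins, Node.outs, GNode.ins,
        GNode.outs, s4count_cons', List.flatMap_cons, List.cons_append, List.nil_append,
        List.count_nil, List.count_append] <;> omega)) (s4closedP_drop [] h' (fun x => by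
      constructor <;> simp only [insOf, outsOf, insG, outsG, Node.ins, Node.outs, GNode.ins,
        GNode.outs, s4count_cons', List.flatMap_cons, List.cons_append, List.nil_append,
        List.count_nil, List.count_append] <;> omega))
  have k12 := s4Phi_scal hF 1 [.vert b d e f, .arc a d, .arc c b] [.vert a c e f]
    (fun H h1 h2 => by
    simp only [List.cons_append, List.nil_append] at h1 h2 ⊢
    have h3 : Closed (.arc a d :: .vert b d e f :: .arc c b :: H) := s4closed_drop [] h1 (fun x => by
      constructor <;> simp only [insG, outsG, GNode.ins, GNode.outs, s4count_cons',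
        List.flatMap_cons, List.cons_append, List.nil_append, List.count_nil] <;> omega)
    have h4 : Closed (.vert b a e f :: .arc c b :: H) := s4closed_drop [d] h1 (fun x => by
      constructor <;> simp only [insG, outsG, GNode.ins, GNode.outs, s4count_cons',
        List.flatMap_cons, List.cons_append, List.nil_append, List.count_nil] <;> omega)
    have h5 : Closed (.arc c b :: .vert b a e f :: H) := s4closed_drop [d] h1 (fun x => by
      constructor <;> simp only [insG, outsG, GNode.ins, GNode.outs, s4count_cons',
        List.flatMap_cons, List.cons_append, List.nil_append, List.count_nil] <;> omega)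
    have h6 : Closed (.vert c a e f :: H) := s4closed_drop [] h2 (fun x => by
      constructor <;> simp only [insG, outsG, GNode.ins, GNode.outs, s4count_cons',
        List.flatMap_cons, List.cons_append, List.nil_append, List.count_nil] <;> omega)
    rw [s4F_perm hF h1 (G' := .arc a d :: .vert b d e f :: .arc c b :: H) (fun x => by simp only [List.count_cons]; omega),
      s4F_in2 hF _ _ _ _ _ _ h3, s4F_perm hF h4 (G' := .arc c b :: .vert b a e f :: H) (fun x => by simp only [List.count_cons]; omega),
      s4F_in1 hF _ _ _ _ _ _ h5, hF.swapIn _ _ _ _ _ h6, one_mul])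
    S G (s4closedP_drop [] h (fun x => by
      constructor <;> simp only [insOf, outsOf, insG, outsG, Node.ins, Node.outs, GNode.ins,
        GNode.outs, s4count_cons', List.flatMap_cons, List.cons_append, List.nil_append,
        List.count_nil, List.count_append] <;> omega)) hV
  have k21 := s4Phi_scal hF 1 [.arc b f, .arc d e, .vert a c b d] [.vert a c e f]
    (fun H h1 h2 => by
    simp only [List.cons_append, List.nil_append] at h1 h2 ⊢
    have h3 : Closed (.vert a c b d :: .arc b f :: .arc d e :: H) := s4closed_drop [] h1 (fun x => by
      constructor <;> simp only [insG, outsG, GNode.ins, GNode.outs, s4count_cons',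
        List.flatMap_cons, List.cons_append, List.nil_append, List.count_nil] <;> omega)
    have h4 : Closed (.vert a c f d :: .arc d e :: H) := s4closed_drop [b] h1 (fun x => by
      constructor <;> simp only [insG, outsG, GNode.ins, GNode.outs, s4count_cons',
        List.flatMap_cons, List.cons_append, List.nil_append, List.count_nil] <;> omega)
    have h6 : Closed (.vert a c f e :: H) := s4closed_drop [] h2 (fun x => by
      constructor <;> simp only [insG, outsG, GNode.ins, GNode.outs, s4count_cons',
        List.flatMap_cons, List.cons_append, List.nil_append, List.count_nil] <;> omega)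
    rw [s4F_perm hF h1 (G' := .vert a c b d :: .arc b f :: .arc d e :: H) (fun x => by simp only [List.count_cons]; omega),
      s4F_out1 hF _ _ _ _ _ _ h3, s4F_out2 hF _ _ _ _ _ _ h4, hF.swapOut _ _ _ _ _ h6, one_mul])
    S G (s4closedP_drop [] h (fun x => by
      constructor <;> simp only [insOf, outsOf, insG, outsG, Node.ins, Node.outs, GNode.ins,
        GNode.outs, s4count_cons', List.flatMap_cons, List.cons_append, List.nil_append,
        List.count_nil, List.count_append] <;> omega)) hV
  have k22 := s4Phi_scal hF (q + q⁻¹) [.vert b d e f, .vert a c b d] [.vert a c e f]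
    (fun H h1 h2 => by
    simp only [List.cons_append, List.nil_append] at h1 h2 ⊢
    have h3 : Closed (.vert a c b d :: .vert b d e f :: H) := s4closed_drop [] h1 (fun x => by
      constructor <;> simp only [insG, outsG, GNode.ins, GNode.outs, s4count_cons',
        List.flatMap_cons, List.cons_append, List.nil_append, List.count_nil] <;> omega)
    rw [s4F_perm hF h1 (G' := .vert a c b d :: .vert b d e f :: H) (fun x => by simp only [List.count_cons]; omega),
      F_digon hF _ _ _ _ _ _ _ h3])
    S G (s4closedP_drop [] h (fun x => by
      constructor <;> simp only [insOf, outsOf, insG, outsG, Node.ins, Node.outs, GNode.ins,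
        GNode.outs, s4count_cons', List.flatMap_cons, List.cons_append, List.nil_append,
        List.count_nil, List.count_append] <;> omega)) hV
  simp only [List.cons_append, List.nil_append] at k11 k12 k21 k22
  cases s <;> simp only [Phi, List.cons_append, List.nil_append, if_true, if_false,
    Bool.false_eq_true, Bool.not_true, Bool.not_false] <;>
    rw [k11, k12, k21, k22] <;> field_simp <;> ring

theorem phiEq_r2Opp (hF : IsMOY q t F) (hq : q ≠ 0) (ht : t ≠ 0) (hz : q - q⁻¹ ≠ 0) (s : Bool)
    (a b e c d f : ℕ) :
    PhiEq q t F [.xing s a b d f, .xing (!s) b e c d] [.arc a e, .arc c f] := by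
  intro S G h
  have h' : ClosedP ([.arc a e, .arc c f] ++ S) G := s4closedP_drop [b, d] h (fun x => by
      constructor <;> simp only [insOf, outsOf, insG, outsG, Node.ins, Node.outs, GNode.ins,
        GNode.outs, s4count_cons', List.flatMap_cons, List.cons_append, List.nil_append,
        List.count_nil, List.count_append] <;> omega)
  have hB : ClosedP S ([.arc c e, .arc a f] ++ G) := s4closedP_drop [b, d] h (fun x => by
      constructor <;> simp only [insOf, outsOf, insG, outsG, Node.ins, Node.outs, GNode.ins,
        GNode.outs, s4count_cons', List.flatMap_cons, List.cons_append, List.nil_append,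
        List.count_nil, List.count_append] <;> omega)
  refine ⟨h', ?_⟩
  have k11 := s4Phi_scal hF ((t - t⁻¹) / (q - q⁻¹)) [.arc b d, .arc c e, .arc a f, .arc d b]
    [.arc c e, .arc a f] (fun H h1 h2 => by
    simp only [List.cons_append, List.nil_append] at h1 h2 ⊢
    have h3 : Closed (.arc d b :: .arc b d :: .arc c e :: .arc a f :: H) := s4closed_drop [] h1 (fun x => by
      constructor <;> simp only [insG, outsG, GNode.ins, GNode.outs, s4count_cons',
        List.flatMap_cons, List.cons_append, List.nil_append, List.count_nil] <;> omega)
    have h4 : Closed (.arc d d :: .arc c e :: .arc a f :: H) := s4closed_drop [b] h1 (fun x => by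
      constructor <;> simp only [insG, outsG, GNode.ins, GNode.outs, s4count_cons',
        List.flatMap_cons, List.cons_append, List.nil_append, List.count_nil] <;> omega)
    rw [s4F_perm hF h1 (G' := .arc d b :: .arc b d :: .arc c e :: .arc a f :: H) (fun x => by simp only [List.count_cons]; omega),
      s4F_arcs hF _ _ _ _ h3, hF.circle _ _ h4])
    S G (s4closedP_drop [] h (fun x => by
      constructor <;> simp only [insOf, outsOf, insG, outsG, Node.ins, Node.outs, GNode.ins,
        GNode.outs, s4count_cons', List.flatMap_cons, List.cons_append, List.nil_append,
        List.count_nil, List.count_append] <;> omega)) hB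
  have k12 := s4Phi_scal hF ((t * q⁻¹ - t⁻¹ * q) / (q - q⁻¹)) [.vert b c e d, .arc a f, .arc d b]
    [.arc c e, .arc a f] (fun H h1 h2 => by
    simp only [List.cons_append, List.nil_append] at h1 h2 ⊢
    have h3 : Closed (.arc d b :: .vert b c e d :: .arc a f :: H) := s4closed_drop [] h1 (fun x => by
      constructor <;> simp only [insG, outsG, GNode.ins, GNode.outs, s4count_cons',
        List.flatMap_cons, List.cons_append, List.nil_append, List.count_nil] <;> omega)
    have h4 : Closed (.vert d c e d :: .arc a f :: H) := s4closed_drop [b] h1 (fun x => by
      constructor <;> simp only [insG, outsG, GNode.ins, GNode.outs, s4count_cons',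
        List.flatMap_cons, List.cons_append, List.nil_append, List.count_nil] <;> omega)
    have h5 : Closed (.vert c d e d :: .arc a f :: H) := s4closed_drop [b] h1 (fun x => by
      constructor <;> simp only [insG, outsG, GNode.ins, GNode.outs, s4count_cons',
        List.flatMap_cons, List.cons_append, List.nil_append, List.count_nil] <;> omega)
    rw [s4F_perm hF h1 (G' := .arc d b :: .vert b c e d :: .arc a f :: H) (fun x => by simp only [List.count_cons]; omega),
      s4F_in1 hF _ _ _ _ _ _ h3, hF.swapIn _ _ _ _ _ h4, F_loop hF _ _ _ _ h5])
    S G (s4closedP_drop [] h (fun x => by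
      constructor <;> simp only [insOf, outsOf, insG, outsG, Node.ins, Node.outs, GNode.ins,
        GNode.outs, s4count_cons', List.flatMap_cons, List.cons_append, List.nil_append,
        List.count_nil, List.count_append] <;> omega)) hB
  have k21 := s4Phi_scal hF ((t * q⁻¹ - t⁻¹ * q) / (q - q⁻¹)) [.arc b d, .arc c e, .vert a d b f]
    [.arc c e, .arc a f] (fun H h1 h2 => by
    simp only [List.cons_append, List.nil_append] at h1 h2 ⊢
    have h3 : Closed (.arc b d :: .vert a d b f :: .arc c e :: H) := s4closed_drop [] h1 (fun x => by
      constructor <;> simp only [insG, outsG, GNode.ins, GNode.outs, s4count_cons',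
        List.flatMap_cons, List.cons_append, List.nil_append, List.count_nil] <;> omega)
    have h4 : Closed (.vert a b b f :: .arc c e :: H) := s4closed_drop [d] h1 (fun x => by
      constructor <;> simp only [insG, outsG, GNode.ins, GNode.outs, s4count_cons',
        List.flatMap_cons, List.cons_append, List.nil_append, List.count_nil] <;> omega)
    have h5 : Closed (.vert a b f b :: .arc c e :: H) := s4closed_drop [d] h1 (fun x => by
      constructor <;> simp only [insG, outsG, GNode.ins, GNode.outs, s4count_cons',
        List.flatMap_cons, List.cons_append, List.nil_append, List.count_nil] <;> omega)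
    have h6 : Closed (.arc a f :: .arc c e :: H) := s4closed_drop [] h2 (fun x => by
      constructor <;> simp only [insG, outsG, GNode.ins, GNode.outs, s4count_cons',
        List.flatMap_cons, List.cons_append, List.nil_append, List.count_nil] <;> omega)
    rw [s4F_perm hF h1 (G' := .arc b d :: .vert a d b f :: .arc c e :: H) (fun x => by simp only [List.count_cons]; omega),
      s4F_in2 hF _ _ _ _ _ _ h3, hF.swapOut _ _ _ _ _ h4, F_loop hF _ _ _ _ h5,
      s4F_perm hF h6 (G' := .arc c e :: .arc a f :: H) (fun x => by simp only [List.count_cons]; omega)])
    S G (s4closedP_drop [] h (fun x => by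
      constructor <;> simp only [insOf, outsOf, insG, outsG, Node.ins, Node.outs, GNode.ins,
        GNode.outs, s4count_cons', List.flatMap_cons, List.cons_append, List.nil_append,
        List.count_nil, List.count_append] <;> omega)) hB
  have k22 := s4Phi_scal2 hF ((t * q⁻¹ ^ 2 - t⁻¹ * q ^ 2) / (q - q⁻¹)) 1
    [.vert b c e d, .vert a d b f] [.arc c e, .arc a f] [.arc c f, .arc a e]
    (fun H h1 h2 h3 => by
    simp only [List.cons_append, List.nil_append] at h1 h2 h3 ⊢
    have h4 : Closed (.vert c b e d :: .vert a d b f :: H) := s4closed_drop [] h1 (fun x => by
      constructor <;> simp only [insG, outsG, GNode.ins, GNode.outs, s4count_cons',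
        List.flatMap_cons, List.cons_append, List.nil_append, List.count_nil] <;> omega)
    have h5 : Closed (.vert a d b f :: .vert c b e d :: H) := s4closed_drop [] h1 (fun x => by
      constructor <;> simp only [insG, outsG, GNode.ins, GNode.outs, s4count_cons',
        List.flatMap_cons, List.cons_append, List.nil_append, List.count_nil] <;> omega)
    have h6 : Closed (.vert a d f b :: .vert c b e d :: H) := s4closed_drop [] h1 (fun x => by
      constructor <;> simp only [insG, outsG, GNode.ins, GNode.outs, s4count_cons',
        List.flatMap_cons, List.cons_append, List.nil_append, List.count_nil] <;> omega)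
    have h7 : Closed (.arc a f :: .arc c e :: H) := s4closed_drop [] h2 (fun x => by
      constructor <;> simp only [insG, outsG, GNode.ins, GNode.outs, s4count_cons',
        List.flatMap_cons, List.cons_append, List.nil_append, List.count_nil] <;> omega)
    have h8 : Closed (.arc a e :: .arc c f :: H) := s4closed_drop [] h3 (fun x => by
      constructor <;> simp only [insG, outsG, GNode.ins, GNode.outs, s4count_cons',
        List.flatMap_cons, List.cons_append, List.nil_append, List.count_nil] <;> omega)
    rw [hF.swapIn _ _ _ _ _ h1, s4F_perm hF h4 (G' := .vert a d b f :: .vert c b e d :: H) (fun x => by simp only [List.count_cons]; omega),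
      hF.swapOut _ _ _ _ _ h5, F_anti hF _ _ _ _ _ _ _ h6,
      s4F_perm hF h7 (G' := .arc c e :: .arc a f :: H) (fun x => by simp only [List.count_cons]; omega),
      s4F_perm hF h8 (G' := .arc c f :: .arc a e :: H) (fun x => by simp only [List.count_cons]; omega), one_mul])
    S G (s4closedP_drop [] h (fun x => by
      constructor <;> simp only [insOf, outsOf, insG, outsG, Node.ins, Node.outs, GNode.ins,
        GNode.outs, s4count_cons', List.flatMap_cons, List.cons_append, List.nil_append,
        List.count_nil, List.count_append] <;> omega)) hB (s4closedP_drop [] h' (fun x => by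
      constructor <;> simp only [insOf, outsOf, insG, outsG, Node.ins, Node.outs, GNode.ins,
        GNode.outs, s4count_cons', List.flatMap_cons, List.cons_append, List.nil_append,
        List.count_nil, List.count_append] <;> omega))
  simp only [List.cons_append, List.nil_append] at k11 k12 k21 k22
  have hq2 : q ^ 2 - 1 ≠ 0 := fun h0 => hz (by field_simp; linear_combination h0)
  cases s <;> simp only [Phi, List.cons_append, List.nil_append, if_true, if_false,
    Bool.false_eq_true, Bool.not_true, Bool.not_false] <;>
    rw [k11, k12, k21, k22] <;> field_simp <;> ring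

end Pool.Agent.Lib.MP_31c440_gt.HV
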