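import Pool.Agent.Lib.MP_31c440_gt.HV.S4_R12

/-!
The third move with a strand that is first and last: the state sums of the two sides.
-/

noncomputable section

namespace Pool.Agent.Lib.MP_31c440_gt.HV

variable {K : Type*} [Field K] {q t : K} {F : List GNode → K}

namespace R3a

/-- `F G = c F G'` for closed graphs. -/
def Q (F : List GNode → K) (c : K) (G G' : List GNode) : Prop :=
  Closed G → Closed G' ∧ F G = c * F G'

theorem Q.trans {c c' : K} {G G' G'' : List GNode} (h : Q F c G G') (h' : Q F c' G' G'') :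
    Q F (c * c') G G'' := by
  intro hG
  obtain ⟨h1, h2⟩ := h hG
  obtain ⟨h3, h4⟩ := h' h1
  exact ⟨h3, by rw [h2, h4, mul_assoc]⟩

theorem Q.tr {c : K} {G G' G'' : List GNode} (h : Q F 1 G G') (h' : Q F c G' G'') :
    Q F c G G'' := by
  have := h.trans h'
  rwa [one_mul] at this

theorem q_refl (G : List GNode) : Q F 1 G G := fun h => ⟨h, by rw [one_mul]⟩

theorem cnt (a x : ℕ) (l : List ℕ) :
    (a :: l).count x = l.count x + if a = x then 1 else 0 := by
  simp [List.count_cons]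

theorem drop (M : List ℕ) {G G' : List GNode} (h : Closed G)
    (h1 : ∀ x, (insG G).count x = M.count x + (insG G').count x)
    (h2 : ∀ x, (outsG G).count x = M.count x + (outsG G').count x) : Closed G' := by
  have hi : (insG G).Perm (M ++ insG G') := List.perm_iff_count.2 fun x => by
    rw [List.count_append]; exact h1 x
  have ho : (outsG G).Perm (M ++ outsG G') := List.perm_iff_count.2 fun x => by
    rw [List.count_append]; exact h2 x
  exact ⟨(List.nodup_append.1 (hi.nodup_iff.1 h.1)).2.1,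
    (List.perm_append_left_iff M).1 (hi.symm.trans (h.2.trans ho))⟩

theorem dropP (M : List ℕ) {L L' : List Node} {G G' : List GNode} (h : ClosedP L G)
    (h1 : ∀ x, (insOf L ++ insG G).count x = M.count x + (insOf L' ++ insG G').count x)
    (h2 : ∀ x, (outsOf L ++ outsG G).count x = M.count x + (outsOf L' ++ outsG G').count x) :
    ClosedP L' G' := by
  have hi : (insOf L ++ insG G).Perm (M ++ (insOf L' ++ insG G')) :=
    List.perm_iff_count.2 fun x => by rw [List.count_append (l₁ := M)]; exact h1 x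
  have ho : (outsOf L ++ outsG G).Perm (M ++ (outsOf L' ++ outsG G')) :=
    List.perm_iff_count.2 fun x => by rw [List.count_append (l₁ := M)]; exact h2 x
  exact ⟨(List.nodup_append.1 (hi.nodup_iff.1 h.1)).2.1,
    (List.perm_append_left_iff M).1 (hi.symm.trans (h.2.trans ho))⟩

theorem q_perm (hF : IsMOY q t F) {G G' : List GNode} (hp : ∀ x, G.count x = G'.count x) :
    Q F 1 G G' := fun h =>
  ⟨⟨((List.perm_iff_count.2 hp).flatMap_right _).nodup_iff.1 h.1,
    ((List.perm_iff_count.2 hp).flatMap_right _).symm.trans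
      (h.2.trans ((List.perm_iff_count.2 hp).flatMap_right _))⟩, by
    rw [one_mul]; exact hF.perm G G' h (List.perm_iff_count.2 hp)⟩

theorem q_arcs (hF : IsMOY q t F) (i e o : ℕ) (H : List GNode) :
    Q F 1 (.arc i e :: .arc e o :: H) (.arc i o :: H) := fun h => by
  refine ⟨drop [e] h (fun x => ?_) (fun x => ?_), by rw [one_mul]; exact hF.arcArc i e o H h⟩ <;>
    simp only [insG, outsG, GNode.ins, GNode.outs, cnt, List.flatMap_cons, List.cons_append,
      List.nil_append, List.count_nil] <;> omega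

theorem q_si (hF : IsMOY q t F) (a b c d : ℕ) (H : List GNode) :
    Q F 1 (.vert a b c d :: H) (.vert b a c d :: H) := fun h => by
  refine ⟨drop [] h (fun x => ?_) (fun x => ?_), by rw [one_mul]; exact hF.swapIn a b c d H h⟩ <;>
    simp only [insG, outsG, GNode.ins, GNode.outs, cnt, List.flatMap_cons, List.cons_append,
      List.nil_append, List.count_nil] <;> omega

theorem q_so (hF : IsMOY q t F) (a b c d : ℕ) (H : List GNode) :
    Q F 1 (.vert a b c d :: H) (.vert a b d c :: H) := fun h => by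
  refine ⟨drop [] h (fun x => ?_) (fun x => ?_), by rw [one_mul]; exact hF.swapOut a b c d H h⟩ <;>
    simp only [insG, outsG, GNode.ins, GNode.outs, cnt, List.flatMap_cons, List.cons_append,
      List.nil_append, List.count_nil] <;> omega

theorem q_in1 (hF : IsMOY q t F) (i a b c d : ℕ) (H : List GNode) :
    Q F 1 (.arc i a :: .vert a b c d :: H) (.vert i b c d :: H) := fun h => by
  refine ⟨drop [a] h (fun x => ?_) (fun x => ?_),
    by rw [one_mul]; exact hF.arcVert i a b c d H h⟩ <;>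
    simp only [insG, outsG, GNode.ins, GNode.outs, cnt, List.flatMap_cons, List.cons_append,
      List.nil_append, List.count_nil] <;> omega

theorem q_out1 (hF : IsMOY q t F) (a b c d o : ℕ) (H : List GNode) :
    Q F 1 (.vert a b c d :: .arc c o :: H) (.vert a b o d :: H) := fun h => by
  refine ⟨drop [c] h (fun x => ?_) (fun x => ?_),
    by rw [one_mul]; exact hF.vertArc a b c d o H h⟩ <;>
    simp only [insG, outsG, GNode.ins, GNode.outs, cnt, List.flatMap_cons, List.cons_append,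
      List.nil_append, List.count_nil] <;> omega

theorem q_swap (hF : IsMOY q t F) (x y : GNode) (H : List GNode) :
    Q F 1 (x :: y :: H) (y :: x :: H) :=
  q_perm hF (fun z => by simp only [List.count_cons]; omega)

theorem q_in2 (hF : IsMOY q t F) (i a b c d : ℕ) (H : List GNode) :
    Q F 1 (.arc i b :: .vert a b c d :: H) (.vert a i c d :: H) :=
  (q_swap hF _ _ _).tr ((q_si hF _ _ _ _ _).tr ((q_swap hF _ _ _).tr
    ((q_in1 hF _ _ _ _ _ _).tr (q_si hF _ _ _ _ _))))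

theorem q_out2 (hF : IsMOY q t F) (a b c d o : ℕ) (H : List GNode) :
    Q F 1 (.vert a b c d :: .arc d o :: H) (.vert a b c o :: H) :=
  (q_so hF _ _ _ _ _).tr ((q_out1 hF _ _ _ _ _ _).tr (q_so hF _ _ _ _ _))

theorem q_digon (hF : IsMOY q t F) (a b x y c d : ℕ) (H : List GNode) :
    Q F (q + q⁻¹) (.vert a b x y :: .vert x y c d :: H) (.vert a b c d :: H) := fun h => by
  refine ⟨drop [x, y] h (fun x => ?_) (fun x => ?_), F_digon hF a b x y c d H h⟩ <;>
    simp only [insG, outsG, GNode.ins, GNode.outs, cnt, List.flatMap_cons, List.cons_append,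
      List.nil_append, List.count_nil] <;> omega

theorem l000 (hF : IsMOY q t F) (a0 a1 a2 b0 b1 b2 c0 c1 c2 : ℕ) (H : List GNode) :
    Q F 1 (.arc b1 c2 :: .arc c1 b2 :: .arc a1 c1 :: .arc c0 a2 :: .arc a0 b1 :: .arc b0 a1 :: H)
      (.arc a0 c2 :: .arc b0 b2 :: .arc c0 a2 :: H) := by
  refine (q_perm hF (G' := .arc a0 b1 :: .arc b1 c2 :: .arc b0 a1 :: .arc a1 c1 :: .arc c1 b2 :: .arc c0 a2 :: H)
    (fun x => by simp only [List.count_cons]; omega)).tr ?_
  refine (q_arcs hF _ _ _ _).tr ?_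
  refine (q_perm hF (G' := .arc b0 a1 :: .arc a1 c1 :: .arc c1 b2 :: .arc a0 c2 :: .arc c0 a2 :: H)
    (fun x => by simp only [List.count_cons]; omega)).tr ?_
  refine (q_arcs hF _ _ _ _).tr ?_
  refine (q_arcs hF _ _ _ _).tr ?_
  exact q_perm hF (fun x => by simp only [List.count_cons]; omega)

theorem l001 (hF : IsMOY q t F) (a0 a1 a2 b0 b1 b2 c0 c1 c2 : ℕ) (H : List GNode) :
    Q F 1 (.vert b1 c1 b2 c2 :: .arc a1 c1 :: .arc c0 a2 :: .arc a0 b1 :: .arc b0 a1 :: H)
      (.vert a0 b0 b2 c2 :: .arc c0 a2 :: H) := by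
  refine (q_perm hF (G' := .arc a0 b1 :: .vert b1 c1 b2 c2 :: .arc b0 a1 :: .arc a1 c1 :: .arc c0 a2 :: H)
    (fun x => by simp only [List.count_cons]; omega)).tr ?_
  refine (q_in1 hF _ _ _ _ _ _).tr ?_
  refine (q_perm hF (G' := .arc b0 a1 :: .arc a1 c1 :: .vert a0 c1 b2 c2 :: .arc c0 a2 :: H)
    (fun x => by simp only [List.count_cons]; omega)).tr ?_
  refine (q_arcs hF _ _ _ _).tr ?_
  refine (q_in2 hF _ _ _ _ _ _).tr ?_
  exact q_refl _

theorem l010 (hF : IsMOY q t F) (a0 a1 a2 b0 b1 b2 c0 c1 c2 : ℕ) (H : List GNode) :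
    Q F 1 (.arc b1 c2 :: .arc c1 b2 :: .vert a1 c0 a2 c1 :: .arc a0 b1 :: .arc b0 a1 :: H)
      (.vert b0 c0 a2 b2 :: .arc a0 c2 :: H) := by
  refine (q_perm hF (G' := .arc b0 a1 :: .vert a1 c0 a2 c1 :: .arc c1 b2 :: .arc a0 b1 :: .arc b1 c2 :: H)
    (fun x => by simp only [List.count_cons]; omega)).tr ?_
  refine (q_in1 hF _ _ _ _ _ _).tr ?_
  refine (q_out2 hF _ _ _ _ _ _).tr ?_
  refine (q_perm hF (G' := .arc a0 b1 :: .arc b1 c2 :: .vert b0 c0 a2 b2 :: H)
    (fun x => by simp only [List.count_cons]; omega)).tr ?_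
  refine (q_arcs hF _ _ _ _).tr ?_
  exact q_perm hF (fun x => by simp only [List.count_cons]; omega)

theorem l011 (hF : IsMOY q t F) (a0 a1 a2 b0 b1 b2 c0 c1 c2 : ℕ) (H : List GNode) :
    Q F 1 (.vert b1 c1 b2 c2 :: .vert a1 c0 a2 c1 :: .arc a0 b1 :: .arc b0 a1 :: H)
      (.vert b0 c0 a2 c1 :: .vert a0 c1 b2 c2 :: H) := by
  refine (q_perm hF (G' := .arc b0 a1 :: .vert a1 c0 a2 c1 :: .arc a0 b1 :: .vert b1 c1 b2 c2 :: H)
    (fun x => by simp only [List.count_cons]; omega)).tr ?_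
  refine (q_in1 hF _ _ _ _ _ _).tr ?_
  refine (q_perm hF (G' := .arc a0 b1 :: .vert b1 c1 b2 c2 :: .vert b0 c0 a2 c1 :: H)
    (fun x => by simp only [List.count_cons]; omega)).tr ?_
  refine (q_in1 hF _ _ _ _ _ _).tr ?_
  exact q_perm hF (fun x => by simp only [List.count_cons]; omega)

theorem l100 (hF : IsMOY q t F) (a0 a1 a2 b0 b1 b2 c0 c1 c2 : ℕ) (H : List GNode) :
    Q F 1 (.arc b1 c2 :: .arc c1 b2 :: .arc a1 c1 :: .arc c0 a2 :: .vert a0 b0 a1 b1 :: H)
      (.vert a0 b0 b2 c2 :: .arc c0 a2 :: H) := by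
  refine (q_perm hF (G' := .vert a0 b0 a1 b1 :: .arc b1 c2 :: .arc a1 c1 :: .arc c1 b2 :: .arc c0 a2 :: H)
    (fun x => by simp only [List.count_cons]; omega)).tr ?_
  refine (q_out2 hF _ _ _ _ _ _).tr ?_
  refine (q_out1 hF _ _ _ _ _ _).tr ?_
  refine (q_out1 hF _ _ _ _ _ _).tr ?_
  exact q_refl _

theorem l101 (hF : IsMOY q t F) (a0 a1 a2 b0 b1 b2 c0 c1 c2 : ℕ) (H : List GNode) :
    Q F (q + q⁻¹) (.vert b1 c1 b2 c2 :: .arc a1 c1 :: .arc c0 a2 :: .vert a0 b0 a1 b1 :: H)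
      (.vert a0 b0 b2 c2 :: .arc c0 a2 :: H) := by
  refine (q_perm hF (G' := .vert a0 b0 a1 b1 :: .arc a1 c1 :: .vert b1 c1 b2 c2 :: .arc c0 a2 :: H)
    (fun x => by simp only [List.count_cons]; omega)).tr ?_
  refine (q_out1 hF _ _ _ _ _ _).tr ?_
  refine (q_so hF _ _ _ _ _).tr ?_
  exact q_digon hF _ _ _ _ _ _ _

theorem l110 (hF : IsMOY q t F) (a0 a1 a2 b0 b1 b2 c0 c1 c2 : ℕ) (H : List GNode) :
    Q F 1 (.arc b1 c2 :: .arc c1 b2 :: .vert a1 c0 a2 c1 :: .vert a0 b0 a1 b1 :: H)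
      (.vert a0 b0 a1 c2 :: .vert a1 c0 a2 b2 :: H) := by
  refine (q_perm hF (G' := .vert a0 b0 a1 b1 :: .arc b1 c2 :: .vert a1 c0 a2 c1 :: .arc c1 b2 :: H)
    (fun x => by simp only [List.count_cons]; omega)).tr ?_
  refine (q_out2 hF _ _ _ _ _ _).tr ?_
  refine (q_perm hF (G' := .vert a1 c0 a2 c1 :: .arc c1 b2 :: .vert a0 b0 a1 c2 :: H)
    (fun x => by simp only [List.count_cons]; omega)).tr ?_
  refine (q_out2 hF _ _ _ _ _ _).tr ?_
  exact q_perm hF (fun x => by simp only [List.count_cons]; omega)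

theorem r000 (hF : IsMOY q t F) (a0 a1 a2 b0 b1 b2 c0 c1 c2 : ℕ) (H : List GNode) :
    Q F 1 (.arc b0 c1 :: .arc c0 b1 :: .arc a0 c2 :: .arc c1 a1 :: .arc a1 b2 :: .arc b1 a2 :: H)
      (.arc a0 c2 :: .arc b0 b2 :: .arc c0 a2 :: H) := by
  refine (q_perm hF (G' := .arc b0 c1 :: .arc c1 a1 :: .arc a1 b2 :: .arc c0 b1 :: .arc b1 a2 :: .arc a0 c2 :: H)
    (fun x => by simp only [List.count_cons]; omega)).tr ?_
  refine (q_arcs hF _ _ _ _).tr ?_
  refine (q_arcs hF _ _ _ _).tr ?_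
  refine (q_perm hF (G' := .arc c0 b1 :: .arc b1 a2 :: .arc b0 b2 :: .arc a0 c2 :: H)
    (fun x => by simp only [List.count_cons]; omega)).tr ?_
  refine (q_arcs hF _ _ _ _).tr ?_
  exact q_perm hF (fun x => by simp only [List.count_cons]; omega)

theorem r001 (hF : IsMOY q t F) (a0 a1 a2 b0 b1 b2 c0 c1 c2 : ℕ) (H : List GNode) :
    Q F 1 (.vert b0 c0 b1 c1 :: .arc a0 c2 :: .arc c1 a1 :: .arc a1 b2 :: .arc b1 a2 :: H)
      (.vert b0 c0 a2 b2 :: .arc a0 c2 :: H) := by
  refine (q_perm hF (G' := .vert b0 c0 b1 c1 :: .arc b1 a2 :: .arc c1 a1 :: .arc a1 b2 :: .arc a0 c2 :: H)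
    (fun x => by simp only [List.count_cons]; omega)).tr ?_
  refine (q_out1 hF _ _ _ _ _ _).tr ?_
  refine (q_out2 hF _ _ _ _ _ _).tr ?_
  refine (q_out2 hF _ _ _ _ _ _).tr ?_
  exact q_refl _

theorem r010 (hF : IsMOY q t F) (a0 a1 a2 b0 b1 b2 c0 c1 c2 : ℕ) (H : List GNode) :
    Q F 1 (.arc b0 c1 :: .arc c0 b1 :: .vert a0 c1 a1 c2 :: .arc a1 b2 :: .arc b1 a2 :: H)
      (.vert a0 b0 b2 c2 :: .arc c0 a2 :: H) := by
  refine (q_perm hF (G' := .arc b0 c1 :: .vert a0 c1 a1 c2 :: .arc a1 b2 :: .arc c0 b1 :: .arc b1 a2 :: H)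
    (fun x => by simp only [List.count_cons]; omega)).tr ?_
  refine (q_in2 hF _ _ _ _ _ _).tr ?_
  refine (q_out1 hF _ _ _ _ _ _).tr ?_
  refine (q_perm hF (G' := .arc c0 b1 :: .arc b1 a2 :: .vert a0 b0 b2 c2 :: H)
    (fun x => by simp only [List.count_cons]; omega)).tr ?_
  refine (q_arcs hF _ _ _ _).tr ?_
  exact q_perm hF (fun x => by simp only [List.count_cons]; omega)

theorem r011 (hF : IsMOY q t F) (a0 a1 a2 b0 b1 b2 c0 c1 c2 : ℕ) (H : List GNode) :
    Q F 1 (.vert b0 c0 b1 c1 :: .vert a0 c1 a1 c2 :: .arc a1 b2 :: .arc b1 a2 :: H)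
      (.vert b0 c0 a2 c1 :: .vert a0 c1 b2 c2 :: H) := by
  refine (q_perm hF (G' := .vert b0 c0 b1 c1 :: .arc b1 a2 :: .vert a0 c1 a1 c2 :: .arc a1 b2 :: H)
    (fun x => by simp only [List.count_cons]; omega)).tr ?_
  refine (q_out1 hF _ _ _ _ _ _).tr ?_
  refine (q_perm hF (G' := .vert a0 c1 a1 c2 :: .arc a1 b2 :: .vert b0 c0 a2 c1 :: H)
    (fun x => by simp only [List.count_cons]; omega)).tr ?_
  refine (q_out1 hF _ _ _ _ _ _).tr ?_
  exact q_perm hF (fun x => by simp only [List.count_cons]; omega)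

theorem r100 (hF : IsMOY q t F) (a0 a1 a2 b0 b1 b2 c0 c1 c2 : ℕ) (H : List GNode) :
    Q F 1 (.arc b0 c1 :: .arc c0 b1 :: .arc a0 c2 :: .arc c1 a1 :: .vert a1 b1 a2 b2 :: H)
      (.vert b0 c0 a2 b2 :: .arc a0 c2 :: H) := by
  refine (q_perm hF (G' := .arc c0 b1 :: .vert a1 b1 a2 b2 :: .arc b0 c1 :: .arc c1 a1 :: .arc a0 c2 :: H)
    (fun x => by simp only [List.count_cons]; omega)).tr ?_
  refine (q_in2 hF _ _ _ _ _ _).tr ?_
  refine (q_perm hF (G' := .arc b0 c1 :: .arc c1 a1 :: .vert a1 c0 a2 b2 :: .arc a0 c2 :: H)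
    (fun x => by simp only [List.count_cons]; omega)).tr ?_
  refine (q_arcs hF _ _ _ _).tr ?_
  refine (q_in1 hF _ _ _ _ _ _).tr ?_
  exact q_refl _

theorem r101 (hF : IsMOY q t F) (a0 a1 a2 b0 b1 b2 c0 c1 c2 : ℕ) (H : List GNode) :
    Q F (q + q⁻¹) (.vert b0 c0 b1 c1 :: .arc a0 c2 :: .arc c1 a1 :: .vert a1 b1 a2 b2 :: H)
      (.vert b0 c0 a2 b2 :: .arc a0 c2 :: H) := by
  refine (q_perm hF (G' := .vert b0 c0 b1 c1 :: .arc c1 a1 :: .vert a1 b1 a2 b2 :: .arc a0 c2 :: H)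
    (fun x => by simp only [List.count_cons]; omega)).tr ?_
  refine (q_out2 hF _ _ _ _ _ _).tr ?_
  refine (q_so hF _ _ _ _ _).tr ?_
  exact q_digon hF _ _ _ _ _ _ _

theorem r110 (hF : IsMOY q t F) (a0 a1 a2 b0 b1 b2 c0 c1 c2 : ℕ) (H : List GNode) :
    Q F 1 (.arc b0 c1 :: .arc c0 b1 :: .vert a0 c1 a1 c2 :: .vert a1 b1 a2 b2 :: H)
      (.vert a0 b0 a1 c2 :: .vert a1 c0 a2 b2 :: H) := by
  refine (q_perm hF (G' := .arc b0 c1 :: .vert a0 c1 a1 c2 :: .arc c0 b1 :: .vert a1 b1 a2 b2 :: H)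
    (fun x => by simp only [List.count_cons]; omega)).tr ?_
  refine (q_in2 hF _ _ _ _ _ _).tr ?_
  refine (q_perm hF (G' := .arc c0 b1 :: .vert a1 b1 a2 b2 :: .vert a0 b0 a1 c2 :: H)
    (fun x => by simp only [List.count_cons]; omega)).tr ?_
  refine (q_in2 hF _ _ _ _ _ _).tr ?_
  exact q_perm hF (fun x => by simp only [List.count_cons]; omega)

theorem map_fix (g : ℕ → ℕ) (H : List GNode) (h : ∀ v, v ∈ insG H ∨ v ∈ outsG H → g v = v) :
    H.map (GNode.map g) = H := by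
  induction H with
  | nil => rfl
  | cons x H ih =>
    have h1 : ∀ v, v ∈ insG H ∨ v ∈ outsG H → g v = v := fun v hv => h v (by
      simp only [insG, outsG, List.flatMap_cons, List.mem_append] at hv ⊢
      tauto)
    have h2 : ∀ v, v ∈ x.ins ∨ v ∈ x.outs → g v = v := fun v hv => h v (by
      simp only [insG, outsG, List.flatMap_cons, List.mem_append]
      tauto)
    rw [List.map_cons, ih h1]
    cases x with
    | arc i o =>
      simp only [GNode.map, h2 i (by simp [GNode.ins]), h2 o (by simp [GNode.outs])]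
    | vert a b c d =>
      simp only [GNode.map, h2 a (by simp [GNode.ins]), h2 b (by simp [GNode.ins]),
        h2 c (by simp [GNode.outs]), h2 d (by simp [GNode.outs])]

/-- Renaming of the three inner edges. -/
theorem relab (hF : IsMOY q t F) (a0 a1 a2 b0 b1 b2 c0 c1 c2 : ℕ) (H : List GNode)
    (h : Closed (.vert b0 c0 b1 c1 :: .vert a0 c1 a1 c2 :: .vert a1 b1 a2 b2 :: H)) :
    F (.vert b0 c0 b1 c1 :: .vert a0 c1 a1 c2 :: .vert a1 b1 a2 b2 :: H) =
      F (.vert b0 c0 c1 a1 :: .vert a0 a1 b1 c2 :: .vert b1 c1 a2 b2 :: H) := by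
  have h1 := h.1
  have h2 := h.2.nodup_iff.1 h.1
  simp only [insG, outsG, GNode.ins, GNode.outs, List.flatMap_cons, List.cons_append,
    List.nil_append, List.nodup_cons, List.mem_cons, not_or] at h1 h2
  obtain ⟨⟨m1, m2, m3, m4, m5, m6⟩, ⟨m7, m8, m9, m10, m11⟩, ⟨m12, m13, m14, m15⟩,
    ⟨m16, m17, m18⟩, ⟨m19, m20⟩, m21, -⟩ := h1
  obtain ⟨⟨p1, p2, p3, p4, p5, p6⟩, ⟨p7, p8, p9, p10, p11⟩, ⟨p12, p13, p14, p15⟩,
    ⟨p16, p17, p18⟩, ⟨p19, p20⟩, p21, -⟩ := h2
  obtain ⟨g, hg⟩ : ∃ g : Equiv.Perm ℕ, g = Equiv.swap b1 c1 * Equiv.swap a1 c1 := ⟨_, rfl⟩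
  have gc : g c1 = a1 := by
    rw [hg, Equiv.Perm.mul_apply, Equiv.swap_apply_right,
      Equiv.swap_apply_of_ne_of_ne (Ne.symm p2) (Ne.symm p7)]
  have gb : g b1 = c1 := by
    rw [hg, Equiv.Perm.mul_apply, Equiv.swap_apply_of_ne_of_ne p2 p1, Equiv.swap_apply_left]
  have ga : g a1 = b1 := by
    rw [hg, Equiv.Perm.mul_apply, Equiv.swap_apply_left, Equiv.swap_apply_right]
  have gv : ∀ v, v ≠ a1 → v ≠ b1 → v ≠ c1 → g v = v := by
    intro v hv1 hv2 hv3
    rw [hg, Equiv.Perm.mul_apply, Equiv.swap_apply_of_ne_of_ne hv1 hv3,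
      Equiv.swap_apply_of_ne_of_ne hv2 hv3]
  have hH : H.map (GNode.map g) = H := by
    refine map_fix _ _ fun v hv => gv v ?_ ?_ ?_
    · rintro rfl
      exact hv.elim m20 p15
    · rintro rfl
      exact hv.elim m21 p6
    · rintro rfl
      exact hv.elim m18 p11
  have key := hF.relabel _ g g.injective h
  rw [List.map_cons, List.map_cons, List.map_cons, hH] at key
  simp only [GNode.map, gc, gb, ga, gv b0 m4 m5 m3, gv c0 m9 m10 m8, gv a0 m13 m14 m12,
    gv c2 (Ne.symm p12) (Ne.symm p3) (Ne.symm p8), gv a2 (Ne.symm p13) (Ne.symm p4) (Ne.symm p9),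
    gv b2 (Ne.symm p14) (Ne.symm p5) (Ne.symm p10)] at key
  exact key.symm

theorem tri_local (hF : IsMOY q t F) (a0 a1 a2 b0 b1 b2 c0 c1 c2 : ℕ) (H : List GNode)
    (hL : Closed (.vert b1 c1 b2 c2 :: .vert a1 c0 a2 c1 :: .vert a0 b0 a1 b1 :: H))
    (h1 : Closed (.vert a0 b0 b2 c2 :: .arc c0 a2 :: H))
    (hR : Closed (.vert b0 c0 b1 c1 :: .vert a0 c1 a1 c2 :: .vert a1 b1 a2 b2 :: H))
    (h2 : Closed (.vert b0 c0 a2 b2 :: .arc a0 c2 :: H)) :
    F (.vert b1 c1 b2 c2 :: .vert a1 c0 a2 c1 :: .vert a0 b0 a1 b1 :: H) -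
      F (.vert a0 b0 b2 c2 :: .arc c0 a2 :: H) =
    F (.vert b0 c0 b1 c1 :: .vert a0 c1 a1 c2 :: .vert a1 b1 a2 b2 :: H) -
      F (.vert b0 c0 a2 b2 :: .arc a0 c2 :: H) := by
  have qL : Q F 1 (.vert b1 c1 b2 c2 :: .vert a1 c0 a2 c1 :: .vert a0 b0 a1 b1 :: H)
      (.vert a0 b0 b1 a1 :: .vert a1 c0 c1 a2 :: .vert b1 c1 c2 b2 :: H) := by
    refine (q_so hF _ _ _ _ _).tr ?_
    refine (q_perm hF (G' := .vert a1 c0 a2 c1 :: .vert b1 c1 c2 b2 :: .vert a0 b0 a1 b1 :: H)
      (fun x => by simp only [List.count_cons]; omega)).tr ?_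
    refine (q_so hF _ _ _ _ _).tr ?_
    refine (q_perm hF (G' := .vert a0 b0 a1 b1 :: .vert a1 c0 c1 a2 :: .vert b1 c1 c2 b2 :: H)
      (fun x => by simp only [List.count_cons]; omega)).tr ?_
    exact q_so hF _ _ _ _ _
  have qR : Q F 1 (.vert b0 c0 c1 a1 :: .vert a0 a1 b1 c2 :: .vert b1 c1 a2 b2 :: H)
      (.vert b0 c0 a1 c1 :: .vert a0 a1 c2 b1 :: .vert b1 c1 b2 a2 :: H) := by
    refine (q_so hF _ _ _ _ _).tr ?_
    refine (q_perm hF (G' := .vert a0 a1 b1 c2 :: .vert b0 c0 a1 c1 :: .vert b1 c1 a2 b2 :: H)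
      (fun x => by simp only [List.count_cons]; omega)).tr ?_
    refine (q_so hF _ _ _ _ _).tr ?_
    refine (q_perm hF (G' := .vert b1 c1 a2 b2 :: .vert a0 a1 c2 b1 :: .vert b0 c0 a1 c1 :: H)
      (fun x => by simp only [List.count_cons]; omega)).tr ?_
    refine (q_so hF _ _ _ _ _).tr ?_
    exact q_perm hF (fun x => by simp only [List.count_cons]; omega)
  obtain ⟨c1', e1⟩ := qL hL
  have e2 := relab hF a0 a1 a2 b0 b1 b2 c0 c1 c2 H hR
  have hR' : Closed (.vert b0 c0 c1 a1 :: .vert a0 a1 b1 c2 :: .vert b1 c1 a2 b2 :: H) := by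
    refine drop [] hR (fun x => ?_) (fun x => ?_) <;>
      simp only [insG, outsG, GNode.ins, GNode.outs, cnt, List.flatMap_cons, List.cons_append,
        List.nil_append, List.count_nil] <;> omega
  obtain ⟨-, e3⟩ := qR hR'
  obtain ⟨-, e4⟩ := q_so hF _ _ _ _ _ h1
  obtain ⟨-, e5⟩ := q_so hF _ _ _ _ _ h2
  have key := F_tri hF a0 b0 c0 c2 b2 a2 b1 a1 c1 H c1'
  simp only [triL, triR, List.cons_append, List.nil_append] at key
  rw [e2, e1, e3, e4, e5, one_mul, one_mul, one_mul, one_mul]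
  exact key

theorem phi_q (hF : IsMOY q t F) (c : K) (A B : List GNode) (hQ : ∀ H, Q F c (A ++ H) (B ++ H))
    (S : List Node) (G : List GNode) (hA : ClosedP S (A ++ G)) (hB : ClosedP S (B ++ G)) :
    Phi q t F S (A ++ G) = c * Phi q t F S (B ++ G) := by
  have key := Phi_local hF [(1, A), (-c, B)] (fun H hH => by
    have h1 : Closed (A ++ H) := hH (1, A) (by simp)
    simp [(hQ H h1).2]) S G (by
      intro x hx
      simp only [List.mem_cons, List.not_mem_nil, or_false] at hx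
      rcases hx with rfl | rfl
      · exact hA
      · exact hB)
  simp only [List.map_cons, List.map_nil, List.sum_cons, List.sum_nil] at key
  linear_combination key

theorem phi_tri (hF : IsMOY q t F) (a0 a1 a2 b0 b1 b2 c0 c1 c2 : ℕ)
    (S : List Node) (G : List GNode)
    (hL : ClosedP S (.vert b1 c1 b2 c2 :: .vert a1 c0 a2 c1 :: .vert a0 b0 a1 b1 :: G))
    (h1 : ClosedP S (.vert a0 b0 b2 c2 :: .arc c0 a2 :: G))
    (hR : ClosedP S (.vert b0 c0 b1 c1 :: .vert a0 c1 a1 c2 :: .vert a1 b1 a2 b2 :: G))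
    (h2 : ClosedP S (.vert b0 c0 a2 b2 :: .arc a0 c2 :: G)) :
    Phi q t F S (.vert b1 c1 b2 c2 :: .vert a1 c0 a2 c1 :: .vert a0 b0 a1 b1 :: G) -
      Phi q t F S (.vert a0 b0 b2 c2 :: .arc c0 a2 :: G) =
    Phi q t F S (.vert b0 c0 b1 c1 :: .vert a0 c1 a1 c2 :: .vert a1 b1 a2 b2 :: G) -
      Phi q t F S (.vert b0 c0 a2 b2 :: .arc a0 c2 :: G) := by
  have key := Phi_local hF
    [(1, [.vert b1 c1 b2 c2, .vert a1 c0 a2 c1, .vert a0 b0 a1 b1]),
      (-1, [.vert a0 b0 b2 c2, .arc c0 a2]),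
      (-1, [.vert b0 c0 b1 c1, .vert a0 c1 a1 c2, .vert a1 b1 a2 b2]),
      (1, [.vert b0 c0 a2 b2, .arc a0 c2])] (fun H hH => by
    have k1 := hH (1, [.vert b1 c1 b2 c2, .vert a1 c0 a2 c1, .vert a0 b0 a1 b1]) (by simp)
    have k2 := hH (-1, [.vert a0 b0 b2 c2, .arc c0 a2]) (by simp)
    have k3 := hH (-1, [.vert b0 c0 b1 c1, .vert a0 c1 a1 c2, .vert a1 b1 a2 b2]) (by simp)
    have k4 := hH (1, [.vert b0 c0 a2 b2, .arc a0 c2]) (by simp)
    have k5 := tri_local hF a0 a1 a2 b0 b1 b2 c0 c1 c2 H k1 k2 k3 k4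
    simp only [List.map_cons, List.map_nil, List.sum_cons, List.sum_nil, List.cons_append,
      List.nil_append]
    linear_combination k5) S G (by
      intro x hx
      simp only [List.mem_cons, List.not_mem_nil, or_false] at hx
      rcases hx with rfl | rfl | rfl | rfl
      · exact hL
      · exact h1
      · exact hR
      · exact h2)
  simp only [List.map_cons, List.map_nil, List.sum_cons, List.sum_nil, List.cons_append,
    List.nil_append] at key
  linear_combination key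

end R3a

open R3a in
theorem phiEq_r3a (hF : IsMOY q t F) (hq : q ≠ 0) (ht : t ≠ 0) (hz : q - q⁻¹ ≠ 0)
    (s₁ s₂ s₃ : Bool) (hs : s₁ = s₂ ∨ s₂ = s₃) (u v w : ℕ × ℕ × ℕ) :
    PhiEq q t F
      [xg s₁ (u.1, u.2.1) (v.1, v.2.1), xg s₂ (u.2.1, u.2.2) (w.1, w.2.1),
        xg s₃ (v.2.1, v.2.2) (w.2.1, w.2.2)]
      [xg s₁ (u.2.1, u.2.2) (v.2.1, v.2.2), xg s₂ (u.1, u.2.1) (w.2.1, w.2.2),
        xg s₃ (v.1, v.2.1) (w.1, w.2.1)] := by
  obtain ⟨a0, a1, a2⟩ := u
  obtain ⟨b0, b1, b2⟩ := v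
  obtain ⟨c0, c1, c2⟩ := w
  intro S G h
  simp only [xg, List.cons_append, List.nil_append] at h ⊢
  refine ⟨?_, ?_⟩
  · refine dropP [] h (fun x => ?_) (fun x => ?_) <;>
      simp only [insOf, outsOf, Node.ins, Node.outs, cnt, List.flatMap_cons, List.cons_append,
        List.nil_append, List.count_nil, List.count_append] <;> omega
  have st : ∀ (M : List ℕ) (A : List GNode),
      (∀ x, (insOf (Node.xing s₁ a0 a1 b0 b1 :: .xing s₂ a1 a2 c0 c1 :: .xing s₃ b1 b2 c1 c2 ::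
        S) ++ insG G).count x = M.count x + (insOf S ++ insG (A ++ G)).count x ∧
      (outsOf (Node.xing s₁ a0 a1 b0 b1 :: .xing s₂ a1 a2 c0 c1 :: .xing s₃ b1 b2 c1 c2 ::
        S) ++ outsG G).count x = M.count x + (outsOf S ++ outsG (A ++ G)).count x) →
      ClosedP S (A ++ G) := fun M A h1 => dropP M h (fun x => (h1 x).1) (fun x => (h1 x).2)
  have cP := st [a1, b1, c1] [.arc a0 c2, .arc b0 b2, .arc c0 a2] (by
    intro x
    constructor <;> simp only [insOf, outsOf, Node.ins, Node.outs, insG, outsG, GNode.ins,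
      GNode.outs, cnt, List.flatMap_cons, List.cons_append, List.nil_append, List.count_nil,
      List.count_append] <;> omega)
  have cE1 := st [a1, b1, c1] [.vert a0 b0 b2 c2, .arc c0 a2] (by
    intro x
    constructor <;> simp only [insOf, outsOf, Node.ins, Node.outs, insG, outsG, GNode.ins,
      GNode.outs, cnt, List.flatMap_cons, List.cons_append, List.nil_append, List.count_nil,
      List.count_append] <;> omega)
  have cE2 := st [a1, b1, c1] [.vert b0 c0 a2 b2, .arc a0 c2] (by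
    intro x
    constructor <;> simp only [insOf, outsOf, Node.ins, Node.outs, insG, outsG, GNode.ins,
      GNode.outs, cnt, List.flatMap_cons, List.cons_append, List.nil_append, List.count_nil,
      List.count_append] <;> omega)
  have cY := st [a1, b1] [.vert b0 c0 a2 c1, .vert a0 c1 b2 c2] (by
    intro x
    constructor <;> simp only [insOf, outsOf, Node.ins, Node.outs, insG, outsG, GNode.ins,
      GNode.outs, cnt, List.flatMap_cons, List.cons_append, List.nil_append, List.count_nil,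
      List.count_append] <;> omega)
  have cZ := st [b1, c1] [.vert a0 b0 a1 c2, .vert a1 c0 a2 b2] (by
    intro x
    constructor <;> simp only [insOf, outsOf, Node.ins, Node.outs, insG, outsG, GNode.ins,
      GNode.outs, cnt, List.flatMap_cons, List.cons_append, List.nil_append, List.count_nil,
      List.count_append] <;> omega)
  have dl000 := st [] [.arc b1 c2, .arc c1 b2, .arc a1 c1, .arc c0 a2, .arc a0 b1, .arc b0 a1] (by
    intro x
    constructor <;> simp only [insOf, outsOf, Node.ins, Node.outs, insG, outsG, GNode.ins,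
      GNode.outs, cnt, List.flatMap_cons, List.cons_append, List.nil_append, List.count_nil,
      List.count_append] <;> omega)
  have kl000 := phi_q hF 1 [.arc b1 c2, .arc c1 b2, .arc a1 c1, .arc c0 a2, .arc a0 b1, .arc b0 a1]
    [.arc a0 c2, .arc b0 b2, .arc c0 a2] (fun H => l000 hF a0 a1 a2 b0 b1 b2 c0 c1 c2 H) S G dl000 cP
  have dl001 := st [] [.vert b1 c1 b2 c2, .arc a1 c1, .arc c0 a2, .arc a0 b1, .arc b0 a1] (by
    intro x
    constructor <;> simp only [insOf, outsOf, Node.ins, Node.outs, insG, outsG, GNode.ins,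
      GNode.outs, cnt, List.flatMap_cons, List.cons_append, List.nil_append, List.count_nil,
      List.count_append] <;> omega)
  have kl001 := phi_q hF 1 [.vert b1 c1 b2 c2, .arc a1 c1, .arc c0 a2, .arc a0 b1, .arc b0 a1]
    [.vert a0 b0 b2 c2, .arc c0 a2] (fun H => l001 hF a0 a1 a2 b0 b1 b2 c0 c1 c2 H) S G dl001 cE1
  have dl010 := st [] [.arc b1 c2, .arc c1 b2, .vert a1 c0 a2 c1, .arc a0 b1, .arc b0 a1] (by
    intro x
    constructor <;> simp only [insOf, outsOf, Node.ins, Node.outs, insG, outsG, GNode.ins,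
      GNode.outs, cnt, List.flatMap_cons, List.cons_append, List.nil_append, List.count_nil,
      List.count_append] <;> omega)
  have kl010 := phi_q hF 1 [.arc b1 c2, .arc c1 b2, .vert a1 c0 a2 c1, .arc a0 b1, .arc b0 a1]
    [.vert b0 c0 a2 b2, .arc a0 c2] (fun H => l010 hF a0 a1 a2 b0 b1 b2 c0 c1 c2 H) S G dl010 cE2
  have dl011 := st [] [.vert b1 c1 b2 c2, .vert a1 c0 a2 c1, .arc a0 b1, .arc b0 a1] (by
    intro x
    constructor <;> simp only [insOf, outsOf, Node.ins, Node.outs, insG, outsG, GNode.ins,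
      GNode.outs, cnt, List.flatMap_cons, List.cons_append, List.nil_append, List.count_nil,
      List.count_append] <;> omega)
  have kl011 := phi_q hF 1 [.vert b1 c1 b2 c2, .vert a1 c0 a2 c1, .arc a0 b1, .arc b0 a1]
    [.vert b0 c0 a2 c1, .vert a0 c1 b2 c2] (fun H => l011 hF a0 a1 a2 b0 b1 b2 c0 c1 c2 H) S G dl011 cY
  have dl100 := st [] [.arc b1 c2, .arc c1 b2, .arc a1 c1, .arc c0 a2, .vert a0 b0 a1 b1] (by
    intro x
    constructor <;> simp only [insOf, outsOf, Node.ins, Node.outs, insG, outsG, GNode.ins,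
      GNode.outs, cnt, List.flatMap_cons, List.cons_append, List.nil_append, List.count_nil,
      List.count_append] <;> omega)
  have kl100 := phi_q hF 1 [.arc b1 c2, .arc c1 b2, .arc a1 c1, .arc c0 a2, .vert a0 b0 a1 b1]
    [.vert a0 b0 b2 c2, .arc c0 a2] (fun H => l100 hF a0 a1 a2 b0 b1 b2 c0 c1 c2 H) S G dl100 cE1
  have dl101 := st [] [.vert b1 c1 b2 c2, .arc a1 c1, .arc c0 a2, .vert a0 b0 a1 b1] (by
    intro x
    constructor <;> simp only [insOf, outsOf, Node.ins, Node.outs, insG, outsG, GNode.ins,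
      GNode.outs, cnt, List.flatMap_cons, List.cons_append, List.nil_append, List.count_nil,
      List.count_append] <;> omega)
  have kl101 := phi_q hF (q + q⁻¹) [.vert b1 c1 b2 c2, .arc a1 c1, .arc c0 a2, .vert a0 b0 a1 b1]
    [.vert a0 b0 b2 c2, .arc c0 a2] (fun H => l101 hF a0 a1 a2 b0 b1 b2 c0 c1 c2 H) S G dl101 cE1
  have dl110 := st [] [.arc b1 c2, .arc c1 b2, .vert a1 c0 a2 c1, .vert a0 b0 a1 b1] (by
    intro x
    constructor <;> simp only [insOf, outsOf, Node.ins, Node.outs, insG, outsG, GNode.ins,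
      GNode.outs, cnt, List.flatMap_cons, List.cons_append, List.nil_append, List.count_nil,
      List.count_append] <;> omega)
  have kl110 := phi_q hF 1 [.arc b1 c2, .arc c1 b2, .vert a1 c0 a2 c1, .vert a0 b0 a1 b1]
    [.vert a0 b0 a1 c2, .vert a1 c0 a2 b2] (fun H => l110 hF a0 a1 a2 b0 b1 b2 c0 c1 c2 H) S G dl110 cZ
  have dr000 := st [] [.arc b0 c1, .arc c0 b1, .arc a0 c2, .arc c1 a1, .arc a1 b2, .arc b1 a2] (by
    intro x
    constructor <;> simp only [insOf, outsOf, Node.ins, Node.outs, insG, outsG, GNode.ins,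
      GNode.outs, cnt, List.flatMap_cons, List.cons_append, List.nil_append, List.count_nil,
      List.count_append] <;> omega)
  have kr000 := phi_q hF 1 [.arc b0 c1, .arc c0 b1, .arc a0 c2, .arc c1 a1, .arc a1 b2, .arc b1 a2]
    [.arc a0 c2, .arc b0 b2, .arc c0 a2] (fun H => r000 hF a0 a1 a2 b0 b1 b2 c0 c1 c2 H) S G dr000 cP
  have dr001 := st [] [.vert b0 c0 b1 c1, .arc a0 c2, .arc c1 a1, .arc a1 b2, .arc b1 a2] (by
    intro x
    constructor <;> simp only [insOf, outsOf, Node.ins, Node.outs, insG, outsG, GNode.ins,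
      GNode.outs, cnt, List.flatMap_cons, List.cons_append, List.nil_append, List.count_nil,
      List.count_append] <;> omega)
  have kr001 := phi_q hF 1 [.vert b0 c0 b1 c1, .arc a0 c2, .arc c1 a1, .arc a1 b2, .arc b1 a2]
    [.vert b0 c0 a2 b2, .arc a0 c2] (fun H => r001 hF a0 a1 a2 b0 b1 b2 c0 c1 c2 H) S G dr001 cE2
  have dr010 := st [] [.arc b0 c1, .arc c0 b1, .vert a0 c1 a1 c2, .arc a1 b2, .arc b1 a2] (by
    intro x
    constructor <;> simp only [insOf, outsOf, Node.ins, Node.outs, insG, outsG, GNode.ins,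
      GNode.outs, cnt, List.flatMap_cons, List.cons_append, List.nil_append, List.count_nil,
      List.count_append] <;> omega)
  have kr010 := phi_q hF 1 [.arc b0 c1, .arc c0 b1, .vert a0 c1 a1 c2, .arc a1 b2, .arc b1 a2]
    [.vert a0 b0 b2 c2, .arc c0 a2] (fun H => r010 hF a0 a1 a2 b0 b1 b2 c0 c1 c2 H) S G dr010 cE1
  have dr011 := st [] [.vert b0 c0 b1 c1, .vert a0 c1 a1 c2, .arc a1 b2, .arc b1 a2] (by
    intro x
    constructor <;> simp only [insOf, outsOf, Node.ins, Node.outs, insG, outsG, GNode.ins,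
      GNode.outs, cnt, List.flatMap_cons, List.cons_append, List.nil_append, List.count_nil,
      List.count_append] <;> omega)
  have kr011 := phi_q hF 1 [.vert b0 c0 b1 c1, .vert a0 c1 a1 c2, .arc a1 b2, .arc b1 a2]
    [.vert b0 c0 a2 c1, .vert a0 c1 b2 c2] (fun H => r011 hF a0 a1 a2 b0 b1 b2 c0 c1 c2 H) S G dr011 cY
  have dr100 := st [] [.arc b0 c1, .arc c0 b1, .arc a0 c2, .arc c1 a1, .vert a1 b1 a2 b2] (by
    intro x
    constructor <;> simp only [insOf, outsOf, Node.ins, Node.outs, insG, outsG, GNode.ins,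
      GNode.outs, cnt, List.flatMap_cons, List.cons_append, List.nil_append, List.count_nil,
      List.count_append] <;> omega)
  have kr100 := phi_q hF 1 [.arc b0 c1, .arc c0 b1, .arc a0 c2, .arc c1 a1, .vert a1 b1 a2 b2]
    [.vert b0 c0 a2 b2, .arc a0 c2] (fun H => r100 hF a0 a1 a2 b0 b1 b2 c0 c1 c2 H) S G dr100 cE2
  have dr101 := st [] [.vert b0 c0 b1 c1, .arc a0 c2, .arc c1 a1, .vert a1 b1 a2 b2] (by
    intro x
    constructor <;> simp only [insOf, outsOf, Node.ins, Node.outs, insG, outsG, GNode.ins,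
      GNode.outs, cnt, List.flatMap_cons, List.cons_append, List.nil_append, List.count_nil,
      List.count_append] <;> omega)
  have kr101 := phi_q hF (q + q⁻¹) [.vert b0 c0 b1 c1, .arc a0 c2, .arc c1 a1, .vert a1 b1 a2 b2]
    [.vert b0 c0 a2 b2, .arc a0 c2] (fun H => r101 hF a0 a1 a2 b0 b1 b2 c0 c1 c2 H) S G dr101 cE2
  have dr110 := st [] [.arc b0 c1, .arc c0 b1, .vert a0 c1 a1 c2, .vert a1 b1 a2 b2] (by
    intro x
    constructor <;> simp only [insOf, outsOf, Node.ins, Node.outs, insG, outsG, GNode.ins,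
      GNode.outs, cnt, List.flatMap_cons, List.cons_append, List.nil_append, List.count_nil,
      List.count_append] <;> omega)
  have kr110 := phi_q hF 1 [.arc b0 c1, .arc c0 b1, .vert a0 c1 a1 c2, .vert a1 b1 a2 b2]
    [.vert a0 b0 a1 c2, .vert a1 c0 a2 b2] (fun H => r110 hF a0 a1 a2 b0 b1 b2 c0 c1 c2 H) S G dr110 cZ
  have dl111 := st [] [.vert b1 c1 b2 c2, .vert a1 c0 a2 c1, .vert a0 b0 a1 b1] (by
    intro x
    constructor <;> simp only [insOf, outsOf, Node.ins, Node.outs, insG, outsG, GNode.ins,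
      GNode.outs, cnt, List.flatMap_cons, List.cons_append, List.nil_append, List.count_nil,
      List.count_append] <;> omega)
  have dr111 := st [] [.vert b0 c0 b1 c1, .vert a0 c1 a1 c2, .vert a1 b1 a2 b2] (by
    intro x
    constructor <;> simp only [insOf, outsOf, Node.ins, Node.outs, insG, outsG, GNode.ins,
      GNode.outs, cnt, List.flatMap_cons, List.cons_append, List.nil_append, List.count_nil,
      List.count_append] <;> omega)
  have kT := phi_tri hF a0 a1 a2 b0 b1 b2 c0 c1 c2 S G dl111 cE1 dr111 cE2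
  simp only [List.cons_append, List.nil_append] at kl000 kl001 kl010 kl011 kl100 kl101 kl110 kr000 kr001 kr010 kr011 kr100 kr101 kr110
  simp only [Phi]
  rw [kl000, kl001, kl010, kl011, kl100, kl101, kl110, kr000, kr001, kr010, kr011, kr100, kr101,
    kr110]
  have qi : q * q⁻¹ = 1 := mul_inv_cancel₀ hq
  obtain ⟨r, hr⟩ : ∃ r, r = q⁻¹ := ⟨_, rfl⟩
  obtain ⟨E₁, hE₁⟩ : ∃ z, z = Phi q t F S (.vert a0 b0 b2 c2 :: .arc c0 a2 :: G) := ⟨_, rfl⟩
  obtain ⟨E₂, hE₂⟩ : ∃ z, z = Phi q t F S (.vert b0 c0 a2 b2 :: .arc a0 c2 :: G) := ⟨_, rfl⟩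
  rw [← hr] at qi ⊢
  rw [← hE₁, ← hE₂] at kT ⊢
  have hX : -((if s₁ then q else r) * (if s₂ then q else r)) +
      (if s₁ then q else r) * (if s₃ then q else r) - (if s₂ then q else r) *
      (if s₃ then q else r) + (q + r) * (if s₂ then q else r) - 1 = 0 := by
    cases s₁ <;> cases s₂ <;> cases s₃ <;>
      simp only [if_true, if_false, Bool.false_eq_true, reduceCtorEq, or_self, or_true, true_or,
        false_or, or_false] at hs ⊢ <;> linear_combination qi
  linear_combination ((if s₁ then t⁻¹ else t) * (if s₂ then t⁻¹ else t) *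
    (if s₃ then t⁻¹ else t) * (E₁ - E₂)) * hX - ((if s₁ then t⁻¹ else t) *
    (if s₂ then t⁻¹ else t) * (if s₃ then t⁻¹ else t)) * kT

end Pool.Agent.Lib.MP_31c440_gt.HV
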