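import Pool.Agent.Lib.MP_31c440_gt.HV.S5_R3a

/-!
All third moves from the third move with a strand that is first and last, and the invariance of the
state sum under all local moves.
-/

noncomputable section

namespace Pool.Agent.Lib.MP_31c440_gt.HV

variable {K : Type*} [Field K] {q t : K} {F : List GNode → K}

namespace R3b

theorem ins_app (L L' : List Node) : insOf (L ++ L') = insOf L ++ insOf L' :=
  List.flatMap_append

theorem outs_app (L L' : List Node) : outsOf (L ++ L') = outsOf L ++ outsOf L' :=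
  List.flatMap_append

theorem closed_of_perm {L L' : List Node} {G : List GNode} (h : ClosedP L G)
    (h1 : (insOf L).Perm (insOf L')) (h2 : (outsOf L).Perm (outsOf L')) : ClosedP L' G :=
  ⟨((h1.append_right (insG G)).nodup_iff).1 h.1,
    ((h1.append_right (insG G)).symm.trans h.2).trans (h2.append_right (outsG G))⟩

/-- Fresh labels may be inserted. -/
theorem closed_of_fresh {L L' : List Node} {G : List GNode} (h : ClosedP L G) (fr : List ℕ)
    (hfr : fr.Nodup) (hf : ∀ e ∈ fr, e ∉ insOf L ++ insG G)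
    (h1 : (insOf L').Perm (fr ++ insOf L)) (h2 : (outsOf L').Perm (fr ++ outsOf L)) :
    ClosedP L' G := by
  have e1 : (insOf L' ++ insG G).Perm (fr ++ (insOf L ++ insG G)) := by
    rw [← List.append_assoc]
    exact h1.append_right _
  have e2 : (outsOf L' ++ outsG G).Perm (fr ++ (outsOf L ++ outsG G)) := by
    rw [← List.append_assoc]
    exact h2.append_right _
  refine ⟨(e1.nodup_iff).2 ?_, (e1.trans (h.2.append_left fr)).trans e2.symm⟩
  rw [List.nodup_append]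
  exact ⟨hfr, h.1, fun a ha b hb hab => hf a ha (hab ▸ hb)⟩

theorem pe_refl (T : List Node) : PhiEq q t F T T := fun _ _ h => ⟨h, rfl⟩

theorem pe_trans {T T' T'' : List Node} (h : PhiEq q t F T T') (h' : PhiEq q t F T' T'') :
    PhiEq q t F T T'' := fun S G hc => by
  obtain ⟨h1, h2⟩ := h S G hc
  obtain ⟨h3, h4⟩ := h' S G h1
  exact ⟨h3, h2.trans h4⟩

theorem pe_perm (hF : IsMOY q t F) {T T' : List Node} (h : T.Perm T') : PhiEq q t F T T' :=
  fun S _ hc => ⟨hc.perm (h.append_right S) (List.Perm.refl _),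
    Phi_perm hF hc (h.append_right S) (List.Perm.refl _)⟩

theorem pe_append (hF : IsMOY q t F) {A A' B B' : List Node} (hA : PhiEq q t F A A')
    (hB : PhiEq q t F B B') : PhiEq q t F (A ++ B) (A' ++ B') := by
  intro S G hc
  rw [List.append_assoc] at hc
  obtain ⟨h1, h2⟩ := hA (B ++ S) G hc
  have p1 : (A' ++ (B ++ S)).Perm (B ++ (A' ++ S)) := by
    rw [← List.append_assoc, ← List.append_assoc]
    exact List.perm_append_comm.append_right S
  have p2 : (B' ++ (A' ++ S)).Perm (A' ++ B' ++ S) := by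
    rw [← List.append_assoc]
    exact List.perm_append_comm.append_right S
  have h3 := h1.perm p1 (List.Perm.refl G)
  obtain ⟨h4, h5⟩ := hB (A' ++ S) G h3
  refine ⟨h4.perm p2 (List.Perm.refl G), ?_⟩
  rw [List.append_assoc, h2, Phi_perm hF h1 p1 (List.Perm.refl G), h5,
    Phi_perm hF h4 p2 (List.Perm.refl G)]

theorem pe_virt (hF : IsMOY q t F) (s : Bool) (a b c d : ℕ) :
    PhiEq q t F [.xing s a b c d] [.xing s c d a b] := by
  intro S G hc
  refine ⟨closed_of_perm hc ?_ ?_, Phi_virt hF hc⟩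
  · simp only [insOf, List.cons_append, List.nil_append, List.flatMap_cons, Node.ins]
    exact List.Perm.swap _ _ _
  · simp only [outsOf, List.cons_append, List.nil_append, List.flatMap_cons, Node.outs]
    exact List.Perm.swap _ _ _

theorem pe_flip (hF : IsMOY q t F) (s : Bool) (x y : ℕ × ℕ) :
    PhiEq q t F [xg s x y] [xg s y x] := pe_virt hF s _ _ _ _

/-- Three nodes, each of them may be replaced. -/
theorem pe_three (hF : IsMOY q t F) {a a' b b' c c' : Node} (h1 : PhiEq q t F [a] [a'])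
    (h2 : PhiEq q t F [b] [b']) (h3 : PhiEq q t F [c] [c']) :
    PhiEq q t F [a, b, c] [a', b', c'] :=
  pe_append hF h1 (pe_append hF h2 h3)

/-- From the move of `u`, `v`, `w` to a move with another order of the nodes and other flips. -/
theorem pe_conj (hF : IsMOY q t F) {a b c a₁ b₁ c₁ a₂ b₂ c₂ a' b' c' a₁' b₁' c₁' a₂' b₂' c₂' : Node}
    (h1 : PhiEq q t F [a] [a₁]) (h2 : PhiEq q t F [b] [b₁]) (h3 : PhiEq q t F [c] [c₁])
    (hp : [a₁, b₁, c₁].Perm [a₂, b₂, c₂]) (h : PhiEq q t F [a₂, b₂, c₂] [a₂', b₂', c₂'])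
    (hp' : [a₂', b₂', c₂'].Perm [a₁', b₁', c₁'])
    (h1' : PhiEq q t F [a₁'] [a']) (h2' : PhiEq q t F [b₁'] [b']) (h3' : PhiEq q t F [c₁'] [c']) :
    PhiEq q t F [a, b, c] [a', b', c'] :=
  pe_trans (pe_three hF h1 h2 h3) (pe_trans (pe_perm hF hp) (pe_trans h
    (pe_trans (pe_perm hF hp') (pe_three hF h1' h2' h3'))))

variable (hF : IsMOY q t F) (hq : q ≠ 0) (ht : t ≠ 0) (hz : q - q⁻¹ ≠ 0)

include hF hq ht hz

theorem acyclic_ttt (o : Bool) (x y z : ℕ × ℕ × ℕ) :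
    PhiEq q t F (triSide true true true o o o x y z) (triSide false false false o o o x y z) :=
  phiEq_r3a hF hq ht hz o o o (Or.inl rfl) x y z

theorem acyclic_ttf (o : Bool) (x y z : ℕ × ℕ × ℕ) :
    PhiEq q t F (triSide true true false o (!o) (!o) x y z)
      (triSide false false true o (!o) (!o) x y z) := by
  refine pe_conj hF (pe_flip hF _ _ _) (pe_refl _) (pe_refl _) ?_
    (phiEq_r3a hF hq ht hz o (!o) (!o) (Or.inr rfl) y x z) ?_ (pe_flip hF _ _ _) (pe_refl _)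
    (pe_refl _)
  · exact (List.Perm.swap _ _ _).cons _
  · exact (List.Perm.swap _ _ _).cons _

theorem acyclic_tff (o : Bool) (x y z : ℕ × ℕ × ℕ) :
    PhiEq q t F (triSide true false false (!o) (!o) o x y z)
      (triSide false true true (!o) (!o) o x y z) := by
  refine pe_conj hF (pe_flip hF _ _ _) (pe_flip hF _ _ _) (pe_refl _) ?_
    (phiEq_r3a hF hq ht hz o (!o) (!o) (Or.inr rfl) y z x) ?_ (pe_flip hF _ _ _) (pe_flip hF _ _ _)
    (pe_refl _)
  · exact ((List.Perm.swap _ _ _).cons _).trans (List.Perm.swap _ _ _)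
  · exact (List.Perm.swap _ _ _).trans ((List.Perm.swap _ _ _).cons _)

theorem acyclic_ftt (o : Bool) (x y z : ℕ × ℕ × ℕ) :
    PhiEq q t F (triSide false true true (!o) (!o) o x y z)
      (triSide true false false (!o) (!o) o x y z) := by
  refine pe_conj hF (pe_refl _) (pe_refl _) (pe_flip hF _ _ _) ?_
    (phiEq_r3a hF hq ht hz (!o) (!o) o (Or.inl rfl) x z y) ?_ (pe_refl _) (pe_refl _)
    (pe_flip hF _ _ _)
  · exact List.Perm.swap _ _ _
  · exact List.Perm.swap _ _ _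

theorem acyclic_fft (o : Bool) (x y z : ℕ × ℕ × ℕ) :
    PhiEq q t F (triSide false false true o (!o) (!o) x y z)
      (triSide true true false o (!o) (!o) x y z) := by
  refine pe_conj hF (pe_refl _) (pe_flip hF _ _ _) (pe_flip hF _ _ _) ?_
    (phiEq_r3a hF hq ht hz (!o) (!o) o (Or.inl rfl) z x y) ?_ (pe_refl _) (pe_flip hF _ _ _)
    (pe_flip hF _ _ _)
  · exact (List.Perm.swap _ _ _).trans ((List.Perm.swap _ _ _).cons _)
  · exact ((List.Perm.swap _ _ _).cons _).trans (List.Perm.swap _ _ _)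

theorem acyclic_fff (o : Bool) (x y z : ℕ × ℕ × ℕ) :
    PhiEq q t F (triSide false false false o o o x y z) (triSide true true true o o o x y z) := by
  refine pe_conj hF (pe_flip hF _ _ _) (pe_flip hF _ _ _) (pe_flip hF _ _ _) ?_
    (phiEq_r3a hF hq ht hz o o o (Or.inl rfl) z y x) ?_ (pe_flip hF _ _ _) (pe_flip hF _ _ _)
    (pe_flip hF _ _ _)
  · exact (List.reverse_perm _).symm
  · exact (List.reverse_perm _).symm

/-- The first chain: removing the auxiliary crossings. -/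
theorem chain₁ (o : Bool) (t₀ t₁ t₂ m₀ m₁ m₂ b₀ b₁ b₂ e₁ e₂ f₁ f₂ : ℕ) :
    PhiEq q t F
      [.xing o t₀ f₁ e₂ b₂, .xing (!o) f₁ f₂ e₁ e₂, .xing (!o) f₂ t₁ m₁ m₂,
        .xing (!o) m₀ m₁ b₁ e₁, .xing o t₁ t₂ b₀ b₁]
      [.xing (!o) t₀ t₁ m₁ m₂, .xing o t₁ t₂ b₀ b₁, .xing (!o) m₀ m₁ b₁ b₂] := by
  refine pe_trans (T' := [.arc t₀ f₂, .arc e₁ b₂, .xing (!o) f₂ t₁ m₁ m₂,
    .xing (!o) m₀ m₁ b₁ e₁, .xing o t₁ t₂ b₀ b₁])
    (pe_append hF (phiEq_r2Opp hF hq ht hz o t₀ f₁ f₂ e₁ e₂ b₂) (pe_refl _)) ?_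
  refine pe_trans (T' := [.arc t₀ f₂, .xing (!o) f₂ t₁ m₁ m₂, .xing (!o) m₀ m₁ b₁ e₁,
    .arc e₁ b₂, .xing o t₁ t₂ b₀ b₁]) (pe_perm hF ?_) ?_
  · exact ((List.Perm.swap _ _ _).trans ((List.Perm.swap _ _ _).cons _)).cons _
  refine pe_trans (T' := [.xing (!o) t₀ t₁ m₁ m₂, .xing (!o) m₀ m₁ b₁ e₁,
    .arc e₁ b₂, .xing o t₁ t₂ b₀ b₁])
    (pe_append hF (phiEq_arcOver hF t₀ (!o) f₂ t₁ m₁ m₂) (pe_refl _)) ?_
  refine pe_trans (T' := [.xing (!o) t₀ t₁ m₁ m₂, .xing (!o) m₀ m₁ b₁ b₂,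
    .xing o t₁ t₂ b₀ b₁])
    (pe_append hF (pe_refl [_])
      (pe_append hF (phiEq_underArc hF b₂ (!o) m₀ m₁ b₁ e₁) (pe_refl _))) ?_
  exact pe_perm hF ((List.Perm.swap _ _ _).cons _)

/-- The second chain: the acyclic third move, and the second move at another place. -/
theorem chain₂ (o : Bool) (t₀ t₁ t₂ m₀ m₁ m₂ b₀ b₁ b₂ e₁ e₂ f₁ f₂ : ℕ) :
    PhiEq q t F
      [.xing o t₀ f₁ e₂ b₂, .xing (!o) f₁ f₂ e₁ e₂, .xing (!o) f₂ t₁ m₁ m₂,
        .xing (!o) m₀ m₁ b₁ e₁, .xing o t₁ t₂ b₀ b₁]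
      [.xing (!o) f₁ t₂ m₀ m₁, .xing o t₀ f₁ e₂ b₂, .xing (!o) m₁ m₂ b₀ e₂] := by
  refine pe_trans (T' := [.xing (!o) f₂ t₁ m₁ m₂, .xing (!o) f₁ f₂ e₁ e₂,
    .xing (!o) m₀ m₁ b₁ e₁, .xing o t₁ t₂ b₀ b₁, .xing o t₀ f₁ e₂ b₂]) (pe_perm hF ?_) ?_
  · refine (List.Perm.swap _ _ _).trans ?_
    refine (((List.Perm.swap _ _ _).trans (((List.Perm.swap _ _ _).trans
      ((List.Perm.swap _ _ _).cons _)).cons _)).cons _).trans ?_
    exact List.Perm.swap _ _ _
  refine pe_trans (T' := [.xing (!o) f₁ f₂ m₀ m₁, .xing (!o) f₂ t₁ b₁ e₁,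
    .xing (!o) m₁ m₂ e₁ e₂, .xing o t₁ t₂ b₀ b₁, .xing o t₀ f₁ e₂ b₂])
    (pe_append hF (acyclic_fff hF hq ht hz (!o) (f₁, f₂, t₁) (m₀, m₁, m₂) (b₁, e₁, e₂))
      (pe_refl _)) ?_
  refine pe_trans (T' := [.xing (!o) f₂ t₁ b₁ e₁, .xing (!(!o)) t₁ t₂ b₀ b₁,
    .xing (!o) f₁ f₂ m₀ m₁, .xing (!o) m₁ m₂ e₁ e₂, .xing o t₀ f₁ e₂ b₂]) (pe_perm hF ?_) ?_
  · rw [Bool.not_not]
    refine (List.Perm.swap _ _ _).trans (((List.Perm.cons _ (List.Perm.swap _ _ _))).cons _ |>.trans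
      ((List.Perm.swap _ _ _).cons _))
  refine pe_trans (T' := [.arc f₂ t₂, .arc b₀ e₁,
    .xing (!o) f₁ f₂ m₀ m₁, .xing (!o) m₁ m₂ e₁ e₂, .xing o t₀ f₁ e₂ b₂])
    (pe_append hF (phiEq_r2Opp hF hq ht hz (!o) f₂ t₁ t₂ b₀ b₁ e₁) (pe_refl _)) ?_
  refine pe_trans (T' := [.xing (!o) f₁ f₂ m₀ m₁, .arc f₂ t₂, .arc b₀ e₁,
    .xing (!o) m₁ m₂ e₁ e₂, .xing o t₀ f₁ e₂ b₂]) (pe_perm hF ?_) ?_
  · exact ((List.Perm.swap _ _ _).cons _).trans (List.Perm.swap _ _ _)
  refine pe_trans (T' := [.xing (!o) f₁ t₂ m₀ m₁, .arc b₀ e₁,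
    .xing (!o) m₁ m₂ e₁ e₂, .xing o t₀ f₁ e₂ b₂])
    (pe_append hF (phiEq_overArc hF t₂ (!o) f₁ f₂ m₀ m₁) (pe_refl _)) ?_
  refine pe_trans (T' := [.xing (!o) f₁ t₂ m₀ m₁,
    .xing (!o) m₁ m₂ b₀ e₂, .xing o t₀ f₁ e₂ b₂])
    (pe_append hF (pe_refl [_])
      (pe_append hF (phiEq_arcUnder hF b₀ (!o) m₁ m₂ e₁ e₂) (pe_refl _))) ?_
  exact pe_perm hF ((List.Perm.swap _ _ _).cons _)

omit hq ht hz in
/-- Renaming, first part. -/
theorem chain₃ (o : Bool) (t₀ t₁ t₂ m₀ m₁ m₂ b₀ b₁ b₂ e₂ f₁ : ℕ) :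
    PhiEq q t F
      [.xing o t₀ t₁ e₂ b₂, .arc t₁ f₁, .xing (!o) f₁ t₂ m₀ m₁, .xing (!o) m₁ m₂ b₀ b₁,
        .arc b₁ e₂]
      [.xing (!o) f₁ t₂ m₀ m₁, .xing o t₀ f₁ e₂ b₂, .xing (!o) m₁ m₂ b₀ e₂] := by
  refine pe_trans (T' := [.xing o t₀ f₁ e₂ b₂, .xing (!o) f₁ t₂ m₀ m₁, .xing (!o) m₁ m₂ b₀ b₁,
    .arc b₁ e₂]) (pe_append hF (phiEq_overArc hF f₁ o t₀ t₁ e₂ b₂) (pe_refl _)) ?_
  refine pe_trans (T' := [.xing o t₀ f₁ e₂ b₂, .xing (!o) f₁ t₂ m₀ m₁, .xing (!o) m₁ m₂ b₀ e₂])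
    (pe_append hF (pe_refl [_, _]) (phiEq_underArc hF e₂ (!o) m₁ m₂ b₀ b₁)) ?_
  exact pe_perm hF (List.Perm.swap _ _ _)

omit hq ht hz in
/-- Renaming, second part. -/
theorem chain₄ (o : Bool) (t₀ t₁ t₂ m₀ m₁ m₂ b₀ b₁ b₂ e₂ f₁ : ℕ) :
    PhiEq q t F
      [.xing o t₀ t₁ e₂ b₂, .arc t₁ f₁, .xing (!o) f₁ t₂ m₀ m₁, .xing (!o) m₁ m₂ b₀ b₁,
        .arc b₁ e₂]
      [.xing (!o) t₁ t₂ m₀ m₁, .xing o t₀ t₁ b₁ b₂, .xing (!o) m₁ m₂ b₀ b₁] := by
  refine pe_trans (T' := [.arc t₁ f₁, .xing (!o) f₁ t₂ m₀ m₁, .arc b₁ e₂, .xing o t₀ t₁ e₂ b₂,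
    .xing (!o) m₁ m₂ b₀ b₁]) (pe_perm hF ?_) ?_
  · have : ∀ a b c d e : Node, [a, b, c, d, e].Perm [b, c, e, a, d] := by
      intro a b c d e
      refine (List.Perm.swap _ _ _).trans (((List.Perm.swap _ _ _).trans
        (List.Perm.cons _ ?_)).cons _)
      exact (((List.Perm.swap _ _ _)).cons _).trans (List.Perm.swap _ _ _)
    exact this _ _ _ _ _
  exact pe_append hF (phiEq_arcOver hF t₁ (!o) f₁ t₂ m₀ m₁)
    (pe_append hF (phiEq_arcUnder hF b₁ o t₀ t₁ e₂ b₂) (pe_refl _))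

omit hF hq ht hz in
theorem exists_bound (l : List ℕ) : ∃ N, ∀ a ∈ l, a < N := by
  induction l with
  | nil => exact ⟨0, by simp⟩
  | cons b l ih =>
    obtain ⟨N, hN⟩ := ih
    refine ⟨max N (b + 1), fun a ha => ?_⟩
    rcases List.mem_cons.1 ha with rfl | ha
    · omega
    · have := hN a ha
      omega

theorem cyclic (o : Bool) (x y z : ℕ × ℕ × ℕ) :
    PhiEq q t F (triSide true false true (!o) o (!o) x y z)
      (triSide false true false (!o) o (!o) x y z) := by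
  intro S G hc
  obtain ⟨t₀, t₁, t₂⟩ := x
  obtain ⟨m₀, m₁, m₂⟩ := y
  obtain ⟨b₀, b₁, b₂⟩ := z
  obtain ⟨N, hN⟩ := exists_bound (insOf (triSide true false true (!o) o (!o) (t₀, t₁, t₂)
    (m₀, m₁, m₂) (b₀, b₁, b₂) ++ S) ++ insG G)
  have hM₁ : ClosedP ([.xing o t₀ (N + 2) (N + 1) b₂, .xing (!o) (N + 2) (N + 3) N (N + 1),
      .xing (!o) (N + 3) t₁ m₁ m₂, .xing (!o) m₀ m₁ b₁ N, .xing o t₁ t₂ b₀ b₁] ++ S) G := by
    refine closed_of_fresh hc [N, N + 1, N + 2, N + 3] (by simp) ?_ ?_ ?_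
    · intro e he h
      have := hN e h
      simp only [List.mem_cons, List.not_mem_nil, or_false] at he
      omega
    · rw [List.perm_iff_count]
      intro a
      simp only [insOf, triSide, xg, seg, Node.ins, List.cons_append, List.nil_append,
        List.flatMap_cons, List.count_cons, Bool.not_true, Bool.not_false, if_true]
      simp only [Bool.false_eq_true, if_false]
      ring
    · rw [List.perm_iff_count]
      intro a
      simp only [outsOf, triSide, xg, seg, Node.outs, List.cons_append, List.nil_append,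
        List.flatMap_cons, List.count_cons, Bool.not_true, Bool.not_false, if_true]
      simp only [Bool.false_eq_true, if_false]
      ring
  obtain ⟨h1, h2⟩ := chain₁ hF hq ht hz o t₀ t₁ t₂ m₀ m₁ m₂ b₀ b₁ b₂ N (N + 1) (N + 2) (N + 3)
    S G hM₁
  obtain ⟨h3, h4⟩ := chain₂ hF hq ht hz o t₀ t₁ t₂ m₀ m₁ m₂ b₀ b₁ b₂ N (N + 1) (N + 2) (N + 3)
    S G hM₁
  have hnd := hc.1
  simp only [insOf, triSide, xg, seg, Node.ins, List.cons_append, List.nil_append,
    List.flatMap_cons, Bool.not_true, Bool.not_false, if_true] at hnd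
  simp only [Bool.false_eq_true, if_false, List.nodup_cons, List.mem_cons, not_or] at hnd
  have ht₁ : t₁ < N := hN _ (by
    simp [insOf, triSide, xg, seg, Node.ins])
  have hb₁ : b₁ < N := hN _ (by
    simp [insOf, triSide, xg, seg, Node.ins])
  have hM₅ : ClosedP ([.xing o t₀ t₁ (N + 1) b₂, .arc t₁ (N + 2), .xing (!o) (N + 2) t₂ m₀ m₁,
      .xing (!o) m₁ m₂ b₀ b₁, .arc b₁ (N + 1)] ++ S) G := by
    refine closed_of_fresh h3 [t₁, b₁] ?_ ?_ ?_ ?_
    · simp only [List.nodup_cons, List.mem_cons, List.nodup_nil, List.not_mem_nil, or_false,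
        not_false_iff, and_true]
      tauto
    · intro e he h
      simp only [insOf, Node.ins, List.cons_append, List.nil_append, List.flatMap_cons,
        List.mem_cons] at h
      simp only [List.mem_cons, List.not_mem_nil, or_false] at he
      rcases he with rfl | rfl
      · rcases h with h | h | h | h | h | h | h
        · omega
        · tauto
        · exact hnd.1.2.1 h.symm
        · omega
        · exact hnd.2.1.1 h.symm
        · tauto
        · tauto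
      · rcases h with h | h | h | h | h | h | h
        · omega
        · exact hnd.2.2.2.2.1.1 h.symm
        · exact hnd.1.2.2.2.2.1 h.symm
        · omega
        · exact hnd.2.1.2.2.2.1 h.symm
        · exact hnd.2.2.2.1.2.1 h.symm
        · tauto
    · rw [List.perm_iff_count]
      intro a
      simp only [insOf, Node.ins, List.cons_append, List.nil_append,
        List.flatMap_cons, List.count_cons]
      ring
    · rw [List.perm_iff_count]
      intro a
      simp only [outsOf, Node.outs, List.cons_append, List.nil_append,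
        List.flatMap_cons, List.count_cons]
      ring
  obtain ⟨h5, h6⟩ := chain₃ hF o t₀ t₁ t₂ m₀ m₁ m₂ b₀ b₁ b₂ (N + 1) (N + 2) S G hM₅
  obtain ⟨h7, h8⟩ := chain₄ hF o t₀ t₁ t₂ m₀ m₁ m₂ b₀ b₁ b₂ (N + 1) (N + 2) S G hM₅
  exact ⟨h7, ((h2.symm.trans h4).trans h6.symm).trans h8⟩

theorem cyclic' (o : Bool) (x y z : ℕ × ℕ × ℕ) :
    PhiEq q t F (triSide false true false (!o) o (!o) x y z)
      (triSide true false true (!o) o (!o) x y z) := by
  intro S G hc
  have hc' : ClosedP (triSide true false true (!o) o (!o) x y z ++ S) G := by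
    refine closed_of_perm hc ?_ ?_
    · rw [List.perm_iff_count]
      intro a
      simp only [insOf, triSide, xg, seg, Node.ins, List.cons_append, List.nil_append,
        List.flatMap_cons, List.count_cons, Bool.not_true, Bool.not_false, if_true,
        Bool.false_eq_true, if_false]
      ring
    · rw [List.perm_iff_count]
      intro a
      simp only [outsOf, triSide, xg, seg, Node.outs, List.cons_append, List.nil_append,
        List.flatMap_cons, List.count_cons, Bool.not_true, Bool.not_false, if_true,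
        Bool.false_eq_true, if_false]
      ring
  exact ⟨hc', (cyclic hF hq ht hz o x y z S G hc').2.symm⟩

end R3b

theorem phiEq_r3 (hF : IsMOY q t F) (hq : q ≠ 0) (ht : t ≠ 0) (hz : q - q⁻¹ ≠ 0)
    (o p r₁ r₂ : Bool) (x y z : ℕ × ℕ × ℕ) :
    PhiEq q t F (triSide p r₁ r₂ (sg o p r₁) (sg o p r₂) (sg o r₁ r₂) x y z)
      (triSide (!p) (!r₁) (!r₂) (sg o p r₁) (sg o p r₂) (sg o r₁ r₂) x y z) := by
  cases p <;> cases r₁ <;> cases r₂ <;> cases o
  · exact R3b.acyclic_fff hF hq ht hz false x y z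
  · exact R3b.acyclic_fff hF hq ht hz true x y z
  · exact R3b.acyclic_fft hF hq ht hz false x y z
  · exact R3b.acyclic_fft hF hq ht hz true x y z
  · exact R3b.cyclic' hF hq ht hz false x y z
  · exact R3b.cyclic' hF hq ht hz true x y z
  · exact R3b.acyclic_ftt hF hq ht hz false x y z
  · exact R3b.acyclic_ftt hF hq ht hz true x y z
  · exact R3b.acyclic_tff hF hq ht hz false x y z
  · exact R3b.acyclic_tff hF hq ht hz true x y z
  · exact R3b.cyclic hF hq ht hz false x y z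
  · exact R3b.cyclic hF hq ht hz true x y z
  · exact R3b.acyclic_ttf hF hq ht hz false x y z
  · exact R3b.acyclic_ttf hF hq ht hz true x y z
  · exact R3b.acyclic_ttt hF hq ht hz false x y z
  · exact R3b.acyclic_ttt hF hq ht hz true x y z

theorem R3b.phiEq_of_local (hF : IsMOY q t F) (hq : q ≠ 0) (ht : t ≠ 0) (hz : q - q⁻¹ ≠ 0)
    {T T' : List Node} (h : Local T T') : PhiEq q t F T T' := by
  cases h with
  | arcArc i e o => exact phiEq_arcArc hF i e o
  | arcOver i s a b c d => exact phiEq_arcOver hF i s a b c d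
  | arcUnder i s a b c d => exact phiEq_arcUnder hF i s a b c d
  | overArc o s a b c d => exact phiEq_overArc hF o s a b c d
  | underArc o s a b c d => exact phiEq_underArc hF o s a b c d
  | r1Over s i e o => exact phiEq_r1Over hF hq ht hz s i e o
  | r1Under s i e o => exact phiEq_r1Under hF hq ht hz s i e o
  | r2Same s a b e c d f => exact phiEq_r2Same hF hq ht hz s a b e c d f
  | r2Opp s a b e c d f => exact phiEq_r2Opp hF hq ht hz s a b e c d f
  | r3 o p r₁ r₂ x y z => exact phiEq_r3 hF hq ht hz o p r₁ r₂ x y z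
  | virt s a b c d => exact R3b.pe_virt hF s a b c d

theorem Phi_related (hF : IsMOY q t F) (hq : q ≠ 0) (ht : t ≠ 0) (hz : q - q⁻¹ ≠ 0)
    {L L' : List Node} (h : Related L L') : Phi q t F L [] = Phi q t F L' [] := by
  induction h with
  | rel K K' h =>
    obtain ⟨hK, _, hs⟩ := h
    have hc := closedP_of_isDiagram.2 hK
    cases hs with
    | perm h => exact Phi_perm hF hc h (List.Perm.refl _)
    | relabel _ f hf =>
      have := Phi_relabel hF hc f hf
      exact this.symm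
    | move S h => exact (R3b.phiEq_of_local hF hq ht hz h S [] hc).2
  | refl => rfl
  | symm _ _ _ ih => exact ih.symm
  | trans _ _ _ _ _ ih₁ ih₂ => exact ih₁.trans ih₂

end Pool.Agent.Lib.MP_31c440_gt.HV
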