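import Pool.Agent.Lib.MP_31c440_gt.HV.Moy

/-!
The closures of words in the vertices, and the expansion of the state sum of a closed braid.
-/

noncomputable section

namespace Pool.Agent.Lib.MP_31c440_gt.HV

variable {K : Type*} [Field K] {q t : K} {F : List GNode → K}

/-- The letter `none` is the identity, `some i` is a vertex of the strands `i` and `i + 1`. -/
def glayer (n l : ℕ) : Option ℕ → List GNode
  | none => (List.range n).map fun j => .arc (l * n + j) ((l + 1) * n + j)
  | some i => .vert (l * n + i) (l * n + (i + 1)) ((l + 1) * n + i) ((l + 1) * n + (i + 1)) ::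
      ((List.range n).filter fun j => j ≠ i ∧ j ≠ i + 1).map
        fun j => .arc (l * n + j) ((l + 1) * n + j)

def glayers (n : ℕ) : ℕ → List (Option ℕ) → List GNode
  | _, [] => []
  | l, x :: w => glayer n l x ++ glayers n (l + 1) w

/-- The closure of a word in the vertices. -/
def gclosure (n : ℕ) (w : List (Option ℕ)) : List GNode :=
  glayers n 0 w ++ (List.range n).map fun j => .arc (w.length * n + j) j

def GValid (n : ℕ) (w : List (Option ℕ)) : Prop := ∀ i, some i ∈ w → i + 1 < n

namespace S7a

theorem perm_pair {n i : ℕ} (h : i + 1 < n) :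
    (i :: (i + 1) :: (List.range n).filter fun j => j ≠ i ∧ j ≠ i + 1).Perm (List.range n) := by
  refine (List.perm_ext_iff_of_nodup ?_ List.nodup_range).2 ?_
  · refine List.nodup_cons.2 ⟨by simp, List.nodup_cons.2 ⟨by simp, ?_⟩⟩
    exact List.nodup_range.filter _
  · intro a
    simp only [List.mem_cons, List.mem_filter, List.mem_range, decide_eq_true_eq]
    omega

theorem insG_arcs (f g : ℕ → ℕ) (L : List ℕ) :
    insG (L.map fun j => GNode.arc (f j) (g j)) = L.map f := by
  induction L with
  | nil => rfl
  | cons a L ih =>
    simp only [insG, List.map_cons, List.flatMap_cons] at ih ⊢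
    rw [ih]
    rfl

theorem outsG_arcs (f g : ℕ → ℕ) (L : List ℕ) :
    outsG (L.map fun j => GNode.arc (f j) (g j)) = L.map g := by
  induction L with
  | nil => rfl
  | cons a L ih =>
    simp only [outsG, List.map_cons, List.flatMap_cons] at ih ⊢
    rw [ih]
    rfl

theorem insOf_arcs (f g : ℕ → ℕ) (L : List ℕ) :
    insOf (L.map fun j => Node.arc (f j) (g j)) = L.map f := by
  induction L with
  | nil => rfl
  | cons a L ih =>
    simp only [insOf, List.map_cons, List.flatMap_cons] at ih ⊢
    rw [ih]
    rfl

theorem outsOf_arcs (f g : ℕ → ℕ) (L : List ℕ) :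
    outsOf (L.map fun j => Node.arc (f j) (g j)) = L.map g := by
  induction L with
  | nil => rfl
  | cons a L ih =>
    simp only [outsOf, List.map_cons, List.flatMap_cons] at ih ⊢
    rw [ih]
    rfl

theorem insG_append (G G' : List GNode) : insG (G ++ G') = insG G ++ insG G' :=
  List.flatMap_append ..

theorem outsG_append (G G' : List GNode) : outsG (G ++ G') = outsG G ++ outsG G' :=
  List.flatMap_append ..

theorem insOf_append (G G' : List Node) : insOf (G ++ G') = insOf G ++ insOf G' :=
  List.flatMap_append ..

theorem outsOf_append (G G' : List Node) : outsOf (G ++ G') = outsOf G ++ outsOf G' :=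
  List.flatMap_append ..

theorem map_perm_pair {n i s : ℕ} (h : i + 1 < n) :
    ((s + i) :: (s + (i + 1)) ::
      ((List.range n).filter fun j => j ≠ i ∧ j ≠ i + 1).map fun j => s + j).Perm
      (List.range' s n) := by
  rw [List.range'_eq_map_range]
  exact (perm_pair h).map (fun j => s + j)

theorem insG_glayer {n l : ℕ} {x : Option ℕ} (h : ∀ i, x = some i → i + 1 < n) :
    (insG (glayer n l x)).Perm (List.range' (l * n) n) := by
  rcases x with _ | i
  · rw [glayer, insG_arcs, List.range'_eq_map_range]
  · have h2 := insG_arcs (fun j => l * n + j) (fun j => (l + 1) * n + j)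
      ((List.range n).filter fun j => j ≠ i ∧ j ≠ i + 1)
    rw [glayer]
    have h3 : insG (GNode.vert (l * n + i) (l * n + (i + 1)) ((l + 1) * n + i)
        ((l + 1) * n + (i + 1)) :: ((List.range n).filter fun j => j ≠ i ∧ j ≠ i + 1).map
        fun j => GNode.arc (l * n + j) ((l + 1) * n + j)) =
        (l * n + i) :: (l * n + (i + 1)) :: insG (((List.range n).filter
          fun j => j ≠ i ∧ j ≠ i + 1).map fun j => GNode.arc (l * n + j) ((l + 1) * n + j)) := rfl
    rw [h3, h2]
    exact map_perm_pair (h i rfl)

theorem outsG_glayer {n l : ℕ} {x : Option ℕ} (h : ∀ i, x = some i → i + 1 < n) :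
    (outsG (glayer n l x)).Perm (List.range' ((l + 1) * n) n) := by
  rcases x with _ | i
  · rw [glayer, outsG_arcs, List.range'_eq_map_range]
  · have h2 := outsG_arcs (fun j => l * n + j) (fun j => (l + 1) * n + j)
      ((List.range n).filter fun j => j ≠ i ∧ j ≠ i + 1)
    rw [glayer]
    have h3 : outsG (GNode.vert (l * n + i) (l * n + (i + 1)) ((l + 1) * n + i)
        ((l + 1) * n + (i + 1)) :: ((List.range n).filter fun j => j ≠ i ∧ j ≠ i + 1).map
        fun j => GNode.arc (l * n + j) ((l + 1) * n + j)) =
        ((l + 1) * n + i) :: ((l + 1) * n + (i + 1)) :: outsG (((List.range n).filter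
          fun j => j ≠ i ∧ j ≠ i + 1).map fun j => GNode.arc (l * n + j) ((l + 1) * n + j)) := rfl
    rw [h3, h2]
    exact map_perm_pair (h i rfl)

theorem insG_glayers {n : ℕ} (w : List (Option ℕ)) (h : GValid n w) (l : ℕ) :
    (insG (glayers n l w)).Perm (List.range' (l * n) (w.length * n)) := by
  induction w generalizing l with
  | nil => simp [glayers, insG]
  | cons x w ih =>
    have h1 : ∀ i, x = some i → i + 1 < n := fun i hi => h i (by simp [hi])
    have h2 : GValid n w := fun i hi => h i (by simp [hi])
    rw [glayers, insG_append, List.length_cons,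
      show (w.length + 1) * n = n + w.length * n by ring, ← List.range'_append_1,
      show l * n + n = (l + 1) * n by ring]
    exact (insG_glayer h1).append (ih h2 (l + 1))

theorem outsG_glayers {n : ℕ} (w : List (Option ℕ)) (h : GValid n w) (l : ℕ) :
    (outsG (glayers n l w)).Perm (List.range' ((l + 1) * n) (w.length * n)) := by
  induction w generalizing l with
  | nil => simp [glayers, outsG]
  | cons x w ih =>
    have h1 : ∀ i, x = some i → i + 1 < n := fun i hi => h i (by simp [hi])
    have h2 : GValid n w := fun i hi => h i (by simp [hi])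
    rw [glayers, outsG_append, List.length_cons,
      show (w.length + 1) * n = n + w.length * n by ring, ← List.range'_append_1,
      show (l + 1) * n + n = (l + 1 + 1) * n by ring]
    exact (outsG_glayer h1).append (ih h2 (l + 1))

theorem closed_of_perm_range {A B : List ℕ} {m n : ℕ}
    (hA : A.Perm (List.range' 0 m ++ List.range' m n))
    (hB : B.Perm (List.range' n m ++ List.range' 0 n)) : A.Nodup ∧ A.Perm B := by
  have h1 : List.range' 0 m ++ List.range' m n = List.range' 0 (m + n) := by
    have := @List.range'_append_1 0 m n
    rwa [Nat.zero_add] at this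
  have h2 : List.range' 0 n ++ List.range' n m = List.range' 0 (n + m) := by
    have := @List.range'_append_1 0 n m
    rwa [Nat.zero_add] at this
  refine ⟨?_, ?_⟩
  · rw [hA.nodup_iff, h1]
    exact List.nodup_range'
  · refine hA.trans ?_
    rw [h1]
    refine List.Perm.trans ?_ (hB.trans List.perm_append_comm).symm
    rw [h2, Nat.add_comm]

end S7a

theorem gclosure_closed (n : ℕ) (w : List (Option ℕ)) (h : GValid n w) :
    Closed (gclosure n w) := by
  refine S7a.closed_of_perm_range (m := w.length * n) (n := n) ?_ ?_
  · rw [gclosure, S7a.insG_append, S7a.insG_arcs (fun j => w.length * n + j) (fun j => j)]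
    have h1 := S7a.insG_glayers w h 0
    rw [Nat.zero_mul] at h1
    refine h1.append ?_
    rw [List.range'_eq_map_range]
  · rw [gclosure, S7a.outsG_append, S7a.outsG_arcs (fun j => w.length * n + j) (fun j => j)]
    have h1 := S7a.outsG_glayers w h 0
    rw [Nat.zero_add, Nat.one_mul] at h1
    refine h1.append ?_
    rw [List.range_eq_range', List.map_id']

namespace S7a

theorem insOf_layer {n l : ℕ} {x : ℕ × Bool} (h : x.1 + 1 < n) :
    (insOf (layer n l x)).Perm (List.range' (l * n) n) := by
  obtain ⟨i, s⟩ := x
  have h2 := insOf_arcs (fun j => l * n + j) (fun j => (l + 1) * n + j)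
      ((List.range n).filter fun j => j ≠ i ∧ j ≠ i + 1)
  have h4 := map_perm_pair (s := l * n) h
  rw [← h2] at h4
  rcases s with _ | _
  · exact (List.Perm.swap _ _ _).trans h4
  · exact h4

theorem outsOf_layer {n l : ℕ} {x : ℕ × Bool} (h : x.1 + 1 < n) :
    (outsOf (layer n l x)).Perm (List.range' ((l + 1) * n) n) := by
  obtain ⟨i, s⟩ := x
  have h2 := outsOf_arcs (fun j => l * n + j) (fun j => (l + 1) * n + j)
      ((List.range n).filter fun j => j ≠ i ∧ j ≠ i + 1)
  have h4 := map_perm_pair (s := (l + 1) * n) h
  rw [← h2] at h4
  rcases s with _ | _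
  · exact h4
  · exact (List.Perm.swap _ _ _).trans h4

theorem insOf_layers {n : ℕ} (w : BraidWord) (h : ValidWord n w) (l : ℕ) :
    (insOf (layers n l w)).Perm (List.range' (l * n) (w.length * n)) := by
  induction w generalizing l with
  | nil => simp [layers, insOf]
  | cons x w ih =>
    have h1 : x.1 + 1 < n := h x (by simp)
    have h2 : ValidWord n w := fun i hi => h i (by simp [hi])
    rw [layers, insOf_append, List.length_cons,
      show (w.length + 1) * n = n + w.length * n by ring, ← List.range'_append_1,
      show l * n + n = (l + 1) * n by ring]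
    exact (insOf_layer h1).append (ih h2 (l + 1))

theorem outsOf_layers {n : ℕ} (w : BraidWord) (h : ValidWord n w) (l : ℕ) :
    (outsOf (layers n l w)).Perm (List.range' ((l + 1) * n) (w.length * n)) := by
  induction w generalizing l with
  | nil => simp [layers, outsOf]
  | cons x w ih =>
    have h1 : x.1 + 1 < n := h x (by simp)
    have h2 : ValidWord n w := fun i hi => h i (by simp [hi])
    rw [layers, outsOf_append, List.length_cons,
      show (w.length + 1) * n = n + w.length * n by ring, ← List.range'_append_1,
      show (l + 1) * n + n = (l + 1 + 1) * n by ring]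
    exact (outsOf_layer h1).append (ih h2 (l + 1))

end S7a

theorem closure_isDiagram (n : ℕ) (w : BraidWord) (h : ValidWord n w) :
    IsDiagram (closure n w) := by
  refine S7a.closed_of_perm_range (m := w.length * n) (n := n) ?_ ?_
  · rw [closure, S7a.insOf_append, S7a.insOf_arcs (fun j => w.length * n + j) (fun j => j)]
    have h1 := S7a.insOf_layers w h 0
    rw [Nat.zero_mul] at h1
    refine h1.append ?_
    rw [List.range'_eq_map_range]
  · rw [closure, S7a.outsOf_append, S7a.outsOf_arcs (fun j => w.length * n + j) (fun j => j)]
    have h1 := S7a.outsOf_layers w h 0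
    rw [Nat.zero_add, Nat.one_mul] at h1
    refine h1.append ?_
    rw [List.range_eq_range', List.map_id']

/-- The expansion of a braid word. -/
def PhiW (q t : K) (T : List (Option ℕ) → K) : BraidWord → List (Option ℕ) → K
  | [], W => T W
  | (i, s) :: w, W => (if s then t⁻¹ else t) *
      ((if s then q else q⁻¹) * PhiW q t T w (W ++ [none]) - PhiW q t T w (W ++ [some i]))

namespace S7a

theorem closed_perm {G G' : List GNode} (h : Closed G) (hp : G.Perm G') : Closed G' := by
  have h1 : (insG G).Perm (insG G') := hp.flatMap_right _
  have h2 : (outsG G).Perm (outsG G') := hp.flatMap_right _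
  exact ⟨h1.nodup_iff.1 h.1, h1.symm.trans (h.2.trans h2)⟩

theorem closed_swapOut {a b c d : ℕ} {S : List GNode} (h : Closed (.vert a b c d :: S)) :
    Closed (.vert a b d c :: S) := by
  refine ⟨h.1, h.2.trans ?_⟩
  exact List.Perm.swap _ _ _

theorem closed_swapIn {a b c d : ℕ} {S : List GNode} (h : Closed (.vert a b c d :: S)) :
    Closed (.vert b a c d :: S) := by
  have h1 : (insG (.vert a b c d :: S)).Perm (insG (.vert b a c d :: S)) := List.Perm.swap _ _ _
  exact ⟨h1.nodup_iff.1 h.1, h1.symm.trans h.2⟩

theorem glayers_append (n : ℕ) (W : List (Option ℕ)) (x : Option ℕ) (l : ℕ) :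
    glayers n l (W ++ [x]) = glayers n l W ++ glayer n (l + W.length) x := by
  induction W generalizing l with
  | nil => simp [glayers]
  | cons y W ih =>
    rw [List.cons_append, glayers, glayers, ih, List.append_assoc, List.length_cons,
      show l + 1 + W.length = l + (W.length + 1) by ring]

theorem Phi_arcs (f g : ℕ → ℕ) (J : List ℕ) (L : List Node) (G : List GNode) :
    Phi q t F ((J.map fun j => Node.arc (f j) (g j)) ++ L) G =
      Phi q t F L ((J.map fun j => GNode.arc (f j) (g j)).reverse ++ G) := by
  induction J generalizing G with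
  | nil => rfl
  | cons a J ih =>
    rw [List.map_cons, List.cons_append, Phi, ih, List.map_cons, List.reverse_cons,
      List.append_assoc]
    rfl

/-- The graph `G` can be replaced by the layers of `W`. -/
def HG (F : List GNode → K) (n : ℕ) (W : List (Option ℕ)) (G : List GNode) : Prop :=
  ∀ S, Closed (glayers n 0 W ++ S) → F (S ++ G) = F (glayers n 0 W ++ S)

/-- The marked points of a layer which is not the identity. -/
def mid (n l i : ℕ) : List GNode := ((List.range n).filter fun j => j ≠ i ∧ j ≠ i + 1).map
  fun j => GNode.arc (l * n + j) ((l + 1) * n + j)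

theorem perm_none {n l i : ℕ} (h : i + 1 < n) :
    (GNode.arc (l * n + i) ((l + 1) * n + i) ::
      GNode.arc (l * n + (i + 1)) ((l + 1) * n + (i + 1)) :: mid n l i).Perm
      (glayer n l none) :=
  (perm_pair h).map fun j => GNode.arc (l * n + j) ((l + 1) * n + j)

theorem HG_none (hF : IsMOY q t F) {n i : ℕ} (h : i + 1 < n) {W : List (Option ℕ)}
    {G : List GNode} (hG : HG F n W G) {x y : GNode}
    (hxy : [x, y].Perm [GNode.arc (W.length * n + i) ((W.length + 1) * n + i),
      GNode.arc (W.length * n + (i + 1)) ((W.length + 1) * n + (i + 1))]) :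
    HG F n (W ++ [none]) ((mid n W.length i).reverse ++ x :: y :: G) := by
  intro S hS
  rw [glayers_append, Nat.zero_add] at hS ⊢
  have hp : ((mid n W.length i).reverse ++ [x, y]).Perm (glayer n W.length none) := by
    refine ((List.reverse_perm _).append_right _).trans ?_
    refine List.perm_append_comm.trans ?_
    refine (hxy.append_right _).trans ?_
    exact perm_none h
  have hq : (glayers n 0 W ++ (S ++ ((mid n W.length i).reverse ++ [x, y]))).Perm
      (glayers n 0 W ++ glayer n W.length none ++ S) := by
    rw [List.append_assoc]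
    refine List.Perm.append_left _ ?_
    exact List.perm_append_comm.trans (hp.append_right _)
  have hC := closed_perm hS hq.symm
  have h1 := hG _ hC
  have h2 : S ++ ((mid n W.length i).reverse ++ x :: y :: G) =
      S ++ ((mid n W.length i).reverse ++ [x, y]) ++ G := by
    simp
  rw [h2, h1]
  exact hF.perm _ _ hC hq

theorem HG_some (hF : IsMOY q t F) {n i : ℕ} {W : List (Option ℕ)}
    {G : List GNode} (hG : HG F n W G) {x : GNode}
    (hx : ∀ S, Closed (GNode.vert (W.length * n + i) (W.length * n + (i + 1))
        ((W.length + 1) * n + i) ((W.length + 1) * n + (i + 1)) :: S) →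
      Closed (x :: S) ∧ F (x :: S) = F (GNode.vert (W.length * n + i) (W.length * n + (i + 1))
        ((W.length + 1) * n + i) ((W.length + 1) * n + (i + 1)) :: S)) :
    HG F n (W ++ [some i]) ((mid n W.length i).reverse ++ x :: G) := by
  intro S hS
  rw [glayers_append, Nat.zero_add] at hS ⊢
  set v := GNode.vert (W.length * n + i) (W.length * n + (i + 1))
        ((W.length + 1) * n + i) ((W.length + 1) * n + (i + 1)) with hv
  have hg : glayer n W.length (some i) = v :: mid n W.length i := rfl
  rw [hg] at hS ⊢
  set M := mid n W.length i with hM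
  have hp1 : (glayers n 0 W ++ (v :: M) ++ S).Perm (v :: (glayers n 0 W ++ M ++ S)) := by
    rw [List.append_assoc, List.append_assoc]
    exact List.perm_middle
  have hC1 := closed_perm hS hp1
  obtain ⟨hC2, h2⟩ := hx _ hC1
  have hp3 : (x :: (glayers n 0 W ++ M ++ S)).Perm
      (glayers n 0 W ++ (S ++ (M.reverse ++ [x]))) := by
    have e1 : (x :: (glayers n 0 W ++ M ++ S)).Perm (glayers n 0 W ++ (x :: (M ++ S))) := by
      rw [List.append_assoc]
      exact List.perm_middle.symm
    refine e1.trans (List.Perm.append_left _ ?_)
    have e2 : (S ++ (M.reverse ++ [x])).Perm (M.reverse ++ [x] ++ S) := List.perm_append_comm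
    refine List.Perm.trans ?_ e2.symm
    have e3 : (M.reverse ++ [x]).Perm (x :: M) :=
      List.perm_append_comm.trans ((List.reverse_perm M).cons x)
    exact (e3.append_right S).symm
  have hC := closed_perm hC2 hp3
  have h1 := hG _ hC
  have h4 : S ++ (M.reverse ++ x :: G) = S ++ (M.reverse ++ [x]) ++ G := by
    simp
  rw [h4, h1, hF.perm _ _ hS hp1, ← h2]
  exact (hF.perm _ _ hC2 hp3).symm

theorem gvalid_append {n : ℕ} {W : List (Option ℕ)} (h : GValid n W) (x : Option ℕ)
    (hx : ∀ i, x = some i → i + 1 < n) : GValid n (W ++ [x]) := by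
  intro i hi
  rw [List.mem_append, List.mem_singleton] at hi
  rcases hi with hi | hi
  · exact h i hi
  · exact hx i hi.symm

theorem Phi_layers (hF : IsMOY q t F) (n : ℕ) (w : BraidWord) (hw : ValidWord n w)
    (W : List (Option ℕ)) (hW : GValid n W) (G : List GNode) (hG : HG F n W G) :
    Phi q t F (layers n W.length w ++
      (List.range n).map fun j => Node.arc ((W.length + w.length) * n + j) j) G =
      PhiW q t (fun W => F (gclosure n W)) w W := by
  induction w generalizing W G with
  | nil =>
    have h1 := Phi_arcs (q := q) (t := t) (F := F) (fun j => W.length * n + j) (fun j => j)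
      (List.range n) [] G
    rw [List.append_nil] at h1
    rw [layers, List.nil_append, List.length_nil, Nat.add_zero, h1, PhiW, Phi]
    have hp : (glayers n 0 W ++ ((List.range n).map fun j =>
        GNode.arc (W.length * n + j) j).reverse).Perm (gclosure n W) :=
      List.Perm.append_left _ (List.reverse_perm _)
    have hC := closed_perm (gclosure_closed n W hW) hp.symm
    rw [hG _ hC]
    exact hF.perm _ _ hC hp
  | cons x w ih =>
    obtain ⟨i, s⟩ := x
    have hi : i + 1 < n := hw (i, s) (by simp)
    have hw' : ValidWord n w := fun y hy => hw y (by simp [hy])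
    have key : ∀ (x : Option ℕ) (G' : List GNode), (∀ i, x = some i → i + 1 < n) →
        HG F n (W ++ [x]) ((mid n W.length i).reverse ++ G') →
        Phi q t F ((((List.range n).filter fun j => j ≠ i ∧ j ≠ i + 1).map
          fun j => Node.arc (W.length * n + j) ((W.length + 1) * n + j)) ++
          (layers n (W.length + 1) w ++ (List.range n).map
            fun j => Node.arc ((W.length + (w.length + 1)) * n + j) j)) G' =
        PhiW q t (fun W => F (gclosure n W)) w (W ++ [x]) := by
      intro x G' hx hG'
      rw [Phi_arcs (fun j => W.length * n + j) (fun j => (W.length + 1) * n + j)]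
      have h1 := ih hw' (W ++ [x]) (gvalid_append hW x hx) _ hG'
      rw [List.length_append, List.length_singleton,
        show W.length + 1 + w.length = W.length + (w.length + 1) by ring] at h1
      exact h1
    rw [layers, List.length_cons, List.append_assoc]
    rcases s with _ | _
    · have e1 : layer n W.length (i, false) = Node.xing false (W.length * n + (i + 1))
        ((W.length + 1) * n + i) (W.length * n + i) ((W.length + 1) * n + (i + 1)) ::
        ((List.range n).filter fun j => j ≠ i ∧ j ≠ i + 1).map
          fun j => Node.arc (W.length * n + j) ((W.length + 1) * n + j) := rfl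
      rw [e1, List.cons_append, Phi, PhiW]
      rw [key none _ (by simp) (HG_none hF hi hG (List.Perm.swap _ _ _)),
        key (some i) _ (by simpa using hi) (HG_some hF hG ?_)]
      intro S hS
      have h1 := closed_swapIn hS
      exact ⟨h1, (hF.swapIn _ _ _ _ _ hS).symm⟩
    · have e1 : layer n W.length (i, true) = Node.xing true (W.length * n + i)
        ((W.length + 1) * n + (i + 1)) (W.length * n + (i + 1)) ((W.length + 1) * n + i) ::
        ((List.range n).filter fun j => j ≠ i ∧ j ≠ i + 1).map
          fun j => Node.arc (W.length * n + j) ((W.length + 1) * n + j) := rfl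
      rw [e1, List.cons_append, Phi, PhiW]
      rw [key none _ (by simp) (HG_none hF hi hG (List.Perm.refl _)),
        key (some i) _ (by simpa using hi) (HG_some hF hG ?_)]
      intro S hS
      have h1 := closed_swapOut hS
      exact ⟨h1, (hF.swapOut _ _ _ _ _ hS).symm⟩

end S7a

theorem Phi_closure (hF : IsMOY q t F) (n : ℕ) (w : BraidWord) (h : ValidWord n w) :
    Phi q t F (closure n w) [] = PhiW q t (fun W => F (gclosure n W)) w [] := by
  have h1 := S7a.Phi_layers hF n w h [] (by intro i hi; simp at hi) [] (by
    intro S _
    simp [glayers])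
  rw [List.length_nil, Nat.zero_add] at h1
  exact h1

end Pool.Agent.Lib.MP_31c440_gt.HV
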