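import Pool.Agent.Lib.MP_31c440_gt.HV.S3_Pull
import Pool.Agent.Lib.MP_31c440_gt.HV.S7a_Layers

/-!
Relations of closed words in the vertices: identity layers, conjugation, far commutation, the
digon relation and the relation of three vertices.
-/

noncomputable section

namespace Pool.Agent.Lib.MP_31c440_gt.HV

variable {K : Type*} [Field K] {q t : K} {F : List GNode → K}

namespace Words

theorem closed_iff {G : List GNode} :
    Closed G ↔ ∀ v, (insG G).count v ≤ 1 ∧ (insG G).count v = (outsG G).count v := by
  rw [Closed, List.nodup_iff_count_le_one, List.perm_iff_count]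
  exact ⟨fun h v => ⟨h.1 v, h.2 v⟩, fun h => ⟨fun v => (h v).1, fun v => (h v).2⟩⟩

theorem insG_cons (x : GNode) (G : List GNode) : insG (x :: G) = x.ins ++ insG G := rfl

theorem outsG_cons (x : GNode) (G : List GNode) : outsG (x :: G) = x.outs ++ outsG G := rfl

theorem insG_append (G H : List GNode) : insG (G ++ H) = insG G ++ insG H := by
  simp [insG]

theorem outsG_append (G H : List GNode) : outsG (G ++ H) = outsG G ++ outsG H := by
  simp [outsG]

theorem closed_perm {G H : List GNode} (h : Closed G) (hp : G.Perm H) : Closed H :=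
  ⟨(hp.flatMap_right GNode.ins).nodup_iff.1 h.1,
    ((hp.flatMap_right GNode.ins).symm.trans h.2).trans (hp.flatMap_right GNode.outs)⟩

/-- The piece `P` can be replaced by the piece `P'`. -/
def GEq (F : List GNode → K) (P P' : List GNode) : Prop :=
  ∀ S, Closed (P ++ S) → Closed (P' ++ S) ∧ F (P ++ S) = F (P' ++ S)

omit [Field K] in
theorem GEq.refl (P : List GNode) : GEq F P P := fun _ h => ⟨h, rfl⟩

omit [Field K] in
theorem GEq.trans {P Q R : List GNode} (h : GEq F P Q) (h' : GEq F Q R) : GEq F P R := by
  intro S hS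
  obtain ⟨h1, h2⟩ := h S hS
  obtain ⟨h3, h4⟩ := h' S h1
  exact ⟨h3, h2.trans h4⟩

theorem GEq.perm (hF : IsMOY q t F) {P Q : List GNode} (h : P.Perm Q) : GEq F P Q := by
  intro S hS
  exact ⟨closed_perm hS (h.append_right S), hF.perm _ _ hS (h.append_right S)⟩

omit [Field K] in
theorem GEq.app {P Q : List GNode} (h : GEq F P Q) (R : List GNode) :
    GEq F (P ++ R) (Q ++ R) := by
  intro S hS
  rw [List.append_assoc] at hS ⊢
  rw [List.append_assoc]
  exact h _ hS

theorem GEq.left (hF : IsMOY q t F) {P Q : List GNode} (h : GEq F P Q) (R : List GNode) :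
    GEq F (R ++ P) (R ++ Q) :=
  ((GEq.perm hF List.perm_append_comm).trans (h.app R)).trans (GEq.perm hF List.perm_append_comm)

theorem GEq.mul (hF : IsMOY q t F) {P Q P' Q' : List GNode} (h : GEq F P Q) (h' : GEq F P' Q') :
    GEq F (P ++ P') (Q ++ Q') :=
  (h.app P').trans (h'.left hF Q)

theorem gArcArc (hF : IsMOY q t F) (i e o : ℕ) : GEq F [.arc i e, .arc e o] [.arc i o] := by
  intro S hS
  refine ⟨?_, hF.arcArc _ _ _ _ hS⟩
  rw [closed_iff] at hS ⊢
  intro v
  have := hS v
  simp only [List.cons_append, List.nil_append, insG_cons, outsG_cons, GNode.ins, GNode.outs,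
    List.count_cons] at this ⊢
  omega

theorem gArcVert (hF : IsMOY q t F) (i a b c d : ℕ) :
    GEq F [.arc i a, .vert a b c d] [.vert i b c d] := by
  intro S hS
  refine ⟨?_, hF.arcVert _ _ _ _ _ _ hS⟩
  rw [closed_iff] at hS ⊢
  intro v
  have := hS v
  simp only [List.cons_append, List.nil_append, insG_cons, outsG_cons, GNode.ins, GNode.outs,
    List.count_cons] at this ⊢
  omega

theorem gVertArc (hF : IsMOY q t F) (a b c d o : ℕ) :
    GEq F [.vert a b c d, .arc c o] [.vert a b o d] := by
  intro S hS
  refine ⟨?_, hF.vertArc _ _ _ _ _ _ hS⟩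
  rw [closed_iff] at hS ⊢
  intro v
  have := hS v
  simp only [List.cons_append, List.nil_append, insG_cons, outsG_cons, GNode.ins, GNode.outs,
    List.count_cons] at this ⊢
  omega

theorem gSwapIn (hF : IsMOY q t F) (a b c d : ℕ) : GEq F [.vert a b c d] [.vert b a c d] := by
  intro S hS
  refine ⟨?_, hF.swapIn _ _ _ _ _ hS⟩
  rw [closed_iff] at hS ⊢
  intro v
  have := hS v
  simp only [List.cons_append, List.nil_append, insG_cons, outsG_cons, GNode.ins, GNode.outs,
    List.count_cons] at this ⊢
  omega

theorem gSwapOut (hF : IsMOY q t F) (a b c d : ℕ) : GEq F [.vert a b c d] [.vert a b d c] := by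
  intro S hS
  refine ⟨?_, hF.swapOut _ _ _ _ _ hS⟩
  rw [closed_iff] at hS ⊢
  intro v
  have := hS v
  simp only [List.cons_append, List.nil_append, insG_cons, outsG_cons, GNode.ins, GNode.outs,
    List.count_cons] at this ⊢
  omega

theorem gArcVert' (hF : IsMOY q t F) (i a b c d : ℕ) :
    GEq F [.arc i b, .vert a b c d] [.vert a i c d] :=
  (((gSwapIn hF a b c d).left hF [.arc i b]).trans (gArcVert hF i b a c d)).trans
    (gSwapIn hF i a c d)

theorem gVertArc' (hF : IsMOY q t F) (a b c d o : ℕ) :
    GEq F [.vert a b c d, .arc d o] [.vert a b c o] :=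
  (((gSwapOut hF a b c d).app [.arc d o]).trans (gVertArc hF a b d c o)).trans
    (gSwapOut hF a b o c)

/-- Arcs between two levels. -/
def arcs (L : List ℕ) (x y : ℕ → ℕ) : List GNode := L.map fun k => .arc (x k) (y k)

theorem arcs_cons (k : ℕ) (L : List ℕ) (x y : ℕ → ℕ) :
    arcs (k :: L) x y = .arc (x k) (y k) :: arcs L x y := rfl

theorem arcs_perm {L L' : List ℕ} (h : L.Perm L') (x y : ℕ → ℕ) :
    (arcs L x y).Perm (arcs L' x y) := h.map _

theorem gArcs (hF : IsMOY q t F) (L : List ℕ) (x y z : ℕ → ℕ) :
    GEq F (arcs L x y ++ arcs L y z) (arcs L x z) := by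
  induction L with
  | nil => exact GEq.refl _
  | cons k L ih =>
    refine GEq.trans (Q := [.arc (x k) (y k), .arc (y k) (z k)] ++ (arcs L x y ++ arcs L y z))
      (GEq.perm hF ?_) (GEq.mul hF (gArcArc hF _ _ _) ih)
    simp only [arcs_cons, List.cons_append, List.nil_append]
    exact (List.perm_middle).cons _

/-- A layer between two levels. -/
def lay (n : ℕ) (x y : ℕ → ℕ) : Option ℕ → List GNode
  | none => arcs (List.range n) x y
  | some i => .vert (x i) (x (i + 1)) (y i) (y (i + 1)) ::
      arcs ((List.range n).filter fun j => j ≠ i ∧ j ≠ i + 1) x y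

theorem perm_of_mem {L L' : List ℕ} (h : L.Nodup) (h' : L'.Nodup) (hm : ∀ a, a ∈ L ↔ a ∈ L') :
    L.Perm L' := (List.perm_ext_iff_of_nodup h h').2 hm

theorem range_perm {n i : ℕ} (h : i + 1 < n) :
    (List.range n).Perm (i :: (i + 1) :: (List.range n).filter fun j => j ≠ i ∧ j ≠ i + 1) := by
  refine perm_of_mem List.nodup_range ?_ ?_
  · simp [List.nodup_range.filter]
  · intro a
    simp only [List.mem_range, List.mem_cons, List.mem_filter, decide_eq_true_eq]
    omega

theorem lay_none_left (hF : IsMOY q t F) (n : ℕ) (x y z : ℕ → ℕ) (a : Option ℕ)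
    (ha : ∀ i, a = some i → i + 1 < n) :
    GEq F (lay n x y none ++ lay n y z a) (lay n x z a) := by
  rcases a with _ | i
  · exact gArcs hF _ _ _ _
  · have hi := ha i rfl
    set L := (List.range n).filter fun j => j ≠ i ∧ j ≠ i + 1 with hL
    have h1 : (lay n x y none ++ lay n y z (some i)).Perm
        ([.arc (x (i + 1)) (y (i + 1))] ++ [.arc (x i) (y i),
          .vert (y i) (y (i + 1)) (z i) (z (i + 1))] ++ (arcs L x y ++ arcs L y z)) := by
      have h2 := arcs_perm (range_perm hi) x y
      rw [← hL] at h2
      simp only [lay, ← hL]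
      refine (h2.append_right _).trans ?_
      simp only [arcs_cons, List.cons_append, List.nil_append]
      refine (List.Perm.swap _ _ _).trans ?_
      exact ((List.perm_middle).cons _).cons _
    refine (GEq.perm hF h1).trans ?_
    refine GEq.mul hF (Q := [.vert (x i) (x (i + 1)) (z i) (z (i + 1))]) ?_ (gArcs hF L x y z)
    exact ((gArcVert hF _ _ _ _ _).left hF _).trans (gArcVert' hF _ _ _ _ _)

theorem lay_none_right (hF : IsMOY q t F) (n : ℕ) (x y z : ℕ → ℕ) (a : Option ℕ)
    (ha : ∀ i, a = some i → i + 1 < n) :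
    GEq F (lay n x y a ++ lay n y z none) (lay n x z a) := by
  rcases a with _ | i
  · exact gArcs hF _ _ _ _
  · have hi := ha i rfl
    set L := (List.range n).filter fun j => j ≠ i ∧ j ≠ i + 1 with hL
    have h1 : (lay n x y (some i) ++ lay n y z none).Perm
        ([.vert (x i) (x (i + 1)) (y i) (y (i + 1)), .arc (y i) (z i)] ++
          [.arc (y (i + 1)) (z (i + 1))] ++ (arcs L x y ++ arcs L y z)) := by
      have h2 := arcs_perm (range_perm hi) y z
      rw [← hL] at h2
      simp only [lay, ← hL]
      refine (h2.append_left _).trans ?_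
      simp only [arcs_cons, List.cons_append, List.nil_append]
      refine List.Perm.cons _ ?_
      refine (List.perm_middle).trans ?_
      exact (List.perm_middle).cons _
    refine (GEq.perm hF h1).trans ?_
    refine GEq.mul hF (Q := [.vert (x i) (x (i + 1)) (z i) (z (i + 1))]) ?_ (gArcs hF L x y z)
    exact ((gVertArc hF _ _ _ _ _).app _).trans (gVertArc' hF _ _ _ _ _)


/-- Far vertices. -/
theorem lay_far_aux (hF : IsMOY q t F) (n : ℕ) (x y z : ℕ → ℕ) (i j : ℕ)
    (hij : i + 2 ≤ j ∨ j + 2 ≤ i) (hi : i + 1 < n) (hj : j + 1 < n) :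
    GEq F (lay n x y (some i) ++ lay n y z (some j))
      ([.vert (x i) (x (i + 1)) (z i) (z (i + 1))] ++ [.vert (x j) (x (j + 1)) (z j) (z (j + 1))] ++
        arcs ((List.range n).filter fun k => k ∉ [i, i + 1, j, j + 1]) x z) := by
  set L := (List.range n).filter fun k => k ∉ [i, i + 1, j, j + 1] with hL
  have hLn : L.Nodup := List.nodup_range.filter _
  have hLm : ∀ k, k ∈ L ↔ k < n ∧ k ∉ [i, i + 1, j, j + 1] := by
    intro k
    simp [hL]
  have h1 : ((List.range n).filter fun k => k ≠ i ∧ k ≠ i + 1).Perm (j :: (j + 1) :: L) := by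
    refine perm_of_mem (List.nodup_range.filter _) ?_ ?_
    · refine List.nodup_cons.2 ⟨?_, List.nodup_cons.2 ⟨?_, hLn⟩⟩ <;>
        simp [hLm]
    · intro a
      simp only [List.mem_filter, List.mem_range, List.mem_cons, decide_eq_true_eq, hLm,
        List.not_mem_nil, or_false, not_or]
      omega
  have h2 : ((List.range n).filter fun k => k ≠ j ∧ k ≠ j + 1).Perm (i :: (i + 1) :: L) := by
    refine perm_of_mem (List.nodup_range.filter _) ?_ ?_
    · refine List.nodup_cons.2 ⟨?_, List.nodup_cons.2 ⟨?_, hLn⟩⟩ <;>
        simp [hLm]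
    · intro a
      simp only [List.mem_filter, List.mem_range, List.mem_cons, decide_eq_true_eq, hLm,
        List.not_mem_nil, or_false, not_or]
      omega
  have h3 : (lay n x y (some i) ++ lay n y z (some j)).Perm
      ([.vert (x i) (x (i + 1)) (y i) (y (i + 1)), .arc (y i) (z i), .arc (y (i + 1)) (z (i + 1))] ++
        [.arc (x (j + 1)) (y (j + 1)), .arc (x j) (y j),
          .vert (y j) (y (j + 1)) (z j) (z (j + 1))] ++ (arcs L x y ++ arcs L y z)) := by
    have h4 := (arcs_perm h1 x y).cons (GNode.vert (x i) (x (i + 1)) (y i) (y (i + 1)))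
    have h5 := (arcs_perm h2 y z).cons (GNode.vert (y j) (y (j + 1)) (z j) (z (j + 1)))
    refine (h4.append h5).trans ?_
    rw [List.perm_iff_count]
    intro a
    simp only [arcs_cons, List.count_append, List.count_cons, List.count_nil]
    omega
  refine (GEq.perm hF h3).trans ?_
  refine GEq.mul hF (GEq.mul hF ?_ ?_) (gArcs hF L x y z)
  · exact ((gVertArc hF _ _ _ _ _).app [.arc (y (i + 1)) (z (i + 1))]).trans
      (gVertArc' hF _ _ _ _ _)
  · exact ((gArcVert hF _ _ _ _ _).left hF [.arc (x (j + 1)) (y (j + 1))]).trans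
      (gArcVert' hF _ _ _ _ _)

theorem lay_far (hF : IsMOY q t F) (n : ℕ) (x y z : ℕ → ℕ) (i j : ℕ)
    (hij : i + 2 ≤ j) (hi : i + 1 < n) (hj : j + 1 < n) (S : List GNode)
    (h : Closed (lay n x y (some i) ++ lay n y z (some j) ++ S))
    (h' : Closed (lay n x y (some j) ++ lay n y z (some i) ++ S)) :
    F (lay n x y (some i) ++ lay n y z (some j) ++ S) =
      F (lay n x y (some j) ++ lay n y z (some i) ++ S) := by
  obtain ⟨h1, h2⟩ := lay_far_aux hF n x y z i j (Or.inl hij) hi hj S h
  obtain ⟨h3, h4⟩ := lay_far_aux hF n x y z j i (Or.inr hij) hj hi S h'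
  rw [h2, h4]
  refine hF.perm _ _ h1 (List.Perm.append_right _ ?_)
  refine List.Perm.append (List.Perm.swap _ _ _) (arcs_perm ?_ x z)
  refine perm_of_mem (List.nodup_range.filter _) (List.nodup_range.filter _) ?_
  intro a
  simp only [List.mem_filter, List.mem_range, List.mem_cons, decide_eq_true_eq,
        List.not_mem_nil, or_false, not_or]
  omega

/-- Two equal vertices. -/
theorem lay_digon (hF : IsMOY q t F) (n : ℕ) (x y z : ℕ → ℕ) (i : ℕ) (S : List GNode)
    (h : Closed (lay n x y (some i) ++ lay n y z (some i) ++ S)) :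
    F (lay n x y (some i) ++ lay n y z (some i) ++ S) =
      (q + q⁻¹) * F (lay n x z (some i) ++ S) := by
  set L := (List.range n).filter fun k => k ≠ i ∧ k ≠ i + 1 with hL
  have h1 : (lay n x y (some i) ++ lay n y z (some i) ++ S).Perm
      (.vert (x i) (x (i + 1)) (y i) (y (i + 1)) :: .vert (y i) (y (i + 1)) (z i) (z (i + 1)) ::
        (arcs L x y ++ arcs L y z ++ S)) := by
    simp only [lay, ← hL]
    rw [List.perm_iff_count]
    intro a
    simp only [List.count_append, List.count_cons]
    omega
  rw [hF.perm _ _ h h1, F_digon hF _ _ _ _ _ _ _ (closed_perm h h1)]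
  congr 1
  have h2 : Closed (.vert (x i) (x (i + 1)) (z i) (z (i + 1)) :: (arcs L x y ++ arcs L y z ++ S)) := by
    have h3 := closed_perm h h1
    rw [closed_iff] at h3 ⊢
    intro v
    have := h3 v
    simp only [insG_cons, outsG_cons, GNode.ins, GNode.outs,
      List.count_cons, List.cons_append, List.nil_append] at this ⊢
    omega
  exact (((gArcs hF L x y z).left hF [.vert (x i) (x (i + 1)) (z i) (z (i + 1))]) S h2).2


omit [Field K] in
theorem map_congr_labels (G : List GNode) (f g : ℕ → ℕ) (h : ∀ x ∈ insG G, f x = g x)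
    (h' : ∀ x ∈ outsG G, f x = g x) : G.map (GNode.map f) = G.map (GNode.map g) := by
  refine List.map_congr_left fun v hv => ?_
  rcases v with ⟨i, o⟩ | ⟨a, b, c, d⟩
  · have h1 : i ∈ insG G := List.mem_flatMap.2 ⟨_, hv, by simp [GNode.ins]⟩
    have h2 : o ∈ outsG G := List.mem_flatMap.2 ⟨_, hv, by simp [GNode.outs]⟩
    simp [GNode.map, h _ h1, h' _ h2]
  · have h1 : a ∈ insG G := List.mem_flatMap.2 ⟨_, hv, by simp [GNode.ins]⟩
    have h2 : b ∈ insG G := List.mem_flatMap.2 ⟨_, hv, by simp [GNode.ins]⟩
    have h3 : c ∈ outsG G := List.mem_flatMap.2 ⟨_, hv, by simp [GNode.outs]⟩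
    have h4 : d ∈ outsG G := List.mem_flatMap.2 ⟨_, hv, by simp [GNode.outs]⟩
    simp [GNode.map, h _ h1, h _ h2, h' _ h3, h' _ h4]

theorem map_id_labels (G : List GNode) (f : ℕ → ℕ) (h : ∀ x ∈ insG G, f x = x)
    (h' : ∀ x ∈ outsG G, f x = x) : G.map (GNode.map f) = G := by
  rw [map_congr_labels G f id h h']
  have : GNode.map id = id := by
    funext v
    cases v <;> rfl
  rw [this, List.map_id]

/-- A change of the labels which is injective on the labels that occur. -/
theorem relabel_on (hF : IsMOY q t F) (G : List GNode) (g : ℕ → ℕ)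
    (hg : ∀ x ∈ insG G, ∀ y ∈ insG G, g x = g y → x = y) (h : Closed G) :
    F (G.map (GNode.map g)) = F G := by
  classical
  set M := ((insG G).map g).sum with hM
  have hle : ∀ x ∈ insG G, g x ≤ M := fun x hx =>
    List.le_sum_of_mem (List.mem_map_of_mem hx)
  set g' : ℕ → ℕ := fun x => if x ∈ insG G then g x else x + M + 1 with hg'
  have h1 : G.map (GNode.map g) = G.map (GNode.map g') := by
    refine map_congr_labels G _ _ (fun x hx => ?_) fun x hx => ?_
    · simp [hg', hx]
    · have : x ∈ insG G := h.2.mem_iff.2 hx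
      simp [hg', this]
  rw [h1]
  refine hF.relabel G g' ?_ h
  intro x y hxy
  simp only [hg'] at hxy
  split_ifs at hxy with h2 h3 h3
  · exact hg x h2 y h3 hxy
  · have := hle x h2
    omega
  · have := hle y h3
    omega
  · omega

/-- The relation of three vertices with different inner labels on the two sides. -/
theorem tri_labels (hF : IsMOY q t F) (i₁ i₂ i₃ o₁ o₂ o₃ x₁ x₂ x₃ y₁ y₂ y₃ : ℕ) (S : List GNode)
    (h : Closed (triL i₁ i₂ i₃ o₁ o₂ o₃ x₁ x₂ x₃ ++ S))
    (h' : Closed (triR i₁ i₂ i₃ o₁ o₂ o₃ y₁ y₂ y₃ ++ S)) :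
    F (triL i₁ i₂ i₃ o₁ o₂ o₃ x₁ x₂ x₃ ++ S) - F (.vert i₁ i₂ o₁ o₂ :: .arc i₃ o₃ :: S) =
      F (triR i₁ i₂ i₃ o₁ o₂ o₃ y₁ y₂ y₃ ++ S) - F (.vert i₂ i₃ o₂ o₃ :: .arc i₁ o₁ :: S) := by
  rw [F_tri hF _ _ _ _ _ _ _ _ _ _ h]
  congr 1
  set g : ℕ → ℕ := fun v => if v = y₁ then x₁ else if v = y₂ then x₂ else
    if v = y₃ then x₃ else v with hg
  have hc := closed_iff.1 h
  have hc' := closed_iff.1 h'
  simp only [triL, triR, List.cons_append, List.nil_append, insG_cons, outsG_cons, GNode.ins,
    GNode.outs, List.count_cons, beq_iff_eq] at hc hc'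
  have hy12 : y₁ ≠ y₂ := by
    rintro rfl
    have := (hc' y₁).1
    simp at this
    omega
  have hy13 : y₁ ≠ y₃ := by
    rintro rfl
    have := (hc' y₁).1
    simp at this
    omega
  have hy23 : y₂ ≠ y₃ := by
    rintro rfl
    have := (hc' y₂).1
    simp at this
    omega
  have hx12 : x₁ ≠ x₂ := by
    rintro rfl
    have := (hc x₁).1
    simp at this
    omega
  have hx13 : x₁ ≠ x₃ := by
    rintro rfl
    have := (hc x₁).1
    simp at this
    omega
  have hx23 : x₂ ≠ x₃ := by
    rintro rfl
    have := (hc x₂).1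
    simp at this
    omega
  have hid : ∀ v, v ≠ y₁ → v ≠ y₂ → v ≠ y₃ → g v = v := by
    intro v h1 h2 h3
    simp [hg, h1, h2, h3]
  have hg1 : g y₁ = x₁ := by simp [hg]
  have hg2 : g y₂ = x₂ := by simp [hg, hy12.symm]
  have hg3 : g y₃ = x₃ := by simp [hg, hy13.symm, hy23.symm]
  have hi : ∀ v, v = i₁ ∨ v = i₂ ∨ v = i₃ → g v = v := by
    intro v hv
    have := hc' v
    refine hid v ?_ ?_ ?_ <;> rintro rfl <;> rcases hv with hv | hv | hv <;>
      simp [hv] at this <;> omega
  have ho : ∀ v, v = o₁ ∨ v = o₂ ∨ v = o₃ → g v = v := by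
    intro v hv
    have := hc' v
    refine hid v ?_ ?_ ?_ <;> rintro rfl <;> rcases hv with hv | hv | hv <;>
      simp [hv] at this <;> omega
  have hSi : ∀ v ∈ insG S, g v = v := by
    intro v hv
    have h1 := List.count_pos_iff.2 hv
    have := hc' v
    refine hid v ?_ ?_ ?_ <;> rintro rfl <;> simp at this <;> omega
  have hSo : ∀ v ∈ outsG S, g v = v := by
    intro v hv
    have h1 := List.count_pos_iff.2 hv
    have := hc' v
    refine hid v ?_ ?_ ?_ <;> rintro rfl <;> simp at this <;> omega
  have hmap : (triR i₁ i₂ i₃ o₁ o₂ o₃ y₁ y₂ y₃ ++ S).map (GNode.map g) =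
      triR i₁ i₂ i₃ o₁ o₂ o₃ x₁ x₂ x₃ ++ S := by
    rw [List.map_append, map_id_labels S g hSi hSo]
    simp only [triR, List.map_cons, List.map_nil, GNode.map, hg1, hg2, hg3, hi i₁ (by simp),
      hi i₂ (by simp), hi i₃ (by simp), ho o₁ (by simp), ho o₂ (by simp), ho o₃ (by simp)]
  rw [← hmap]
  refine relabel_on hF _ g ?_ h'
  have hx : ∀ v ∈ insG (triR i₁ i₂ i₃ o₁ o₂ o₃ y₁ y₂ y₃ ++ S), v ≠ y₁ → v ≠ y₂ → v ≠ y₃ →
      v ≠ x₁ ∧ v ≠ x₂ ∧ v ≠ x₃ := by
    intro v hv h1 h2 h3
    have h4 := List.count_pos_iff.2 hv
    have h5 := (hc v).1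
    simp only [triR, List.cons_append, List.nil_append, insG_cons, GNode.ins,
      List.count_cons, beq_iff_eq, h1.symm, h2.symm, h3.symm, if_false, add_zero] at h4
    refine ⟨?_, ?_, ?_⟩ <;> rintro rfl <;> simp at h5 <;> omega
  intro v hv w hw hvw
  by_cases hv1 : v = y₁
  · subst hv1
    by_cases hw1 : w = v
    · exact hw1.symm
    · by_cases hw2 : w = y₂
      · subst hw2
        rw [hg1, hg2] at hvw
        exact absurd hvw hx12
      · by_cases hw3 : w = y₃
        · subst hw3
          rw [hg1, hg3] at hvw
          exact absurd hvw hx13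
        · rw [hid w hw1 hw2 hw3, hg1] at hvw
          exact absurd hvw.symm (hx w hw hw1 hw2 hw3).1
  · by_cases hv2 : v = y₂
    · subst hv2
      by_cases hw1 : w = y₁
      · subst hw1
        rw [hg1, hg2] at hvw
        exact absurd hvw.symm hx12
      · by_cases hw2 : w = v
        · exact hw2.symm
        · by_cases hw3 : w = y₃
          · subst hw3
            rw [hg2, hg3] at hvw
            exact absurd hvw hx23
          · rw [hid w hw1 hw2 hw3, hg2] at hvw
            exact absurd hvw.symm (hx w hw hw1 hw2 hw3).2.1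
    · by_cases hv3 : v = y₃
      · subst hv3
        by_cases hw1 : w = y₁
        · subst hw1
          rw [hg1, hg3] at hvw
          exact absurd hvw.symm hx13
        · by_cases hw2 : w = y₂
          · subst hw2
            rw [hg2, hg3] at hvw
            exact absurd hvw.symm hx23
          · by_cases hw3 : w = v
            · exact hw3.symm
            · rw [hid w hw1 hw2 hw3, hg3] at hvw
              exact absurd hvw.symm (hx w hw hw1 hw2 hw3).2.2
      · rw [hid v hv1 hv2 hv3] at hvw
        by_cases hw1 : w = y₁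
        · subst hw1
          rw [hg1] at hvw
          exact absurd hvw (hx v hv hv1 hv2 hv3).1
        · by_cases hw2 : w = y₂
          · subst hw2
            rw [hg2] at hvw
            exact absurd hvw (hx v hv hv1 hv2 hv3).2.1
          · by_cases hw3 : w = y₃
            · subst hw3
              rw [hg3] at hvw
              exact absurd hvw (hx v hv hv1 hv2 hv3).2.2
            · rwa [hid w hw1 hw2 hw3] at hvw


theorem lay_perm_left {n i : ℕ} (hi : i + 2 < n) (x y : ℕ → ℕ) :
    (lay n x y (some i)).Perm (.vert (x i) (x (i + 1)) (y i) (y (i + 1)) ::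
      .arc (x (i + 2)) (y (i + 2)) ::
        arcs ((List.range n).filter fun k => k ∉ [i, i + 1, i + 2]) x y) := by
  refine List.Perm.cons _ ?_
  rw [← arcs_cons]
  refine arcs_perm (perm_of_mem (List.nodup_range.filter _) ?_ ?_) x y
  · exact List.nodup_cons.2 ⟨by simp, List.nodup_range.filter _⟩
  · intro a
    simp only [List.mem_filter, List.mem_range, List.mem_cons, decide_eq_true_eq,
      List.not_mem_nil, or_false, not_or]
    omega

theorem lay_perm_right {n i : ℕ} (hi : i + 2 < n) (x y : ℕ → ℕ) :
    (lay n x y (some (i + 1))).Perm (.vert (x (i + 1)) (x (i + 2)) (y (i + 1)) (y (i + 2)) ::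
      .arc (x i) (y i) ::
        arcs ((List.range n).filter fun k => k ∉ [i, i + 1, i + 2]) x y) := by
  refine List.Perm.cons _ ?_
  rw [← arcs_cons]
  refine arcs_perm (perm_of_mem (List.nodup_range.filter _) ?_ ?_) x y
  · exact List.nodup_cons.2 ⟨by simp, List.nodup_range.filter _⟩
  · intro a
    simp only [List.mem_filter, List.mem_range, List.mem_cons, decide_eq_true_eq,
      List.not_mem_nil, or_false, not_or]
    omega

/-- Three vertices on the left. -/
theorem lay_tri_left (hF : IsMOY q t F) {n i : ℕ} (hi : i + 2 < n) (x y z w : ℕ → ℕ) :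
    GEq F (lay n x y (some i) ++ lay n y z (some (i + 1)) ++ lay n z w (some i))
      (triL (x i) (x (i + 1)) (x (i + 2)) (w i) (w (i + 1)) (w (i + 2)) (y i) (y (i + 1))
        (z (i + 1)) ++ arcs ((List.range n).filter fun k => k ∉ [i, i + 1, i + 2]) x w) := by
  set L := (List.range n).filter fun k => k ∉ [i, i + 1, i + 2] with hL
  have h1 : (lay n x y (some i) ++ lay n y z (some (i + 1)) ++ lay n z w (some i)).Perm
      ([.vert (x i) (x (i + 1)) (y i) (y (i + 1))] ++
        (([.arc (x (i + 2)) (y (i + 2)), .vert (y (i + 1)) (y (i + 2)) (z (i + 1)) (z (i + 2))] ++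
          [.arc (z (i + 2)) (w (i + 2))]) ++
        [.arc (y i) (z i), .vert (z i) (z (i + 1)) (w i) (w (i + 1))]) ++
        (arcs L x y ++ arcs L y z ++ arcs L z w)) := by
    refine ((lay_perm_left hi x y).append (lay_perm_right hi y z)).append
      (lay_perm_left hi z w) |>.trans ?_
    rw [← hL, List.perm_iff_count]
    intro a
    simp only [List.count_append, List.count_cons, List.count_nil]
    omega
  refine (GEq.perm hF h1).trans ?_
  refine GEq.mul hF ?_ (((gArcs hF L x y z).app _).trans (gArcs hF L x z w))
  refine GEq.left hF (Q := [.vert (y (i + 1)) (x (i + 2)) (z (i + 1)) (w (i + 2))] ++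
    [.vert (y i) (z (i + 1)) (w i) (w (i + 1))]) ?_
    [.vert (x i) (x (i + 1)) (y i) (y (i + 1))]
  refine GEq.mul hF ?_ (gArcVert hF _ _ _ _ _)
  exact ((gArcVert' hF _ _ _ _ _).app _).trans (gVertArc' hF _ _ _ _ _)

/-- Three vertices on the right. -/
theorem lay_tri_right (hF : IsMOY q t F) {n i : ℕ} (hi : i + 2 < n) (x y z w : ℕ → ℕ) :
    GEq F (lay n x y (some (i + 1)) ++ lay n y z (some i) ++ lay n z w (some (i + 1)))
      (triR (x i) (x (i + 1)) (x (i + 2)) (w i) (w (i + 1)) (w (i + 2)) (z (i + 1)) (y (i + 1))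
        (y (i + 2)) ++ arcs ((List.range n).filter fun k => k ∉ [i, i + 1, i + 2]) x w) := by
  set L := (List.range n).filter fun k => k ∉ [i, i + 1, i + 2] with hL
  have h1 : (lay n x y (some (i + 1)) ++ lay n y z (some i) ++ lay n z w (some (i + 1))).Perm
      ([.vert (x (i + 1)) (x (i + 2)) (y (i + 1)) (y (i + 2))] ++
        (([.arc (x i) (y i), .vert (y i) (y (i + 1)) (z i) (z (i + 1))] ++
          [.arc (z i) (w i)]) ++
        [.arc (y (i + 2)) (z (i + 2)), .vert (z (i + 1)) (z (i + 2)) (w (i + 1)) (w (i + 2))]) ++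
        (arcs L x y ++ arcs L y z ++ arcs L z w)) := by
    refine ((lay_perm_right hi x y).append (lay_perm_left hi y z)).append
      (lay_perm_right hi z w) |>.trans ?_
    rw [← hL, List.perm_iff_count]
    intro a
    simp only [List.count_append, List.count_cons, List.count_nil]
    omega
  refine (GEq.perm hF h1).trans ?_
  refine GEq.mul hF ?_ (((gArcs hF L x y z).app _).trans (gArcs hF L x z w))
  refine GEq.left hF (Q := [.vert (x i) (y (i + 1)) (w i) (z (i + 1))] ++
    [.vert (z (i + 1)) (y (i + 2)) (w (i + 1)) (w (i + 2))]) ?_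
    [.vert (x (i + 1)) (x (i + 2)) (y (i + 1)) (y (i + 2))]
  refine GEq.mul hF ?_ (gArcVert' hF _ _ _ _ _)
  exact ((gArcVert hF _ _ _ _ _).app _).trans (gVertArc hF _ _ _ _ _)

theorem lay_tri (hF : IsMOY q t F) {n i : ℕ} (hi : i + 2 < n) (x y z w : ℕ → ℕ)
    (S : List GNode)
    (h : Closed (lay n x y (some i) ++ lay n y z (some (i + 1)) ++ lay n z w (some i) ++ S))
    (h' : Closed (lay n x y (some (i + 1)) ++ lay n y z (some i) ++ lay n z w (some (i + 1)) ++ S))
    (h₁ : Closed (lay n x w (some i) ++ S)) (h₂ : Closed (lay n x w (some (i + 1)) ++ S)) :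
    F (lay n x y (some i) ++ lay n y z (some (i + 1)) ++ lay n z w (some i) ++ S) -
        F (lay n x w (some i) ++ S) =
      F (lay n x y (some (i + 1)) ++ lay n y z (some i) ++ lay n z w (some (i + 1)) ++ S) -
        F (lay n x w (some (i + 1)) ++ S) := by
  obtain ⟨h3, h4⟩ := lay_tri_left hF hi x y z w S h
  obtain ⟨h5, h6⟩ := lay_tri_right hF hi x y z w S h'
  rw [h4, h6, hF.perm _ _ h₁ ((lay_perm_left hi x w).append_right S),
    hF.perm _ _ h₂ ((lay_perm_right hi x w).append_right S)]
  rw [List.append_assoc] at h3 h5 ⊢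
  rw [List.append_assoc]
  exact tri_labels hF _ _ _ _ _ _ _ _ _ _ _ _ _ h3 h5

/-- The label of the strand `k` at the level `l`. -/
def lev (n l k : ℕ) : ℕ := l * n + k

theorem glayer_eq (n l : ℕ) (a : Option ℕ) :
    glayer n l a = lay n (lev n l) (lev n (l + 1)) a := by
  cases a <;> rfl

theorem glayers_append (n l : ℕ) (u v : List (Option ℕ)) :
    glayers n l (u ++ v) = glayers n l u ++ glayers n (l + u.length) v := by
  induction u generalizing l with
  | nil => simp [glayers]
  | cons a u ih =>
    rw [List.cons_append, glayers, glayers, ih, List.append_assoc, List.length_cons]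
    congr 3
    omega

theorem gclosure_eq (n : ℕ) (w : List (Option ℕ)) :
    gclosure n w = glayers n 0 w ++ lay n (lev n w.length) (lev n 0) none := by
  simp only [gclosure, lay, arcs, lev, Nat.zero_mul, Nat.zero_add]

/-- The change of the labels given by a change of the levels. -/
def gh (n : ℕ) (h : ℕ → ℕ) (x : ℕ) : ℕ := h (x / n) * n + x % n

theorem gh_inj (n : ℕ) {h : ℕ → ℕ} (hh : Function.Injective h) : Function.Injective (gh n h) := by
  intro x y hxy
  rcases Nat.eq_zero_or_pos n with rfl | hn
  · simpa [gh] using hxy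
  · simp only [gh] at hxy
    have hx := Nat.mod_lt x hn
    have hy := Nat.mod_lt y hn
    have h1 : (h (x / n) * n + x % n) % n = (h (y / n) * n + y % n) % n := by rw [hxy]
    rw [Nat.mul_comm (h (x / n)), Nat.mul_comm (h (y / n)), Nat.mul_add_mod, Nat.mul_add_mod,
      Nat.mod_mod, Nat.mod_mod] at h1
    have h2 : h (x / n) = h (y / n) := by
      rw [h1] at hxy
      exact Nat.eq_of_mul_eq_mul_right hn (Nat.add_right_cancel hxy)
    have h3 := hh h2
    rw [← Nat.div_add_mod x n, ← Nat.div_add_mod y n, h1, h3]

theorem gh_lev {n k : ℕ} (hk : k < n) (h : ℕ → ℕ) (l : ℕ) :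
    gh n h (lev n l k) = lev n (h l) k := by
  have hn : 0 < n := by omega
  rw [gh, lev, Nat.mul_comm l n, Nat.mul_add_div hn, Nat.mul_add_mod, Nat.div_eq_of_lt hk,
    Nat.mod_eq_of_lt hk, Nat.add_zero, lev]

theorem lay_map (n : ℕ) (h : ℕ → ℕ) (l l' : ℕ) (a : Option ℕ)
    (ha : ∀ i, a = some i → i + 1 < n) :
    (lay n (lev n l) (lev n l') a).map (GNode.map (gh n h)) =
      lay n (lev n (h l)) (lev n (h l')) a := by
  rcases a with _ | i
  · simp only [lay, arcs, List.map_map]
    refine List.map_congr_left fun k hk => ?_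
    have hk' := List.mem_range.1 hk
    simp [GNode.map, gh_lev hk']
  · have hi := ha i rfl
    have hi' : i < n := by omega
    simp only [lay, arcs, List.map_cons, List.map_map, GNode.map, gh_lev hi, gh_lev hi']
    congr 1
    refine List.map_congr_left fun k hk => ?_
    have hk' := List.mem_range.1 (List.mem_filter.1 hk).1
    simp [GNode.map, gh_lev hk']

theorem glayers_map (n : ℕ) (h : ℕ → ℕ) (l l' : ℕ) (v : List (Option ℕ)) (hv : GValid n v)
    (hh : ∀ m, m ≤ v.length → h (l + m) = l' + m) :
    (glayers n l v).map (GNode.map (gh n h)) = glayers n l' v := by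
  induction v generalizing l l' with
  | nil => rfl
  | cons a v ih =>
    rw [glayers, glayers, List.map_append, glayer_eq, glayer_eq, lay_map]
    · have h0 := hh 0 (Nat.zero_le _)
      have h1 := hh 1 (by simp)
      rw [Nat.add_zero, Nat.add_zero] at h0
      rw [h0, h1, ih (l + 1) (l' + 1)]
      · intro i hi
        exact hv i (List.mem_cons_of_mem _ hi)
      · intro m hm
        have := hh (m + 1) (by simp; omega)
        rw [show l + 1 + m = l + (m + 1) by omega, this]
        omega
    · intro i hi
      exact hv i (by rw [hi]; exact List.mem_cons_self)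

theorem gvalid_left {n : ℕ} {u v : List (Option ℕ)} (h : GValid n (u ++ v)) : GValid n u :=
  fun i hi => h i (List.mem_append_left _ hi)

theorem gvalid_right {n : ℕ} {u v : List (Option ℕ)} (h : GValid n (u ++ v)) : GValid n v :=
  fun i hi => h i (List.mem_append_right _ hi)

/-- A gap in the levels. -/
def gap (m d l : ℕ) : ℕ := if l ≤ m then l else l + d

theorem gap_inj (m d : ℕ) : Function.Injective (gap m d) := by
  intro a b h
  simp only [gap] at h
  split_ifs at h <;> omega

/-- The graph of a word with a gap in the levels. -/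
def gapG (n : ℕ) (u : List (Option ℕ)) (a : Option ℕ) (v : List (Option ℕ)) (d : ℕ) :
    List GNode :=
  glayers n 0 u ++ lay n (lev n u.length) (lev n (u.length + 1 + d)) a ++
    (glayers n (u.length + 1 + d) v ++ lay n (lev n (u.length + 1 + v.length + d)) (lev n 0) none)

theorem gap_map (n : ℕ) (u : List (Option ℕ)) (a : Option ℕ) (v : List (Option ℕ)) (d : ℕ)
    (h : GValid n (u ++ a :: v)) :
    (gclosure n (u ++ a :: v)).map (GNode.map (gh n (gap u.length d))) = gapG n u a v d := by
  have ha : ∀ i, a = some i → i + 1 < n := fun i hi => h i (by simp [hi])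
  have hv : GValid n v := fun i hi => h i (by simp [hi])
  rw [gclosure_eq, glayers_append, glayers, List.map_append, List.map_append, List.map_append,
    glayers_map n _ 0 0 u (gvalid_left h), glayer_eq, lay_map _ _ _ _ _ ha, lay_map _ _ _ _ _ (by simp),
    glayers_map n _ _ (u.length + 1 + d) v hv, gapG]
  · have h1 : gap u.length d (0 + u.length) = u.length := by simp [gap]
    have h2 : gap u.length d (0 + u.length + 1) = u.length + 1 + d := by
      simp [gap]
    have h3 : gap u.length d ((u ++ a :: v).length) = u.length + 1 + v.length + d := by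
      have : ¬ (u ++ a :: v).length ≤ u.length := by simp
      rw [gap, if_neg this]
      simp
      omega
    have h4 : gap u.length d 0 = 0 := by simp [gap]
    rw [h1, h2, h3, h4]
    simp only [List.append_assoc]
  · intro m _
    have : ¬ 0 + u.length + 1 + m ≤ u.length := by omega
    rw [gap, if_neg this]
    omega
  · intro m hm
    rw [gap, if_pos (by omega)]

theorem F_gap (hF : IsMOY q t F) (n : ℕ) (u : List (Option ℕ)) (a : Option ℕ)
    (v : List (Option ℕ)) (d : ℕ) (h : GValid n (u ++ a :: v)) :
    F (gapG n u a v d) = F (gclosure n (u ++ a :: v)) := by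
  rw [← gap_map n u a v d h]
  exact hF.relabel _ _ (gh_inj n (gap_inj _ _)) (gclosure_closed n _ h)

theorem closed_map {G : List GNode} (g : ℕ → ℕ) (hg : Function.Injective g) (h : Closed G) :
    Closed (G.map (GNode.map g)) := by
  have h1 : insG (G.map (GNode.map g)) = (insG G).map g := by
    simp only [insG, List.flatMap_map, List.map_flatMap]
    congr 1
    funext v
    cases v <;> rfl
  have h2 : outsG (G.map (GNode.map g)) = (outsG G).map g := by
    simp only [outsG, List.flatMap_map, List.map_flatMap]
    congr 1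
    funext v
    cases v <;> rfl
  rw [Closed, h1, h2]
  exact ⟨h.1.map hg, h.2.map g⟩

theorem closed_gap (n : ℕ) (u : List (Option ℕ)) (a : Option ℕ)
    (v : List (Option ℕ)) (d : ℕ) (h : GValid n (u ++ a :: v)) : Closed (gapG n u a v d) := by
  rw [← gap_map n u a v d h]
  exact closed_map _ (gh_inj n (gap_inj _ _)) (gclosure_closed n _ h)

end Words

open Words

theorem T_none (hF : IsMOY q t F) (n : ℕ) (u v : List (Option ℕ)) (h : GValid n (u ++ v)) :
    F (gclosure n (u ++ none :: v)) = F (gclosure n (u ++ v)) := by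
  have hc : Closed (gclosure n (u ++ none :: v)) := by
    refine gclosure_closed n _ fun i hi => h i ?_
    rcases List.mem_append.1 hi with h1 | h1
    · exact List.mem_append_left _ h1
    · exact List.mem_append_right _ (by simpa using h1)
  rcases v with _ | ⟨a, v⟩
  · have h1 : gclosure n (u ++ [none]) = glayers n 0 u ++
        (lay n (lev n u.length) (lev n (u.length + 1)) none ++
          lay n (lev n (u.length + 1)) (lev n 0) none) ++ [] := by
      rw [gclosure_eq, glayers_append, glayers, glayers, glayer_eq]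
      simp only [List.length_append, List.length_cons, List.length_nil, Nat.zero_add,
        List.append_nil, List.append_assoc]
    rw [h1] at hc ⊢
    have h2 := (((lay_none_left hF n (lev n u.length) (lev n (u.length + 1)) (lev n 0) none
      (by simp)).left hF (glayers n 0 u)) [] hc).2
    rw [h2, List.append_nil, List.append_nil, gclosure_eq]
  · have ha : ∀ i, a = some i → i + 1 < n := fun i hi => h i (by simp [hi])
    have h1 : gclosure n (u ++ none :: a :: v) = glayers n 0 u ++
        (lay n (lev n u.length) (lev n (u.length + 1)) none ++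
          lay n (lev n (u.length + 1)) (lev n (u.length + 1 + 1)) a) ++
          (glayers n (u.length + 1 + 1) v ++
            lay n (lev n (u.length + 1 + v.length + 1)) (lev n 0) none) := by
      rw [gclosure_eq, glayers_append, glayers, glayers, glayer_eq, glayer_eq]
      have h2 : (u ++ none :: a :: v).length = u.length + 1 + v.length + 1 := by
        simp
        omega
      rw [h2]
      simp only [Nat.zero_add, List.append_assoc]
    rw [h1] at hc ⊢
    have h2 := (((lay_none_left hF n (lev n u.length) (lev n (u.length + 1))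
      (lev n (u.length + 1 + 1)) a ha).left hF (glayers n 0 u)) _ hc).2
    rw [h2, ← F_gap hF n u a v 1 h, gapG]

theorem T_conj (hF : IsMOY q t F) (n : ℕ) (u v : List (Option ℕ)) (h : GValid n (u ++ v)) :
    F (gclosure n (u ++ v)) = F (gclosure n (v ++ u)) := by
  have h' : GValid n (v ++ u) := by
    intro i hi
    refine h i ?_
    rcases List.mem_append.1 hi with h1 | h1
    · exact List.mem_append_right _ h1
    · exact List.mem_append_left _ h1
  have hc : Closed (gclosure n (u ++ none :: v)) := by
    refine gclosure_closed n _ fun i hi => h i ?_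
    rcases List.mem_append.1 hi with h1 | h1
    · exact List.mem_append_left _ h1
    · exact List.mem_append_right _ (by simpa using h1)
  rw [← T_none hF n u v h, ← T_none hF n v u h']
  set g : ℕ → ℕ := fun l => if l ≤ u.length then l + v.length + 1 else
    if l ≤ u.length + v.length + 1 then l - (u.length + 1) else l with hg
  have hgi : Function.Injective g := by
    intro a b hab
    simp only [hg] at hab
    split_ifs at hab <;> omega
  rw [← hF.relabel _ _ (gh_inj n hgi) hc]
  have hc' := closed_map _ (gh_inj n hgi) hc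
  refine hF.perm _ _ hc' ?_
  have h1 : (gclosure n (u ++ none :: v)).map (GNode.map (gh n g)) =
      (glayers n (v.length + 1) u ++ lay n (lev n (v.length + 1 + u.length)) (lev n 0) none) ++
        (glayers n 0 v ++ lay n (lev n v.length) (lev n (v.length + 1)) none) := by
    rw [gclosure_eq, glayers_append, glayers, List.map_append, List.map_append, List.map_append,
      glayers_map n _ 0 (v.length + 1) u (gvalid_left h), glayer_eq, lay_map _ _ _ _ _ (by simp),
      lay_map _ _ _ _ _ (by simp), glayers_map n _ _ 0 v (gvalid_right h)]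
    · have h2 : g (0 + u.length) = v.length + 1 + u.length := by
        simp only [hg]
        rw [if_pos (by omega)]
        omega
      have h3 : g (0 + u.length + 1) = 0 := by
        simp only [hg]
        rw [if_neg (by omega), if_pos (by omega)]
        omega
      have h4 : g ((u ++ none :: v).length) = v.length := by
        have h5 : (u ++ none :: v).length = u.length + v.length + 1 := by
          simp
          omega
        simp only [hg]
        rw [h5, if_neg (by omega), if_pos (by omega)]
        omega
      have h5 : g 0 = v.length + 1 := by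
        simp [hg]
      rw [h2, h3, h4, h5]
      simp only [List.append_assoc]
    · intro m hm
      simp only [hg]
      rw [if_neg (by omega), if_pos (by omega)]
      omega
    · intro m hm
      simp only [hg]
      rw [if_pos (by omega)]
      omega
  have h2 : gclosure n (v ++ none :: u) =
      (glayers n 0 v ++ lay n (lev n v.length) (lev n (v.length + 1)) none) ++
      (glayers n (v.length + 1) u ++ lay n (lev n (v.length + 1 + u.length)) (lev n 0) none) := by
    rw [gclosure_eq, glayers_append, glayers, glayer_eq]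
    have h5 : (v ++ none :: u).length = v.length + 1 + u.length := by
      simp
      omega
    rw [h5]
    simp only [Nat.zero_add, List.append_assoc]
  rw [h1, h2]
  exact List.perm_append_comm

theorem T_far (hF : IsMOY q t F) (n : ℕ) (u v : List (Option ℕ)) (i j : ℕ) (hij : i + 2 ≤ j)
    (h : GValid n (u ++ some i :: some j :: v)) :
    F (gclosure n (u ++ some i :: some j :: v)) =
      F (gclosure n (u ++ some j :: some i :: v)) := by
  have hi : i + 1 < n := h i (by simp)
  have hj : j + 1 < n := h j (by simp)
  have h' : GValid n (u ++ some j :: some i :: v) := by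
    intro k hk
    refine h k ?_
    simp only [List.mem_append, List.mem_cons] at hk ⊢
    tauto
  have key : ∀ a b : ℕ, (gclosure n (u ++ some a :: some b :: v)).Perm
      (lay n (lev n u.length) (lev n (u.length + 1)) (some a) ++
        lay n (lev n (u.length + 1)) (lev n (u.length + 1 + 1)) (some b) ++
        (glayers n 0 u ++ (glayers n (u.length + 1 + 1) v ++
          lay n (lev n (u.length + 1 + 1 + v.length)) (lev n 0) none))) := by
    intro a b
    rw [gclosure_eq, glayers_append, glayers, glayers, glayer_eq, glayer_eq]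
    have h5 : (u ++ some a :: some b :: v).length = u.length + 1 + 1 + v.length := by
      simp
      omega
    rw [h5, Nat.zero_add, List.perm_iff_count]
    intro c
    simp only [List.count_append]
    omega
  have hc := gclosure_closed n _ h
  have hc' := gclosure_closed n _ h'
  rw [hF.perm _ _ hc (key i j), hF.perm _ _ hc' (key j i)]
  exact lay_far hF n _ _ _ i j hij hi hj _ (closed_perm hc (key i j)) (closed_perm hc' (key j i))

theorem T_digon (hF : IsMOY q t F) (n : ℕ) (u v : List (Option ℕ)) (i : ℕ)
    (h : GValid n (u ++ some i :: v)) :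
    F (gclosure n (u ++ some i :: some i :: v)) =
      (q + q⁻¹) * F (gclosure n (u ++ some i :: v)) := by
  have h' : GValid n (u ++ some i :: some i :: v) := by
    intro k hk
    refine h k ?_
    simp only [List.mem_append, List.mem_cons] at hk ⊢
    tauto
  have key : (gclosure n (u ++ some i :: some i :: v)).Perm
      (lay n (lev n u.length) (lev n (u.length + 1)) (some i) ++
        lay n (lev n (u.length + 1)) (lev n (u.length + 1 + 1)) (some i) ++
        (glayers n 0 u ++ (glayers n (u.length + 1 + 1) v ++
          lay n (lev n (u.length + 1 + v.length + 1)) (lev n 0) none))) := by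
    rw [gclosure_eq, glayers_append, glayers, glayers, glayer_eq, glayer_eq]
    have h5 : (u ++ some i :: some i :: v).length = u.length + 1 + v.length + 1 := by
      simp
      omega
    rw [h5, Nat.zero_add, List.perm_iff_count]
    intro c
    simp only [List.count_append]
    omega
  have hc := gclosure_closed n _ h'
  have key' : (gapG n u (some i) v 1).Perm
      (lay n (lev n u.length) (lev n (u.length + 1 + 1)) (some i) ++
        (glayers n 0 u ++ (glayers n (u.length + 1 + 1) v ++
          lay n (lev n (u.length + 1 + v.length + 1)) (lev n 0) none))) := by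
    rw [gapG, List.perm_iff_count]
    intro c
    simp only [List.count_append]
    omega
  rw [hF.perm _ _ hc key, lay_digon hF _ _ _ _ _ _ (closed_perm hc key),
    ← hF.perm _ _ (closed_gap n u (some i) v 1 h) key', F_gap hF n u (some i) v 1 h]

theorem T_tri (hF : IsMOY q t F) (n : ℕ) (u v : List (Option ℕ)) (i : ℕ)
    (h : GValid n (u ++ some (i + 1) :: v)) :
    F (gclosure n (u ++ some i :: some (i + 1) :: some i :: v)) -
        F (gclosure n (u ++ some i :: v)) =
      F (gclosure n (u ++ some (i + 1) :: some i :: some (i + 1) :: v)) -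
        F (gclosure n (u ++ some (i + 1) :: v)) := by
  have hi : i + 2 < n := h (i + 1) (by simp)
  have hval : ∀ w : List (Option ℕ), (∀ k, some k ∈ w → k = i ∨ k = i + 1) →
      GValid n (u ++ (w ++ v)) := by
    intro w hw k hk
    rcases List.mem_append.1 hk with h1 | h1
    · exact h k (List.mem_append_left _ h1)
    · rcases List.mem_append.1 h1 with h2 | h2
      · rcases hw k h2 with rfl | rfl <;> omega
      · exact h k (by simp [h2])
  have key : ∀ a b c : ℕ, (gclosure n (u ++ some a :: some b :: some c :: v)).Perm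
      (lay n (lev n u.length) (lev n (u.length + 1)) (some a) ++
        lay n (lev n (u.length + 1)) (lev n (u.length + 1 + 1)) (some b) ++
        lay n (lev n (u.length + 1 + 1)) (lev n (u.length + 1 + 2)) (some c) ++
        (glayers n 0 u ++ (glayers n (u.length + 1 + 2) v ++
          lay n (lev n (u.length + 1 + v.length + 2)) (lev n 0) none))) := by
    intro a b c
    rw [gclosure_eq, glayers_append, glayers, glayers, glayers, glayer_eq, glayer_eq, glayer_eq]
    have h5 : (u ++ some a :: some b :: some c :: v).length = u.length + 1 + v.length + 2 := by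
      simp
      omega
    have h6 : u.length + 1 + 1 + 1 = u.length + 1 + 2 := rfl
    rw [h5, Nat.zero_add, h6, List.perm_iff_count]
    intro c
    simp only [List.count_append]
    omega
  have key' : ∀ a : ℕ, (gapG n u (some a) v 2).Perm
      (lay n (lev n u.length) (lev n (u.length + 1 + 2)) (some a) ++
        (glayers n 0 u ++ (glayers n (u.length + 1 + 2) v ++
          lay n (lev n (u.length + 1 + v.length + 2)) (lev n 0) none))) := by
    intro a
    rw [gapG, List.perm_iff_count]
    intro c
    simp only [List.count_append]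
    omega
  have v1 : GValid n (u ++ some i :: some (i + 1) :: some i :: v) :=
    hval [some i, some (i + 1), some i] (by simp)
  have v2 : GValid n (u ++ some (i + 1) :: some i :: some (i + 1) :: v) :=
    hval [some (i + 1), some i, some (i + 1)] (by simp)
  have v3 : GValid n (u ++ some i :: v) := hval [some i] (by simp)
  have c1 := gclosure_closed n _ v1
  have c2 := gclosure_closed n _ v2
  have c3 := closed_gap n u (some i) v 2 v3
  have c4 := closed_gap n u (some (i + 1)) v 2 h
  rw [← F_gap hF n u (some i) v 2 v3, ← F_gap hF n u (some (i + 1)) v 2 h,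
    hF.perm _ _ c1 (key _ _ _), hF.perm _ _ c2 (key _ _ _), hF.perm _ _ c3 (key' _),
    hF.perm _ _ c4 (key' _)]
  exact lay_tri hF hi _ _ _ _ _ (closed_perm c1 (key _ _ _)) (closed_perm c2 (key _ _ _))
    (closed_perm c3 (key' _)) (closed_perm c4 (key' _))


end Pool.Agent.Lib.MP_31c440_gt.HV
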