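import Pool.Agent.Lib.MP_31c440_gt.HV.S7a_Layers
import Pool.Agent.Lib.MP_31c440_gt.HV.S3_Pull

/-!
Closed words with one more strand: a free strand is a circle, and a vertex of the last two
strands at the end of a word in the others is a loop.
-/

noncomputable section

namespace Pool.Agent.Lib.MP_31c440_gt.HV

variable {K : Type*} [Field K] {q t : K} {F : List GNode → K}

namespace Mk

theorem closed_perm {G G' : List GNode} (h : Closed G) (hp : G.Perm G') : Closed G' := by
  have h1 : (insG G).Perm (insG G') := hp.flatMap_right _
  have h2 : (outsG G).Perm (outsG G') := hp.flatMap_right _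
  exact ⟨h1.nodup_iff.1 h.1, (h1.symm.trans h.2).trans h2⟩

theorem closed_arcArc {i e o : ℕ} {S : List GNode} (h : Closed (.arc i e :: .arc e o :: S)) :
    Closed (.arc i o :: S) := by
  have h1 : (i :: e :: insG S).Nodup := h.1
  have h2 : (i :: e :: insG S).Perm (e :: o :: outsG S) := h.2
  refine ⟨?_, ?_⟩
  · show (i :: insG S).Nodup
    rw [List.nodup_cons] at h1 ⊢
    refine ⟨fun hi => h1.1 (List.mem_cons_of_mem _ hi), ?_⟩
    have := h1.2
    rw [List.nodup_cons] at this
    exact this.2
  · show (i :: insG S).Perm (o :: outsG S)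
    have h3 : (e :: i :: insG S).Perm (e :: o :: outsG S) := (List.Perm.swap i e _).trans h2
    exact (List.perm_cons e).1 h3

theorem step (hF : IsMOY q t F) {i e o : ℕ} {S : List GNode}
    (h : Closed (.arc i e :: .arc e o :: S)) :
    Closed (.arc i o :: S) ∧ F (.arc i e :: .arc e o :: S) = F (.arc i o :: S) :=
  ⟨closed_arcArc h, hF.arcArc i e o S h⟩

/-- Pairs of consecutive arcs. -/
theorem pairs (hF : IsMOY q t F) (x y z : ℕ → ℕ) : ∀ (js : List ℕ) (S : List GNode),
    Closed ((js.map fun j => GNode.arc (x j) (y j)) ++
      ((js.map fun j => GNode.arc (y j) (z j)) ++ S)) →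
    Closed ((js.map fun j => GNode.arc (x j) (z j)) ++ S) ∧
    F ((js.map fun j => GNode.arc (x j) (y j)) ++
      ((js.map fun j => GNode.arc (y j) (z j)) ++ S)) =
    F ((js.map fun j => GNode.arc (x j) (z j)) ++ S) := by
  intro js
  induction js with
  | nil => intro S h; exact ⟨h, rfl⟩
  | cons j js ih =>
    intro S h
    have p1 : (((j :: js).map fun j => GNode.arc (x j) (y j)) ++
        (((j :: js).map fun j => GNode.arc (y j) (z j)) ++ S)).Perm
        ((js.map fun j => GNode.arc (x j) (y j)) ++ ((js.map fun j => GNode.arc (y j) (z j)) ++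
          (GNode.arc (x j) (y j) :: GNode.arc (y j) (z j) :: S))) := by
      simp only [List.map_cons, List.cons_append]
      rw [← Multiset.coe_eq_coe]
      simp only [← Multiset.cons_coe, ← Multiset.coe_add]
      simp only [← Multiset.singleton_add]
      abel
    have h2 := closed_perm h p1
    obtain ⟨h3, e3⟩ := ih _ h2
    have p2 : ((js.map fun j => GNode.arc (x j) (z j)) ++
        (GNode.arc (x j) (y j) :: GNode.arc (y j) (z j) :: S)).Perm
        (GNode.arc (x j) (y j) :: GNode.arc (y j) (z j) ::
          ((js.map fun j => GNode.arc (x j) (z j)) ++ S)) := by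
      rw [← Multiset.coe_eq_coe]
      simp only [← Multiset.cons_coe, ← Multiset.coe_add]
      simp only [← Multiset.singleton_add]
      abel
    have h4 := closed_perm h3 p2
    obtain ⟨h5, e5⟩ := step hF h4
    refine ⟨h5, ?_⟩
    rw [hF.perm _ _ h p1, e3, hF.perm _ _ h3 p2, e5]
    rfl

/-- The last strand. -/
def strand (N : ℕ) : ℕ → ℕ → List GNode
  | _, 0 => []
  | l, k + 1 => .arc (l * (N + 1) + N) ((l + 1) * (N + 1) + N) :: strand N (l + 1) k

theorem strand_contract (hF : IsMOY q t F) (N i : ℕ) : ∀ (k l : ℕ) (S : List GNode),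
    Closed (.arc i (l * (N + 1) + N) :: (strand N l k ++ S)) →
    Closed (.arc i ((l + k) * (N + 1) + N) :: S) ∧
    F (.arc i (l * (N + 1) + N) :: (strand N l k ++ S)) =
      F (.arc i ((l + k) * (N + 1) + N) :: S) := by
  intro k
  induction k with
  | zero => intro l S h; exact ⟨h, rfl⟩
  | succ k ih =>
    intro l S h
    obtain ⟨h1, e1⟩ := step hF h
    obtain ⟨h2, e2⟩ := ih (l + 1) S h1
    have hk : l + 1 + k = l + (k + 1) := by ring
    rw [hk] at h2 e2
    exact ⟨h2, e1.trans e2⟩

/-- The change of labels. -/
def gl (N : ℕ) (v : ℕ) : ℕ := (v / N) * (N + 1) + v % N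

theorem gl_eq {N l j : ℕ} (hj : j < N) : gl N (l * N + j) = l * (N + 1) + j := by
  have hN : 0 < N := by omega
  unfold gl
  rw [Nat.add_comm (l * N) j, Nat.add_mul_div_right _ _ hN, Nat.add_mul_mod_self_right,
    Nat.div_eq_of_lt hj, Nat.mod_eq_of_lt hj, Nat.zero_add]

theorem gl_small {N j : ℕ} (hj : j < N) : gl N j = j := by
  have := gl_eq (l := 0) hj
  simpa using this

theorem gl_inj (N : ℕ) : Function.Injective (gl N) := by
  intro u v h
  rcases Nat.eq_zero_or_pos N with h0 | hN
  · subst h0
    simpa [gl] using h
  · unfold gl at h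
    have hu : u % N < N + 1 := (Nat.mod_lt u hN).trans (Nat.lt_succ_self N)
    have hv : v % N < N + 1 := (Nat.mod_lt v hN).trans (Nat.lt_succ_self N)
    have h1 : u / N = v / N := by
      have e1 : ((u / N) * (N + 1) + u % N) / (N + 1) = u / N := by
        rw [Nat.add_comm, Nat.add_mul_div_right _ _ (Nat.succ_pos N), Nat.div_eq_of_lt hu,
          Nat.zero_add]
      have e2 : ((v / N) * (N + 1) + v % N) / (N + 1) = v / N := by
        rw [Nat.add_comm, Nat.add_mul_div_right _ _ (Nat.succ_pos N), Nat.div_eq_of_lt hv,
          Nat.zero_add]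
      rw [← e1, ← e2, h]
    have h2 : u % N = v % N := by
      rw [h1] at h
      exact Nat.add_left_cancel h
    rw [← Nat.div_add_mod u N, ← Nat.div_add_mod v N, h1, h2]

/-- valid letters -/
def LValid (n : ℕ) : Option ℕ → Prop
  | none => True
  | some i => i + 1 < n

theorem glayer_succ (N l : ℕ) (x : Option ℕ) (hx : LValid N x) :
    glayer (N + 1) l x = (glayer N l x).map (GNode.map (gl N)) ++
      [.arc (l * (N + 1) + N) ((l + 1) * (N + 1) + N)] := by
  rcases x with _ | i
  · simp only [glayer, List.range_succ, List.map_append, List.map_map, List.map_cons, List.map_nil]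
    congr 1
    refine List.map_congr_left fun j hj => ?_
    have hj := List.mem_range.1 hj
    simp only [Function.comp, GNode.map, gl_eq hj]
  · have hi : i + 1 < N := hx
    have hi0 : i < N := by omega
    simp only [glayer, List.range_succ, List.map_cons, List.filter_append, List.map_append,
      List.map_map, GNode.map, List.cons_append]
    rw [gl_eq hi0, gl_eq hi, gl_eq hi0, gl_eq hi]
    congr 1
    have hN : (List.filter (fun j => decide (j ≠ i ∧ j ≠ i + 1)) [N]) = [N] := by
      rw [List.filter_cons_of_pos]
      · rfl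
      · have : N ≠ i ∧ N ≠ i + 1 := by omega
        simpa using this
    rw [hN]
    congr 1
    refine List.map_congr_left fun j hj => ?_
    have hj := List.mem_range.1 (List.mem_of_mem_filter hj)
    simp only [Function.comp, GNode.map, gl_eq hj]

theorem glayers_succ (N : ℕ) : ∀ (w : List (Option ℕ)) (l : ℕ) (_ : ∀ x ∈ w, LValid N x),
    (glayers (N + 1) l w).Perm
      ((glayers N l w).map (GNode.map (gl N)) ++ strand N l w.length) := by
  intro w
  induction w with
  | nil => intro l _; exact List.Perm.refl _
  | cons x w ih =>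
    intro l h
    have h1 := ih (l + 1) fun y hy => h y (List.mem_cons_of_mem _ hy)
    show (glayer (N + 1) l x ++ glayers (N + 1) (l + 1) w).Perm
      ((glayer N l x ++ glayers N (l + 1) w).map (GNode.map (gl N)) ++
        (.arc (l * (N + 1) + N) ((l + 1) * (N + 1) + N) :: strand N (l + 1) w.length))
    rw [glayer_succ N l x (h x List.mem_cons_self), List.map_append]
    refine (List.Perm.append_left _ h1).trans ?_
    rw [← Multiset.coe_eq_coe]
    simp only [← Multiset.cons_coe, ← Multiset.coe_add]
    simp only [← Multiset.singleton_add, Multiset.coe_nil]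
    abel

theorem glayers_append (n : ℕ) : ∀ (u v : List (Option ℕ)) (l : ℕ),
    glayers n l (u ++ v) = glayers n l u ++ glayers n (l + u.length) v := by
  intro u
  induction u with
  | nil => intro v l; rfl
  | cons x u ih =>
    intro v l
    show glayer n l x ++ glayers n (l + 1) (u ++ v) = _
    rw [ih]
    have : l + 1 + u.length = l + (x :: u).length := by rw [List.length_cons]; ring
    rw [this, ← List.append_assoc]
    rfl

theorem closing_succ (N m : ℕ) :
    ((List.range (N + 1)).map fun j => GNode.arc (m * (N + 1) + j) j) =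
      ((List.range N).map fun j => GNode.arc (m * N + j) j).map (GNode.map (gl N)) ++
        [.arc (m * (N + 1) + N) N] := by
  simp only [List.range_succ, List.map_append, List.map_map, List.map_cons, List.map_nil]
  congr 1
  refine List.map_congr_left fun j hj => ?_
  have hj := List.mem_range.1 hj
  simp only [Function.comp, GNode.map, gl_eq hj, gl_small hj]

theorem lvalid {n : ℕ} {w : List (Option ℕ)} (h : GValid n w) : ∀ x ∈ w, LValid n x := by
  intro x hx
  rcases x with _ | i
  · trivial
  · exact h i hx

end Mk

open Mk

theorem T_circle (hF : IsMOY q t F) (n : ℕ) (w : List (Option ℕ)) (h : GValid n w) :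
    F (gclosure (n + 1) w) = (t - t⁻¹) / (q - q⁻¹) * F (gclosure n w) := by
  have hv : GValid (n + 1) w := fun i hi => (h i hi).trans (Nat.lt_succ_self n)
  have hc := gclosure_closed (n + 1) w hv
  have hc0 := gclosure_closed n w h
  have p : (gclosure (n + 1) w).Perm
      (.arc (w.length * (n + 1) + n) (0 * (n + 1) + n) :: (strand n 0 w.length ++
        (gclosure n w).map (GNode.map (gl n)))) := by
    unfold gclosure
    rw [closing_succ, List.map_append, Nat.zero_mul, Nat.zero_add]
    refine (List.Perm.append_right _ (glayers_succ n w 0 (lvalid h))).trans ?_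
    rw [← Multiset.coe_eq_coe]
    simp only [← Multiset.cons_coe, ← Multiset.coe_add]
    simp only [← Multiset.singleton_add, Multiset.coe_nil]
    abel
  have h1 := closed_perm hc p
  obtain ⟨h2, e2⟩ := strand_contract hF n _ w.length 0 _ h1
  rw [hF.perm _ _ hc p, e2]
  rw [Nat.zero_add] at h2 ⊢
  rw [hF.circle _ _ h2, hF.relabel _ _ (gl_inj n) hc0]

theorem T_markov (hF : IsMOY q t F) (n : ℕ) (w : List (Option ℕ)) (h : GValid (n + 1) w) :
    F (gclosure (n + 2) (w ++ [some n])) =
      (t * q⁻¹ - t⁻¹ * q) / (q - q⁻¹) * F (gclosure (n + 1) w) := by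
  have hv : GValid (n + 2) (w ++ [some n]) := by
    intro i hi
    rcases List.mem_append.1 hi with hi | hi
    · exact (h i hi).trans (Nat.lt_succ_self _)
    · have : some i = some n := by simpa using hi
      have : i = n := by simpa using this
      omega
  have hc := gclosure_closed (n + 2) _ hv
  have hc0 := gclosure_closed (n + 1) w h
  set N := n + 1 with hN
  set m := w.length with hm
  set a := m * (N + 1) + n with ha
  set b := (m + 1) * (N + 1) + n with hb
  set u := m * (N + 1) + N with hu
  set v := (m + 1) * (N + 1) + N with hv'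
  set A := (glayers N 0 w).map (GNode.map (gl N)) with hA
  set X := (List.range n).map fun j => GNode.arc (m * (N + 1) + j) ((m + 1) * (N + 1) + j) with hX
  set Y := (List.range N).map fun j => GNode.arc ((m + 1) * (N + 1) + j) j with hY
  have p : (gclosure (n + 2) (w ++ [some n])).Perm
      (.arc v (0 * (N + 1) + N) :: (strand N 0 m ++ (.vert a u b v :: (X ++ (Y ++ A))))) := by
    unfold gclosure
    have hlen : (w ++ [some n]).length = m + 1 := by rw [List.length_append, hm]; rfl
    rw [hlen, glayers_append, Nat.zero_add]
    have e1 : glayers (n + 2) w.length [some n] = .vert a u b v :: X := by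
      show glayer (n + 2) w.length (some n) ++ [] = _
      rw [List.append_nil]
      show GNode.vert _ _ _ _ :: _ = _
      congr 1
      rw [hX]
      have hf : (List.range (n + 2)).filter (fun j => decide (j ≠ n ∧ j ≠ n + 1)) =
          List.range n := by
        rw [List.range_succ, List.range_succ, List.filter_append, List.filter_append]
        have f1 : (List.filter (fun j => decide (j ≠ n ∧ j ≠ n + 1)) (List.range n)) =
            List.range n := by
          rw [List.filter_eq_self]
          intro j hj
          have hj := List.mem_range.1 hj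
          have : j ≠ n ∧ j ≠ n + 1 := by omega
          simpa using this
        have f2 : (List.filter (fun j => decide (j ≠ n ∧ j ≠ n + 1)) [n]) = [] := by
          simp
        have f3 : (List.filter (fun j => decide (j ≠ n ∧ j ≠ n + 1)) [n + 1]) = [] := by
          simp
        rw [f1, f2, f3, List.append_nil, List.append_nil]
      rw [hf]
    have e2 : ((List.range (n + 2)).map fun j => GNode.arc ((m + 1) * (n + 2) + j) j) =
        Y ++ [.arc v N] := by
      rw [hY, List.range_succ, List.map_append]
      rfl
    rw [e1, e2, Nat.zero_mul, Nat.zero_add]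
    refine (List.Perm.append_right _ (List.Perm.append_right _
      (glayers_succ N w 0 (lvalid h)))).trans ?_
    rw [← Multiset.coe_eq_coe]
    simp only [← Multiset.cons_coe, ← Multiset.coe_add]
    simp only [← Multiset.singleton_add, Multiset.coe_nil]
    abel
  have h1 := closed_perm hc p
  obtain ⟨h2, e2⟩ := strand_contract hF N _ m 0 _ h1
  rw [Nat.zero_add] at h2 e2
  rw [hF.perm _ _ hc p, e2]
  -- bring the vertex to the front and swap
  set Rr := X ++ (Y ++ A) with hR
  have pA : (GNode.arc v u :: .vert a u b v :: Rr).Perm (.vert a u b v :: .arc v u :: Rr) :=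
    List.Perm.swap _ _ _
  have h3 := closed_perm h2 pA
  rw [hF.perm _ _ h2 pA, hF.swapIn _ _ _ _ _ h3]
  have h4 : Closed (.vert u a b v :: .arc v u :: Rr) := by
    refine ⟨?_, ?_⟩
    · have := h3.1
      exact (List.Perm.swap a u _).nodup_iff.2 (show (a :: u :: v :: insG Rr).Nodup from this)
    · have := h3.2
      exact (List.Perm.swap a u _).trans (show (a :: u :: v :: insG Rr).Perm _ from this)
  have pB : (GNode.vert u a b v :: .arc v u :: Rr).Perm (.arc v u :: .vert u a b v :: Rr) :=
    List.Perm.swap _ _ _
  have h5 := closed_perm h4 pB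
  rw [hF.perm _ _ h4 pB, hF.arcVert _ _ _ _ _ _ h5]
  have h6 : Closed (.vert v a b v :: Rr) := by
    have i5 : (v :: u :: a :: insG Rr).Nodup := h5.1
    have o5 : (v :: u :: a :: insG Rr).Perm (u :: b :: v :: outsG Rr) := h5.2
    refine ⟨?_, ?_⟩
    · show (v :: a :: insG Rr).Nodup
      have : (u :: v :: a :: insG Rr).Nodup := (List.Perm.swap u v _).nodup_iff.1 i5
      exact (List.nodup_cons.1 this).2
    · show (v :: a :: insG Rr).Perm (b :: v :: outsG Rr)
      have : (u :: v :: a :: insG Rr).Perm (u :: b :: v :: outsG Rr) :=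
        (List.Perm.swap v u _).trans o5
      exact (List.perm_cons u).1 this
  rw [hF.swapIn _ _ _ _ _ h6]
  have h7 : Closed (.vert a v b v :: Rr) := by
    refine ⟨?_, ?_⟩
    · have := h6.1
      exact (List.Perm.swap v a _).nodup_iff.2 (show (v :: a :: insG Rr).Nodup from this)
    · have := h6.2
      exact (List.Perm.swap v a _).trans (show (v :: a :: insG Rr).Perm _ from this)
  rw [F_loop hF a b v Rr h7]
  congr 1
  have h8 : Closed (.arc a b :: Rr) := by
    have i7 : (a :: v :: insG Rr).Nodup := h7.1
    have o7 : (a :: v :: insG Rr).Perm (b :: v :: outsG Rr) := h7.2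
    refine ⟨?_, ?_⟩
    · show (a :: insG Rr).Nodup
      have : (v :: a :: insG Rr).Nodup := (List.Perm.swap v a _).nodup_iff.1 i7
      exact (List.nodup_cons.1 this).2
    · show (a :: insG Rr).Perm (b :: outsG Rr)
      have : (v :: a :: insG Rr).Perm (v :: b :: outsG Rr) :=
        ((List.Perm.swap a v _).trans o7).trans (List.Perm.swap v b _)
      exact (List.perm_cons v).1 this
  have pC : (GNode.arc a b :: Rr).Perm
      (((List.range N).map fun j => GNode.arc (m * (N + 1) + j) ((m + 1) * (N + 1) + j)) ++
        (((List.range N).map fun j => GNode.arc ((m + 1) * (N + 1) + j) j) ++ A)) := by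
    rw [hR, hX, hY]
    have e3 : ((List.range N).map fun j =>
        GNode.arc (m * (N + 1) + j) ((m + 1) * (N + 1) + j)) =
        ((List.range n).map fun j => GNode.arc (m * (N + 1) + j) ((m + 1) * (N + 1) + j)) ++
          [.arc a b] := by
      conv_lhs => rw [hN, List.range_succ, List.map_append]
      rfl
    rw [e3]
    rw [← Multiset.coe_eq_coe]
    simp only [← Multiset.cons_coe, ← Multiset.coe_add]
    simp only [← Multiset.singleton_add, Multiset.coe_nil]
    abel
  have h9 := closed_perm h8 pC
  obtain ⟨h10, e10⟩ := pairs hF (fun j => m * (N + 1) + j) (fun j => (m + 1) * (N + 1) + j)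
    (fun j => j) _ _ h9
  rw [hF.perm _ _ h8 pC, e10]
  have e4 : ((List.range N).map fun j => GNode.arc (m * (N + 1) + j) j) =
      ((List.range N).map fun j => GNode.arc (m * N + j) j).map (GNode.map (gl N)) := by
    rw [List.map_map]
    refine List.map_congr_left fun j hj => ?_
    have hj := List.mem_range.1 hj
    simp only [Function.comp, GNode.map, gl_eq hj, gl_small hj]
  have pD : (((List.range N).map fun j => GNode.arc (m * (N + 1) + j) j) ++ A).Perm
      ((gclosure N w).map (GNode.map (gl N))) := by
    rw [e4, hA]
    unfold gclosure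
    rw [List.map_append]
    exact List.perm_append_comm
  rw [hF.perm _ _ h10 pD, hF.relabel _ _ (gl_inj N) hc0]

end Pool.Agent.Lib.MP_31c440_gt.HV
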