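import Pool.Agent.Lib.MP_31c440_gt.HV.S7b_Words
import Pool.Agent.Lib.MP_31c440_gt.HV.S7c_Markov

/-!
The state sum of closed braids is a function of HOMFLY type: the expansion of a braid word in
words in the vertices, and the relations of the braid groups.
-/

noncomputable section

namespace Pool.Agent.Lib.MP_31c440_gt.HV

variable {K : Type*} [Field K] {q t : K} {F : List GNode → K}

namespace S7d

/-! ### Validity -/

theorem gvalid_append {n : ℕ} {u v : List (Option ℕ)} :
    GValid n (u ++ v) ↔ GValid n u ∧ GValid n v := by
  constructor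
  · intro h
    exact ⟨fun i hi => h i (List.mem_append_left _ hi), fun i hi => h i (List.mem_append_right _ hi)⟩
  · rintro ⟨h1, h2⟩ i hi
    rcases List.mem_append.1 hi with h | h
    · exact h1 i h
    · exact h2 i h

theorem gvalid_none_cons {n : ℕ} {v : List (Option ℕ)} : GValid n (none :: v) ↔ GValid n v := by
  simp [GValid]

theorem gvalid_some_cons {n i : ℕ} {v : List (Option ℕ)} :
    GValid n (some i :: v) ↔ i + 1 < n ∧ GValid n v := by
  constructor
  · intro h
    exact ⟨h i List.mem_cons_self, fun j hj => h j (List.mem_cons_of_mem _ hj)⟩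
  · rintro ⟨h1, h2⟩ j hj
    rcases List.mem_cons.1 hj with h | h
    · cases h
      exact h1
    · exact h2 j h

theorem gvalid_nil {n : ℕ} : GValid n [] := by
  intro i hi
  simp at hi

open Classical in
/-- The value of a word, extended by zero to the words which are not valid. -/
def T0 (F : List GNode → K) (n : ℕ) (W : List (Option ℕ)) : K :=
  if GValid n W then F (gclosure n W) else 0

theorem T0_of (F : List GNode → K) {n : ℕ} {W : List (Option ℕ)} (h : GValid n W) :
    T0 F n W = F (gclosure n W) := if_pos h

theorem T0_of_not (F : List GNode → K) {n : ℕ} {W : List (Option ℕ)} (h : ¬ GValid n W) :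
    T0 F n W = 0 := if_neg h

theorem T0_none (hF : IsMOY q t F) (n : ℕ) (u v : List (Option ℕ)) :
    T0 F n (u ++ none :: v) = T0 F n (u ++ v) := by
  have e : GValid n (u ++ none :: v) ↔ GValid n (u ++ v) := by
    rw [gvalid_append, gvalid_append, gvalid_none_cons]
  by_cases h : GValid n (u ++ v)
  · rw [T0_of F h, T0_of F (e.2 h), T_none hF n u v h]
  · rw [T0_of_not F h, T0_of_not F (fun h' => h (e.1 h'))]

theorem T0_conj (hF : IsMOY q t F) (n : ℕ) (u v : List (Option ℕ)) :
    T0 F n (u ++ v) = T0 F n (v ++ u) := by
  have e : GValid n (u ++ v) ↔ GValid n (v ++ u) := by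
    rw [gvalid_append, gvalid_append, and_comm]
  by_cases h : GValid n (u ++ v)
  · rw [T0_of F h, T0_of F (e.1 h), T_conj hF n u v h]
  · rw [T0_of_not F h, T0_of_not F (fun h' => h (e.2 h'))]

theorem T0_far (hF : IsMOY q t F) (n : ℕ) (u v : List (Option ℕ)) (i j : ℕ) (hij : i + 2 ≤ j) :
    T0 F n (u ++ some i :: some j :: v) = T0 F n (u ++ some j :: some i :: v) := by
  have e : GValid n (u ++ some i :: some j :: v) ↔ GValid n (u ++ some j :: some i :: v) := by
    simp only [gvalid_append, gvalid_some_cons]
    tauto
  by_cases h : GValid n (u ++ some i :: some j :: v)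
  · rw [T0_of F h, T0_of F (e.1 h), T_far hF n u v i j hij h]
  · rw [T0_of_not F h, T0_of_not F (fun h' => h (e.2 h'))]

theorem T0_digon (hF : IsMOY q t F) (n : ℕ) (u v : List (Option ℕ)) (i : ℕ) :
    T0 F n (u ++ some i :: some i :: v) = (q + q⁻¹) * T0 F n (u ++ some i :: v) := by
  have e : GValid n (u ++ some i :: some i :: v) ↔ GValid n (u ++ some i :: v) := by
    simp only [gvalid_append, gvalid_some_cons]
    tauto
  by_cases h : GValid n (u ++ some i :: v)
  · rw [T0_of F h, T0_of F (e.2 h), T_digon hF n u v i h]
  · rw [T0_of_not F h, T0_of_not F (fun h' => h (e.1 h')), mul_zero]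

theorem T0_tri (hF : IsMOY q t F) (n : ℕ) (u v : List (Option ℕ)) (i : ℕ) (hi : i + 2 < n) :
    T0 F n (u ++ some i :: some (i + 1) :: some i :: v) - T0 F n (u ++ some i :: v) =
      T0 F n (u ++ some (i + 1) :: some i :: some (i + 1) :: v) -
        T0 F n (u ++ some (i + 1) :: v) := by
  have h1 : i + 1 < n := by omega
  have h2 : i + 1 + 1 < n := by omega
  by_cases h : GValid n (u ++ v)
  · obtain ⟨hu, hv⟩ := gvalid_append.1 h
    rw [T0_of F, T0_of F, T0_of F, T0_of F]
    · refine T_tri hF n u v i ?_
      simp only [gvalid_append, gvalid_some_cons]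
      exact ⟨hu, h2, hv⟩
    all_goals
      simp only [gvalid_append, gvalid_some_cons]
      tauto
  · have h' : ¬ (GValid n u ∧ GValid n v) := fun h' => h (gvalid_append.2 h')
    rw [T0_of_not F, T0_of_not F, T0_of_not F, T0_of_not F]
    all_goals
      simp only [gvalid_append, gvalid_some_cons]
      tauto

/-! ### The expansion -/

theorem PhiW_append (T : List (Option ℕ) → K) (u v : BraidWord) (W : List (Option ℕ)) :
    PhiW q t T (u ++ v) W = PhiW q t (fun W' => PhiW q t T v W') u W := by
  induction u generalizing W with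
  | nil => rfl
  | cons x u ih =>
    obtain ⟨i, s⟩ := x
    simp only [List.cons_append, PhiW]
    rw [ih, ih]

theorem PhiW_congr {n : ℕ} {T T' : List (Option ℕ) → K} (h : ∀ W, GValid n W → T W = T' W)
    {w : BraidWord} (hw : ValidWord n w) {W : List (Option ℕ)} (hW : GValid n W) :
    PhiW q t T w W = PhiW q t T' w W := by
  induction w generalizing W with
  | nil => exact h W hW
  | cons x w ih =>
    obtain ⟨i, s⟩ := x
    have hi : i + 1 < n := hw (i, s) List.mem_cons_self
    have hw' : ValidWord n w := fun y hy => hw y (List.mem_cons_of_mem _ hy)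
    simp only [PhiW]
    rw [ih hw' (gvalid_append.2 ⟨hW, gvalid_none_cons.2 gvalid_nil⟩),
      ih hw' (gvalid_append.2 ⟨hW, gvalid_some_cons.2 ⟨hi, gvalid_nil⟩⟩)]

theorem PhiW_congr' {T T' : List (Option ℕ) → K} (h : ∀ W, T W = T' W)
    (w : BraidWord) (W : List (Option ℕ)) : PhiW q t T w W = PhiW q t T' w W := by
  rw [show T = T' from funext h]

theorem PhiW_prefix (T : List (Option ℕ) → K) (w : BraidWord) (U V : List (Option ℕ)) :
    PhiW q t T w (U ++ V) = PhiW q t (fun V' => T (U ++ V')) w V := by
  induction w generalizing V with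
  | nil => rfl
  | cons x w ih =>
    obtain ⟨i, s⟩ := x
    simp only [PhiW]
    rw [List.append_assoc, List.append_assoc, ih, ih]

theorem PhiW_lin (T T' : List (Option ℕ) → K) (c c' : K) (w : BraidWord)
    (W : List (Option ℕ)) :
    PhiW q t (fun V => c * T V - c' * T' V) w W =
      c * PhiW q t T w W - c' * PhiW q t T' w W := by
  induction w generalizing W with
  | nil => rfl
  | cons x w ih =>
    obtain ⟨i, s⟩ := x
    simp only [PhiW]
    rw [ih, ih]
    ring

theorem PhiW_mul (T : List (Option ℕ) → K) (c : K) (w : BraidWord)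
    (W : List (Option ℕ)) :
    PhiW q t (fun V => c * T V) w W = c * PhiW q t T w W := by
  induction w generalizing W with
  | nil => rfl
  | cons x w ih =>
    obtain ⟨i, s⟩ := x
    simp only [PhiW]
    rw [ih, ih]
    ring

theorem PhiW_swap (f : List (Option ℕ) → List (Option ℕ) → K) (u v : BraidWord)
    (U V : List (Option ℕ)) :
    PhiW q t (fun U' => PhiW q t (fun V' => f U' V') v V) u U =
      PhiW q t (fun V' => PhiW q t (fun U' => f U' V') u U) v V := by
  induction u generalizing U with
  | nil => rfl
  | cons x u ih =>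
    obtain ⟨i, s⟩ := x
    simp only [PhiW]
    rw [ih, ih, PhiW_mul]
    congr 1
    rw [← PhiW_mul]
    have h := PhiW_lin (q := q) (t := t)
      (fun V' => (if s then q else q⁻¹) * PhiW q t (fun U' => f U' V') u (U ++ [none]))
      (fun V' => PhiW q t (fun U' => f U' V') u (U ++ [some i])) 1 1 v V
    simp only [one_mul] at h
    exact h.symm

theorem PhiW_local (T : List (Option ℕ) → K) (Γ : List (K × List (Option ℕ)))
    (hΓ : ∀ V, (Γ.map fun x => x.1 * T (x.2 ++ V)).sum = 0) (w : BraidWord) :
    (Γ.map fun x => x.1 * PhiW q t T w x.2).sum = 0 := by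
  induction w generalizing Γ with
  | nil =>
    have h := hΓ []
    simpa only [List.append_nil, PhiW] using h
  | cons y w ih =>
    obtain ⟨i, s⟩ := y
    have key : ∀ b : Option ℕ, (Γ.map fun x => x.1 * PhiW q t T w (x.2 ++ [b])).sum = 0 := by
      intro b
      have h := ih (Γ.map fun x => (x.1, x.2 ++ [b])) (by
        intro V
        have h := hΓ (b :: V)
        rw [List.map_map]
        rw [← h]
        congr 1
        refine List.map_congr_left fun x _ => ?_
        simp)
      rw [List.map_map] at h
      exact h
    have e : (Γ.map fun x => x.1 * PhiW q t T ((i, s) :: w) x.2).sum =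
        (if s then t⁻¹ else t) * ((if s then q else q⁻¹) *
          (Γ.map fun x => x.1 * PhiW q t T w (x.2 ++ [none])).sum -
            (Γ.map fun x => x.1 * PhiW q t T w (x.2 ++ [some i])).sum) := by
      clear hΓ key ih
      induction Γ with
      | nil => simp
      | cons x Γ ih =>
        simp only [List.map_cons, List.sum_cons]
        rw [ih]
        simp only [PhiW]
        ring
    rw [e, key, key]
    ring

/-! ### The relations of the braid groups -/

theorem PhiW_inv (hF : IsMOY q t F) (hq : q ≠ 0) (ht : t ≠ 0) (n : ℕ) (v : BraidWord)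
    (i : ℕ) (s : Bool) (W : List (Option ℕ)) :
    PhiW q t (T0 F n) ((i, s) :: (i, !s) :: v) W = PhiW q t (T0 F n) v W := by
  have h := PhiW_local (q := q) (t := t) (T0 F n)
    [(1, W ++ [none] ++ [none]), (-(if s then q else q⁻¹), W ++ [none] ++ [some i]),
      (-(if !s then q else q⁻¹), W ++ [some i] ++ [none]), (1, W ++ [some i] ++ [some i]),
      (-1, W)] (by
      intro V
      simp only [List.map_cons, List.map_nil, List.sum_cons, List.sum_nil, List.append_assoc,
        List.cons_append, List.nil_append, T0_none hF, T0_digon hF]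
      rw [show W ++ some i :: none :: V = (W ++ [some i]) ++ none :: V by simp, T0_none hF,
        show (W ++ [some i]) ++ V = W ++ some i :: V by simp]
      cases s <;> simp <;> ring) v
  simp only [List.map_cons, List.map_nil, List.sum_cons, List.sum_nil] at h
  simp only [PhiW]
  cases s <;> simp only [Bool.not_true, Bool.not_false, if_true, if_false, Bool.false_eq_true] at h ⊢
  · field_simp at h ⊢
    linear_combination h
  · field_simp at h ⊢
    linear_combination h

theorem PhiW_far (hF : IsMOY q t F) (n : ℕ) (v : BraidWord)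
    (i j : ℕ) (hij : i + 2 ≤ j) (s r : Bool) (W : List (Option ℕ)) :
    PhiW q t (T0 F n) ((i, s) :: (j, r) :: v) W = PhiW q t (T0 F n) ((j, r) :: (i, s) :: v) W := by
  have h1 := PhiW_local (q := q) (t := t) (T0 F n)
    [(1, W ++ [none] ++ [some j]), (-1, W ++ [some j] ++ [none])] (by
      intro V
      simp only [List.map_cons, List.map_nil, List.sum_cons, List.sum_nil, List.append_assoc,
        List.cons_append, List.nil_append, T0_none hF]
      rw [show W ++ some j :: none :: V = (W ++ [some j]) ++ none :: V by simp, T0_none hF,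
        show (W ++ [some j]) ++ V = W ++ some j :: V by simp]
      ring) v
  have h2 := PhiW_local (q := q) (t := t) (T0 F n)
    [(1, W ++ [none] ++ [some i]), (-1, W ++ [some i] ++ [none])] (by
      intro V
      simp only [List.map_cons, List.map_nil, List.sum_cons, List.sum_nil, List.append_assoc,
        List.cons_append, List.nil_append, T0_none hF]
      rw [show W ++ some i :: none :: V = (W ++ [some i]) ++ none :: V by simp, T0_none hF,
        show (W ++ [some i]) ++ V = W ++ some i :: V by simp]
      ring) v
  have h3 := PhiW_local (q := q) (t := t) (T0 F n)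
    [(1, W ++ [some i] ++ [some j]), (-1, W ++ [some j] ++ [some i])] (by
      intro V
      simp only [List.map_cons, List.map_nil, List.sum_cons, List.sum_nil, List.append_assoc,
        List.cons_append, List.nil_append, T0_far hF n W V i j hij]
      ring) v
  simp only [List.map_cons, List.map_nil, List.sum_cons, List.sum_nil] at h1 h2 h3
  simp only [PhiW]
  linear_combination (if s then t⁻¹ else t) * (if r then t⁻¹ else t) *
    (-(if s then q else q⁻¹) * h1 + (if r then q else q⁻¹) * h2 + h3)

theorem PhiW_braid (hF : IsMOY q t F) (hq : q ≠ 0) (n : ℕ) (v : BraidWord)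
    (i : ℕ) (hi : i + 2 < n) (W : List (Option ℕ)) :
    PhiW q t (T0 F n) ((i, true) :: (i + 1, true) :: (i, true) :: v) W =
      PhiW q t (T0 F n) ((i + 1, true) :: (i, true) :: (i + 1, true) :: v) W := by
  have h := PhiW_local (q := q) (t := t) (T0 F n)
    [(-q ^ 2, W ++ [none] ++ [none] ++ [some i]), (-q ^ 2, W ++ [none] ++ [some (i + 1)] ++ [none]),
      (-q ^ 2, W ++ [some i] ++ [none] ++ [none]), (q, W ++ [none] ++ [some (i + 1)] ++ [some i]),
      (q, W ++ [some i] ++ [none] ++ [some i]), (q, W ++ [some i] ++ [some (i + 1)] ++ [none]),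
      (-1, W ++ [some i] ++ [some (i + 1)] ++ [some i]),
      (q ^ 2, W ++ [none] ++ [none] ++ [some (i + 1)]), (q ^ 2, W ++ [none] ++ [some i] ++ [none]),
      (q ^ 2, W ++ [some (i + 1)] ++ [none] ++ [none]),
      (-q, W ++ [none] ++ [some i] ++ [some (i + 1)]),
      (-q, W ++ [some (i + 1)] ++ [none] ++ [some (i + 1)]),
      (-q, W ++ [some (i + 1)] ++ [some i] ++ [none]),
      (1, W ++ [some (i + 1)] ++ [some i] ++ [some (i + 1)])] (by
      intro V
      have e1 : ∀ (a : ℕ), T0 F n (W ++ some a :: none :: none :: V) =
          T0 F n (W ++ some a :: V) := by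
        intro a
        rw [show W ++ some a :: none :: none :: V = (W ++ [some a]) ++ none :: none :: V by simp,
          T0_none hF, T0_none hF, show (W ++ [some a]) ++ V = W ++ some a :: V by simp]
      have e2 : ∀ (a : ℕ), T0 F n (W ++ some a :: none :: V) =
          T0 F n (W ++ some a :: V) := by
        intro a
        rw [show W ++ some a :: none :: V = (W ++ [some a]) ++ none :: V by simp,
          T0_none hF, show (W ++ [some a]) ++ V = W ++ some a :: V by simp]
      have e3 : ∀ (a b : ℕ), T0 F n (W ++ some a :: none :: some b :: V) =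
          T0 F n (W ++ some a :: some b :: V) := by
        intro a b
        rw [show W ++ some a :: none :: some b :: V = (W ++ [some a]) ++ none :: some b :: V by
          simp, T0_none hF, show (W ++ [some a]) ++ some b :: V = W ++ some a :: some b :: V by
          simp]
      have e4 : ∀ (a b : ℕ), T0 F n (W ++ some a :: some b :: none :: V) =
          T0 F n (W ++ some a :: some b :: V) := by
        intro a b
        rw [show W ++ some a :: some b :: none :: V = (W ++ [some a, some b]) ++ none :: V by
          simp, T0_none hF, show (W ++ [some a, some b]) ++ V = W ++ some a :: some b :: V by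
          simp]
      simp only [List.map_cons, List.map_nil, List.sum_cons, List.sum_nil, List.append_assoc,
        List.cons_append, List.nil_append, T0_none hF, e1, e2, e3, e4, T0_digon hF]
      have h := T0_tri hF n W V i hi
      field_simp
      linear_combination -h) v
  simp only [List.map_cons, List.map_nil, List.sum_cons, List.sum_nil] at h
  simp only [PhiW, if_true]
  linear_combination t⁻¹ ^ 3 * h

theorem PhiW_skein (hF : IsMOY q t F) (ht : t ≠ 0) (n : ℕ) (v : BraidWord)
    (i : ℕ) (W : List (Option ℕ)) :
    t * PhiW q t (T0 F n) ((i, true) :: v) W - t⁻¹ * PhiW q t (T0 F n) ((i, false) :: v) W =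
      (q - q⁻¹) * PhiW q t (T0 F n) v W := by
  have h := PhiW_local (q := q) (t := t) (T0 F n) [(1, W ++ [none]), (-1, W)] (by
      intro V
      simp only [List.map_cons, List.map_nil, List.sum_cons, List.sum_nil, List.append_assoc,
        List.cons_append, List.nil_append, T0_none hF]
      ring) v
  simp only [List.map_cons, List.map_nil, List.sum_cons, List.sum_nil] at h
  simp only [PhiW, if_true, if_false, Bool.false_eq_true]
  have h1 : t * t⁻¹ = 1 := mul_inv_cancel₀ ht
  linear_combination (q - q⁻¹) * h + (q * PhiW q t (T0 F n) v (W ++ [none]) -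
    q⁻¹ * PhiW q t (T0 F n) v (W ++ [none])) * h1

theorem PhiW_conj (hF : IsMOY q t F) (n : ℕ) (u v : BraidWord) :
    PhiW q t (T0 F n) (u ++ v) [] = PhiW q t (T0 F n) (v ++ u) [] := by
  have h : ∀ u v : BraidWord, PhiW q t (T0 F n) (u ++ v) [] =
      PhiW q t (fun U => PhiW q t (fun V => T0 F n (U ++ V)) v []) u [] := by
    intro u v
    rw [PhiW_append]
    refine PhiW_congr' (fun U => ?_) u []
    have := PhiW_prefix (q := q) (t := t) (T0 F n) v U []
    rwa [List.append_nil] at this
  rw [h u v, h v u, PhiW_swap]
  refine PhiW_congr' (fun V => ?_) v []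
  refine PhiW_congr' (fun U => ?_) u []
  exact T0_conj hF n U V

theorem Phi_closure' (hF : IsMOY q t F) (n : ℕ) (w : BraidWord) (h : ValidWord n w) :
    Phi q t F (closure n w) [] = PhiW q t (T0 F n) w [] := by
  rw [Phi_closure hF n w h]
  exact PhiW_congr (fun W hW => (T0_of F hW).symm) h gvalid_nil

theorem PhiW_markov (hF : IsMOY q t F) (hq : q ≠ 0) (ht : t ≠ 0) (hz : q - q⁻¹ ≠ 0) (n : ℕ)
    (w : BraidWord) (s : Bool) (hw : ValidWord (n + 1) w) :
    PhiW q t (T0 F (n + 2)) (w ++ [(n, s)]) [] = PhiW q t (T0 F (n + 1)) w [] := by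
  rw [PhiW_append]
  refine PhiW_congr (n := n + 1) (fun W hW => ?_) hw gvalid_nil
  have hW2 : GValid (n + 2) W := fun i hi => by
    have := hW i hi
    omega
  simp only [PhiW]
  rw [T0_none hF, List.append_nil, T0_of F hW2, T0_of F hW, T_circle hF (n + 1) W hW,
    T0_of F (gvalid_append.2 ⟨hW2, gvalid_some_cons.2 ⟨by omega, gvalid_nil⟩⟩),
    T_markov hF n W hW]
  have hq2 : q ^ 2 - 1 ≠ 0 := by
    intro h0
    apply hz
    field_simp
    simpa using h0
  cases s
  · simp only [if_false, Bool.false_eq_true]
    field_simp
    ring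
  · simp only [if_true]
    field_simp
    ring

theorem validWord_append {n : ℕ} {u v : BraidWord} :
    ValidWord n (u ++ v) ↔ ValidWord n u ∧ ValidWord n v := by
  constructor
  · intro h
    exact ⟨fun i hi => h i (List.mem_append_left _ hi), fun i hi => h i (List.mem_append_right _ hi)⟩
  · rintro ⟨h1, h2⟩ i hi
    rcases List.mem_append.1 hi with h | h
    · exact h1 i h
    · exact h2 i h

theorem validWord_cons {n : ℕ} {x : ℕ × Bool} {v : BraidWord} :
    ValidWord n (x :: v) ↔ x.1 + 1 < n ∧ ValidWord n v := by
  simp [ValidWord]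

end S7d

open S7d in
theorem isHomfly_Phi (hF : IsMOY q t F) (hq : q ≠ 0) (ht : t ≠ 0) (hz : q - q⁻¹ ≠ 0)
    (hd : t - t⁻¹ ≠ 0) (a z : Kˣ) (ha : (a : K) = t⁻¹) (hz' : (z : K) = q - q⁻¹) :
    IsHomfly a z fun n w => Phi q t F (closure n w) [] / ((t - t⁻¹) / (q - q⁻¹)) where
  one := by
    have h1 : closure 1 [] = [Node.arc 0 0] := rfl
    have h2 : Phi q t F (closure 1 []) [] = (t - t⁻¹) / (q - q⁻¹) := by
      rw [h1]
      simp only [Phi]
      rw [hF.circle 0 [] (by simp [Closed, insG, outsG, GNode.ins, GNode.outs]), hF.empty, mul_one]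
    simp only [h2]
    exact div_self (div_ne_zero hd hz)
  conj n u v h := by
    have h' : ValidWord n (v ++ u) := validWord_append.2 (validWord_append.1 h).symm
    simp only [Phi_closure' hF n _ h, Phi_closure' hF n _ h']
    rw [PhiW_conj hF]
  inv n u v i s h := by
    have h' : ValidWord n (u ++ v) := by
      simp only [validWord_append, validWord_cons] at h ⊢
      tauto
    simp only [Phi_closure' hF n _ h, Phi_closure' hF n _ h']
    rw [PhiW_append, PhiW_append]
    congr 1
    exact PhiW_congr' (fun W => PhiW_inv hF hq ht n v i s W) u []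
  far n u v i j s r hij h := by
    have h' : ValidWord n (u ++ (j, r) :: (i, s) :: v) := by
      simp only [validWord_append, validWord_cons] at h ⊢
      tauto
    simp only [Phi_closure' hF n _ h, Phi_closure' hF n _ h']
    rw [PhiW_append, PhiW_append]
    congr 1
    exact PhiW_congr' (fun W => PhiW_far hF n v i j hij s r W) u []
  braid n u v i h := by
    have h' : ValidWord n (u ++ (i + 1, true) :: (i, true) :: (i + 1, true) :: v) := by
      simp only [validWord_append, validWord_cons] at h ⊢
      tauto
    have hi : i + 2 < n := by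
      simp only [validWord_append, validWord_cons] at h
      omega
    simp only [Phi_closure' hF n _ h, Phi_closure' hF n _ h']
    rw [PhiW_append, PhiW_append]
    congr 1
    exact PhiW_congr' (fun W => PhiW_braid hF hq n v i hi W) u []
  markov n w s h := by
    have h' : ValidWord (n + 2) (w ++ [(n, s)]) := by
      rw [validWord_append]
      refine ⟨fun x hx => ?_, ?_⟩
      · have := h x hx
        omega
      · intro x hx
        simp only [List.mem_singleton] at hx
        subst hx
        change n + 1 < n + 2
        omega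
    simp only [Phi_closure' hF _ _ h, Phi_closure' hF _ _ h']
    rw [PhiW_markov hF hq ht hz n w s h]
  skein n u v i h := by
    have h' : ValidWord n (u ++ (i, false) :: v) := by
      simp only [validWord_append, validWord_cons] at h ⊢
      tauto
    have h'' : ValidWord n (u ++ v) := by
      simp only [validWord_append, validWord_cons] at h ⊢
      tauto
    simp only [Phi_closure' hF _ _ h, Phi_closure' hF _ _ h', Phi_closure' hF _ _ h'']
    have hinv : ((a⁻¹ : Kˣ) : K) = t := by
      rw [Units.val_inv_eq_inv_val, ha, inv_inv]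
    rw [hinv, ha, hz', PhiW_append, PhiW_append, PhiW_append]
    have key : t * PhiW q t (fun W => PhiW q t (T0 F n) ((i, true) :: v) W) u [] -
        t⁻¹ * PhiW q t (fun W => PhiW q t (T0 F n) ((i, false) :: v) W) u [] =
        (q - q⁻¹) * PhiW q t (fun W => PhiW q t (T0 F n) v W) u [] := by
      rw [← PhiW_lin, ← PhiW_mul]
      exact PhiW_congr' (fun W => PhiW_skein hF ht n v i W) u []
    rw [← mul_div_assoc, ← mul_div_assoc, ← mul_div_assoc, ← sub_div, key]

end Pool.Agent.Lib.MP_31c440_gt.HV
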