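import Pool.Agent.Lib.MP_31c440_gt.HV.Defs

/-!
Uniqueness of functions of HOMFLY type: their values on closed braids are given by universal
polynomials.
-/

noncomputable section

namespace Pool.Agent.Lib.MP_31c440_gt.HV

namespace S8

/-- A letter of a braid word: the position of the crossing and its sign. -/
abbrev Letter : Type := ℕ × Bool

/-- All letters of the word `w` are generators of the braid group on `m + 1` strands
(`σ_0, …, σ_{m-1}`). -/
def Below (m : ℕ) (w : List Letter) : Prop := ∀ l ∈ w, l.1 < m

theorem valid_iff {m : ℕ} {w : List Letter} : ValidWord (m + 1) w ↔ Below m w := by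
  simp only [ValidWord, Below]
  exact forall₂_congr fun x _ => by omega

/-- Words which reduce to `base` by relations and skein relations, inside words with letters
below `m`. -/
inductive Span (m : ℕ) (base : List Letter → Prop) : List Letter → Prop
  | base {w} : base w → Span m base w
  | cancel {u v i s} : i < m → Below m (u ++ v) → Span m base (u ++ v) →
      Span m base (u ++ (i, s) :: (i, !s) :: v)
  | far {u v i j s t} : i < m → j < m → i + 1 < j ∨ j + 1 < i → Below m (u ++ v) →
      Span m base (u ++ (j, t) :: (i, s) :: v) → Span m base (u ++ (i, s) :: (j, t) :: v)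
  | braid {u v i} : i + 1 < m → Below m (u ++ v) →
      Span m base (u ++ (i, true) :: (i + 1, true) :: (i, true) :: v) →
      Span m base (u ++ (i + 1, true) :: (i, true) :: (i + 1, true) :: v)
  | skein {u v i s} : i < m → Below m (u ++ v) → Span m base (u ++ v) →
      Span m base (u ++ (i, !s) :: v) → Span m base (u ++ (i, s) :: v)

theorem below_append {m : ℕ} {u v : List Letter} : Below m (u ++ v) ↔ Below m u ∧ Below m v := by
  simp only [Below, List.mem_append, or_imp, forall_and]

theorem below_cons {m : ℕ} {l : Letter} {v : List Letter} :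
    Below m (l :: v) ↔ l.1 < m ∧ Below m v := by
  simp [Below]

theorem below_nil {m : ℕ} : Below m [] := by simp [Below]

theorem Below.mono {m m' : ℕ} {u : List Letter} (h : Below m u) (hm : m ≤ m') : Below m' u :=
  fun l hl => lt_of_lt_of_le (h l hl) hm

theorem Span.trans {m : ℕ} {b c : List Letter → Prop} (h : ∀ w, b w → Span m c w) :
    ∀ {w}, Span m b w → Span m c w := by
  intro w hw
  induction hw with
  | base hb => exact h _ hb
  | cancel h1 h2 _ ih => exact .cancel h1 h2 ih
  | far h1 h2 h3 h4 _ ih => exact .far h1 h2 h3 h4 ih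
  | braid h1 h2 _ ih => exact .braid h1 h2 ih
  | skein h1 h2 _ _ ih1 ih2 => exact .skein h1 h2 ih1 ih2

theorem Span.context {m m' : ℕ} (hm : m ≤ m') {b : List Letter → Prop} {p q : List Letter}
    (hp : Below m' p) (hq : Below m' q) : ∀ {w}, Span m b w →
    Span m' (fun x => ∃ y, b y ∧ x = p ++ y ++ q) (p ++ w ++ q) := by
  intro w hw
  have aux : ∀ {u v : List Letter}, Below m (u ++ v) → Below m' ((p ++ u) ++ (v ++ q)) := by
    intro u v h
    rw [below_append] at h
    simp only [below_append]
    exact ⟨⟨hp, h.1.mono hm⟩, h.2.mono hm, hq⟩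
  induction hw with
  | base hb => exact .base ⟨_, hb, rfl⟩
  | @cancel u v i s h1 h2 _ ih =>
    have := Span.cancel (base := fun x => ∃ y, b y ∧ x = p ++ y ++ q) (u := p ++ u) (v := v ++ q)
      (i := i) (s := s) (lt_of_lt_of_le h1 hm) (aux h2) (by simpa using ih)
    simpa using this
  | @far u v i j s t h1 h2 h3 h4 _ ih =>
    have := Span.far (base := fun x => ∃ y, b y ∧ x = p ++ y ++ q) (u := p ++ u) (v := v ++ q)
      (i := i) (j := j) (s := s) (t := t) (lt_of_lt_of_le h1 hm) (lt_of_lt_of_le h2 hm) h3 (aux h4)
      (by simpa using ih)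
    simpa using this
  | @braid u v i h1 h2 _ ih =>
    have := Span.braid (base := fun x => ∃ y, b y ∧ x = p ++ y ++ q) (u := p ++ u) (v := v ++ q)
      (i := i) (lt_of_lt_of_le h1 hm) (aux h2) (by simpa using ih)
    simpa using this
  | @skein u v i s h1 h2 _ _ ih1 ih2 =>
    have := Span.skein (base := fun x => ∃ y, b y ∧ x = p ++ y ++ q) (u := p ++ u) (v := v ++ q)
      (i := i) (s := s) (lt_of_lt_of_le h1 hm) (aux h2) (by simpa using ih1) (by simpa using ih2)
    simpa using this

/-- A block of letters far from `m` passes the letter `m`. -/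
theorem Span.pass {m : ℕ} {b : List Letter → Prop} {k : ℕ} {s : Bool} (hk : k < m) :
    ∀ (c u v : List Letter), (∀ l ∈ c, l.1 + 1 < k) → Below m u → Below m v →
    Span m b (u ++ c ++ (k, s) :: v) → Span m b (u ++ (k, s) :: (c ++ v)) := by
  intro c
  induction c with
  | nil => intro u v _ _ _ h; simpa using h
  | cons l c ih =>
    intro u v hc hu hv h
    obtain ⟨i, t⟩ := l
    have hi : i + 1 < k := hc (i, t) (by simp)
    have hc' : ∀ l ∈ c, l.1 + 1 < k := fun l hl => hc l (by simp [hl])
    have hcm : Below m c := fun l hl => by have := hc' l hl; omega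
    have h1 : Span m b ((u ++ [(i, t)]) ++ (k, s) :: (c ++ v)) := by
      apply ih (u ++ [(i, t)]) v hc' _ hv (by simpa using h)
      rw [below_append]
      exact ⟨hu, by simp [Below]; omega⟩
    have h2 := Span.far (base := b) (u := u) (v := c ++ v) (i := k) (j := i) (s := s) (t := t) hk
      (by omega) (Or.inr hi) (by simp only [below_append]; exact ⟨hu, hcm, hv⟩) (by simpa using h1)
    simpa using h2

theorem Span.passLeft {m : ℕ} {b : List Letter → Prop} {k : ℕ} {s : Bool} (hk : k < m) :
    ∀ (c u v : List Letter), (∀ l ∈ c, l.1 + 1 < k) → Below m u → Below m v →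
    Span m b (u ++ (k, s) :: (c ++ v)) → Span m b (u ++ c ++ (k, s) :: v) := by
  intro c
  induction c using List.reverseRecOn with
  | nil => intro u v _ _ _ h; simpa using h
  | append_singleton c l ih =>
    intro u v hc hu hv h
    obtain ⟨i, t⟩ := l
    have hi : i + 1 < k := hc (i, t) (by simp)
    have hc' : ∀ l ∈ c, l.1 + 1 < k := fun l hl => hc l (by simp [hl])
    have hcm : Below m c := fun l hl => by have := hc' l hl; omega
    have h1 : Span m b (u ++ c ++ (k, s) :: ((i, t) :: v)) := by
      apply ih u ((i, t) :: v) hc' hu _ (by simpa using h)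
      rw [below_cons]
      exact ⟨by simp only; omega, hv⟩
    have h2 := Span.far (base := b) (u := u ++ c) (v := v) (i := i) (j := k) (s := t) (t := s)
      (by omega) hk (Or.inl hi) (by simp only [below_append]; exact ⟨⟨hu, hcm⟩, hv⟩)
      (by simpa using h1)
    simpa using h2

/-- Words with at most one occurrence of the highest generator. -/
def Base : ℕ → List Letter → Prop
  | 0, w => Below 0 w
  | m + 1, w => Below m w ∨ ∃ u s v, Below m u ∧ Below m v ∧ w = u ++ (m, s) :: v

/-- Number of occurrences of the generator `m` (or its inverse). -/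
def cnt (m : ℕ) (w : List Letter) : ℕ := w.countP (fun l => l.1 = m)

theorem cnt_append (m : ℕ) (u v : List Letter) : cnt m (u ++ v) = cnt m u + cnt m v := by
  simp [cnt, List.countP_append]

theorem cnt_cons (m : ℕ) (l : Letter) (v : List Letter) :
    cnt m (l :: v) = cnt m v + if l.1 = m then 1 else 0 := by
  simp [cnt, List.countP_cons]

theorem cnt_of_below {m : ℕ} {u : List Letter} (h : Below m u) : cnt m u = 0 := by
  rw [cnt, List.countP_eq_zero]
  intro l hl
  have := h l hl
  simp only [decide_eq_true_eq]
  omega

theorem exists_first {m : ℕ} : ∀ {w : List Letter}, Below (m + 1) w → ¬ Below m w →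
    ∃ p s r, Below m p ∧ Below (m + 1) r ∧ w = p ++ (m, s) :: r := by
  intro w
  induction w with
  | nil => intro _ h; exact absurd below_nil h
  | cons l w ih =>
    intro h1 h2
    rw [below_cons] at h1 h2
    by_cases hl : l.1 < m
    · have : ¬ Below m w := fun h => h2 ⟨hl, h⟩
      obtain ⟨p, s, r, hp, hr, rfl⟩ := ih h1.2 this
      exact ⟨l :: p, s, r, below_cons.2 ⟨hl, hp⟩, hr, rfl⟩
    · refine ⟨[], l.2, w, below_nil, h1.2, ?_⟩
      have : l.1 = m := by omega
      rw [← this]
      rfl

section reduce

variable {m : ℕ} {b : List Letter → Prop}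

theorem Span.two {p q : List Letter} {s t : Bool} (hp : Below (m + 1) p) (hq : Below (m + 1) q)
    (IH : ∀ w, Below (m + 1) w → cnt m w < cnt m p + cnt m q + 2 → Span (m + 1) b w) :
    Span (m + 1) b (p ++ (m, s) :: (m, t) :: q) := by
  have hc : ∀ s : Bool, Span (m + 1) b (p ++ (m, s) :: (m, !s) :: q) := by
    intro s
    apply Span.cancel (by omega) (below_append.2 ⟨hp, hq⟩)
    exact IH _ (below_append.2 ⟨hp, hq⟩) (by rw [cnt_append]; omega)
  by_cases hst : t = !s
  · subst hst; exact hc s
  · have hst' : t = s := by cases s <;> cases t <;> simp_all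
    subst hst'
    have h1 : Below (m + 1) (p ++ [(m, t)]) := by
      rw [below_append, below_cons]
      exact ⟨hp, by simp only; omega, below_nil⟩
    have := Span.skein (base := b) (u := p ++ [(m, t)]) (v := q) (i := m) (s := t) (by omega)
      (below_append.2 ⟨h1, hq⟩)
      (IH _ (below_append.2 ⟨h1, hq⟩) (by
        rw [cnt_append, cnt_append, cnt_cons]
        simp only [↓reduceIte, cnt, List.countP_nil]
        omega))
      (by simpa using hc t)
    simpa using this

theorem Span.three {p q : List Letter} {s r t : Bool} (hp : Below (m + 2) p)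
    (hq : Below (m + 2) q)
    (IH : ∀ w, Below (m + 2) w → cnt (m + 1) w < cnt (m + 1) p + cnt (m + 1) q + 2 →
      Span (m + 2) b w) :
    Span (m + 2) b (p ++ (m + 1, s) :: (m, r) :: (m + 1, t) :: q) := by
  have bel : ∀ (i : ℕ) (s : Bool) (v : List Letter), i < m + 2 → Below (m + 2) v →
      Below (m + 2) ((i, s) :: v) := fun i s v hi hv => below_cons.2 ⟨hi, hv⟩
  -- the positive case
  have h0 : Span (m + 2) b (p ++ (m + 1, true) :: (m, true) :: (m + 1, true) :: q) := by
    apply Span.braid (by omega) (below_append.2 ⟨hp, hq⟩)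
    apply IH
    · exact below_append.2 ⟨hp, bel _ _ _ (by omega) (bel _ _ _ (by omega) (bel _ _ _ (by omega) hq))⟩
    · rw [cnt_append, cnt_cons, cnt_cons, cnt_cons]
      simp
      try omega
  -- the sign of the last letter
  have h1 : ∀ t, Span (m + 2) b (p ++ (m + 1, true) :: (m, true) :: (m + 1, t) :: q) := by
    intro t
    cases t with
    | true => exact h0
    | false =>
      have hb : Below (m + 2) ((p ++ [(m + 1, true), (m, true)]) ++ q) := by
        rw [below_append, below_append]
        exact ⟨⟨hp, bel _ _ _ (by omega) (bel _ _ _ (by omega) below_nil)⟩, hq⟩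
      have := Span.skein (base := b) (u := p ++ [(m + 1, true), (m, true)]) (v := q) (i := m + 1)
        (s := false) (by omega) hb
        (IH _ hb (by
          rw [cnt_append, cnt_append, cnt_cons, cnt_cons]
          simp [cnt]
          try omega))
        (by simpa using h0)
      simpa using this
  -- the sign of the middle letter
  have h2 : ∀ r t, Span (m + 2) b (p ++ (m + 1, true) :: (m, r) :: (m + 1, t) :: q) := by
    intro r t
    cases r with
    | true => exact h1 t
    | false =>
      have hb : Below (m + 2) ((p ++ [(m + 1, true)]) ++ (m + 1, t) :: q) := by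
        rw [below_append, below_append]
        exact ⟨⟨hp, bel _ _ _ (by omega) below_nil⟩, bel _ _ _ (by omega) hq⟩
      have := Span.skein (base := b) (u := p ++ [(m + 1, true)]) (v := (m + 1, t) :: q) (i := m)
        (s := false) (by omega) hb
        (by simpa using Span.two (s := true) (t := t) hp hq IH)
        (by simpa using h1 t)
      simpa using this
  -- the sign of the first letter
  cases s with
  | true => exact h2 r t
  | false =>
    have hb : Below (m + 2) (p ++ (m, r) :: (m + 1, t) :: q) :=
      below_append.2 ⟨hp, bel _ _ _ (by omega) (bel _ _ _ (by omega) hq)⟩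
    exact Span.skein (by omega) hb
      (IH _ hb (by
        rw [cnt_append, cnt_cons, cnt_cons]
        simp
        try omega))
      (h2 r t)

end reduce

theorem span_base : ∀ (m : ℕ) (w : List Letter), Below m w → Span m (Base m) w := by
  intro m
  induction m with
  | zero => intro w hw; exact .base hw
  | succ m IHm =>
    have key : ∀ (k : ℕ) (w : List Letter), Below (m + 1) w → cnt m w ≤ k →
        Span (m + 1) (Base (m + 1)) w := by
      intro k
      induction k with
      | zero =>
        intro w hw hk
        apply Span.base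
        left
        intro l hl
        have h1 := hw l hl
        have h2 : cnt m w = 0 := by omega
        rw [cnt, List.countP_eq_zero] at h2
        have := h2 l hl
        simp only [decide_eq_true_eq] at this
        omega
      | succ k IHk =>
        intro w hw hk
        by_cases h0 : Below m w
        · exact .base (Or.inl h0)
        obtain ⟨p, s, r, hp, hr, rfl⟩ := exists_first hw h0
        by_cases h1 : Below m r
        · exact .base (Or.inr ⟨p, s, r, hp, h1, rfl⟩)
        obtain ⟨u, t, q, hu, hq, rfl⟩ := exists_first hr h1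
        have hps : Below (m + 1) (p ++ [(m, s)]) := by
          rw [below_append, below_cons]
          exact ⟨hp.mono (by omega), by simp only; omega, below_nil⟩
        have htq : Below (m + 1) ((m, t) :: q) := below_cons.2 ⟨by simp only; omega, hq⟩
        have hcount : cnt m q + 2 ≤ k + 1 := by
          rw [cnt_append, cnt_cons, cnt_append, cnt_cons] at hk
          simp at hk
          omega
        have hcp : cnt m p = 0 := cnt_of_below hp
        have hspan := Span.context (m' := m + 1) (by omega) hps htq (IHm u hu)
        have hgoal : p ++ (m, s) :: (u ++ (m, t) :: q) = p ++ [(m, s)] ++ u ++ (m, t) :: q := by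
          simp
        rw [hgoal]
        refine Span.trans ?_ hspan
        rintro w ⟨y, hy, rfl⟩
        -- the reduced middle part
        have hfar : ∀ (P Q : List Letter) (c : List Letter), (∀ l ∈ c, l.1 + 1 < m) →
            Below (m + 1) P → Below (m + 1) Q → cnt m P + cnt m Q + 2 ≤ k + 1 →
            Span (m + 1) (Base (m + 1)) (P ++ (m, s) :: (c ++ (m, t) :: Q)) := by
          intro P Q c hc hP hQ hcn
          have hcb : Below m c := fun l hl => by have := hc l hl; omega
          have hcb' : Below (m + 1) c := hcb.mono (by omega)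
          apply Span.pass (by omega) c P _ hc hP (below_cons.2 ⟨by simp only; omega, hQ⟩)
          apply Span.two (below_append.2 ⟨hP, hcb'⟩) hQ
          intro w hw hlt
          apply IHk w hw
          rw [cnt_append, cnt_of_below hcb] at hlt
          omega
        cases m with
        | zero =>
          have hy' : y = [] := by
            cases y with
            | nil => rfl
            | cons l y => exact absurd (hy l (by simp)) (by omega)
          subst hy'
          have := hfar p q [] (by simp) (hp.mono (by omega)) hq (by omega)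
          simpa using this
        | succ m' =>
          rcases hy with hy | ⟨u1, r, v1, hu1, hv1, rfl⟩
          · have := hfar p q y (fun l hl => by have := hy l hl; omega) (hp.mono (by omega)) hq
              (by omega)
            simpa using this
          · -- move `u1` to the left and `v1` to the right
            have hu1' : Below (m' + 2) u1 := hu1.mono (by omega)
            have hv1' : Below (m' + 2) v1 := hv1.mono (by omega)
            have hcu : cnt (m' + 1) u1 = 0 := cnt_of_below (hu1.mono (by omega))
            have hcv : cnt (m' + 1) v1 = 0 := cnt_of_below (hv1.mono (by omega))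
            have hP : Below (m' + 2) (p ++ u1) := below_append.2 ⟨hp.mono (by omega), hu1'⟩
            have hQ : Below (m' + 2) (v1 ++ q) := below_append.2 ⟨hv1', hq⟩
            have h3 : Span (m' + 2) (Base (m' + 2))
                ((p ++ u1) ++ (m' + 1, s) :: (m', r) :: (m' + 1, t) :: (v1 ++ q)) := by
              apply Span.three hP hQ
              intro w hw hlt
              apply IHk w hw
              rw [cnt_append, cnt_append, hcu, hcv] at hlt
              omega
            -- move `v1`
            have h4 : Span (m' + 2) (Base (m' + 2))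
                ((p ++ u1 ++ [(m' + 1, s), (m', r)]) ++ v1 ++ (m' + 1, t) :: q) := by
              apply Span.passLeft (by omega) v1 _ q (fun l hl => by have := hv1 l hl; omega) _ hq
                (by simpa using h3)
              rw [below_append, below_cons, below_cons]
              exact ⟨hP, by simp only; omega, by simp only; omega, below_nil⟩
            have h5 : Span (m' + 2) (Base (m' + 2))
                (p ++ (m' + 1, s) :: (u1 ++ ((m', r) :: v1 ++ (m' + 1, t) :: q))) := by
              apply Span.pass (by omega) u1 p _ (fun l hl => by have := hu1 l hl; omega)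
                (hp.mono (by omega)) _ (by simpa using h4)
              rw [below_append, below_cons, below_cons]
              exact ⟨⟨by simp only; omega, hv1'⟩, by simp only; omega, hq⟩
            simpa using h5
    intro w hw
    exact key _ w hw le_rfl


/-- Universal coefficients: polynomials in `a`, `a⁻¹`, `z`, `z⁻¹`. -/
abbrev Coef : Type := MvPolynomial (Fin 4) ℤ

/-- The universal coefficient `a`. -/
abbrev cA : Coef := MvPolynomial.X 0
/-- The universal coefficient `a⁻¹`. -/
abbrev cA' : Coef := MvPolynomial.X 1
/-- The universal coefficient `z`. -/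
abbrev cZ : Coef := MvPolynomial.X 2
/-- The universal coefficient `z⁻¹`. -/
abbrev cZ' : Coef := MvPolynomial.X 3

/-- Evaluation of universal coefficients. -/
abbrev ev {R : Type*} [CommRing R] (a z : Rˣ) : Coef →ₐ[ℤ] R :=
  MvPolynomial.aeval ![(a : R), ((a⁻¹ : Rˣ) : R), (z : R), ((z⁻¹ : Rˣ) : R)]

section ev

variable {R : Type*} [CommRing R] (a z : Rˣ)

theorem ev_A : ev a z cA = a := by simp [ev]
theorem ev_A' : ev a z cA' = ((a⁻¹ : Rˣ) : R) := by simp [ev]
theorem ev_Z : ev a z cZ = z := by simp [ev]
theorem ev_Z' : ev a z cZ' = ((z⁻¹ : Rˣ) : R) := by simp [ev]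

end ev

/-- `Val m w U`: the universal polynomial `U` computes the value on the closure of the word `w` on
`m + 1` strands. -/
inductive Val : ℕ → List Letter → Coef → Prop
  | one : Val 0 [] 1
  | cancel {m u v i s U} : i < m → Below m (u ++ v) → Val m (u ++ v) U →
      Val m (u ++ (i, s) :: (i, !s) :: v) U
  | far {m u v i j s t U} : i < m → j < m → i + 1 < j ∨ j + 1 < i → Below m (u ++ v) →
      Val m (u ++ (j, t) :: (i, s) :: v) U → Val m (u ++ (i, s) :: (j, t) :: v) U
  | braid {m u v i U} : i + 1 < m → Below m (u ++ v) →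
      Val m (u ++ (i, true) :: (i + 1, true) :: (i, true) :: v) U →
      Val m (u ++ (i + 1, true) :: (i, true) :: (i + 1, true) :: v) U
  | skeinT {m u v i U₁ U₂} : i < m → Below m (u ++ v) → Val m (u ++ v) U₁ →
      Val m (u ++ (i, false) :: v) U₂ →
      Val m (u ++ (i, true) :: v) (cA * (cZ * U₁ + cA * U₂))
  | skeinF {m u v i U₁ U₂} : i < m → Below m (u ++ v) → Val m (u ++ v) U₁ →
      Val m (u ++ (i, true) :: v) U₂ →
      Val m (u ++ (i, false) :: v) (cA' * (cA' * U₂ - cZ * U₁))
  | circle {m w U} : Below m w → Val m w U → Val (m + 1) w (cZ' * (cA' - cA) * U)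
  | top {m u v s U} : Below m u → Below m v → Val m (v ++ u) U →
      Val (m + 1) (u ++ (m, s) :: v) U

/-- The value on the word `w` is given by a universal polynomial. -/
def Det (m : ℕ) (w : List Letter) : Prop := ∃ U, Val m w U

theorem Det.of_span {m : ℕ} {b : List Letter → Prop} (hb : ∀ w, b w → Det m w) :
    ∀ {w}, Span m b w → Det m w := by
  intro w hw
  induction hw with
  | base h => exact hb _ h
  | cancel h1 h2 _ ih =>
    obtain ⟨U, hU⟩ := ih
    exact ⟨U, .cancel h1 h2 hU⟩
  | far h1 h2 h3 h4 _ ih =>
    obtain ⟨U, hU⟩ := ih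
    exact ⟨U, .far h1 h2 h3 h4 hU⟩
  | braid h1 h2 _ ih =>
    obtain ⟨U, hU⟩ := ih
    exact ⟨U, .braid h1 h2 hU⟩
  | @skein u v i s h1 h2 _ _ ih1 ih2 =>
    obtain ⟨U₁, hU₁⟩ := ih1
    obtain ⟨U₂, hU₂⟩ := ih2
    cases s with
    | true => exact ⟨_, .skeinT h1 h2 hU₁ hU₂⟩
    | false => exact ⟨_, .skeinF h1 h2 hU₁ hU₂⟩

/-- Every braid word has a universal polynomial. -/
theorem exists_val : ∀ (m : ℕ) (w : List Letter), Below m w → Det m w := by
  intro m
  induction m with
  | zero =>
    intro w hw
    have : w = [] := by
      cases w with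
      | nil => rfl
      | cons l w => exact absurd (hw l (by simp)) (by omega)
    subst this
    exact ⟨1, .one⟩
  | succ m ih =>
    intro w hw
    refine Det.of_span ?_ (span_base (m + 1) w hw)
    rintro w (hw | ⟨u, s, v, hu, hv, rfl⟩)
    · obtain ⟨U, hU⟩ := ih w hw
      exact ⟨_, .circle hw hU⟩
    · obtain ⟨U, hU⟩ := ih (v ++ u) (below_append.2 ⟨hv, hu⟩)
      exact ⟨U, .top hu hv hU⟩

/-- The universal polynomials compute the values of all functions of HOMFLY type. -/
theorem Val.eq {R : Type*} [CommRing R] {a z : Rˣ} {P : ℕ → BraidWord → R}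
    (hP : IsHomfly a z P) {m : ℕ} {w : List Letter} {U : Coef} (h : Val m w U) :
    P (m + 1) w = ev a z U := by
  have bel : ∀ {m : ℕ} {i : ℕ} {s : Bool} {v : List Letter}, i < m → Below m v →
      Below m ((i, s) :: v) := fun hi hv => below_cons.2 ⟨hi, hv⟩
  have haa : (a : R) * ((a⁻¹ : Rˣ) : R) = 1 := a.mul_inv
  have hzz : (z : R) * ((z⁻¹ : Rˣ) : R) = 1 := z.mul_inv
  induction h with
  | one => rw [map_one]; exact hP.one
  | cancel h1 h2 _ ih =>
    have h3 := below_append.1 h2
    exact (hP.inv _ _ _ _ _ (valid_iff.2 (below_append.2 ⟨h3.1, bel h1 (bel h1 h3.2)⟩))).trans ih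
  | far h1 h2 h3 h4 _ ih =>
    have h5 := below_append.1 h4
    rcases h3 with h3 | h3
    · exact (hP.far _ _ _ _ _ _ _ (by omega)
        (valid_iff.2 (below_append.2 ⟨h5.1, bel h1 (bel h2 h5.2)⟩))).trans ih
    · exact (hP.far _ _ _ _ _ _ _ (by omega)
        (valid_iff.2 (below_append.2 ⟨h5.1, bel h2 (bel h1 h5.2)⟩))).symm.trans ih
  | @braid m u v i U h1 h2 _ ih =>
    have h5 := below_append.1 h2
    have hi : i < m := by omega
    exact (hP.braid _ _ _ _ (valid_iff.2 (below_append.2 ⟨h5.1,
      bel hi (bel h1 (bel hi h5.2))⟩))).symm.trans ih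
  | skeinT h1 h2 _ _ ih1 ih2 =>
    have h3 := below_append.1 h2
    have h := hP.skein _ _ _ _ (valid_iff.2 (below_append.2 ⟨h3.1, bel h1 h3.2⟩))
    rw [map_mul, map_add, map_mul, map_mul, ev_A, ev_Z, ← ih1, ← ih2]
    linear_combination (a : R) * h - P _ _ * haa
  | skeinF h1 h2 _ _ ih1 ih2 =>
    have h3 := below_append.1 h2
    have h := hP.skein _ _ _ _ (valid_iff.2 (below_append.2 ⟨h3.1, bel h1 h3.2⟩))
    rw [map_mul, map_sub, map_mul, map_mul, ev_A', ev_Z, ← ih1, ← ih2]
    linear_combination -((a⁻¹ : Rˣ) : R) * h - P _ _ * haa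
  | @circle m w U hw _ ih =>
    have h := hP.skein (m + 2) w [] m (valid_iff.2 (below_append.2 ⟨hw.mono (by omega),
      bel (by omega) below_nil⟩))
    rw [hP.markov m w true (valid_iff.2 hw), hP.markov m w false (valid_iff.2 hw),
      List.append_nil] at h
    rw [map_mul, map_mul, map_sub, ev_A', ev_A, ev_Z', ← ih]
    linear_combination -((z⁻¹ : Rˣ) : R) * h - P _ _ * hzz
  | @top m u v s U hu hv _ ih =>
    have h1 : u ++ (m, s) :: v = (u ++ [(m, s)]) ++ v := by simp
    have h2 : v ++ (u ++ [(m, s)]) = (v ++ u) ++ [(m, s)] := by simp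
    have h3 : Below (m + 1) ((u ++ [(m, s)]) ++ v) := by
      rw [below_append, below_append, below_cons]
      exact ⟨⟨hu.mono (by omega), by simp only; omega, below_nil⟩, hv.mono (by omega)⟩
    rw [h1, hP.conj _ _ _ (valid_iff.2 h3), h2,
      hP.markov _ _ _ (valid_iff.2 (below_append.2 ⟨hv, hu⟩)), ih]

end S8

theorem homfly_mem {R : Type*} [CommRing R] {a z : Rˣ} {P : ℕ → BraidWord → R}
    (h : IsHomfly a z P) {n : ℕ} (hn : 0 < n) {w : BraidWord} (hw : ValidWord n w) :
    ∃ U : MvPolynomial (Fin 4) ℤ,
      P n w = MvPolynomial.aeval ![(a : R), ((a⁻¹ : Rˣ) : R), (z : R), ((z⁻¹ : Rˣ) : R)] U := by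
  obtain ⟨m, rfl⟩ : ∃ m, n = m + 1 := ⟨n - 1, by omega⟩
  obtain ⟨U, hU⟩ := S8.exists_val m w (S8.valid_iff.1 hw)
  exact ⟨U, hU.eq h⟩

end Pool.Agent.Lib.MP_31c440_gt.HV
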