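import Pool.Agent.Lib.MP_31c440_gt.HV.S8_Unique

/-!
The density of the points `(m ^ (-N), m - 1 / m)`.
-/

noncomputable section

namespace Pool.Agent.Lib.MP_31c440_gt.HV

namespace S9a

open S8

/-- Evaluation of a polynomial in two variables. -/
def ev2 {R : Type*} [CommRing R] (a z : R) : Polynomial (Polynomial ℤ) →+* R :=
  Polynomial.eval₂RingHom (Polynomial.eval₂RingHom (Int.castRingHom R) z) a

theorem ev2_X {R : Type*} [CommRing R] (a z : R) : ev2 a z Polynomial.X = a := by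
  simp [ev2]

theorem ev2_CX {R : Type*} [CommRing R] (a z : R) : ev2 a z (Polynomial.C Polynomial.X) = z := by
  simp [ev2]

theorem map_ev2 {R S : Type*} [CommRing R] [CommRing S] (g : R →+* S) (a z : R)
    (G : Polynomial (Polynomial ℤ)) : g (ev2 a z G) = ev2 (g a) (g z) G := by
  have h : g.comp (ev2 a z) = ev2 (g a) (g z) := by
    apply Polynomial.ringHom_ext'
    · apply Polynomial.ringHom_ext'
      · exact RingHom.ext_int _ _
      · simp [ev2]
    · simp [ev2]
  exact DFunLike.congr_fun h G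

/-- The ideal of the relations `a a⁻¹ = 1`, `z z⁻¹ = 1`. -/
def J : Ideal Coef := Ideal.span {cA * cA' - 1, cZ * cZ' - 1}

theorem hA : cA * cA' - 1 ∈ J := Ideal.subset_span (by simp)

theorem hZ : cZ * cZ' - 1 ∈ J := Ideal.subset_span (by simp)

/-- Clearing denominators. -/
theorem exists_clear (U : Coef) : ∃ (M : ℕ) (G : Polynomial (Polynomial ℤ)),
    (cA * cZ) ^ M * U - ev2 cA cZ G ∈ J := by
  induction U using MvPolynomial.induction_on with
  | C c =>
    refine ⟨0, Polynomial.C (Polynomial.C c), ?_⟩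
    have : ev2 cA cZ (Polynomial.C (Polynomial.C c)) = MvPolynomial.C c := by
      simp [ev2]
    rw [this, pow_zero, one_mul, sub_self]
    exact J.zero_mem
  | add R S hR hS =>
    obtain ⟨M, G, hG⟩ := hR
    obtain ⟨N, H, hH⟩ := hS
    refine ⟨M + N, (Polynomial.X * Polynomial.C Polynomial.X) ^ N * G +
      (Polynomial.X * Polynomial.C Polynomial.X) ^ M * H, ?_⟩
    rw [map_add, map_mul, map_mul, map_pow, map_pow, map_mul, ev2_X, ev2_CX]
    have h := J.add_mem (J.mul_mem_left ((cA * cZ) ^ N) hG) (J.mul_mem_left ((cA * cZ) ^ M) hH)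
    have he : (cA * cZ) ^ (M + N) * (R + S) -
        ((cA * cZ) ^ N * ev2 cA cZ G + (cA * cZ) ^ M * ev2 cA cZ H) =
        (cA * cZ) ^ N * ((cA * cZ) ^ M * R - ev2 cA cZ G) +
          (cA * cZ) ^ M * ((cA * cZ) ^ N * S - ev2 cA cZ H) := by ring
    rw [he]
    exact h
  | mul_X R i hR =>
    obtain ⟨M, G, hG⟩ := hR
    have hcase : i = 0 ∨ i = 1 ∨ i = 2 ∨ i = 3 := by omega
    rcases hcase with rfl | rfl | rfl | rfl
    · refine ⟨M, G * Polynomial.X, ?_⟩
      rw [map_mul, ev2_X]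
      have he : (cA * cZ) ^ M * (R * cA) - ev2 cA cZ G * cA =
        cA * ((cA * cZ) ^ M * R - ev2 cA cZ G) := by ring
      rw [he]
      exact J.mul_mem_left _ hG
    · refine ⟨M + 1, G * Polynomial.C Polynomial.X, ?_⟩
      rw [map_mul, ev2_CX]
      have he : (cA * cZ) ^ (M + 1) * (R * cA') - ev2 cA cZ G * cZ =
        cZ * ((cA * cZ) ^ M * R - ev2 cA cZ G) +
          ((cA * cZ) ^ M * R * cZ) * (cA * cA' - 1) := by ring
      rw [he]
      exact J.add_mem (J.mul_mem_left _ hG) (J.mul_mem_left _ hA)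
    · refine ⟨M, G * Polynomial.C Polynomial.X, ?_⟩
      rw [map_mul, ev2_CX]
      have he : (cA * cZ) ^ M * (R * cZ) - ev2 cA cZ G * cZ =
        cZ * ((cA * cZ) ^ M * R - ev2 cA cZ G) := by ring
      rw [he]
      exact J.mul_mem_left _ hG
    · refine ⟨M + 1, G * Polynomial.X, ?_⟩
      rw [map_mul, ev2_X]
      have he : (cA * cZ) ^ (M + 1) * (R * cZ') - ev2 cA cZ G * cA =
        cA * ((cA * cZ) ^ M * R - ev2 cA cZ G) +
          ((cA * cZ) ^ M * R * cA) * (cZ * cZ' - 1) := by ring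
      rw [he]
      exact J.add_mem (J.mul_mem_left _ hG) (J.mul_mem_left _ hZ)

theorem ev_J {R : Type*} [CommRing R] (a z : Rˣ) {U : Coef} (h : U ∈ J) : ev a z U = 0 := by
  have h1 : J ≤ RingHom.ker (ev a z) := by
    rw [J, Ideal.span_le]
    rintro x (rfl | rfl)
    · rw [SetLike.mem_coe, RingHom.mem_ker, map_sub, map_mul, ev_A, ev_A', map_one, Units.mul_inv,
        sub_self]
    · rw [SetLike.mem_coe, RingHom.mem_ker, map_sub, map_mul, ev_Z, ev_Z', map_one, Units.mul_inv,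
        sub_self]
  exact RingHom.mem_ker.1 (h1 h)

theorem ev_clear {R : Type*} [CommRing R] (a z : Rˣ) {U : Coef} {M : ℕ}
    {G : Polynomial (Polynomial ℤ)} (h : (cA * cZ) ^ M * U - ev2 cA cZ G ∈ J) :
    ((a : R) * z) ^ M * ev a z U = ev2 (a : R) (z : R) G := by
  have h1 := ev_J a z h
  rw [map_sub, map_mul, map_pow, map_mul, ev_A, ev_Z, sub_eq_zero] at h1
  rw [h1]
  have h2 := map_ev2 (ev a z : Coef →+* R) cA cZ G
  simp only [RingHom.coe_coe] at h2
  rw [h2, ev_A, ev_Z]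

/-- A polynomial in two variables over `ℤ` which vanishes at enough points is zero. -/
theorem ev2_zero {k : Type*} [Field k] [CharZero k] {G : Polynomial (Polynomial ℤ)} {Z : Set k}
    (hZ : Z.Infinite) (h : ∀ z ∈ Z, {a : k | ev2 a z G = 0}.Infinite) : G = 0 := by
  ext1 j
  rw [Polynomial.coeff_zero]
  have h1 : ∀ z ∈ Z, (G.map (Polynomial.eval₂RingHom (Int.castRingHom k) z)) = 0 := by
    intro z hz
    apply Polynomial.eq_zero_of_infinite_isRoot
    refine (h z hz).mono ?_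
    intro a ha
    simp only [Set.mem_ofPred_eq, Polynomial.IsRoot.def, Polynomial.eval_map]
    exact ha
  have h2 : (G.coeff j).map (Int.castRingHom k) = 0 := by
    apply Polynomial.eq_zero_of_infinite_isRoot
    refine hZ.mono ?_
    intro z hz
    have := congrArg (fun q => Polynomial.coeff q j) (h1 z hz)
    simp only [Polynomial.coeff_map, Polynomial.coeff_zero] at this
    simp only [Set.mem_ofPred_eq, Polynomial.IsRoot.def, Polynomial.eval_map]
    exact this
  exact (Polynomial.map_eq_zero_iff (Int.castRingHom k).injective_int).1 h2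

theorem sub_inv_mono {m m' : ℕ} (hm : 2 ≤ m) (h : m < m') :
    (m : ℚ) - (m : ℚ)⁻¹ < (m' : ℚ) - (m' : ℚ)⁻¹ := by
  have h1 : (0 : ℚ) < m := by exact_mod_cast (by omega : 0 < m)
  have h2 : (m : ℚ) < m' := by exact_mod_cast h
  have h3 : (m' : ℚ)⁻¹ ≤ (m : ℚ)⁻¹ := inv_anti₀ h1 h2.le
  linarith

theorem sub_inv_ne {m : ℕ} (hm : 2 ≤ m) : (m : ℚ) - (m : ℚ)⁻¹ ≠ 0 := by
  have h1 : (2 : ℚ) ≤ m := by exact_mod_cast hm
  have h2 : (m : ℚ)⁻¹ ≤ 2⁻¹ := inv_anti₀ (by norm_num) h1
  have h3 : (0 : ℚ) < (m : ℚ) - (m : ℚ)⁻¹ := by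
    norm_num at h2
    linarith
  exact h3.ne'

end S9a

open S9a in
theorem density (U : MvPolynomial (Fin 4) ℤ)
    (h : ∀ m N : ℕ, 2 ≤ m → 2 ≤ N →
      MvPolynomial.aeval ![((m : ℚ) ^ N)⁻¹, (m : ℚ) ^ N, (m : ℚ) - (m : ℚ)⁻¹,
        ((m : ℚ) - (m : ℚ)⁻¹)⁻¹] U = 0)
    {R : Type*} [CommRing R] (a z : Rˣ) :
    MvPolynomial.aeval ![(a : R), ((a⁻¹ : Rˣ) : R), (z : R), ((z⁻¹ : Rˣ) : R)] U = 0 := by
  obtain ⟨M, G, hG⟩ := exists_clear U
  have hG0 : G = 0 := by
    apply ev2_zero (k := ℚ) (Z := Set.range fun m : ℕ => ((m + 2 : ℕ) : ℚ) - ((m + 2 : ℕ) : ℚ)⁻¹)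
    · apply Set.infinite_range_of_injective
      intro m m' hmm
      by_contra hne
      rcases lt_or_gt_of_ne hne with hlt | hlt
      · exact absurd hmm (sub_inv_mono (by omega) (by omega)).ne
      · exact absurd hmm (sub_inv_mono (by omega) (by omega)).ne'
    · rintro _ ⟨m, rfl⟩
      have hm0 : ((m + 2 : ℕ) : ℚ) ≠ 0 := by positivity
      refine Set.Infinite.mono (s := Set.range fun N : ℕ => (((m + 2 : ℕ) : ℚ) ^ (N + 2))⁻¹) ?_ ?_
      · rintro _ ⟨N, rfl⟩
        simp only [Set.mem_ofPred_eq]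
        have hz := sub_inv_ne (m := m + 2) (by omega)
        have ha : (((m + 2 : ℕ) : ℚ) ^ (N + 2))⁻¹ ≠ 0 := inv_ne_zero (pow_ne_zero _ hm0)
        have h1 := ev_clear (Units.mk0 _ ha) (Units.mk0 _ hz) hG
        have h2 := h (m + 2) (N + 2) (by omega) (by omega)
        simp only [Units.val_mk0] at h1
        rw [← h1]
        have h3 : S8.ev (Units.mk0 _ ha) (Units.mk0 _ hz) U = 0 := by
          rw [← h2]
          simp only [S8.ev, Units.val_mk0, Units.val_inv_eq_inv_val, inv_inv]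
        rw [h3, mul_zero]
      · apply Set.infinite_range_of_injective
        intro N N' hNN
        simp only [inv_inj] at hNN
        have h1 : (m + 2) ^ (N + 2) = (m + 2) ^ (N' + 2) := by exact_mod_cast hNN
        have := Nat.pow_right_injective (by omega : 2 ≤ m + 2) h1
        omega
  have h1 := ev_clear a z hG
  rw [hG0, map_zero] at h1
  have h2 : IsUnit (((a : R) * z) ^ M) := (a.isUnit.mul z.isUnit).pow M
  exact (h2.mul_right_eq_zero).1 h1

end Pool.Agent.Lib.MP_31c440_gt.HV
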