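import Pool.Agent.Lib.MP_31c440_gt.HV.S8_Unique

/-!
The universal polynomials of functions of HOMFLY type.
-/

noncomputable section

namespace Pool.Agent.Lib.MP_31c440_gt.HV

/-- The universal polynomial. -/
theorem homfly_universal.{w} (n : ℕ) (hn : 0 < n) (x : BraidWord) (hx : ValidWord n x) :
    ∃ U : MvPolynomial (Fin 4) ℤ, ∀ (R : Type w) [CommRing R] (a z : Rˣ)
      (P : ℕ → BraidWord → R), IsHomfly a z P →
      P n x = MvPolynomial.aeval ![(a : R), ((a⁻¹ : Rˣ) : R), (z : R), ((z⁻¹ : Rˣ) : R)] U := by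
  obtain ⟨m, rfl⟩ : ∃ m, n = m + 1 := ⟨n - 1, by omega⟩
  obtain ⟨U, hU⟩ := S8.exists_val m x (S8.valid_iff.1 hx)
  exact ⟨U, fun R _ a z P hP => hU.eq hP⟩

/-- The universal polynomial, for rings in two universes. -/
theorem homfly_universal'.{w, w'} (n : ℕ) (hn : 0 < n) (x : BraidWord) (hx : ValidWord n x) :
    ∃ U : MvPolynomial (Fin 4) ℤ, (∀ (R : Type w) [CommRing R] (a z : Rˣ)
      (P : ℕ → BraidWord → R), IsHomfly a z P →
      P n x = MvPolynomial.aeval ![(a : R), ((a⁻¹ : Rˣ) : R), (z : R), ((z⁻¹ : Rˣ) : R)] U) ∧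
      ∀ (R : Type w') [CommRing R] (a z : Rˣ)
      (P : ℕ → BraidWord → R), IsHomfly a z P →
      P n x = MvPolynomial.aeval ![(a : R), ((a⁻¹ : Rˣ) : R), (z : R), ((z⁻¹ : Rˣ) : R)] U := by
  obtain ⟨m, rfl⟩ : ∃ m, n = m + 1 := ⟨n - 1, by omega⟩
  obtain ⟨U, hU⟩ := S8.exists_val m x (S8.valid_iff.1 hx)
  exact ⟨U, fun R _ a z P hP => hU.eq hP, fun R _ a z P hP => hU.eq hP⟩

end Pool.Agent.Lib.MP_31c440_gt.HV
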