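import Pool.Agent.Lib.MP_31c440_gt.HV.K15_Moy
import Pool.Agent.Lib.MP_31c440_gt.HV.S6_R3b
import Pool.Agent.Lib.MP_31c440_gt.HV.S7d_Homfly
import Pool.Agent.Lib.MP_31c440_gt.HV.S9a_Density
import Pool.Agent.Lib.MP_31c440_gt.HV.S9b_Universal

/-!
The HOMFLY polynomial of closed braids: existence, and invariance under virtualisation.
-/

noncomputable section

namespace Pool.Agent.Lib.MP_31c440_gt.HV

open MvPolynomial

/-- Ring homomorphisms commute with the evaluation of universal polynomials. -/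
theorem map_aeval_units {R S : Type*} [CommRing R] [CommRing S] (g : R →+* S) (a z : Rˣ)
    (W : MvPolynomial (Fin 4) ℤ) :
    g (aeval ![(a : R), ((a⁻¹ : Rˣ) : R), (z : R), ((z⁻¹ : Rˣ) : R)] W) =
      aeval ![((Units.map g.toMonoidHom a : Sˣ) : S),
        (((Units.map g.toMonoidHom a)⁻¹ : Sˣ) : S), ((Units.map g.toMonoidHom z : Sˣ) : S),
        (((Units.map g.toMonoidHom z)⁻¹ : Sˣ) : S)] W := by
  have h : g.comp (aeval ![(a : R), ((a⁻¹ : Rˣ) : R), (z : R), ((z⁻¹ : Rˣ) : R)] :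
        MvPolynomial (Fin 4) ℤ →ₐ[ℤ] R).toRingHom =
      (aeval ![((Units.map g.toMonoidHom a : Sˣ) : S),
        (((Units.map g.toMonoidHom a)⁻¹ : Sˣ) : S), ((Units.map g.toMonoidHom z : Sˣ) : S),
        (((Units.map g.toMonoidHom z)⁻¹ : Sˣ) : S)] : MvPolynomial (Fin 4) ℤ →ₐ[ℤ] S).toRingHom := by
    refine MvPolynomial.ringHom_ext (fun r => by simp) (fun i => ?_)
    fin_cases i
    · simp
    · simp only [Fin.mk_one, AlgHom.toRingHom_eq_coe, RingHom.comp_apply, RingHom.coe_coe, aeval_X,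
        Matrix.cons_val_one, Matrix.cons_val_zero, ← map_inv]
      rfl
    · simp
    · simp only [Fin.reduceFinMk, AlgHom.toRingHom_eq_coe, RingHom.comp_apply, RingHom.coe_coe,
        aeval_X, Matrix.cons_val, ← map_inv]
      rfl
  exact DFunLike.congr_fun h W

/-- For every `k, N ≥ 2` there is a function of HOMFLY type with `a = k ^ (-N)`, `z = k - 1 / k`
which is invariant under all moves. -/
theorem exists_special (k N : ℕ) (hk : 2 ≤ k) (hN : 2 ≤ N) :
    ∃ (a z : ℚˣ) (P : ℕ → BraidWord → ℚ), IsHomfly a z P ∧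
      ![(a : ℚ), ((a⁻¹ : ℚˣ) : ℚ), (z : ℚ), ((z⁻¹ : ℚˣ) : ℚ)] =
        ![((k : ℚ) ^ N)⁻¹, (k : ℚ) ^ N, (k : ℚ) - (k : ℚ)⁻¹, ((k : ℚ) - (k : ℚ)⁻¹)⁻¹] ∧
      ∀ m n x y, Related (closure m x) (closure n y) → P m x = P n y := by
  have hk1 : (1 : ℚ) < k := by exact_mod_cast hk
  have hk0 : (k : ℚ) ≠ 0 := by positivity
  have hkN : (1 : ℚ) < (k : ℚ) ^ N := one_lt_pow₀ hk1 (by omega)
  have hz : (k : ℚ) - (k : ℚ)⁻¹ ≠ 0 := by
    have h1 : (k : ℚ)⁻¹ < 1 := inv_lt_one_of_one_lt₀ hk1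
    have : (0 : ℚ) < (k : ℚ) - (k : ℚ)⁻¹ := by linarith
    exact this.ne'
  have hd : (k : ℚ) ^ N - ((k : ℚ) ^ N)⁻¹ ≠ 0 := by
    have h1 : ((k : ℚ) ^ N)⁻¹ < 1 := inv_lt_one_of_one_lt₀ hkN
    have : (0 : ℚ) < (k : ℚ) ^ N - ((k : ℚ) ^ N)⁻¹ := by linarith
    exact this.ne'
  have hF : IsMOY (k : ℚ) ((k : ℚ) ^ N) (FG ℚ (Units.mk0 (k : ℚ) hk0) (N + 1)) :=
    isMOY_FG (k := ℚ) (q := Units.mk0 (k : ℚ) hk0) N hN hz
  have ht : (k : ℚ) ^ N ≠ 0 := by positivity
  have ht' : ((k : ℚ) ^ N)⁻¹ ≠ 0 := inv_ne_zero ht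
  refine ⟨Units.mk0 _ ht', Units.mk0 _ hz, _,
    isHomfly_Phi hF hk0 ht hz hd (Units.mk0 _ ht') (Units.mk0 _ hz) rfl rfl, ?_, ?_⟩
  · simp
  · intro m n x y h
    rw [Phi_related hF hk0 ht hz h]

theorem homfly_virtualisation.{w} {R : Type w} [CommRing R] (a z : Rˣ)
    (P : ℕ → BraidWord → R)
    (hP : IsHomfly a z P) (m n : ℕ) (hm : 0 < m) (hn : 0 < n) (x y : BraidWord)
    (hx : ValidWord m x) (hy : ValidWord n y) (h : Related (closure m x) (closure n y)) :
    P m x = P n y := by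
  obtain ⟨U, hU, hU'⟩ := homfly_universal'.{w, 0} m hm x hx
  obtain ⟨V, hV, hV'⟩ := homfly_universal'.{w, 0} n hn y hy
  rw [hU R a z P hP, hV R a z P hP, ← sub_eq_zero, ← map_sub]
  refine density (U - V) (fun k N hk hN => ?_) a z
  obtain ⟨a', z', Q, hQ, he, hr⟩ := exists_special k N hk hN
  have e1 := hU' ℚ a' z' Q hQ
  have e2 := hV' ℚ a' z' Q hQ
  rw [he] at e1 e2
  rw [map_sub, ← e1, ← e2, hr m n x y h, sub_self]

theorem validWord_append {n : ℕ} {u v : BraidWord} :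
    ValidWord n (u ++ v) ↔ ValidWord n u ∧ ValidWord n v := by
  simp only [ValidWord, List.mem_append]
  exact ⟨fun h => ⟨fun x hx => h x (Or.inl hx), fun x hx => h x (Or.inr hx)⟩,
    fun h x hx => hx.elim (h.1 x) (h.2 x)⟩

theorem validWord_cons {n : ℕ} {l : ℕ × Bool} {v : BraidWord} :
    ValidWord n (l :: v) ↔ l.1 + 1 < n ∧ ValidWord n v := by
  simp [ValidWord]

/-- The HOMFLY polynomial exists: for all units `a`, `z` of every commutative ring there is a
function of HOMFLY type. -/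
theorem homfly_exists {R : Type*} [CommRing R] (a z : Rˣ) :
    ∃ P : ℕ → BraidWord → R, IsHomfly a z P := by
  classical
  have hU : ∀ (n : ℕ) (w : BraidWord), ∃ U : MvPolynomial (Fin 4) ℤ,
      0 < n → ValidWord n w → ∀ (a z : ℚˣ) (P : ℕ → BraidWord → ℚ), IsHomfly a z P →
        P n w = aeval ![(a : ℚ), ((a⁻¹ : ℚˣ) : ℚ), (z : ℚ), ((z⁻¹ : ℚˣ) : ℚ)] U := by
    intro n w
    by_cases h : 0 < n ∧ ValidWord n w
    · obtain ⟨U, hU⟩ := homfly_universal.{0} n h.1 w h.2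
      exact ⟨U, fun _ _ => hU ℚ⟩
    · exact ⟨0, fun h1 h2 => absurd ⟨h1, h2⟩ h⟩
  choose U hU using hU
  have hd : ∀ V : MvPolynomial (Fin 4) ℤ, (∀ (a z : ℚˣ) (P : ℕ → BraidWord → ℚ),
      IsHomfly a z P → aeval ![(a : ℚ), ((a⁻¹ : ℚˣ) : ℚ), (z : ℚ), ((z⁻¹ : ℚˣ) : ℚ)] V = 0) →
      aeval ![(a : R), ((a⁻¹ : Rˣ) : R), (z : R), ((z⁻¹ : Rˣ) : R)] V = 0 := by
    intro V hV
    refine density V (fun k N hk hN => ?_) a z
    obtain ⟨a', z', Q, hQ, he, -⟩ := exists_special k N hk hN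
    rw [← he]
    exact hV a' z' Q hQ
  have hd2 : ∀ V W : MvPolynomial (Fin 4) ℤ, (∀ (a z : ℚˣ) (P : ℕ → BraidWord → ℚ),
      IsHomfly a z P → aeval ![(a : ℚ), ((a⁻¹ : ℚˣ) : ℚ), (z : ℚ), ((z⁻¹ : ℚˣ) : ℚ)] V =
        aeval ![(a : ℚ), ((a⁻¹ : ℚˣ) : ℚ), (z : ℚ), ((z⁻¹ : ℚˣ) : ℚ)] W) →
      aeval ![(a : R), ((a⁻¹ : Rˣ) : R), (z : R), ((z⁻¹ : Rˣ) : R)] V =
        aeval ![(a : R), ((a⁻¹ : Rˣ) : R), (z : R), ((z⁻¹ : Rˣ) : R)] W := by
    intro V W h
    rw [← sub_eq_zero, ← map_sub]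
    refine hd _ fun a z P hP => ?_
    rw [map_sub, h a z P hP, sub_self]
  refine ⟨fun n w => if 0 < n then
    aeval ![(a : R), ((a⁻¹ : Rˣ) : R), (z : R), ((z⁻¹ : Rˣ) : R)] (U n w) else 0, ?_, ?_, ?_, ?_,
    ?_, ?_, ?_⟩
  · rw [if_pos one_pos]
    have h := hd2 (U 1 []) 1 fun a z P hP => by
      rw [← hU 1 [] one_pos (by simp [ValidWord]) a z P hP, hP.one, map_one]
    rw [h, map_one]
  · intro n u v hv
    rcases Nat.eq_zero_or_pos n with rfl | hn
    · rfl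
    · rw [if_pos hn, if_pos hn]
      refine hd2 _ _ fun a z P hP => ?_
      rw [← hU n _ hn hv a z P hP, ← hU n _ hn
        (validWord_append.2 (validWord_append.1 hv).symm) a z P hP, hP.conj n u v hv]
  · intro n u v i s hv
    rcases Nat.eq_zero_or_pos n with rfl | hn
    · rfl
    · rw [if_pos hn, if_pos hn]
      refine hd2 _ _ fun a z P hP => ?_
      have hv' : ValidWord n (u ++ v) := by
        simp only [validWord_append, validWord_cons] at hv ⊢
        exact ⟨hv.1, hv.2.2.2⟩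
      rw [← hU n _ hn hv a z P hP, ← hU n _ hn hv' a z P hP, hP.inv n u v i s hv]
  · intro n u v i j s t hij hv
    rcases Nat.eq_zero_or_pos n with rfl | hn
    · rfl
    · rw [if_pos hn, if_pos hn]
      refine hd2 _ _ fun a z P hP => ?_
      have hv' : ValidWord n (u ++ (j, t) :: (i, s) :: v) := by
        simp only [validWord_append, validWord_cons] at hv ⊢
        exact ⟨hv.1, hv.2.2.1, hv.2.1, hv.2.2.2⟩
      rw [← hU n _ hn hv a z P hP, ← hU n _ hn hv' a z P hP, hP.far n u v i j s t hij hv]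
  · intro n u v i hv
    rcases Nat.eq_zero_or_pos n with rfl | hn
    · rfl
    · rw [if_pos hn, if_pos hn]
      refine hd2 _ _ fun a z P hP => ?_
      have hv' : ValidWord n (u ++ (i + 1, true) :: (i, true) :: (i + 1, true) :: v) := by
        simp only [validWord_append, validWord_cons] at hv ⊢
        exact ⟨hv.1, hv.2.2.1, hv.2.1, hv.2.2.1, hv.2.2.2.2⟩
      rw [← hU n _ hn hv a z P hP, ← hU n _ hn hv' a z P hP, hP.braid n u v i hv]
  · intro n w s hw
    rw [if_pos (by omega), if_pos (by omega)]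
    refine hd2 _ _ fun a z P hP => ?_
    have hv' : ValidWord (n + 2) (w ++ [(n, s)]) := by
      simp only [validWord_append, validWord_cons]
      refine ⟨fun x hx => ?_, by omega, by simp [ValidWord]⟩
      have := hw x hx
      omega
    rw [← hU (n + 2) _ (by omega) hv' a z P hP, ← hU (n + 1) _ (by omega) hw a z P hP,
      hP.markov n w s hw]
  · intro n u v i hv
    rcases Nat.eq_zero_or_pos n with rfl | hn
    · simp
    · simp only [if_pos hn]
      have hv' : ValidWord n (u ++ (i, false) :: v) := by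
        simp only [validWord_append, validWord_cons] at hv ⊢
        exact hv
      have hv'' : ValidWord n (u ++ v) := by
        simp only [validWord_append, validWord_cons] at hv ⊢
        exact ⟨hv.1, hv.2.2⟩
      have h := hd2 (X 1 * U n (u ++ (i, true) :: v) - X 0 * U n (u ++ (i, false) :: v))
        (X 2 * U n (u ++ v)) fun a z P hP => by
          have h1 := hP.skein n u v i hv
          rw [hU n _ hn hv a z P hP, hU n _ hn hv' a z P hP, hU n _ hn hv'' a z P hP] at h1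
          simpa using h1
      simpa using h

end Pool.Agent.Lib.MP_31c440_gt.HV
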